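import Pool.Agent.Lib_MP_1dbf07_co.Defs

namespace Pool.Agent.Lib_MP_1dbf07_co

open MeasureTheory Set Filter Topology
open scoped Real Nat PowerSeries

noncomputable section

theorem fs_zero (X : ℝ) : fs X 0 = 0 := by rw [fs]

theorem fs_one (X : ℝ) : fs X 1 = 1 := by rw [fs]

theorem fs_succ_succ (X : ℝ) (n : ℕ) : fs X (n + 2) = (1 + X) * fs X (n + 1)
      + ∑ p ∈ Finset.HasAntidiagonal.antidiagonal (n + 2), fs X p.1 * fs X p.2
      + X * ∑ p ∈ Finset.HasAntidiagonal.antidiagonal (n + 1), fs X p.1 * fs X p.2 := by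
  have key : ∀ m : ℕ, ∑ p ∈ Finset.HasAntidiagonal.antidiagonal (m + 1), fs X p.1 * fs X p.2
      = ∑ i : Fin m, fs X (i.1 + 1) * fs X (m - i.1) := by
    intro m
    rw [Finset.Nat.sum_antidiagonal_eq_sum_range_succ (fun i j => fs X i * fs X j),
      Finset.sum_range_succ', Finset.sum_range_succ]
    rw [show m + 1 - (m + 1) = 0 by omega, fs_zero, mul_zero, zero_mul, add_zero, add_zero,
      Finset.sum_range]
    refine Finset.sum_congr rfl fun i _ => ?_
    rw [show m + 1 - (i.1 + 1) = m - i.1 by omega]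
  rw [key (n + 1), key n]
  conv_lhs => rw [fs]

/-- The quadratic equation of `f`. -/
theorem fs_series (X : ℝ) :
    PowerSeries.mk (fs X) = PowerSeries.X
      + PowerSeries.C (1 + X) * PowerSeries.X * PowerSeries.mk (fs X)
      + PowerSeries.mk (fs X) ^ 2
      + PowerSeries.C X * PowerSeries.X * PowerSeries.mk (fs X) ^ 2 := by
  have hsq : ∀ n, PowerSeries.coeff n (PowerSeries.mk (fs X) ^ 2)
      = ∑ p ∈ Finset.HasAntidiagonal.antidiagonal n, fs X p.1 * fs X p.2 := by
    intro n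
    rw [sq, PowerSeries.coeff_mul]
    simp only [PowerSeries.coeff_mk]
  ext n
  rcases n with _ | _ | n
  · simp [fs_zero]
  · rw [map_add, map_add, map_add, hsq, mul_assoc, mul_assoc, PowerSeries.coeff_C_mul,
      PowerSeries.coeff_C_mul, mul_comm PowerSeries.X, mul_comm PowerSeries.X,
      PowerSeries.coeff_succ_mul_X, PowerSeries.coeff_succ_mul_X, hsq]
    simp [fs_zero, fs_one, PowerSeries.coeff_X]
    simp [Finset.Nat.antidiagonal_succ, fs_zero]
  · rw [map_add, map_add, map_add, hsq, mul_assoc, mul_assoc, PowerSeries.coeff_C_mul,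
      PowerSeries.coeff_C_mul, mul_comm PowerSeries.X, mul_comm PowerSeries.X,
      PowerSeries.coeff_succ_mul_X, PowerSeries.coeff_succ_mul_X, hsq]
    rw [PowerSeries.coeff_mk, fs_succ_succ, PowerSeries.coeff_mk, PowerSeries.coeff_X,
      if_neg (by omega)]
    ring

/-- The square root. -/
theorem R0_sq (X : ℝ) :
    (1 - PowerSeries.C (1 + X) * PowerSeries.X
      - 2 * (1 + PowerSeries.C X * PowerSeries.X) * PowerSeries.mk (fs X)) ^ 2
      = 1 - PowerSeries.C (2 * (3 + X)) * PowerSeries.X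
        + PowerSeries.C ((1 - X) ^ 2) * PowerSeries.X ^ 2 := by
  have h := fs_series X
  set f := PowerSeries.mk (fs X) with hf
  have e1 : (PowerSeries.C (2 * (3 + X)) : PowerSeries ℝ) = 2 * (3 + PowerSeries.C X) := by
    simp only [map_mul, map_add]
    rfl
  have e2 : (PowerSeries.C ((1 - X) ^ 2) : PowerSeries ℝ) = (1 - PowerSeries.C X) ^ 2 := by
    simp
  have e3 : (PowerSeries.C (1 + X) : PowerSeries ℝ) = 1 + PowerSeries.C X := by simp
  rw [e1, e2, e3]
  rw [e3] at h
  set C := (PowerSeries.C X : PowerSeries ℝ)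
  set Z := (PowerSeries.X : PowerSeries ℝ)
  linear_combination (-4 * (1 + C * Z)) * h

/-- The recursion of the cumulants. -/
theorem kap_rec (m : ℕ → ℝ) (h0 : m 0 = 1) (n : ℕ) (hn : 1 ≤ n) :
    kap m n = m n - ∑ j ∈ Finset.Ico 1 n, ((n - 1).choose (j - 1) : ℝ) * kap m j * m (n - j) := by
  obtain ⟨k, rfl⟩ : ∃ k, n = k + 1 := ⟨n - 1, by omega⟩
  set K := PowerSeries.derivative ℝ (eps m) * (eps m)⁻¹ with hK
  have hc : PowerSeries.constantCoeff (eps m) ≠ 0 := by
    rw [← PowerSeries.coeff_zero_eq_constantCoeff_apply, eps, PowerSeries.coeff_mk]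
    simp [h0]
  have hKM : K * eps m = PowerSeries.derivative ℝ (eps m) := by
    rw [hK, mul_assoc, PowerSeries.inv_mul_cancel _ hc, mul_one]
  have hcoef := congrArg (PowerSeries.coeff k) hKM
  rw [PowerSeries.coeff_mul, Finset.Nat.sum_antidiagonal_eq_sum_range_succ
    (fun i j => PowerSeries.coeff i K * PowerSeries.coeff j (eps m)),
    Finset.sum_range_succ, PowerSeries.coeff_derivative] at hcoef
  simp only [eps, PowerSeries.coeff_mk, Nat.sub_self, Nat.factorial_zero, Nat.cast_one, div_one,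
    h0, mul_one] at hcoef
  have hkap : ∀ i, PowerSeries.coeff i K = kap m (i + 1) / (i ! : ℝ) := by
    intro i
    rw [kap, Nat.add_sub_cancel]
    have : (i ! : ℝ) ≠ 0 := by exact_mod_cast Nat.factorial_ne_zero i
    field_simp
    rw [hK]
  simp only [hkap] at hcoef
  have hk : (k ! : ℝ) ≠ 0 := by exact_mod_cast Nat.factorial_ne_zero k
  have h2 : kap m (k + 1) / (k ! : ℝ) = m (k + 1) / ((k + 1)! : ℝ) * (k + 1)
      - ∑ x ∈ Finset.range k, kap m (x + 1) / (x ! : ℝ) * (m (k - x) / ((k - x)! : ℝ)) := by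
    linarith
  have h3 : kap m (k + 1) = (k ! : ℝ) * (m (k + 1) / ((k + 1)! : ℝ) * (k + 1)
      - ∑ x ∈ Finset.range k, kap m (x + 1) / (x ! : ℝ) * (m (k - x) / ((k - x)! : ℝ))) := by
    rw [← h2]; field_simp
  rw [h3, mul_sub, Finset.mul_sum]
  congr 1
  · rw [Nat.factorial_succ]
    push_cast
    field_simp
  · rw [Finset.sum_Ico_eq_sum_range, Nat.add_sub_cancel]
    refine Finset.sum_congr rfl fun x hx => ?_
    rw [Finset.mem_range] at hx
    rw [show 1 + x - 1 = x by omega, show 1 + x = x + 1 by omega,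
      show k + 1 - (x + 1) = k - x by omega, Nat.cast_choose ℝ hx.le]
    have h5 : (x ! : ℝ) ≠ 0 := by exact_mod_cast Nat.factorial_ne_zero x
    have h6 : ((k - x)! : ℝ) ≠ 0 := by exact_mod_cast Nat.factorial_ne_zero _
    field_simp

end

end Pool.Agent.Lib_MP_1dbf07_co
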