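import Pool.Agent.Lib_MP_1dbf07_co.A0

namespace Pool.Agent.Lib_MP_1dbf07_co

open MeasureTheory Set Filter Topology
open scoped Real Nat PowerSeries

noncomputable section

private theorem a1_deriv (a b : ℝ) :
    PowerSeries.derivative ℝ (1 - PowerSeries.C a * PowerSeries.X
      + PowerSeries.C b * PowerSeries.X ^ 2)
      = - PowerSeries.C a + PowerSeries.C (2 * b) * PowerSeries.X := by
  ext k
  rw [PowerSeries.coeff_derivative, map_add (PowerSeries.coeff (k + 1)),
    map_sub (PowerSeries.coeff (k + 1)), map_add (PowerSeries.coeff k),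
    map_neg (PowerSeries.coeff k), PowerSeries.coeff_C_mul, PowerSeries.coeff_C_mul,
    PowerSeries.coeff_C_mul, PowerSeries.coeff_one, PowerSeries.coeff_X,
    PowerSeries.coeff_X, PowerSeries.coeff_X_pow, PowerSeries.coeff_C, if_neg (by omega)]
  rcases k with _ | k
  · simp
  · rcases k with _ | k
    · simp
      ring
    · simp

/-- `2 (f_{n+1} + X f_n) = - r_{n+1}` for `n ≥ 1`, where `R = ∑ r_n z^n` satisfies a three term
recurrence (`R² = Q` gives `2 Q R' = Q' R`). -/
theorem fs_lin (X : ℝ) : ∃ r : ℕ → ℝ, r 0 = 1 ∧ r 1 = -(3 + X) ∧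
    (∀ n : ℕ, ((n : ℝ) + 2) * r (n + 2)
      = (3 + X) * (2 * n + 1) * r (n + 1) - (1 - X) ^ 2 * ((n : ℝ) - 1) * r n) ∧
    ∀ n : ℕ, 1 ≤ n → 2 * (fs X (n + 1) + X * fs X n) = - r (n + 1) := by
  have hf0 : fs X 0 = 0 := by simp [fs]
  have hf1 : fs X 1 = 1 := by simp [fs]
  set R : PowerSeries ℝ := 1 - PowerSeries.C (1 + X) * PowerSeries.X
      - 2 * (1 + PowerSeries.C X * PowerSeries.X) * PowerSeries.mk (fs X) with hR
  have hsq : R ^ 2 = 1 - PowerSeries.C (2 * (3 + X)) * PowerSeries.X
        + PowerSeries.C ((1 - X) ^ 2) * PowerSeries.X ^ 2 := R0_sq X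
  have hR' : R = 1 - PowerSeries.C (1 + X) * PowerSeries.X
      - PowerSeries.C 2 * PowerSeries.mk (fs X)
      - PowerSeries.C (2 * X) * (PowerSeries.X * PowerSeries.mk (fs X)) := by
    have h2 : (PowerSeries.C (2 : ℝ) : PowerSeries ℝ) = 2 := map_ofNat _ 2
    rw [hR, map_mul, h2]
    ring
  have hc0 : PowerSeries.coeff 0 R = 1 := by
    rw [hR']
    simp [hf0]
  have hcs : ∀ n, 1 ≤ n → PowerSeries.coeff (n + 1) R = - 2 * fs X (n + 1) - 2 * X * fs X n := by
    intro n hn
    rw [hR', map_sub (PowerSeries.coeff (n + 1)), map_sub (PowerSeries.coeff (n + 1)),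
      map_sub (PowerSeries.coeff (n + 1)), PowerSeries.coeff_C_mul, PowerSeries.coeff_C_mul,
      PowerSeries.coeff_C_mul, PowerSeries.coeff_succ_X_mul, PowerSeries.coeff_mk,
      PowerSeries.coeff_mk, PowerSeries.coeff_one, PowerSeries.coeff_X, if_neg (by omega),
      if_neg (by omega)]
    ring
  have hc1 : PowerSeries.coeff 1 R = -(3 + X) := by
    have : PowerSeries.coeff (0 + 1) R = -(3 + X) := by
      rw [hR', map_sub (PowerSeries.coeff (0 + 1)),
        map_sub (PowerSeries.coeff (0 + 1)),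
        map_sub (PowerSeries.coeff (0 + 1)), PowerSeries.coeff_C_mul, PowerSeries.coeff_C_mul,
        PowerSeries.coeff_C_mul, PowerSeries.coeff_succ_X_mul, PowerSeries.coeff_mk,
        PowerSeries.coeff_mk, PowerSeries.coeff_one, PowerSeries.coeff_X, if_neg (by omega),
        if_pos (by omega), hf0, zero_add, hf1]
      ring
    exact this
  refine ⟨fun n => PowerSeries.coeff n R, hc0, hc1, fun n => ?_, fun n hn => ?_⟩
  · have hD : 2 * R * PowerSeries.derivative ℝ R = PowerSeries.derivative ℝ (R ^ 2) := by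
      rw [pow_two, Derivation.leibniz, smul_eq_mul]
      ring
    have hDQ : PowerSeries.derivative ℝ (R ^ 2) =
        - PowerSeries.C (2 * (3 + X)) + PowerSeries.C (2 * (1 - X) ^ 2) * PowerSeries.X := by
      rw [hsq, a1_deriv]
    have hE : PowerSeries.C (2 : ℝ) * (R ^ 2 * PowerSeries.derivative ℝ R)
        = (- PowerSeries.C (2 * (3 + X)) + PowerSeries.C (2 * (1 - X) ^ 2) * PowerSeries.X) * R := by
      rw [← hDQ, ← hD, show (PowerSeries.C (2 : ℝ) : PowerSeries ℝ) = 2 from map_ofNat _ 2]
      ring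
    have hF : PowerSeries.C (2 : ℝ) * (PowerSeries.derivative ℝ R
        - PowerSeries.C (2 * (3 + X)) * (PowerSeries.X * PowerSeries.derivative ℝ R)
        + PowerSeries.C ((1 - X) ^ 2) * (PowerSeries.X * (PowerSeries.X *
          PowerSeries.derivative ℝ R)))
        = - (PowerSeries.C (2 * (3 + X)) * R)
          + PowerSeries.C (2 * (1 - X) ^ 2) * (PowerSeries.X * R) := by
      rw [hsq] at hE
      linear_combination hE
    have hG := congrArg (PowerSeries.coeff (n + 1)) hF
    rw [PowerSeries.coeff_C_mul, map_add (PowerSeries.coeff (n + 1)),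
      map_sub (PowerSeries.coeff (n + 1)), map_add (PowerSeries.coeff (n + 1)),
      map_neg (PowerSeries.coeff (n + 1)), PowerSeries.coeff_C_mul, PowerSeries.coeff_C_mul,
      PowerSeries.coeff_C_mul, PowerSeries.coeff_C_mul, PowerSeries.coeff_succ_X_mul,
      PowerSeries.coeff_succ_X_mul, PowerSeries.coeff_succ_X_mul,
      PowerSeries.coeff_derivative, PowerSeries.coeff_derivative] at hG
    have hH : PowerSeries.coeff n (PowerSeries.X * PowerSeries.derivative ℝ R)
        = n * PowerSeries.coeff n R := by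
      rcases n with _ | n
      · simp
      · rw [PowerSeries.coeff_succ_X_mul, PowerSeries.coeff_derivative]
        push_cast
        ring
    rw [hH] at hG
    push_cast at hG
    linarith
  · have h := hcs n hn
    simp only
    rw [h]
    ring

end

end Pool.Agent.Lib_MP_1dbf07_co
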