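import Pool.Agent.Lib_MP_1dbf07_co.A1

namespace Pool.Agent.Lib_MP_1dbf07_co

open MeasureTheory Set Filter Topology
open scoped Real Nat PowerSeries

noncomputable section

private theorem a2_rec (X : ℝ) (hX : 0 < X) (n : ℕ) :
    ((n : ℝ) + 4) * Csc X (n + 2) = (2 * n + 5) * (3 + X) * Csc X (n + 1)
      - (n + 1) * (1 - X) ^ 2 * Csc X n := by
  have hc : cX X ^ 2 = 8 * (1 + X) := Real.sq_sqrt (by linarith)
  set c := cX X with hcdef
  set a : ℝ := 3 + X with ha
  have hF : ∀ θ : ℝ, HasDerivAt (fun θ => c * (Real.sin θ ^ 3 * (a + c * Real.cos θ) ^ (n + 1)))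
      (((n : ℝ) + 4) * (Real.sin θ ^ 2 * (a + c * Real.cos θ) ^ (n + 2))
        - (2 * n + 5) * a * (Real.sin θ ^ 2 * (a + c * Real.cos θ) ^ (n + 1))
        + (n + 1) * (1 - X) ^ 2 * (Real.sin θ ^ 2 * (a + c * Real.cos θ) ^ n)) θ := by
    intro θ
    have h1 : HasDerivAt (fun θ => Real.sin θ ^ 3) (3 * Real.sin θ ^ 2 * Real.cos θ) θ := by
      have h := (Real.hasDerivAt_sin θ).pow 3
      have h' : HasDerivAt (fun θ => Real.sin θ ^ 3)
          (((3 : ℕ) : ℝ) * Real.sin θ ^ (3 - 1) * Real.cos θ) θ := h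
      refine h'.congr_deriv ?_
      norm_num
    have h2 : HasDerivAt (fun θ => a + c * Real.cos θ) (c * (-Real.sin θ)) θ :=
      ((Real.hasDerivAt_cos θ).const_mul c).const_add a
    have h3 := h2.pow (n + 1)
    have h4 := (h1.mul h3).const_mul c
    refine h4.congr_deriv ?_
    have hs : Real.sin θ ^ 2 = 1 - Real.cos θ ^ 2 := by
      have := Real.sin_sq_add_cos_sq θ
      linarith
    have hcs : c ^ 2 * Real.sin θ ^ 2 = -(1 - X) ^ 2 + 2 * a * (a + c * Real.cos θ)
        - (a + c * Real.cos θ) ^ 2 := by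
      rw [hs]
      have : c ^ 2 - a ^ 2 = - (1 - X) ^ 2 := by rw [hc, ha]; ring
      linear_combination this
    simp only [Nat.add_sub_cancel, Pi.pow_apply]
    push_cast
    set w := a + c * Real.cos θ with hw
    have hcw : c * Real.cos θ = w - a := by rw [hw]; ring
    calc _ = 3 * Real.sin θ ^ 2 * (c * Real.cos θ) * w ^ (n + 1)
          - (n + 1) * (c ^ 2 * Real.sin θ ^ 2) * Real.sin θ ^ 2 * w ^ n := by ring
      _ = _ := by rw [hcw, hcs]; ring
  have hcont : Continuous fun θ : ℝ =>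
      (((n : ℝ) + 4) * (Real.sin θ ^ 2 * (a + c * Real.cos θ) ^ (n + 2))
        - (2 * n + 5) * a * (Real.sin θ ^ 2 * (a + c * Real.cos θ) ^ (n + 1))
        + (n + 1) * (1 - X) ^ 2 * (Real.sin θ ^ 2 * (a + c * Real.cos θ) ^ n)) := by
    fun_prop
  have hFTC := intervalIntegral.integral_eq_sub_of_hasDerivAt (a := 0) (b := π)
    (fun θ _ => hF θ) (hcont.intervalIntegrable _ _)
  rw [Real.sin_pi, Real.sin_zero, zero_pow (by norm_num), zero_mul, zero_mul, mul_zero,
    sub_zero] at hFTC
  have hi : ∀ m : ℕ, IntervalIntegrable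
      (fun θ : ℝ => Real.sin θ ^ 2 * (a + c * Real.cos θ) ^ m) volume 0 π := fun m =>
    Continuous.intervalIntegrable (by fun_prop) _ _
  rw [intervalIntegral.integral_add (((hi _).const_mul _).sub ((hi _).const_mul _))
      ((hi _).const_mul _),
    intervalIntegral.integral_sub ((hi _).const_mul _) ((hi _).const_mul _),
    intervalIntegral.integral_const_mul, intervalIntegral.integral_const_mul,
    intervalIntegral.integral_const_mul] at hFTC
  simp only [Csc]
  rw [← hcdef, ← ha]
  linear_combination (2 / π) * hFTC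

private theorem a2_zero (X : ℝ) : Csc X 0 = 1 := by
  have hpi : (π : ℝ) ≠ 0 := Real.pi_ne_zero
  simp only [Csc, pow_zero, mul_one]
  rw [integral_sin_sq, Real.sin_pi, Real.sin_zero]
  field_simp
  ring

private theorem a2_one (X : ℝ) : Csc X 1 = 3 + X := by
  have hpi : (π : ℝ) ≠ 0 := Real.pi_ne_zero
  have h : ∀ θ : ℝ, Real.sin θ ^ 2 * (3 + X + cX X * Real.cos θ) ^ 1
      = (3 + X) * Real.sin θ ^ 2 + cX X * (Real.sin θ ^ 2 * Real.cos θ) := fun θ => by ring
  simp only [Csc, h]
  rw [intervalIntegral.integral_add (Continuous.intervalIntegrable (by fun_prop) _ _)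
      (Continuous.intervalIntegrable (by fun_prop) _ _), intervalIntegral.integral_const_mul,
    intervalIntegral.integral_const_mul, integral_sin_sq, integral_sin_sq_mul_cos,
    Real.sin_pi, Real.sin_zero]
  field_simp
  ring

/-- The moments of the shifted semicircle are `m_{n+2} + X m_{n+1}`, up to a factor. -/
theorem mom_semi {X : ℝ} (hX : 0 < X) (n : ℕ) :
    mom X (n + 2) + X * mom X (n + 1) = 2 * X * (1 + X) * Csc X n := by
  obtain ⟨r, hr0, hr1, hrec, hfr⟩ := fs_lin X
  have hr2 : r 2 = -4 * (1 + X) := by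
    have h := hrec 0
    rw [zero_add, zero_add, hr0, hr1] at h
    push_cast at h
    linarith [h]
  have hr3 : r 3 = -4 * (1 + X) * (3 + X) := by
    have h := hrec 1
    rw [show (1 : ℕ) + 2 = 3 from rfl, show (1 : ℕ) + 1 = 2 from rfl, hr2] at h
    push_cast at h
    linarith [h]
  have key : ∀ m : ℕ, r (m + 2) = -4 * (1 + X) * Csc X m ∧
      r (m + 3) = -4 * (1 + X) * Csc X (m + 1) := by
    intro m
    induction m with
    | zero => exact ⟨by rw [zero_add, hr2, a2_zero, mul_one],
        by rw [zero_add, zero_add, hr3, a2_one]⟩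
    | succ m ih =>
      refine ⟨ih.2, ?_⟩
      have h1 := hrec (m + 2)
      have h2 := a2_rec X hX m
      have hm : ((m : ℝ) + 4) ≠ 0 := by positivity
      rw [ih.1, show m + 2 + 1 = m + 3 from rfl, ih.2] at h1
      push_cast at h1
      apply mul_left_cancel₀ hm
      rw [show m + 1 + 3 = m + 2 + 2 by ring, show m + 1 + 1 = m + 2 by ring]
      linear_combination h1 + (4 * (1 + X)) * h2
  have h1 := hfr (n + 1) (by omega)
  rw [show n + 1 + 1 = n + 2 from rfl, (key n).1] at h1
  rw [mom, mom, if_neg (by omega), if_neg (by omega)]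
  linear_combination (X / 2) * h1

end

end Pool.Agent.Lib_MP_1dbf07_co
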