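import Pool.Agent.Lib_MP_1dbf07_co.A0

namespace Pool.Agent.Lib_MP_1dbf07_co

open MeasureTheory Set Filter Topology
open scoped Real Nat PowerSeries

noncomputable section

/-- The recursion over any commutative ring. -/
def fsG {A : Type*} [CommRing A] (t : A) : ℕ → A
  | 0 => 0
  | 1 => 1
  | (n + 2) => (1 + t) * fsG t (n + 1)
      + ∑ i : Fin (n + 1), fsG t (i.1 + 1) * fsG t (n + 1 - i.1)
      + t * ∑ i : Fin n, fsG t (i.1 + 1) * fsG t (n - i.1)
termination_by n => n
decreasing_by all_goals omega

section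

variable {A : Type*} [CommRing A]

theorem fsG_zero (X : A) : fsG X 0 = 0 := by rw [fsG]

theorem fsG_one (X : A) : fsG X 1 = 1 := by rw [fsG]

theorem fsG_succ_succ (X : A) (n : ℕ) : fsG X (n + 2) = (1 + X) * fsG X (n + 1)
      + ∑ p ∈ Finset.HasAntidiagonal.antidiagonal (n + 2), fsG X p.1 * fsG X p.2
      + X * ∑ p ∈ Finset.HasAntidiagonal.antidiagonal (n + 1), fsG X p.1 * fsG X p.2 := by
  have key : ∀ m : ℕ, ∑ p ∈ Finset.HasAntidiagonal.antidiagonal (m + 1), fsG X p.1 * fsG X p.2
      = ∑ i : Fin m, fsG X (i.1 + 1) * fsG X (m - i.1) := by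
    intro m
    rw [Finset.Nat.sum_antidiagonal_eq_sum_range_succ (fun i j => fsG X i * fsG X j),
      Finset.sum_range_succ', Finset.sum_range_succ]
    rw [show m + 1 - (m + 1) = 0 by omega, fsG_zero, mul_zero, zero_mul, add_zero, add_zero,
      Finset.sum_range]
    refine Finset.sum_congr rfl fun i _ => ?_
    rw [show m + 1 - (i.1 + 1) = m - i.1 by omega]
  rw [key (n + 1), key n]
  conv_lhs => rw [fsG]

theorem fsG_series (X : A) :
    PowerSeries.mk (fsG X) = PowerSeries.X
      + PowerSeries.C (1 + X) * PowerSeries.X * PowerSeries.mk (fsG X)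
      + PowerSeries.mk (fsG X) ^ 2
      + PowerSeries.C X * PowerSeries.X * PowerSeries.mk (fsG X) ^ 2 := by
  have hsq : ∀ n, PowerSeries.coeff n (PowerSeries.mk (fsG X) ^ 2)
      = ∑ p ∈ Finset.HasAntidiagonal.antidiagonal n, fsG X p.1 * fsG X p.2 := by
    intro n
    rw [sq, PowerSeries.coeff_mul]
    simp only [PowerSeries.coeff_mk]
  ext n
  rcases n with _ | _ | n
  · simp [fsG_zero]
  · rw [map_add, map_add, map_add, hsq, mul_assoc, mul_assoc, PowerSeries.coeff_C_mul,
      PowerSeries.coeff_C_mul, mul_comm PowerSeries.X, mul_comm PowerSeries.X,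
      PowerSeries.coeff_succ_mul_X, PowerSeries.coeff_succ_mul_X, hsq]
    simp [fsG_zero, fsG_one, PowerSeries.coeff_X]
    simp [Finset.Nat.antidiagonal_succ, fsG_zero]
  · rw [map_add, map_add, map_add, hsq, mul_assoc, mul_assoc, PowerSeries.coeff_C_mul,
      PowerSeries.coeff_C_mul, mul_comm PowerSeries.X, mul_comm PowerSeries.X,
      PowerSeries.coeff_succ_mul_X, PowerSeries.coeff_succ_mul_X, hsq]
    rw [PowerSeries.coeff_mk, fsG_succ_succ, PowerSeries.coeff_mk, PowerSeries.coeff_X,
      if_neg (by omega)]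
    ring

theorem fsG_map {B : Type*} [CommRing B] (g : A →+* B) (t : A) (n : ℕ) :
    g (fsG t n) = fsG (g t) n := by
  induction n using Nat.strong_induction_on with
  | _ n ih =>
    rcases n with _ | _ | n
    · simp [fsG_zero]
    · simp [fsG_one]
    · rw [fsG, fsG]
      simp only [map_add, map_mul, map_one, map_sum]
      rw [ih (n + 1) (by omega)]
      congr 1
      · congr 1
        refine Finset.sum_congr rfl fun i _ => ?_
        rw [ih _ (by have := i.2; omega), ih _ (by have := i.2; omega)]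
      · congr 1
        refine Finset.sum_congr rfl fun i _ => ?_
        rw [ih _ (by have := i.2; omega), ih _ (by have := i.2; omega)]

end

theorem fsG_eq_fs (X : ℝ) (n : ℕ) : fsG X n = fs X n := by
  induction n using Nat.strong_induction_on with
  | _ n ih =>
    rcases n with _ | _ | n
    · rw [fsG_zero, fs_zero]
    · rw [fsG_one, fs_one]
    · rw [fsG, fs, ih (n + 1) (by omega)]
      congr 1
      · congr 1
        refine Finset.sum_congr rfl fun i _ => ?_
        rw [ih _ (by have := i.2; omega), ih _ (by have := i.2; omega)]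
      · congr 1
        refine Finset.sum_congr rfl fun i _ => ?_
        rw [ih _ (by have := i.2; omega), ih _ (by have := i.2; omega)]

/-- The series `f` over `ℚ[x]`. -/
def fQ : PowerSeries (Polynomial ℚ) := PowerSeries.mk (fsG (-(Polynomial.X : Polynomial ℚ)))

/-- The square root over `ℚ[x]`. -/
def RQ : PowerSeries (Polynomial ℚ) :=
  1 - PowerSeries.X + PowerSeries.C Polynomial.X * PowerSeries.X
    - 2 * (1 - PowerSeries.C Polynomial.X * PowerSeries.X) * fQ

theorem RQ_sq : RQ ^ 2 = 1 - 6 * (PowerSeries.X : PowerSeries (Polynomial ℚ)) + PowerSeries.X ^ 2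
    + 2 * PowerSeries.C Polynomial.X * PowerSeries.X
    + 2 * PowerSeries.C Polynomial.X * PowerSeries.X ^ 2
    + PowerSeries.C Polynomial.X ^ 2 * PowerSeries.X ^ 2 := by
  have h := fsG_series (-(Polynomial.X : Polynomial ℚ))
  rw [← fQ, map_add, map_neg, map_one] at h
  rw [RQ]
  set C := (PowerSeries.C (Polynomial.X : Polynomial ℚ) : PowerSeries (Polynomial ℚ))
  set Z := (PowerSeries.X : PowerSeries (Polynomial ℚ))
  linear_combination (-4 * (1 - C * Z)) * h

theorem RQ_const : PowerSeries.constantCoeff RQ = 1 := by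
  rw [RQ, fQ]
  simp [fsG_zero]

/-- Existence of the series of the problem. -/
theorem exists_isF : ∃ R F : PowerSeries (Polynomial ℚ), IsF R F := by
  refine ⟨RQ, - PowerSeries.C Polynomial.X * fQ, RQ_const, RQ_sq, ?_⟩
  rw [RQ]
  ring

/-- The coefficients of `F` at `x = -X`. -/
theorem isF_coeff {R F : PowerSeries (Polynomial ℚ)} (h : IsF R F) (X : ℝ) (n : ℕ) :
    Polynomial.aeval (-X) (PowerSeries.coeff n F) = X * fs X n := by
  obtain ⟨h1, h2, h3⟩ := h
  have hR : R = RQ := by
    have h4 : R ^ 2 = RQ ^ 2 := by rw [h2, RQ_sq]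
    rcases sq_eq_sq_iff_eq_or_eq_neg.1 h4 with h5 | h5
    · exact h5
    · exfalso
      have := congrArg PowerSeries.constantCoeff h5
      rw [map_neg, RQ_const, h1] at this
      have h6 : (1 : Polynomial ℚ) + 1 = 0 := by
        nth_rewrite 1 [this]
        ring
      norm_num at h6
  have hF : F = - PowerSeries.C Polynomial.X * fQ := by
    have h7 : 2 * (1 - PowerSeries.C Polynomial.X * PowerSeries.X) * F
        = 2 * (1 - PowerSeries.C Polynomial.X * PowerSeries.X)
          * (- PowerSeries.C Polynomial.X * fQ) := by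
      rw [h3, hR, RQ]
      ring
    refine mul_left_cancel₀ ?_ h7
    intro h8
    have h9 := congrArg PowerSeries.constantCoeff h8
    rw [map_mul, map_ofNat] at h9
    simp at h9
  rw [hF, ← map_neg, PowerSeries.coeff_C_mul, fQ, PowerSeries.coeff_mk, map_mul, map_neg,
    Polynomial.aeval_X, neg_neg]
  congr 1
  have := fsG_map (Polynomial.aeval (R := ℚ) (-X)).toRingHom (-(Polynomial.X : Polynomial ℚ)) n
  simp only [AlgHom.toRingHom_eq_coe, RingHom.coe_coe, map_neg, Polynomial.aeval_X,
    neg_neg] at this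
  rw [this, fsG_eq_fs]

end

end Pool.Agent.Lib_MP_1dbf07_co
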