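import Pool.Agent.Lib_MP_1dbf07_co.A3

namespace Pool.Agent.Lib_MP_1dbf07_co

open MeasureTheory Set Filter Topology
open scoped Real Nat PowerSeries

noncomputable section

theorem derivative_logOf {A : Type*} [CommRing A] [Algebra ℚ A] {g : PowerSeries A}
    (hg : PowerSeries.constantCoeff g = 0) :
    (1 + g) * PowerSeries.derivative A (PowerSeries.logOf (1 + g))
      = PowerSeries.derivative A g := by
  have hs : PowerSeries.HasSubst g := PowerSeries.HasSubst.of_constantCoeff_zero' hg
  rw [PowerSeries.logOf_eq, add_sub_cancel_left, PowerSeries.derivative_subst hs,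
    PowerSeries.deriv_log]
  have h1 : (1 + PowerSeries.X : PowerSeries A)
      * PowerSeries.mk (fun n ↦ algebraMap ℚ A ((-1 : ℚ) ^ n)) = 1 := by
    ext n
    rw [add_mul, one_mul, map_add, PowerSeries.coeff_mk]
    rcases n with _ | n
    · simp
    · rw [mul_comm PowerSeries.X, PowerSeries.coeff_succ_mul_X, PowerSeries.coeff_mk]
      simp [PowerSeries.coeff_one, pow_succ]
  have h2 := congrArg (PowerSeries.subst g) h1
  rw [← PowerSeries.coe_substAlgHom hs, map_mul, map_add, map_one,
    PowerSeries.coe_substAlgHom hs, PowerSeries.subst_X hs] at h2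
  rw [← mul_assoc, h2, one_mul]

/-- The polynomial `p_n` at `x = -X`. -/
theorem pPoly_eval {R F : PowerSeries (Polynomial ℚ)} (h : IsF R F) (X : ℝ) (n : ℕ)
    (hn : 1 ≤ n) :
    Polynomial.aeval (-X) (pPoly F n) = - kap (mom X) n := by
  set ev : Polynomial ℚ →+* ℝ := (Polynomial.aeval (R := ℚ) (-X)).toRingHom with hev
  have hev' : ∀ p : Polynomial ℚ, Polynomial.aeval (-X) p = ev p := fun p => rfl
  have hF0 : PowerSeries.coeff 0 F = 0 := by
    -- from the equations
    obtain ⟨h1, h2, h3⟩ := h
    have := congrArg PowerSeries.constantCoeff h3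
    rw [map_mul, map_mul, map_ofNat, map_mul, map_sub, map_sub, map_mul, map_add, map_sub,
      map_one, h1] at this
    simpa using this
  have hg0 : PowerSeries.constantCoeff (hat F) = 0 := by
    rw [← PowerSeries.coeff_zero_eq_constantCoeff_apply, hat, PowerSeries.coeff_mk, hF0, smul_zero]
  set L := PowerSeries.logOf (1 + hat F) with hL
  have hD := derivative_logOf hg0
  rw [← hL] at hD
  have hmap : PowerSeries.map ev (1 + hat F) = eps (mom X) := by
    ext k
    rw [PowerSeries.coeff_map, map_add, hat, PowerSeries.coeff_mk, eps, PowerSeries.coeff_mk,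
      map_add]
    have h5 : ev ((1 / (k ! : ℚ)) • PowerSeries.coeff k F) = (1 / (k ! : ℝ)) * (X * fs X k) := by
      rw [← hev', map_smul, isF_coeff h, Rat.smul_def]
      push_cast
      rfl
    rw [h5, mom]
    rcases k with _ | k
    · simp [fs_zero]
    · simp [PowerSeries.coeff_one]
      ring
  have hder : ∀ G : PowerSeries (Polynomial ℚ),
      PowerSeries.map ev (PowerSeries.derivative (Polynomial ℚ) G)
        = PowerSeries.derivative ℝ (PowerSeries.map ev G) := by
    intro G
    ext k
    rw [PowerSeries.coeff_map, PowerSeries.coeff_derivative, PowerSeries.coeff_derivative,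
      PowerSeries.coeff_map, map_mul, map_add, map_one, map_natCast]
  have hD2 := congrArg (PowerSeries.map ev) hD
  rw [map_mul, hmap, hder, hder] at hD2
  have h6 : PowerSeries.derivative ℝ (PowerSeries.map ev (hat F))
      = PowerSeries.derivative ℝ (eps (mom X)) := by
    rw [← hmap, map_add (PowerSeries.map ev), map_one, map_add (PowerSeries.derivative ℝ),
      Derivation.map_one_eq_zero, zero_add]
  rw [h6] at hD2
  have hc : PowerSeries.constantCoeff (eps (mom X)) ≠ 0 := by
    rw [← PowerSeries.coeff_zero_eq_constantCoeff_apply, eps, PowerSeries.coeff_mk]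
    simp [mom]
  have hD3 : PowerSeries.derivative ℝ (PowerSeries.map ev L)
      = PowerSeries.derivative ℝ (eps (mom X)) * (eps (mom X))⁻¹ := by
    rw [← hD2, mul_comm (eps (mom X)), mul_assoc, PowerSeries.mul_inv_cancel _ hc, mul_one]
  obtain ⟨k, rfl⟩ : ∃ k, n = k + 1 := ⟨n - 1, by omega⟩
  rw [kap, ← hD3, Nat.add_sub_cancel, PowerSeries.coeff_derivative, PowerSeries.coeff_map,
    pPoly, ← hL, map_neg, smul_neg, map_neg, map_smul, hev', Rat.smul_def, Nat.factorial_succ]
  push_cast
  ring

end

end Pool.Agent.Lib_MP_1dbf07_co
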