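import Pool.Agent.Lib_MP_1dbf07_co.M4
import Pool.Agent.Lib_MP_1dbf07_co.A0

namespace Pool.Agent.Lib_MP_1dbf07_co

open MeasureTheory Set Filter Topology
open scoped Real Nat PowerSeries

noncomputable section

private theorem A5_hF_zero (τ : ℝ) : hF τ 0 = 1 := by
  simp [hF]; norm_num

private theorem A5_mom_zero (X : ℝ) : mom X 0 = 1 := by simp [mom]

private theorem A5_coeff_zero {m : ℕ → ℝ} (h : m 0 = 1) :
    PowerSeries.constantCoeff (eps m) ≠ 0 := by
  rw [← PowerSeries.coeff_zero_eq_constantCoeff_apply, eps, PowerSeries.coeff_mk]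
  simp [h]

private theorem A5_deriv_exp (a : ℝ) :
    PowerSeries.derivative ℝ (eps fun n => a ^ n) = PowerSeries.C a * eps fun n => a ^ n := by
  ext n
  rw [PowerSeries.coeff_derivative, PowerSeries.coeff_C_mul, eps, PowerSeries.coeff_mk,
    PowerSeries.coeff_mk, Nat.factorial_succ]
  have : (n ! : ℝ) ≠ 0 := by exact_mod_cast Nat.factorial_ne_zero n
  push_cast
  field_simp
  ring

private theorem A5_deriv_rescale (c : ℝ) (f : PowerSeries ℝ) :
    PowerSeries.derivative ℝ (PowerSeries.rescale c f)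
      = PowerSeries.C c * PowerSeries.rescale c (PowerSeries.derivative ℝ f) := by
  ext n
  rw [PowerSeries.coeff_derivative, PowerSeries.coeff_C_mul, PowerSeries.coeff_rescale,
    PowerSeries.coeff_rescale, PowerSeries.coeff_derivative]
  ring

private theorem A5_term {X : ℝ} (hX : 0 < X) (n : ℕ) :
    mom X n / (n ! : ℝ) = ∑ p ∈ Finset.HasAntidiagonal.antidiagonal n,
      ((3 + X) ^ p.1 / (p.1 ! : ℝ)) * (cX X ^ p.2 * (hF (tauX X) p.2 / (p.2 ! : ℝ))) := by
  rw [mom_binom hX, Finset.Nat.sum_antidiagonal_eq_sum_range_succ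
    (fun i j => ((3 + X) ^ i / (i ! : ℝ)) * (cX X ^ j * (hF (tauX X) j / (j ! : ℝ)))) n,
    Finset.sum_div, ← Finset.sum_range_reflect]
  refine Finset.sum_congr rfl fun k hk => ?_
  rw [Finset.mem_range] at hk
  have hk' : k ≤ n := by omega
  rw [show n + 1 - 1 - k = n - k by omega, show n - (n - k) = k by omega, Nat.choose_symm hk',
    Nat.cast_choose ℝ hk']
  have h1 : (n ! : ℝ) ≠ 0 := by exact_mod_cast Nat.factorial_ne_zero _
  have h2 : (k ! : ℝ) ≠ 0 := by exact_mod_cast Nat.factorial_ne_zero _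
  have h3 : ((n - k)! : ℝ) ≠ 0 := by exact_mod_cast Nat.factorial_ne_zero _
  field_simp

private theorem A5_eps_mom {X : ℝ} (hX : 0 < X) :
    eps (mom X) = (eps fun n => (3 + X) ^ n) * PowerSeries.rescale (cX X) (eps (hF (tauX X))) := by
  ext n
  rw [PowerSeries.coeff_mul]
  simp only [eps, PowerSeries.coeff_mk, PowerSeries.coeff_rescale]
  exact A5_term hX n

/-- Cumulants under the affine change of variable. -/
theorem kap_mom {X : ℝ} (hX : 0 < X) {n : ℕ} (hn : 2 ≤ n) :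
    kap (mom X) n = cX X ^ n * kap (hF (tauX X)) n := by
  set E := eps (fun n => (3 + X) ^ n) with hE
  set H := eps (hF (tauX X)) with hH
  set c := cX X with hc
  have hEc : PowerSeries.constantCoeff E ≠ 0 := A5_coeff_zero (by simp)
  have hHc : PowerSeries.constantCoeff H ≠ 0 := A5_coeff_zero (A5_hF_zero _)
  have hM : eps (mom X) = E * PowerSeries.rescale c H := A5_eps_mom hX
  have hMc : PowerSeries.constantCoeff (eps (mom X)) ≠ 0 := A5_coeff_zero (A5_mom_zero _)
  have hH1 : H * H⁻¹ = 1 := PowerSeries.mul_inv_cancel _ hHc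
  have hRH : PowerSeries.rescale c H * PowerSeries.rescale c H⁻¹ = 1 := by
    rw [← map_mul, hH1, map_one]
  have hE1 : E * E⁻¹ = 1 := PowerSeries.mul_inv_cancel _ hEc
  have hinv : (eps (mom X))⁻¹ = E⁻¹ * PowerSeries.rescale c H⁻¹ := by
    rw [PowerSeries.inv_eq_iff_mul_eq_one hMc, hM]
    linear_combination (PowerSeries.rescale c H * PowerSeries.rescale c H⁻¹) * hE1 + hRH
  have hder : PowerSeries.derivative ℝ (eps (mom X))
      = PowerSeries.C (3 + X) * E * PowerSeries.rescale c H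
        + E * (PowerSeries.C c * PowerSeries.rescale c (PowerSeries.derivative ℝ H)) := by
    rw [hM, Derivation.leibniz, A5_deriv_rescale, A5_deriv_exp, smul_eq_mul, smul_eq_mul]
    ring
  have key : PowerSeries.derivative ℝ (eps (mom X)) * (eps (mom X))⁻¹
      = PowerSeries.C (3 + X)
        + PowerSeries.C c * PowerSeries.rescale c (PowerSeries.derivative ℝ H * H⁻¹) := by
    rw [hinv, hder, map_mul]
    linear_combination (PowerSeries.C (3 + X) * PowerSeries.rescale c H *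
      PowerSeries.rescale c H⁻¹ + PowerSeries.C c * PowerSeries.rescale c
      (PowerSeries.derivative ℝ H) * PowerSeries.rescale c H⁻¹) * hE1
      + PowerSeries.C (3 + X) * hRH
  rw [kap, key, kap, map_add, PowerSeries.coeff_C, if_neg (by omega), zero_add,
    PowerSeries.coeff_C_mul, PowerSeries.coeff_rescale]
  obtain ⟨k, rfl⟩ : ∃ k, n = k + 1 := ⟨n - 1, by omega⟩
  rw [Nat.add_sub_cancel, pow_succ]
  ring

private theorem A5_hF_bound {τ : ℝ} (n : ℕ) : |hF τ n| ≤ 2 * 4 ^ n * (1 + |τ|) ^ n := by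
  have hτ : 1 ≤ 1 + |τ| := by linarith [abs_nonneg τ]
  have hterm : ∀ l ∈ Finset.range (n / 2 + 1),
      |(-τ) ^ (n - 2 * l) * ((n - 2 * l : ℕ) + 1 : ℝ) * (2 - (1 / 2) ^ (n - 2 * l)) * (n ! : ℝ)
      / (2 ^ n * (l ! : ℝ) * ((n - 2 * l + 1 + l)! : ℝ))| ≤ 2 * (1 + |τ|) ^ n := by
    intro l hl
    rw [Finset.mem_range] at hl
    have hl2 : 2 * l ≤ n := by omega
    have h1 : |(-τ) ^ (n - 2 * l)| ≤ (1 + |τ|) ^ n := by
      rw [abs_pow, abs_neg]
      calc |τ| ^ (n - 2 * l) ≤ (1 + |τ|) ^ (n - 2 * l) :=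
            pow_le_pow_left₀ (abs_nonneg _) (by linarith) _
        _ ≤ (1 + |τ|) ^ n := pow_le_pow_right₀ hτ (by omega)
    have h2 : |(2 - (1 / 2 : ℝ) ^ (n - 2 * l))| ≤ 2 := by
      have h3 : (0 : ℝ) ≤ (1 / 2 : ℝ) ^ (n - 2 * l) := by positivity
      have h4 : (1 / 2 : ℝ) ^ (n - 2 * l) ≤ 1 := pow_le_one₀ (by norm_num) (by norm_num)
      rw [abs_le]
      constructor <;> linarith
    have h5 : ((n - 2 * l : ℕ) + 1 : ℝ) * (n ! : ℝ) ≤
        2 ^ n * (l ! : ℝ) * ((n - 2 * l + 1 + l)! : ℝ) := by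
      have h6 : n.choose l * l ! * (n - l)! = n ! := Nat.choose_mul_factorial_mul_factorial (by omega)
      have h7 : n.choose l ≤ 2 ^ n := Nat.choose_le_two_pow n l
      have h8 : n - 2 * l + 1 + l = (n - l) + 1 := by omega
      rw [h8, Nat.factorial_succ]
      have h9 : (n - 2 * l + 1) * n ! ≤ 2 ^ n * l ! * ((n - l + 1) * (n - l)!) := by
        calc (n - 2 * l + 1) * n ! = (n - 2 * l + 1) * (n.choose l * l ! * (n - l)!) := by rw [h6]
          _ ≤ (n - l + 1) * (2 ^ n * l ! * (n - l)!) := by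
            refine Nat.mul_le_mul (by omega) ?_
            exact Nat.mul_le_mul (Nat.mul_le_mul h7 le_rfl) le_rfl
          _ = _ := by ring
      exact_mod_cast h9
    have hD : (0 : ℝ) < 2 ^ n * (l ! : ℝ) * ((n - 2 * l + 1 + l)! : ℝ) := by positivity
    rw [abs_div, abs_of_pos hD, div_le_iff₀ hD]
    have h10 : |(-τ) ^ (n - 2 * l) * ((n - 2 * l : ℕ) + 1 : ℝ) * (2 - (1 / 2) ^ (n - 2 * l))
        * (n ! : ℝ)| = |(-τ) ^ (n - 2 * l)| * |(2 - (1 / 2 : ℝ) ^ (n - 2 * l))| *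
          (((n - 2 * l : ℕ) + 1 : ℝ) * (n ! : ℝ)) := by
      rw [abs_mul, abs_mul, abs_mul, abs_of_nonneg (show (0 : ℝ) ≤ (n ! : ℝ) by positivity),
        abs_of_nonneg (show (0 : ℝ) ≤ ((n - 2 * l : ℕ) + 1 : ℝ) by positivity)]
      ring
    rw [h10]
    calc |(-τ) ^ (n - 2 * l)| * |(2 - (1 / 2 : ℝ) ^ (n - 2 * l))| *
          (((n - 2 * l : ℕ) + 1 : ℝ) * (n ! : ℝ))
        ≤ ((1 + |τ|) ^ n * 2) * (2 ^ n * (l ! : ℝ) * ((n - 2 * l + 1 + l)! : ℝ)) := by
          refine mul_le_mul (mul_le_mul h1 h2 (abs_nonneg _) (by positivity)) h5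
            (by positivity) (by positivity)
      _ = _ := by ring
  calc |hF τ n| ≤ ∑ l ∈ Finset.range (n / 2 + 1), 2 * (1 + |τ|) ^ n :=
        (Finset.abs_sum_le_sum_abs _ _).trans (Finset.sum_le_sum hterm)
    _ = (2 * (n / 2 + 1 : ℕ) : ℝ) * (1 + |τ|) ^ n := by
        rw [Finset.sum_const, Finset.card_range, nsmul_eq_mul]
        ring
    _ ≤ 2 * 4 ^ n * (1 + |τ|) ^ n := by
        refine mul_le_mul_of_nonneg_right ?_ (by positivity)
        have : 2 * (n / 2 + 1) ≤ 2 * 4 ^ n := by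
          have h1 : n + 1 ≤ 4 ^ n := Nat.lt_pow_self (by norm_num)
          omega
        exact_mod_cast this

theorem A5_summable {τ : ℝ} (c : ℝ) (z : ℂ) :
    Summable fun n : ℕ => ‖((hF τ n / (n ! : ℝ) : ℝ) : ℂ) * ((c : ℂ) * z) ^ n‖ := by
  have h := (Real.summable_pow_div_factorial (4 * (1 + |τ|) * ‖(c : ℂ) * z‖)).mul_left 2
  refine Summable.of_nonneg_of_le (fun n => norm_nonneg _) (fun n => ?_) h
  rw [norm_mul, norm_pow, Complex.norm_real, Real.norm_eq_abs, abs_div,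
    abs_of_nonneg (show (0 : ℝ) ≤ (n ! : ℝ) by positivity)]
  calc |hF τ n| / (n ! : ℝ) * ‖(c : ℂ) * z‖ ^ n
      ≤ (2 * 4 ^ n * (1 + |τ|) ^ n) / (n ! : ℝ) * ‖(c : ℂ) * z‖ ^ n := by
        refine mul_le_mul_of_nonneg_right ?_ (by positivity)
        exact div_le_div_of_nonneg_right (A5_hF_bound n) (by positivity)
    _ = 2 * ((4 * (1 + |τ|) * ‖(c : ℂ) * z‖) ^ n / (n ! : ℝ)) := by
        rw [mul_pow, mul_pow]; ring

theorem egf_mom {X : ℝ} (hX : 0 < X) (z : ℂ) :
    egf (mom X) z = Complex.exp ((3 + X : ℝ) * z) * egf (hF (tauX X)) ((cX X : ℝ) * z) := by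
  have hexp : Complex.exp ((3 + X : ℝ) * z) = ∑' n : ℕ, (((3 + X : ℝ) : ℂ) * z) ^ n / (n ! : ℂ) := by
    rw [Complex.exp_eq_exp_ℂ, NormedSpace.exp_eq_tsum_div]
  have hs1 : Summable fun n : ℕ => ‖(((3 + X : ℝ) : ℂ) * z) ^ n / (n ! : ℂ)‖ := by
    have h := Real.summable_pow_div_factorial ‖((3 + X : ℝ) : ℂ) * z‖
    refine h.congr fun n => ?_
    rw [norm_div, norm_pow]
    simp
  rw [hexp, egf, egf, tsum_mul_tsum_eq_tsum_sum_antidiagonal_of_summable_norm hs1
    (A5_summable (cX X) z)]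
  refine tsum_congr fun n => ?_
  rw [A5_term hX n]
  push_cast
  rw [Finset.sum_mul]
  refine Finset.sum_congr rfl fun p hp => ?_
  rw [Finset.HasAntidiagonal.mem_antidiagonal] at hp
  rw [← hp, pow_add, mul_pow, mul_pow]
  ring

/-- The cumulants of `P_τ` are polynomials in `τ`. -/
theorem kap_hF_continuous (n : ℕ) : Continuous fun τ => kap (hF τ) n := by
  have hcont : ∀ n, Continuous fun τ => hF τ n := by
    intro n
    unfold hF
    fun_prop
  induction n using Nat.strong_induction_on with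
  | _ n ih =>
    rcases Nat.eq_zero_or_pos n with rfl | hn
    · have h : (fun τ => kap (hF τ) 0) = fun τ => hF τ 1 := by
        funext τ
        have h1 := kap_rec (hF τ) (A5_hF_zero τ) 1 le_rfl
        simp at h1
        rw [← h1]
        simp [kap]
      rw [h]
      exact hcont 1
    · have h : (fun τ => kap (hF τ) n) = fun τ => hF τ n -
          ∑ j ∈ Finset.Ico 1 n, ((n - 1).choose (j - 1) : ℝ) * kap (hF τ) j * hF τ (n - j) := by
        funext τ
        exact kap_rec (hF τ) (A5_hF_zero τ) n hn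
      rw [h]
      refine (hcont n).sub (continuous_finsetSum _ fun j hj => ?_)
      rw [Finset.mem_Ico] at hj
      exact (continuous_const.mul (ih j hj.2)).mul (hcont _)

end

end Pool.Agent.Lib_MP_1dbf07_co
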