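import Pool.Agent.Lib_MP_1dbf07_co.A5

namespace Pool.Agent.Lib_MP_1dbf07_co

open MeasureTheory Set Filter Topology
open scoped Real Nat PowerSeries

noncomputable section

private theorem A6_tau_tendsto : Tendsto tauX atTop (𝓝 0) := by
  have h1 : Tendsto (fun X : ℝ => 2 / (1 + X)) atTop (𝓝 0) :=
    Tendsto.div_atTop tendsto_const_nhds (tendsto_atTop_add_const_left _ _ tendsto_id)
  have h2 := (Real.continuous_sqrt.tendsto 0).comp h1
  rw [Real.sqrt_zero] at h2
  exact h2

/-- Degree at most `n/2`: `κ_n(X) = c^n K_n(τ)` is `O(X^{n/2})` at infinity. -/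
theorem natDegree_le_half {P : Polynomial ℝ} {n : ℕ} (hn : 2 ≤ n)
    (h : ∀ X : ℝ, 0 < X → P.eval (-X) = - kap (mom X) n) : P.natDegree ≤ n / 2 := by
  by_contra hcon
  have hdeg : n < 2 * P.natDegree := by omega
  have hP : P ≠ 0 := by rintro rfl; simp at hdeg
  set Q : Polynomial ℝ := (P.comp (-Polynomial.X)) ^ 2 with hQ
  set D : Polynomial ℝ := (Polynomial.C 8 * (Polynomial.X + Polynomial.C 1)) ^ n with hD
  have hmX : (-Polynomial.X : Polynomial ℝ).natDegree = 1 := by
    rw [Polynomial.natDegree_neg, Polynomial.natDegree_X]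
  have hcomp : (P.comp (-Polynomial.X)).natDegree = P.natDegree := by
    rw [Polynomial.natDegree_comp, hmX, mul_one]
  have hcomp0 : P.comp (-Polynomial.X) ≠ 0 := by
    intro h0
    rw [h0] at hcomp
    simp at hcomp
    omega
  have hQ0 : Q ≠ 0 := pow_ne_zero _ hcomp0
  have hlin : (Polynomial.C 8 * (Polynomial.X + Polynomial.C 1) : Polynomial ℝ).natDegree = 1 := by
    rw [Polynomial.natDegree_C_mul (by norm_num), Polynomial.natDegree_X_add_C]
  have hlin0 : (Polynomial.C 8 * (Polynomial.X + Polynomial.C 1) : Polynomial ℝ) ≠ 0 := by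
    intro h0
    rw [h0] at hlin
    simp at hlin
  have hD0 : D ≠ 0 := pow_ne_zero _ hlin0
  have hQd : Q.natDegree = 2 * P.natDegree := by
    rw [hQ, Polynomial.natDegree_pow, hcomp]
  have hDd : D.natDegree = n := by
    rw [hD, Polynomial.natDegree_pow, hlin, mul_one]
  have hlt : D.degree < Q.degree := by
    rw [Polynomial.degree_eq_natDegree hD0, Polynomial.degree_eq_natDegree hQ0, hQd, hDd]
    exact_mod_cast hdeg
  have hlead : 0 ≤ Q.leadingCoeff / D.leadingCoeff := by
    refine div_nonneg ?_ ?_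
    · rw [hQ, Polynomial.leadingCoeff_pow]
      positivity
    · rw [hD, Polynomial.leadingCoeff_pow, Polynomial.leadingCoeff_mul,
        Polynomial.leadingCoeff_C, Polynomial.leadingCoeff_X_add_C]
      positivity
  have hT := Polynomial.div_tendsto_atTop_of_degree_gt Q D hlt hD0 hlead
  -- the quotient converges
  have hK : Tendsto (fun X => (kap (hF (tauX X)) n) ^ 2) atTop (𝓝 ((kap (hF 0) n) ^ 2)) :=
    (((kap_hF_continuous n).tendsto 0).comp A6_tau_tendsto).pow 2
  have heq : (fun X => Q.eval X / D.eval X) =ᶠ[atTop] fun X => (kap (hF (tauX X)) n) ^ 2 := by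
    filter_upwards [eventually_gt_atTop (0 : ℝ)] with X hX
    have hpos : (0 : ℝ) < 8 * (1 + X) := by positivity
    have h1 : Q.eval X = (kap (mom X) n) ^ 2 := by
      rw [hQ, Polynomial.eval_pow, Polynomial.eval_comp, Polynomial.eval_neg, Polynomial.eval_X,
        h X hX]
      ring
    have h2 : D.eval X = (8 * (1 + X)) ^ n := by
      rw [hD]; simp; ring
    have h3 : (cX X ^ n) ^ 2 = (8 * (1 + X)) ^ n := by
      rw [← pow_mul, mul_comm, pow_mul, cX, Real.sq_sqrt hpos.le]
    rw [h1, h2, kap_mom hX hn, mul_pow, h3]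
    rw [mul_div_assoc, mul_comm, div_mul_cancel₀ _ (by positivity)]
  exact not_tendsto_nhds_of_tendsto_atTop hT _ (hK.congr' heq.symm)

end

end Pool.Agent.Lib_MP_1dbf07_co
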