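import Pool.Agent.Lib_MP_1dbf07_co.Defs

namespace Pool.Agent.Lib_MP_1dbf07_co

open MeasureTheory Set Filter Topology
open scoped Real Nat PowerSeries

noncomputable section

private theorem A7_exists_root {P : Polynomial ℝ} {a b : ℝ} (hab : a < b)
    (h : P.eval a * P.eval b < 0) : ∃ c, a < c ∧ c < b ∧ P.eval c = 0 := by
  have hc : ContinuousOn (fun x => P.eval x) (Icc a b) := P.continuous.continuousOn
  rcases mul_neg_iff.1 h with ⟨h1, h2⟩ | ⟨h1, h2⟩
  · obtain ⟨c, hc1, hc2⟩ := intermediate_value_Ioo' hab.le hc (show (0 : ℝ) ∈ Ioo _ _ from ⟨h2, h1⟩)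
    exact ⟨c, hc1.1, hc1.2, hc2⟩
  · obtain ⟨c, hc1, hc2⟩ := intermediate_value_Ioo hab.le hc (show (0 : ℝ) ∈ Ioo _ _ from ⟨h1, h2⟩)
    exact ⟨c, hc1.1, hc1.2, hc2⟩

/-- Sign changes give all the roots. -/
theorem real_roots_of_signs {P : Polynomial ℝ} {d : ℕ} (hd : 1 ≤ d) (hdeg : P.natDegree ≤ d)
    (h0 : P.eval 0 = 0) (x : ℕ → ℝ) (hx : ∀ k, 1 ≤ k → k ≤ d → 0 < x k)
    (hlt : ∀ k, 1 ≤ k → k + 1 ≤ d → x k < x (k + 1))
    (hs : ∀ k, 1 ≤ k → k ≤ d → 0 < (-1 : ℝ) ^ k * P.eval (-x k))
    (z : ℂ) (hz : Polynomial.aeval z P = 0) : z.im = 0 := by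
  have hP : P ≠ 0 := by
    rintro rfl
    have := hs 1 le_rfl hd
    simp at this
  -- the roots
  have hex : ∀ k : ℕ, ∃ y : ℝ, k < d → P.eval y = 0 ∧ (k = 0 → y = 0) ∧
      (1 ≤ k → -x (k + 1) < y ∧ y < -x k) := by
    intro k
    by_cases hk : k < d
    · rcases Nat.eq_zero_or_pos k with rfl | hk0
      · exact ⟨0, fun _ => ⟨h0, fun _ => rfl, fun h => absurd h (by omega)⟩⟩
      · have h1 := hs k hk0 hk.le
        have h2 := hs (k + 1) (by omega) hk
        have h3 : P.eval (-x (k + 1)) * P.eval (-x k) < 0 := by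
          have h4 := mul_pos h1 h2
          have h5 : (-1 : ℝ) ^ k * P.eval (-x k) * ((-1 : ℝ) ^ (k + 1) * P.eval (-x (k + 1)))
              = - (((-1 : ℝ) ^ k) ^ 2 * (P.eval (-x (k + 1)) * P.eval (-x k))) := by ring
          rw [h5, ← pow_mul, mul_comm k 2, pow_mul] at h4
          norm_num at h4
          exact h4
        obtain ⟨c, hc1, hc2, hc3⟩ := A7_exists_root (neg_lt_neg (hlt k hk0 hk)) h3
        exact ⟨c, fun _ => ⟨hc3, fun h => absurd h (by omega), fun _ => ⟨hc1, hc2⟩⟩⟩
    · exact ⟨0, fun h => absurd h hk⟩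
  choose y hy using hex
  have hstep : ∀ k, k + 1 < d → y (k + 1) < y k := by
    intro k hk
    obtain ⟨-, -, h1⟩ := hy (k + 1) hk
    obtain ⟨-, h2, h3⟩ := hy k (by omega)
    rcases Nat.eq_zero_or_pos k with rfl | hk0
    · rw [h2 rfl]
      have := hx 1 le_rfl hd
      have := (h1 (by omega)).2
      simp at this
      linarith
    · exact (h1 (by omega)).2.trans (h3 hk0).1
  have hanti : ∀ j k, j < k → k < d → y k < y j := by
    intro j k hjk
    induction k, hjk using Nat.le_induction with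
    | base => intro h; exact hstep j h
    | succ m hm ih => intro h; exact (hstep m h).trans (ih (by omega))
  have hinj : Set.InjOn y (Finset.range d : Set ℕ) := by
    intro j hj k hk hjk
    rw [Finset.coe_range] at hj hk
    rcases lt_trichotomy j k with h | h | h
    · exact absurd hjk (ne_of_gt (hanti j k h hk))
    · exact h
    · exact absurd hjk (ne_of_lt (hanti k j h hj))
  have hcard : d ≤ Multiset.card P.roots := by
    calc d = ((Finset.range d).image y).card := by
          rw [Finset.card_image_of_injOn hinj, Finset.card_range]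
      _ ≤ P.roots.toFinset.card := by
          refine Finset.card_le_card ?_
          intro t ht
          rw [Finset.mem_image] at ht
          obtain ⟨k, hk, rfl⟩ := ht
          rw [Multiset.mem_toFinset, Polynomial.mem_roots hP]
          exact (hy k (Finset.mem_range.1 hk)).1
      _ ≤ Multiset.card P.roots := Multiset.toFinset_card_le _
  have hsp : P.Splits := by
    rw [Polynomial.splits_iff_card_roots]
    exact le_antisymm (P.card_roots') (hdeg.trans hcard)
  have hz' : z ∈ (P.map (algebraMap ℝ ℂ)).roots := by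
    rw [Polynomial.mem_roots (Polynomial.map_ne_zero hP), Polynomial.IsRoot.def,
      Polynomial.eval_map_algebraMap]
    exact hz
  rw [Polynomial.Splits.roots_map hsp] at hz'
  obtain ⟨r, -, rfl⟩ := Multiset.mem_map.1 hz'
  simp

end

end Pool.Agent.Lib_MP_1dbf07_co
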