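import Pool.Agent.Lib_MP_1dbf07_co.Defs

namespace Pool.Agent.Lib_MP_1dbf07_co

open MeasureTheory Set Filter Topology
open scoped Real Nat PowerSeries

noncomputable section

variable {μ : Measure ℝ} {a b : ℝ}

namespace B0

theorem restrict_eq (h : Supp μ a b) : μ.restrict (Icc (-a) b) = μ :=
  Measure.restrict_eq_self_of_ae_mem h.supp

theorem integrable_contE {E : Type*} [NormedAddCommGroup E]
    (h : Supp μ a b) {g : ℝ → E} (hg : Continuous g) : Integrable g μ := by
  have := h.prob
  have := (hg.continuousOn (s := Icc (-a) b)).integrableOn_compact (μ := μ) isCompact_Icc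
  rwa [IntegrableOn, restrict_eq h] at this

/-- A bound of the support. -/
theorem abs_le_U (h : Supp μ a b) {U : ℝ} (ha : a ≤ U) (hb : b ≤ U) : ∀ᵐ w ∂μ, |w| ≤ U := by
  filter_upwards [h.supp] with w hw
  rw [abs_le]
  exact ⟨by linarith [hw.1], by linarith [hw.2]⟩

theorem expSet (h : Supp μ a b) : ProbabilityTheory.integrableExpSet id μ = univ := by
  refine eq_univ_of_forall fun t => ?_
  exact integrable_contE h (by fun_prop)

theorem hasSum_real (h : Supp μ a b) (k : ℕ) (x : ℝ) :
    HasSum (fun n => mo μ (n + k) / (n ! : ℝ) * x ^ n) (∫ w, w ^ k * Real.exp (x * w) ∂μ) := by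
  have := h.prob
  set U : ℝ := |a| + |b| with hU
  have hU0 : 0 ≤ U := by positivity
  have hab := abs_le_U h (U := U) (by linarith [le_abs_self a, abs_nonneg b])
    (by linarith [le_abs_self b, abs_nonneg a])
  have key := hasSum_integral_of_dominated_convergence (μ := μ)
    (F := fun (n : ℕ) (w : ℝ) => w ^ k * ((x * w) ^ n / (n ! : ℝ)))
    (f := fun w => w ^ k * Real.exp (x * w)) (fun n _ => U ^ k * ((|x| * U) ^ n / (n ! : ℝ)))
    (fun n => by fun_prop) (fun n => by
      filter_upwards [hab] with w hw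
      rw [norm_mul, norm_div, norm_pow, norm_pow, norm_mul, Real.norm_eq_abs, Real.norm_eq_abs,
        Real.norm_eq_abs, Nat.abs_cast]
      gcongr) (Eventually.of_forall fun w =>
        (Real.summable_pow_div_factorial (|x| * U)).mul_left _) (integrable_const _)
    (Eventually.of_forall fun w => by
      refine HasSum.mul_left _ ?_
      rw [Real.exp_eq_exp_ℝ]
      exact NormedSpace.expSeries_div_hasSum_exp _)
  have e : (fun n => mo μ (n + k) / (n ! : ℝ) * x ^ n) =
      fun n => ∫ w, w ^ k * ((x * w) ^ n / (n ! : ℝ)) ∂μ := by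
    ext n
    have : ∀ w : ℝ, w ^ k * ((x * w) ^ n / (n ! : ℝ)) = (x ^ n / (n ! : ℝ)) * w ^ (n + k) := by
      intro w
      rw [mul_pow, pow_add]
      ring
    simp_rw [this]
    rw [integral_const_mul, mo]
    ring
  rw [e]
  exact key

end B0

open B0

theorem Supp.integrable_exp (h : Supp μ a b) (z : ℂ) :
    Integrable (fun w : ℝ => Complex.exp (z * w)) μ :=
  integrable_contE h (by fun_prop)

theorem Supp.integrable_cont (h : Supp μ a b) {g : ℝ → ℝ} (hg : Continuous g) :
    Integrable g μ := integrable_contE h hg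

theorem JJ_differentiable (h : Supp μ a b) : Differentiable ℂ (JJ μ) := by
  intro z
  have h1 := ProbabilityTheory.hasDerivAt_complexMGF (X := (id : ℝ → ℝ)) (μ := μ) (z := z) (by
    rw [expSet h]
    simp)
  exact h1.differentiableAt

theorem JJ_ofReal (x : ℝ) : JJ μ x = (Jr μ x : ℂ) := by
  rw [JJ, Jr, ← integral_complex_ofReal]
  congr 1
  ext w
  push_cast
  rfl

theorem Jr_eq_egfR (h : Supp μ a b) (x : ℝ) : Jr μ x = egfR (mo μ) x := by
  have := (hasSum_real h 0 x).tsum_eq
  simp only [pow_zero, one_mul, add_zero] at this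
  exact this.symm

theorem Jr'_eq_egfR' (h : Supp μ a b) (x : ℝ) : Jr' μ x = egfR' (mo μ) x := by
  have := (hasSum_real h 1 x).tsum_eq
  simp only [pow_one] at this
  exact this.symm

theorem JJ_eq_egf (h : Supp μ a b) : JJ μ = egf (mo μ) := by
  have := h.prob
  ext z
  set U : ℝ := |a| + |b| with hU
  have hU0 : 0 ≤ U := by positivity
  have hab := abs_le_U h (U := U) (by linarith [le_abs_self a, abs_nonneg b])
    (by linarith [le_abs_self b, abs_nonneg a])
  have key := hasSum_integral_of_dominated_convergence (μ := μ)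
    (F := fun (n : ℕ) (w : ℝ) => ((z * w) ^ n / (n ! : ℂ)))
    (f := fun w => Complex.exp (z * w)) (fun n _ => ((‖z‖ * U) ^ n / (n ! : ℝ)))
    (fun n => by fun_prop) (fun n => by
      filter_upwards [hab] with w hw
      rw [norm_div, norm_pow, norm_mul, Complex.norm_real, Real.norm_eq_abs, Complex.norm_natCast]
      gcongr) (Eventually.of_forall fun w =>
        (Real.summable_pow_div_factorial (‖z‖ * U))) (integrable_const _)
    (Eventually.of_forall fun w => by
      rw [Complex.exp_eq_exp_ℂ]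
      exact NormedSpace.expSeries_div_hasSum_exp _)
  rw [JJ, ← key.tsum_eq, egf]
  congr 1
  ext n
  rw [mo]
  push_cast
  rw [← integral_complex_ofReal]
  have : ∀ w : ℝ, (z * w) ^ n / (n ! : ℂ) = (z ^ n / (n ! : ℂ)) * ((w ^ n : ℝ) : ℂ) := by
    intro w
    push_cast
    rw [mul_pow]
    ring
  simp_rw [this]
  rw [integral_const_mul]
  ring

theorem Jr_pos (h : Supp μ a b) (x : ℝ) : 0 < Jr μ x := by
  have := h.prob
  exact integral_exp_pos (integrable_contE h (by fun_prop))

theorem B0.norm_exp_re (z : ℂ) (w : ℝ) : ‖Complex.exp (z * w)‖ = Real.exp (z.re * w) := by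
  rw [Complex.norm_exp]
  simp

theorem norm_JJ_le (h : Supp μ a b) (z : ℂ) : ‖JJ μ z‖ ≤ Jr μ z.re := by
  refine (norm_integral_le_integral_norm _).trans ?_
  simp_rw [norm_exp_re]
  exact le_refl _

theorem JJ_conj (z : ℂ) : JJ μ (starRingEnd ℂ z) = starRingEnd ℂ (JJ μ z) := by
  rw [JJ, JJ, ← integral_conj]
  congr 1
  ext w
  rw [← Complex.exp_conj, map_mul, Complex.conj_ofReal]

theorem JJ_zero (h : Supp μ a b) : JJ μ 0 = 1 := by
  have := h.prob
  simp [JJ]

theorem Jr_le_right (h : Supp μ a b) {x t : ℝ} (ht : 0 ≤ t) :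
    Jr μ (x + t) ≤ Real.exp (b * t) * Jr μ x := by
  rw [Jr, Jr, ← integral_const_mul]
  refine integral_mono_ae (integrable_contE h (by fun_prop)) (integrable_contE h (by fun_prop)) ?_
  filter_upwards [h.supp] with w hw
  rw [← Real.exp_add]
  apply Real.exp_le_exp.2
  nlinarith [mul_le_mul_of_nonneg_right hw.2 ht]

theorem Jr_le_left (h : Supp μ a b) {x t : ℝ} (ht : 0 ≤ t) :
    Jr μ (x - t) ≤ Real.exp (a * t) * Jr μ x := by
  rw [Jr, Jr, ← integral_const_mul]
  refine integral_mono_ae (integrable_contE h (by fun_prop)) (integrable_contE h (by fun_prop)) ?_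
  filter_upwards [h.supp] with w hw
  rw [← Real.exp_add]
  apply Real.exp_le_exp.2
  nlinarith [mul_le_mul_of_nonneg_right hw.1 ht]

theorem Jr_hasDerivAt (h : Supp μ a b) (x : ℝ) : HasDerivAt (Jr μ) (Jr' μ x) x := by
  have h1 := ProbabilityTheory.hasDerivAt_mgf (X := (id : ℝ → ℝ)) (μ := μ) (t := x) (by
    rw [expSet h]
    simp)
  exact h1

theorem B0.exp_sub (z w : ℂ) (x : ℝ) : ‖Complex.exp (z * x) - Complex.exp (w * x)‖ ≤
    ‖z - w‖ * |x| * Real.exp (w.re * x + ‖z - w‖ * |x|) := by
  have h1 := Complex.norm_exp_sub_sum_le_norm_mul_exp ((z - w) * x) 1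
  simp only [Finset.range_one, Finset.sum_singleton, pow_zero, Nat.factorial_zero, Nat.cast_one,
    div_one, pow_one, norm_mul, Complex.norm_real, Real.norm_eq_abs] at h1
  have h2 : Complex.exp (z * x) - Complex.exp (w * x) =
      Complex.exp (w * x) * (Complex.exp ((z - w) * x) - 1) := by
    rw [mul_sub, ← Complex.exp_add]
    congr 2
    · ring
    · ring
  rw [h2, norm_mul, norm_exp_re, Real.exp_add]
  calc _ ≤ Real.exp (w.re * x) * (‖z - w‖ * |x| * Real.exp (‖z - w‖ * |x|)) := by gcongr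
    _ = _ := by ring

/-- With `U = max a b`. -/
theorem JJ_lipschitz (h : Supp μ a b) {U : ℝ} (ha : a ≤ U) (hb : b ≤ U) (hU : 0 ≤ U) (z w : ℂ) :
    ‖JJ μ z - JJ μ w‖ ≤ U * ‖z - w‖ * Real.exp (U * ‖z - w‖) * Jr μ w.re := by
  rw [JJ, JJ, ← integral_sub (h.integrable_exp z) (h.integrable_exp w), Jr, ← integral_const_mul]
  refine (norm_integral_le_integral_norm _).trans ?_
  refine integral_mono_ae (integrable_contE h (by fun_prop)) (integrable_contE h (by fun_prop)) ?_
  filter_upwards [abs_le_U h ha hb] with x hx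
  refine (exp_sub z w x).trans ?_
  rw [Real.exp_add]
  calc ‖z - w‖ * |x| * (Real.exp (w.re * x) * Real.exp (‖z - w‖ * |x|))
      ≤ ‖z - w‖ * U * (Real.exp (w.re * x) * Real.exp (‖z - w‖ * U)) := by gcongr
    _ = _ := by
      rw [mul_comm ‖z - w‖ U]
      ring

theorem JJ_lipschitz' (h : Supp μ 0 b) (z w : ℂ) :
    ‖JJ μ z - JJ μ w‖ ≤ ‖z - w‖ * Jr' μ (w.re + ‖z - w‖) := by
  rw [JJ, JJ, ← integral_sub (h.integrable_exp z) (h.integrable_exp w), Jr', ← integral_const_mul]
  refine (norm_integral_le_integral_norm _).trans ?_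
  refine integral_mono_ae (integrable_contE h (by fun_prop)) (integrable_contE h (by fun_prop)) ?_
  filter_upwards [h.supp] with x hx
  refine (exp_sub z w x).trans ?_
  have hx0 : 0 ≤ x := by linarith [hx.1]
  rw [abs_of_nonneg hx0, add_mul]
  ring_nf
  exact le_refl _

end

end Pool.Agent.Lib_MP_1dbf07_co
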