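import Pool.Agent.Lib_MP_1dbf07_co.C1D

namespace Pool.Agent.Lib_MP_1dbf07_co

open MeasureTheory Set Filter Topology
open scoped Real Nat PowerSeries

noncomputable section

/-- Numerical: no zero of `F_τ` in the annulus (`0 ≤ τ ≤ 1.35`). -/
theorem c1_annulus : ∀ τ ∈ Icc (0 : ℝ) (27 / 20), ∀ s : ℂ,
    5148 / 1000 ≤ ‖s‖ → ‖s‖ ≤ 5252 / 1000 → egf (hF τ) s ≠ 0 := by
  intro τ hτ s hs1 hs2
  obtain ⟨h0, h1⟩ := hτ
  by_cases h : τ ≤ 54 / 1000
  · refine C1K.cell_ne C1K.k0 ?_ hs1 hs2
    rw [abs_le]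
    push_cast
    constructor <;> linarith
  replace h0 := (not_le.1 h).le
  clear h
  by_cases h : τ ≤ 108 / 1000
  · refine C1K.cell_ne C1K.k1 ?_ hs1 hs2
    rw [abs_le]
    push_cast
    constructor <;> linarith
  replace h0 := (not_le.1 h).le
  clear h
  by_cases h : τ ≤ 160 / 1000
  · refine C1K.cell_ne C1K.k2 ?_ hs1 hs2
    rw [abs_le]
    push_cast
    constructor <;> linarith
  replace h0 := (not_le.1 h).le
  clear h
  by_cases h : τ ≤ 208 / 1000
  · refine C1K.cell_ne C1K.k3 ?_ hs1 hs2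
    rw [abs_le]
    push_cast
    constructor <;> linarith
  replace h0 := (not_le.1 h).le
  clear h
  by_cases h : τ ≤ 256 / 1000
  · refine C1K.cell_ne C1K.k4 ?_ hs1 hs2
    rw [abs_le]
    push_cast
    constructor <;> linarith
  replace h0 := (not_le.1 h).le
  clear h
  by_cases h : τ ≤ 302 / 1000
  · refine C1K.cell_ne C1K.k5 ?_ hs1 hs2
    rw [abs_le]
    push_cast
    constructor <;> linarith
  replace h0 := (not_le.1 h).le
  clear h
  by_cases h : τ ≤ 346 / 1000
  · refine C1K.cell_ne C1K.k6 ?_ hs1 hs2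
    rw [abs_le]
    push_cast
    constructor <;> linarith
  replace h0 := (not_le.1 h).le
  clear h
  by_cases h : τ ≤ 388 / 1000
  · refine C1K.cell_ne C1K.k7 ?_ hs1 hs2
    rw [abs_le]
    push_cast
    constructor <;> linarith
  replace h0 := (not_le.1 h).le
  clear h
  by_cases h : τ ≤ 428 / 1000
  · refine C1K.cell_ne C1K.k8 ?_ hs1 hs2
    rw [abs_le]
    push_cast
    constructor <;> linarith
  replace h0 := (not_le.1 h).le
  clear h
  by_cases h : τ ≤ 466 / 1000
  · refine C1K.cell_ne C1K.k9 ?_ hs1 hs2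
    rw [abs_le]
    push_cast
    constructor <;> linarith
  replace h0 := (not_le.1 h).le
  clear h
  by_cases h : τ ≤ 502 / 1000
  · refine C1K.cell_ne C1K.k10 ?_ hs1 hs2
    rw [abs_le]
    push_cast
    constructor <;> linarith
  replace h0 := (not_le.1 h).le
  clear h
  by_cases h : τ ≤ 538 / 1000
  · refine C1K.cell_ne C1K.k11 ?_ hs1 hs2
    rw [abs_le]
    push_cast
    constructor <;> linarith
  replace h0 := (not_le.1 h).le
  clear h
  by_cases h : τ ≤ 574 / 1000
  · refine C1K.cell_ne C1K.k12 ?_ hs1 hs2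
    rw [abs_le]
    push_cast
    constructor <;> linarith
  replace h0 := (not_le.1 h).le
  clear h
  by_cases h : τ ≤ 608 / 1000
  · refine C1K.cell_ne C1K.k13 ?_ hs1 hs2
    rw [abs_le]
    push_cast
    constructor <;> linarith
  replace h0 := (not_le.1 h).le
  clear h
  by_cases h : τ ≤ 640 / 1000
  · refine C1K.cell_ne C1K.k14 ?_ hs1 hs2
    rw [abs_le]
    push_cast
    constructor <;> linarith
  replace h0 := (not_le.1 h).le
  clear h
  by_cases h : τ ≤ 672 / 1000
  · refine C1K.cell_ne C1K.k15 ?_ hs1 hs2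
    rw [abs_le]
    push_cast
    constructor <;> linarith
  replace h0 := (not_le.1 h).le
  clear h
  by_cases h : τ ≤ 702 / 1000
  · refine C1K.cell_ne C1K.k16 ?_ hs1 hs2
    rw [abs_le]
    push_cast
    constructor <;> linarith
  replace h0 := (not_le.1 h).le
  clear h
  by_cases h : τ ≤ 732 / 1000
  · refine C1K.cell_ne C1K.k17 ?_ hs1 hs2
    rw [abs_le]
    push_cast
    constructor <;> linarith
  replace h0 := (not_le.1 h).le
  clear h
  by_cases h : τ ≤ 762 / 1000
  · refine C1K.cell_ne C1K.k18 ?_ hs1 hs2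
    rw [abs_le]
    push_cast
    constructor <;> linarith
  replace h0 := (not_le.1 h).le
  clear h
  by_cases h : τ ≤ 790 / 1000
  · refine C1K.cell_ne C1K.k19 ?_ hs1 hs2
    rw [abs_le]
    push_cast
    constructor <;> linarith
  replace h0 := (not_le.1 h).le
  clear h
  by_cases h : τ ≤ 818 / 1000
  · refine C1K.cell_ne C1K.k20 ?_ hs1 hs2
    rw [abs_le]
    push_cast
    constructor <;> linarith
  replace h0 := (not_le.1 h).le
  clear h
  by_cases h : τ ≤ 844 / 1000
  · refine C1K.cell_ne C1K.k21 ?_ hs1 hs2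
    rw [abs_le]
    push_cast
    constructor <;> linarith
  replace h0 := (not_le.1 h).le
  clear h
  by_cases h : τ ≤ 868 / 1000
  · refine C1K.cell_ne C1K.k22 ?_ hs1 hs2
    rw [abs_le]
    push_cast
    constructor <;> linarith
  replace h0 := (not_le.1 h).le
  clear h
  by_cases h : τ ≤ 892 / 1000
  · refine C1K.cell_ne C1K.k23 ?_ hs1 hs2
    rw [abs_le]
    push_cast
    constructor <;> linarith
  replace h0 := (not_le.1 h).le
  clear h
  by_cases h : τ ≤ 914 / 1000
  · refine C1K.cell_ne C1K.k24 ?_ hs1 hs2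
    rw [abs_le]
    push_cast
    constructor <;> linarith
  replace h0 := (not_le.1 h).le
  clear h
  by_cases h : τ ≤ 936 / 1000
  · refine C1K.cell_ne C1K.k25 ?_ hs1 hs2
    rw [abs_le]
    push_cast
    constructor <;> linarith
  replace h0 := (not_le.1 h).le
  clear h
  by_cases h : τ ≤ 958 / 1000
  · refine C1K.cell_ne C1K.k26 ?_ hs1 hs2
    rw [abs_le]
    push_cast
    constructor <;> linarith
  replace h0 := (not_le.1 h).le
  clear h
  by_cases h : τ ≤ 978 / 1000
  · refine C1K.cell_ne C1K.k27 ?_ hs1 hs2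
    rw [abs_le]
    push_cast
    constructor <;> linarith
  replace h0 := (not_le.1 h).le
  clear h
  by_cases h : τ ≤ 998 / 1000
  · refine C1K.cell_ne C1K.k28 ?_ hs1 hs2
    rw [abs_le]
    push_cast
    constructor <;> linarith
  replace h0 := (not_le.1 h).le
  clear h
  by_cases h : τ ≤ 1018 / 1000
  · refine C1K.cell_ne C1K.k29 ?_ hs1 hs2
    rw [abs_le]
    push_cast
    constructor <;> linarith
  replace h0 := (not_le.1 h).le
  clear h
  by_cases h : τ ≤ 1038 / 1000
  · refine C1K.cell_ne C1K.k30 ?_ hs1 hs2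
    rw [abs_le]
    push_cast
    constructor <;> linarith
  replace h0 := (not_le.1 h).le
  clear h
  by_cases h : τ ≤ 1058 / 1000
  · refine C1K.cell_ne C1K.k31 ?_ hs1 hs2
    rw [abs_le]
    push_cast
    constructor <;> linarith
  replace h0 := (not_le.1 h).le
  clear h
  by_cases h : τ ≤ 1076 / 1000
  · refine C1K.cell_ne C1K.k32 ?_ hs1 hs2
    rw [abs_le]
    push_cast
    constructor <;> linarith
  replace h0 := (not_le.1 h).le
  clear h
  by_cases h : τ ≤ 1094 / 1000
  · refine C1K.cell_ne C1K.k33 ?_ hs1 hs2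
    rw [abs_le]
    push_cast
    constructor <;> linarith
  replace h0 := (not_le.1 h).le
  clear h
  by_cases h : τ ≤ 1112 / 1000
  · refine C1K.cell_ne C1K.k34 ?_ hs1 hs2
    rw [abs_le]
    push_cast
    constructor <;> linarith
  replace h0 := (not_le.1 h).le
  clear h
  by_cases h : τ ≤ 1128 / 1000
  · refine C1K.cell_ne C1K.k35 ?_ hs1 hs2
    rw [abs_le]
    push_cast
    constructor <;> linarith
  replace h0 := (not_le.1 h).le
  clear h
  by_cases h : τ ≤ 1144 / 1000
  · refine C1K.cell_ne C1K.k36 ?_ hs1 hs2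
    rw [abs_le]
    push_cast
    constructor <;> linarith
  replace h0 := (not_le.1 h).le
  clear h
  by_cases h : τ ≤ 1160 / 1000
  · refine C1K.cell_ne C1K.k37 ?_ hs1 hs2
    rw [abs_le]
    push_cast
    constructor <;> linarith
  replace h0 := (not_le.1 h).le
  clear h
  by_cases h : τ ≤ 1174 / 1000
  · refine C1K.cell_ne C1K.k38 ?_ hs1 hs2
    rw [abs_le]
    push_cast
    constructor <;> linarith
  replace h0 := (not_le.1 h).le
  clear h
  by_cases h : τ ≤ 1188 / 1000
  · refine C1K.cell_ne C1K.k39 ?_ hs1 hs2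
    rw [abs_le]
    push_cast
    constructor <;> linarith
  replace h0 := (not_le.1 h).le
  clear h
  by_cases h : τ ≤ 1202 / 1000
  · refine C1K.cell_ne C1K.k40 ?_ hs1 hs2
    rw [abs_le]
    push_cast
    constructor <;> linarith
  replace h0 := (not_le.1 h).le
  clear h
  by_cases h : τ ≤ 1216 / 1000
  · refine C1K.cell_ne C1K.k41 ?_ hs1 hs2
    rw [abs_le]
    push_cast
    constructor <;> linarith
  replace h0 := (not_le.1 h).le
  clear h
  by_cases h : τ ≤ 1228 / 1000
  · refine C1K.cell_ne C1K.k42 ?_ hs1 hs2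
    rw [abs_le]
    push_cast
    constructor <;> linarith
  replace h0 := (not_le.1 h).le
  clear h
  by_cases h : τ ≤ 1242 / 1000
  · refine C1K.cell_ne C1K.k43 ?_ hs1 hs2
    rw [abs_le]
    push_cast
    constructor <;> linarith
  replace h0 := (not_le.1 h).le
  clear h
  by_cases h : τ ≤ 1254 / 1000
  · refine C1K.cell_ne C1K.k44 ?_ hs1 hs2
    rw [abs_le]
    push_cast
    constructor <;> linarith
  replace h0 := (not_le.1 h).le
  clear h
  by_cases h : τ ≤ 1266 / 1000
  · refine C1K.cell_ne C1K.k45 ?_ hs1 hs2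
    rw [abs_le]
    push_cast
    constructor <;> linarith
  replace h0 := (not_le.1 h).le
  clear h
  by_cases h : τ ≤ 1278 / 1000
  · refine C1K.cell_ne C1K.k46 ?_ hs1 hs2
    rw [abs_le]
    push_cast
    constructor <;> linarith
  replace h0 := (not_le.1 h).le
  clear h
  by_cases h : τ ≤ 1290 / 1000
  · refine C1K.cell_ne C1K.k47 ?_ hs1 hs2
    rw [abs_le]
    push_cast
    constructor <;> linarith
  replace h0 := (not_le.1 h).le
  clear h
  by_cases h : τ ≤ 1300 / 1000
  · refine C1K.cell_ne C1K.k48 ?_ hs1 hs2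
    rw [abs_le]
    push_cast
    constructor <;> linarith
  replace h0 := (not_le.1 h).le
  clear h
  by_cases h : τ ≤ 1310 / 1000
  · refine C1K.cell_ne C1K.k49 ?_ hs1 hs2
    rw [abs_le]
    push_cast
    constructor <;> linarith
  replace h0 := (not_le.1 h).le
  clear h
  by_cases h : τ ≤ 1320 / 1000
  · refine C1K.cell_ne C1K.k50 ?_ hs1 hs2
    rw [abs_le]
    push_cast
    constructor <;> linarith
  replace h0 := (not_le.1 h).le
  clear h
  by_cases h : τ ≤ 1330 / 1000
  · refine C1K.cell_ne C1K.k51 ?_ hs1 hs2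
    rw [abs_le]
    push_cast
    constructor <;> linarith
  replace h0 := (not_le.1 h).le
  clear h
  by_cases h : τ ≤ 1340 / 1000
  · refine C1K.cell_ne C1K.k52 ?_ hs1 hs2
    rw [abs_le]
    push_cast
    constructor <;> linarith
  replace h0 := (not_le.1 h).le
  clear h
  by_cases h : τ ≤ 1348 / 1000
  · refine C1K.cell_ne C1K.k53 ?_ hs1 hs2
    rw [abs_le]
    push_cast
    constructor <;> linarith
  replace h0 := (not_le.1 h).le
  clear h
  refine C1K.cell_ne C1K.k54 ?_ hs1 hs2
  rw [abs_le]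
  push_cast
  constructor <;> linarith

end

end Pool.Agent.Lib_MP_1dbf07_co
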