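import Pool.Agent.Lib_MP_1dbf07_co.C1Q

/-!
Piece C1, the kernel computations.
-/

namespace Pool.Agent.Lib_MP_1dbf07_co

namespace C1K

set_option maxRecDepth 100000

theorem k0 : cellAll 27 27 126 = true := by decide +kernel
theorem k1 : cellAll 81 27 132 = true := by decide +kernel
theorem k2 : cellAll 134 26 130 = true := by decide +kernel
theorem k3 : cellAll 184 24 120 = true := by decide +kernel
theorem k4 : cellAll 232 24 120 = true := by decide +kernel
theorem k5 : cellAll 279 23 113 = true := by decide +kernel
theorem k6 : cellAll 324 22 106 = true := by decide +kernel
theorem k7 : cellAll 367 21 99 = true := by decide +kernel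
theorem k8 : cellAll 408 20 92 = true := by decide +kernel
theorem k9 : cellAll 447 19 86 = true := by decide +kernel
theorem k10 : cellAll 484 18 80 = true := by decide +kernel
theorem k11 : cellAll 520 18 79 = true := by decide +kernel
theorem k12 : cellAll 556 18 78 = true := by decide +kernel
theorem k13 : cellAll 591 17 73 = true := by decide +kernel
theorem k14 : cellAll 624 16 68 = true := by decide +kernel
theorem k15 : cellAll 656 16 68 = true := by decide +kernel
theorem k16 : cellAll 687 15 63 = true := by decide +kernel
theorem k17 : cellAll 717 15 63 = true := by decide +kernel
theorem k18 : cellAll 747 15 63 = true := by decide +kernel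
theorem k19 : cellAll 776 14 59 = true := by decide +kernel
theorem k20 : cellAll 804 14 59 = true := by decide +kernel
theorem k21 : cellAll 831 13 55 = true := by decide +kernel
theorem k22 : cellAll 856 12 51 = true := by decide +kernel
theorem k23 : cellAll 880 12 51 = true := by decide +kernel
theorem k24 : cellAll 903 11 47 = true := by decide +kernel
theorem k25 : cellAll 925 11 48 = true := by decide +kernel
theorem k26 : cellAll 947 11 48 = true := by decide +kernel
theorem k27 : cellAll 968 10 44 = true := by decide +kernel
theorem k28 : cellAll 988 10 44 = true := by decide +kernel
theorem k29 : cellAll 1008 10 45 = true := by decide +kernel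
theorem k30 : cellAll 1028 10 46 = true := by decide +kernel
theorem k31 : cellAll 1048 10 46 = true := by decide +kernel
theorem k32 : cellAll 1067 9 41 = true := by decide +kernel
theorem k33 : cellAll 1085 9 42 = true := by decide +kernel
theorem k34 : cellAll 1103 9 43 = true := by decide +kernel
theorem k35 : cellAll 1120 8 38 = true := by decide +kernel
theorem k36 : cellAll 1136 8 38 = true := by decide +kernel
theorem k37 : cellAll 1152 8 39 = true := by decide +kernel
theorem k38 : cellAll 1167 7 34 = true := by decide +kernel
theorem k39 : cellAll 1181 7 34 = true := by decide +kernel
theorem k40 : cellAll 1195 7 35 = true := by decide +kernel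
theorem k41 : cellAll 1209 7 35 = true := by decide +kernel
theorem k42 : cellAll 1222 6 30 = true := by decide +kernel
theorem k43 : cellAll 1235 7 37 = true := by decide +kernel
theorem k44 : cellAll 1248 6 31 = true := by decide +kernel
theorem k45 : cellAll 1260 6 31 = true := by decide +kernel
theorem k46 : cellAll 1272 6 32 = true := by decide +kernel
theorem k47 : cellAll 1284 6 33 = true := by decide +kernel
theorem k48 : cellAll 1295 5 27 = true := by decide +kernel
theorem k49 : cellAll 1305 5 27 = true := by decide +kernel
theorem k50 : cellAll 1315 5 28 = true := by decide +kernel
theorem k51 : cellAll 1325 5 29 = true := by decide +kernel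
theorem k52 : cellAll 1335 5 32 = true := by decide +kernel
theorem k53 : cellAll 1344 4 26 = true := by decide +kernel
theorem k54 : cellAll 1349 1 18 = true := by decide +kernel

end C1K

end Pool.Agent.Lib_MP_1dbf07_co
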