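import Pool.Agent.Lib_MP_1dbf07_co.C1N

/-!
Piece C1, the coefficient lists and the soundness of the cell check.
-/

namespace Pool.Agent.Lib_MP_1dbf07_co

namespace C1K

open scoped Nat

noncomputable section

/-! ### Coefficients -/

/-- Common form of the coefficients. -/
def gsR (f : ℕ → ℝ) (n : ℕ) : ℝ :=
  ∑ l ∈ Finset.range (n / 2 + 1),
    f (n - 2 * l) * ((n - 2 * l : ℕ) + 1 : ℝ) * (2 - (1 / 2) ^ (n - 2 * l)) * (n ! : ℝ)
      / (2 ^ n * (l ! : ℝ) * ((n - 2 * l + 1 + l)! : ℝ))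

theorem hF_gsR (τ : ℝ) (n : ℕ) : hF τ n = gsR (fun i => (-τ) ^ i) n := rfl

theorem hFd_gsR (τ : ℝ) (n : ℕ) : hFd τ n = gsR (fun i => -(i : ℝ) * (-τ) ^ (i - 1)) n := rfl

theorem hFdd_gsR (τ : ℝ) (n : ℕ) :
    hFdd τ n = gsR (fun i => (i : ℝ) * ((i - 1 : ℕ) : ℝ) * τ ^ (i - 2)) n := rfl

/-- Numerators. -/
def numL (f : ℕ → ℕ) (n k : ℕ) : ℕ → ℕ → ℕ :=
  Nat.rec (motive := fun _ => ℕ → ℕ → ℕ) (fun _ _ => 0)
    (fun _ ih l C =>
      Nat.add (Nat.mul (f (Nat.sub n (Nat.mul 2 l)))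
        (Nat.mul (Nat.mul (Nat.mul (Nat.succ (Nat.sub n (Nat.mul 2 l)))
          (Nat.sub (Nat.pow 2 (Nat.succ (Nat.sub n (Nat.mul 2 l)))) 1)) C)
          (Nat.pow 2000 (Nat.mul 2 l))))
        (ih (Nat.succ l) (Nat.div (Nat.mul C (Nat.sub (Nat.succ n) l)) (Nat.succ l)))) k

theorem numL_spec (f : ℕ → ℕ) (n k l : ℕ) :
    numL f n k l ((n + 1).choose l) = ∑ m ∈ Finset.range k, f (n - 2 * (l + m)) *
      ((n - 2 * (l + m) + 1) * (2 ^ (n - 2 * (l + m) + 1) - 1) * (n + 1).choose (l + m) *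
        2000 ^ (2 * (l + m))) := by
  induction k generalizing l with
  | zero => rfl
  | succ k ih =>
    have h1 : numL f n (k + 1) l ((n + 1).choose l) = f (n - 2 * l) *
      ((n - 2 * l + 1) * (2 ^ (n - 2 * l + 1) - 1) * (n + 1).choose l *
        2000 ^ (2 * l)) + numL f n k (l + 1) ((n + 1).choose l * (n + 1 - l) / (l + 1)) := rfl
    have h2 : (n + 1).choose l * (n + 1 - l) / (l + 1) = (n + 1).choose (l + 1) := by
      rw [← Nat.choose_succ_right_eq]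
      exact Nat.mul_div_cancel _ (Nat.succ_pos _)
    rw [h1, h2, ih, Finset.sum_range_succ']
    rw [add_comm]
    congr 1
    refine Finset.sum_congr rfl fun m _ => ?_
    have : l + 1 + m = l + (m + 1) := by ring
    rw [this]

theorem gsR_val (f : ℕ → ℕ) (ft : ℕ → ℝ) (σ : ℝ) (n : ℕ)
    (h : ∀ l ≤ n / 2, ft (n - 2 * l) = σ * (f (n - 2 * l) : ℝ) / 1000 ^ (n - 2 * l)) :
    gsR ft n / (n ! : ℝ) * (26 / 5) ^ n =
      σ * ((26 ^ n * numL f n (n / 2 + 1) 0 1 : ℕ) : ℝ) / ((20000 ^ n * (n + 1)! : ℕ) : ℝ) := by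
  have h0 := numL_spec f n (n / 2 + 1) 0
  rw [Nat.choose_zero_right] at h0
  rw [h0, gsR, Finset.sum_div, Finset.sum_mul]
  push_cast
  rw [Finset.mul_sum, Finset.mul_sum, Finset.sum_div]
  refine Finset.sum_congr rfl fun l hl => ?_
  have hl' : l ≤ n / 2 := Nat.lt_succ_iff.1 (Finset.mem_range.1 hl)
  have hl2 : 2 * l ≤ n := by omega
  rw [h l hl']
  simp only [zero_add]
  have e1 : n - 2 * l + 1 + l = n + 1 - l := by omega
  rw [e1]
  have hC : ((n + 1).choose l : ℝ) * (l ! : ℝ) * ((n + 1 - l)! : ℝ) = ((n + 1)! : ℝ) := by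
    exact_mod_cast Nat.choose_mul_factorial_mul_factorial (by omega : l ≤ n + 1)
  have hl0 : (l ! : ℝ) ≠ 0 := Nat.cast_ne_zero.2 (Nat.factorial_ne_zero _)
  have hn0 : (n ! : ℝ) ≠ 0 := Nat.cast_ne_zero.2 (Nat.factorial_ne_zero _)
  have hnl0 : ((n + 1 - l)! : ℝ) ≠ 0 := Nat.cast_ne_zero.2 (Nat.factorial_ne_zero _)
  have hn10 : ((n + 1)! : ℝ) ≠ 0 := Nat.cast_ne_zero.2 (Nat.factorial_ne_zero _)
  obtain ⟨i, hi⟩ : ∃ i, n = i + 2 * l := ⟨n - 2 * l, by omega⟩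
  have hi' : n - 2 * l = i := by omega
  rw [hi']
  have e2 : ((2 ^ (i + 1) - 1 : ℕ) : ℝ) = 2 ^ (i + 1) - 1 := by
    rw [Nat.cast_sub Nat.one_le_two_pow]; push_cast; ring
  rw [e2]
  have e3 : (2 : ℝ) - (1 / 2) ^ i = (2 ^ (i + 1) - 1) / 2 ^ i := by
    rw [one_div, inv_pow, pow_succ]
    field_simp
  rw [e3, ← hC]
  have e4 : (26 / 5 : ℝ) ^ n = 26 ^ n / 5 ^ n := div_pow _ _ _
  have e5 : (20000 : ℝ) ^ n = 2 ^ n * 5 ^ n * (2 ^ i * 1000 ^ i * 2000 ^ (2 * l)) := by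
    have : (2 : ℝ) ^ i * 1000 ^ i * 2000 ^ (2 * l) = 2000 ^ n := by
      rw [← mul_pow, hi, pow_add]; norm_num
    rw [this, ← mul_pow, ← mul_pow]
    norm_num
  rw [e4, e5]
  have p1 : (2 : ℝ) ^ n ≠ 0 := by positivity
  have p2 : (5 : ℝ) ^ n ≠ 0 := by positivity
  have p3 : (2 : ℝ) ^ i ≠ 0 := by positivity
  have p4 : (1000 : ℝ) ^ i ≠ 0 := by positivity
  have p5 : (2000 : ℝ) ^ (2 * l) ≠ 0 := by positivity
  have hch : ((n + 1).choose l : ℝ) ≠ 0 :=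
    Nat.cast_ne_zero.2 (Nat.choose_pos (by omega)).ne'
  generalize (2 : ℝ) ^ n = a1 at *
  generalize (5 : ℝ) ^ n = a2 at *
  generalize (2 : ℝ) ^ i = a3 at *
  generalize (1000 : ℝ) ^ i = a4 at *
  generalize (2000 : ℝ) ^ (2 * l) = a5 at *
  generalize (26 : ℝ) ^ n = a6 at *
  generalize ((n + 1).choose l : ℝ) = a7 at *
  generalize (l ! : ℝ) = a8 at *
  generalize (n ! : ℝ) = a9 at *
  generalize ((n + 1 - l)! : ℝ) = a10 at *
  generalize (2 : ℝ) ^ (i + 1) - 1 = a11 at *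
  field_simp

/-- The integer coefficient (without sign). -/
def coefN (f : ℕ → ℕ) (n : ℕ) : ℕ :=
  Nat.div (Nat.mul 1000000000 (Nat.mul (Nat.pow 26 n) (numL f n (Nat.succ (Nat.div n 2)) 0 1)))
    (Nat.mul (Nat.pow 20000 n) (Nat.factorial (Nat.succ n)))

theorem coefN_approx (f : ℕ → ℕ) (ft : ℕ → ℝ) (σ : ℝ) (hσ : |σ| = 1) (n : ℕ)
    (h : ∀ l ≤ n / 2, ft (n - 2 * l) = σ * (f (n - 2 * l) : ℝ) / 1000 ^ (n - 2 * l)) :
    |10 ^ 9 * (gsR ft n / (n ! : ℝ) * (26 / 5) ^ n) - σ * (coefN f n : ℝ)| ≤ 1 := by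
  rw [gsR_val f ft σ n h]
  have h1 : coefN f n = (1000000000 * (26 ^ n * numL f n (n / 2 + 1) 0 1)) /
    (20000 ^ n * (n + 1)!) := rfl
  set a : ℕ := 26 ^ n * numL f n (n / 2 + 1) 0 1 with ha
  set b : ℕ := 20000 ^ n * (n + 1)! with hb
  have hb0 : 0 < b := by positivity
  have hbR : (0 : ℝ) < b := by exact_mod_cast hb0
  have h2 : b * (1000000000 * a / b) + 1000000000 * a % b = 1000000000 * a :=
    Nat.div_add_mod _ _
  have h3 : 1000000000 * a % b < b := Nat.mod_lt _ hb0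
  have h4 : (b : ℝ) * (coefN f n : ℝ) + ((1000000000 * a % b : ℕ) : ℝ) = 1000000000 * a := by
    rw [h1]; exact_mod_cast h2
  have h5 : ((1000000000 * a % b : ℕ) : ℝ) < b := by exact_mod_cast h3
  have h6 : (0 : ℝ) ≤ ((1000000000 * a % b : ℕ) : ℝ) := Nat.cast_nonneg _
  have h7 : 10 ^ 9 * (σ * (a : ℝ) / b) - σ * (coefN f n : ℝ) =
      σ * (((1000000000 * a % b : ℕ) : ℝ) / b) := by
    field_simp
    linear_combination -σ * h4
  rw [h7, abs_mul, hσ, one_mul, abs_of_nonneg (by positivity), div_le_one hbR]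
  exact h5.le

/-! ### Bounds -/

theorem gsR_bound (ft : ℕ → ℝ) (n : ℕ) (B : ℝ) (h : ∀ i ≤ n, |ft i| ≤ B) : |gsR ft n| ≤ 4 * B := by
  have hB : 0 ≤ B := (abs_nonneg _).trans (h 0 (Nat.zero_le _))
  have hterm : ∀ l ∈ Finset.range (n / 2 + 1),
      |ft (n - 2 * l) * ((n - 2 * l : ℕ) + 1 : ℝ) * (2 - (1 / 2) ^ (n - 2 * l)) * (n ! : ℝ)
      / (2 ^ n * (l ! : ℝ) * ((n - 2 * l + 1 + l)! : ℝ))| ≤
      B * 2 / 2 ^ n * ((n + 1).choose l : ℝ) := by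
    intro l hl
    have hl' : l ≤ n / 2 := Nat.lt_succ_iff.1 (Finset.mem_range.1 hl)
    have e1 : n - 2 * l + 1 + l = n + 1 - l := by omega
    rw [e1]
    have hC : ((n + 1).choose l : ℝ) * (l ! : ℝ) * ((n + 1 - l)! : ℝ) = ((n + 1)! : ℝ) := by
      exact_mod_cast Nat.choose_mul_factorial_mul_factorial (by omega : l ≤ n + 1)
    have hl0 : (0 : ℝ) < (l ! : ℝ) := Nat.cast_pos.2 (Nat.factorial_pos _)
    have hn0 : (0 : ℝ) < (n ! : ℝ) := Nat.cast_pos.2 (Nat.factorial_pos _)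
    have hnl0 : (0 : ℝ) < ((n + 1 - l)! : ℝ) := Nat.cast_pos.2 (Nat.factorial_pos _)
    have hf := h (n - 2 * l) (by omega)
    have h1 : ((n - 2 * l : ℕ) + 1 : ℝ) ≤ n + 1 := by
      have : ((n - 2 * l : ℕ) : ℝ) ≤ n := by exact_mod_cast Nat.sub_le _ _
      linarith
    have h2 : (0 : ℝ) ≤ 2 - (1 / 2) ^ (n - 2 * l) := by
      have : ((1 : ℝ) / 2) ^ (n - 2 * l) ≤ 1 := pow_le_one₀ (by norm_num) (by norm_num)
      linarith
    have h3 : (2 : ℝ) - (1 / 2) ^ (n - 2 * l) ≤ 2 := by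
      have : (0 : ℝ) ≤ (1 / 2) ^ (n - 2 * l) := by positivity
      linarith
    have h4 : (0 : ℝ) ≤ ((n - 2 * l : ℕ) + 1 : ℝ) := by positivity
    rw [abs_div, abs_mul, abs_mul, abs_mul, abs_of_nonneg h4, abs_of_nonneg h2,
      abs_of_pos hn0, abs_of_pos (by positivity : (0 : ℝ) < 2 ^ n * (l ! : ℝ) * ((n + 1 - l)! : ℝ))]
    rw [div_le_iff₀ (by positivity)]
    have hfac : ((n + 1)! : ℝ) = (n + 1) * (n ! : ℝ) := by
      rw [Nat.factorial_succ]; push_cast; ring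
    calc |ft (n - 2 * l)| * ((n - 2 * l : ℕ) + 1 : ℝ) * (2 - (1 / 2) ^ (n - 2 * l)) * (n ! : ℝ)
        ≤ B * (n + 1) * 2 * (n ! : ℝ) := by gcongr
      _ = B * 2 * ((n + 1)! : ℝ) := by rw [hfac]; ring
      _ = B * 2 / 2 ^ n * ((n + 1).choose l : ℝ) *
          (2 ^ n * (l ! : ℝ) * ((n + 1 - l)! : ℝ)) := by
        rw [← hC]
        have : (2 : ℝ) ^ n ≠ 0 := by positivity
        field_simp
  calc |gsR ft n| ≤ ∑ l ∈ Finset.range (n / 2 + 1), B * 2 / 2 ^ n * ((n + 1).choose l : ℝ) :=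
        (Finset.abs_sum_le_sum_abs _ _).trans (Finset.sum_le_sum hterm)
    _ = B * 2 / 2 ^ n * ∑ l ∈ Finset.range (n / 2 + 1), ((n + 1).choose l : ℝ) := by
        rw [Finset.mul_sum]
    _ ≤ B * 2 / 2 ^ n * 2 ^ (n + 1) := by
        gcongr
        have h1 : ∑ l ∈ Finset.range (n / 2 + 1), ((n + 1).choose l : ℝ) ≤
            ∑ l ∈ Finset.range (n + 1 + 1), ((n + 1).choose l : ℝ) := by
          apply Finset.sum_le_sum_of_subset_of_nonneg
          · intro x hx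
            simp only [Finset.mem_range] at hx ⊢
            omega
          · intro i _ _; positivity
        have h2 : ∑ l ∈ Finset.range (n + 1 + 1), ((n + 1).choose l : ℝ) = 2 ^ (n + 1) := by
          exact_mod_cast Nat.sum_range_choose (n + 1)
        linarith
    _ = 4 * B := by
        have : (2 : ℝ) ^ n ≠ 0 := by positivity
        rw [pow_succ]
        field_simp
        ring

/-- Tail of the series on the disc of radius `26/5`. -/
theorem tail_bound {c : ℕ → ℝ} (r : ℕ) (hr : r ≤ 2)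
    (hc : ∀ n, 1 ≤ n → |c n| ≤ 4 * ((n : ℝ) ^ r * (27 / 20) ^ n)) {x : ℂ} (hx : ‖x‖ ≤ 26 / 5) :
    ‖egf c x - ∑ n ∈ Finset.range 32, ((c n / (n ! : ℝ) : ℝ) : ℂ) * x ^ n‖ ≤
      2 * (4 * (32 ^ r * (351 / 50) ^ 32 / (32 ! : ℝ))) := by
  set t : ℕ → ℂ := fun n => ((c n / (n ! : ℝ) : ℝ) : ℂ) * x ^ n with ht
  set b : ℕ → ℝ := fun n => 4 * ((n : ℝ) ^ r * (351 / 50) ^ n / (n ! : ℝ)) with hb
  have hfac : ∀ n : ℕ, (0 : ℝ) < (n ! : ℝ) := fun n => Nat.cast_pos.2 (Nat.factorial_pos _)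
  have hbt : ∀ n, 1 ≤ n → ‖t n‖ ≤ b n := by
    intro n hn
    rw [ht]
    simp only [norm_mul, norm_pow, Complex.norm_real, Real.norm_eq_abs]
    rw [abs_div, abs_of_pos (hfac n)]
    calc |c n| / (n ! : ℝ) * ‖x‖ ^ n ≤
        4 * ((n : ℝ) ^ r * (27 / 20) ^ n) / (n ! : ℝ) * (26 / 5) ^ n := by
          gcongr
          exact hc n hn
      _ = b n := by
          rw [hb]
          have : (351 / 50 : ℝ) ^ n = (27 / 20) ^ n * (26 / 5) ^ n := by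
            rw [← mul_pow]; norm_num
          simp only
          rw [this]; ring
  have hratio : ∀ n, 32 ≤ n → b (n + 1) ≤ b n * (1 / 2) := by
    intro n hn
    rw [hb]
    simp only
    have hn' : (32 : ℝ) ≤ n := by exact_mod_cast hn
    have h1 : (((n + 1 : ℕ) : ℝ)) ^ r ≤ 2 * (n : ℝ) ^ r := by
      have h2 : (((n + 1 : ℕ) : ℝ)) ≤ (33 / 32) * n := by push_cast; linarith
      calc (((n + 1 : ℕ) : ℝ)) ^ r ≤ ((33 / 32) * (n : ℝ)) ^ r := by gcongr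
        _ = (33 / 32) ^ r * (n : ℝ) ^ r := mul_pow _ _ _
        _ ≤ 2 * (n : ℝ) ^ r := by
          gcongr
          calc (33 / 32 : ℝ) ^ r ≤ (33 / 32) ^ 2 := by
                apply pow_le_pow_right₀ (by norm_num) hr
            _ ≤ 2 := by norm_num
    rw [Nat.factorial_succ]
    have hfn := hfac n
    have hn1 : (0 : ℝ) < ((n + 1 : ℕ) : ℝ) := by positivity
    rw [Nat.cast_mul, pow_succ]
    calc 4 * (((n + 1 : ℕ) : ℝ) ^ r * ((351 / 50) ^ n * (351 / 50)) /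
          (((n + 1 : ℕ) : ℝ) * (n ! : ℝ)))
        ≤ 4 * ((2 * (n : ℝ) ^ r) * ((351 / 50) ^ n * (351 / 50)) /
          (((n + 1 : ℕ) : ℝ) * (n ! : ℝ))) := by gcongr
      _ = (4 * ((n : ℝ) ^ r * (351 / 50) ^ n / (n ! : ℝ))) *
          (2 * (351 / 50) / ((n + 1 : ℕ) : ℝ)) := by field_simp
      _ ≤ (4 * ((n : ℝ) ^ r * (351 / 50) ^ n / (n ! : ℝ))) * (1 / 2) := by
          apply mul_le_mul_of_nonneg_left _ (by positivity)
          rw [div_le_iff₀ hn1]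
          push_cast
          linarith
  have hbk : ∀ k, b (k + 32) ≤ b 32 * (1 / 2) ^ k := by
    intro k
    induction k with
    | zero => simp
    | succ k ih =>
      have h1 := hratio (k + 32) (by omega)
      have : k + 1 + 32 = k + 32 + 1 := by ring
      rw [this]
      calc b (k + 32 + 1) ≤ b (k + 32) * (1 / 2) := h1
        _ ≤ b 32 * (1 / 2) ^ k * (1 / 2) := by gcongr
        _ = b 32 * (1 / 2) ^ (k + 1) := by rw [pow_succ]; ring
  have htk : ∀ k, ‖t (k + 32)‖ ≤ b 32 * (1 / 2) ^ k := fun k =>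
    (hbt _ (by omega)).trans (hbk k)
  have hgeo : HasSum (fun k : ℕ => b 32 * (1 / 2) ^ k) (b 32 * 2) := hasSum_geometric_two.mul_left _
  have hsum' : Summable (fun k => t (k + 32)) := Summable.of_norm_bounded hgeo.summable htk
  have hsum : Summable t := (summable_nat_add_iff 32).1 hsum'
  have h1 : egf c x = ∑' n, t n := rfl
  rw [h1, ← hsum.sum_add_tsum_nat_add 32]
  have h2 : ‖∑' k, t (k + 32)‖ ≤ b 32 * 2 := tsum_of_norm_bounded hgeo htk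
  have h3 : ∑ i ∈ Finset.range 32, t i + ∑' k, t (k + 32) - ∑ n ∈ Finset.range 32, t n =
      ∑' k, t (k + 32) := by ring
  rw [h3]
  refine h2.trans (le_of_eq ?_)
  rw [hb]
  push_cast
  ring

theorem pow_bound {τ : ℝ} (h0 : 0 ≤ τ) (h1 : τ ≤ 27 / 20) {i n : ℕ} (h : i ≤ n) :
    τ ^ i ≤ (27 / 20) ^ n :=
  (pow_le_pow_left₀ h0 h1 i).trans (pow_le_pow_right₀ (by norm_num) h)

theorem hF_le {τ : ℝ} (h0 : 0 ≤ τ) (h1 : τ ≤ 27 / 20) (n : ℕ) :
    |hF τ n| ≤ 4 * ((n : ℝ) ^ 0 * (27 / 20) ^ n) := by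
  rw [hF_gsR]
  apply gsR_bound
  intro i hi
  rw [abs_pow, abs_neg, abs_of_nonneg h0, pow_zero, one_mul]
  exact pow_bound h0 h1 hi

theorem hFd_le {τ : ℝ} (h0 : 0 ≤ τ) (h1 : τ ≤ 27 / 20) (n : ℕ) :
    |hFd τ n| ≤ 4 * ((n : ℝ) ^ 1 * (27 / 20) ^ n) := by
  rw [hFd_gsR]
  apply gsR_bound
  intro i hi
  have hi' : (i : ℝ) ≤ n := by exact_mod_cast hi
  rw [abs_mul, abs_neg, abs_pow, abs_neg, abs_of_nonneg h0, abs_of_nonneg (Nat.cast_nonneg i),
    pow_one]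
  have := pow_bound h0 h1 (show i - 1 ≤ n by omega)
  gcongr

theorem hFdd_le {τ : ℝ} (h0 : 0 ≤ τ) (h1 : τ ≤ 27 / 20) (n : ℕ) :
    |hFdd τ n| ≤ 4 * ((n : ℝ) ^ 2 * (27 / 20) ^ n) := by
  rw [hFdd_gsR]
  apply gsR_bound
  intro i hi
  have hi' : (i : ℝ) ≤ n := by exact_mod_cast hi
  have hi'' : ((i - 1 : ℕ) : ℝ) ≤ n := by exact_mod_cast (show i - 1 ≤ n by omega)
  rw [abs_of_nonneg (by positivity), sq]
  have := pow_bound h0 h1 (show i - 2 ≤ n by omega)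
  gcongr

/-- The polynomial approximation at the point `(26/5) (P + iQ)/D`. -/
theorem approx {c : ℕ → ℝ} (r : ℕ) (hr : r ≤ 2)
    (hc : ∀ n, 1 ≤ n → |c n| ≤ 4 * ((n : ℝ) ^ r * (27 / 20) ^ n)) {a : ℕ → ℤ}
    (ha : ∀ n, |10 ^ 9 * (c n / (n ! : ℝ) * (26 / 5) ^ n) - (a n : ℝ)| ≤ 1)
    {P Q D : ℤ} (hD : 0 < D) (hu : P ^ 2 + Q ^ 2 ≤ D ^ 2) :
    ‖10 ^ 9 * egf c (26 / 5 * (((P : ℂ) + Q * Complex.I) / D))
      - (((horner P Q D ((List.range 32).map a)).1 : ℂ) +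
        (horner P Q D ((List.range 32).map a)).2 * Complex.I)‖ ≤
      96 + 10 ^ 9 * (2 * (4 * (32 ^ r * (351 / 50) ^ 32 / (32 ! : ℝ)))) := by
  set u : ℂ := ((P : ℂ) + Q * Complex.I) / D with hudef
  have hDR : (0 : ℝ) < (D : ℝ) := by exact_mod_cast hD
  have hnu : ‖u‖ ≤ 1 := by
    rw [hudef, norm_div, div_le_one (by simpa using hDR.ne')]
    rw [Complex.norm_intCast, abs_of_pos hDR]
    have h1 : ‖(P : ℂ) + Q * Complex.I‖ ^ 2 ≤ (D : ℝ) ^ 2 := by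
      have h2 : (P : ℂ) + Q * Complex.I = ((P : ℝ) : ℂ) + ((Q : ℝ) : ℂ) * Complex.I := by
        push_cast; ring
      rw [h2, ← Complex.normSq_eq_norm_sq, Complex.normSq_add_mul_I]
      exact_mod_cast hu
    exact le_of_sq_le_sq h1 hDR.le
  have hx : ‖(26 / 5 : ℂ) * u‖ ≤ 26 / 5 := by
    rw [norm_mul]
    have : ‖(26 / 5 : ℂ)‖ = 26 / 5 := by
      rw [norm_div]; norm_num
    rw [this]
    nlinarith [norm_nonneg u]
  have h1 := tail_bound r hr hc hx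
  have h2 := horner_error hD hu ((List.range 32).map a)
    (fun n => 10 ^ 9 * (c n / (n ! : ℝ) * (26 / 5) ^ n)) (by
      intro k hk
      have hk' : k < 32 := by simpa using hk
      have : ((List.range 32).map a).getD k 0 = a k := by
        rw [List.getD_eq_getElem _ _ hk]
        simp
      rw [this]
      exact ha k)
  rw [List.length_map, List.length_range] at h2
  have h3 : ∑ k ∈ Finset.range 32, (((fun n : ℕ => 10 ^ 9 * (c n / (n ! : ℝ) * (26 / 5) ^ n)) k : ℝ) : ℂ) *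
      (((P : ℂ) + Q * Complex.I) / D) ^ k =
      10 ^ 9 * ∑ n ∈ Finset.range 32, ((c n / (n ! : ℝ) : ℝ) : ℂ) * (26 / 5 * u) ^ n := by
    rw [Finset.mul_sum]
    refine Finset.sum_congr rfl fun k _ => ?_
    rw [← hudef, mul_pow]
    push_cast
    ring
  rw [h3] at h2
  have h4 : ‖10 ^ 9 * egf c (26 / 5 * u) -
      10 ^ 9 * ∑ n ∈ Finset.range 32, ((c n / (n ! : ℝ) : ℝ) : ℂ) * (26 / 5 * u) ^ n‖ ≤
      10 ^ 9 * (2 * (4 * (32 ^ r * (351 / 50) ^ 32 / (32 ! : ℝ)))) := by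
    rw [← mul_sub, norm_mul]
    have : ‖(10 : ℂ) ^ 9‖ = 10 ^ 9 := by rw [norm_pow]; norm_num
    rw [this]
    gcongr
  set E1 : ℂ := 10 ^ 9 * egf c (26 / 5 * u)
  set E2 : ℂ := 10 ^ 9 * ∑ n ∈ Finset.range 32, ((c n / (n ! : ℝ) : ℝ) : ℂ) * (26 / 5 * u) ^ n
  have h5 : E1 - (((horner P Q D ((List.range 32).map a)).1 : ℂ) +
        (horner P Q D ((List.range 32).map a)).2 * Complex.I) =
      (E2 - (((horner P Q D ((List.range 32).map a)).1 : ℂ) +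
        (horner P Q D ((List.range 32).map a)).2 * Complex.I)) + (E1 - E2) := by ring
  rw [h5]
  refine (norm_add_le _ _).trans (add_le_add (h2.trans ?_) h4)
  norm_num

theorem egfR_ofReal (c : ℕ → ℝ) (x : ℝ) : ((egfR c x : ℝ) : ℂ) = egf c x := by
  rw [egfR, egf, Complex.ofReal_tsum]
  refine tsum_congr fun n => ?_
  push_cast
  ring

theorem tail_const0 : 10 ^ 9 * (2 * (4 * (32 ^ 0 * (351 / 50) ^ 32 / (32 ! : ℝ)))) ≤ 200 := by
  rw [show (32 ! : ℝ) = 263130836933693530167218012160000000 by norm_num [Nat.factorial]]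
  norm_num

theorem tail_const1 : 10 ^ 9 * (2 * (4 * (32 ^ 1 * (351 / 50) ^ 32 / (32 ! : ℝ)))) ≤ 4900 := by
  rw [show (32 ! : ℝ) = 263130836933693530167218012160000000 by norm_num [Nat.factorial]]
  norm_num

theorem tail_const2 : 10 ^ 9 * (2 * (4 * (32 ^ 2 * (351 / 50) ^ 32 / (32 ! : ℝ)))) ≤ 150000 := by
  rw [show (32 ! : ℝ) = 263130836933693530167218012160000000 by norm_num [Nat.factorial]]
  norm_num

end

end C1K

end Pool.Agent.Lib_MP_1dbf07_co
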