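import Pool.Agent.Lib_MP_1dbf07_co.C1a

/-!
Kernel numerics for piece C1: evaluation of real polynomials at many points of a circle with
natural number arithmetic.
-/

namespace Pool.Agent.Lib_MP_1dbf07_co

namespace C1K

open scoped Nat

noncomputable section

/-- Evaluate `n` to a literal, then apply `f`. -/
def frc {α : Type} (n : ℕ) (f : ℕ → α) : α :=
  Nat.rec (motive := fun _ => α) (f 0) (fun m _ => f (Nat.succ m)) n

theorem frc_eq {α : Type} (n : ℕ) (f : ℕ → α) : frc n f = f n := by cases n <;> rfl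

/-- Offsets. -/
def W : ℕ := 1125899906842624

def Z : ℕ := 1180591620717411303424

/-- Complex Horner evaluation, highest coefficient first, all numbers shifted. -/
def hN (P Q D M2 M s t : ℕ) (k : ℕ → ℕ → Bool) (l : List ℕ) : ℕ → ℕ → Bool :=
  List.rec (motive := fun _ => ℕ → ℕ → Bool) (fun x y => k x y)
    (fun a _ ih x y =>
      frc (Nat.sub (Nat.add a (Nat.div (Nat.add (Nat.mul P x) (Nat.mul Q (Nat.sub M2 y))) D)) t)
        fun x' =>
      frc (Nat.sub (Nat.add (Nat.div (Nat.add (Nat.mul P y) (Nat.mul Q x)) D) M) s) fun y' =>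
        ih x' y') l

/-- Real Horner evaluation. -/
def hR (P D t : ℕ) (k : ℕ → Bool) (l : List ℕ) : ℕ → Bool :=
  List.rec (motive := fun _ => ℕ → Bool) (fun x => k x)
    (fun a _ ih x =>
      frc (Nat.sub (Nat.add a (Nat.div (Nat.mul P x) D)) t) fun x' => ih x') l

/-- Shifted integer. -/
def tn (a : ℤ) : ℕ := (a + Z).toNat

/-- One step, shifted. -/
def stN (P Q D M2 M s t : ℕ) (v : ℕ × ℕ) (a : ℕ) : ℕ × ℕ :=
  ((a + (P * v.1 + Q * (M2 - v.2)) / D) - t, ((P * v.2 + Q * v.1) / D + M) - s)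

theorem hN_eq (P Q D M2 M s t : ℕ) (k : ℕ → ℕ → Bool) (l : List ℕ) (x y : ℕ) :
    hN P Q D M2 M s t k l x y =
      k (l.foldl (stN P Q D M2 M s t) (x, y)).1 (l.foldl (stN P Q D M2 M s t) (x, y)).2 := by
  induction l generalizing x y with
  | nil => rfl
  | cons a l ih =>
    have h1 : hN P Q D M2 M s t k (a :: l) x y =
        frc (Nat.sub (Nat.add a (Nat.div (Nat.add (Nat.mul P x) (Nat.mul Q (Nat.sub M2 y))) D)) t)
          fun x' =>
        frc (Nat.sub (Nat.add (Nat.div (Nat.add (Nat.mul P y) (Nat.mul Q x)) D) M) s) fun y' =>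
        hN P Q D M2 M s t k l x' y' := rfl
    rw [h1, frc_eq, frc_eq, ih]
    rfl

theorem hR_eq (P D t : ℕ) (k : ℕ → Bool) (l : List ℕ) (x : ℕ) :
    hR P D t k l x = k (l.foldl (fun x a => a + P * x / D - t) x) := by
  induction l generalizing x with
  | nil => rfl
  | cons a l ih =>
    have h1 : hR P D t k (a :: l) x =
        frc (Nat.sub (Nat.add a (Nat.div (Nat.mul P x) D)) t) fun x' => hR P D t k l x' := rfl
    rw [h1, frc_eq, ih]
    rfl

/-- Bound for the Horner process. -/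
def bnd (l : List ℤ) (b : ℕ) : ℕ := l.foldl (fun b a => a.natAbs + 2 * b) b

theorem le_bnd (l : List ℤ) (b : ℕ) : b ≤ bnd l b := by
  induction l generalizing b with
  | nil => exact le_rfl
  | cons a l ih =>
    have := ih (a.natAbs + 2 * b)
    simp only [bnd, List.foldl_cons] at this ⊢
    omega

theorem ediv_bound {u D b : ℤ} (hD : 0 < D) (h1 : -(D * b) ≤ u) (h2 : u ≤ D * b) :
    -b ≤ u / D ∧ u / D ≤ b := by
  constructor
  · rw [Int.le_ediv_iff_mul_le hD]; nlinarith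
  · exact Int.ediv_le_of_le_mul hD (by nlinarith)

theorem st_rel {P Q D : ℕ} (hD : 0 < D) (hP : P ≤ D) (hQ : Q ≤ D) (x y a : ℤ) (b : ℕ)
    (hx : |x| ≤ b) (hy : |y| ≤ b) (hb : a.natAbs + 2 * b ≤ W) (hDZ : D * W ≤ Z)
    (v : ℕ × ℕ) (h1 : (v.1 : ℤ) = x + D * W) (h2 : (v.2 : ℤ) = y + D * W) :
    ((stN P Q D (2 * (D * W)) (D * W) ((P + Q) * W) (Z + (P + Q) * W - D * W) v
      (tn a)).1 : ℤ) = (hstep P Q D a (x, y)).1 + D * W ∧
    ((stN P Q D (2 * (D * W)) (D * W) ((P + Q) * W) (Z + (P + Q) * W - D * W) v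
      (tn a)).2 : ℤ) = (hstep P Q D a (x, y)).2 + D * W ∧
    |(hstep P Q D a (x, y)).1| ≤ ((a.natAbs + 2 * b : ℕ) : ℤ) ∧
    |(hstep P Q D a (x, y)).2| ≤ ((a.natAbs + 2 * b : ℕ) : ℤ) := by
  have hDz : (0 : ℤ) < D := by exact_mod_cast hD
  have hPz : (P : ℤ) ≤ D := by exact_mod_cast hP
  have hQz : (Q : ℤ) ≤ D := by exact_mod_cast hQ
  have hP0 : (0 : ℤ) ≤ P := Int.natCast_nonneg _
  have hQ0 : (0 : ℤ) ≤ Q := Int.natCast_nonneg _
  have hb0 : (0 : ℤ) ≤ b := Int.natCast_nonneg _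
  rw [abs_le] at hx hy
  have hWpos : (1 : ℤ) ≤ W := by norm_num [W]
  have hDW : (W : ℤ) ≤ D * W := by nlinarith
  have hbz : (a.natAbs : ℤ) + 2 * b ≤ W := by exact_mod_cast hb
  have hana : |a| = (a.natAbs : ℤ) := Int.abs_eq_natAbs a
  have ha := abs_le.1 (le_of_eq hana)
  have hDZz : (D : ℤ) * W ≤ Z := by exact_mod_cast hDZ
  -- the x component
  have e1 : -(2 * (b : ℤ)) ≤ (P * x - Q * y) / D ∧ (P * x - Q * y) / D ≤ 2 * b := by
    apply ediv_bound hDz
    · nlinarith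
    · nlinarith
  have e2 : -(2 * (b : ℤ)) ≤ (P * y + Q * x) / D ∧ (P * y + Q * x) / D ≤ 2 * b := by
    apply ediv_bound hDz
    · nlinarith
    · nlinarith
  have hM2 : v.2 ≤ 2 * (D * W) := by
    have : (v.2 : ℤ) ≤ 2 * (D * W) := by rw [h2]; linarith
    exact_mod_cast this
  have c1 : (((P * v.1 + Q * (2 * (D * W) - v.2)) / D : ℕ) : ℤ) =
      (P * x - Q * y) / D + (P + Q) * W := by
    rw [Int.natCast_ediv]
    push_cast [Nat.cast_sub hM2]
    rw [h1, h2]
    have : (P : ℤ) * (x + D * W) + Q * (2 * (D * W) - (y + D * W)) =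
        (P * x - Q * y) + D * ((P + Q) * W) := by ring
    rw [this, Int.add_mul_ediv_left _ _ hDz.ne']
  have c2 : (((P * v.2 + Q * v.1) / D : ℕ) : ℤ) =
      (P * y + Q * x) / D + (P + Q) * W := by
    rw [Int.natCast_ediv]
    push_cast
    rw [h1, h2]
    have : (P : ℤ) * (y + D * W) + Q * (x + D * W) =
        (P * y + Q * x) + D * ((P + Q) * W) := by ring
    rw [this, Int.add_mul_ediv_left _ _ hDz.ne']
  have haZ : (tn a : ℤ) = a + Z := by
    apply Int.toNat_of_nonneg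
    have : (Z : ℤ) ≥ W := by linarith
    linarith
  have ht : D * W ≤ Z + (P + Q) * W := by
    have : D * W ≤ Z := hDZ
    omega
  have key1 : Z + (P + Q) * W - D * W ≤
      tn a + (P * v.1 + Q * (2 * (D * W) - v.2)) / D := by
    apply Int.ofNat_le.1
    rw [Nat.cast_sub ht, Nat.cast_add (tn a), haZ, c1]
    push_cast
    linarith
  have key2 : (P + Q) * W ≤ (P * v.2 + Q * v.1) / D + D * W := by
    apply Int.ofNat_le.1
    rw [Nat.cast_add (_ / _), c2]
    push_cast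
    linarith
  refine ⟨?_, ?_, ?_, ?_⟩
  · simp only [stN, hstep]
    rw [Nat.cast_sub key1, Nat.cast_add, Nat.cast_sub ht, haZ, c1]
    push_cast
    ring
  · simp only [stN, hstep]
    rw [Nat.cast_sub key2, Nat.cast_add, c2]
    push_cast
    ring
  · simp only [hstep]
    push_cast
    rw [abs_le]
    constructor
    · linarith [e1.1]
    · linarith [e1.2]
  · simp only [hstep]
    push_cast
    rw [abs_le]
    have : (0 : ℤ) ≤ a.natAbs := Int.natCast_nonneg _
    constructor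
    · linarith [e2.1]
    · linarith [e2.2]

/-- The fold over a list. -/
theorem fold_rel {P Q D : ℕ} (hD : 0 < D) (hP : P ≤ D) (hQ : Q ≤ D) (hDZ : D * W ≤ Z)
    (l : List ℤ) (x y : ℤ) (b : ℕ) (hx : |x| ≤ b) (hy : |y| ≤ b) (hb : bnd l b ≤ W)
    (v : ℕ × ℕ) (h1 : (v.1 : ℤ) = x + D * W) (h2 : (v.2 : ℤ) = y + D * W) :
    (((l.map tn).foldl
      (stN P Q D (2 * (D * W)) (D * W) ((P + Q) * W) (Z + (P + Q) * W - D * W)) v).1 : ℤ) =
      (l.foldl (fun v a => hstep P Q D a v) (x, y)).1 + D * W ∧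
    (((l.map tn).foldl
      (stN P Q D (2 * (D * W)) (D * W) ((P + Q) * W) (Z + (P + Q) * W - D * W)) v).2 : ℤ) =
      (l.foldl (fun v a => hstep P Q D a v) (x, y)).2 + D * W := by
  induction l generalizing x y b v with
  | nil => exact ⟨h1, h2⟩
  | cons a l ih =>
    have hb' : bnd l (a.natAbs + 2 * b) ≤ W := hb
    have hb1 : a.natAbs + 2 * b ≤ W := (le_bnd _ _).trans hb'
    obtain ⟨r1, r2, r3, r4⟩ := st_rel hD hP hQ x y a b hx hy hb1 hDZ v h1 h2
    simp only [List.map_cons, List.foldl_cons]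
    exact ih _ _ _ r3 r4 hb' _ r1 r2

/-- The Horner value of the list `A` (lowest coefficient first). -/
theorem hN_horner {P Q D : ℕ} (hD : 0 < D) (hP : P ≤ D) (hQ : Q ≤ D) (hDZ : D * W ≤ Z)
    (A : List ℤ) (hb : bnd A.reverse 0 ≤ W) (k : ℕ → ℕ → Bool) :
    ∃ X Y : ℕ, (X : ℤ) = (horner P Q D A).1 + D * W ∧ (Y : ℤ) = (horner P Q D A).2 + D * W ∧
      hN P Q D (2 * (D * W)) (D * W) ((P + Q) * W) (Z + (P + Q) * W - D * W) k
        (A.reverse.map tn) (D * W) (D * W) = k X Y := by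
  obtain ⟨r1, r2⟩ := fold_rel hD hP hQ hDZ A.reverse 0 0 0 (by simp) (by simp) hb
    (D * W, D * W) (by simp) (by simp)
  rw [List.foldl_reverse] at r1 r2
  exact ⟨_, _, r1, r2, hN_eq _ _ _ _ _ _ _ _ _ _ _⟩

theorem foldl_fst (P D : ℕ) (l : List ℤ) (v : ℤ × ℤ) :
    (l.foldl (fun v a => hstep P 0 D a v) v).1 = l.foldl (fun (x a : ℤ) => a + P * x / D) v.1 := by
  induction l generalizing v with
  | nil => rfl
  | cons a l ih =>
    simp only [List.foldl_cons]
    rw [ih]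
    simp [hstep]

theorem foldR_rel {P D : ℕ} (hD : 0 < D) (hP : P ≤ D) (hDZ : D * W ≤ Z)
    (l : List ℤ) (x : ℤ) (b : ℕ) (hx : |x| ≤ b) (hb : bnd l b ≤ W)
    (v : ℕ) (h1 : (v : ℤ) = x + D * W) :
    (((l.map tn).foldl
      (fun x a => a + P * x / D - (Z + P * W - D * W)) v : ℕ) : ℤ) =
      l.foldl (fun (x a : ℤ) => a + P * x / D) x + D * W := by
  induction l generalizing x b v with
  | nil => exact h1
  | cons a l ih =>
    have hb' : bnd l (a.natAbs + 2 * b) ≤ W := hb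
    have hb1 : a.natAbs + 2 * b ≤ W := (le_bnd _ _).trans hb'
    have hx0 : (0 : ℤ) ≤ b := Int.natCast_nonneg _
    obtain ⟨r1, _, r3, _⟩ := st_rel (Q := 0) hD hP (Nat.zero_le _) x 0 a b hx (by simp)
      hb1 hDZ (v, D * W) h1 (by simp)
    simp only [List.map_cons, List.foldl_cons]
    refine ih _ _ (by simpa [hstep] using r3) hb' _ ?_
    simpa [hstep, stN] using r1

theorem hR_horner {P D : ℕ} (hD : 0 < D) (hP : P ≤ D) (hDZ : D * W ≤ Z)
    (A : List ℤ) (hb : bnd A.reverse 0 ≤ W) (k : ℕ → Bool) :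
    ∃ X : ℕ, (X : ℤ) = (horner P 0 D A).1 + D * W ∧
      hR P D (Z + P * W - D * W) k (A.reverse.map tn) (D * W) = k X := by
  have r1 := foldR_rel hD hP hDZ A.reverse 0 0 (by simp) hb (D * W) (by simp)
  refine ⟨_, ?_, hR_eq _ _ _ _ _ _⟩
  rw [r1, horner, ← foldl_fst P D A.reverse (0, 0), List.foldl_reverse]

/-- Absolute difference. -/
def ad (x y : ℕ) : ℕ := Nat.add (Nat.sub x y) (Nat.sub y x)

theorem ad_eq (x y : ℕ) : (ad x y : ℤ) = |(x : ℤ) - y| := by
  have h : ad x y = (x - y) + (y - x) := rfl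
  rw [h]
  rcases le_total x y with hh | hh
  · rw [Nat.sub_eq_zero_of_le hh, zero_add, Nat.cast_sub hh, abs_of_nonpos (by
      have : (x : ℤ) ≤ y := by exact_mod_cast hh
      linarith)]
    ring
  · rw [Nat.sub_eq_zero_of_le hh, add_zero, Nat.cast_sub hh, abs_of_nonneg (by
      have : (y : ℤ) ≤ x := by exact_mod_cast hh
      linarith)]

/-- The final inequality of a disc. -/
def fin (G v d fx fy gx gy hx hd : ℕ) : Bool :=
  frc (Nat.add (Nat.mul gx gx) (Nat.mul gy gy)) fun m =>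
  frc (Nat.add (Nat.add gx gy) 1) fun x0 =>
  frc (Nat.add (Nat.div (Nat.add x0 (Nat.div m x0)) 2) 1) fun x1 =>
  frc (Nat.add (Nat.div (Nat.add x1 (Nat.div m x1)) 2) 1) fun gs =>
  frc (Nat.add (Nat.add (Nat.add (Nat.mul (Nat.mul v 2000000000) (Nat.add gs 5000))
      (Nat.mul (Nat.mul (Nat.mul v v) 1000000) G))
      (Nat.mul d (Nat.add (Nat.add (Nat.mul 2000000 (Nat.add hx 300))
        (Nat.mul (Nat.mul 2000 v) (Nat.add hd 5000))) (Nat.mul (Nat.mul v v) G))))
      600000000000000) fun L =>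
  (Nat.ble m (Nat.mul gs gs)).and
    (Nat.ble (Nat.succ (Nat.mul L L))
      (Nat.mul 4000000000000000000000000 (Nat.add (Nat.mul fx fx) (Nat.mul fy fy))))

theorem fin_sound {G v d fx fy gx gy hx hd : ℕ} (h : fin G v d fx fy gx gy hx hd = true) :
    ∃ gs : ℕ, gx * gx + gy * gy ≤ gs * gs ∧
      (v * 2000000000 * (gs + 5000) + v * v * 1000000 * G +
        d * (2000000 * (hx + 300) + 2000 * v * (hd + 5000) + v * v * G) + 600000000000000) ^ 2 <
      4000000000000000000000000 * (fx * fx + fy * fy) := by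
  simp only [fin, frc_eq] at h
  rw [Bool.and_eq_true, Nat.ble_eq, Nat.ble_eq] at h
  obtain ⟨h1, h2⟩ := h
  refine ⟨_, h1, ?_⟩
  rw [sq]
  exact h2

/-- The check of one disc. -/
def disc (A B : List ℕ) (G v d P Q D : ℕ) : Bool :=
  frc (Nat.mul D W) fun M =>
  frc (Nat.mul 2 M) fun M2 =>
  frc (Nat.mul (Nat.add P Q) W) fun s =>
  frc (Nat.sub (Nat.add Z s) M) fun t =>
  frc (Nat.sub (Nat.add Z (Nat.mul P W)) M) fun t' =>
  hN P Q D M2 M s t (fun fx fy =>
    hN P Q D M2 M s t (fun gx gy =>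
      hR P D t' (fun hx =>
        hR P D t' (fun hd =>
          fin G v d (ad fx M) (ad fy M) (ad gx M) (ad gy M) (Nat.sub hx M) (ad hd M)) B M) A M)
      B M M) A M M

theorem disc_sound {A B : List ℤ} {G v d P Q D : ℕ} (hD : 0 < D) (hP : P ≤ D) (hQ : Q ≤ D)
    (hDZ : D * W ≤ Z) (hA : bnd A.reverse 0 ≤ W) (hB : bnd B.reverse 0 ≤ W)
    (h : disc (A.reverse.map tn) (B.reverse.map tn)
      G v d P Q D = true) :
    ∃ gs hx hd : ℕ, (horner P Q D B).1 ^ 2 + (horner P Q D B).2 ^ 2 ≤ (gs : ℤ) ^ 2 ∧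
      (horner P 0 D A).1 ≤ hx ∧ |(horner P 0 D B).1| = hd ∧
      ((v * 2000000000 * (gs + 5000) + v * v * 1000000 * G +
        d * (2000000 * (hx + 300) + 2000 * v * (hd + 5000) + v * v * G) + 600000000000000 : ℕ)
          : ℤ) ^ 2 <
      4000000000000000000000000 * ((horner P Q D A).1 ^ 2 + (horner P Q D A).2 ^ 2) := by
  simp only [disc, frc_eq] at h
  obtain ⟨X, Y, h1, h2, h3⟩ := hN_horner hD hP hQ hDZ A hA (fun fx fy =>
    hN P Q D (2 * (D * W)) (D * W) ((P + Q) * W) (Z + (P + Q) * W - D * W) (fun gx gy =>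
      hR P D (Z + P * W - D * W) (fun hx =>
        hR P D (Z + P * W - D * W) (fun hd =>
          fin G v d (ad fx (D * W)) (ad fy (D * W)) (ad gx (D * W)) (ad gy (D * W))
            (hx - (D * W)) (ad hd (D * W))) (B.reverse.map tn) (D * W))
        (A.reverse.map tn) (D * W))
      (B.reverse.map tn) (D * W) (D * W))
  replace h := h3.symm.trans h
  obtain ⟨X', Y', h1', h2', h3'⟩ := hN_horner hD hP hQ hDZ B hB (fun gx gy =>
      hR P D (Z + P * W - D * W) (fun hx =>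
        hR P D (Z + P * W - D * W) (fun hd =>
          fin G v d (ad X (D * W)) (ad Y (D * W)) (ad gx (D * W)) (ad gy (D * W))
            (hx - (D * W)) (ad hd (D * W))) (B.reverse.map tn) (D * W))
        (A.reverse.map tn) (D * W))
  replace h := h3'.symm.trans h
  obtain ⟨X'', h1'', h3''⟩ := hR_horner hD hP hDZ A hA (fun hx =>
        hR P D (Z + P * W - D * W) (fun hd =>
          fin G v d (ad X (D * W)) (ad Y (D * W)) (ad X' (D * W)) (ad Y' (D * W))
            (hx - (D * W)) (ad hd (D * W))) (B.reverse.map tn) (D * W))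
  replace h := h3''.symm.trans h
  obtain ⟨X3, h13, h33⟩ := hR_horner hD hP hDZ B hB (fun hd =>
          fin G v d (ad X (D * W)) (ad Y (D * W)) (ad X' (D * W)) (ad Y' (D * W))
            (X'' - (D * W)) (ad hd (D * W)))
  replace h := h33.symm.trans h
  obtain ⟨gs, g1, g2⟩ := fin_sound h
  have eX : (ad X (D * W) : ℤ) = |(horner P Q D A).1| := by rw [ad_eq, h1]; push_cast; ring_nf
  have eY : (ad Y (D * W) : ℤ) = |(horner P Q D A).2| := by rw [ad_eq, h2]; push_cast; ring_nf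
  have eX' : (ad X' (D * W) : ℤ) = |(horner P Q D B).1| := by rw [ad_eq, h1']; push_cast; ring_nf
  have eY' : (ad Y' (D * W) : ℤ) = |(horner P Q D B).2| := by rw [ad_eq, h2']; push_cast; ring_nf
  have eh : (ad X3 (D * W) : ℤ) = |(horner P 0 D B).1| := by rw [ad_eq, h13]; push_cast; ring_nf
  refine ⟨gs, X'' - D * W, ad X3 (D * W), ?_, ?_, eh.symm, ?_⟩
  · have : ((ad X' (D * W) * ad X' (D * W) + ad Y' (D * W) * ad Y' (D * W) : ℕ) : ℤ) ≤
      ((gs * gs : ℕ) : ℤ) := by exact_mod_cast g1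
    push_cast at this
    rw [eX', eY', abs_mul_abs_self, abs_mul_abs_self] at this
    nlinarith
  · have : (X'' : ℤ) - (D * W : ℕ) ≤ ((X'' - D * W : ℕ) : ℤ) := by omega
    rw [h1''] at this
    push_cast at this ⊢
    linarith
  · have : (((v * 2000000000 * (gs + 5000) + v * v * 1000000 * G +
        d * (2000000 * (X'' - (D * W) + 300) + 2000 * v * (ad X3 (D * W) + 5000) + v * v * G) +
        600000000000000) ^ 2 : ℕ) : ℤ) <
      ((4000000000000000000000000 *
        (ad X (D * W) * ad X (D * W) + ad Y (D * W) * ad Y (D * W)) : ℕ) : ℤ) := by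
      exact_mod_cast g2
    rw [Nat.cast_mul, Nat.cast_add, Nat.cast_mul (ad X (D * W)), Nat.cast_mul (ad Y (D * W)),
      eX, eY, abs_mul_abs_self, abs_mul_abs_self] at this
    rw [sq, sq]
    push_cast at this ⊢
    linarith

end

end C1K

end Pool.Agent.Lib_MP_1dbf07_co
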