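import Pool.Agent.Lib_MP_1dbf07_co.C1M

/-!
Piece C1, the cell check and its soundness.
-/

namespace Pool.Agent.Lib_MP_1dbf07_co

namespace C1K

open scoped Nat

noncomputable section

/-! ### The check -/

def fA (p i : ℕ) : ℕ := Nat.pow p i

def fB (p i : ℕ) : ℕ := Nat.mul (Nat.mul i 1000) (Nat.pow p (Nat.sub i 1))

def fG (p i : ℕ) : ℕ := Nat.mul (Nat.mul (Nat.mul i (Nat.sub i 1)) 1000000) (Nat.pow p (Nat.sub i 2))

/-- Bound for `10^6 δ c exp(c δ)`. -/
def dOf (K : ℕ) : ℕ :=
  10 ^ 6 * (18 * (523 * (52 * K + 5200)) * (500000 * K) ^ 3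
    + 18 * (523 * (52 * K + 5200)) ^ 2 * (500000 * K) ^ 2
    + 9 * (523 * (52 * K + 5200)) ^ 3 * (500000 * K) + 4 * (523 * (52 * K + 5200)) ^ 4) /
    (18 * (500000 * K) ^ 4) + 1

def gP (f : ℕ → ℕ) (i : ℕ) : ℕ := Nat.add Z (coefN f i)

def gM (f : ℕ → ℕ) (i : ℕ) : ℕ :=
  Nat.rec (motive := fun _ => ℕ) (Nat.add Z (coefN f i)) (fun _ _ => Nat.sub Z (coefN f i))
    (Nat.mod i 2)

def mkF (g : ℕ → ℕ) (k : List ℕ → Bool) (m : ℕ) : ℕ → List ℕ → Bool :=
  Nat.rec (motive := fun _ => ℕ → List ℕ → Bool) (fun _ acc => k acc)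
    (fun _ ih i acc => frc (g i) fun a => ih (Nat.succ i) (a :: acc)) m

theorem mkF_eq (g : ℕ → ℕ) (k : List ℕ → Bool) (m i : ℕ) (acc : List ℕ) :
    mkF g k m i acc = k (((List.range m).map fun j => g (i + j)).reverse ++ acc) := by
  induction m generalizing i acc with
  | zero => rfl
  | succ m ih =>
    have h1 : mkF g k (m + 1) i acc = frc (g i) fun a => mkF g k m (i + 1) (a :: acc) := rfl
    rw [h1, frc_eq, ih, List.range_succ_eq_map, List.map_cons, List.reverse_cons, List.map_map,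
      List.append_assoc]
    congr 2
    · congr 1
      apply List.map_congr_left
      intro j _
      simp only [Function.comp_apply]
      congr 1
      omega

def sumF (g : ℕ → ℕ) (k : ℕ → Bool) (m : ℕ) : ℕ → Bool :=
  Nat.rec (motive := fun _ => ℕ → Bool) (fun acc => k acc)
    (fun i ih acc => frc (Nat.add (g i) acc) fun a => ih a) m

theorem sumF_eq (g : ℕ → ℕ) (k : ℕ → Bool) (m acc : ℕ) :
    sumF g k m acc = k (∑ i ∈ Finset.range m, g i + acc) := by
  induction m generalizing acc with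
  | zero => simp [sumF]
  | succ m ih =>
    have h1 : sumF g k (m + 1) acc = frc (Nat.add (g m) acc) fun a => sumF g k m a := rfl
    rw [h1, frc_eq, ih, Finset.sum_range_succ]
    congr 1
    have : Nat.add (g m) acc = g m + acc := rfl
    rw [this]
    ring

def bF (g : ℕ → ℕ) (m : ℕ) : ℕ → ℕ :=
  Nat.rec (motive := fun _ => ℕ → ℕ) (fun b => b)
    (fun m ih b => frc (Nat.add (g m) (Nat.mul 2 b)) fun b' => ih b') m

theorem bF_eq (g : ℕ → ℕ) (a : ℕ → ℤ) (h : ∀ i, (a i).natAbs = g i) (m b : ℕ) :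
    bnd ((List.range m).map a).reverse b = bF g m b := by
  induction m generalizing b with
  | zero => rfl
  | succ m ih =>
    have h1 : bF g (m + 1) b = frc (Nat.add (g m) (Nat.mul 2 b)) fun b' => bF g m b' := rfl
    rw [h1, frc_eq, List.range_succ, List.map_append, List.reverse_append]
    simp only [List.map_cons, List.map_nil, List.reverse_cons, List.reverse_nil, List.nil_append,
      List.singleton_append]
    have h2 : bnd (a m :: ((List.range m).map a).reverse) b =
        bnd ((List.range m).map a).reverse ((a m).natAbs + 2 * b) := rfl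
    rw [h2, ih, h]
    rfl

def loop (A1 B1 A2 B2 : List ℕ) (G v d K m : ℕ) : Bool :=
  Nat.rec (motive := fun _ => Bool) true (fun j ih =>
    frc (Nat.sub (Nat.mul K K) (Nat.mul j j)) fun P =>
    frc (Nat.mul (Nat.mul 2 j) K) fun Q =>
    frc (Nat.add (Nat.mul K K) (Nat.mul j j)) fun D =>
    (disc A1 B1 G v d P Q D).and ((disc A2 B2 G v d P Q D).and ih)) m

theorem loop_sound {A1 B1 A2 B2 : List ℕ} {G v d K m : ℕ}
    (h : loop A1 B1 A2 B2 G v d K m = true) (j : ℕ) (hj : j < m) :
    disc A1 B1 G v d (K * K - j * j) (2 * j * K) (K * K + j * j) = true ∧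
    disc A2 B2 G v d (K * K - j * j) (2 * j * K) (K * K + j * j) = true := by
  induction m with
  | zero => omega
  | succ m ih =>
    have h1 : loop A1 B1 A2 B2 G v d K (m + 1) =
      frc (Nat.sub (Nat.mul K K) (Nat.mul m m)) fun P =>
      frc (Nat.mul (Nat.mul 2 m) K) fun Q =>
      frc (Nat.add (Nat.mul K K) (Nat.mul m m)) fun D =>
      (disc A1 B1 G v d P Q D).and ((disc A2 B2 G v d P Q D).and
        (loop A1 B1 A2 B2 G v d K m)) := rfl
    rw [h1, frc_eq, frc_eq, frc_eq, Bool.and_eq_true, Bool.and_eq_true] at h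
    obtain ⟨h2, h3, h4⟩ := h
    rcases Nat.lt_succ_iff_lt_or_eq.1 hj with hj | rfl
    · exact ih h4 hj
    · exact ⟨h2, h3⟩

/-- The check of a cell. -/
def cell (p v K : ℕ) : Bool :=
  frc (dOf K) fun d =>
  sumF (coefN (fG (Nat.add p v))) (fun S0 => frc (Nat.add S0 150032) fun G =>
    mkF (gM (fA p)) (fun A1 => mkF (gM (fB p)) (fun B1 =>
      mkF (gP (fA p)) (fun A2 => mkF (gP (fB p)) (fun B2 =>
        loop A1 B1 A2 B2 G v d K (Nat.succ K)) 32 0 []) 32 0 []) 32 0 []) 32 0 []) 32 0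

/-- The check of a cell with all side conditions. -/
def cellAll (p v K : ℕ) : Bool :=
  (Nat.ble v p).and ((Nat.ble (Nat.add p v) 1350).and ((Nat.ble 6 K).and ((Nat.ble K 500).and
    ((Nat.ble (bF (coefN (fA p)) 32 0) W).and ((Nat.ble (bF (coefN (fB p)) 32 0) W).and
      (cell p v K))))))

/-- signed coefficients -/
def aM (f : ℕ → ℕ) (n : ℕ) : ℤ := (-1) ^ n * (coefN f n : ℤ)

def aP (f : ℕ → ℕ) (n : ℕ) : ℤ := (coefN f n : ℤ)

theorem gP_eq (f : ℕ → ℕ) (n : ℕ) : gP f n = tn (aP f n) := by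
  have h1 : gP f n = Z + coefN f n := rfl
  rw [h1, tn, aP]
  omega

theorem gM_eq (f : ℕ → ℕ) (n : ℕ) : gM f n = tn (aM f n) := by
  rcases Nat.even_or_odd n with h | h
  · have h1 : gM f n = Z + coefN f n := by
      have : Nat.mod n 2 = 0 := Nat.even_iff.1 h
      rw [gM, this]; rfl
    rw [h1, tn, aM, h.neg_one_pow, one_mul]
    omega
  · have h1 : gM f n = Z - coefN f n := by
      have : Nat.mod n 2 = 1 := Nat.odd_iff.1 h
      rw [gM, this]; rfl
    rw [h1, tn, aM, h.neg_one_pow]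
    omega

theorem aM_natAbs (f : ℕ → ℕ) (n : ℕ) : (aM f n).natAbs = coefN f n := by
  rw [aM, Int.natAbs_mul, Int.natAbs_pow]; simp

theorem aP_natAbs (f : ℕ → ℕ) (n : ℕ) : (aP f n).natAbs = coefN f n := by
  rw [aP]; simp

theorem cell_disc {p v K : ℕ} (h : cell p v K = true) (j : ℕ) (hj : j ≤ K) :
    disc (((List.range 32).map (aM (fA p))).reverse.map tn)
      (((List.range 32).map (aM (fB p))).reverse.map tn)
      (∑ i ∈ Finset.range 32, coefN (fG (p + v)) i + 150032) v (dOf K)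
      (K * K - j * j) (2 * j * K) (K * K + j * j) = true ∧
    disc (((List.range 32).map (aP (fA p))).reverse.map tn)
      (((List.range 32).map (aP (fB p))).reverse.map tn)
      (∑ i ∈ Finset.range 32, coefN (fG (p + v)) i + 150032) v (dOf K)
      (K * K - j * j) (2 * j * K) (K * K + j * j) = true := by
  have hl1 : ∀ f : ℕ → ℕ, ((List.range 32).map fun j => gM f (0 + j)).reverse ++ [] =
      ((List.range 32).map (aM f)).reverse.map tn := by
    intro f
    rw [List.append_nil, ← List.map_reverse, ← List.map_reverse, List.map_map]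
    apply List.map_congr_left
    intro i _
    rw [zero_add, gM_eq]; rfl
  have hl2 : ∀ f : ℕ → ℕ, ((List.range 32).map fun j => gP f (0 + j)).reverse ++ [] =
      ((List.range 32).map (aP f)).reverse.map tn := by
    intro f
    rw [List.append_nil, ← List.map_reverse, ← List.map_reverse, List.map_map]
    apply List.map_congr_left
    intro i _
    rw [zero_add, gP_eq]; rfl
  have hadd : ∀ S c : ℕ, Nat.add (S + 0) c = S + c := fun S c => rfl
  have hpv : Nat.add p v = p + v := rfl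
  rw [cell, frc_eq, sumF_eq, hpv] at h
  generalize (∑ i ∈ Finset.range 32, coefN (fG (p + v)) i) = S at h ⊢
  generalize 150032 = c0 at h ⊢
  rw [hadd] at h
  generalize S + c0 = S' at h ⊢
  rw [frc_eq, mkF_eq, mkF_eq, mkF_eq, mkF_eq, hl1, hl1, hl2, hl2] at h
  exact loop_sound h j (Nat.lt_succ_iff.2 hj)

end

end C1K

end Pool.Agent.Lib_MP_1dbf07_co
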