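import Pool.Agent.Lib_MP_1dbf07_co.C1P

/-!
Piece C1, from the check of a cell to the absence of zeros.
-/

namespace Pool.Agent.Lib_MP_1dbf07_co

namespace C1K

open scoped Nat

noncomputable section

theorem norm_nine : ‖(10 : ℂ) ^ 9‖ = 10 ^ 9 := by rw [norm_pow]; norm_num

theorem disc_real {c0 c1 : ℕ → ℝ}
    (h0 : ∀ n, 1 ≤ n → |c0 n| ≤ 4 * ((n : ℝ) ^ 0 * (27 / 20) ^ n))
    (h1 : ∀ n, 1 ≤ n → |c1 n| ≤ 4 * ((n : ℝ) ^ 1 * (27 / 20) ^ n))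
    {a0 a1 : ℕ → ℤ}
    (ha0 : ∀ n, |10 ^ 9 * (c0 n / (n ! : ℝ) * (26 / 5) ^ n) - (a0 n : ℝ)| ≤ 1)
    (ha1 : ∀ n, |10 ^ 9 * (c1 n / (n ! : ℝ) * (26 / 5) ^ n) - (a1 n : ℝ)| ≤ 1)
    {G v d P Q D : ℕ} (hD : 0 < D) (hP : P ≤ D) (hQ : Q ≤ D) (hPQ : P ^ 2 + Q ^ 2 = D ^ 2)
    (hDZ : D * W ≤ Z)
    (hA : bnd ((List.range 32).map a0).reverse 0 ≤ W)
    (hB : bnd ((List.range 32).map a1).reverse 0 ≤ W)
    (h : disc (((List.range 32).map a0).reverse.map tn) (((List.range 32).map a1).reverse.map tn)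
      G v d P Q D = true)
    {Gd e : ℝ} (hG : 10 ^ 9 * Gd ≤ G) (he0 : 0 ≤ e) (he : e ≤ d / 10 ^ 6) :
    (v / 1000 : ℝ) * ‖egf c1 (26 / 5 * (((P : ℂ) + Q * Complex.I) / D))‖
      + (v / 1000 : ℝ) ^ 2 / 2 * Gd
      + e * (egfR c0 (26 / 5 * (P / D)) + (v / 1000 : ℝ) * |egfR c1 (26 / 5 * (P / D))|
        + (v / 1000 : ℝ) ^ 2 / 2 * Gd) <
    ‖egf c0 (26 / 5 * (((P : ℂ) + Q * Complex.I) / D))‖ := by
  obtain ⟨gs, hx, hd, g1, g2, g3, g4⟩ := disc_sound hD hP hQ hDZ hA hB h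
  have hDz : (0 : ℤ) < D := by exact_mod_cast hD
  have hu : (P : ℤ) ^ 2 + (Q : ℤ) ^ 2 ≤ (D : ℤ) ^ 2 := by exact_mod_cast hPQ.le
  have hu' : (P : ℤ) ^ 2 + (0 : ℤ) ^ 2 ≤ (D : ℤ) ^ 2 := by
    have h2 : (P : ℤ) ≤ D := by exact_mod_cast hP
    have h3 : (0 : ℤ) ≤ P := Int.natCast_nonneg _
    have h4 := pow_le_pow_left₀ h3 h2 2
    linarith
  have t0 : (96 : ℝ) + 10 ^ 9 * (2 * (4 * (32 ^ 0 * (351 / 50) ^ 32 / (32 ! : ℝ)))) ≤ 300 := by
    refine (add_le_add (le_refl (96 : ℝ)) tail_const0).trans (by norm_num)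
  have t1 : (96 : ℝ) + 10 ^ 9 * (2 * (4 * (32 ^ 1 * (351 / 50) ^ 32 / (32 ! : ℝ)))) ≤ 5000 := by
    refine (add_le_add (le_refl (96 : ℝ)) tail_const1).trans (by norm_num)
  have A1 := (approx 0 (by norm_num) h0 ha0 hDz hu).trans t0
  have A2 := (approx 1 (by norm_num) h1 ha1 hDz hu).trans t1
  have A3 := (approx 0 (by norm_num) h0 ha0 hDz hu').trans t0
  have A4 := (approx 1 (by norm_num) h1 ha1 hDz hu').trans t1
  clear t0 t1
  simp only [Int.cast_natCast, Int.cast_zero, zero_mul, add_zero] at A1 A2 A3 A4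
  set F : ℂ := egf c0 (26 / 5 * (((P : ℂ) + Q * Complex.I) / D)) with hF
  set F1 : ℂ := egf c1 (26 / 5 * (((P : ℂ) + Q * Complex.I) / D)) with hF1
  set f := horner P Q D ((List.range 32).map a0) with hf
  set g := horner P Q D ((List.range 32).map a1) with hg
  set p := horner P 0 D ((List.range 32).map a0) with hp
  set q := horner P 0 D ((List.range 32).map a1) with hq
  set x : ℝ := 26 / 5 * (P / D) with hxdef
  have hxc : (26 / 5 * ((P : ℂ) / D) : ℂ) = (x : ℂ) := by rw [hxdef]; push_cast; ring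
  rw [hxc, ← egfR_ofReal] at A3 A4
  have B1 : (‖(f.1 : ℂ) + f.2 * Complex.I‖ : ℝ) - 300 ≤ 10 ^ 9 * ‖F‖ := by
    have : ‖(f.1 : ℂ) + f.2 * Complex.I‖ ≤ ‖10 ^ 9 * F‖ +
        ‖10 ^ 9 * F - ((f.1 : ℂ) + f.2 * Complex.I)‖ := by
      have e1 : (f.1 : ℂ) + f.2 * Complex.I = 10 ^ 9 * F -
        (10 ^ 9 * F - ((f.1 : ℂ) + f.2 * Complex.I)) := by ring
      conv_lhs => rw [e1]
      exact norm_sub_le _ _
    rw [norm_mul, norm_nine] at this
    linarith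
  have B2 : 10 ^ 9 * ‖F1‖ ≤ gs + 5000 := by
    have h2 : ‖10 ^ 9 * F1‖ ≤ ‖(g.1 : ℂ) + g.2 * Complex.I‖ +
        ‖10 ^ 9 * F1 - ((g.1 : ℂ) + g.2 * Complex.I)‖ := by
      have e1 : 10 ^ 9 * F1 = ((g.1 : ℂ) + g.2 * Complex.I) +
        (10 ^ 9 * F1 - ((g.1 : ℂ) + g.2 * Complex.I)) := by ring
      conv_lhs => rw [e1]
      exact norm_add_le _ _
    have h3 : ‖(g.1 : ℂ) + g.2 * Complex.I‖ ≤ gs := by
      have h4 : ‖(g.1 : ℂ) + g.2 * Complex.I‖ ^ 2 ≤ (gs : ℝ) ^ 2 := by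
        have h5 : (g.1 : ℂ) + g.2 * Complex.I = ((g.1 : ℝ) : ℂ) + ((g.2 : ℝ) : ℂ) * Complex.I := by
          push_cast; ring
        rw [h5, ← Complex.normSq_eq_norm_sq, Complex.normSq_add_mul_I]
        exact_mod_cast g1
      exact le_of_sq_le_sq h4 (Nat.cast_nonneg _)
    rw [norm_mul, norm_nine] at h2
    linarith
  have B3 : 10 ^ 9 * egfR c0 x ≤ hx + 300 := by
    have h2 := Complex.abs_re_le_norm (10 ^ 9 * ((egfR c0 x : ℝ) : ℂ) -
      ((p.1 : ℂ) + p.2 * Complex.I))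
    have h3 : (10 ^ 9 * ((egfR c0 x : ℝ) : ℂ) - ((p.1 : ℂ) + p.2 * Complex.I)).re =
        10 ^ 9 * egfR c0 x - p.1 := by
      have : (10 ^ 9 * ((egfR c0 x : ℝ) : ℂ) - ((p.1 : ℂ) + p.2 * Complex.I)) =
        ((10 ^ 9 * egfR c0 x - p.1 : ℝ) : ℂ) - ((p.2 : ℝ) : ℂ) * Complex.I := by
        push_cast; ring
      rw [this, Complex.sub_re, Complex.ofReal_re, Complex.re_ofReal_mul, Complex.I_re]
      ring
    rw [h3] at h2
    have h4 := (abs_le.1 (h2.trans A3)).2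
    have h5 : (p.1 : ℝ) ≤ hx := by exact_mod_cast g2
    linarith
  have B4 : 10 ^ 9 * |egfR c1 x| ≤ hd + 5000 := by
    have h2 := Complex.abs_re_le_norm (10 ^ 9 * ((egfR c1 x : ℝ) : ℂ) -
      ((q.1 : ℂ) + q.2 * Complex.I))
    have h3 : (10 ^ 9 * ((egfR c1 x : ℝ) : ℂ) - ((q.1 : ℂ) + q.2 * Complex.I)).re =
        10 ^ 9 * egfR c1 x - q.1 := by
      have : (10 ^ 9 * ((egfR c1 x : ℝ) : ℂ) - ((q.1 : ℂ) + q.2 * Complex.I)) =
        ((10 ^ 9 * egfR c1 x - q.1 : ℝ) : ℂ) - ((q.2 : ℝ) : ℂ) * Complex.I := by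
        push_cast; ring
      rw [this, Complex.sub_re, Complex.ofReal_re, Complex.re_ofReal_mul, Complex.I_re]
      ring
    rw [h3] at h2
    have h4 := h2.trans A4
    have h5 : |(q.1 : ℝ)| = hd := by exact_mod_cast g3
    have h6 : 10 ^ 9 * |egfR c1 x| = |10 ^ 9 * egfR c1 x| := by
      rw [abs_mul, abs_of_pos (by norm_num : (0 : ℝ) < 10 ^ 9)]
    rw [h6]
    have h7 : |10 ^ 9 * egfR c1 x| ≤ |10 ^ 9 * egfR c1 x - q.1| + |(q.1 : ℝ)| := by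
      have : 10 ^ 9 * egfR c1 x = (10 ^ 9 * egfR c1 x - q.1) + q.1 := by ring
      conv_lhs => rw [this]
      exact abs_add_le _ _
    linarith
  -- the final inequality
  set nf : ℝ := ‖(f.1 : ℂ) + f.2 * Complex.I‖ with hnf
  have hnf2 : nf ^ 2 = (f.1 : ℝ) ^ 2 + (f.2 : ℝ) ^ 2 := by
    have h5 : (f.1 : ℂ) + f.2 * Complex.I = ((f.1 : ℝ) : ℂ) + ((f.2 : ℝ) : ℂ) * Complex.I := by
      push_cast; ring
    rw [hnf, h5, ← Complex.normSq_eq_norm_sq, Complex.normSq_add_mul_I]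
  have hL : ((v : ℝ) * 2000000000 * (gs + 5000) + v * v * 1000000 * G +
        d * (2000000 * (hx + 300) + 2000 * v * (hd + 5000) + v * v * G) + 600000000000000) <
      2000000000000 * nf := by
    have h2 : ((v : ℝ) * 2000000000 * (gs + 5000) + v * v * 1000000 * G +
        d * (2000000 * (hx + 300) + 2000 * v * (hd + 5000) + v * v * G) + 600000000000000) ^ 2 <
        4000000000000000000000000 * ((f.1 : ℝ) ^ 2 + (f.2 : ℝ) ^ 2) := by
      exact_mod_cast g4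
    rw [← hnf2] at h2
    have h3 : (2000000000000 * nf) ^ 2 = 4000000000000000000000000 * nf ^ 2 := by ring
    rw [← h3] at h2
    exact lt_of_pow_lt_pow_left₀ 2 (by positivity) h2
  have hv0 : (0 : ℝ) ≤ v := Nat.cast_nonneg _
  have hd0 : (0 : ℝ) ≤ d := Nat.cast_nonneg _
  have hG0 : (0 : ℝ) ≤ G := Nat.cast_nonneg _
  have hhx : (0 : ℝ) ≤ hx := Nat.cast_nonneg _
  have hhd : (0 : ℝ) ≤ hd := Nat.cast_nonneg _
  have C1 : e * (10 ^ 9 * egfR c0 x + (v / 1000 : ℝ) * (10 ^ 9 * |egfR c1 x|)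
        + (v / 1000 : ℝ) ^ 2 / 2 * (10 ^ 9 * Gd)) ≤
      d / 10 ^ 6 * ((hx + 300) + (v / 1000 : ℝ) * (hd + 5000)
        + (v / 1000 : ℝ) ^ 2 / 2 * G) := by
    have h2 : (10 ^ 9 * egfR c0 x + (v / 1000 : ℝ) * (10 ^ 9 * |egfR c1 x|)
        + (v / 1000 : ℝ) ^ 2 / 2 * (10 ^ 9 * Gd)) ≤ ((hx + 300) + (v / 1000 : ℝ) * (hd + 5000)
        + (v / 1000 : ℝ) ^ 2 / 2 * G) := by gcongr
    calc _ ≤ e * ((hx + 300) + (v / 1000 : ℝ) * (hd + 5000)
        + (v / 1000 : ℝ) ^ 2 / 2 * G) := by gcongr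
      _ ≤ _ := by gcongr
  have C2 : (v / 1000 : ℝ) * (10 ^ 9 * ‖F1‖) + (v / 1000 : ℝ) ^ 2 / 2 * (10 ^ 9 * Gd) ≤
      (v / 1000 : ℝ) * (gs + 5000) + (v / 1000 : ℝ) ^ 2 / 2 * G := by gcongr
  have C3 : (v / 1000 : ℝ) * (gs + 5000) + (v / 1000 : ℝ) ^ 2 / 2 * G +
      d / 10 ^ 6 * ((hx + 300) + (v / 1000 : ℝ) * (hd + 5000)
        + (v / 1000 : ℝ) ^ 2 / 2 * G) < nf - 300 := by
    have h2 : ((v / 1000 : ℝ) * (gs + 5000) + (v / 1000 : ℝ) ^ 2 / 2 * G +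
      d / 10 ^ 6 * ((hx + 300) + (v / 1000 : ℝ) * (hd + 5000)
        + (v / 1000 : ℝ) ^ 2 / 2 * G)) * 2000000000000 + 600000000000000 =
      ((v : ℝ) * 2000000000 * (gs + 5000) + v * v * 1000000 * G +
        d * (2000000 * (hx + 300) + 2000 * v * (hd + 5000) + v * v * G) + 600000000000000) := by
      ring
    linarith
  have key : 10 ^ 9 * ((v / 1000 : ℝ) * ‖F1‖ + (v / 1000 : ℝ) ^ 2 / 2 * Gd
      + e * (egfR c0 x + (v / 1000 : ℝ) * |egfR c1 x| + (v / 1000 : ℝ) ^ 2 / 2 * Gd)) <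
      10 ^ 9 * ‖F‖ := by
    calc 10 ^ 9 * ((v / 1000 : ℝ) * ‖F1‖ + (v / 1000 : ℝ) ^ 2 / 2 * Gd
      + e * (egfR c0 x + (v / 1000 : ℝ) * |egfR c1 x| + (v / 1000 : ℝ) ^ 2 / 2 * Gd)) =
        ((v / 1000 : ℝ) * (10 ^ 9 * ‖F1‖) + (v / 1000 : ℝ) ^ 2 / 2 * (10 ^ 9 * Gd)) +
        e * (10 ^ 9 * egfR c0 x + (v / 1000 : ℝ) * (10 ^ 9 * |egfR c1 x|)
        + (v / 1000 : ℝ) ^ 2 / 2 * (10 ^ 9 * Gd)) := by ring
      _ < 10 ^ 9 * ‖F‖ := by linarith
  exact lt_of_mul_lt_mul_left key (by norm_num)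

/-! ### Symmetries -/

theorem egf_conj (c : ℕ → ℝ) (s : ℂ) :
    egf c (starRingEnd ℂ s) = starRingEnd ℂ (egf c s) := by
  rw [egf, egf, Complex.conj_tsum]
  refine tsum_congr fun n => ?_
  rw [map_mul, map_pow, Complex.conj_ofReal]

/-- alternating signs -/
def alt (c : ℕ → ℝ) (n : ℕ) : ℝ := (-1) ^ n * c n

theorem egf_neg (c : ℕ → ℝ) (s : ℂ) : egf c (-s) = egf (alt c) s := by
  rw [egf, egf]
  refine tsum_congr fun n => ?_
  rw [neg_pow, alt]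
  push_cast
  ring

theorem egfR_neg (c : ℕ → ℝ) (x : ℝ) : egfR c (-x) = egfR (alt c) x := by
  rw [egfR, egfR]
  refine tsum_congr fun n => ?_
  rw [neg_pow, alt]
  ring

/-! ### Coefficients of a cell -/

theorem sgn_sub (n l : ℕ) (h : l ≤ n / 2) : (-1 : ℝ) ^ (n - 2 * l) = (-1) ^ n := by
  obtain ⟨i, hi⟩ : ∃ i, n = i + 2 * l := ⟨n - 2 * l, by omega⟩
  have hi' : n - 2 * l = i := by omega
  rw [hi', hi, pow_add, pow_mul]; simp

theorem coef_A (p : ℕ) (n : ℕ) :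
    |10 ^ 9 * (hF (p / 1000) n / (n ! : ℝ) * (26 / 5) ^ n) - (aM (fA p) n : ℝ)| ≤ 1 := by
  have h := coefN_approx (fA p) (fun i => (-(p / 1000 : ℝ)) ^ i) ((-1) ^ n)
    (by rw [abs_pow]; simp) n (by
      intro l hl
      have h1 : fA p (n - 2 * l) = p ^ (n - 2 * l) := rfl
      rw [h1, neg_pow, div_pow, sgn_sub n l hl]
      push_cast
      ring)
  rw [hF_gsR, aM]
  push_cast
  exact h

theorem coef_B (p : ℕ) (n : ℕ) :
    |10 ^ 9 * (hFd (p / 1000) n / (n ! : ℝ) * (26 / 5) ^ n) - (aM (fB p) n : ℝ)| ≤ 1 := by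
  have h := coefN_approx (fB p) (fun i => -(i : ℝ) * (-(p / 1000 : ℝ)) ^ (i - 1)) ((-1) ^ n)
    (by rw [abs_pow]; simp) n (by
      intro l hl
      have h1 : fB p (n - 2 * l) = (n - 2 * l) * 1000 * p ^ (n - 2 * l - 1) := rfl
      rw [h1, ← sgn_sub n l hl]
      generalize n - 2 * l = i
      rcases i with _ | i
      · simp
      · rw [Nat.add_sub_cancel, neg_pow, div_pow, pow_succ, pow_succ]
        push_cast
        have : (1000 : ℝ) ^ i ≠ 0 := by positivity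
        field_simp
        try ring)
  rw [hFd_gsR, aM]
  push_cast
  exact h

theorem coef_G (p : ℕ) (n : ℕ) :
    |10 ^ 9 * (hFdd (p / 1000) n / (n ! : ℝ) * (26 / 5) ^ n) - 1 * (coefN (fG p) n : ℝ)| ≤ 1 := by
  have h := coefN_approx (fG p) (fun i => (i : ℝ) * ((i - 1 : ℕ) : ℝ) * (p / 1000 : ℝ) ^ (i - 2)) 1
    (by simp) n (by
      intro l hl
      have h1 : fG p (n - 2 * l) = (n - 2 * l) * (n - 2 * l - 1) * 1000000 *
        p ^ (n - 2 * l - 2) := rfl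
      rw [h1]
      generalize n - 2 * l = i
      rcases i with _ | _ | i
      · simp
      · simp
      · have e1 : i + 1 + 1 - 2 = i := by omega
        have e2 : i + 1 + 1 - 1 = i + 1 := by omega
        rw [e1, e2, div_pow, pow_succ, pow_succ]
        push_cast
        have : (1000 : ℝ) ^ i ≠ 0 := by positivity
        field_simp
        try ring)
  rw [hFdd_gsR]
  exact h

theorem alt_le {c : ℕ → ℝ} {n : ℕ} {B : ℝ} (h : |c n| ≤ B) : |alt c n| ≤ B := by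
  rw [alt, abs_mul, abs_pow]; simpa using h

theorem alt_coef {c : ℕ → ℝ} {f : ℕ → ℕ} {n : ℕ}
    (h : |10 ^ 9 * (c n / (n ! : ℝ) * (26 / 5) ^ n) - (aM f n : ℝ)| ≤ 1) :
    |10 ^ 9 * (alt c n / (n ! : ℝ) * (26 / 5) ^ n) - (aP f n : ℝ)| ≤ 1 := by
  have h1 : 10 ^ 9 * (alt c n / (n ! : ℝ) * (26 / 5) ^ n) - (aP f n : ℝ) =
      (-1) ^ n * (10 ^ 9 * (c n / (n ! : ℝ) * (26 / 5) ^ n) - (aM f n : ℝ)) := by
    rw [alt, aP, aM]
    push_cast
    have : ((-1 : ℝ) ^ n) * ((-1) ^ n) = 1 := by rw [← mul_pow]; simp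
    linear_combination (coefN f n : ℝ) * this
  rw [h1, abs_mul, abs_pow]
  simpa using h

theorem G_le (p : ℕ) (hp : p ≤ 1350) :
    10 ^ 9 * egfR (hFdd (p / 1000)) (26 / 5) ≤
      ((∑ i ∈ Finset.range 32, coefN (fG p) i + 150032 : ℕ) : ℝ) := by
  have hp0 : (0 : ℝ) ≤ p / 1000 := by positivity
  have hp1 : (p / 1000 : ℝ) ≤ 27 / 20 := by
    have : (p : ℝ) ≤ 1350 := by exact_mod_cast hp
    linarith
  have h1 := tail_bound (c := hFdd (p / 1000)) (x := ((26 / 5 : ℝ) : ℂ)) 2 le_rfl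
    (fun n _ => hFdd_le hp0 hp1 n) (by rw [Complex.norm_real]; norm_num)
  have h2 := Complex.abs_re_le_norm (egf (hFdd (p / 1000)) ((26 / 5 : ℝ) : ℂ) -
    ∑ n ∈ Finset.range 32, ((hFdd (p / 1000) n / (n ! : ℝ) : ℝ) : ℂ) * ((26 / 5 : ℝ) : ℂ) ^ n)
  have h3 : (egf (hFdd (p / 1000)) ((26 / 5 : ℝ) : ℂ) -
    ∑ n ∈ Finset.range 32, ((hFdd (p / 1000) n / (n ! : ℝ) : ℝ) : ℂ) * ((26 / 5 : ℝ) : ℂ) ^ n) =
    ((egfR (hFdd (p / 1000)) (26 / 5) -
      ∑ n ∈ Finset.range 32, hFdd (p / 1000) n / (n ! : ℝ) * (26 / 5) ^ n : ℝ) : ℂ) := by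
    rw [← egfR_ofReal]
    push_cast
    rfl
  rw [h3, Complex.ofReal_re] at h2
  rw [h3] at h1
  have h4 := (abs_le.1 (h2.trans h1)).2
  have h5 : ∑ n ∈ Finset.range 32, (10 ^ 9 * (hFdd (p / 1000) n / (n ! : ℝ) * (26 / 5) ^ n)) ≤
      ∑ n ∈ Finset.range 32, ((coefN (fG p) n : ℝ) + 1) := by
    refine Finset.sum_le_sum fun n _ => ?_
    have := (abs_le.1 (coef_G p n)).2
    linarith
  rw [← Finset.mul_sum, Finset.sum_add_distrib] at h5
  simp only [Finset.sum_const, Finset.card_range, nsmul_eq_mul, mul_one] at h5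
  have t2 := tail_const2
  have h6 := h4.trans (le_of_eq rfl)
  have h7 : 10 ^ 9 * (egfR (hFdd (p / 1000)) (26 / 5) -
      ∑ n ∈ Finset.range 32, hFdd (p / 1000) n / (n ! : ℝ) * (26 / 5) ^ n) ≤ 150000 :=
    (mul_le_mul_of_nonneg_left h6 (by norm_num)).trans t2
  push_cast at h5 ⊢
  rw [mul_sub] at h7
  linarith

theorem dOf_bound (K : ℕ) (hK : 6 ≤ K) :
    (1 / 100 * (26 / 5) + 26 / 5 / K : ℝ) * (523 / 500) *
      Real.exp (523 / 500 * (1 / 100 * (26 / 5) + 26 / 5 / K)) ≤ (dOf K : ℝ) / 10 ^ 6 := by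
  have hKR : (6 : ℝ) ≤ K := by exact_mod_cast hK
  have hK0 : (0 : ℝ) < K := by linarith
  set x : ℝ := 523 / 500 * (1 / 100 * (26 / 5) + 26 / 5 / K) with hx
  have hx0 : 0 ≤ x := by positivity
  have hx1 : x ≤ 1 := by
    have : (26 / 5 / K : ℝ) ≤ 26 / 5 / 6 := by gcongr
    rw [hx]; linarith
  have hexp : Real.exp x ≤ 1 + x + x ^ 2 / 2 + 2 / 9 * x ^ 3 := by
    have h1 := Real.exp_bound (x := x) (by rw [abs_of_nonneg hx0]; exact hx1) (n := 3)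
      (by norm_num)
    rw [abs_of_nonneg hx0] at h1
    have h2 := (abs_le.1 h1).2
    simp only [Finset.sum_range_succ, Finset.sum_range_zero, Nat.factorial] at h2
    norm_num at h2
    linarith
  have hxa : x = (523 * (52 * K + 5200)) / (500000 * K) := by
    rw [hx]; field_simp; ring
  have hlt : 10 ^ 6 * (x * (1 + x + x ^ 2 / 2 + 2 / 9 * x ^ 3)) ≤ dOf K := by
    have h1 : 10 ^ 6 * (x * (1 + x + x ^ 2 / 2 + 2 / 9 * x ^ 3)) =
        ((10 ^ 6 * (18 * (523 * (52 * K + 5200)) * (500000 * K) ^ 3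
    + 18 * (523 * (52 * K + 5200)) ^ 2 * (500000 * K) ^ 2
    + 9 * (523 * (52 * K + 5200)) ^ 3 * (500000 * K) + 4 * (523 * (52 * K + 5200)) ^ 4) : ℕ) : ℝ) /
    ((18 * (500000 * K) ^ 4 : ℕ) : ℝ) := by
      rw [hxa]
      push_cast
      field_simp
      ring
    rw [h1, dOf]
    have hb : 0 < 18 * (500000 * K) ^ 4 := by positivity
    rw [div_le_iff₀ (by exact_mod_cast hb)]
    exact_mod_cast (Nat.lt_mul_div_succ _ hb).le.trans (le_of_eq (mul_comm _ _))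
  have h3 : (1 / 100 * (26 / 5) + 26 / 5 / K : ℝ) * (523 / 500) = x := by rw [hx]; ring
  rw [h3, le_div_iff₀ (by norm_num)]
  have h4 : x * Real.exp x * (10 : ℝ) ^ 6 ≤
      x * (1 + x + x ^ 2 / 2 + 2 / 9 * x ^ 3) * (10 : ℝ) ^ 6 := by gcongr
  linarith

theorem cell_ne {p v K : ℕ} (h : cellAll p v K = true) {τ : ℝ} (hτ : |τ - p / 1000| ≤ v / 1000)
    {s : ℂ} (hs1 : 5148 / 1000 ≤ ‖s‖) (hs2 : ‖s‖ ≤ 5252 / 1000) : egf (hF τ) s ≠ 0 := by
  simp only [cellAll, Bool.and_eq_true, Nat.ble_eq] at h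
  obtain ⟨hvp, hpv, hK6, hK500, hbA, hbB, hc⟩ := h
  have hpv' : p + v ≤ 1350 := hpv
  -- reduction to the upper half plane
  wlog him : 0 ≤ s.im generalizing s
  · have h1 := this (s := starRingEnd ℂ s) (by rwa [Complex.norm_conj])
      (by rwa [Complex.norm_conj]) (by rw [Complex.conj_im]; linarith)
    rw [egf_conj] at h1
    intro h2
    apply h1
    rw [h2, map_zero]
  have hK1 : 1 ≤ K := by omega
  have hKR : (0 : ℝ) < K := by exact_mod_cast (by omega : 0 < K)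
  have hpR : (p : ℝ) ≤ 1350 := by exact_mod_cast (by omega : p ≤ 1350)
  have hp0 : (0 : ℝ) ≤ (p / 1000 : ℝ) := by positivity
  have hp1 : (p / 1000 : ℝ) ≤ 27 / 20 := by linarith
  set δ : ℝ := 1 / 100 * (26 / 5) + 26 / 5 / K with hδ
  have hδ0 : 0 ≤ δ := by positivity
  have he0 : 0 ≤ δ * (523 / 500) * Real.exp (523 / 500 * δ) := by positivity
  have he := dOf_bound K hK6
  rw [← hδ] at he
  have hG := G_le (p + v) hpv'
  have hw0 : (0 : ℝ) ≤ (v / 1000 : ℝ) := by positivity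
  have hwl : (0 : ℝ) ≤ (p / 1000 : ℝ) - v / 1000 := by
    have : (v : ℝ) ≤ p := by exact_mod_cast hvp
    rw [← sub_div]; apply div_nonneg <;> linarith
  have hwr : (p / 1000 : ℝ) + v / 1000 ≤ 27 / 20 := by
    have : ((p + v : ℕ) : ℝ) ≤ 1350 := by exact_mod_cast hpv'
    push_cast at this
    linarith
  have hG' : 10 ^ 9 * egfR (hFdd ((p / 1000 : ℝ) + v / 1000)) (26 / 5) ≤
      ((∑ i ∈ Finset.range 32, coefN (fG (p + v)) i + 150032 : ℕ) : ℝ) := by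
    have e1 : (p / 1000 : ℝ) + v / 1000 = ((p + v : ℕ) : ℝ) / 1000 := by push_cast; ring
    rw [e1]; exact hG
  -- facts on the points
  have hpt : ∀ j ≤ K, K * K - j * j ≤ K * K + j * j ∧ 2 * j * K ≤ K * K + j * j ∧
      (K * K - j * j) ^ 2 + (2 * j * K) ^ 2 = (K * K + j * j) ^ 2 ∧
      0 < K * K + j * j ∧ (K * K + j * j) * W ≤ Z := by
    intro j hj
    have hjj : j * j ≤ K * K := Nat.mul_le_mul hj hj
    refine ⟨by omega, ?_, ?_, by positivity, ?_⟩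
    · zify
      nlinarith [sq_nonneg ((j : ℤ) - K)]
    · zify [hjj]; ring
    · have h1 : K * K ≤ 500 * 500 := Nat.mul_le_mul hK500 hK500
      have h2 : K * K + j * j ≤ 500000 := by omega
      calc (K * K + j * j) * W ≤ 500000 * W := Nat.mul_le_mul_right _ h2
        _ ≤ Z := by norm_num [W, Z]
  have hcast : ∀ j ≤ K, ((K * K - j * j : ℕ) : ℝ) = (K : ℝ) ^ 2 - (j : ℝ) ^ 2 := by
    intro j hj
    have hjj : j * j ≤ K * K := Nat.mul_le_mul hj hj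
    rw [Nat.cast_sub hjj]; push_cast; ring
  have hz : ∀ j ≤ K, (26 / 5 * ((((K * K - j * j : ℕ) : ℂ) + ((2 * j * K : ℕ) : ℂ) * Complex.I) /
      ((K * K + j * j : ℕ) : ℂ)) : ℂ) =
      ((26 / 5 : ℝ) : ℂ) * (((K : ℂ) ^ 2 - j ^ 2) + 2 * j * K * Complex.I) / (K ^ 2 + j ^ 2) := by
    intro j hj
    have h1 : ((K * K - j * j : ℕ) : ℂ) = (K : ℂ) ^ 2 - (j : ℂ) ^ 2 := by
      have := hcast j hj
      have h2 : (((K * K - j * j : ℕ) : ℝ) : ℂ) = (((K : ℝ) ^ 2 - (j : ℝ) ^ 2 : ℝ) : ℂ) := by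
        rw [this]
      push_cast at h2
      exact h2
    rw [h1]
    push_cast
    ring
  have hznorm : ∀ j ≤ K, ‖(26 / 5 * ((((K * K - j * j : ℕ) : ℂ) + ((2 * j * K : ℕ) : ℂ) *
      Complex.I) / ((K * K + j * j : ℕ) : ℂ)) : ℂ)‖ = 26 / 5 := by
    intro j hj
    obtain ⟨_, _, q3, q4, _⟩ := hpt j hj
    have hDR : (0 : ℝ) < ((K * K + j * j : ℕ) : ℝ) := by exact_mod_cast q4
    have h265 : ‖(26 / 5 : ℂ)‖ = 26 / 5 := by rw [norm_div]; norm_num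
    rw [norm_mul, h265, norm_div, Complex.norm_natCast]
    have h1 : ‖((K * K - j * j : ℕ) : ℂ) + ((2 * j * K : ℕ) : ℂ) * Complex.I‖ =
        ((K * K + j * j : ℕ) : ℝ) := by
      have h2 : ‖((K * K - j * j : ℕ) : ℂ) + ((2 * j * K : ℕ) : ℂ) * Complex.I‖ ^ 2 =
          ((K * K + j * j : ℕ) : ℝ) ^ 2 := by
        have h5 : ((K * K - j * j : ℕ) : ℂ) + ((2 * j * K : ℕ) : ℂ) * Complex.I =
            (((K * K - j * j : ℕ) : ℝ) : ℂ) + (((2 * j * K : ℕ) : ℝ) : ℂ) * Complex.I := by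
          push_cast; ring
        rw [h5, ← Complex.normSq_eq_norm_sq, Complex.normSq_add_mul_I]
        exact_mod_cast q3
      exact (sq_eq_sq₀ (norm_nonneg _) hDR.le).1 h2
    rw [h1, div_self hDR.ne', mul_one]
  have hzre : ∀ j ≤ K, (26 / 5 * ((((K * K - j * j : ℕ) : ℂ) + ((2 * j * K : ℕ) : ℂ) *
      Complex.I) / ((K * K + j * j : ℕ) : ℂ)) : ℂ).re =
      26 / 5 * (((K * K - j * j : ℕ) : ℝ) / ((K * K + j * j : ℕ) : ℝ)) := by
    intro j hj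
    have h5 : (26 / 5 * ((((K * K - j * j : ℕ) : ℂ) + ((2 * j * K : ℕ) : ℂ) *
      Complex.I) / ((K * K + j * j : ℕ) : ℂ)) : ℂ) =
      ((26 / 5 * (((K * K - j * j : ℕ) : ℝ) / ((K * K + j * j : ℕ) : ℝ)) : ℝ) : ℂ) +
      ((26 / 5 * (((2 * j * K : ℕ) : ℝ) / ((K * K + j * j : ℕ) : ℝ)) : ℝ) : ℂ) * Complex.I := by
      push_cast; ring
    rw [h5, Complex.add_re, Complex.ofReal_re, Complex.re_ofReal_mul, Complex.I_re]
    ring
  rcases le_total 0 s.re with hre | hre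
  · -- right half plane
    obtain ⟨j, hj, hcov⟩ := annulus_cover (R := 26 / 5) (η := 1 / 100) (by norm_num)
      (by norm_num) (by norm_num) hK1 (z := s) (by norm_num at hs1 ⊢; linarith)
      (by norm_num at hs2 ⊢; linarith) hre him
    obtain ⟨q1, q2, q3, q4, q5⟩ := hpt j hj
    rw [← hz j hj, ← hδ] at hcov
    have hreal := disc_real (fun n _ => hF_le hp0 hp1 n) (fun n _ => hFd_le hp0 hp1 n)
      (coef_A p) (coef_B p) q4 q1 q2 q3 q5
      (by rw [bF_eq _ _ (aM_natAbs (fA p))]; exact hbA)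
      (by rw [bF_eq _ _ (aM_natAbs (fB p))]; exact hbB)
      (cell_disc hc j hj).1 hG' he0 he
    refine c1_cell hw0 hwl hwr hτ hcov ?_
    rw [hznorm j hj, hzre j hj]
    exact hreal
  · -- left half plane
    have hs' : ‖-starRingEnd ℂ s‖ = ‖s‖ := by rw [norm_neg, Complex.norm_conj]
    obtain ⟨j, hj, hcov⟩ := annulus_cover (R := 26 / 5) (η := 1 / 100) (by norm_num)
      (by norm_num) (by norm_num) hK1 (z := -starRingEnd ℂ s)
      (by rw [hs']; norm_num at hs1 ⊢; linarith)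
      (by rw [hs']; norm_num at hs2 ⊢; linarith) (by simpa using hre) (by simpa using him)
    obtain ⟨q1, q2, q3, q4, q5⟩ := hpt j hj
    rw [← hz j hj, ← hδ] at hcov
    have hreal := disc_real (fun n _ => alt_le (hF_le hp0 hp1 n))
      (fun n _ => alt_le (hFd_le hp0 hp1 n))
      (fun n => alt_coef (coef_A p n)) (fun n => alt_coef (coef_B p n)) q4 q1 q2 q3 q5
      (by rw [bF_eq _ _ (aP_natAbs (fA p))]; exact hbA)
      (by rw [bF_eq _ _ (aP_natAbs (fB p))]; exact hbB)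
      (cell_disc hc j hj).2 hG' he0 he
    set z : ℂ := (26 / 5 * ((((K * K - j * j : ℕ) : ℂ) + ((2 * j * K : ℕ) : ℂ) *
      Complex.I) / ((K * K + j * j : ℕ) : ℂ)) : ℂ) with hzdef
    have hcov' : ‖s - (-starRingEnd ℂ z)‖ ≤ δ := by
      have : s - (-starRingEnd ℂ z) = -starRingEnd ℂ (-starRingEnd ℂ s - z) := by
        rw [map_sub, map_neg, Complex.conj_conj]; ring
      rw [this, norm_neg, Complex.norm_conj]
      exact hcov
    refine c1_cell hw0 hwl hwr hτ hcov' ?_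
    have n1 : ‖-starRingEnd ℂ z‖ = 26 / 5 := by
      rw [norm_neg, Complex.norm_conj, hzdef, hznorm j hj]
    have n2 : (-starRingEnd ℂ z).re = -(26 / 5 * (((K * K - j * j : ℕ) : ℝ) /
        ((K * K + j * j : ℕ) : ℝ))) := by
      rw [Complex.neg_re, Complex.conj_re, hzdef, hzre j hj]
    have n3 : ∀ c : ℕ → ℝ, ‖egf c (-starRingEnd ℂ z)‖ = ‖egf (alt c) z‖ := by
      intro c
      rw [egf_neg, egf_conj, Complex.norm_conj]
    rw [n1, n2, n3, n3, egfR_neg, egfR_neg]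
    exact hreal

end

end C1K

end Pool.Agent.Lib_MP_1dbf07_co
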