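import Pool.Agent.Lib_MP_1dbf07_co.Defs

namespace Pool.Agent.Lib_MP_1dbf07_co

open MeasureTheory Set Filter Topology
open scoped Real Nat PowerSeries

noncomputable section

/-- One Horner step with rounding, at the point `(P + iQ)/D`. -/
def hstep (P Q D : ℤ) (a : ℤ) (v : ℤ × ℤ) : ℤ × ℤ :=
  (a + (P * v.1 - Q * v.2) / D, (P * v.2 + Q * v.1) / D)

/-- Horner evaluation, lowest coefficient first. -/
def horner (P Q D : ℤ) (A : List ℤ) : ℤ × ℤ := A.foldr (hstep P Q D) (0, 0)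

theorem floor_err (n D : ℤ) (hD : 0 < D) : |(n : ℝ) / D - ((n / D : ℤ) : ℝ)| ≤ 1 := by
  have hD' : (0 : ℝ) < D := by exact_mod_cast hD
  have h1 : (n : ℝ) = D * ((n / D : ℤ) : ℝ) + ((n % D : ℤ) : ℝ) := by
    exact_mod_cast (Int.mul_ediv_add_emod n D).symm
  have h2 : (0 : ℝ) ≤ ((n % D : ℤ) : ℝ) := by exact_mod_cast Int.emod_nonneg n hD.ne'
  have h3 : ((n % D : ℤ) : ℝ) < D := by exact_mod_cast Int.emod_lt_of_pos n hD
  have h4 : (n : ℝ) / D - ((n / D : ℤ) : ℝ) = ((n % D : ℤ) : ℝ) / D := by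
    rw [h1]
    field_simp
    ring
  rw [h4, abs_of_nonneg (div_nonneg h2 hD'.le), div_le_one hD']
  exact h3.le

theorem sqrt_two_err {x y : ℝ} (hx : |x| ≤ 1) (hy : |y| ≤ 1) :
    ‖(x : ℂ) + y * Complex.I‖ ≤ 2 := by
  refine (norm_add_le _ _).trans ?_
  rw [norm_mul, Complex.norm_I, mul_one, Complex.norm_real, Complex.norm_real, Real.norm_eq_abs,
    Real.norm_eq_abs]
  linarith

/-- Rounding errors do not grow since the point is in the unit disc. -/
theorem horner_error {P Q D : ℤ} (hD : 0 < D) (hu : P ^ 2 + Q ^ 2 ≤ D ^ 2) (A : List ℤ)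
    (α : ℕ → ℝ) (hα : ∀ k < A.length, |α k - A.getD k 0| ≤ 1) :
    ‖∑ k ∈ Finset.range A.length, (α k : ℂ) * (((P : ℂ) + Q * Complex.I) / D) ^ k
        - (((horner P Q D A).1 : ℂ) + (horner P Q D A).2 * Complex.I)‖ ≤ 3 * A.length := by
  have hD' : (0 : ℝ) < D := by exact_mod_cast hD
  have hDC : (D : ℂ) ≠ 0 := by exact_mod_cast hD.ne'
  have hu1 : ‖((P : ℂ) + Q * Complex.I) / D‖ ≤ 1 := by
    rw [norm_div]
    have h1 : ‖(D : ℂ)‖ = D := by
      rw [show ((D : ℤ) : ℂ) = ((D : ℝ) : ℂ) by push_cast; rfl, Complex.norm_real,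
        Real.norm_eq_abs, abs_of_pos hD']
    rw [h1, div_le_one hD']
    have h2 : ‖(P : ℂ) + Q * Complex.I‖ ^ 2 = (P : ℝ) ^ 2 + (Q : ℝ) ^ 2 := by
      have := Complex.sq_norm ((P : ℂ) + Q * Complex.I)
      rw [this, Complex.normSq_apply]
      simp
      ring
    have h3 : ((P : ℝ) ^ 2 + (Q : ℝ) ^ 2) ≤ (D : ℝ) ^ 2 := by exact_mod_cast hu
    refine le_of_sq_le_sq ?_ hD'.le
    rw [h2]
    exact h3
  induction A generalizing α with
  | nil => simp [horner]
  | cons a A ih =>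
    have ih' := ih (fun k => α (k + 1)) (fun k hk => by
      have := hα (k + 1) (by simp only [List.length_cons]; omega)
      simpa using this)
    have h0 : |α 0 - a| ≤ 1 := by
      have := hα 0 (by simp)
      simpa using this
    rw [List.length_cons, Finset.sum_range_succ']
    set u : ℂ := ((P : ℂ) + Q * Complex.I) / D with hu'
    set v := horner P Q D A with hv
    have hh : horner P Q D (a :: A) = hstep P Q D a v := rfl
    rw [hh]
    have e1 : ∑ k ∈ Finset.range A.length, ((α (k + 1) : ℝ) : ℂ) * u ^ (k + 1) =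
        u * ∑ k ∈ Finset.range A.length, ((α (k + 1) : ℝ) : ℂ) * u ^ k := by
      rw [Finset.mul_sum]
      refine Finset.sum_congr rfl (fun k _ => ?_)
      ring
    rw [e1]
    have e2 : (u * ∑ k ∈ Finset.range A.length, ((α (k + 1) : ℝ) : ℂ) * u ^ k +
        ((α 0 : ℝ) : ℂ) * u ^ 0) - (((hstep P Q D a v).1 : ℂ) + (hstep P Q D a v).2 * Complex.I) =
        u * (∑ k ∈ Finset.range A.length, ((α (k + 1) : ℝ) : ℂ) * u ^ k -
          ((v.1 : ℂ) + v.2 * Complex.I)) + (((α 0 - a : ℝ) : ℂ)) +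
        ((((P * v.1 - Q * v.2 : ℤ) : ℝ) / D - (((P * v.1 - Q * v.2) / D : ℤ) : ℝ) : ℝ) +
          ((((P * v.2 + Q * v.1 : ℤ) : ℝ) / D - (((P * v.2 + Q * v.1) / D : ℤ) : ℝ) : ℝ) : ℂ) *
            Complex.I) := by
      unfold hstep
      rw [hu']
      push_cast
      field_simp
      ring_nf
      rw [Complex.I_sq]
      ring
    rw [e2]
    have k1 : ‖u * (∑ k ∈ Finset.range A.length, ((α (k + 1) : ℝ) : ℂ) * u ^ k -
          ((v.1 : ℂ) + v.2 * Complex.I))‖ ≤ 3 * A.length := by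
      rw [norm_mul]
      calc ‖u‖ * _ ≤ 1 * (3 * A.length) := by
            apply mul_le_mul hu1 ih' (norm_nonneg _) zero_le_one
        _ = 3 * A.length := one_mul _
    have k2 : ‖(((α 0 - a : ℝ) : ℂ))‖ ≤ 1 := by
      rw [Complex.norm_real, Real.norm_eq_abs]
      exact h0
    have k3 := sqrt_two_err (floor_err (P * v.1 - Q * v.2) D hD)
      (floor_err (P * v.2 + Q * v.1) D hD)
    refine (norm_add_le _ _).trans ?_
    refine (add_le_add (norm_add_le _ _) le_rfl).trans ?_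
    push_cast at k1 k2 k3 ⊢
    linarith

/-- Covering of an annulus: every `z` with `(1-η) R ≤ ‖z‖ ≤ (1+η) R`, `0 ≤ im z`, `0 ≤ re z` is
within `η R + R / K` of a point `R (1+it)/(1-it)`, `t = j/K`, `0 ≤ j ≤ K`. -/
theorem annulus_cover {R η : ℝ} (hR : 0 < R) (hη : 0 ≤ η) (hη' : η < 1) {K : ℕ} (hK : 1 ≤ K)
    {z : ℂ} (h1 : (1 - η) * R ≤ ‖z‖) (h2 : ‖z‖ ≤ (1 + η) * R) (h3 : 0 ≤ z.re) (h4 : 0 ≤ z.im) :
    ∃ j : ℕ, j ≤ K ∧ ‖z - R * (((K : ℂ) ^ 2 - j ^ 2) + 2 * j * K * Complex.I) / (K ^ 2 + j ^ 2)‖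
      ≤ η * R + R / K := by
  have hK' : (0 : ℝ) < K := by exact_mod_cast hK
  have hn0 : 0 < ‖z‖ := lt_of_lt_of_le (mul_pos (by linarith) hR) h1
  have hnx : 0 < ‖z‖ + z.re := by linarith
  have hsq : ‖z‖ ^ 2 = z.re ^ 2 + z.im ^ 2 := by
    rw [Complex.sq_norm, Complex.normSq_apply]
    ring
  obtain ⟨t, ht⟩ : ∃ t : ℝ, t = z.im / (‖z‖ + z.re) := ⟨_, rfl⟩
  have ht0 : 0 ≤ t := by
    rw [ht]
    positivity
  have hty : t * (‖z‖ + z.re) = z.im := by
    rw [ht]
    field_simp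
  have him : z.im ≤ ‖z‖ := by
    have := Complex.abs_im_le_norm z
    exact (le_abs_self _).trans this
  have ht1 : t ≤ 1 := by
    rw [ht, div_le_one hnx]
    linarith
  have hx : z.re + t * z.im = ‖z‖ := by
    have : (z.re + t * z.im) * (‖z‖ + z.re) = ‖z‖ * (‖z‖ + z.re) := by
      have e : (z.re + t * z.im) * (‖z‖ + z.re) = z.re * (‖z‖ + z.re) + z.im *
        (t * (‖z‖ + z.re)) := by ring
      rw [e, hty]
      nlinarith
    exact mul_right_cancel₀ hnx.ne' this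
  -- the nearest grid point
  obtain ⟨j, hj⟩ : ∃ j : ℕ, j = ⌊t * K + 1 / 2⌋₊ := ⟨_, rfl⟩
  have hpos : 0 ≤ t * K + 1 / 2 := by positivity
  have hj1 : (j : ℝ) ≤ t * K + 1 / 2 := by
    rw [hj]
    exact Nat.floor_le hpos
  have hj2 : t * K + 1 / 2 < j + 1 := by
    rw [hj]
    exact Nat.lt_floor_add_one _
  have htK : t * K ≤ K := by nlinarith
  have hjK : j ≤ K := by
    have : (j : ℝ) < (K : ℝ) + 1 := by linarith
    have : j < K + 1 := by exact_mod_cast this
    omega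
  refine ⟨j, hjK, ?_⟩
  obtain ⟨s, hs⟩ : ∃ s : ℝ, s = (j : ℝ) / K := ⟨_, rfl⟩
  have hts : |t - s| ≤ 1 / (2 * K) := by
    have e : t - s = (t * K - j) / K := by
      rw [hs]
      field_simp
    rw [e, abs_div, abs_of_pos hK', div_le_div_iff₀ hK' (by positivity)]
    have : |t * K - j| ≤ 1 / 2 := by
      rw [abs_le]
      constructor <;> linarith
    nlinarith
  have hKC : (K : ℂ) ≠ 0 := by exact_mod_cast hK'.ne'
  have n1 : ∀ r : ℝ, 1 ≤ ‖(1 : ℂ) - r * Complex.I‖ := by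
    intro r
    have := Complex.abs_re_le_norm ((1 : ℂ) - r * Complex.I)
    simpa using this
  have n2 : ∀ r : ℝ, (1 : ℂ) - r * Complex.I ≠ 0 := by
    intro r h
    have := n1 r
    rw [h, norm_zero] at this
    linarith
  have e1 : z = ‖z‖ * ((1 + t * Complex.I) / (1 - t * Complex.I)) := by
    have h5 := n2 t
    rw [← mul_div_assoc, eq_div_iff h5]
    apply Complex.ext
    · simp only [Complex.mul_re, Complex.sub_re, Complex.one_re, Complex.ofReal_re,
        Complex.I_re, Complex.sub_im, Complex.one_im, Complex.mul_im, Complex.ofReal_im,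
        Complex.I_im, Complex.add_re, Complex.add_im]
      linarith [hx]
    · simp only [Complex.mul_re, Complex.sub_re, Complex.one_re, Complex.ofReal_re,
        Complex.I_re, Complex.sub_im, Complex.one_im, Complex.mul_im, Complex.ofReal_im,
        Complex.I_im, Complex.add_re, Complex.add_im]
      linarith [hty]
  have e2 : (R : ℂ) * (((K : ℂ) ^ 2 - j ^ 2) + 2 * j * K * Complex.I) / (K ^ 2 + j ^ 2) =
      R * ((1 + s * Complex.I) / (1 - s * Complex.I)) := by
    have h5 := n2 s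
    have h6 : ((K : ℂ) ^ 2 + j ^ 2) ≠ 0 := by
      have : (0 : ℝ) < (K : ℝ) ^ 2 + (j : ℝ) ^ 2 := by positivity
      exact_mod_cast this.ne'
    rw [← mul_div_assoc, div_eq_div_iff h6 h5, hs]
    push_cast
    field_simp
    ring_nf
    have h7 : Complex.I ^ 2 = -1 := Complex.I_sq
    simp only [h7]
    ring
  have e3 : ((1 + t * Complex.I) / (1 - t * Complex.I)) - ((1 + s * Complex.I) / (1 - s * Complex.I))
      = 2 * ((t - s : ℝ) : ℂ) * Complex.I / ((1 - t * Complex.I) * (1 - s * Complex.I)) := by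
    have h5 := n2 t
    have h6 := n2 s
    rw [div_sub_div _ _ h5 h6]
    congr 1
    push_cast
    ring
  have e4 : ‖((1 + t * Complex.I) / (1 - t * Complex.I)) -
      ((1 + s * Complex.I) / (1 - s * Complex.I))‖ ≤ 1 / K := by
    rw [e3, norm_div, norm_mul, norm_mul, norm_mul, Complex.norm_I, mul_one, Complex.norm_real,
      Real.norm_eq_abs]
    have h5 := n1 t
    have h6 := n1 s
    have h7 : 1 ≤ ‖(1 : ℂ) - t * Complex.I‖ * ‖(1 : ℂ) - s * Complex.I‖ := by nlinarith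
    have h8 : ‖(2 : ℂ)‖ = 2 := by simp
    rw [h8, div_le_iff₀ (by linarith)]
    have h9 : 2 * |t - s| ≤ 1 / K := by
      calc 2 * |t - s| ≤ 2 * (1 / (2 * K)) := by linarith
        _ = 1 / K := by field_simp
    have h10 : (0 : ℝ) ≤ 1 / K := by positivity
    nlinarith
  rw [e2]
  have e5 : z - R * ((1 + s * Complex.I) / (1 - s * Complex.I)) =
      ((‖z‖ - R : ℝ) : ℂ) * ((1 + t * Complex.I) / (1 - t * Complex.I)) +
      R * (((1 + t * Complex.I) / (1 - t * Complex.I)) -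
        ((1 + s * Complex.I) / (1 - s * Complex.I))) := by
    nth_rewrite 1 [e1]
    push_cast
    ring
  have e6 : ‖((1 + t * Complex.I) / (1 - t * Complex.I))‖ = 1 := by
    have h5 : ‖z‖ = ‖z‖ * ‖((1 + t * Complex.I) / (1 - t * Complex.I))‖ := by
      conv_lhs => rw [e1]
      rw [norm_mul, Complex.norm_real, norm_norm]
    have h6 : ‖z‖ * 1 = ‖z‖ * ‖((1 + t * Complex.I) / (1 - t * Complex.I))‖ := by
      rw [mul_one]
      exact h5
    exact (mul_left_cancel₀ hn0.ne' h6).symm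
  rw [e5]
  refine (norm_add_le _ _).trans ?_
  rw [norm_mul, norm_mul, e6, mul_one, Complex.norm_real, Complex.norm_real, Real.norm_eq_abs,
    Real.norm_eq_abs, abs_of_pos hR]
  have h5 : |‖z‖ - R| ≤ η * R := by
    rw [abs_le]
    constructor <;> linarith
  have h6 : R * ‖((1 + t * Complex.I) / (1 - t * Complex.I)) -
      ((1 + s * Complex.I) / (1 - s * Complex.I))‖ ≤ R * (1 / K) :=
    mul_le_mul_of_nonneg_left e4 hR.le
  have h7 : R * (1 / (K : ℝ)) = R / K := by ring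
  linarith

end

end Pool.Agent.Lib_MP_1dbf07_co
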