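import Pool.Agent.Lib_MP_1dbf07_co.M6
import Pool.Agent.Lib_MP_1dbf07_co.EV

namespace Pool.Agent.Lib_MP_1dbf07_co

open MeasureTheory Set Filter Topology
open scoped Real Nat PowerSeries

noncomputable section

/-- `∂_τ hF`. -/
def hFd (τ : ℝ) (n : ℕ) : ℝ :=
  ∑ l ∈ Finset.range (n / 2 + 1),
    -((n - 2 * l : ℕ) : ℝ) * (-τ) ^ (n - 2 * l - 1) * ((n - 2 * l : ℕ) + 1 : ℝ)
      * (2 - (1 / 2) ^ (n - 2 * l)) * (n ! : ℝ)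
      / (2 ^ n * (l ! : ℝ) * ((n - 2 * l + 1 + l)! : ℝ))

/-- Majorant of `∂_τ² hF`. -/
def hFdd (τ : ℝ) (n : ℕ) : ℝ :=
  ∑ l ∈ Finset.range (n / 2 + 1),
    ((n - 2 * l : ℕ) : ℝ) * ((n - 2 * l - 1 : ℕ) : ℝ) * τ ^ (n - 2 * l - 2)
      * ((n - 2 * l : ℕ) + 1 : ℝ)
      * (2 - (1 / 2) ^ (n - 2 * l)) * (n ! : ℝ)
      / (2 ^ n * (l ! : ℝ) * ((n - 2 * l + 1 + l)! : ℝ))

namespace C1aux

/-- The coefficient. -/
def cf (n l : ℕ) : ℝ :=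
  ((n - 2 * l : ℕ) + 1 : ℝ) * (2 - (1 / 2) ^ (n - 2 * l)) * (n ! : ℝ)
      / (2 ^ n * (l ! : ℝ) * ((n - 2 * l + 1 + l)! : ℝ))

theorem half_pow_le (i : ℕ) : ((1 : ℝ) / 2) ^ i ≤ 1 :=
  pow_le_one₀ (by norm_num) (by norm_num)

theorem cf_nonneg (n l : ℕ) : 0 ≤ cf n l := by
  unfold cf
  have h := half_pow_le (n - 2 * l)
  have h2 : (0 : ℝ) ≤ 2 - (1 / 2) ^ (n - 2 * l) := by linarith
  positivity

theorem cf_le {n l : ℕ} (hl : l ∈ Finset.range (n / 2 + 1)) : cf n l ≤ 2 * (n + 1) := by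
  have hl' : 2 * l ≤ n := by
    have := Finset.mem_range.1 hl
    omega
  unfold cf
  have h := half_pow_le (n - 2 * l)
  have hp : (0 : ℝ) ≤ (1 / 2 : ℝ) ^ (n - 2 * l) := by positivity
  have h3 : (n ! : ℝ) ≤ 2 ^ n * (l ! : ℝ) * ((n - 2 * l + 1 + l)! : ℝ) := by
    have e := Nat.choose_mul_factorial_mul_factorial (n := n) (k := l) (by omega)
    have h4 : n.choose l ≤ 2 ^ n := Nat.choose_le_two_pow n l
    have h5 : (n - l)! ≤ (n - 2 * l + 1 + l)! := Nat.factorial_le (by omega)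
    have h6 : n ! ≤ 2 ^ n * l ! * (n - 2 * l + 1 + l)! := by
      rw [← e]
      exact Nat.mul_le_mul (Nat.mul_le_mul h4 le_rfl) h5
    exact_mod_cast h6
  rw [div_le_iff₀ (by positivity)]
  have h7 : (((n - 2 * l : ℕ) : ℝ) + 1) ≤ n + 1 := by
    have : n - 2 * l ≤ n := Nat.sub_le _ _
    have : ((n - 2 * l : ℕ) : ℝ) ≤ n := by exact_mod_cast this
    linarith
  have h8 : (2 - (1 / 2 : ℝ) ^ (n - 2 * l)) ≤ 2 := by linarith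
  have h9 : (0 : ℝ) ≤ 2 - (1 / 2 : ℝ) ^ (n - 2 * l) := by linarith
  calc (((n - 2 * l : ℕ) : ℝ) + 1) * (2 - (1 / 2 : ℝ) ^ (n - 2 * l)) * (n ! : ℝ)
      ≤ ((n : ℝ) + 1) * 2 * (2 ^ n * (l ! : ℝ) * ((n - 2 * l + 1 + l)! : ℝ)) := by
        gcongr
    _ = 2 * ((n : ℝ) + 1) * (2 ^ n * (l ! : ℝ) * ((n - 2 * l + 1 + l)! : ℝ)) := by ring

theorem hF_eq (τ : ℝ) (n : ℕ) :
    hF τ n = ∑ l ∈ Finset.range (n / 2 + 1), (-τ) ^ (n - 2 * l) * cf n l := by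
  unfold hF cf
  refine Finset.sum_congr rfl (fun l _ => ?_)
  ring

theorem hFd_eq (τ : ℝ) (n : ℕ) :
    hFd τ n = ∑ l ∈ Finset.range (n / 2 + 1),
      (-((n - 2 * l : ℕ) : ℝ) * (-τ) ^ (n - 2 * l - 1)) * cf n l := by
  unfold hFd cf
  refine Finset.sum_congr rfl (fun l _ => ?_)
  ring

theorem hFdd_eq (τ : ℝ) (n : ℕ) :
    hFdd τ n = ∑ l ∈ Finset.range (n / 2 + 1),
      (((n - 2 * l : ℕ) : ℝ) * ((n - 2 * l - 1 : ℕ) : ℝ) * τ ^ (n - 2 * l - 2)) * cf n l := by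
  unfold hFdd cf
  refine Finset.sum_congr rfl (fun l _ => ?_)
  ring

theorem hFdd_nonneg {τ : ℝ} (h : 0 ≤ τ) (n : ℕ) : 0 ≤ hFdd τ n := by
  rw [hFdd_eq]
  refine Finset.sum_nonneg (fun l _ => mul_nonneg ?_ (cf_nonneg n l))
  positivity

theorem gen_bound {a : ℕ → ℝ} (ha : ∀ i, |a i| ≤ ((i : ℝ) + 1) ^ 2 * 2 ^ i) (n : ℕ) :
    |∑ l ∈ Finset.range (n / 2 + 1), a (n - 2 * l) * cf n l| ≤ 2 * 32 ^ n := by
  have hn1 : ((n : ℝ) + 1) ≤ 2 ^ n := by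
    have : n + 1 ≤ 2 ^ n := Nat.succ_le_of_lt Nat.lt_two_pow_self
    exact_mod_cast this
  calc |∑ l ∈ Finset.range (n / 2 + 1), a (n - 2 * l) * cf n l|
      ≤ ∑ l ∈ Finset.range (n / 2 + 1), |a (n - 2 * l) * cf n l| := Finset.abs_sum_le_sum_abs _ _
    _ ≤ ∑ l ∈ Finset.range (n / 2 + 1), (((n : ℝ) + 1) ^ 2 * 2 ^ n) * (2 * (n + 1)) := by
        refine Finset.sum_le_sum (fun l hl => ?_)
        rw [abs_mul, abs_of_nonneg (cf_nonneg n l)]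
        have h1 : ((n - 2 * l : ℕ) : ℝ) ≤ n := by
          have : n - 2 * l ≤ n := Nat.sub_le _ _
          exact_mod_cast this
        have h2 : (2 : ℝ) ^ (n - 2 * l) ≤ 2 ^ n :=
          pow_le_pow_right₀ (by norm_num) (Nat.sub_le _ _)
        have h3 : |a (n - 2 * l)| ≤ ((n : ℝ) + 1) ^ 2 * 2 ^ n := by
          refine (ha _).trans ?_
          gcongr
        exact mul_le_mul h3 (cf_le hl) (cf_nonneg n l) (by positivity)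
    _ = ((n / 2 + 1 : ℕ) : ℝ) * ((((n : ℝ) + 1) ^ 2 * 2 ^ n) * (2 * (n + 1))) := by
        rw [Finset.sum_const, Finset.card_range, nsmul_eq_mul]
    _ ≤ ((n : ℝ) + 1) * ((((n : ℝ) + 1) ^ 2 * 2 ^ n) * (2 * (n + 1))) := by
        have h4 : ((n / 2 + 1 : ℕ) : ℝ) ≤ (n : ℝ) + 1 := by
          have : n / 2 + 1 ≤ n + 1 := by omega
          exact_mod_cast this
        gcongr
    _ = 2 * (((n : ℝ) + 1) ^ 4 * 2 ^ n) := by ring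
    _ ≤ 2 * ((2 ^ n) ^ 4 * 2 ^ n) := by gcongr
    _ = 2 * 32 ^ n := by
        rw [← pow_mul, mul_comm n 4, pow_mul, ← mul_pow]
        norm_num

theorem two_bd {τ : ℝ} (h0 : 0 ≤ τ) (h2 : τ ≤ 2) (i : ℕ) : τ ^ i ≤ 2 ^ i :=
  pow_le_pow_left₀ h0 h2 i

theorem hF_bound {τ : ℝ} (h0 : 0 ≤ τ) (h2 : τ ≤ 2) (n : ℕ) : |hF τ n| ≤ 2 * 32 ^ n := by
  rw [hF_eq]
  refine gen_bound (a := fun i => (-τ) ^ i) (fun i => ?_) n
  rw [abs_pow, abs_neg, abs_of_nonneg h0]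
  have h3 := two_bd h0 h2 i
  have h4 : (1 : ℝ) ≤ ((i : ℝ) + 1) ^ 2 := one_le_pow₀ (by linarith [Nat.cast_nonneg (α := ℝ) i])
  have h5 : (0 : ℝ) ≤ 2 ^ i := by positivity
  nlinarith

theorem hFd_bound {τ : ℝ} (h0 : 0 ≤ τ) (h2 : τ ≤ 2) (n : ℕ) : |hFd τ n| ≤ 2 * 32 ^ n := by
  rw [hFd_eq]
  refine gen_bound (a := fun i => -(i : ℝ) * (-τ) ^ (i - 1)) (fun i => ?_) n
  rw [abs_mul, abs_neg, abs_pow, abs_neg, abs_of_nonneg h0, Nat.abs_cast]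
  have h3 := two_bd h0 h2 (i - 1)
  have h5 : (2 : ℝ) ^ (i - 1) ≤ 2 ^ i := pow_le_pow_right₀ (by norm_num) (Nat.sub_le _ _)
  have h6 : (i : ℝ) ≤ ((i : ℝ) + 1) ^ 2 := by
    have := Nat.cast_nonneg (α := ℝ) i
    nlinarith
  exact mul_le_mul h6 (h3.trans h5) (pow_nonneg h0 _) (by positivity)

theorem hFdd_bound {τ : ℝ} (h0 : 0 ≤ τ) (h2 : τ ≤ 2) (n : ℕ) : |hFdd τ n| ≤ 2 * 32 ^ n := by
  rw [hFdd_eq]
  refine gen_bound (a := fun i => (i : ℝ) * ((i - 1 : ℕ) : ℝ) * τ ^ (i - 2)) (fun i => ?_) n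
  rw [abs_mul, abs_mul, abs_pow, abs_of_nonneg h0, Nat.abs_cast, Nat.abs_cast]
  have h3 := two_bd h0 h2 (i - 2)
  have h5 : (2 : ℝ) ^ (i - 2) ≤ 2 ^ i := pow_le_pow_right₀ (by norm_num) (Nat.sub_le _ _)
  have h7 : ((i - 1 : ℕ) : ℝ) ≤ i := by exact_mod_cast (Nat.sub_le i 1)
  have h8 := Nat.cast_nonneg (α := ℝ) (i - 1)
  have h9 := Nat.cast_nonneg (α := ℝ) i
  have h6 : (i : ℝ) * ((i - 1 : ℕ) : ℝ) ≤ ((i : ℝ) + 1) ^ 2 := by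
    nlinarith
  exact mul_le_mul h6 (h3.trans h5) (pow_nonneg h0 _) (by positivity)

/-- Second order Taylor bound of a power. -/
theorem taylor_pow {τ τ₀ T w : ℝ} (h0 : 0 ≤ τ) (h1 : τ ≤ T) (h2 : 0 ≤ τ₀) (h3 : τ₀ ≤ T)
    (hw : |τ - τ₀| ≤ w) (i : ℕ) :
    |τ ^ (i + 2) - τ₀ ^ (i + 2) - (τ - τ₀) * (((i : ℝ) + 2) * τ₀ ^ (i + 1))|
      ≤ w ^ 2 / 2 * (((i : ℝ) + 2) * ((i : ℝ) + 1) * T ^ i) := by
  have hT : 0 ≤ T := h0.trans h1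
  have hsq : (τ - τ₀) ^ 2 ≤ w ^ 2 := by
    rw [← sq_abs]
    exact pow_le_pow_left₀ (abs_nonneg _) hw 2
  induction i with
  | zero =>
    have e : τ ^ (0 + 2) - τ₀ ^ (0 + 2) - (τ - τ₀) * (((0 : ℕ) + 2 : ℝ) * τ₀ ^ (0 + 1)) =
        (τ - τ₀) ^ 2 := by
      push_cast
      ring
    rw [e, abs_of_nonneg (sq_nonneg _)]
    push_cast
    linarith
  | succ i ih =>
    have e : τ ^ (i + 1 + 2) - τ₀ ^ (i + 1 + 2) -
        (τ - τ₀) * (((i + 1 : ℕ) + 2 : ℝ) * τ₀ ^ (i + 1 + 1)) =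
        τ * (τ ^ (i + 2) - τ₀ ^ (i + 2) - (τ - τ₀) * (((i : ℝ) + 2) * τ₀ ^ (i + 1))) +
        ((i : ℝ) + 2) * τ₀ ^ (i + 1) * (τ - τ₀) ^ 2 := by
      push_cast
      ring
    rw [e]
    have h4 : τ₀ ^ (i + 1) ≤ T ^ (i + 1) := pow_le_pow_left₀ h2 h3 _
    have h5 : 0 ≤ τ₀ ^ (i + 1) := pow_nonneg h2 _
    have hi := Nat.cast_nonneg (α := ℝ) i
    calc |τ * (τ ^ (i + 2) - τ₀ ^ (i + 2) - (τ - τ₀) * (((i : ℝ) + 2) * τ₀ ^ (i + 1))) +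
        ((i : ℝ) + 2) * τ₀ ^ (i + 1) * (τ - τ₀) ^ 2|
        ≤ |τ * (τ ^ (i + 2) - τ₀ ^ (i + 2) - (τ - τ₀) * (((i : ℝ) + 2) * τ₀ ^ (i + 1)))| +
          |((i : ℝ) + 2) * τ₀ ^ (i + 1) * (τ - τ₀) ^ 2| := abs_add_le _ _
      _ ≤ T * (w ^ 2 / 2 * (((i : ℝ) + 2) * ((i : ℝ) + 1) * T ^ i)) +
          ((i : ℝ) + 2) * T ^ (i + 1) * w ^ 2 := by
          rw [abs_mul, abs_of_nonneg h0]
          have h6 : |((i : ℝ) + 2) * τ₀ ^ (i + 1) * (τ - τ₀) ^ 2| =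
            ((i : ℝ) + 2) * τ₀ ^ (i + 1) * (τ - τ₀) ^ 2 := abs_of_nonneg (by positivity)
          rw [h6]
          refine add_le_add (mul_le_mul h1 ih (abs_nonneg _) hT) ?_
          gcongr
      _ = w ^ 2 / 2 * ((((i + 1 : ℕ) : ℝ) + 2) * (((i + 1 : ℕ) : ℝ) + 1) * T ^ (i + 1)) := by
          push_cast
          ring

theorem taylor_neg_pow {τ τ₀ T w : ℝ} (h0 : 0 ≤ τ) (h1 : τ ≤ T) (h2 : 0 ≤ τ₀) (h3 : τ₀ ≤ T)
    (hw : |τ - τ₀| ≤ w) (i : ℕ) :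
    |(-τ) ^ i - (-τ₀) ^ i - (τ - τ₀) * (-(i : ℝ) * (-τ₀) ^ (i - 1))|
      ≤ w ^ 2 / 2 * ((i : ℝ) * ((i - 1 : ℕ) : ℝ) * T ^ (i - 2)) := by
  match i with
  | 0 => simp
  | 1 =>
    have e : (-τ) ^ 1 - (-τ₀) ^ 1 - (τ - τ₀) * (-((1 : ℕ) : ℝ) * (-τ₀) ^ (1 - 1)) = 0 := by
      simp
      ring
    rw [e]
    simp
  | (i + 2) =>
    have h := taylor_pow h0 h1 h2 h3 hw i
    have e : (-τ) ^ (i + 2) - (-τ₀) ^ (i + 2) -
        (τ - τ₀) * (-((i + 2 : ℕ) : ℝ) * (-τ₀) ^ (i + 2 - 1)) =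
        (-1) ^ i * (τ ^ (i + 2) - τ₀ ^ (i + 2) - (τ - τ₀) * (((i : ℝ) + 2) * τ₀ ^ (i + 1))) := by
      rw [show i + 2 - 1 = i + 1 by omega, neg_pow τ, neg_pow τ₀, neg_pow τ₀ (i + 1)]
      push_cast
      ring
    rw [e, abs_mul, abs_pow, abs_neg, abs_one, one_pow, one_mul]
    refine h.trans (le_of_eq ?_)
    rw [show i + 2 - 1 = i + 1 by omega, show i + 2 - 2 = i by omega]
    push_cast
    ring

/-- Termwise second order Taylor bound. -/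
theorem taylor_hF {τ τ₀ T w : ℝ} (h0 : 0 ≤ τ) (h1 : τ ≤ T) (h2 : 0 ≤ τ₀) (h3 : τ₀ ≤ T)
    (hw : |τ - τ₀| ≤ w) (n : ℕ) :
    |hF τ n - hF τ₀ n - (τ - τ₀) * hFd τ₀ n| ≤ w ^ 2 / 2 * hFdd T n := by
  rw [hF_eq, hF_eq, hFd_eq, hFdd_eq, Finset.mul_sum, Finset.mul_sum, ← Finset.sum_sub_distrib,
    ← Finset.sum_sub_distrib]
  refine (Finset.abs_sum_le_sum_abs _ _).trans (Finset.sum_le_sum (fun l _ => ?_))
  have h := taylor_neg_pow h0 h1 h2 h3 hw (n - 2 * l)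
  have e : (-τ) ^ (n - 2 * l) * cf n l - (-τ₀) ^ (n - 2 * l) * cf n l -
      (τ - τ₀) * (-((n - 2 * l : ℕ) : ℝ) * (-τ₀) ^ (n - 2 * l - 1) * cf n l) =
      ((-τ) ^ (n - 2 * l) - (-τ₀) ^ (n - 2 * l) -
        (τ - τ₀) * (-((n - 2 * l : ℕ) : ℝ) * (-τ₀) ^ (n - 2 * l - 1))) * cf n l := by ring
  rw [e, abs_mul, abs_of_nonneg (cf_nonneg n l)]
  refine (mul_le_mul_of_nonneg_right h (cf_nonneg n l)).trans (le_of_eq ?_)
  ring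

theorem summable_majorant (r : ℝ) : Summable fun n : ℕ => 2 * ((32 * r) ^ n / (n ! : ℝ)) :=
  (Real.summable_pow_div_factorial _).mul_left 2

theorem summable_C {m : ℕ → ℝ} (hm : ∀ n, |m n| ≤ 2 * 32 ^ n) (z : ℂ) :
    Summable fun n : ℕ => ((m n / (n ! : ℝ) : ℝ) : ℂ) * z ^ n := by
  refine Summable.of_norm_bounded (summable_majorant ‖z‖) (fun n => ?_)
  rw [norm_mul, norm_pow, Complex.norm_real, Real.norm_eq_abs, abs_div, Nat.abs_cast]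
  calc |m n| / (n ! : ℝ) * ‖z‖ ^ n ≤ (2 * 32 ^ n) / (n ! : ℝ) * ‖z‖ ^ n := by
        have := hm n
        gcongr
    _ = 2 * ((32 * ‖z‖) ^ n / (n ! : ℝ)) := by
        rw [mul_pow]
        ring

theorem summable_R {m : ℕ → ℝ} (hm : ∀ n, |m n| ≤ 2 * 32 ^ n) (x : ℝ) :
    Summable fun n : ℕ => m n / (n ! : ℝ) * x ^ n := by
  refine Summable.of_norm_bounded (summable_majorant |x|) (fun n => ?_)
  rw [norm_mul, norm_pow, Real.norm_eq_abs, Real.norm_eq_abs, abs_div, Nat.abs_cast]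
  calc |m n| / (n ! : ℝ) * |x| ^ n ≤ (2 * 32 ^ n) / (n ! : ℝ) * |x| ^ n := by
        have := hm n
        gcongr
    _ = 2 * ((32 * |x|) ^ n / (n ! : ℝ)) := by
        rw [mul_pow]
        ring

end C1aux

open C1aux in
/-- The certificate of one disc and one `τ`-cell. -/
theorem c1_cell {τ₀ w δ : ℝ} (hw : 0 ≤ w) (h0 : 0 ≤ τ₀ - w) (h1 : τ₀ + w ≤ 27 / 20)
    {s₀ s : ℂ} {τ : ℝ} (hτ : |τ - τ₀| ≤ w) (hδ : ‖s - s₀‖ ≤ δ)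
    (h : w * ‖egf (hFd τ₀) s₀‖ + w ^ 2 / 2 * egfR (hFdd (τ₀ + w)) ‖s₀‖
      + δ * (523 / 500) * Real.exp (523 / 500 * δ) * (egfR (hF τ₀) s₀.re
        + w * |egfR (hFd τ₀) s₀.re| + w ^ 2 / 2 * egfR (hFdd (τ₀ + w)) ‖s₀‖)
      < ‖egf (hF τ₀) s₀‖) : egf (hF τ) s ≠ 0 := by
  have hab := abs_le.1 hτ
  have hτ0 : 0 ≤ τ := by linarith [hab.1]
  have hτT : τ ≤ τ₀ + w := by linarith [hab.2]
  have hτ₀0 : 0 ≤ τ₀ := by linarith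
  have hτ₀T : τ₀ ≤ τ₀ + w := by linarith
  have hT0 : 0 ≤ τ₀ + w := by linarith
  have hT2 : τ₀ + w ≤ 2 := by linarith
  have b1 : ∀ n, |hF τ n| ≤ 2 * 32 ^ n := hF_bound hτ0 (by linarith)
  have b2 : ∀ n, |hF τ₀ n| ≤ 2 * 32 ^ n := hF_bound hτ₀0 (by linarith)
  have b3 : ∀ n, |hFd τ₀ n| ≤ 2 * 32 ^ n := hFd_bound hτ₀0 (by linarith)
  have b4 : ∀ n, |hFdd (τ₀ + w) n| ≤ 2 * 32 ^ n := hFdd_bound hT0 hT2
  have htay := taylor_hF hτ0 hτT hτ₀0 hτ₀T hτ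
  have hdd := hFdd_nonneg hT0
  -- complex Taylor bound
  have hC : ‖egf (hF τ) s₀ - egf (hF τ₀) s₀ - ((τ - τ₀ : ℝ) : ℂ) * egf (hFd τ₀) s₀‖ ≤
      w ^ 2 / 2 * egfR (hFdd (τ₀ + w)) ‖s₀‖ := by
    have s1 := summable_C b1 s₀
    have s2 := summable_C b2 s₀
    have s3 := summable_C b3 s₀
    have s4 := summable_R b4 ‖s₀‖
    have e : egf (hF τ) s₀ - egf (hF τ₀) s₀ - ((τ - τ₀ : ℝ) : ℂ) * egf (hFd τ₀) s₀ =
        ∑' n : ℕ, (((hF τ n - hF τ₀ n - (τ - τ₀) * hFd τ₀ n) / (n ! : ℝ) : ℝ) : ℂ) * s₀ ^ n := by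
      unfold egf
      rw [← tsum_mul_left, ← s1.tsum_sub s2, ← (s1.sub s2).tsum_sub (s3.mul_left _)]
      refine tsum_congr (fun n => ?_)
      push_cast
      ring
    rw [e]
    unfold egfR
    rw [← tsum_mul_left]
    refine tsum_of_norm_bounded (s4.mul_left _).hasSum (fun n => ?_)
    rw [norm_mul, norm_pow, Complex.norm_real, Real.norm_eq_abs, abs_div, Nat.abs_cast]
    calc |hF τ n - hF τ₀ n - (τ - τ₀) * hFd τ₀ n| / (n ! : ℝ) * ‖s₀‖ ^ n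
        ≤ (w ^ 2 / 2 * hFdd (τ₀ + w) n) / (n ! : ℝ) * ‖s₀‖ ^ n := by
          have := htay n
          gcongr
      _ = w ^ 2 / 2 * (hFdd (τ₀ + w) n / (n ! : ℝ) * ‖s₀‖ ^ n) := by ring
  -- real Taylor bound
  have hR : egfR (hF τ) s₀.re ≤ egfR (hF τ₀) s₀.re + w * |egfR (hFd τ₀) s₀.re|
      + w ^ 2 / 2 * egfR (hFdd (τ₀ + w)) ‖s₀‖ := by
    have s1 := summable_R b1 s₀.re
    have s2 := summable_R b2 s₀.re
    have s3 := summable_R b3 s₀.re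
    have s4 := summable_R b4 ‖s₀‖
    have e : egfR (hF τ) s₀.re - egfR (hF τ₀) s₀.re - (τ - τ₀) * egfR (hFd τ₀) s₀.re =
        ∑' n : ℕ, (hF τ n - hF τ₀ n - (τ - τ₀) * hFd τ₀ n) / (n ! : ℝ) * s₀.re ^ n := by
      unfold egfR
      rw [← tsum_mul_left, ← s1.tsum_sub s2, ← (s1.sub s2).tsum_sub (s3.mul_left _)]
      refine tsum_congr (fun n => ?_)
      ring
    have h2 : ‖egfR (hF τ) s₀.re - egfR (hF τ₀) s₀.re - (τ - τ₀) * egfR (hFd τ₀) s₀.re‖ ≤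
        w ^ 2 / 2 * egfR (hFdd (τ₀ + w)) ‖s₀‖ := by
      rw [e]
      unfold egfR
      rw [← tsum_mul_left]
      refine tsum_of_norm_bounded (s4.mul_left _).hasSum (fun n => ?_)
      rw [norm_mul, norm_pow, Real.norm_eq_abs, Real.norm_eq_abs, abs_div, Nat.abs_cast]
      have h3 : |s₀.re| ≤ ‖s₀‖ := Complex.abs_re_le_norm s₀
      calc |hF τ n - hF τ₀ n - (τ - τ₀) * hFd τ₀ n| / (n ! : ℝ) * |s₀.re| ^ n
          ≤ (w ^ 2 / 2 * hFdd (τ₀ + w) n) / (n ! : ℝ) * ‖s₀‖ ^ n := by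
            have := htay n
            have := hdd n
            gcongr
        _ = w ^ 2 / 2 * (hFdd (τ₀ + w) n / (n ! : ℝ) * ‖s₀‖ ^ n) := by ring
    rw [Real.norm_eq_abs] at h2
    have h3 := (abs_le.1 h2).2
    have h4 : (τ - τ₀) * egfR (hFd τ₀) s₀.re ≤ w * |egfR (hFd τ₀) s₀.re| := by
      calc (τ - τ₀) * egfR (hFd τ₀) s₀.re ≤ |(τ - τ₀) * egfR (hFd τ₀) s₀.re| := le_abs_self _
        _ = |τ - τ₀| * |egfR (hFd τ₀) s₀.re| := abs_mul _ _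
        _ ≤ w * |egfR (hFd τ₀) s₀.re| := mul_le_mul_of_nonneg_right hτ (abs_nonneg _)
    linarith
  -- the measure
  have hS : Supp (Pm τ) (523 / 500) 1 := Pm_Supp hτ0 (by linarith)
  have hτs : τ < √2 := by
    refine lt_of_le_of_lt (b := (27 / 20 : ℝ)) (by linarith) ?_
    exact Real.lt_sqrt_of_sq_lt (by norm_num)
  have hmo : mo (Pm τ) = hF τ := funext (fun n => Pm_moment hτ0 hτs n)
  have hJ : JJ (Pm τ) = egf (hF τ) := by rw [JJ_eq_egf hS, hmo]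
  have hJr : Jr (Pm τ) s₀.re = egfR (hF τ) s₀.re := by rw [Jr_eq_egfR hS, hmo]
  have hlip := JJ_lipschitz hS (U := 523 / 500) le_rfl (by norm_num) (by norm_num) s s₀
  rw [hJ, hJr] at hlip
  intro hzero
  rw [hzero, zero_sub, norm_neg] at hlip
  have hδ0 : 0 ≤ δ := (norm_nonneg _).trans hδ
  have hpos : 0 ≤ egfR (hF τ) s₀.re := by
    rw [← hJr]
    exact (Jr_pos hS _).le
  have h5 : ‖egf (hF τ) s₀‖ ≤ δ * (523 / 500) * Real.exp (523 / 500 * δ) *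
      (egfR (hF τ₀) s₀.re + w * |egfR (hFd τ₀) s₀.re| + w ^ 2 / 2 * egfR (hFdd (τ₀ + w)) ‖s₀‖) := by
    refine hlip.trans ?_
    calc 523 / 500 * ‖s - s₀‖ * Real.exp (523 / 500 * ‖s - s₀‖) * egfR (hF τ) s₀.re
        ≤ 523 / 500 * δ * Real.exp (523 / 500 * δ) * (egfR (hF τ₀) s₀.re
          + w * |egfR (hFd τ₀) s₀.re| + w ^ 2 / 2 * egfR (hFdd (τ₀ + w)) ‖s₀‖) := by
          gcongr
      _ = δ * (523 / 500) * Real.exp (523 / 500 * δ) * (egfR (hF τ₀) s₀.re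
          + w * |egfR (hFd τ₀) s₀.re| + w ^ 2 / 2 * egfR (hFdd (τ₀ + w)) ‖s₀‖) := by ring
  have h6 : ‖egf (hF τ₀) s₀‖ ≤ ‖egf (hF τ) s₀‖ + w * ‖egf (hFd τ₀) s₀‖ +
      w ^ 2 / 2 * egfR (hFdd (τ₀ + w)) ‖s₀‖ := by
    have e : egf (hF τ₀) s₀ = egf (hF τ) s₀ - ((τ - τ₀ : ℝ) : ℂ) * egf (hFd τ₀) s₀ -
        (egf (hF τ) s₀ - egf (hF τ₀) s₀ - ((τ - τ₀ : ℝ) : ℂ) * egf (hFd τ₀) s₀) := by ring
    rw [e]
    refine (norm_sub_le _ _).trans (add_le_add ((norm_sub_le _ _).trans (add_le_add le_rfl ?_)) hC)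
    rw [norm_mul, Complex.norm_real, Real.norm_eq_abs]
    exact mul_le_mul_of_nonneg_right hτ (norm_nonneg _)
  linarith

end

end Pool.Agent.Lib_MP_1dbf07_co
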