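import Pool.Agent.Lib_MP_1dbf07_co.C2Q

/-!
Piece C2, the table of cells and the kernel computations.
-/

namespace Pool.Agent.Lib_MP_1dbf07_co

namespace C2K

open C1K

/-- The cells: `10^8 X`, `1000 R`, `1000 x_ρ`, `K`. -/
def tab : List (ℕ × ℕ × ℕ × ℕ) :=
  [(1000, 3200, 3014, 241), (1070, 3189, 3002, 228), (1144, 3178, 2987, 250),
    (1235, 3165, 2973, 239), (1333, 3153, 2958, 227), (1439, 3141, 2944, 216),
    (1554, 3129, 2929, 205), (1678, 3117, 2914, 194), (1812, 3105, 2900, 183),
    (1956, 3093, 2885, 179), (2112, 3080, 2871, 171), (2280, 3067, 2852, 214),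
    (2508, 3052, 2834, 198), (2758, 3037, 2816, 187), (3033, 3022, 2798, 180),
    (3336, 3006, 2780, 173), (3669, 2991, 2761, 164), (4035, 2976, 2743, 158),
    (4438, 2961, 2725, 151), (4881, 2945, 2703, 179), (5466, 2927, 2681, 168),
    (6121, 2909, 2659, 163), (6855, 2891, 2638, 154), (7677, 2873, 2616, 146),
    (8598, 2855, 2594, 141), (9629, 2837, 2572, 134), (10784, 2819, 2550, 130),
    (12078, 2801, 2528, 124), (13527, 2783, 2506, 120), (15150, 2765, 2484, 116),
    (16968, 2747, 2462, 111), (19004, 2729, 2439, 109), (21284, 2711, 2417, 105),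
    (23838, 2693, 2395, 101), (26698, 2675, 2373, 99), (29901, 2657, 2350, 96),
    (33489, 2639, 2328, 94), (37507, 2621, 2306, 91), (42007, 2604, 2283, 88),
    (47047, 2586, 2261, 86), (52692, 2568, 2238, 84), (59015, 2550, 2216, 82),
    (66096, 2532, 2193, 81), (74027, 2514, 2170, 79), (82910, 2496, 2147, 77),
    (92859, 2478, 2125, 75), (104002, 2460, 2102, 73), (116482, 2442, 2079, 72),
    (130459, 2424, 2056, 71), (146114, 2406, 2032, 70), (163647, 2388, 2009, 69),
    (183284, 2370, 1986, 68), (205278, 2352, 1962, 66), (229911, 2334, 1939, 66),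
    (257500, 2316, 1915, 65), (288400, 2298, 1892, 64), (323008, 2280, 1868, 63),
    (361768, 2262, 1844, 62), (405180, 2244, 1820, 61), (453801, 2226, 1795, 61),
    (508257, 2208, 1771, 60), (569247, 2190, 1747, 60), (637556, 2172, 1722, 60),
    (714062, 2154, 1697, 59), (799749, 2136, 1672, 60), (895718, 2120, 1650, 51),
    (985289, 2105, 1629, 51), (1083817, 2090, 1607, 51), (1192198, 2075, 1585, 51),
    (1311417, 2059, 1563, 52), (1442558, 2044, 1541, 55), (1586813, 2031, 1523, 44),
    (1713758, 2019, 1505, 44), (1850858, 2006, 1486, 44), (1998926, 1994, 1468, 44),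
    (2158840, 1982, 1449, 44), (2331547, 1970, 1430, 49), (2518070, 1958, 1413, 41),
    (2694334, 1948, 1396, 41), (2882937, 1937, 1378, 43), (3084742, 1927, 1363, 38),
    (3269826, 1918, 1348, 39), (3466015, 1908, 1333, 39), (3673975, 1899, 1318, 39),
    (3894413, 1890, 1302, 43), (4128077, 1881, 1286, 45), (4375761, 1872, 1273, 36),
    (4594549, 1864, 1259, 36), (4824276, 1857, 1246, 36), (5065489, 1849, 1232, 37),
    (5318763, 1841, 1218, 43), (5584701, 1833, 1204, 45), (5863936, 1827, 1192, 34),
    (6098493, 1820, 1181, 34), (6342432, 1814, 1169, 34), (6596129, 1808, 1157, 34),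
    (6859974, 1802, 1145, 35), (7134372, 1795, 1133, 37), (7419746, 1790, 1123, 33),
    (7679437, 1784, 1112, 33), (7948217, 1779, 1101, 33), (8226404, 1773, 1090, 34),
    (8514328, 1768, 1079, 38), (8812329, 1762, 1068, 40), (9120760, 1757, 1058, 32),
    (9394382, 1753, 1048, 32), (9676213, 1748, 1038, 33), (9966499, 1745, 1037, 26),
    (10000000, 1745, 0, 0)]

def ta (i : ℕ) : ℕ := (tab.getD i (0, 0, 0, 0)).1
def tr (i : ℕ) : ℕ := (tab.getD i (0, 0, 0, 0)).2.1
def tq (i : ℕ) : ℕ := (tab.getD i (0, 0, 0, 0)).2.2.1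
def tk (i : ℕ) : ℕ := (tab.getD i (0, 0, 0, 0)).2.2.2

def cellI (i : ℕ) : Bool :=
  frc (ta i) fun a0 => frc (ta (Nat.succ i)) fun a1 => frc (tr i) fun r =>
  frc (tr (Nat.succ i)) fun r' => frc (tq i) fun q => frc (tk i) fun K =>
  (Nat.ble 1000 r).and ((Nat.ble (Nat.mul 99 r) (Nat.mul 101 r')).and
    ((Nat.ble (Nat.mul 99 r') (Nat.mul 101 r)).and (cellAll a0 a1 100000000 r q K)))

theorem cellI_sound {i : ℕ} (h : cellI i = true) :
    1000 ≤ tr i ∧ 99 * tr i ≤ 101 * tr (i + 1) ∧ 99 * tr (i + 1) ≤ 101 * tr i ∧
    cellAll (ta i) (ta (i + 1)) 100000000 (tr i) (tq i) (tk i) = true := by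
  simp only [cellI, frc_eq] at h
  rw [Bool.and_eq_true, Bool.and_eq_true, Bool.and_eq_true, Nat.ble_eq, Nat.ble_eq,
    Nat.ble_eq] at h
  exact h

def chunk (s m : ℕ) : Bool :=
  Nat.rec (motive := fun _ => Bool) true (fun j ih => (cellI (Nat.add s j)).and ih) m

theorem chunk_sound {s m : ℕ} (h : chunk s m = true) (i : ℕ) (h1 : s ≤ i) (h2 : i < s + m) :
    cellI i = true := by
  induction m with
  | zero => omega
  | succ m ih =>
    have e : chunk s (m + 1) = (cellI (Nat.add s m)).and (chunk s m) := rfl
    rw [e, Bool.and_eq_true] at h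
    rcases Nat.lt_succ_iff_lt_or_eq.1 (show i < (s + m) + 1 from h2) with h3 | h3
    · exact ih h.2 h3
    · rw [h3]; exact h.1

set_option maxRecDepth 100000

theorem k0 : chunk 0 6 = true := by decide +kernel
theorem k6 : chunk 6 6 = true := by decide +kernel
theorem k12 : chunk 12 6 = true := by decide +kernel
theorem k18 : chunk 18 6 = true := by decide +kernel
theorem k24 : chunk 24 6 = true := by decide +kernel
theorem k30 : chunk 30 6 = true := by decide +kernel
theorem k36 : chunk 36 6 = true := by decide +kernel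
theorem k42 : chunk 42 6 = true := by decide +kernel
theorem k48 : chunk 48 6 = true := by decide +kernel
theorem k54 : chunk 54 6 = true := by decide +kernel
theorem k60 : chunk 60 6 = true := by decide +kernel
theorem k66 : chunk 66 6 = true := by decide +kernel
theorem k72 : chunk 72 6 = true := by decide +kernel
theorem k78 : chunk 78 6 = true := by decide +kernel
theorem k84 : chunk 84 6 = true := by decide +kernel
theorem k90 : chunk 90 6 = true := by decide +kernel
theorem k96 : chunk 96 6 = true := by decide +kernel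
theorem k102 : chunk 102 6 = true := by decide +kernel

theorem all_cells (i : ℕ) (hi : i < 108) : cellI i = true := by
  by_cases h0 : i < 6
  · exact chunk_sound k0 i (by omega) (by omega)
  by_cases h6 : i < 12
  · exact chunk_sound k6 i (by omega) (by omega)
  by_cases h12 : i < 18
  · exact chunk_sound k12 i (by omega) (by omega)
  by_cases h18 : i < 24
  · exact chunk_sound k18 i (by omega) (by omega)
  by_cases h24 : i < 30
  · exact chunk_sound k24 i (by omega) (by omega)
  by_cases h30 : i < 36
  · exact chunk_sound k30 i (by omega) (by omega)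
  by_cases h36 : i < 42
  · exact chunk_sound k36 i (by omega) (by omega)
  by_cases h42 : i < 48
  · exact chunk_sound k42 i (by omega) (by omega)
  by_cases h48 : i < 54
  · exact chunk_sound k48 i (by omega) (by omega)
  by_cases h54 : i < 60
  · exact chunk_sound k54 i (by omega) (by omega)
  by_cases h60 : i < 66
  · exact chunk_sound k60 i (by omega) (by omega)
  by_cases h66 : i < 72
  · exact chunk_sound k66 i (by omega) (by omega)
  by_cases h72 : i < 78
  · exact chunk_sound k72 i (by omega) (by omega)
  by_cases h78 : i < 84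
  · exact chunk_sound k78 i (by omega) (by omega)
  by_cases h84 : i < 90
  · exact chunk_sound k84 i (by omega) (by omega)
  by_cases h90 : i < 96
  · exact chunk_sound k90 i (by omega) (by omega)
  by_cases h96 : i < 102
  · exact chunk_sound k96 i (by omega) (by omega)
  exact chunk_sound k102 i (by omega) (by omega)

end C2K

end Pool.Agent.Lib_MP_1dbf07_co
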