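import Pool.Agent.Lib_MP_1dbf07_co.C2a
import Pool.Agent.Lib_MP_1dbf07_co.EV
import Pool.Agent.Lib_MP_1dbf07_co.A1
import Pool.Agent.Lib_MP_1dbf07_co.C2D

namespace Pool.Agent.Lib_MP_1dbf07_co

open MeasureTheory Set Filter Topology
open scoped Real Nat PowerSeries

noncomputable section

/-- Numerical: a chain of annuli without zeros from `X = 10⁻⁵` to `X = 1/10`. -/
theorem c2_chain : ∃ (N : ℕ) (x R : ℕ → ℝ), 1 ≤ N ∧ x 0 = 1 / 10 ^ 5 ∧ x N = 1 / 10 ∧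
    (∀ i < N, x i ≤ x (i + 1)) ∧ (∀ i < N, 1 ≤ R i ∧ R i ≤ 33 / 10) ∧
    (∀ i < N, ∀ Y ∈ Icc (x i) (x (i + 1)), ∀ z : ℂ, 99 / 100 * R i ≤ ‖z‖ →
      ‖z‖ ≤ 101 / 100 * R i → egf (mom Y) z ≠ 0) ∧
    (∀ i, i + 1 < N → 99 / 100 * R i ≤ 101 / 100 * R (i + 1) ∧
      99 / 100 * R (i + 1) ≤ 101 / 100 * R i) ∧
    99 / 100 * R 0 ≤ 318 / 100 ∧ 313 / 100 ≤ 101 / 100 * R 0 ∧
    99 / 100 * R (N - 1) * cX (1 / 10) ≤ 5252 / 1000 ∧
    5148 / 1000 ≤ 101 / 100 * R (N - 1) * cX (1 / 10) := by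
  have hall := fun i (hi : i < 108) => C2K.cellI_sound (C2K.all_cells i hi)
  have hr0 : C2K.tr 0 = 3200 := by decide +kernel
  have hrN : C2K.tr 107 = 1745 := by decide +kernel
  have ha0 : C2K.ta 0 = 1000 := by decide +kernel
  have haN : C2K.ta 108 = 10000000 := by decide +kernel
  have hc : cX (1 / 10) = √(88 / 10) := by rw [cX]; norm_num
  have hc1 : 2966 / 1000 ≤ √(88 / 10 : ℝ) := Real.le_sqrt_of_sq_le (by norm_num)
  have hc2 : √(88 / 10 : ℝ) ≤ 2967 / 1000 := by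
    rw [Real.sqrt_le_left (by norm_num)]
    norm_num
  refine ⟨108, fun i => (C2K.ta i : ℝ) / 10 ^ 8, fun i => (C2K.tr i : ℝ) / 1000, by norm_num,
    ?_, ?_, ?_, ?_, ?_, ?_, ?_, ?_, ?_, ?_⟩
  · simp only [ha0]
    norm_num
  · simp only [haN]
    norm_num
  · intro i hi
    obtain ⟨-, -, -, h⟩ := hall i hi
    simp only [C2K.cellAll, Bool.and_eq_true, Nat.ble_eq] at h
    have h2 : (C2K.ta i : ℝ) ≤ C2K.ta (i + 1) := by exact_mod_cast h.2.1
    simp only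
    gcongr
  · intro i hi
    obtain ⟨h1, -, -, h⟩ := hall i hi
    simp only [C2K.cellAll, Bool.and_eq_true, Nat.ble_eq] at h
    have h2 : (1000 : ℝ) ≤ C2K.tr i := by exact_mod_cast h1
    have h3 : (C2K.tr i : ℝ) ≤ 3230 := by exact_mod_cast h.2.2.2.2.2.1
    simp only
    constructor <;> linarith
  · intro i hi Y hY z hz1 hz2
    obtain ⟨-, -, -, h⟩ := hall i hi
    have e : (10 : ℝ) ^ 8 = ((100000000 : ℕ) : ℝ) := by norm_num
    simp only [e] at hY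
    exact C2K.cell_ne h hY.1 hY.2 hz1 hz2
  · intro i hi
    obtain ⟨-, h1, h2, -⟩ := hall i (by omega)
    have h3 : (99 : ℝ) * C2K.tr i ≤ 101 * C2K.tr (i + 1) := by exact_mod_cast h1
    have h4 : (99 : ℝ) * C2K.tr (i + 1) ≤ 101 * C2K.tr i := by exact_mod_cast h2
    simp only
    constructor <;> linarith
  · simp only [hr0]
    norm_num
  · simp only [hr0]
    norm_num
  · rw [hc]
    simp only [show 108 - 1 = 107 from rfl, hrN]
    push_cast
    linarith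
  · rw [hc]
    simp only [show 108 - 1 = 107 from rfl, hrN]
    push_cast
    linarith

end

end Pool.Agent.Lib_MP_1dbf07_co
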