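import Pool.Agent.Lib_MP_1dbf07_co.C2a
import Pool.Agent.Lib_MP_1dbf07_co.EV
import Pool.Agent.Lib_MP_1dbf07_co.A1
import Pool.Agent.Lib_MP_1dbf07_co.C1Q

/-!
Piece C2, kernel arithmetic: moments at rational points, Horner evaluation.
-/

namespace Pool.Agent.Lib_MP_1dbf07_co

namespace C2K

open C1K
open scoped Nat

noncomputable section

/-! ### The integers `fs (a/b) (n+1) b^n` -/

theorem fs_nat (a b : ℕ) (hb : 0 < b) (n : ℕ) :
    ∃ h : ℕ, (h : ℝ) = fs ((a : ℝ) / b) (n + 1) * (b : ℝ) ^ n := by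
  have hbR : (b : ℝ) ≠ 0 := by exact_mod_cast hb.ne'
  induction n using Nat.strong_induction_on with
  | _ n ih =>
    rcases n with _ | n
    · exact ⟨1, by simp [fs]⟩
    · choose! H hH using ih
      refine ⟨(b + a) * H n + b * ∑ i : Fin (n + 1), H i * H (n - i)
        + a * b * ∑ i : Fin n, H i * H (n - 1 - i), ?_⟩
      rw [R0Aux.fs_succ]
      push_cast
      have e1 : ∑ i : Fin (n + 1), fs ((a : ℝ) / b) (i.1 + 1) * fs ((a : ℝ) / b) (n + 1 - i.1) =
          (∑ i : Fin (n + 1), (H i : ℝ) * (H (n - i) : ℝ)) / (b : ℝ) ^ n := by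
        rw [Finset.sum_div]
        refine Finset.sum_congr rfl fun i _ => ?_
        have hi : i.1 ≤ n := Nat.lt_succ_iff.1 i.2
        rw [hH i (by omega), hH (n - i) (by omega)]
        have h2 : n + 1 - i.1 = n - i.1 + 1 := by omega
        rw [h2]
        have h3 : (b : ℝ) ^ n = (b : ℝ) ^ i.1 * (b : ℝ) ^ (n - i.1) := by
          rw [← pow_add]; congr 1; omega
        rw [h3]
        field_simp
      have e2 : ∑ i : Fin n, fs ((a : ℝ) / b) (i.1 + 1) * fs ((a : ℝ) / b) (n - i.1) =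
          (∑ i : Fin n, (H i : ℝ) * (H (n - 1 - i) : ℝ)) * b / (b : ℝ) ^ n := by
        rw [Finset.sum_mul, Finset.sum_div]
        refine Finset.sum_congr rfl fun i _ => ?_
        have hi : i.1 < n := i.2
        rw [hH i (by omega), hH (n - 1 - i) (by omega)]
        have h2 : n - i.1 = n - 1 - i.1 + 1 := by omega
        have h3 : (b : ℝ) ^ n = (b : ℝ) ^ i.1 * ((b : ℝ) ^ (n - 1 - i.1) * b) := by
          rw [← pow_succ, ← pow_add]; congr 1; omega
        rw [h3, h2]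
        field_simp
      rw [e1, e2, hH n (by omega), pow_succ]
      field_simp

/-- `fs (a/b) (n+1) b^n` as a natural number. -/
def Hn (a b n : ℕ) : ℕ := ⌊fs ((a : ℝ) / b) (n + 1) * (b : ℝ) ^ n⌋₊

theorem Hn_cast (a : ℕ) {b : ℕ} (hb : 0 < b) (n : ℕ) :
    (Hn a b n : ℝ) = fs ((a : ℝ) / b) (n + 1) * (b : ℝ) ^ n := by
  obtain ⟨h, hh⟩ := fs_nat a b hb n
  rw [Hn, ← hh, Nat.floor_natCast]

theorem Hn_zero (a : ℕ) {b : ℕ} (hb : 0 < b) : Hn a b 0 = 1 := by
  have := Hn_cast a hb 0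
  have h1 : fs ((a : ℝ) / b) (0 + 1) = 1 := by simp [fs]
  rw [h1, pow_zero, mul_one] at this
  exact_mod_cast this

def Gn (a b n : ℕ) : ℕ := Hn a b (n + 1) + a * Hn a b n

theorem Gn_cast (a : ℕ) {b : ℕ} (hb : 0 < b) (n : ℕ) :
    (Gn a b n : ℝ) = (b : ℝ) ^ (n + 1) *
      (fs ((a : ℝ) / b) (n + 2) + (a : ℝ) / b * fs ((a : ℝ) / b) (n + 1)) := by
  have hbR : (b : ℝ) ≠ 0 := by exact_mod_cast hb.ne'
  rw [Gn]
  push_cast
  rw [Hn_cast a hb, Hn_cast a hb]
  field_simp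
  try ring

theorem Gn_facts (a : ℕ) {b : ℕ} (hb : 0 < b) (hab : a ≤ b) :
    Gn a b 0 = 2 * (a + b) ∧ Gn a b 1 = (3 * b + a) * Gn a b 0 ∧
    ∀ n, (3 * b + a) * (2 * n + 5) * Gn a b (n + 1) =
      (n + 4) * Gn a b (n + 2) + (b - a) * (b - a) * (n + 1) * Gn a b n := by
  have hbR : (b : ℝ) ≠ 0 := by exact_mod_cast hb.ne'
  obtain ⟨r, r0, r1, r2, r3⟩ := fs_lin ((a : ℝ) / b)
  have hG : ∀ n, (Gn a b n : ℝ) = -((b : ℝ) ^ (n + 1) * r (n + 2)) / 2 := by
    intro n
    have h := r3 (n + 1) (by omega)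
    rw [Gn_cast a hb]
    have : r (n + 2) = -(2 * (fs ((a : ℝ) / b) (n + 2) + (a : ℝ) / b * fs ((a : ℝ) / b) (n + 1))) := by
      linarith
    rw [this]
    ring
  have hr2 : r 2 = -(4 * (1 + (a : ℝ) / b)) := by
    have h := r2 0
    rw [r1, r0] at h
    push_cast at h
    have : 2 * r 2 = 2 * (-(4 * (1 + (a : ℝ) / b))) := by
      rw [zero_add] at h
      rw [h]; ring
    linarith
  have hr3 : r 3 = (3 + (a : ℝ) / b) * r 2 := by
    have h := r2 1
    push_cast at h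
    have : (3 : ℝ) * r 3 = 3 * ((3 + (a : ℝ) / b) * r 2) := by
      have h' : ((1 : ℝ) + 2) * r (1 + 2) = (3 + (a : ℝ) / b) * (2 * 1 + 1) * r (1 + 1)
        - (1 - (a : ℝ) / b) ^ 2 * (1 - 1) * r 1 := h
      norm_num at h'
      linarith
    linarith
  refine ⟨?_, ?_, fun n => ?_⟩
  · have h := hG 0
    have h2 : (Gn a b 0 : ℝ) = ((2 * (a + b) : ℕ) : ℝ) := by
      rw [h]
      simp only [zero_add, pow_one]
      rw [hr2]
      push_cast
      field_simp
      ring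
    exact_mod_cast h2
  · have h0 := hG 0
    have h1 := hG 1
    have h2 : (Gn a b 1 : ℝ) = (((3 * b + a) * Gn a b 0 : ℕ) : ℝ) := by
      push_cast
      rw [h0, h1]
      simp only [zero_add, pow_one]
      have e1 : (1 : ℕ) + 1 = 2 := rfl
      have e2 : (1 : ℕ) + 2 = 3 := rfl
      rw [e1, e2, hr3]
      field_simp
    exact_mod_cast h2
  · have h := r2 (n + 2)
    have hba : ((b - a : ℕ) : ℝ) = (b : ℝ) - a := by rw [Nat.cast_sub hab]
    have h2 : (((3 * b + a) * (2 * n + 5) * Gn a b (n + 1) : ℕ) : ℝ) =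
      (((n + 4) * Gn a b (n + 2) + (b - a) * (b - a) * (n + 1) * Gn a b n : ℕ) : ℝ) := by
      push_cast
      rw [hba, hG, hG, hG]
      have e1 : n + 1 + 2 = n + 3 := rfl
      have e2 : n + 2 + 2 = n + 4 := rfl
      rw [e1, e2]
      have h' : ((n : ℝ) + 4) * r (n + 4) = (3 + (a : ℝ) / b) * (2 * n + 5) * r (n + 3)
        - (1 - (a : ℝ) / b) ^ 2 * (n + 1) * r (n + 2) := by
        have e3 : n + 2 + 1 = n + 3 := rfl
        rw [e2, e3] at h
        push_cast at h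
        linarith
      have hb1 : (3 * (b : ℝ) + a) = b * (3 + (a : ℝ) / b) := by field_simp
      have hb2 : ((b : ℝ) - a) = b * (1 - (a : ℝ) / b) := by field_simp
      rw [hb1, hb2, pow_succ _ (n + 2), pow_succ _ (n + 1), pow_succ _ n]
      generalize (a : ℝ) / b = X at h' ⊢
      linear_combination ((b : ℝ) ^ n * b * b * b / 2) * h'
    exact_mod_cast h2

/-! ### The loop -/

/-- Generates a list of coefficients, highest index first. -/
def lp (a c e : ℕ) (g : ℕ → ℕ → ℕ → ℕ) (k : List ℕ → Bool) (m : ℕ) :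
    ℕ → ℕ → ℕ → ℕ → ℕ → List ℕ → Bool :=
  Nat.rec (motive := fun _ => ℕ → ℕ → ℕ → ℕ → ℕ → List ℕ → Bool) (fun _ _ _ _ _ acc => k acc)
    (fun _ ih n fct G G' F acc =>
      frc (g n fct F) fun x =>
      frc (Nat.succ n) fun n1 =>
      frc (Nat.mul fct (Nat.succ n1)) fun fct' =>
      frc (Nat.sub G (Nat.mul a F)) fun F' =>
      frc (Nat.div (Nat.sub (Nat.mul (Nat.mul c (Nat.add (Nat.mul 2 n) 5)) G')
        (Nat.mul (Nat.mul e n1) G)) (Nat.add n 4)) fun G'' =>
      ih n1 fct' G' G'' F' (x :: acc)) m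

theorem lp_eq {a b : ℕ} (hb : 0 < b) (hab : a ≤ b) (g : ℕ → ℕ → ℕ → ℕ) (k : List ℕ → Bool)
    (m n : ℕ) (acc : List ℕ) :
    lp a (3 * b + a) ((b - a) * (b - a)) g k m n (n + 1)! (Gn a b n) (Gn a b (n + 1)) (Hn a b n) acc
      = k (((List.range m).map fun j => g (n + j) (n + j + 1)! (Hn a b (n + j))).reverse ++ acc) := by
  induction m generalizing n acc with
  | zero => rfl
  | succ m ih =>
    have h1 : lp a (3 * b + a) ((b - a) * (b - a)) g k (m + 1) n (n + 1)! (Gn a b n)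
        (Gn a b (n + 1)) (Hn a b n) acc =
      frc (g n (n + 1)! (Hn a b n)) fun x =>
      frc (Nat.succ n) fun n1 =>
      frc (Nat.mul (n + 1)! (Nat.succ n1)) fun fct' =>
      frc (Nat.sub (Gn a b n) (Nat.mul a (Hn a b n))) fun F' =>
      frc (Nat.div (Nat.sub (Nat.mul (Nat.mul (3 * b + a) (Nat.add (Nat.mul 2 n) 5))
        (Gn a b (n + 1))) (Nat.mul (Nat.mul ((b - a) * (b - a)) n1) (Gn a b n)))
        (Nat.add n 4)) fun G'' =>
      lp a (3 * b + a) ((b - a) * (b - a)) g k m n1 fct' (Gn a b (n + 1)) G'' F' (x :: acc) := rfl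
    rw [h1, frc_eq, frc_eq, frc_eq, frc_eq, frc_eq]
    have e1 : Nat.mul (n + 1)! (Nat.succ (Nat.succ n)) = (Nat.succ n + 1)! := by
      rw [Nat.factorial_succ (n + 1)]
      exact Nat.mul_comm _ _
    have e2 : Nat.sub (Gn a b n) (Nat.mul a (Hn a b n)) = Hn a b (Nat.succ n) := by
      have : Hn a b (n + 1) + a * Hn a b n - a * Hn a b n = Hn a b (n + 1) := Nat.add_sub_cancel _ _
      exact this
    have e3 : Nat.div (Nat.sub (Nat.mul (Nat.mul (3 * b + a) (Nat.add (Nat.mul 2 n) 5))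
        (Gn a b (n + 1))) (Nat.mul (Nat.mul ((b - a) * (b - a)) (Nat.succ n)) (Gn a b n)))
        (Nat.add n 4) = Gn a b (Nat.succ n + 1) := by
      have h := (Gn_facts a hb hab).2.2 n
      have h2 : (((3 * b + a) * (2 * n + 5)) * Gn a b (n + 1) -
        ((b - a) * (b - a) * (n + 1)) * Gn a b n) / (n + 4) = Gn a b (n + 2) := by
        rw [h, Nat.add_sub_cancel, Nat.mul_div_cancel_left _ (by omega)]
      exact h2
    rw [e1, e2, e3]
    rw [ih (Nat.succ n) (g n (n + 1)! (Hn a b n) :: acc), List.range_succ_eq_map, List.map_cons,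
      List.reverse_cons, List.map_map, List.append_assoc]
    congr 2
    · congr 1
      apply List.map_congr_left
      intro j _
      simp only [Function.comp_apply]
      have : Nat.succ n + j = n + Nat.succ j := by omega
      rw [this]

def stl (a b : ℕ) (g : ℕ → ℕ → ℕ → ℕ) (k : List ℕ → Bool) (m : ℕ) (acc : List ℕ) : Bool :=
  frc (Nat.add (Nat.mul 3 b) a) fun c =>
  frc (Nat.mul (Nat.sub b a) (Nat.sub b a)) fun e =>
  frc (Nat.mul 2 (Nat.add a b)) fun G0 =>
  frc (Nat.mul c G0) fun G1 => lp a c e g k m 0 1 G0 G1 1 acc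

theorem stl_eq {a b : ℕ} (hb : 0 < b) (hab : a ≤ b) (g : ℕ → ℕ → ℕ → ℕ) (k : List ℕ → Bool)
    (m : ℕ) (acc : List ℕ) :
    stl a b g k m acc =
      k (((List.range m).map fun j => g j (j + 1)! (Hn a b j)).reverse ++ acc) := by
  have h := lp_eq hb hab g k m 0 acc
  obtain ⟨h0, h1, -⟩ := Gn_facts a hb hab
  have h1' : Gn a b (0 + 1) = (3 * b + a) * Gn a b 0 := h1
  rw [h1', h0, Hn_zero a hb] at h
  simp only [zero_add] at h
  rw [stl, frc_eq, frc_eq, frc_eq, frc_eq]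
  exact h

/-! ### Real Horner evaluation with nonnegative coefficients -/

def hU (P D : ℕ) (k : ℕ → Bool) (l : List ℕ) : ℕ → Bool :=
  List.rec (motive := fun _ => ℕ → Bool) (fun x => k x)
    (fun a _ ih x => frc (Nat.add a (Nat.div (Nat.mul P x) D)) fun x' => ih x') l

/-- Value, lowest coefficient first. -/
def vU (P D : ℕ) (l : List ℕ) : ℕ := l.foldr (fun a x => a + P * x / D) 0

theorem hU_eq' (P D : ℕ) (k : ℕ → Bool) (l : List ℕ) (x : ℕ) :
    hU P D k l x = k (l.foldl (fun x a => a + P * x / D) x) := by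
  induction l generalizing x with
  | nil => rfl
  | cons a l ih =>
    have h1 : hU P D k (a :: l) x =
      frc (Nat.add a (Nat.div (Nat.mul P x) D)) fun x' => hU P D k l x' := rfl
    rw [h1, frc_eq, ih]
    rfl

theorem hU_eq (P D : ℕ) (k : ℕ → Bool) (l : List ℕ) :
    hU P D k l.reverse 0 = k (vU P D l) := by
  rw [hU_eq', List.foldl_reverse]
  rfl

theorem vU_bounds {P D : ℕ} (hD : 0 < D) (hP : P ≤ D) (l : List ℕ) (α : ℕ → ℝ)
    (h1 : ∀ k < l.length, (l.getD k 0 : ℝ) ≤ α k) (h2 : ∀ k < l.length, α k ≤ l.getD k 0 + 1) :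
    (vU P D l : ℝ) ≤ ∑ k ∈ Finset.range l.length, α k * ((P : ℝ) / D) ^ k ∧
    ∑ k ∈ Finset.range l.length, α k * ((P : ℝ) / D) ^ k ≤ vU P D l + 2 * l.length := by
  have hDR : (0 : ℝ) < D := by exact_mod_cast hD
  have hPR : (P : ℝ) ≤ D := by exact_mod_cast hP
  have hy0 : (0 : ℝ) ≤ (P : ℝ) / D := by positivity
  have hy1 : (P : ℝ) / D ≤ 1 := (div_le_one hDR).2 hPR
  induction l generalizing α with
  | nil => simp [vU]
  | cons a l ih =>
    obtain ⟨i1, i2⟩ := ih (fun k => α (k + 1))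
      (fun k hk => by simpa using h1 (k + 1) (by simpa using hk))
      (fun k hk => by simpa using h2 (k + 1) (by simpa using hk))
    have e1 : ∑ k ∈ Finset.range (a :: l).length, α k * ((P : ℝ) / D) ^ k =
        α 0 + (P : ℝ) / D * ∑ k ∈ Finset.range l.length, α (k + 1) * ((P : ℝ) / D) ^ k := by
      rw [List.length_cons, Finset.sum_range_succ', Finset.mul_sum, pow_zero, mul_one, add_comm]
      congr 1
      refine Finset.sum_congr rfl fun k _ => ?_
      rw [pow_succ]; ring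
    have e2 : vU P D (a :: l) = a + P * vU P D l / D := rfl
    have e3 : ((P * vU P D l / D : ℕ) : ℝ) ≤ (P : ℝ) / D * vU P D l := by
      have := Nat.cast_div_le (α := ℝ) (m := P * vU P D l) (n := D)
      refine this.trans (le_of_eq ?_)
      push_cast; ring
    have e4 : (P : ℝ) / D * vU P D l ≤ ((P * vU P D l / D : ℕ) : ℝ) + 1 := by
      have h := Nat.lt_mul_div_succ (P * vU P D l) hD
      have h' : ((P * vU P D l : ℕ) : ℝ) ≤ ((D * (P * vU P D l / D + 1) : ℕ) : ℝ) := by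
        exact_mod_cast h.le
      have e5 : (P : ℝ) / D * vU P D l = ((P * vU P D l : ℕ) : ℝ) / D := by push_cast; ring
      rw [e5, div_le_iff₀ hDR]
      refine h'.trans (le_of_eq ?_)
      push_cast; ring
    have a1 : (a : ℝ) ≤ α 0 := by simpa using h1 0 (by simp)
    have a2 : α 0 ≤ a + 1 := by simpa using h2 0 (by simp)
    rw [e1, e2, List.length_cons]
    push_cast
    set T : ℝ := ∑ k ∈ Finset.range l.length, α (k + 1) * ((P : ℝ) / D) ^ k with hT
    set y : ℝ := (P : ℝ) / D with hy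
    have f1 : y * vU P D l ≤ y * T := mul_le_mul_of_nonneg_left i1 hy0
    have f2 : y * T ≤ y * vU P D l + 2 * l.length := by
      have : y * T ≤ y * (vU P D l + 2 * l.length) := mul_le_mul_of_nonneg_left i2 hy0
      have h3 : y * (2 * (l.length : ℝ)) ≤ 1 * (2 * (l.length : ℝ)) :=
        mul_le_mul_of_nonneg_right hy1 (by positivity)
      linarith
    have e3' : (((P * vU P D l / D : ℕ)) : ℝ) = ((P * vU P D l / D : ℕ) : ℝ) := rfl
    constructor <;> linarith

/-! ### Complex Horner evaluation -/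

/-- Complex Horner evaluation, nonnegative coefficients, highest coefficient first, all values
shifted by `M = D W`. -/
def hM (P Q D M2 M s : ℕ) (k : ℕ → ℕ → Bool) (l : List ℕ) : ℕ → ℕ → Bool :=
  List.rec (motive := fun _ => ℕ → ℕ → Bool) (fun x y => k x y)
    (fun a _ ih x y =>
      frc (Nat.sub (Nat.add (Nat.add a
        (Nat.div (Nat.add (Nat.mul P x) (Nat.mul Q (Nat.sub M2 y))) D)) M) s) fun x' =>
      frc (Nat.sub (Nat.add (Nat.div (Nat.add (Nat.mul P y) (Nat.mul Q x)) D) M) s) fun y' =>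
        ih x' y') l

def stM (P Q D M2 M s : ℕ) (v : ℕ × ℕ) (a : ℕ) : ℕ × ℕ :=
  ((a + (P * v.1 + Q * (M2 - v.2)) / D + M) - s, ((P * v.2 + Q * v.1) / D + M) - s)

theorem hM_eq (P Q D M2 M s : ℕ) (k : ℕ → ℕ → Bool) (l : List ℕ) (x y : ℕ) :
    hM P Q D M2 M s k l x y =
      k (l.foldl (stM P Q D M2 M s) (x, y)).1 (l.foldl (stM P Q D M2 M s) (x, y)).2 := by
  induction l generalizing x y with
  | nil => rfl
  | cons a l ih =>
    have h1 : hM P Q D M2 M s k (a :: l) x y =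
      frc (Nat.sub (Nat.add (Nat.add a
        (Nat.div (Nat.add (Nat.mul P x) (Nat.mul Q (Nat.sub M2 y))) D)) M) s) fun x' =>
      frc (Nat.sub (Nat.add (Nat.div (Nat.add (Nat.mul P y) (Nat.mul Q x)) D) M) s) fun y' =>
        hM P Q D M2 M s k l x' y' := rfl
    rw [h1, frc_eq, frc_eq, ih]
    rfl

/-- Bound for the Horner process. -/
def bndU (l : List ℕ) (b : ℕ) : ℕ := l.foldl (fun b a => a + 2 * b / 1) b

theorem le_bndU (l : List ℕ) (b : ℕ) : b ≤ bndU l b := by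
  induction l generalizing b with
  | nil => exact le_rfl
  | cons a l ih =>
    have := ih (a + 2 * b / 1)
    simp only [bndU, List.foldl_cons] at this ⊢
    omega

theorem st_rel {P Q D : ℕ} (hD : 0 < D) (hP : P ≤ D) (hQ : Q ≤ D) (x y : ℤ) (a b : ℕ)
    (hx : |x| ≤ b) (hy : |y| ≤ b) (hb : a + 2 * b ≤ W)
    (v : ℕ × ℕ) (h1 : (v.1 : ℤ) = x + D * W) (h2 : (v.2 : ℤ) = y + D * W) :
    ((stM P Q D (2 * (D * W)) (D * W) ((P + Q) * W) v a).1 : ℤ) =
      (hstep P Q D a (x, y)).1 + D * W ∧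
    ((stM P Q D (2 * (D * W)) (D * W) ((P + Q) * W) v a).2 : ℤ) =
      (hstep P Q D a (x, y)).2 + D * W ∧
    |(hstep P Q D a (x, y)).1| ≤ ((a + 2 * b : ℕ) : ℤ) ∧
    |(hstep P Q D a (x, y)).2| ≤ ((a + 2 * b : ℕ) : ℤ) := by
  have hDz : (0 : ℤ) < D := by exact_mod_cast hD
  have hPz : (P : ℤ) ≤ D := by exact_mod_cast hP
  have hQz : (Q : ℤ) ≤ D := by exact_mod_cast hQ
  have hP0 : (0 : ℤ) ≤ P := Int.natCast_nonneg _
  have hQ0 : (0 : ℤ) ≤ Q := Int.natCast_nonneg _
  have hb0 : (0 : ℤ) ≤ b := Int.natCast_nonneg _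
  have ha0 : (0 : ℤ) ≤ a := Int.natCast_nonneg _
  rw [abs_le] at hx hy
  have hWpos : (1 : ℤ) ≤ W := by norm_num [W]
  have hDW : (W : ℤ) ≤ D * W := by nlinarith
  have hbz : (a : ℤ) + 2 * b ≤ W := by exact_mod_cast hb
  -- the x component
  have e1 : -(2 * (b : ℤ)) ≤ (P * x - Q * y) / D ∧ (P * x - Q * y) / D ≤ 2 * b := by
    apply ediv_bound hDz
    · nlinarith
    · nlinarith
  have e2 : -(2 * (b : ℤ)) ≤ (P * y + Q * x) / D ∧ (P * y + Q * x) / D ≤ 2 * b := by
    apply ediv_bound hDz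
    · nlinarith
    · nlinarith
  have hM2 : v.2 ≤ 2 * (D * W) := by
    have : (v.2 : ℤ) ≤ 2 * (D * W) := by rw [h2]; linarith
    exact_mod_cast this
  have c1 : (((P * v.1 + Q * (2 * (D * W) - v.2)) / D : ℕ) : ℤ) =
      (P * x - Q * y) / D + (P + Q) * W := by
    rw [Int.natCast_ediv]
    push_cast [Nat.cast_sub hM2]
    rw [h1, h2]
    have : (P : ℤ) * (x + D * W) + Q * (2 * (D * W) - (y + D * W)) =
        (P * x - Q * y) + D * ((P + Q) * W) := by ring
    rw [this, Int.add_mul_ediv_left _ _ hDz.ne']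
  have c2 : (((P * v.2 + Q * v.1) / D : ℕ) : ℤ) =
      (P * y + Q * x) / D + (P + Q) * W := by
    rw [Int.natCast_ediv]
    push_cast
    rw [h1, h2]
    have : (P : ℤ) * (y + D * W) + Q * (x + D * W) =
        (P * y + Q * x) + D * ((P + Q) * W) := by ring
    rw [this, Int.add_mul_ediv_left _ _ hDz.ne']
  have key1 : (P + Q) * W ≤ a + (P * v.1 + Q * (2 * (D * W) - v.2)) / D + D * W := by
    apply Int.ofNat_le.1
    rw [Nat.cast_add _ (D * W), Nat.cast_add a, c1]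
    push_cast
    linarith
  have key2 : (P + Q) * W ≤ (P * v.2 + Q * v.1) / D + D * W := by
    apply Int.ofNat_le.1
    rw [Nat.cast_add (_ / _), c2]
    push_cast
    linarith
  refine ⟨?_, ?_, ?_, ?_⟩
  · simp only [stM, hstep]
    rw [Nat.cast_sub key1, Nat.cast_add _ (D * W), Nat.cast_add a, c1]
    push_cast
    ring
  · simp only [stM, hstep]
    rw [Nat.cast_sub key2, Nat.cast_add, c2]
    push_cast
    ring
  · simp only [hstep]
    push_cast
    rw [abs_le]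
    constructor
    · linarith [e1.1]
    · linarith [e1.2]
  · simp only [hstep]
    push_cast
    rw [abs_le]
    constructor
    · linarith [e2.1]
    · linarith [e2.2]

/-- The fold over a list. -/
theorem fold_rel {P Q D : ℕ} (hD : 0 < D) (hP : P ≤ D) (hQ : Q ≤ D)
    (l : List ℕ) (x y : ℤ) (b : ℕ) (hx : |x| ≤ b) (hy : |y| ≤ b) (hb : bndU l b ≤ W)
    (v : ℕ × ℕ) (h1 : (v.1 : ℤ) = x + D * W) (h2 : (v.2 : ℤ) = y + D * W) :
    ((l.foldl (stM P Q D (2 * (D * W)) (D * W) ((P + Q) * W)) v).1 : ℤ) =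
      ((l.map Int.ofNat).foldl (fun v a => hstep P Q D a v) (x, y)).1 + D * W ∧
    ((l.foldl (stM P Q D (2 * (D * W)) (D * W) ((P + Q) * W)) v).2 : ℤ) =
      ((l.map Int.ofNat).foldl (fun v a => hstep P Q D a v) (x, y)).2 + D * W := by
  induction l generalizing x y b v with
  | nil => exact ⟨h1, h2⟩
  | cons a l ih =>
    have hb' : bndU l (a + 2 * b) ≤ W := by
      have h : bndU (a :: l) b = bndU l (a + 2 * b / 1) := rfl
      rw [h, Nat.div_one] at hb
      exact hb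
    have hb1 : a + 2 * b ≤ W := (le_bndU _ _).trans hb'
    obtain ⟨r1, r2, r3, r4⟩ := st_rel hD hP hQ x y a b hx hy hb1 v h1 h2
    simp only [List.map_cons, List.foldl_cons]
    exact ih _ _ _ r3 r4 hb' _ r1 r2

/-- The Horner value of the list `A` (lowest coefficient first). -/
theorem hM_horner {P Q D : ℕ} (hD : 0 < D) (hP : P ≤ D) (hQ : Q ≤ D)
    (A : List ℕ) (hb : bndU A.reverse 0 ≤ W) (k : ℕ → ℕ → Bool) :
    ∃ X Y : ℕ, (X : ℤ) = (horner P Q D (A.map Int.ofNat)).1 + D * W ∧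
      (Y : ℤ) = (horner P Q D (A.map Int.ofNat)).2 + D * W ∧
      hM P Q D (2 * (D * W)) (D * W) ((P + Q) * W) k A.reverse (D * W) (D * W) = k X Y := by
  obtain ⟨r1, r2⟩ := fold_rel hD hP hQ A.reverse 0 0 0 (by simp) (by simp) hb
    (D * W, D * W) (by simp) (by simp)
  have e : (A.reverse.map Int.ofNat).foldl (fun v a => hstep P Q D a v) (0, 0) =
      horner P Q D (A.map Int.ofNat) := by
    rw [List.map_reverse, List.foldl_reverse]
    rfl
  rw [e] at r1 r2
  exact ⟨_, _, r1, r2, hM_eq _ _ _ _ _ _ _ _ _ _⟩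

theorem bnd_eq (A : List ℕ) : bndU A.reverse 0 = vU 2 1 A := by
  rw [bndU, List.foldl_reverse, vU]

end

end C2K

end Pool.Agent.Lib_MP_1dbf07_co
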