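import Pool.Agent.Lib_MP_1dbf07_co.C2N

/-!
Piece C2, the check of a cell and its soundness.
-/

namespace Pool.Agent.Lib_MP_1dbf07_co

namespace C2K

open C1K MeasureTheory Set
open scoped Nat

noncomputable section

/-! ### The check -/

def gA (a b r n fct F : ℕ) : ℕ :=
  Nat.div (Nat.mul (Nat.mul (Nat.mul 1000000 a) F) (Nat.pow r (Nat.succ n)))
    (Nat.mul (Nat.pow (Nat.mul 1000 b) (Nat.succ n)) fct)

def gB (a b r n fct F : ℕ) : ℕ :=
  Nat.div (Nat.mul (Nat.mul (Nat.mul (Nat.mul 1000000 a) F) (Nat.pow (Nat.mul 21 r) n))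
    (Nat.succ n)) (Nat.mul (Nat.mul (Nat.pow (Nat.mul 20000 b) n) b) fct)

def disc (A B : List ℕ) (E1 K2 rK K P Q D : ℕ) : Bool :=
  frc (Nat.mul D W) fun M =>
  frc (Nat.mul 2 M) fun M2 =>
  frc (Nat.mul (Nat.add P Q) W) fun s =>
  hM P Q D M2 M s (fun fx fy =>
    frc (Nat.add (Nat.mul 100 (Nat.mul K P)) (Nat.add (Nat.mul K D) (Nat.mul 100 D))) fun p =>
    frc (Nat.mul 105 (Nat.mul K D)) fun d =>
    hU p d (fun V => frc (ad fx M) fun x => frc (ad fy M) fun y =>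
      frc (Nat.add E1 (Nat.mul rK (Nat.add V 578))) fun L =>
      Nat.ble (Nat.succ (Nat.mul L L))
        (Nat.mul (Nat.mul K2 K2) (Nat.add (Nat.mul x x) (Nat.mul y y)))) B 0) A M M

def loop (A B : List ℕ) (E1 K2 rK r q K m : ℕ) : Bool :=
  Nat.rec (motive := fun _ => Bool) true (fun j ih =>
    frc (Nat.sub (Nat.mul K K) (Nat.mul j j)) fun P =>
    frc (Nat.mul (Nat.mul 2 j) K) fun Q =>
    frc (Nat.add (Nat.mul K K) (Nat.mul j j)) fun D =>
    ((Nat.ble (Nat.mul r (Nat.add (Nat.mul 100 (Nat.mul K P))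
        (Nat.add (Nat.mul K D) (Nat.mul 100 D))))
      (Nat.mul q (Nat.mul 100 (Nat.mul K D)))).or (disc A B E1 K2 rK K P Q D)).and ih) m

def cell (a0 a1 b r q K : ℕ) : Bool :=
  stl a0 b (gA a0 b r) (fun A0 =>
  stl a1 b (gA a1 b r) (fun A1 =>
  stl a1 b (gA a1 b q) (fun Aq =>
  stl a1 b (gB a1 b r) (fun B =>
    hU 1 1 (fun S0 => hU 1 1 (fun S1 => hU 1 1 (fun Sq => hU 2 1 (fun bn =>
      (Nat.ble bn W).and
      ((Nat.ble (Nat.succ (Nat.mul (Nat.add Sq 198) b)) (Nat.mul 2000000 (Nat.sub b a1))).and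
      (frc (Nat.mul 100000 K) fun K2 =>
       frc (Nat.mul r (Nat.add K 100)) fun rK =>
       frc (Nat.mul K2 (Nat.add (Nat.sub (Nat.add S1 198) S0) 262)) fun E1 =>
       loop A0 B E1 K2 rK r q K (Nat.succ K)))) A0 0) Aq 0) A1 0) A0 0)
    64 []) 63 [1000000]) 63 [1000000]) 63 [1000000]

def cellAll (a0 a1 b r q K : ℕ) : Bool :=
  (Nat.ble 1 a0).and ((Nat.ble a0 a1).and ((Nat.ble (Nat.mul 10 a1) b).and
    ((Nat.ble 25 K).and ((Nat.ble 1 r).and ((Nat.ble r 3230).and ((Nat.ble q 3400).and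
      (cell a0 a1 b r q K)))))))

/-! ### Lists -/

/-- Coefficients of the moments. -/
def lA (a b r : ℕ) : List ℕ :=
  1000000 :: (List.range 63).map fun j => gA a b r j (j + 1)! (Hn a b j)

/-- Coefficients of the derivative. -/
def lB (a b r : ℕ) : List ℕ :=
  (List.range 64).map fun j => gB a b r j (j + 1)! (Hn a b j)

theorem stl_A {a b : ℕ} (hb : 0 < b) (hab : a ≤ b) (r : ℕ) (k : List ℕ → Bool) :
    stl a b (gA a b r) k 63 [1000000] = k (lA a b r).reverse := by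
  rw [stl_eq hb hab, lA, List.reverse_cons]

theorem stl_B {a b : ℕ} (hb : 0 < b) (hab : a ≤ b) (r : ℕ) (k : List ℕ → Bool) :
    stl a b (gB a b r) k 64 [] = k (lB a b r).reverse := by
  rw [stl_eq hb hab, lB, List.append_nil]

theorem length_lA (a b r : ℕ) : (lA a b r).length = 64 := by simp [lA]

theorem length_lB (a b r : ℕ) : (lB a b r).length = 64 := by simp [lB]

theorem natdiv_bounds (p q : ℕ) (hq : 0 < q) :
    ((p / q : ℕ) : ℝ) ≤ (p : ℝ) / q ∧ (p : ℝ) / q ≤ ((p / q : ℕ) : ℝ) + 1 := by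
  have hqR : (0 : ℝ) < q := by exact_mod_cast hq
  refine ⟨Nat.cast_div_le, ?_⟩
  have h := Nat.lt_mul_div_succ p hq
  have h' : (p : ℝ) ≤ ((q * (p / q + 1) : ℕ) : ℝ) := by exact_mod_cast h.le
  rw [div_le_iff₀ hqR]
  refine h'.trans (le_of_eq ?_)
  push_cast
  ring

theorem mom_eq_Hn (a : ℕ) {b : ℕ} (hb : 0 < b) (n : ℕ) :
    mom ((a : ℝ) / b) (n + 1) = a * Hn a b n / (b : ℝ) ^ (n + 1) := by
  have hbR : (b : ℝ) ≠ 0 := by exact_mod_cast hb.ne'
  rw [mom, if_neg (Nat.succ_ne_zero n), Hn_cast a hb, pow_succ]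
  field_simp

/-- The coefficients for `W`. -/
def al (X R : ℝ) (n : ℕ) : ℝ := 10 ^ 6 * (mom X n / (n ! : ℝ) * R ^ n)

/-- The coefficients for `W'`. -/
def be (X R : ℝ) (n : ℕ) : ℝ := 10 ^ 6 * (mom X (n + 1) / (n ! : ℝ) * R ^ n)

theorem lA_spec (a : ℕ) {b : ℕ} (hb : 0 < b) (r : ℕ) (k : ℕ) (hk : k < 64) :
    ((lA a b r).getD k 0 : ℝ) ≤ al (a / b) (r / 1000) k ∧
    al (a / b) (r / 1000) k ≤ (lA a b r).getD k 0 + 1 := by
  have hbR : (0 : ℝ) < b := by exact_mod_cast hb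
  rcases k with _ | k
  · simp only [lA, al, mom, List.getD_cons_zero, if_true, Nat.factorial_zero, pow_zero]
    push_cast
    norm_num
  · have e1 : (lA a b r).getD (k + 1) 0 = gA a b r k (k + 1)! (Hn a b k) := by
      rw [lA, List.getD_cons_succ, List.getD_eq_getElem _ _ (by simp; omega)]
      simp
    have e2 : gA a b r k (k + 1)! (Hn a b k) =
      (1000000 * a * Hn a b k * r ^ (k + 1)) / ((1000 * b) ^ (k + 1) * (k + 1)!) := rfl
    have e3 : al ((a : ℝ) / b) ((r : ℝ) / 1000) (k + 1) =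
        ((1000000 * a * Hn a b k * r ^ (k + 1) : ℕ) : ℝ) /
          (((1000 * b) ^ (k + 1) * (k + 1)! : ℕ) : ℝ) := by
      rw [al, mom_eq_Hn a hb]
      push_cast
      rw [mul_pow, div_pow]
      have : ((k + 1)! : ℝ) ≠ 0 := by exact_mod_cast (Nat.factorial_pos _).ne'
      field_simp
      norm_num
      ring
    rw [e1, e2, e3]
    exact natdiv_bounds _ _ (by positivity)

theorem lB_spec (a : ℕ) {b : ℕ} (hb : 0 < b) (r : ℕ) (k : ℕ) (hk : k < 64) :
    ((lB a b r).getD k 0 : ℝ) ≤ be (a / b) (21 * r / 20000) k ∧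
    be (a / b) (21 * r / 20000) k ≤ (lB a b r).getD k 0 + 1 := by
  have hbR : (0 : ℝ) < b := by exact_mod_cast hb
  have e1 : (lB a b r).getD k 0 = gB a b r k (k + 1)! (Hn a b k) := by
    rw [lB, List.getD_eq_getElem _ _ (by simpa using hk)]
    simp
  have e2 : gB a b r k (k + 1)! (Hn a b k) =
      (1000000 * a * Hn a b k * (21 * r) ^ k * (k + 1)) / ((20000 * b) ^ k * b * (k + 1)!) := rfl
  have e3 : be ((a : ℝ) / b) (21 * r / 20000) k =
      ((1000000 * a * Hn a b k * (21 * r) ^ k * (k + 1) : ℕ) : ℝ) /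
        (((20000 * b) ^ k * b * (k + 1)! : ℕ) : ℝ) := by
    rw [be, mom_eq_Hn a hb, Nat.factorial_succ]
    push_cast
    rw [mul_pow 20000, div_pow, pow_succ _ k]
    have : (k ! : ℝ) ≠ 0 := by exact_mod_cast (Nat.factorial_pos _).ne'
    have h2 : ((k : ℝ) + 1) ≠ 0 := by positivity
    field_simp
    norm_num
    ring
  rw [e1, e2, e3]
  exact natdiv_bounds _ _ (by positivity)

/-! ### Soundness of the combinatorial part -/

theorem disc_sound {A B : List ℕ} {E1 K2 rK K P Q D : ℕ} (hD : 0 < D) (hP : P ≤ D) (hQ : Q ≤ D)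
    (hA : bndU A.reverse 0 ≤ W) (h : disc A.reverse B.reverse E1 K2 rK K P Q D = true) :
    ((E1 + rK * (vU (100 * (K * P) + (K * D + 100 * D)) (105 * (K * D)) B + 578) : ℕ) : ℤ) ^ 2 <
      (K2 : ℤ) ^ 2 * ((horner P Q D (A.map Int.ofNat)).1 ^ 2 +
        (horner P Q D (A.map Int.ofNat)).2 ^ 2) := by
  simp only [disc, frc_eq] at h
  obtain ⟨X, Y, h1, h2, h3⟩ := hM_horner hD hP hQ A hA (fun fx fy =>
    hU (Nat.add (Nat.mul 100 (Nat.mul K P)) (Nat.add (Nat.mul K D) (Nat.mul 100 D)))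
      (Nat.mul 105 (Nat.mul K D)) (fun V =>
      Nat.ble (Nat.succ (Nat.mul (Nat.add E1 (Nat.mul rK (Nat.add V 578)))
        (Nat.add E1 (Nat.mul rK (Nat.add V 578)))))
        (Nat.mul (Nat.mul K2 K2) (Nat.add (Nat.mul (ad fx (D * W)) (ad fx (D * W)))
          (Nat.mul (ad fy (D * W)) (ad fy (D * W)))))) B.reverse 0)
  replace h := h3.symm.trans h
  rw [hU_eq, Nat.ble_eq] at h
  have h' : (E1 + rK * (vU (100 * (K * P) + (K * D + 100 * D)) (105 * (K * D)) B + 578)) *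
      (E1 + rK * (vU (100 * (K * P) + (K * D + 100 * D)) (105 * (K * D)) B + 578)) <
      K2 * K2 * (ad X (D * W) * ad X (D * W) + ad Y (D * W) * ad Y (D * W)) := h
  have eX : (ad X (D * W) : ℤ) = |(horner P Q D (A.map Int.ofNat)).1| := by
    rw [ad_eq, h1]; push_cast; ring_nf
  have eY : (ad Y (D * W) : ℤ) = |(horner P Q D (A.map Int.ofNat)).2| := by
    rw [ad_eq, h2]; push_cast; ring_nf
  have h4 : (((E1 + rK * (vU (100 * (K * P) + (K * D + 100 * D)) (105 * (K * D)) B + 578)) *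
      (E1 + rK * (vU (100 * (K * P) + (K * D + 100 * D)) (105 * (K * D)) B + 578)) : ℕ) : ℤ) <
      ((K2 * K2 * (ad X (D * W) * ad X (D * W) + ad Y (D * W) * ad Y (D * W)) : ℕ) : ℤ) := by
    exact_mod_cast h'
  rw [Nat.cast_mul (K2 * K2), Nat.cast_add (ad X (D * W) * ad X (D * W)),
    Nat.cast_mul (ad X (D * W)), Nat.cast_mul (ad Y (D * W)), eX, eY, abs_mul_abs_self,
    abs_mul_abs_self] at h4
  rw [sq, sq, sq, sq]
  push_cast at h4 ⊢
  exact h4

theorem loop_sound {A B : List ℕ} {E1 K2 rK r q K m : ℕ}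
    (h : loop A B E1 K2 rK r q K m = true) (j : ℕ) (hj : j < m) :
    (r * (100 * (K * (K * K - j * j)) + (K * (K * K + j * j) + 100 * (K * K + j * j))) ≤
      q * (100 * (K * (K * K + j * j)))) ∨
    disc A B E1 K2 rK K (K * K - j * j) (2 * j * K) (K * K + j * j) = true := by
  induction m with
  | zero => omega
  | succ m ih =>
    have h1 : loop A B E1 K2 rK r q K (m + 1) =
      frc (Nat.sub (Nat.mul K K) (Nat.mul m m)) fun P =>
      frc (Nat.mul (Nat.mul 2 m) K) fun Q =>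
      frc (Nat.add (Nat.mul K K) (Nat.mul m m)) fun D =>
      ((Nat.ble (Nat.mul r (Nat.add (Nat.mul 100 (Nat.mul K P))
          (Nat.add (Nat.mul K D) (Nat.mul 100 D))))
        (Nat.mul q (Nat.mul 100 (Nat.mul K D)))).or (disc A B E1 K2 rK K P Q D)).and
        (loop A B E1 K2 rK r q K m) := rfl
    rw [h1, frc_eq, frc_eq, frc_eq, Bool.and_eq_true, Bool.or_eq_true, Nat.ble_eq] at h
    obtain ⟨h2, h3⟩ := h
    rcases Nat.lt_succ_iff_lt_or_eq.1 hj with hj | rfl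
    · exact ih h3 hj
    · exact h2

theorem cell_sound {a0 a1 b r q K : ℕ} (hb : 0 < b) (h01 : a0 ≤ a1) (h1 : a1 ≤ b)
    (h : cell a0 a1 b r q K = true) :
    bndU (lA a0 b r).reverse 0 ≤ W ∧
    (vU 1 1 (lA a1 b q) + 198) * b < 2000000 * (b - a1) ∧
    ∀ j ≤ K, (r * (100 * (K * (K * K - j * j)) + (K * (K * K + j * j) + 100 * (K * K + j * j))) ≤
      q * (100 * (K * (K * K + j * j)))) ∨
    disc (lA a0 b r).reverse (lB a1 b r).reverse
      (100000 * K * (vU 1 1 (lA a1 b r) + 198 - vU 1 1 (lA a0 b r) + 262)) (100000 * K)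
      (r * (K + 100)) K (K * K - j * j) (2 * j * K) (K * K + j * j) = true := by
  rw [cell, stl_A hb (h01.trans h1), stl_A hb h1, stl_A hb h1, stl_B hb h1] at h
  simp only [hU_eq, frc_eq] at h
  rw [Bool.and_eq_true, Bool.and_eq_true, Nat.ble_eq, Nat.ble_eq] at h
  obtain ⟨c1, c2, c3⟩ := h
  refine ⟨by rw [bnd_eq]; exact c1, c2, fun j hj => loop_sound c3 j (Nat.lt_succ_iff.2 hj)⟩

end

end C2K

end Pool.Agent.Lib_MP_1dbf07_co
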