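import Pool.Agent.Lib_MP_1dbf07_co.C2P

/-!
Piece C2, from the check of a cell to the absence of zeros.
-/

namespace Pool.Agent.Lib_MP_1dbf07_co

namespace C2K

open C1K MeasureTheory Set
open scoped Nat

noncomputable section

theorem mom_le607 {X : ℝ} (hX : 0 < X) (hX' : X ≤ 1 / 10) (n : ℕ) :
    mom X n ≤ (607 / 100) ^ n := by
  obtain ⟨μ, hμ, hmo, -⟩ := exists_muX hX
  have := hμ.prob
  have hB : BX X ≤ 607 / 100 := by
    have hc : cX X ≤ 297 / 100 := by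
      rw [cX, Real.sqrt_le_left (by norm_num)]
      nlinarith
    rw [BX]
    linarith
  rw [← hmo, mo]
  calc ∫ w, w ^ n ∂μ ≤ ∫ _w : ℝ, ((607 : ℝ) / 100) ^ n ∂μ := by
        refine integral_mono_ae (hμ.integrable_cont (by fun_prop))
          (hμ.integrable_cont (by fun_prop)) ?_
        filter_upwards [hμ.supp] with w hw
        have h0 : (0 : ℝ) ≤ w := by linarith [hw.1]
        have h1 : w ≤ 607 / 100 := hw.2.trans hB
        exact pow_le_pow_left₀ h0 h1 n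
    _ = (607 / 100) ^ n := by simp

theorem tail_gen {E : Type*} [NormedAddCommGroup E] [CompleteSpace E] (t : ℕ → E) (C : ℝ)
    (hC : 0 ≤ C) (h : ∀ n, ‖t n‖ ≤ C * (21 ^ n / (n ! : ℝ))) :
    ‖∑' n, t n - ∑ n ∈ Finset.range 64, t n‖ ≤ C * (2 * (21 ^ 64 / (64 ! : ℝ))) := by
  have hfac : ∀ n : ℕ, (0 : ℝ) < (n ! : ℝ) := fun n => Nat.cast_pos.2 (Nat.factorial_pos _)
  obtain ⟨m, hm⟩ : ∃ m : ℕ, m = 64 := ⟨_, rfl⟩
  rw [← hm]
  have hk : ∀ k : ℕ, (21 : ℝ) ^ (k + m) / ((k + m)! : ℝ) ≤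
      21 ^ m / (m ! : ℝ) * (1 / 2) ^ k := by
    intro k
    induction k with
    | zero => simp
    | succ k ih =>
      have e1 : k + 1 + m = k + m + 1 := by ring
      rw [e1, Nat.factorial_succ, pow_succ 21, pow_succ (1 / 2)]
      have hm64 : (m : ℝ) = 64 := by rw [hm]; norm_num
      have h1 : (21 : ℝ) ^ (k + m) * 21 / (((k + m + 1 : ℕ) * (k + m)! : ℕ) : ℝ) =
          21 ^ (k + m) / ((k + m)! : ℝ) * (21 / ((k : ℝ) + m + 1)) := by
        have := (hfac (k + m)).ne'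
        push_cast
        field_simp
      rw [h1, ← mul_assoc]
      have h2 : (21 : ℝ) / ((k : ℝ) + m + 1) ≤ 1 / 2 := by
        rw [hm64, div_le_div_iff₀ (by positivity) (by norm_num)]
        have : (0 : ℝ) ≤ k := Nat.cast_nonneg k
        linarith
      have h3 := hfac (k + m)
      have h4 : (0 : ℝ) ≤ 21 ^ (k + m) / ((k + m)! : ℝ) := by positivity
      calc 21 ^ (k + m) / ((k + m)! : ℝ) * (21 / ((k : ℝ) + m + 1))
          ≤ 21 ^ (k + m) / ((k + m)! : ℝ) * (1 / 2) := mul_le_mul_of_nonneg_left h2 h4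
        _ ≤ 21 ^ m / (m ! : ℝ) * (1 / 2) ^ k * (1 / 2) :=
          mul_le_mul_of_nonneg_right ih (by norm_num)
  clear hm
  generalize (21 : ℝ) ^ m / (m ! : ℝ) = c at hk ⊢
  have htk : ∀ k, ‖t (k + m)‖ ≤ C * (c * (1 / 2) ^ k) := fun k =>
    (h _).trans (mul_le_mul_of_nonneg_left (hk k) hC)
  have hgeo : HasSum (fun k : ℕ => C * (c * (1 / 2) ^ k)) (C * (c * 2)) :=
    (hasSum_geometric_two.mul_left _).mul_left _
  have hsum' : Summable (fun k => t (k + m)) := Summable.of_norm_bounded hgeo.summable htk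
  have hsum : Summable t := (summable_nat_add_iff m).1 hsum'
  rw [← hsum.sum_add_tsum_nat_add m]
  have h3 : ∑ i ∈ Finset.range m, t i + ∑' k, t (k + m) - ∑ n ∈ Finset.range m, t n =
      ∑' k, t (k + m) := by abel
  rw [h3]
  refine (tsum_of_norm_bounded hgeo htk).trans (le_of_eq ?_)
  ring

theorem tail_const : 10 ^ 6 * (2 * (21 ^ 64 / (64 ! : ℝ))) ≤ 70 := by
  rw [show (64 ! : ℝ) =
    ((64 ! : ℕ) : ℝ) from rfl]
  norm_num [Nat.factorial]

theorem term_bound {X : ℝ} (hX : 0 < X) (hX' : X ≤ 1 / 10) {y : ℝ} (hy : 0 ≤ y)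
    (hy' : y ≤ 17 / 5) (n : ℕ) : mom X n / (n ! : ℝ) * y ^ n ≤ 1 * (21 ^ n / (n ! : ℝ)) := by
  have hfac : (0 : ℝ) < (n ! : ℝ) := Nat.cast_pos.2 (Nat.factorial_pos _)
  have h1 := mom_le607 hX hX' n
  have h2 : mom X n * y ^ n ≤ 21 ^ n := by
    calc mom X n * y ^ n ≤ (607 / 100) ^ n * y ^ n :=
          mul_le_mul_of_nonneg_right h1 (pow_nonneg hy n)
      _ = (607 / 100 * y) ^ n := (mul_pow _ _ _).symm
      _ ≤ 21 ^ n := by
          apply pow_le_pow_left₀ (by positivity)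
          linarith
  rw [one_mul, div_mul_eq_mul_div]
  gcongr

theorem term_bound' {X : ℝ} (hX : 0 < X) (hX' : X ≤ 1 / 10) {y : ℝ} (hy : 0 ≤ y)
    (hy' : y ≤ 17 / 5) (n : ℕ) :
    mom X (n + 1) / (n ! : ℝ) * y ^ n ≤ 607 / 100 * (21 ^ n / (n ! : ℝ)) := by
  have hfac : (0 : ℝ) < (n ! : ℝ) := Nat.cast_pos.2 (Nat.factorial_pos _)
  have h1 := mom_le607 hX hX' (n + 1)
  have h2 : mom X (n + 1) * y ^ n ≤ 607 / 100 * 21 ^ n := by
    calc mom X (n + 1) * y ^ n ≤ (607 / 100) ^ (n + 1) * y ^ n :=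
          mul_le_mul_of_nonneg_right h1 (pow_nonneg hy n)
      _ = 607 / 100 * (607 / 100 * y) ^ n := by rw [mul_pow, pow_succ]; ring
      _ ≤ 607 / 100 * 21 ^ n := by
          have : (607 / 100 * y) ^ n ≤ 21 ^ n := by
            apply pow_le_pow_left₀ (by positivity)
            linarith
          linarith
  rw [div_mul_eq_mul_div, ← mul_div_assoc]
  gcongr

theorem real_W {X : ℝ} (hX : 0 < X) (hX' : X ≤ 1 / 10) {R y t : ℝ} (hy : 0 ≤ y)
    (hy' : y ≤ 17 / 5) (hRt : R * t = y) :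
    ∑ k ∈ Finset.range 64, al X R k * t ^ k ≤ 10 ^ 6 * egfR (mom X) y ∧
    10 ^ 6 * egfR (mom X) y ≤ ∑ k ∈ Finset.range 64, al X R k * t ^ k + 70 := by
  have e1 : ∑ k ∈ Finset.range 64, al X R k * t ^ k =
      10 ^ 6 * ∑ n ∈ Finset.range 64, mom X n / (n ! : ℝ) * y ^ n := by
    rw [Finset.mul_sum]
    refine Finset.sum_congr rfl fun k _ => ?_
    rw [al, ← hRt, mul_pow]
    ring
  have hnn : ∀ n, 0 ≤ mom X n / (n ! : ℝ) * y ^ n := by
    intro n
    have := C2a.mom_nonneg hX.le n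
    positivity
  have h1 := tail_gen (fun n => mom X n / (n ! : ℝ) * y ^ n) 1 zero_le_one (fun n => by
    rw [Real.norm_eq_abs, abs_of_nonneg (hnn n)]
    exact term_bound hX hX' hy hy' n)
  have h2 : ∑ n ∈ Finset.range 64, mom X n / (n ! : ℝ) * y ^ n ≤ egfR (mom X) y :=
    (C2a.summable_R hX.le (by linarith) y).sum_le_tsum _ (fun n _ => hnn n)
  have h3 : egfR (mom X) y = ∑' n : ℕ, mom X n / (n ! : ℝ) * y ^ n := rfl
  rw [← h3, Real.norm_eq_abs, one_mul] at h1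
  have h4 := (abs_le.1 h1).2
  have h5 := tail_const
  rw [e1]
  constructor
  · linarith
  · have : 10 ^ 6 * (egfR (mom X) y - ∑ n ∈ Finset.range 64, mom X n / (n ! : ℝ) * y ^ n) ≤ 70 :=
      (mul_le_mul_of_nonneg_left h4 (by norm_num)).trans h5
    linarith

theorem real_W' {X : ℝ} (hX : 0 < X) (hX' : X ≤ 1 / 10) {R y t : ℝ} (hy : 0 ≤ y)
    (hy' : y ≤ 17 / 5) (hRt : R * t = y) :
    10 ^ 6 * egfR' (mom X) y ≤ ∑ k ∈ Finset.range 64, be X R k * t ^ k + 450 := by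
  have e1 : ∑ k ∈ Finset.range 64, be X R k * t ^ k =
      10 ^ 6 * ∑ n ∈ Finset.range 64, mom X (n + 1) / (n ! : ℝ) * y ^ n := by
    rw [Finset.mul_sum]
    refine Finset.sum_congr rfl fun k _ => ?_
    rw [be, ← hRt, mul_pow]
    ring
  have hnn : ∀ n, 0 ≤ mom X (n + 1) / (n ! : ℝ) * y ^ n := by
    intro n
    have := C2a.mom_nonneg hX.le (n + 1)
    positivity
  have h1 := tail_gen (fun n => mom X (n + 1) / (n ! : ℝ) * y ^ n) (607 / 100) (by norm_num)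
    (fun n => by
      rw [Real.norm_eq_abs, abs_of_nonneg (hnn n)]
      exact term_bound' hX hX' hy hy' n)
  have h3 : egfR' (mom X) y = ∑' n : ℕ, mom X (n + 1) / (n ! : ℝ) * y ^ n := rfl
  rw [← h3, Real.norm_eq_abs] at h1
  have h4 := (abs_le.1 h1).2
  have h5 := tail_const
  rw [e1]
  have : 10 ^ 6 * (egfR' (mom X) y - ∑ n ∈ Finset.range 64, mom X (n + 1) / (n ! : ℝ) * y ^ n) ≤
      607 / 100 * 70 := by
    calc _ ≤ 10 ^ 6 * (607 / 100 * (2 * (21 ^ 64 / (64 ! : ℝ)))) :=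
          mul_le_mul_of_nonneg_left h4 (by norm_num)
      _ = 607 / 100 * (10 ^ 6 * (2 * (21 ^ 64 / (64 ! : ℝ)))) := by ring
      _ ≤ 607 / 100 * 70 := mul_le_mul_of_nonneg_left h5 (by norm_num)
  linarith

theorem vU_A {a b : ℕ} (ha : 0 < a) (hab : 10 * a ≤ b) (r : ℕ) (hr : r ≤ 3400) :
    (vU 1 1 (lA a b r) : ℝ) ≤ 10 ^ 6 * egfR (mom ((a : ℝ) / b)) ((r : ℝ) / 1000) ∧
    10 ^ 6 * egfR (mom ((a : ℝ) / b)) ((r : ℝ) / 1000) ≤ vU 1 1 (lA a b r) + 198 := by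
  have hb : 0 < b := by omega
  have hbR : (0 : ℝ) < b := by exact_mod_cast hb
  have haR : (0 : ℝ) < a := by exact_mod_cast ha
  have hX : (0 : ℝ) < (a : ℝ) / b := by positivity
  have hX' : (a : ℝ) / b ≤ 1 / 10 := by
    rw [div_le_div_iff₀ hbR (by norm_num)]
    have : ((10 * a : ℕ) : ℝ) ≤ b := by exact_mod_cast hab
    push_cast at this
    linarith
  have hrR : (r : ℝ) ≤ 3400 := by exact_mod_cast hr
  obtain ⟨h1, h2⟩ := vU_bounds (P := 1) (D := 1) one_pos le_rfl (lA a b r)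
    (al ((a : ℝ) / b) ((r : ℝ) / 1000))
    (fun k hk => (lA_spec a hb r k (by rwa [length_lA] at hk)).1)
    (fun k hk => (lA_spec a hb r k (by rwa [length_lA] at hk)).2)
  obtain ⟨h3, h4⟩ := real_W hX hX' (R := (r : ℝ) / 1000) (y := (r : ℝ) / 1000)
    (t := ((1 : ℕ) : ℝ) / ((1 : ℕ) : ℝ)) (by positivity) (by linarith) (by simp)
  rw [length_lA] at h1 h2
  push_cast at h1 h2 h3 h4 ⊢
  constructor
  · linarith
  · linarith

theorem disc_real {a0 a1 b r K P Q D : ℕ} (ha0 : 0 < a0) (h01 : a0 ≤ a1) (h1b : 10 * a1 ≤ b)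
    (hK : 25 ≤ K) (hr : r ≤ 3230) (hD : 0 < D) (hP : P ≤ D) (hQ : Q ≤ D)
    (hPQ : P ^ 2 + Q ^ 2 = D ^ 2) (hA : bndU (lA a0 b r).reverse 0 ≤ W)
    (h : disc (lA a0 b r).reverse (lB a1 b r).reverse
      (100000 * K * (vU 1 1 (lA a1 b r) + 198 - vU 1 1 (lA a0 b r) + 262)) (100000 * K)
      (r * (K + 100)) K P Q D = true) :
    (egfR (mom ((a1 : ℝ) / b)) ((r : ℝ) / 1000) - egfR (mom ((a0 : ℝ) / b)) ((r : ℝ) / 1000)) +
      (1 / 100 * ((r : ℝ) / 1000) + (r : ℝ) / 1000 / K) *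
        egfR' (mom ((a1 : ℝ) / b)) ((r : ℝ) / 1000 * ((P : ℝ) / D) +
          (1 / 100 * ((r : ℝ) / 1000) + (r : ℝ) / 1000 / K)) <
    ‖egf (mom ((a0 : ℝ) / b)) (((r : ℝ) / 1000 : ℝ) * (((P : ℂ) + Q * Complex.I) / D))‖ := by
  have hb : 0 < b := by omega
  have hbR : (0 : ℝ) < b := by exact_mod_cast hb
  have ha0R : (0 : ℝ) < a0 := by exact_mod_cast ha0
  have h01R : (a0 : ℝ) ≤ a1 := by exact_mod_cast h01
  have hX0 : (0 : ℝ) < (a0 : ℝ) / b := by positivity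
  have hX01 : (a0 : ℝ) / b ≤ (a1 : ℝ) / b := by gcongr
  have hX1 : (0 : ℝ) < (a1 : ℝ) / b := hX0.trans_le hX01
  have hX1' : (a1 : ℝ) / b ≤ 1 / 10 := by
    rw [div_le_div_iff₀ hbR (by norm_num)]
    have : ((10 * a1 : ℕ) : ℝ) ≤ b := by exact_mod_cast h1b
    push_cast at this
    linarith
  have hX0' := hX01.trans hX1'
  have hKR : (25 : ℝ) ≤ K := by exact_mod_cast hK
  have hK0 : (0 : ℝ) < K := by linarith
  have hrR : (r : ℝ) ≤ 3230 := by exact_mod_cast hr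
  have hr0 : (0 : ℝ) ≤ r := Nat.cast_nonneg r
  have hDR : (0 : ℝ) < D := by exact_mod_cast hD
  have hPR : (P : ℝ) ≤ D := by exact_mod_cast hP
  have hP0 : (0 : ℝ) ≤ P := Nat.cast_nonneg P
  have hPD : (P : ℝ) / D ≤ 1 := (div_le_one hDR).2 hPR
  have hKinv : (r : ℝ) / 1000 / K ≤ 1 / 25 * ((r : ℝ) / 1000) := by
    rw [div_le_iff₀ hK0]
    have : 0 ≤ (r : ℝ) / 1000 := by positivity
    nlinarith
  -- arithmetic facts
  have hs := disc_sound hD hP hQ hA h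
  set S0 := vU 1 1 (lA a0 b r) with hS0
  set S1 := vU 1 1 (lA a1 b r) with hS1
  set V := vU (100 * (K * P) + (K * D + 100 * D)) (105 * (K * D)) (lB a1 b r) with hV
  set f := horner P Q D ((lA a0 b r).map Int.ofNat) with hf
  set R : ℝ := (r : ℝ) / 1000 with hR
  have hR0 : 0 ≤ R := by positivity
  have hR' : R ≤ 323 / 100 := by rw [hR]; linarith
  -- E part
  obtain ⟨-, E1⟩ := vU_A (by omega : 0 < a1) h1b r (by omega)
  obtain ⟨E0, -⟩ := vU_A ha0 (by omega : 10 * a0 ≤ b) r (by omega)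
  rw [← hS1, ← hR] at E1
  rw [← hS0, ← hR] at E0
  have hE : 10 ^ 6 * (egfR (mom ((a1 : ℝ) / b)) R - egfR (mom ((a0 : ℝ) / b)) R) ≤
      ((S1 + 198 - S0 : ℕ) : ℝ) := by
    have : (S1 : ℝ) + 198 - S0 ≤ ((S1 + 198 - S0 : ℕ) : ℝ) := by
      have h2 : S1 + 198 ≤ (S1 + 198 - S0) + S0 := by omega
      have h3 : ((S1 + 198 : ℕ) : ℝ) ≤ (((S1 + 198 - S0) + S0 : ℕ) : ℝ) := by exact_mod_cast h2
      push_cast at h3
      linarith
    linarith
  -- derivative part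
  set δ : ℝ := 1 / 100 * R + R / K with hδ
  have hδ0 : 0 ≤ δ := by positivity
  have hKD : 0 < 105 * (K * D) := by
    have : 0 < K := by omega
    positivity
  have hpd : 100 * (K * P) + (K * D + 100 * D) ≤ 105 * (K * D) := by
    have h2 : K * P ≤ K * D := Nat.mul_le_mul_left K hP
    have h3 : 25 * D ≤ K * D := Nat.mul_le_mul_right D hK
    omega
  have hV1 : 10 ^ 6 * egfR' (mom ((a1 : ℝ) / b)) (R * ((P : ℝ) / D) + δ) ≤ V + 578 := by
    have hy0 : 0 ≤ R * ((P : ℝ) / D) + δ := by positivity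
    have hy1 : R * ((P : ℝ) / D) + δ ≤ 17 / 5 := by
      have : R * ((P : ℝ) / D) ≤ R * 1 := mul_le_mul_of_nonneg_left hPD hR0
      linarith
    have h2 := real_W' hX1 hX1' (R := 21 * (r : ℝ) / 20000)
      (t := ((100 * (K * P) + (K * D + 100 * D) : ℕ) : ℝ) / ((105 * (K * D) : ℕ) : ℝ)) hy0 hy1 (by
        rw [hδ, hR]
        push_cast
        field_simp
        ring)
    obtain ⟨-, h3⟩ := vU_bounds hKD hpd (lB a1 b r) (be ((a1 : ℝ) / b) (21 * r / 20000))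
      (fun k hk => (lB_spec a1 hb r k (by rwa [length_lB] at hk)).1)
      (fun k hk => (lB_spec a1 hb r k (by rwa [length_lB] at hk)).2)
    rw [length_lB, ← hV] at h3
    have h4 : (2 : ℝ) * ((64 : ℕ) : ℝ) = 128 := by norm_num
    rw [h4] at h3
    linarith
  -- complex part
  set u : ℂ := ((P : ℂ) + Q * Complex.I) / D with hu
  set F : ℂ := egf (mom ((a0 : ℝ) / b)) ((R : ℝ) * u) with hF
  have hun : ‖u‖ = 1 := by
    rw [hu, norm_div, Complex.norm_natCast]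
    have h1 : ‖(P : ℂ) + (Q : ℂ) * Complex.I‖ = D := by
      have h2 : ‖(P : ℂ) + (Q : ℂ) * Complex.I‖ ^ 2 = (D : ℝ) ^ 2 := by
        have h5 : (P : ℂ) + (Q : ℂ) * Complex.I = (((P : ℝ)) : ℂ) + ((Q : ℝ) : ℂ) * Complex.I := by
          push_cast; ring
        rw [h5, ← Complex.normSq_eq_norm_sq, Complex.normSq_add_mul_I]
        exact_mod_cast hPQ
      exact (sq_eq_sq₀ (norm_nonneg _) hDR.le).1 h2
    rw [h1, div_self hDR.ne']
  have hC : ‖10 ^ 6 * F - ((f.1 : ℂ) + f.2 * Complex.I)‖ ≤ 262 := by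
    have hz : ‖(R : ℂ) * u‖ ≤ 17 / 5 := by
      rw [norm_mul, hun, mul_one, Complex.norm_real, Real.norm_eq_abs, abs_of_nonneg hR0]
      linarith
    have h1 := tail_gen (fun n => ((mom ((a0 : ℝ) / b) n / (n ! : ℝ) : ℝ) : ℂ) *
      ((R : ℂ) * u) ^ n) 1 zero_le_one (fun n => by
        have hfac : (0 : ℝ) < (n ! : ℝ) := Nat.cast_pos.2 (Nat.factorial_pos _)
        have hm := C2a.mom_nonneg hX0.le n
        rw [norm_mul, norm_pow, Complex.norm_real, Real.norm_eq_abs,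
          abs_of_nonneg (div_nonneg hm hfac.le)]
        exact term_bound hX0 hX0' (norm_nonneg _) hz n)
    have h2 := horner_error (P := P) (Q := Q) (D := D) (by exact_mod_cast hD)
      (by exact_mod_cast hPQ.le) ((lA a0 b r).map Int.ofNat) (al ((a0 : ℝ) / b) R) (by
        intro k hk
        rw [List.length_map, length_lA] at hk
        obtain ⟨q1, q2⟩ := lA_spec a0 hb r k hk
        have e1 : ((lA a0 b r).map Int.ofNat).getD k 0 = (((lA a0 b r).getD k 0 : ℕ) : ℤ) := by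
          rw [List.getD_eq_getElem _ _ (by rw [List.length_map, length_lA]; exact hk),
            List.getD_eq_getElem _ _ (by rw [length_lA]; exact hk)]
          simp
        rw [e1, abs_le]
        push_cast
        rw [← hR] at q1 q2
        constructor <;> linarith)
    rw [List.length_map, length_lA, ← hf] at h2
    simp only [Int.cast_natCast] at h2
    rw [← hu] at h2
    have h3 : ∑ k ∈ Finset.range 64, ((al ((a0 : ℝ) / b) R k : ℝ) : ℂ) * u ^ k =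
        10 ^ 6 * ∑ n ∈ Finset.range 64, ((mom ((a0 : ℝ) / b) n / (n ! : ℝ) : ℝ) : ℂ) *
      ((R : ℂ) * u) ^ n := by
      rw [Finset.mul_sum]
      refine Finset.sum_congr rfl fun k _ => ?_
      rw [al, mul_pow]
      push_cast
      ring
    rw [h3] at h2
    have h4 : F = ∑' n : ℕ, ((mom ((a0 : ℝ) / b) n / (n ! : ℝ) : ℝ) : ℂ) *
      ((R : ℂ) * u) ^ n := rfl
    rw [← h4, one_mul] at h1
    set T : ℂ := ∑ n ∈ Finset.range 64, ((mom ((a0 : ℝ) / b) n / (n ! : ℝ) : ℝ) : ℂ) *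
      ((R : ℂ) * u) ^ n with hT
    have h5 : ‖10 ^ 6 * F - 10 ^ 6 * T‖ ≤ 70 := by
      rw [← mul_sub, norm_mul]
      have : ‖(10 : ℂ) ^ 6‖ = 10 ^ 6 := by rw [norm_pow]; norm_num
      rw [this]
      exact (mul_le_mul_of_nonneg_left h1 (by norm_num)).trans tail_const
    have h6 : 10 ^ 6 * F - ((f.1 : ℂ) + f.2 * Complex.I) = (10 ^ 6 * F - 10 ^ 6 * T) +
      (10 ^ 6 * T - ((f.1 : ℂ) + f.2 * Complex.I)) := by ring
    rw [h6]
    refine (norm_add_le _ _).trans ?_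
    have h7 : (3 : ℝ) * ((64 : ℕ) : ℝ) = 192 := by norm_num
    rw [h7] at h2
    linarith
  set nf : ℝ := ‖(f.1 : ℂ) + f.2 * Complex.I‖ with hnf
  have hB1 : nf - 262 ≤ 10 ^ 6 * ‖F‖ := by
    have : ‖(f.1 : ℂ) + f.2 * Complex.I‖ ≤ ‖10 ^ 6 * F‖ +
        ‖10 ^ 6 * F - ((f.1 : ℂ) + f.2 * Complex.I)‖ := by
      have e1 : (f.1 : ℂ) + f.2 * Complex.I = 10 ^ 6 * F -
        (10 ^ 6 * F - ((f.1 : ℂ) + f.2 * Complex.I)) := by ring
      conv_lhs => rw [e1]
      exact norm_sub_le _ _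
    have h2 : ‖(10 : ℂ) ^ 6‖ = 10 ^ 6 := by rw [norm_pow]; norm_num
    rw [norm_mul, h2] at this
    linarith
  have hnf2 : nf ^ 2 = (f.1 : ℝ) ^ 2 + (f.2 : ℝ) ^ 2 := by
    have h5 : (f.1 : ℂ) + f.2 * Complex.I = ((f.1 : ℝ) : ℂ) + ((f.2 : ℝ) : ℂ) * Complex.I := by
      push_cast; ring
    rw [hnf, h5, ← Complex.normSq_eq_norm_sq, Complex.normSq_add_mul_I]
  obtain ⟨T, hT⟩ : ∃ T, T = S1 + 198 - S0 := ⟨_, rfl⟩
  rw [← hT] at hs hE
  have hL : (100000 * (K : ℝ) * ((T : ℝ) + 262) +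
      (r : ℝ) * (K + 100) * ((V : ℝ) + 578)) < 100000 * K * nf := by
    have h2 : (100000 * (K : ℝ) * ((T : ℝ) + 262) +
      (r : ℝ) * (K + 100) * ((V : ℝ) + 578)) ^ 2 <
        (100000 * (K : ℝ)) ^ 2 * ((f.1 : ℝ) ^ 2 + (f.2 : ℝ) ^ 2) := by
      have h3 : ((((100000 * K * (T + 262)) + (r * (K + 100)) *
        (V + 578) : ℕ) : ℤ) : ℝ) ^ 2 < (((100000 * K : ℕ) : ℤ) : ℝ) ^ 2 *
          ((f.1 : ℝ) ^ 2 + (f.2 : ℝ) ^ 2) := by exact_mod_cast hs
      simp only [Int.cast_natCast] at h3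
      push_cast at h3
      exact h3
    rw [← hnf2] at h2
    have h3 : (100000 * (K : ℝ)) ^ 2 * nf ^ 2 = (100000 * (K : ℝ) * nf) ^ 2 := by ring
    rw [h3] at h2
    exact lt_of_pow_lt_pow_left₀ 2 (by positivity) h2
  -- conclusion
  have hδK : 100000 * (K : ℝ) * δ = (r : ℝ) * (K + 100) := by
    rw [hδ, hR]
    field_simp
    ring
  set dV : ℝ := egfR' (mom ((a1 : ℝ) / b)) (R * ((P : ℝ) / D) + δ) with hdV
  set dE : ℝ := egfR (mom ((a1 : ℝ) / b)) R - egfR (mom ((a0 : ℝ) / b)) R with hdE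
  have key : 100000 * (K : ℝ) * (10 ^ 6 * (dE + δ * dV)) < 100000 * (K : ℝ) * (10 ^ 6 * ‖F‖) := by
    have k1 : 100000 * (K : ℝ) * (10 ^ 6 * dE) ≤
        100000 * (K : ℝ) * (T : ℝ) :=
      mul_le_mul_of_nonneg_left hE (by positivity)
    have k2 : (r : ℝ) * (K + 100) * (10 ^ 6 * dV) ≤ (r : ℝ) * (K + 100) * ((V : ℝ) + 578) :=
      mul_le_mul_of_nonneg_left hV1 (by positivity)
    have k3 : 100000 * (K : ℝ) * (nf - 262) ≤ 100000 * (K : ℝ) * (10 ^ 6 * ‖F‖) :=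
      mul_le_mul_of_nonneg_left hB1 (by positivity)
    have k4 : 100000 * (K : ℝ) * (10 ^ 6 * (dE + δ * dV)) =
        100000 * (K : ℝ) * (10 ^ 6 * dE) + (100000 * (K : ℝ) * δ) * (10 ^ 6 * dV) := by ring
    rw [k4, hδK]
    linarith
  have key2 : 10 ^ 6 * (dE + δ * dV) < 10 ^ 6 * ‖F‖ :=
    lt_of_mul_lt_mul_left key (by positivity)
  exact lt_of_mul_lt_mul_left key2 (by norm_num)

/-- The check of a cell excludes zeros. -/
theorem cell_ne {a0 a1 b r q K : ℕ} (h : cellAll a0 a1 b r q K = true) {Y : ℝ}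
    (hY0 : (a0 : ℝ) / b ≤ Y) (hY1 : Y ≤ (a1 : ℝ) / b) {z : ℂ}
    (hz1 : 99 / 100 * ((r : ℝ) / 1000) ≤ ‖z‖) (hz2 : ‖z‖ ≤ 101 / 100 * ((r : ℝ) / 1000)) :
    egf (mom Y) z ≠ 0 := by
  simp only [cellAll, Bool.and_eq_true, Nat.ble_eq] at h
  obtain ⟨ha0, h01, h1b, hK, hr1, hr, hq, hc⟩ := h
  have h1b' : 10 * a1 ≤ b := h1b
  have hb : 0 < b := by omega
  obtain ⟨hA, hleft, hdisc⟩ := cell_sound hb h01 (by omega) hc
  have hbR : (0 : ℝ) < b := by exact_mod_cast hb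
  have ha0R : (0 : ℝ) < a0 := by exact_mod_cast ha0
  have hX0 : (0 : ℝ) < (a0 : ℝ) / b := by positivity
  have hX1' : (a1 : ℝ) / b ≤ 1 / 10 := by
    rw [div_le_div_iff₀ hbR (by norm_num)]
    have : ((10 * a1 : ℕ) : ℝ) ≤ b := by exact_mod_cast h1b'
    push_cast at this
    linarith
  -- reduction to the upper half plane
  wlog him : 0 ≤ z.im generalizing z
  · have h1 := this (z := starRingEnd ℂ z) (by rwa [Complex.norm_conj])
      (by rwa [Complex.norm_conj]) (by rw [Complex.conj_im]; linarith)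
    rw [egf_conj] at h1
    intro h2
    apply h1
    rw [h2, map_zero]
  have hY : 0 < Y := hX0.trans_le hY0
  have hcl : egfR (mom ((a1 : ℝ) / b)) ((q : ℝ) / 1000) < 2 * (1 - (a1 : ℝ) / b) := by
    obtain ⟨-, h2⟩ := vU_A (by omega : 0 < a1) h1b' q hq
    have h3 : (((vU 1 1 (lA a1 b q) + 198) * b : ℕ) : ℝ) < ((2000000 * (b - a1) : ℕ) : ℝ) := by
      exact_mod_cast hleft
    rw [Nat.cast_mul, Nat.cast_mul, Nat.cast_sub (by omega), Nat.cast_add] at h3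
    push_cast at h3
    have h4 : (2 : ℝ) * (1 - (a1 : ℝ) / b) * (10 ^ 6 * b) = 2000000 * (b - a1) := by
      field_simp
      norm_num
      ring
    have h5 : egfR (mom ((a1 : ℝ) / b)) ((q : ℝ) / 1000) * (10 ^ 6 * b) <
        2 * (1 - (a1 : ℝ) / b) * (10 ^ 6 * b) := by
      rw [h4]
      calc egfR (mom ((a1 : ℝ) / b)) ((q : ℝ) / 1000) * (10 ^ 6 * b) =
          10 ^ 6 * egfR (mom ((a1 : ℝ) / b)) ((q : ℝ) / 1000) * b := by ring
        _ ≤ ((vU 1 1 (lA a1 b q) : ℝ) + 198) * b := mul_le_mul_of_nonneg_right h2 hbR.le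
        _ < _ := h3
    exact lt_of_mul_lt_mul_right h5 (by positivity)
  by_cases hre : z.re ≤ (q : ℝ) / 1000
  · exact c2_left hY hY1 (by linarith) (by positivity) hre hcl
  have hre' := not_le.1 hre
  have hq0 : (0 : ℝ) ≤ (q : ℝ) / 1000 := by positivity
  have hrR : (0 : ℝ) < r := by exact_mod_cast (by omega : 0 < r)
  have hK1 : 1 ≤ K := by omega
  have hKR : (0 : ℝ) < K := by exact_mod_cast (by omega : 0 < K)
  obtain ⟨j, hj, hcov⟩ := annulus_cover (R := (r : ℝ) / 1000) (η := 1 / 100) (by positivity)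
    (by norm_num) (by norm_num) hK1 (z := z) (by linarith) (by linarith) (by linarith) him
  have hjj : j * j ≤ K * K := Nat.mul_le_mul hj hj
  have q1 : K * K - j * j ≤ K * K + j * j := by omega
  have q2 : 2 * j * K ≤ K * K + j * j := by
    zify
    nlinarith [sq_nonneg ((j : ℤ) - K)]
  have q3 : (K * K - j * j) ^ 2 + (2 * j * K) ^ 2 = (K * K + j * j) ^ 2 := by
    zify [hjj]; ring
  have q4 : 0 < K * K + j * j := by
    have : 0 < K * K := Nat.mul_pos (by omega) (by omega)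
    omega
  have q4R : (0 : ℝ) < ((K * K + j * j : ℕ) : ℝ) := by exact_mod_cast q4
  have hz0 : (((r : ℝ) / 1000 : ℝ) : ℂ) * ((((K * K - j * j : ℕ) : ℂ) + ((2 * j * K : ℕ) : ℂ) *
      Complex.I) / ((K * K + j * j : ℕ) : ℂ)) =
      (((r : ℝ) / 1000 : ℝ) : ℂ) * (((K : ℂ) ^ 2 - j ^ 2) + 2 * j * K * Complex.I) /
        (K ^ 2 + j ^ 2) := by
    have h1 : ((K * K - j * j : ℕ) : ℂ) = (K : ℂ) ^ 2 - (j : ℂ) ^ 2 := by
      rw [Nat.cast_sub hjj]; push_cast; ring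
    rw [h1]
    push_cast
    ring
  rw [← hz0] at hcov
  set z0 : ℂ := (((r : ℝ) / 1000 : ℝ) : ℂ) * ((((K * K - j * j : ℕ) : ℂ) +
    ((2 * j * K : ℕ) : ℂ) * Complex.I) / ((K * K + j * j : ℕ) : ℂ)) with hz0def
  have hz0re : z0.re = (r : ℝ) / 1000 * (((K * K - j * j : ℕ) : ℝ) /
      ((K * K + j * j : ℕ) : ℝ)) := by
    have h5 : z0 = (((r : ℝ) / 1000 * (((K * K - j * j : ℕ) : ℝ) /
        ((K * K + j * j : ℕ) : ℝ)) : ℝ) : ℂ) + (((r : ℝ) / 1000 * (((2 * j * K : ℕ) : ℝ) /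
        ((K * K + j * j : ℕ) : ℝ)) : ℝ) : ℂ) * Complex.I := by
      rw [hz0def]
      push_cast
      ring
    rw [h5, Complex.add_re, Complex.ofReal_re, Complex.re_ofReal_mul, Complex.I_re]
    ring
  have hz0n : ‖z0‖ = (r : ℝ) / 1000 := by
    rw [hz0def, norm_mul, Complex.norm_real, Real.norm_eq_abs, abs_of_pos (by positivity),
      norm_div, Complex.norm_natCast]
    have h1 : ‖((K * K - j * j : ℕ) : ℂ) + ((2 * j * K : ℕ) : ℂ) * Complex.I‖ =
        ((K * K + j * j : ℕ) : ℝ) := by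
      have h2 : ‖((K * K - j * j : ℕ) : ℂ) + ((2 * j * K : ℕ) : ℂ) * Complex.I‖ ^ 2 =
          ((K * K + j * j : ℕ) : ℝ) ^ 2 := by
        have h5 : ((K * K - j * j : ℕ) : ℂ) + ((2 * j * K : ℕ) : ℂ) * Complex.I =
            (((K * K - j * j : ℕ) : ℝ) : ℂ) + (((2 * j * K : ℕ) : ℝ) : ℂ) * Complex.I := by
          push_cast; ring
        rw [h5, ← Complex.normSq_eq_norm_sq, Complex.normSq_add_mul_I]
        exact_mod_cast q3
      exact (sq_eq_sq₀ (norm_nonneg _) q4R.le).1 h2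
    rw [h1, div_self q4R.ne', mul_one]
  rcases hdisc j hj with hd | hd
  · -- the disc lies to the left
    exfalso
    have h1 : ((r * (100 * (K * (K * K - j * j)) + (K * (K * K + j * j) +
        100 * (K * K + j * j))) : ℕ) : ℝ) ≤ ((q * (100 * (K * (K * K + j * j))) : ℕ) : ℝ) := by
      exact_mod_cast hd
    have h2 : z0.re + (1 / 100 * ((r : ℝ) / 1000) + (r : ℝ) / 1000 / K) ≤ (q : ℝ) / 1000 := by
      rw [hz0re]
      set P : ℝ := ((K * K - j * j : ℕ) : ℝ) with hP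
      set D : ℝ := ((K * K + j * j : ℕ) : ℝ) with hD
      have h3 : (r : ℝ) * (100 * (K * P) + (K * D + 100 * D)) ≤ q * (100 * (K * D)) := by
        rw [Nat.cast_mul r, Nat.cast_mul q, Nat.cast_add (100 * (K * (K * K - j * j))),
          Nat.cast_mul 100, Nat.cast_mul K, Nat.cast_add (K * (K * K + j * j)),
          Nat.cast_mul K (K * K + j * j), Nat.cast_mul 100 (K * K + j * j),
          Nat.cast_mul 100 (K * (K * K + j * j)), Nat.cast_mul K (K * K + j * j), ← hP, ← hD] at h1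
        push_cast at h1
        exact h1
      have h4 : (r : ℝ) / 1000 * (P / D) + (1 / 100 * ((r : ℝ) / 1000) + (r : ℝ) / 1000 / K) =
          (r : ℝ) * (100 * (K * P) + (K * D + 100 * D)) / (1000 * (100 * (K * D))) := by
        have : D ≠ 0 := q4R.ne'
        field_simp
      rw [h4, div_le_div_iff₀ (by positivity) (by norm_num)]
      nlinarith
    have h3 : z.re ≤ z0.re + ‖z - z0‖ := by
      have := Complex.abs_re_le_norm (z - z0)
      rw [Complex.sub_re] at this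
      have := (abs_le.1 this).2
      linarith
    linarith
  · refine c2_cell hX0 hY0 hY1 (by linarith) hcov ?_ ?_
    · rw [hz0re]
      positivity
    · rw [hz0n, hz0re]
      exact disc_real ha0 h01 h1b' hK hr q4 q1 q2 q3 hA hd

end

end C2K

end Pool.Agent.Lib_MP_1dbf07_co
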