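import Pool.Agent.Lib_MP_1dbf07_co.R0

namespace Pool.Agent.Lib_MP_1dbf07_co

open MeasureTheory Set Filter Topology
open scoped Real Nat PowerSeries

noncomputable section

namespace C2a

theorem mom_nonneg {X : ℝ} (hX : 0 ≤ X) (n : ℕ) : 0 ≤ mom X n := by
  rw [mom]
  split_ifs
  · exact zero_le_one
  · exact mul_nonneg hX (fs_nonneg hX n)

theorem mom_mono {X Y : ℝ} (hX : 0 ≤ X) (hXY : X ≤ Y) (n : ℕ) : mom X n ≤ mom Y n := by
  rw [mom, mom]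
  split_ifs
  · exact le_refl _
  · exact mul_le_mul hXY (fs_mono hX hXY n) (fs_nonneg hX n) (hX.trans hXY)

theorem mom_le {X : ℝ} (hX : 0 ≤ X) (hX' : X ≤ 1) (n : ℕ) : mom X n ≤ 8 ^ n := by
  rw [mom]
  split_ifs with h
  · rw [h, pow_zero]
  · calc X * fs X n ≤ 1 * 8 ^ n := mul_le_mul hX' (fs_le hX hX' n) (fs_nonneg hX n) zero_le_one
      _ = 8 ^ n := one_mul _

theorem abs_mom_le {X : ℝ} (hX : 0 ≤ X) (hX' : X ≤ 1) (n : ℕ) : |mom X n| ≤ 8 ^ n := by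
  rw [abs_of_nonneg (mom_nonneg hX n)]
  exact mom_le hX hX' n

theorem summable_R {X : ℝ} (hX : 0 ≤ X) (hX' : X ≤ 1) (x : ℝ) :
    Summable fun n : ℕ => mom X n / (n ! : ℝ) * x ^ n := by
  refine Summable.of_norm_bounded (Real.summable_pow_div_factorial (8 * |x|)) fun n => ?_
  rw [norm_mul, norm_div, norm_pow, Real.norm_eq_abs, Real.norm_eq_abs, Real.norm_eq_abs,
    Nat.abs_cast, mul_pow]
  have := abs_mom_le hX hX' n
  calc |mom X n| / (n ! : ℝ) * |x| ^ n ≤ 8 ^ n / (n ! : ℝ) * |x| ^ n := by gcongr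
    _ = _ := by ring

theorem summable_R' {X : ℝ} (hX : 0 ≤ X) (hX' : X ≤ 1) (x : ℝ) :
    Summable fun n : ℕ => mom X (n + 1) / (n ! : ℝ) * x ^ n := by
  refine Summable.of_norm_bounded ((Real.summable_pow_div_factorial (8 * |x|)).mul_left 8)
    fun n => ?_
  rw [norm_mul, norm_div, norm_pow, Real.norm_eq_abs, Real.norm_eq_abs, Real.norm_eq_abs,
    Nat.abs_cast, mul_pow]
  have := abs_mom_le hX hX' (n + 1)
  calc |mom X (n + 1)| / (n ! : ℝ) * |x| ^ n ≤ 8 ^ (n + 1) / (n ! : ℝ) * |x| ^ n := by gcongr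
    _ = _ := by ring

theorem summable_C {X : ℝ} (hX : 0 ≤ X) (hX' : X ≤ 1) (z : ℂ) :
    Summable fun n : ℕ => ((mom X n / (n ! : ℝ) : ℝ) : ℂ) * z ^ n := by
  refine Summable.of_norm_bounded (Real.summable_pow_div_factorial (8 * ‖z‖)) fun n => ?_
  rw [norm_mul, norm_pow, Complex.norm_real, Real.norm_eq_abs, abs_div,
    Nat.abs_cast, mul_pow]
  have := abs_mom_le hX hX' n
  calc |mom X n| / (n ! : ℝ) * ‖z‖ ^ n ≤ 8 ^ n / (n ! : ℝ) * ‖z‖ ^ n := by gcongr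
    _ = _ := by ring

theorem egfR'_nonneg {X x : ℝ} (hX : 0 ≤ X) (hx : 0 ≤ x) : 0 ≤ egfR' (mom X) x := by
  rw [egfR']
  refine tsum_nonneg fun n => ?_
  have := mom_nonneg hX (n + 1)
  positivity

end C2a

open C2a

theorem egfR_mom_mono {X Y x y : ℝ} (hX : 0 < X) (hXY : X ≤ Y) (hY : Y ≤ 1) (hx : 0 ≤ x)
    (hxy : x ≤ y) : egfR (mom X) x ≤ egfR (mom Y) y ∧ egfR' (mom X) x ≤ egfR' (mom Y) y := by
  have hY0 : 0 ≤ Y := hX.le.trans hXY
  constructor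
  · refine Summable.tsum_le_tsum (fun n => ?_) (summable_R hX.le (hXY.trans hY) x)
      (summable_R hY0 hY y)
    have h1 := mom_mono hX.le hXY n
    have h2 := mom_nonneg hY0 n
    gcongr
  · refine Summable.tsum_le_tsum (fun n => ?_) (summable_R' hX.le (hXY.trans hY) x)
      (summable_R' hY0 hY y)
    have h1 := mom_mono hX.le hXY (n + 1)
    have h2 := mom_nonneg hY0 (n + 1)
    gcongr

/-- No zero to the left (`|Y J(z)| ≤ Y J(Re z)`). -/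
theorem c2_left {Y Y' x : ℝ} (hY : 0 < Y) (hYY : Y ≤ Y') (hY' : Y' ≤ 1) (hx : 0 ≤ x) {z : ℂ}
    (hz : z.re ≤ x) (h : egfR (mom Y') x < 2 * (1 - Y')) : egf (mom Y) z ≠ 0 := by
  obtain ⟨μ, hμ, hmo, hmass⟩ := exists_muX hY
  have hpr := hμ.prob
  have hm := hmass (hYY.trans hY')
  rw [← hmo, ← JJ_eq_egf hμ]
  intro h0
  -- the mass at `0`
  set p : ℝ := (μ {0}).toReal with hp
  have hp1 : 1 - Y ≤ p := by
    rw [hp]
    exact (ENNReal.ofReal_le_iff_le_toReal (measure_ne_top _ _)).1 hm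
  have hs : MeasurableSet ({0} : Set ℝ) := measurableSet_singleton 0
  have i1 := hμ.integrable_exp z
  have i2 : Integrable (fun w : ℝ => Real.exp (z.re * w)) μ := hμ.integrable_cont (by fun_prop)
  have e1 : JJ μ z = p + ∫ w in ({0} : Set ℝ)ᶜ, Complex.exp (z * w) ∂μ := by
    rw [JJ, ← integral_add_compl hs i1]
    congr 1
    rw [integral_singleton]
    simp [hp, Measure.real]
  have e2 : Jr μ z.re = p + ∫ w in ({0} : Set ℝ)ᶜ, Real.exp (z.re * w) ∂μ := by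
    rw [Jr, ← integral_add_compl hs i2]
    congr 1
    rw [integral_singleton]
    simp [hp, Measure.real]
  have h1 : ‖∫ w in ({0} : Set ℝ)ᶜ, Complex.exp (z * w) ∂μ‖ ≤
      ∫ w in ({0} : Set ℝ)ᶜ, Real.exp (z.re * w) ∂μ := by
    refine (norm_integral_le_integral_norm _).trans (le_of_eq ?_)
    congr 1
    ext w
    exact B0.norm_exp_re z w
  have h2 : p ≤ ‖∫ w in ({0} : Set ℝ)ᶜ, Complex.exp (z * w) ∂μ‖ := by
    have h3 : ∫ w in ({0} : Set ℝ)ᶜ, Complex.exp (z * w) ∂μ = -(p : ℂ) := by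
      rw [h0] at e1
      linear_combination -e1
    rw [h3, norm_neg, Complex.norm_real, Real.norm_eq_abs]
    exact le_abs_self p
  have h3 : Jr μ z.re ≤ Jr μ x := by
    rw [Jr, Jr]
    refine integral_mono_ae i2 (hμ.integrable_cont (by fun_prop)) ?_
    filter_upwards [hμ.supp] with w hw
    apply Real.exp_le_exp.2
    have : 0 ≤ w := by linarith [hw.1]
    exact mul_le_mul_of_nonneg_right hz this
  have h4 := (egfR_mom_mono hY hYY hY' hx (le_refl x)).1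
  rw [← hmo, ← Jr_eq_egfR hμ] at h4
  linarith

/-- The certificate of one disc and one cell. -/
theorem c2_cell {X₀ X₁ Y δ : ℝ} (h0 : 0 < X₀) (h1 : X₀ ≤ Y) (h2 : Y ≤ X₁) (h3 : X₁ ≤ 1)
    {z₀ z : ℂ} (hδ : ‖z - z₀‖ ≤ δ) (hre : 0 ≤ z₀.re)
    (h : (egfR (mom X₁) ‖z₀‖ - egfR (mom X₀) ‖z₀‖) + δ * egfR' (mom X₁) (z₀.re + δ)
      < ‖egf (mom X₀) z₀‖) : egf (mom Y) z ≠ 0 := by
  intro hz
  have hY : 0 < Y := h0.trans_le h1
  have hY1 : Y ≤ 1 := h2.trans h3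
  obtain ⟨μ, hμ, hmo, -⟩ := exists_muX hY
  have hδ0 : 0 ≤ δ := (norm_nonneg _).trans hδ
  have k1 : ‖egf (mom X₀) z₀ - egf (mom Y) z₀‖ ≤ egfR (mom Y) ‖z₀‖ - egfR (mom X₀) ‖z₀‖ := by
    rw [egf, egf, ← Summable.tsum_sub (summable_C h0.le (h1.trans hY1) z₀) (summable_C hY.le hY1 z₀),
      egfR, egfR, ← Summable.tsum_sub (summable_R hY.le hY1 _) (summable_R h0.le (h1.trans hY1) _)]
    have hsum : Summable fun n : ℕ => mom Y n / (n ! : ℝ) * ‖z₀‖ ^ n -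
        mom X₀ n / (n ! : ℝ) * ‖z₀‖ ^ n :=
      (summable_R hY.le hY1 _).sub (summable_R h0.le (h1.trans hY1) _)
    refine tsum_of_norm_bounded hsum.hasSum fun n => ?_
    have e : ((mom X₀ n / (n ! : ℝ) : ℝ) : ℂ) * z₀ ^ n - ((mom Y n / (n ! : ℝ) : ℝ) : ℂ) * z₀ ^ n =
        ((mom X₀ n / (n ! : ℝ) - mom Y n / (n ! : ℝ) : ℝ) : ℂ) * z₀ ^ n := by
      push_cast
      ring
    rw [e, norm_mul, norm_pow, Complex.norm_real, Real.norm_eq_abs, ← sub_div, abs_div,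
      Nat.abs_cast, abs_sub_comm, abs_of_nonneg (sub_nonneg.2 (mom_mono h0.le h1 n))]
    exact le_of_eq (by ring)
  have k2 := (egfR_mom_mono hY h2 h3 (norm_nonneg z₀) (le_refl _)).1
  have k3 := JJ_lipschitz' hμ z z₀
  rw [Jr'_eq_egfR' hμ, JJ_eq_egf hμ, hmo, hz, zero_sub, norm_neg] at k3
  have k4 : ‖z - z₀‖ * egfR' (mom Y) (z₀.re + ‖z - z₀‖) ≤ δ * egfR' (mom X₁) (z₀.re + δ) := by
    refine mul_le_mul hδ ?_ (egfR'_nonneg hY.le (by positivity)) hδ0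
    exact (egfR_mom_mono hY h2 h3 (by positivity) (by linarith)).2
  have k5 : ‖egf (mom X₀) z₀‖ ≤ ‖egf (mom X₀) z₀ - egf (mom Y) z₀‖ + ‖egf (mom Y) z₀‖ := by
    have := norm_add_le (egf (mom X₀) z₀ - egf (mom Y) z₀) (egf (mom Y) z₀)
    rwa [sub_add_cancel] at this
  linarith

end

end Pool.Agent.Lib_MP_1dbf07_co
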