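import Pool.Agent.Lib_MP_1dbf07_co.F1a

/-!
# Sign codes of the cumulants at a rational point
-/

namespace Pool.Agent.Lib_MP_1dbf07_co

open scoped Real Nat

noncomputable section

namespace F1

/-- The kernel check for the point `X = a / 2^q` with sign code `W`. -/
def ptOK (a q W : Nat) : Bool :=
  forceN (Nat.pow 2 q) fun b => forceN (Nat.add (Nat.mul 3 b) a) fun p =>
  forceN (Nat.pow (Nat.add (Nat.sub b a) (Nat.sub a b)) 2) fun d =>
  forceN (Nat.mul a (Nat.add (Nat.mul 2 b) a)) fun M2 =>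
  forceN (Nat.add M2 (Nat.mul a a)) fun S1 =>
  forceL (genM a p d 117 1 M2 S1 0) fun rest =>
    and (chk (Int.ofNat a) (Int.ofNat p) (Int.ofNat d) rest 1 (Int.ofNat M2) (Int.ofNat S1) 0)
      (and (Nat.beq (List.length rest) 117)
      (Nat.beq (code (loopK (Int.ofNat a :: Int.ofNat M2 :: rest)
        (Int.ofNat a :: Int.ofNat M2 :: rest) [] [])) W))

theorem mom_pos' (X : ℝ) {n : ℕ} (hn : 1 ≤ n) : mom X n = X * fs X n := by
  rw [mom, if_neg (by omega)]

/-- The linear recurrence of the moments. -/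
theorem mom_lin (X : ℝ) : ∀ n : ℕ, 1 ≤ n →
    ((n : ℝ) + 2) * (mom X (n + 2) + X * mom X (n + 1))
      = (3 + X) * (2 * n + 1) * (mom X (n + 1) + X * mom X n)
        - (1 - X) ^ 2 * ((n : ℝ) - 1) * (mom X n + X * mom X (n - 1)) := by
  obtain ⟨r, h0, h1, h2, h3⟩ := fs_lin X
  intro n hn
  have e1 := h3 (n + 1) (by omega)
  have e2 := h3 n hn
  have e3 := h2 n
  rw [mom_pos' X (by omega : 1 ≤ n + 2), mom_pos' X (by omega : 1 ≤ n + 1), mom_pos' X hn]
  rcases Nat.lt_or_ge n 2 with h | h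
  · have : n = 1 := by omega
    subst this
    norm_num at e1 e2 e3 ⊢
    linear_combination (-X / 2) * e3 + (X * 3 / 2) * e1 - (3 + X) * 3 * X / 2 * e2
  · have e4 := h3 (n - 1) (by omega)
    rw [show n - 1 + 1 = n by omega] at e4
    rw [mom_pos' X (by omega : 1 ≤ n - 1)]
    have e1' : 2 * (fs X (n + 2) + X * fs X (n + 1)) = -r (n + 2) := e1
    linear_combination (-X / 2) * e3 + (X * ((n : ℝ) + 2) / 2) * e1'
      - (3 + X) * (2 * n + 1) * X / 2 * e2 + (1 - X) ^ 2 * ((n : ℝ) - 1) * X / 2 * e4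

theorem chk_sound {X b : ℝ} {a p d : ℤ} (ha : (a : ℝ) = b * X)
    (hp : (p : ℝ) = 3 * b + a) (hd : (d : ℝ) = (b - a) ^ 2) (l : List ℤ) :
    ∀ (n : ℕ) (B S S' : ℤ), 1 ≤ n → (B : ℝ) = b ^ (n + 1) * mom X (n + 1) →
      (S : ℝ) = b ^ (n + 1) * (mom X (n + 1) + X * mom X n) →
      (2 ≤ n → (S' : ℝ) = b ^ n * (mom X n + X * mom X (n - 1))) →
      chk a p d l n B S S' = true →
      l = tab l.length (fun i => ⌊b ^ (n + 2 + i) * mom X (n + 2 + i)⌋) ∧
      ∀ i < l.length, ((⌊b ^ (n + 2 + i) * mom X (n + 2 + i)⌋ : ℤ) : ℝ)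
        = b ^ (n + 2 + i) * mom X (n + 2 + i) := by
  induction l with
  | nil => intro n B S S' _ _ _ _ _; exact ⟨rfl, fun i hi => absurd hi (by simp)⟩
  | cons C l ih =>
    intro n B S S' hn hB hS hS' hchk
    obtain ⟨h1, h2⟩ := chk_cons hchk
    have h1' : ((n : ℝ) + 2) * (C + a * B) + d * ((n - 1 : ℕ) : ℝ) * S'
        = p * (2 * n + 1) * S := by exact_mod_cast h1
    have hrec := mom_lin X n hn
    have hS2 : ((n - 1 : ℕ) : ℝ) * S' = ((n : ℝ) - 1) * (b ^ n * (mom X n + X * mom X (n - 1))) := by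
      rcases Nat.lt_or_ge n 2 with h | h
      · have : n = 1 := by omega
        subst this; simp
      · rw [hS' h, Nat.cast_sub (by omega)]; simp
    have hT : ((C : ℝ) + a * B) = b ^ (n + 2) * (mom X (n + 2) + X * mom X (n + 1)) := by
      have hn2 : ((n : ℝ) + 2) ≠ 0 := by positivity
      apply mul_left_cancel₀ hn2
      have : ((n : ℝ) + 2) * (C + a * B)
          = p * (2 * n + 1) * S - d * (((n - 1 : ℕ) : ℝ) * S') := by linarith
      rw [this, hS2, hS, hp, hd, ha]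
      linear_combination (-(b ^ (n + 2))) * hrec
    have hC : (C : ℝ) = b ^ (n + 2) * mom X (n + 2) := by
      have : (C : ℝ) = (C + a * B) - a * B := by ring
      rw [this, hT, hB, ha]
      ring
    have hih := ih (n + 1) C (C + a * B) S (by omega) hC (by push_cast; exact hT)
      (fun _ => by rw [hS]; simp) h2
    have hfl : ⌊b ^ (n + 2 + 0) * mom X (n + 2 + 0)⌋ = C := by
      rw [add_zero, ← hC, Int.floor_intCast]
    have hsh : ∀ i : ℕ, n + 1 + 2 + i = n + 2 + (i + 1) := fun i => by omega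
    constructor
    · rw [List.length_cons, tab_succ, hfl]
      congr 1
      refine hih.1.trans (tab_congr fun i _ => ?_)
      rw [hsh]
    · intro i hi
      rcases i with _ | i
      · rw [hfl, add_zero, hC]
      · have := hih.2 i (by simpa using hi)
        rwa [hsh] at this

theorem mom_zero' (X : ℝ) : mom X 0 = 1 := by rw [mom, if_pos rfl]

theorem mom_one' (X : ℝ) : mom X 1 = X := by rw [mom, if_neg (by omega), fs_one, mul_one]

theorem mom_two' (X : ℝ) : mom X 2 = X * (2 + X) := by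
  have h := fs_succ_succ X 0
  have e1 : ∑ p ∈ Finset.HasAntidiagonal.antidiagonal (0 + 2), fs X p.1 * fs X p.2 = 1 := by
    rw [Finset.Nat.sum_antidiagonal_eq_sum_range_succ (fun i j => fs X i * fs X j)]
    simp [Finset.sum_range_succ, fs_zero, fs_one]
  have e2 : ∑ p ∈ Finset.HasAntidiagonal.antidiagonal (0 + 1), fs X p.1 * fs X p.2 = 0 := by
    rw [Finset.Nat.sum_antidiagonal_eq_sum_range_succ (fun i j => fs X i * fs X j)]
    simp [Finset.sum_range_succ, fs_zero, fs_one]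
  rw [e1, e2, zero_add, zero_add, fs_one] at h
  rw [mom, if_neg (by omega), h]
  ring

/-- Soundness. -/
theorem pt_sound {a q W : ℕ} (h : ptOK a q W = true) (n : ℕ) (hn : 1 ≤ n)
    (hn2 : n ≤ 119) :
    (W / 4 ^ (119 - n) % 4 = 1 → 0 < kap (mom ((a : ℝ) / 2 ^ q)) n) ∧
    (W / 4 ^ (119 - n) % 4 = 2 → kap (mom ((a : ℝ) / 2 ^ q)) n < 0) := by
  rw [ptOK, forceN_eq, forceN_eq, forceN_eq, forceN_eq, forceN_eq, forceL_eq] at h
  simp only [Bool.and_eq_true] at h
  set b : ℝ := 2 ^ q with hbdef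
  have hb : 0 < b := by positivity
  set X : ℝ := (a : ℝ) / b with hX
  have ha : (a : ℝ) = b * X := by rw [hX]; field_simp
  obtain ⟨h1, h2, h3⟩ := h
  have h2' := Nat.eq_of_beq_eq_true h2
  have h3' := Nat.eq_of_beq_eq_true h3
  set rest := genM a (Nat.add (Nat.mul 3 (Nat.pow 2 q)) a)
    (Nat.pow (Nat.add (Nat.sub (Nat.pow 2 q) a) (Nat.sub a (Nat.pow 2 q))) 2) 117 1
    (Nat.mul a (Nat.add (Nat.mul 2 (Nat.pow 2 q)) a))
    (Nat.add (Nat.mul a (Nat.add (Nat.mul 2 (Nat.pow 2 q)) a)) (Nat.mul a a)) 0 with hrest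
  have hcast : ∀ x : ℕ, ((Int.ofNat x : ℤ) : ℝ) = (x : ℝ) := fun x => by simp
  have hb2 : ((Nat.pow 2 q : ℕ) : ℝ) = b := by
    rw [hbdef]; simp
  have hM2 : (((Nat.mul a (Nat.add (Nat.mul 2 (Nat.pow 2 q)) a)) : ℕ) : ℝ)
      = b ^ 2 * mom X 2 := by
    rw [mom_two']
    simp only [Nat.mul_eq, Nat.add_eq, Nat.cast_mul, Nat.cast_add, hb2, Nat.cast_ofNat]
    rw [ha]; ring
  have hd : (((Nat.pow (Nat.add (Nat.sub (Nat.pow 2 q) a) (Nat.sub a (Nat.pow 2 q))) 2) : ℕ) : ℝ)
      = (b - a) ^ 2 := by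
    rw [← hb2]
    rcases le_total (Nat.pow 2 q) a with h | h
    · simp only [Nat.sub_eq, Nat.add_eq, Nat.pow_eq] at h ⊢
      rw [Nat.sub_eq_zero_of_le h]
      push_cast [Nat.cast_sub h]
      ring
    · simp only [Nat.sub_eq, Nat.add_eq, Nat.pow_eq] at h ⊢
      rw [Nat.sub_eq_zero_of_le h]
      push_cast [Nat.cast_sub h]
      ring
  have hsound := chk_sound (X := X) (b := b) (a := Int.ofNat a) (by rw [hcast]; exact ha)
    (p := Int.ofNat (Nat.add (Nat.mul 3 (Nat.pow 2 q)) a))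
    (by rw [hcast, hcast]; simp only [Nat.mul_eq, Nat.add_eq, Nat.cast_mul, Nat.cast_add, hb2,
      Nat.cast_ofNat])
    (by rw [hcast, hcast, hd]) rest 1 _ _ _ le_rfl (by rw [hcast, hM2])
    (by
      rw [hcast]
      simp only [Nat.mul_eq, Nat.add_eq, Nat.cast_mul, Nat.cast_add, hb2, Nat.cast_ofNat]
      rw [show 1 + 1 = 2 from rfl, mom_two', mom_one', ha]; ring)
    (fun h => absurd h (by norm_num)) h1
  rw [h2'] at hsound
  set m := mom X with hm
  -- the tables
  let M : ℕ → ℤ := fun j => ⌊b ^ j * m j⌋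
  let K : ℕ → ℤ := fun j => ⌊b ^ j * kap m j⌋
  have hM1 : M 1 = Int.ofNat a := by
    show ⌊b ^ 1 * m 1⌋ = _
    rw [hm, mom_one', pow_one, ← ha]
    simp only [Int.floor_natCast, Int.ofNat_eq_natCast]
  have hM2' : M 2 = Int.ofNat (Nat.mul a (Nat.add (Nat.mul 2 (Nat.pow 2 q)) a)) := by
    show ⌊b ^ 2 * m 2⌋ = _
    rw [hm, ← hM2]
    simp only [Int.floor_natCast, Int.ofNat_eq_natCast]
  have hlist : (Int.ofNat a :: Int.ofNat (Nat.mul a (Nat.add (Nat.mul 2 (Nat.pow 2 q)) a)) :: rest)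
      = tab 119 (fun i => M (i + 1)) := by
    rw [tab_succ 118, tab_succ 117, hsound.1, ← hM1, ← hM2']
    congr 2
  have hMr : ∀ j, 1 ≤ j → j ≤ 119 → (M j : ℝ) = b ^ j * m j := by
    intro j hj1 hj2
    rcases Nat.lt_or_ge j 3 with h | h
    · rcases Nat.lt_or_ge j 2 with h' | h'
      · have : j = 1 := by omega
        subst this
        rw [hM1, hcast, hm, mom_one', pow_one, ← ha]
      · have : j = 2 := by omega
        subst this
        rw [hM2', hcast, hM2]
    · have := hsound.2 (j - 3) (by omega)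
      rwa [show 1 + 2 + (j - 3) = j by omega] at this
  have hKr : ∀ j, (∃ v : ℤ, (v : ℝ) = b ^ j * kap m j) → (K j : ℝ) = b ^ j * kap m j := by
    rintro j ⟨v, hv⟩
    show ((⌊b ^ j * kap m j⌋ : ℤ) : ℝ) = _
    rw [← hv, Int.floor_intCast]
  have hloop := loopK_sound (m := m) (mom_zero' X) (b := b) M K 119 hMr hKr 119 0 (by omega)
    (fun j h1 h2 => absurd h1 (by omega))
  have hl1 : (tab 119 fun i => M (0 + 1 + i)) = tab 119 fun i => M (i + 1) :=
    tab_congr fun i _ => by rw [show 0 + 1 + i = i + 1 by omega]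
  rw [hl1] at hloop
  have hl2 : loopK (tab 119 fun i => M (i + 1)) (tab 119 fun i => M (i + 1)) [] []
      = tab 119 fun i => K (119 - i) := hloop.1
  rw [hlist, hl2] at h3'
  have hcode := code_tab 119 (fun i => K (119 - i)) (119 - n) (by omega)
  rw [h3', show 119 - (119 - n) = n by omega] at hcode
  have hKn := hloop.2 n hn hn2
  have hbn : 0 < b ^ n := by positivity
  constructor
  · intro hW
    rw [hW] at hcode
    have h5 : (0 : ℝ) < K n := by exact_mod_cast sg_pos hcode.symm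
    rw [hKn] at h5
    exact pos_of_mul_pos_right h5 hbn.le
  · intro hW
    rw [hW] at hcode
    have h5 : (K n : ℝ) < 0 := by exact_mod_cast sg_neg hcode.symm
    rw [hKn] at h5
    by_contra hc
    push Not at hc
    exact absurd h5 (not_lt.2 (mul_nonneg hbn.le hc))

end F1

end

end Pool.Agent.Lib_MP_1dbf07_co
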