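import Pool.Agent.Lib_MP_1dbf07_co.R0
import Pool.Agent.Lib_MP_1dbf07_co.C2a
import Pool.Agent.Lib_MP_1dbf07_co.F1b

namespace Pool.Agent.Lib_MP_1dbf07_co

open MeasureTheory Set Filter Topology
open scoped Real Nat PowerSeries

noncomputable section

namespace C3

open F1

/-- Partial sums of the exponential series with integer data. -/
def ev (u v : Int) (l : List Int) : Nat → Int → Int → Int :=
  List.rec (motive := fun _ => Nat → Int → Int → Int) (fun _ A _ => A)
    (fun M _ ih n A U =>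
      forceZ (Int.mul U u) fun U' =>
      forceZ (Int.add (Int.mul A (Int.mul v (Int.ofNat (Nat.succ n)))) (Int.mul M U')) fun A' =>
      ih (Nat.succ n) A' U') l

theorem ev_cons (u v M : Int) (l : List Int) (n : Nat) (A U : Int) :
    ev u v (M :: l) n A U
      = ev u v l (n + 1) (A * (v * ((n + 1 : ℕ) : ℤ)) + M * (U * u)) (U * u) := by
  show forceZ (Int.mul U u) (fun U' => forceZ (Int.add (Int.mul A (Int.mul v
    (Int.ofNat (Nat.succ n)))) (Int.mul M U')) fun A' => ev u v l (Nat.succ n) A' U') = _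
  rw [forceZ_eq, forceZ_eq]
  rfl

theorem ev_sound {u v : ℤ} (hv : (v : ℝ) ≠ 0) (m : ℕ → ℝ) (b : ℝ) (M : ℕ → ℤ)
    (r : ℕ) : ∀ (n : ℕ) (A U : ℤ), (U : ℝ) = (u : ℝ) ^ n →
      (A : ℝ) = (v : ℝ) ^ n * (n ! : ℝ) *
        ∑ j ∈ Finset.range (n + 1), m j / (j ! : ℝ) * (b * u / v) ^ j →
      (∀ j, n < j → j ≤ n + r → (M j : ℝ) = b ^ j * m j) →
      ((ev u v (tab r fun i => M (n + 1 + i)) n A U : ℤ) : ℝ)
        = (v : ℝ) ^ (n + r) * ((n + r)! : ℝ) *
        ∑ j ∈ Finset.range (n + r + 1), m j / (j ! : ℝ) * (b * u / v) ^ j := by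
  induction r with
  | zero => intro n A U hU hA _; exact hA
  | succ r ih =>
    intro n A U hU hA hM
    rw [tab_succ, ev_cons]
    have e : (tab r fun i => M (n + 1 + (i + 1))) = tab r fun i => M (n + 1 + 1 + i) :=
      tab_congr fun i _ => by rw [show n + 1 + (i + 1) = n + 1 + 1 + i by omega]
    rw [e, show n + (r + 1) = n + 1 + r by omega]
    refine ih (n + 1) _ _ ?_ ?_ (fun j h1 h2 => hM j (by omega) (by omega))
    · push_cast; rw [hU, pow_succ]
    · push_cast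
      rw [hU, hA, add_zero, hM (n + 1) (by omega) (by omega), Finset.sum_range_succ _ (n + 1),
        Nat.factorial_succ]
      have h1 : (n ! : ℝ) ≠ 0 := by exact_mod_cast Nat.factorial_ne_zero n
      have h2 : ((n : ℝ) + 1) ≠ 0 := by positivity
      push_cast
      rw [div_pow, mul_pow]
      field_simp
      ring

/-- The kernel check. -/
def ok : Bool :=
  forceL (genM 1 300001 9999800001 78 1 200001 200002 0) fun rest =>
    and (chk 1 300001 9999800001 rest 1 200001 200002 0)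
    (and (Nat.beq (List.length rest) 78)
    (and (decide (ev 302 10000000 (1 :: 200001 :: rest) 0 1 1 * 100
      < 199 * (10000000 ^ 80 * Int.ofNat (Nat.factorial 80))))
      (decide (201 * (10000000 ^ 80 * Int.ofNat (Nat.factorial 80))
        < ev 304 10000000 (1 :: 200001 :: rest) 0 1 1 * 100))))

theorem ok_true : ok = true := by decide +kernel

theorem partial_sums :
    (∑ j ∈ Finset.range 81, mom (1 / 10 ^ 5) j / (j ! : ℝ) * (302 / 100) ^ j < 199 / 100) ∧
    (201 / 100 < ∑ j ∈ Finset.range 81, mom (1 / 10 ^ 5) j / (j ! : ℝ) * (304 / 100) ^ j) := by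
  have h := ok_true
  rw [ok, forceL_eq] at h
  simp only [Bool.and_eq_true, decide_eq_true_eq] at h
  set rest := genM 1 300001 9999800001 78 1 200001 200002 0 with hrest
  clear_value rest
  obtain ⟨h1, h2, h3, h4⟩ := h
  have h2' := Nat.eq_of_beq_eq_true h2
  have hsound := chk_sound (X := 1 / 10 ^ 5) (b := 10 ^ 5) (a := 1) (p := 300001)
    (d := 9999800001) (by norm_num) (by norm_num) (by norm_num) rest 1 200001 200002 0 le_rfl
    (by rw [show 1 + 1 = 2 from rfl, mom_two']; norm_num)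
    (by rw [show 1 + 1 = 2 from rfl, mom_two', mom_one']; norm_num)
    (fun h => absurd h (by norm_num)) h1
  rw [h2'] at hsound
  let M : ℕ → ℤ := fun j => ⌊((10 : ℝ) ^ 5) ^ j * mom (1 / 10 ^ 5) j⌋
  have hM1 : M 1 = 1 := by
    show ⌊((10 : ℝ) ^ 5) ^ 1 * mom (1 / 10 ^ 5) 1⌋ = _
    rw [mom_one']
    norm_num
  have hM2 : M 2 = 200001 := by
    show ⌊((10 : ℝ) ^ 5) ^ 2 * mom (1 / 10 ^ 5) 2⌋ = _
    rw [mom_two', show ((10 : ℝ) ^ 5) ^ 2 * (1 / 10 ^ 5 * (2 + 1 / 10 ^ 5)) = ((200001 : ℤ) : ℝ) by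
      norm_num, Int.floor_intCast]
  have hrest2 : rest = tab 78 (fun i => M (3 + i)) := hsound.1
  have hlist : (1 :: 200001 :: rest) = tab 80 (fun i => M (0 + 1 + i)) := by
    rw [tab_succ 79, tab_succ 78, hrest2]
    show _ = M 1 :: M 2 :: _
    rw [hM1, hM2]
    congr 2
  have hMr : ∀ j, 1 ≤ j → j ≤ 80 → (M j : ℝ) = ((10 : ℝ) ^ 5) ^ j * mom (1 / 10 ^ 5) j := by
    intro j hj1 hj2
    rcases Nat.lt_or_ge j 3 with h | h
    · rcases Nat.lt_or_ge j 2 with h' | h'
      · have : j = 1 := by omega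
        subst this
        rw [hM1, mom_one']
        norm_num
      · have : j = 2 := by omega
        subst this
        rw [hM2, mom_two']
        norm_num
    · have := hsound.2 (j - 3) (by omega)
      rwa [show 1 + 2 + (j - 3) = j by omega] at this
  have key : ∀ u : ℤ, ((ev u 10000000 (1 :: 200001 :: rest) 0 1 1 : ℤ) : ℝ)
      = (10000000 : ℝ) ^ 80 * (80 ! : ℝ) *
        ∑ j ∈ Finset.range 81, mom (1 / 10 ^ 5) j / (j ! : ℝ) * ((u : ℝ) / 100) ^ j := by
    intro u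
    have := ev_sound (u := u) (v := 10000000) (by norm_num) (mom (1 / 10 ^ 5)) ((10 : ℝ) ^ 5) M 80
      0 1 1 (by simp) (by simp [mom_zero']) (fun j h1 h2 => hMr j h1 (by omega))
    rw [hlist, this]
    norm_num only [Int.cast_ofNat]
    congr 1
    refine Finset.sum_congr rfl fun j _ => ?_
    congr 2
    ring
  have hpos : (0 : ℝ) < (10000000 : ℝ) ^ 80 * (80 ! : ℝ) := by positivity
  have hc : ((10000000 ^ 80 * Int.ofNat (Nat.factorial 80) : ℤ) : ℝ)
      = (10000000 : ℝ) ^ 80 * (80 ! : ℝ) := by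
    have : (Int.ofNat (Nat.factorial 80)) = ((80 ! : ℕ) : ℤ) := rfl
    rw [this, Int.cast_mul, Int.cast_pow, Int.cast_natCast, Int.cast_ofNat]
  constructor
  · have h5 : ((ev 302 10000000 (1 :: 200001 :: rest) 0 1 1 : ℤ) : ℝ) * 100
        < 199 * ((10000000 : ℝ) ^ 80 * (80 ! : ℝ)) := by
      rw [← hc]; exact_mod_cast h3
    rw [key 302] at h5
    have h6 : (((302 : ℤ) : ℝ) / 100) = 302 / 100 := by norm_num
    rw [h6] at h5
    nlinarith [h5, hpos]
  · have h5 : 201 * ((10000000 : ℝ) ^ 80 * (80 ! : ℝ))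
        < ((ev 304 10000000 (1 :: 200001 :: rest) 0 1 1 : ℤ) : ℝ) * 100 := by
      rw [← hc]; exact_mod_cast h4
    rw [key 304] at h5
    have h6 : (((304 : ℤ) : ℝ) / 100) = 304 / 100 := by norm_num
    rw [h6] at h5
    nlinarith [h5, hpos]

theorem tail_bound : ∑' k : ℕ, mom (1 / 10 ^ 5) (k + 81) / ((k + 81)! : ℝ) * (302 / 100) ^ (k + 81)
    ≤ 5 / 1000 := by
  have hX : (0 : ℝ) ≤ 1 / 10 ^ 5 := by positivity
  have hX1 : (1 : ℝ) / 10 ^ 5 ≤ 1 := by norm_num
  have hle : ∀ k : ℕ, mom (1 / 10 ^ 5) (k + 81) / ((k + 81)! : ℝ) * (302 / 100) ^ (k + 81)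
      ≤ (2416 / 100) ^ 81 / (81 ! : ℝ) * (1 / 3) ^ k := by
    intro k
    have h1 := C2a.mom_le hX hX1 (k + 81)
    have h2 : ((81 ! : ℕ) : ℝ) * (82 : ℝ) ^ k ≤ ((k + 81)! : ℝ) := by
      have := Nat.factorial_mul_pow_le_factorial (m := 81) (n := k)
      rw [show 81 + k = k + 81 by omega] at this
      exact_mod_cast this
    have h3 : (0 : ℝ) < ((81 ! : ℕ) : ℝ) := by exact_mod_cast Nat.factorial_pos 81
    have h4 : (0 : ℝ) < ((81 ! : ℕ) : ℝ) * (82 : ℝ) ^ k := by positivity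
    calc mom (1 / 10 ^ 5) (k + 81) / ((k + 81)! : ℝ) * (302 / 100) ^ (k + 81)
        ≤ 8 ^ (k + 81) / (((81 ! : ℕ) : ℝ) * (82 : ℝ) ^ k) * (302 / 100) ^ (k + 81) := by
          gcongr
      _ = (2416 / 100) ^ 81 / ((81 ! : ℕ) : ℝ) * ((2416 / 100) / 82) ^ k := by
          rw [div_mul_eq_mul_div, ← mul_pow, div_pow (2416 / 100 : ℝ), div_mul_div_comm,
            show (8 : ℝ) * (302 / 100) = 2416 / 100 by norm_num, pow_add, mul_comm
            ((2416 / 100 : ℝ) ^ k)]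
      _ ≤ (2416 / 100) ^ 81 / ((81 ! : ℕ) : ℝ) * (1 / 3) ^ k :=
          mul_le_mul_of_nonneg_left (pow_le_pow_left₀ (by norm_num) (by norm_num) k)
            (by positivity)
  have hs : Summable fun k : ℕ => (2416 / 100 : ℝ) ^ 81 / ((81 ! : ℕ) : ℝ) * (1 / 3) ^ k :=
    (summable_geometric_of_lt_one (by norm_num) (by norm_num)).mul_left _
  have hs' : Summable fun k : ℕ =>
      mom (1 / 10 ^ 5) (k + 81) / ((k + 81)! : ℝ) * (302 / 100) ^ (k + 81) :=
    (summable_nat_add_iff 81).2 (C2a.summable_R hX hX1 (302 / 100))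
  refine (hs'.tsum_le_tsum hle hs).trans ?_
  rw [tsum_mul_left, tsum_geometric_of_lt_one (by norm_num) (by norm_num)]
  norm_num [Nat.factorial]

end C3

/-- Numerical: `ρ(10⁻⁵) ∈ (3.02, 3.04)`. -/
theorem rho_bounds : egfR (mom (1 / 10 ^ 5)) (302 / 100) < 2 * (1 - 1 / 10 ^ 5) ∧
    2 * (1 - 1 / 10 ^ 5) < egfR (mom (1 / 10 ^ 5)) (304 / 100) := by
  have hX : (0 : ℝ) ≤ 1 / 10 ^ 5 := by positivity
  have hX1 : (1 : ℝ) / 10 ^ 5 ≤ 1 := by norm_num
  obtain ⟨h1, h2⟩ := C3.partial_sums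
  have h3 := C3.tail_bound
  constructor
  · rw [egfR, ← (C2a.summable_R hX hX1 (302 / 100)).sum_add_tsum_nat_add 81]
    exact lt_of_le_of_lt (add_le_add h1.le h3) (by norm_num)
  · have h4 := (C2a.summable_R hX hX1 (304 / 100)).sum_le_tsum (Finset.range 81) (fun n _ =>
      mul_nonneg (div_nonneg (C2a.mom_nonneg hX n) (by positivity)) (by positivity))
    rw [egfR]
    exact lt_of_lt_of_le (lt_trans (by norm_num) h2) h4

end

end Pool.Agent.Lib_MP_1dbf07_co
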