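import Pool.Agent.Lib_MP_1dbf07_co.B0

namespace Pool.Agent.Lib_MP_1dbf07_co

open MeasureTheory Set Filter Topology
open scoped Real Nat PowerSeries

noncomputable section

namespace D1

/-- The transform of `w - B`. -/
def Nn (ν : Measure ℝ) (B : ℝ) (z : ℂ) : ℂ := ∫ w : ℝ, Complex.exp (z * ((w - B : ℝ) : ℂ)) ∂ν

/-- Its derivative. -/
def Nd (ν : Measure ℝ) (B : ℝ) (z : ℂ) : ℂ :=
  ∫ w : ℝ, ((w - B : ℝ) : ℂ) * Complex.exp (z * ((w - B : ℝ) : ℂ)) ∂ν

/-- The transform of `w - B` on the real axis. -/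
def nr (ν : Measure ℝ) (B : ℝ) (x : ℝ) : ℝ := ∫ w : ℝ, Real.exp (x * (w - B)) ∂ν

variable {ν : Measure ℝ} {B : ℝ}

theorem supp (h : NuHyp ν B) : Supp ν (-(17 / 100)) B :=
  ⟨h.prob, h.supp.mono fun w hw => ⟨by linarith [hw.1], hw.2⟩⟩

theorem int_cont (h : NuHyp ν B) {g : ℝ → ℝ} (hg : Continuous g) : Integrable g ν :=
  (supp h).integrable_cont hg

theorem int_contC (h : NuHyp ν B) {g : ℝ → ℂ} (hg : Continuous g) : Integrable g ν := by
  have h1 : Integrable (fun w => ‖g w‖) ν := int_cont h hg.norm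
  exact h1.mono' hg.aestronglyMeasurable (Eventually.of_forall fun w => le_rfl)

theorem JJ_eq (z : ℂ) : JJ ν z = Complex.exp (B * z) * Nn ν B z := by
  unfold JJ Nn
  rw [← integral_const_mul]
  refine integral_congr_ae (Eventually.of_forall fun w => ?_)
  show Complex.exp (z * w) = Complex.exp (B * z) * Complex.exp (z * ((w - B : ℝ) : ℂ))
  rw [← Complex.exp_add]
  congr 1
  push_cast
  ring

theorem Jr_eq (x : ℝ) : Jr ν x = Real.exp (B * x) * nr ν B x := by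
  unfold Jr nr
  rw [← integral_const_mul]
  refine integral_congr_ae (Eventually.of_forall fun w => ?_)
  show Real.exp (x * w) = Real.exp (B * x) * Real.exp (x * (w - B))
  rw [← Real.exp_add]
  congr 1
  ring

theorem nr_pos (h : NuHyp ν B) (x : ℝ) : 0 < nr ν B x := by
  have h1 := Jr_pos (supp h) x
  rw [Jr_eq (B := B)] at h1
  exact (pos_iff_pos_of_mul_pos h1).1 (Real.exp_pos _)

theorem exp_shift (x w : ℝ) : Real.exp (x * (w - B)) = Real.exp (-(B * x)) * Real.exp (x * w) := by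
  rw [← Real.exp_add]
  congr 1
  ring

theorem nr_eq (x : ℝ) : nr ν B x = Real.exp (-(B * x)) * Jr ν x := by
  rw [Jr_eq (B := B), ← mul_assoc, ← Real.exp_add, neg_add_cancel, Real.exp_zero, one_mul]

theorem ev1 (h : NuHyp ν B) {x : ℝ} (hx : 3 ≤ x) :
    ∫ w, (B - w) * Real.exp (x * (w - B)) ∂ν ≤ 183 / 100 / x * nr ν B x := by
  have h1 : ∫ w, (B - w) * Real.exp (x * (w - B)) ∂ν =
      Real.exp (-(B * x)) * ∫ w, (B - w) * Real.exp (x * w) ∂ν := by
    rw [← integral_const_mul]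
    refine integral_congr_ae (Eventually.of_forall fun w => ?_)
    show (B - w) * Real.exp (x * (w - B)) = Real.exp (-(B * x)) * ((B - w) * Real.exp (x * w))
    rw [exp_shift]
    ring
  rw [h1, nr_eq]
  have h2 := mul_le_mul_of_nonneg_left (h.ev1 x hx) (Real.exp_pos (-(B * x))).le
  calc _ ≤ _ := h2
    _ = _ := by ring

theorem ev2 (h : NuHyp ν B) {x : ℝ} (hx : 3 ≤ x) :
    ∫ w, (B - w) ^ 2 * Real.exp (x * (w - B)) ∂ν ≤ 535 / 100 / x ^ 2 * nr ν B x := by
  have h1 : ∫ w, (B - w) ^ 2 * Real.exp (x * (w - B)) ∂ν =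
      Real.exp (-(B * x)) * ∫ w, (B - w) ^ 2 * Real.exp (x * w) ∂ν := by
    rw [← integral_const_mul]
    refine integral_congr_ae (Eventually.of_forall fun w => ?_)
    show (B - w) ^ 2 * Real.exp (x * (w - B)) =
      Real.exp (-(B * x)) * ((B - w) ^ 2 * Real.exp (x * w))
    rw [exp_shift]
    ring
  rw [h1, nr_eq]
  have h2 := mul_le_mul_of_nonneg_left (h.ev2 x hx) (Real.exp_pos (-(B * x))).le
  calc _ ≤ _ := h2
    _ = _ := by ring

theorem re_exp (z : ℂ) (v : ℝ) :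
    (Complex.exp (z * (v : ℂ))).re = Real.exp (z.re * v) * Real.cos (z.im * v) := by
  rw [Complex.exp_re]
  simp

theorem im_exp (z : ℂ) (v : ℝ) :
    (Complex.exp (z * (v : ℂ))).im = Real.exp (z.re * v) * Real.sin (z.im * v) := by
  rw [Complex.exp_im]
  simp

theorem norm_exp (z : ℂ) (v : ℝ) : ‖Complex.exp (z * (v : ℂ))‖ = Real.exp (z.re * v) := by
  rw [Complex.norm_exp]
  simp

theorem Nn_re (h : NuHyp ν B) (z : ℂ) :
    (Nn ν B z).re = ∫ w : ℝ, Real.exp (z.re * (w - B)) * Real.cos (z.im * (w - B)) ∂ν := by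
  unfold Nn
  have h1 : Integrable (fun w : ℝ => Complex.exp (z * ((w - B : ℝ) : ℂ))) ν :=
    int_contC h (by fun_prop)
  have h2 := integral_re h1
  simp only [RCLike.re_eq_complex_re] at h2
  rw [← h2]
  exact integral_congr_ae (Eventually.of_forall fun w => re_exp z (w - B))

theorem Nn_im (h : NuHyp ν B) (z : ℂ) :
    (Nn ν B z).im = ∫ w : ℝ, Real.exp (z.re * (w - B)) * Real.sin (z.im * (w - B)) ∂ν := by
  unfold Nn
  have h1 : Integrable (fun w : ℝ => Complex.exp (z * ((w - B : ℝ) : ℂ))) ν :=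
    int_contC h (by fun_prop)
  have h2 := integral_im h1
  simp only [RCLike.im_eq_complex_im] at h2
  rw [← h2]
  exact integral_congr_ae (Eventually.of_forall fun w => im_exp z (w - B))

theorem norm_Nn_le (z : ℂ) : ‖Nn ν B z‖ ≤ nr ν B z.re := by
  unfold Nn nr
  refine (norm_integral_le_integral_norm _).trans (le_of_eq ?_)
  exact integral_congr_ae (Eventually.of_forall fun w => norm_exp z (w - B))

theorem norm_Nd_le (h : NuHyp ν B) {z : ℂ} (hz : 3 ≤ z.re) :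
    ‖Nd ν B z‖ ≤ 183 / 100 / z.re * nr ν B z.re := by
  unfold Nd
  refine (norm_integral_le_integral_norm _).trans ((le_of_eq ?_).trans (ev1 h hz))
  refine integral_congr_ae (h.supp.mono fun w hw => ?_)
  show ‖((w - B : ℝ) : ℂ) * Complex.exp (z * ((w - B : ℝ) : ℂ))‖ = _
  rw [norm_mul, norm_exp, Complex.norm_real, Real.norm_eq_abs, abs_of_nonpos (by linarith [hw.2])]
  ring

/-- lower bound of the real part -/
theorem re_ge (h : NuHyp ν B) {z : ℂ} (hz : 3 ≤ z.re) :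
    (1 - z.im ^ 2 * (535 / 200 / z.re ^ 2)) * nr ν B z.re ≤ (Nn ν B z).re := by
  rw [Nn_re h]
  have h1 : ∫ w : ℝ, (Real.exp (z.re * (w - B)) -
      z.im ^ 2 / 2 * ((B - w) ^ 2 * Real.exp (z.re * (w - B)))) ∂ν ≤
      ∫ w : ℝ, Real.exp (z.re * (w - B)) * Real.cos (z.im * (w - B)) ∂ν := by
    refine integral_mono (int_cont h (by fun_prop)) (int_cont h (by fun_prop)) fun w => ?_
    show Real.exp (z.re * (w - B)) - z.im ^ 2 / 2 * ((B - w) ^ 2 * Real.exp (z.re * (w - B))) ≤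
      Real.exp (z.re * (w - B)) * Real.cos (z.im * (w - B))
    have h2 := Real.one_sub_sq_div_two_le_cos (x := z.im * (w - B))
    have h3 := mul_le_mul_of_nonneg_left h2 (Real.exp_pos (z.re * (w - B))).le
    refine le_trans (le_of_eq ?_) h3
    ring
  refine le_trans ?_ h1
  rw [integral_sub (int_cont h (by fun_prop)) (int_cont h (by fun_prop)), integral_const_mul]
  have h4 := mul_le_mul_of_nonneg_left (ev2 h hz) (by positivity : 0 ≤ z.im ^ 2 / 2)
  have h5 : nr ν B z.re = ∫ w : ℝ, Real.exp (z.re * (w - B)) ∂ν := rfl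
  rw [← h5]
  have h6 : z.im ^ 2 / 2 * (535 / 100 / z.re ^ 2 * nr ν B z.re) =
      z.im ^ 2 * (535 / 200 / z.re ^ 2) * nr ν B z.re := by ring
  linarith

/-- bound of the imaginary part -/
theorem im_abs_le (h : NuHyp ν B) {z : ℂ} (hz : 3 ≤ z.re) :
    |(Nn ν B z).im| ≤ |z.im| * (183 / 100 / z.re) * nr ν B z.re := by
  rw [Nn_im h]
  have h1 : |∫ w : ℝ, Real.exp (z.re * (w - B)) * Real.sin (z.im * (w - B)) ∂ν| ≤
      ∫ w : ℝ, |z.im| * ((B - w) * Real.exp (z.re * (w - B))) ∂ν := by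
    rw [← Real.norm_eq_abs]
    refine norm_integral_le_of_norm_le (int_cont h (by fun_prop)) (h.supp.mono fun w hw => ?_)
    rw [norm_mul, Real.norm_eq_abs, Real.norm_eq_abs, abs_of_pos (Real.exp_pos _)]
    have h2 := Real.abs_sin_le_abs (x := z.im * (w - B))
    rw [abs_mul, abs_of_nonpos (by linarith [hw.2] : w - B ≤ 0)] at h2
    have h3 := mul_le_mul_of_nonneg_left h2 (Real.exp_pos (z.re * (w - B))).le
    refine h3.trans (le_of_eq ?_)
    ring
  refine h1.trans ?_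
  rw [integral_const_mul]
  have h4 := mul_le_mul_of_nonneg_left (ev1 h hz) (abs_nonneg z.im)
  refine h4.trans (le_of_eq ?_)
  ring

theorem hasDerivAt_Nn (h : NuHyp ν B) (z : ℂ) : HasDerivAt (Nn ν B) (Nd ν B z) z := by
  have h1 : ProbabilityTheory.integrableExpSet (fun w : ℝ => w - B) ν = univ := by
    ext t
    simp only [mem_univ, iff_true]
    show Integrable (fun w : ℝ => Real.exp (t * (w - B))) ν
    exact int_cont h (by fun_prop)
  have h2 : z.re ∈ interior (ProbabilityTheory.integrableExpSet (fun w : ℝ => w - B) ν) := by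
    rw [h1, interior_univ]
    exact mem_univ _
  exact ProbabilityTheory.hasDerivAt_complexMGF h2

theorem nr_anti (h : NuHyp ν B) {x y : ℝ} (hxy : x ≤ y) : nr ν B y ≤ nr ν B x := by
  refine integral_mono_ae (int_cont h (by fun_prop)) (int_cont h (by fun_prop))
    (h.supp.mono fun w hw => ?_)
  show Real.exp (y * (w - B)) ≤ Real.exp (x * (w - B))
  refine Real.exp_le_exp.2 ?_
  nlinarith [hw.2]

/-- tilting: `N(ρ + d) ≥ e^{-d q} N(ρ)` with `q = 1.83/ρ` -/
theorem nr_lower (h : NuHyp ν B) {ρ d : ℝ} (hρ : 3 ≤ ρ) (hd : 0 ≤ d) :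
    Real.exp (-(d * (183 / 100 / ρ))) * nr ν B ρ ≤ nr ν B (ρ + d) := by
  set q : ℝ := 183 / 100 / ρ with hq
  have h1 : ∫ w : ℝ, Real.exp (-(d * q)) * ((1 + d * q) * Real.exp (ρ * (w - B)) -
      d * ((B - w) * Real.exp (ρ * (w - B)))) ∂ν ≤ nr ν B (ρ + d) := by
    refine integral_mono (int_cont h (by fun_prop)) (int_cont h (by fun_prop)) fun w => ?_
    show Real.exp (-(d * q)) * ((1 + d * q) * Real.exp (ρ * (w - B)) -
      d * ((B - w) * Real.exp (ρ * (w - B)))) ≤ Real.exp ((ρ + d) * (w - B))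
    have h2 := Real.add_one_le_exp (d * q - d * (B - w))
    have h3 : Real.exp ((ρ + d) * (w - B)) =
        Real.exp (-(d * q)) * Real.exp (ρ * (w - B)) * Real.exp (d * q - d * (B - w)) := by
      rw [← Real.exp_add, ← Real.exp_add]
      congr 1
      ring
    rw [h3]
    have h4 := mul_le_mul_of_nonneg_left h2
      (mul_pos (Real.exp_pos (-(d * q))) (Real.exp_pos (ρ * (w - B)))).le
    refine le_trans (le_of_eq ?_) h4
    ring
  refine le_trans ?_ h1
  rw [integral_const_mul, integral_sub (int_cont h (by fun_prop)) (int_cont h (by fun_prop)),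
    integral_const_mul, integral_const_mul]
  refine mul_le_mul_of_nonneg_left ?_ (Real.exp_pos _).le
  have h5 : nr ν B ρ = ∫ w : ℝ, Real.exp (ρ * (w - B)) ∂ν := rfl
  rw [← h5]
  have h6 := mul_le_mul_of_nonneg_left (ev1 h hρ) hd
  rw [← hq] at h6
  nlinarith

/-- The region: numerical consequences. -/
structure Reg (ν : Measure ℝ) (B : ℝ) (z : ℂ) : Prop where
  re_pos : 70 / 100 * nr ν B z.re ≤ (Nn ν B z).re
  nd_le : ‖Nd ν B z‖ ≤ 606 / 1000 * nr ν B z.re
  arg_le : |(Nn ν B z).arg| * (1 - z.im ^ 2 * (535 / 200 / z.re ^ 2)) ≤ z.im * (183 / 100 / z.re)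
  arg_lt : |(Nn ν B z).arg| ≤ 8658 / 10000

theorem s_le {x : ℝ} (hx : 302 / 100 ≤ x) : 535 / 200 / x ^ 2 ≤ 2934 / 10000 := by
  rw [div_le_iff₀ (by positivity)]
  nlinarith

theorem c_le {x : ℝ} (hx : 302 / 100 ≤ x) : 183 / 100 / x ≤ 606 / 1000 := by
  rw [div_le_iff₀ (by linarith)]
  nlinarith

theorem abs_arg_le {u : ℂ} (hu : 0 < u.re) : |u.arg| * u.re ≤ |u.im| := by
  have h1 : |u.arg| < π / 2 := Complex.abs_arg_lt_pi_div_two_iff.2 (Or.inl hu)
  have h2 := Real.le_tan (abs_nonneg u.arg) h1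
  have h3 : Real.tan |u.arg| = |u.im| / u.re := by
    rcases abs_cases u.arg with ⟨h4, h5⟩ | ⟨h4, h5⟩
    · rw [h4, Complex.tan_arg, abs_of_nonneg (Complex.arg_nonneg_iff.1 h5)]
    · rw [h4, Real.tan_neg, Complex.tan_arg, abs_of_neg (Complex.arg_neg_iff.1 h5)]
      ring
  rw [h3, le_div_iff₀ hu] at h2
  exact h2

theorem reg (h : NuHyp ν B) {z : ℂ} (hz : 302 / 100 ≤ z.re) (hy0 : 0 ≤ z.im) (hy1 : z.im ≤ 1) :
    Reg ν B z := by
  have hz3 : 3 ≤ z.re := by linarith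
  have hn := nr_pos h z.re
  have hs := s_le hz
  have hc := c_le hz
  have hs0 : 0 ≤ 535 / 200 / z.re ^ 2 := by positivity
  have hc0 : 0 ≤ 183 / 100 / z.re := by positivity
  have hy2 : z.im ^ 2 ≤ 1 := by nlinarith
  have h1 : z.im ^ 2 * (535 / 200 / z.re ^ 2) ≤ 2934 / 10000 := by
    calc _ ≤ 1 * (535 / 200 / z.re ^ 2) := mul_le_mul_of_nonneg_right hy2 hs0
      _ ≤ _ := by linarith
  have h2 : 7066 / 10000 * nr ν B z.re ≤ (Nn ν B z).re :=
    le_trans (mul_le_mul_of_nonneg_right (by linarith) hn.le) (re_ge h hz3)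
  have h3 : 0 < (Nn ν B z).re := lt_of_lt_of_le (by positivity) h2
  have h4 := abs_arg_le h3
  have h5 := im_abs_le h hz3
  rw [abs_of_nonneg hy0] at h5
  have h6 : |(Nn ν B z).arg| * (1 - z.im ^ 2 * (535 / 200 / z.re ^ 2)) ≤
      z.im * (183 / 100 / z.re) := by
    have h7 := mul_le_mul_of_nonneg_left (re_ge h hz3) (abs_nonneg (Nn ν B z).arg)
    have h8 : |(Nn ν B z).arg| * (1 - z.im ^ 2 * (535 / 200 / z.re ^ 2)) * nr ν B z.re ≤
        z.im * (183 / 100 / z.re) * nr ν B z.re := by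
      calc _ = |(Nn ν B z).arg| * ((1 - z.im ^ 2 * (535 / 200 / z.re ^ 2)) * nr ν B z.re) := by ring
        _ ≤ _ := h7
        _ ≤ _ := h4
        _ ≤ _ := h5
    exact le_of_mul_le_mul_right h8 hn
  refine ⟨?_, ?_, h6, ?_⟩
  · refine le_trans (mul_le_mul_of_nonneg_right (by norm_num) hn.le) h2
  · exact (norm_Nd_le h hz3).trans (mul_le_mul_of_nonneg_right hc hn.le)
  · have h9 : z.im * (183 / 100 / z.re) ≤ 606 / 1000 := by
      calc _ ≤ 1 * (183 / 100 / z.re) := mul_le_mul_of_nonneg_right hy1 hc0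
        _ ≤ _ := by linarith
    have h10 := mul_le_mul_of_nonneg_left
      (by linarith : 7066 / 10000 ≤ 1 - z.im ^ 2 * (535 / 200 / z.re ^ 2))
      (abs_nonneg (Nn ν B z).arg)
    linarith

/-- better bounds of the argument -/
theorem Reg.arg_num {z : ℂ} (hr : Reg ν B z) (hz : 302 / 100 ≤ z.re) (hy0 : 0 ≤ z.im) {y : ℝ}
    (hy : z.im ≤ y) (hy1 : y ≤ 1) :
    |(Nn ν B z).arg| * (1 - y ^ 2 * (2934 / 10000)) ≤ y * (606 / 1000) := by
  have hs := s_le hz
  have hc := c_le hz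
  have hs0 : 0 ≤ 535 / 200 / z.re ^ 2 := by positivity
  have hc0 : 0 ≤ 183 / 100 / z.re := by
    have : 0 < z.re := by linarith
    positivity
  have h1 : z.im ^ 2 * (535 / 200 / z.re ^ 2) ≤ y ^ 2 * (2934 / 10000) :=
    mul_le_mul (by nlinarith) hs hs0 (by positivity)
  have h2 : z.im * (183 / 100 / z.re) ≤ y * (606 / 1000) :=
    mul_le_mul hy hc hc0 (by linarith)
  have h3 := mul_le_mul_of_nonneg_left
      (by linarith : 1 - y ^ 2 * (2934 / 10000) ≤ 1 - z.im ^ 2 * (535 / 200 / z.re ^ 2))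
      (abs_nonneg (Nn ν B z).arg)
  exact h3.trans (hr.arg_le.trans h2)

theorem Reg.ne_zero {z : ℂ} (hr : Reg ν B z) (h : NuHyp ν B) : Nn ν B z ≠ 0 := by
  intro h0
  have h1 := hr.re_pos
  rw [h0, Complex.zero_re] at h1
  have := nr_pos h z.re
  linarith

/-- The domain. -/
def Dom (ρ : ℝ) : Set ℂ := {z | ρ ≤ z.re ∧ 0 ≤ z.im ∧ z.im ≤ 1}

theorem Dom_convex (ρ : ℝ) : Convex ℝ (Dom ρ) := by
  have h1 : Convex ℝ {z : ℂ | ρ ≤ z.re} := convex_halfSpace_re_ge ρ
  have h2 : Convex ℝ {z : ℂ | 0 ≤ z.im} := convex_halfSpace_im_ge 0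
  have h3 : Convex ℝ {z : ℂ | z.im ≤ 1} := convex_halfSpace_im_le 1
  exact h1.inter (h2.inter h3)

theorem Dom_closed (ρ : ℝ) : IsClosed (Dom ρ) := by
  have h1 : IsClosed {z : ℂ | ρ ≤ z.re} := isClosed_le continuous_const Complex.continuous_re
  have h2 : IsClosed {z : ℂ | 0 ≤ z.im} := isClosed_le continuous_const Complex.continuous_im
  have h3 : IsClosed {z : ℂ | z.im ≤ 1} := isClosed_le Complex.continuous_im continuous_const
  exact h1.inter (h2.inter h3)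

/-- The contraction. -/
def TT (ν : Measure ℝ) (B Y : ℝ) (z : ℂ) : ℂ :=
  (π * Complex.I - (Real.log Y : ℂ) - Complex.log (Nn ν B z)) / (B : ℂ)

theorem TT_re (Y : ℝ) (z : ℂ) :
    (TT ν B Y z).re = (-Real.log Y - Real.log ‖Nn ν B z‖) / B := by
  unfold TT
  rw [Complex.div_ofReal_re]
  simp [Complex.log_re]

theorem TT_im (Y : ℝ) (z : ℂ) : (TT ν B Y z).im = (π - (Nn ν B z).arg) / B := by
  unfold TT
  rw [Complex.div_ofReal_im]
  simp [Complex.log_im]

theorem TT_maps (h : NuHyp ν B) {Y ρ : ℝ} (hY : 0 < Y) (hρ : 302 / 100 ≤ ρ)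
    (hYρ : Y * Jr ν ρ = 1) : MapsTo (TT ν B Y) (Dom ρ) (Dom ρ) := by
  intro z hz
  obtain ⟨hz1, hz2, hz3⟩ := hz
  have hr := reg h (hρ.trans hz1) hz2 hz3
  have hB := h.Blo
  have hB0 : 0 < B := by linarith
  have hn := nr_pos h ρ
  refine ⟨?_, ?_, ?_⟩
  · rw [TT_re, le_div_iff₀ hB0]
    have h1 : Real.log Y + (B * ρ + Real.log (nr ν B ρ)) = 0 := by
      rw [Jr_eq (B := B)] at hYρ
      have h2 := congrArg Real.log hYρ
      rw [Real.log_mul hY.ne' (by positivity), Real.log_mul (Real.exp_pos _).ne' hn.ne',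
        Real.log_exp, Real.log_one] at h2
      exact h2
    have h3 : Real.log ‖Nn ν B z‖ ≤ Real.log (nr ν B ρ) :=
      Real.log_le_log (norm_pos_iff.2 (hr.ne_zero h)) ((norm_Nn_le z).trans (nr_anti h hz1))
    linarith
  · rw [TT_im]
    refine div_nonneg ?_ hB0.le
    have := hr.arg_lt
    have := le_abs_self (Nn ν B z).arg
    have := Real.pi_gt_three
    linarith
  · rw [TT_im, div_le_one hB0]
    have := hr.arg_lt
    have := neg_abs_le (Nn ν B z).arg
    have := Real.pi_lt_d2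
    linarith

theorem TT_lip (h : NuHyp ν B) {Y ρ : ℝ} (hρ : 302 / 100 ≤ ρ) :
    LipschitzOnWith (1 / 2) (TT ν B Y) (Dom ρ) := by
  have hB := h.Blo
  have hB0 : 0 < B := by linarith
  refine (Dom_convex ρ).lipschitzOnWith_of_nnnorm_hasDerivWithin_le
    (f' := fun z => -(Nd ν B z / Nn ν B z) / (B : ℂ)) ?_ ?_
  · intro z hz
    obtain ⟨hz1, hz2, hz3⟩ := hz
    have hr := reg h (hρ.trans hz1) hz2 hz3
    have hn := nr_pos h z.re
    have h1 : Nn ν B z ∈ Complex.slitPlane := Or.inl (by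
      have := hr.re_pos
      have : 0 < 70 / 100 * nr ν B z.re := by positivity
      linarith)
    have h2 := ((hasDerivAt_Nn h z).clog h1).const_sub (π * Complex.I - (Real.log Y : ℂ))
    exact (h2.div_const (B : ℂ)).hasDerivWithinAt
  · intro z hz
    obtain ⟨hz1, hz2, hz3⟩ := hz
    have hr := reg h (hρ.trans hz1) hz2 hz3
    have hn := nr_pos h z.re
    rw [← NNReal.coe_le_coe, coe_nnnorm, norm_div, norm_neg, norm_div, Complex.norm_real,
      Real.norm_eq_abs, abs_of_pos hB0]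
    have h3 : 70 / 100 * nr ν B z.re ≤ ‖Nn ν B z‖ :=
      hr.re_pos.trans ((le_abs_self _).trans (Complex.abs_re_le_norm _))
    have h4 : 0 < ‖Nn ν B z‖ := lt_of_lt_of_le (by positivity) h3
    rw [div_le_iff₀ hB0, div_le_iff₀ h4]
    have h5 := hr.nd_le
    have h6 : ((1 / 2 : NNReal) : ℝ) = 1 / 2 := by norm_num
    rw [h6]
    have h7 : ‖Nd ν B z‖ ≤ 1 / 2 * ‖Nn ν B z‖ * B := by
      have h8 : 1 / 2 * (70 / 100 * nr ν B z.re) * (5828 / 1000) ≤ 1 / 2 * ‖Nn ν B z‖ * B :=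
        mul_le_mul (by linarith) hB (by norm_num) (by positivity)
      linarith
    linarith

theorem TT_fix_zero (h : NuHyp ν B) {Y : ℝ} (hY : 0 < Y) {z : ℂ} (hN : Nn ν B z ≠ 0)
    (hT : TT ν B Y z = z) : 1 + Y * JJ ν z = 0 := by
  have hB := h.Blo
  have hB0 : (B : ℂ) ≠ 0 := by
    have : B ≠ 0 := by linarith
    exact_mod_cast this
  unfold TT at hT
  rw [div_eq_iff hB0] at hT
  have h1 : (B : ℂ) * z + Complex.log (Nn ν B z) + (Real.log Y : ℂ) = π * Complex.I := by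
    rw [mul_comm, ← hT]
    ring
  have h2 := congrArg Complex.exp h1
  rw [Complex.exp_add, Complex.exp_add, Complex.exp_log hN, Complex.exp_pi_mul_I,
    ← Complex.ofReal_exp, Real.exp_log hY] at h2
  rw [JJ_eq (B := B)]
  rw [mul_comm (Y : ℂ), h2]
  ring

theorem zero_fix (h : NuHyp ν B) {Y : ℝ} (hY : 0 < Y) {z : ℂ} (hz : 302 / 100 ≤ z.re)
    (hy0 : 0 ≤ z.im) (hy1 : z.im ≤ 1) (h0 : 1 + Y * JJ ν z = 0) : TT ν B Y z = z := by
  have hr := reg h hz hy0 hy1
  have hN := hr.ne_zero h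
  have hB := h.Blo
  have hB0 : (B : ℂ) ≠ 0 := by
    have : B ≠ 0 := by linarith
    exact_mod_cast this
  have h1 : Complex.exp ((B : ℂ) * z + Complex.log (Nn ν B z) + (Real.log Y : ℂ)) =
      Complex.exp (π * Complex.I) := by
    rw [Complex.exp_add, Complex.exp_add, Complex.exp_log hN, Complex.exp_pi_mul_I,
      ← Complex.ofReal_exp, Real.exp_log hY]
    rw [JJ_eq (B := B)] at h0
    linear_combination h0
  rw [Complex.exp_eq_exp_iff_exists_int] at h1
  obtain ⟨n, hn⟩ := h1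
  have h2 := congrArg Complex.im hn
  have e1 : ((B : ℂ) * z + Complex.log (Nn ν B z) + (Real.log Y : ℂ)).im =
      B * z.im + (Nn ν B z).arg := by
    simp [Complex.log_im]
  have e2 : ((π : ℂ) * Complex.I + n * (2 * π * Complex.I)).im = π + n * (2 * π) := by
    simp
  rw [e1, e2] at h2
  have h3 := hr.arg_lt
  have h4 := abs_le.1 h3
  have h5 := h.Bhi
  have h6 : B * z.im ≤ 58286 / 10000 * 1 := mul_le_mul h5 hy1 hy0 (by norm_num)
  have h7 : 0 ≤ B * z.im := mul_nonneg (by linarith) hy0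
  have hpi := Real.pi_gt_three
  have hn0 : n = 0 := by
    have a1 : (n : ℝ) < 1 := by
      by_contra hcon
      push Not at hcon
      nlinarith
    have a2 : (-1 : ℝ) < n := by
      by_contra hcon
      push Not at hcon
      nlinarith
    have a3 : n < 1 := by exact_mod_cast a1
    have a4 : -1 < n := by exact_mod_cast a2
    omega
  rw [hn0] at hn
  unfold TT
  rw [div_eq_iff hB0]
  have h8 : (π : ℂ) * Complex.I = (B : ℂ) * z + Complex.log (Nn ν B z) + (Real.log Y : ℂ) := by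
    rw [hn]
    simp
  rw [h8]
  ring

theorem exists_fix (h : NuHyp ν B) {Y ρ : ℝ} (hY : 0 < Y) (hρ : 302 / 100 ≤ ρ)
    (hYρ : Y * Jr ν ρ = 1) : ∃ ζ ∈ Dom ρ, TT ν B Y ζ = ζ := by
  have h1 : ContractingWith (1 / 2) ((TT_maps h hY hρ hYρ).restrict (TT ν B Y) (Dom ρ) (Dom ρ)) :=
    ⟨by
      rw [← NNReal.coe_lt_coe]
      norm_num, (TT_lip h hρ).mapsToRestrict (TT_maps h hY hρ hYρ)⟩
  have h2 : (ρ : ℂ) ∈ Dom ρ := by
    refine ⟨?_, ?_, ?_⟩ <;> simp
  obtain ⟨ζ, hζ, hfix, -⟩ := ContractingWith.exists_fixedPoint' (Dom_closed ρ).isComplete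
    (TT_maps h hY hρ hYρ) h1 h2 (edist_ne_top _ _)
  exact ⟨ζ, hζ, hfix⟩

theorem fix_unique (h : NuHyp ν B) {Y ρ : ℝ} (hρ : 302 / 100 ≤ ρ) {z ζ : ℂ}
    (hz : z ∈ Dom ρ) (hζ : ζ ∈ Dom ρ) (h1 : TT ν B Y z = z) (h2 : TT ν B Y ζ = ζ) : z = ζ := by
  have h3 := (TT_lip h hρ (Y := Y)).dist_le_mul z hz ζ hζ
  rw [h1, h2] at h3
  have h4 : ((1 / 2 : NNReal) : ℝ) = 1 / 2 := by norm_num
  rw [h4] at h3
  have h5 := dist_nonneg (x := z) (y := ζ)
  exact dist_eq_zero.1 (by linarith)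

theorem zero_re (h : NuHyp ν B) {Y ρ : ℝ} (hY : 0 < Y) (hYρ : Y * Jr ν ρ = 1) {z : ℂ}
    (h0 : 1 + Y * JJ ν z = 0) : ρ ≤ z.re := by
  by_contra hcon
  push Not at hcon
  have h1 : Y * ‖JJ ν z‖ = 1 := by
    have h2 : (Y : ℂ) * JJ ν z = -1 := by linear_combination h0
    have h3 := congrArg norm h2
    rw [norm_mul, Complex.norm_real, Real.norm_eq_abs, abs_of_pos hY, norm_neg, norm_one] at h3
    exact h3
  have h2 := norm_JJ_le (supp h) z
  have h3 := Jr_le_left (supp h) (x := ρ) (t := ρ - z.re) (by linarith)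
  rw [sub_sub_cancel] at h3
  have h4 : Real.exp (-(17 / 100) * (ρ - z.re)) < 1 := by
    rw [Real.exp_lt_one_iff]
    nlinarith
  have h5 := Jr_pos (supp h) ρ
  have h6 : Jr ν z.re < Jr ν ρ := by
    calc _ ≤ _ := h3
      _ < 1 * Jr ν ρ := mul_lt_mul_of_pos_right h4 h5
      _ = _ := one_mul _
  have h7 : Y * ‖JJ ν z‖ < Y * Jr ν ρ := mul_lt_mul_of_pos_left (h2.trans_lt h6) hY
  linarith

theorem deriv_ne (h : NuHyp ν B) {z : ℂ} (hr : Reg ν B z) : deriv (JJ ν) z ≠ 0 := by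
  have hB := h.Blo
  have hn := nr_pos h z.re
  have h1 : JJ ν = fun z => Complex.exp (B * z) * Nn ν B z := funext fun z => JJ_eq z
  have h2 : HasDerivAt (fun z : ℂ => Complex.exp (B * z)) (Complex.exp (B * z) * B) z := by
    have h3 : HasDerivAt (fun z : ℂ => (B : ℂ) * z) (B : ℂ) z := by
      simpa using (hasDerivAt_id z).const_mul (B : ℂ)
    exact h3.cexp
  have h4 := h2.mul (hasDerivAt_Nn h z)
  rw [h1]
  have h5 : deriv (fun z : ℂ => Complex.exp (B * z) * Nn ν B z) z =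
      Complex.exp (B * z) * B * Nn ν B z + Complex.exp (B * z) * Nd ν B z := h4.deriv
  rw [h5]
  have h6 : Complex.exp (B * z) * B * Nn ν B z + Complex.exp (B * z) * Nd ν B z =
      Complex.exp (B * z) * (B * Nn ν B z + Nd ν B z) := by ring
  rw [h6]
  refine mul_ne_zero (Complex.exp_ne_zero _) fun h7 => ?_
  have h8 : (B : ℂ) * Nn ν B z = -Nd ν B z := by linear_combination h7
  have h9 := congrArg norm h8
  rw [norm_mul, Complex.norm_real, Real.norm_eq_abs, abs_of_pos (by linarith), norm_neg] at h9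
  have h10 : 70 / 100 * nr ν B z.re ≤ ‖Nn ν B z‖ :=
    hr.re_pos.trans ((le_abs_self _).trans (Complex.abs_re_le_norm _))
  have h11 := hr.nd_le
  have h12 : 5828 / 1000 * (70 / 100 * nr ν B z.re) ≤ B * ‖Nn ν B z‖ :=
    mul_le_mul hB h10 (by positivity) (by linarith)
  linarith

/-- bounds of the imaginary part of the fixed point -/
theorem im_bound (h : NuHyp ν B) {Y ρ : ℝ} (hρ : 302 / 100 ≤ ρ) {ζ : ℂ} (hζ : ζ ∈ Dom ρ)
    (hfix : TT ν B Y ζ = ζ) : B * ζ.im ≤ π + |(Nn ν B ζ).arg| ∧ ζ.im ≤ 6106 / 10000 := by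
  obtain ⟨hz1, hz2, hz3⟩ := hζ
  have hr := reg h (hρ.trans hz1) hz2 hz3
  have hB := h.Blo
  have hB0 : 0 < B := by linarith
  have h1 : B * ζ.im ≤ π + |(Nn ν B ζ).arg| := by
    have h2 := congrArg Complex.im hfix
    rw [TT_im, div_eq_iff hB0.ne'] at h2
    have := neg_abs_le (Nn ν B ζ).arg
    linarith
  have hpi := Real.pi_lt_d4
  have h2 : 5828 / 1000 * ζ.im ≤ B * ζ.im := mul_le_mul_of_nonneg_right hB hz2
  have hz := hρ.trans hz1
  have k0 : ζ.im ≤ 6863 / 10000 := by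
    have := hr.arg_num hz hz2 hz3 le_rfl
    norm_num at this
    linarith
  have k1 : ζ.im ≤ 6219 / 10000 := by
    have := hr.arg_num hz hz2 k0 (by norm_num)
    norm_num at this
    linarith
  have k2 : ζ.im ≤ 612 / 1000 := by
    have := hr.arg_num hz hz2 k1 (by norm_num)
    norm_num at this
    linarith
  have k3 : ζ.im ≤ 6106 / 10000 := by
    have := hr.arg_num hz hz2 k2 (by norm_num)
    norm_num at this
    linarith
  exact ⟨h1, k3⟩

theorem im_le_aux (h : NuHyp ν B) {Y ρ : ℝ} (hρ : 302 / 100 ≤ ρ) {ζ : ℂ} (hζ : ζ ∈ Dom ρ)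
    (hfix : TT ν B Y ζ = ζ) : ζ.im ≤ π / (B - 206 / 100 / ρ) := by
  obtain ⟨h1, h2⟩ := im_bound h hρ hζ hfix
  obtain ⟨hz1, hz2, hz3⟩ := hζ
  have hr := reg h (hρ.trans hz1) hz2 hz3
  have hB := h.Blo
  have hρ0 : 0 < ρ := by linarith
  have hx0 : 0 < ζ.re := by linarith
  have hq : 206 / 100 / ρ ≤ 1 := by
    rw [div_le_one hρ0]
    linarith
  rw [le_div_iff₀ (by linarith)]
  have hs := s_le (hρ.trans hz1)
  have hs0 : 0 ≤ 535 / 200 / ζ.re ^ 2 := by positivity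
  have h3 : ζ.im ^ 2 * (535 / 200 / ζ.re ^ 2) ≤ (6106 / 10000) ^ 2 * (2934 / 10000) :=
    mul_le_mul (by nlinarith) hs hs0 (by positivity)
  have h4 := mul_le_mul_of_nonneg_left
    (by linarith : 1 - (6106 / 10000) ^ 2 * (2934 / 10000) ≤
      1 - ζ.im ^ 2 * (535 / 200 / ζ.re ^ 2)) (abs_nonneg (Nn ν B ζ).arg)
  have h5 := h4.trans hr.arg_le
  have h6 : 183 / 100 / ζ.re ≤ 183 / 100 / ρ :=
    div_le_div_of_nonneg_left (by norm_num) hρ0 hz1
  have h7 : ζ.im * (183 / 100 / ζ.re) ≤ ζ.im * (183 / 100 / ρ) :=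
    mul_le_mul_of_nonneg_left h6 hz2
  have h8 : 206 / 100 / ρ = 206 / 183 * (183 / 100 / ρ) := by ring
  have h9 : 0 ≤ ζ.im * (183 / 100 / ρ) := by positivity
  have h10 : |(Nn ν B ζ).arg| ≤ ζ.im * (206 / 100 / ρ) := by
    rw [h8]
    norm_num at h5
    linarith
  linarith

theorem normSq_aux (h : NuHyp ν B) {Y ρ : ℝ} (hY : 0 < Y) (hρ : 302 / 100 ≤ ρ)
    (hYρ : Y * Jr ν ρ = 1) {ζ : ℂ} (hζ : ζ ∈ Dom ρ) (hfix : TT ν B Y ζ = ζ) :
    ζ.re ^ 2 + ζ.im ^ 2 ≤ ρ ^ 2 + 52 / 100 := by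
  obtain ⟨-, h2⟩ := im_bound h hρ hζ hfix
  obtain ⟨hz1, hz2, hz3⟩ := hζ
  have hx := hρ.trans hz1
  have hr := reg h hx hz2 hz3
  have hB := h.Blo
  have hρ0 : 0 < ρ := by linarith
  have hx0 : 0 < ζ.re := by linarith
  have h0 := TT_fix_zero h hY (hr.ne_zero h) hfix
  set d : ℝ := ζ.re - ρ with hd
  have hd0 : 0 ≤ d := by linarith
  have hxd : ζ.re = ρ + d := by ring
  set s : ℝ := ζ.im ^ 2 * (535 / 200 / ζ.re ^ 2) with hs
  have hs1 : s ≤ 10026 / 10000 / ρ ^ 2 := by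
    have e1 : ζ.im ^ 2 ≤ (6106 / 10000) ^ 2 := by nlinarith
    have e2 : 535 / 200 / ζ.re ^ 2 ≤ 535 / 200 / ρ ^ 2 :=
      div_le_div_of_nonneg_left (by norm_num) (by positivity) (by nlinarith)
    calc s ≤ (6106 / 10000) ^ 2 * (535 / 200 / ρ ^ 2) :=
          mul_le_mul e1 e2 (by positivity) (by positivity)
      _ = ((6106 / 10000) ^ 2 * (535 / 200)) / ρ ^ 2 := by ring
      _ ≤ _ := div_le_div_of_nonneg_right (by norm_num) (by positivity)
  have hs2 : s ≤ 11 / 100 := by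
    refine hs1.trans ?_
    rw [div_le_iff₀ (by positivity)]
    nlinarith
  have hs0 : 0 ≤ s := by positivity
  have h3 : Y * ‖JJ ν ζ‖ = 1 := by
    have h4 : (Y : ℂ) * JJ ν ζ = -1 := by linear_combination h0
    have h5 := congrArg norm h4
    rw [norm_mul, Complex.norm_real, Real.norm_eq_abs, abs_of_pos hY, norm_neg, norm_one] at h5
    exact h5
  have h4 : ‖JJ ν ζ‖ = Jr ν ρ := by
    have h5 : Y * ‖JJ ν ζ‖ = Y * Jr ν ρ := by rw [h3, hYρ]
    exact mul_left_cancel₀ hY.ne' h5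
  rw [JJ_eq (B := B), norm_mul, Complex.norm_exp, Jr_eq (B := B)] at h4
  have e3 : ((B : ℂ) * ζ).re = B * ζ.re := by simp
  rw [e3] at h4
  have hn := nr_pos h ρ
  have h5 : (1 - s) * nr ν B ζ.re ≤ ‖Nn ν B ζ‖ :=
    (re_ge h (by linarith)).trans ((le_abs_self _).trans (Complex.abs_re_le_norm _))
  have h6 := nr_lower h (ρ := ρ) (d := d) (by linarith) hd0
  rw [← hxd] at h6
  have h7 : Real.exp (B * ζ.re) * ((1 - s) * (Real.exp (-(d * (183 / 100 / ρ))) * nr ν B ρ)) ≤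
      Real.exp (B * ρ) * nr ν B ρ := by
    rw [← h4]
    refine mul_le_mul_of_nonneg_left ?_ (Real.exp_pos _).le
    exact (mul_le_mul_of_nonneg_left h6 (by linarith)).trans h5
  have h8 : Real.exp (B * ζ.re) * ((1 - s) * (Real.exp (-(d * (183 / 100 / ρ))) * nr ν B ρ)) =
      (1 - s) * Real.exp (d * (B - 183 / 100 / ρ)) * (Real.exp (B * ρ) * nr ν B ρ) := by
    have e4 : Real.exp (B * ζ.re) * Real.exp (-(d * (183 / 100 / ρ))) =
        Real.exp (d * (B - 183 / 100 / ρ)) * Real.exp (B * ρ) := by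
      rw [← Real.exp_add, ← Real.exp_add, hxd]
      congr 1
      ring
    calc _ = (1 - s) * (Real.exp (B * ζ.re) * Real.exp (-(d * (183 / 100 / ρ)))) * nr ν B ρ := by
          ring
      _ = _ := by rw [e4]; ring
  rw [h8] at h7
  have hpos : 0 < Real.exp (B * ρ) * nr ν B ρ := by positivity
  have h9 : (1 - s) * Real.exp (d * (B - 183 / 100 / ρ)) ≤ 1 := by
    by_contra hcon
    push Not at hcon
    have := mul_lt_mul_of_pos_right hcon hpos
    linarith
  have h10 := Real.add_one_le_exp (d * (B - 183 / 100 / ρ))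
  have h11 : (1 - s) * (d * (B - 183 / 100 / ρ) + 1) ≤ 1 :=
    (mul_le_mul_of_nonneg_left h10 (by linarith)).trans h9
  have hc : 183 / 100 / ρ ≤ 606 / 1000 := c_le hρ
  have h12 : (1 - s) * (d * (5222 / 1000)) ≤ s := by
    have e5 : d * (5222 / 1000) ≤ d * (B - 183 / 100 / ρ) :=
      mul_le_mul_of_nonneg_left (by linarith) hd0
    have e6 := mul_le_mul_of_nonneg_left e5 (by linarith : 0 ≤ 1 - s)
    linarith
  have h13 : d * (464758 / 100000) ≤ s := by
    have e7 : (89 / 100) * (d * (5222 / 1000)) ≤ (1 - s) * (d * (5222 / 1000)) :=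
      mul_le_mul_of_nonneg_right (by linarith) (by positivity)
    linarith
  have h14 : d * ρ ^ 2 ≤ 2158 / 10000 := by
    have e8 := h13.trans hs1
    rw [le_div_iff₀ (by positivity)] at e8
    linarith
  have h15 : d * ρ ≤ 715 / 10000 := by
    have e9 : d * ρ * (302 / 100) ≤ d * ρ ^ 2 := by
      have := mul_le_mul_of_nonneg_left hρ (by positivity : 0 ≤ d * ρ)
      linarith
    linarith
  have h16 : d ≤ 237 / 10000 := by
    have e10 : d * (302 / 100) ≤ d * ρ := mul_le_mul_of_nonneg_left hρ hd0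
    linarith
  have h17 : ζ.re ^ 2 = ρ ^ 2 + 2 * (d * ρ) + d ^ 2 := by
    rw [hxd]
    ring
  have h18 : d ^ 2 ≤ (237 / 10000) ^ 2 := by nlinarith
  have h19 : ζ.im ^ 2 ≤ (6106 / 10000) ^ 2 := by nlinarith
  rw [h17]
  norm_num at h18 h19
  linarith

end D1

/-- The first zero of `1 + Y J`, by a contraction. -/
theorem exists_firstZero {ν : Measure ℝ} {B : ℝ} (h : NuHyp ν B) {Y ρ : ℝ} (hY : 0 < Y)
    (hρ : 302 / 100 ≤ ρ) (hYρ : Y * Jr ν ρ = 1) : ∃ ζ : ℂ, FirstZero ν B Y ρ ζ := by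
  obtain ⟨ζ, hζ, hfix⟩ := D1.exists_fix h hY hρ hYρ
  have hr := D1.reg h (hρ.trans hζ.1) hζ.2.1 hζ.2.2
  have hB := h.Blo
  have hB0 : 0 < B := by linarith
  refine ⟨ζ, hζ.1, ?_, D1.im_le_aux h hρ hζ hfix, ?_, D1.normSq_aux h hY hρ hYρ hζ hfix,
    D1.TT_fix_zero h hY (hr.ne_zero h) hfix, D1.deriv_ne h hr,
    fun z hz => D1.zero_re h hY hYρ hz, ?_⟩
  · have h2 := congrArg Complex.im hfix
    rw [D1.TT_im] at h2
    rw [← h2]
    refine div_pos ?_ hB0
    have := hr.arg_lt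
    have := le_abs_self (D1.Nn ν B ζ).arg
    have := Real.pi_gt_three
    linarith
  · have := (D1.im_bound h hρ hζ hfix).2
    linarith
  · intro z hz hz0 hz1
    have hzr := D1.zero_re h hY hYρ hz
    exact D1.fix_unique h hρ ⟨hzr, hz0, hz1⟩ hζ
      (D1.zero_fix h hY (hρ.trans hzr) hz0 hz1 hz) hfix

end

end Pool.Agent.Lib_MP_1dbf07_co
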