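import Mathlib

/-!
# Real roots of a Schroeder type descent polynomial (MP_1dbf07_co): definitions

`X = -x > 0` throughout; see `Blueprint.md` in this folder.
-/

namespace Pool.Agent.Lib_MP_1dbf07_co

open MeasureTheory Set Filter Topology
open scoped Real Nat PowerSeries

noncomputable section

/-! ### Sequences, exponential generating series, cumulants -/

/-- The exponential generating series of a real sequence. -/
def eps (m : ℕ → ℝ) : PowerSeries ℝ := PowerSeries.mk fun n => m n / (n ! : ℝ)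

/-- The cumulants of a real sequence `m` (with `m 0 = 1`):
`∑ κ_{n+1} z^n / n! = M' / M`, `M = ∑ m_n z^n / n!`. -/
def kap (m : ℕ → ℝ) (n : ℕ) : ℝ :=
  ((n - 1)! : ℝ) * PowerSeries.coeff (n - 1) (PowerSeries.derivative ℝ (eps m) * (eps m)⁻¹)

/-- The entire function `∑ m_n z^n / n!`. -/
def egf (m : ℕ → ℝ) (z : ℂ) : ℂ := ∑' n : ℕ, ((m n / (n ! : ℝ) : ℝ) : ℂ) * z ^ n

/-- The same on the real axis. -/
def egfR (m : ℕ → ℝ) (x : ℝ) : ℝ := ∑' n : ℕ, m n / (n ! : ℝ) * x ^ n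

/-- Its real derivative. -/
def egfR' (m : ℕ → ℝ) (x : ℝ) : ℝ := ∑' n : ℕ, m (n + 1) / (n ! : ℝ) * x ^ n

/-! ### The moments `m_n(X)` (`X = -x > 0`) -/

/-- The sequence `f_n(X)`: `f = z + (1+X) z f + f² + X z f²`. -/
def fs (X : ℝ) : ℕ → ℝ
  | 0 => 0
  | 1 => 1
  | (n + 2) => (1 + X) * fs X (n + 1)
      + ∑ i : Fin (n + 1), fs X (i.1 + 1) * fs X (n + 1 - i.1)
      + X * ∑ i : Fin n, fs X (i.1 + 1) * fs X (n - i.1)
termination_by n => n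
decreasing_by all_goals omega

/-- The moments `m_0 = 1`, `m_n(X) = X f_n(X)`. -/
def mom (X : ℝ) (n : ℕ) : ℝ := if n = 0 then 1 else X * fs X n

/-- `c = sqrt (8 (1+X))`. -/
def cX (X : ℝ) : ℝ := √(8 * (1 + X))

/-- The right end point of the support, `B = 3 + X + c`. -/
def BX (X : ℝ) : ℝ := 3 + X + cX X

/-- `τ = sqrt (2/(1+X))`, so that `X = 2/τ² - 1`. -/
def tauX (X : ℝ) : ℝ := √(2 / (1 + X))

/-- Moments of the normalised variable `u = (w - (3+X))/c`, a polynomial in `τ`: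
`∑_{i+2l=n} (-τ)^i (i+1) (2 - 2^{-i}) n! / (2^n l! (i+1+l)!)`. -/
def hF (τ : ℝ) (n : ℕ) : ℝ :=
  ∑ l ∈ Finset.range (n / 2 + 1),
    (-τ) ^ (n - 2 * l) * ((n - 2 * l : ℕ) + 1 : ℝ) * (2 - (1 / 2) ^ (n - 2 * l)) * (n ! : ℝ)
      / (2 ^ n * (l ! : ℝ) * ((n - 2 * l + 1 + l)! : ℝ))

/-- Moments of the shifted semicircle. -/
def Csc (X : ℝ) (n : ℕ) : ℝ :=
  2 / π * ∫ θ in (0 : ℝ)..π, Real.sin θ ^ 2 * (3 + X + cX X * Real.cos θ) ^ n

/-- The functional `I_q(u^n)`. -/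
def Iq (q : ℝ) (n : ℕ) : ℝ :=
  2 / π * (∫ θ in (0 : ℝ)..π, Real.sin θ ^ 2 * Real.cos θ ^ n / (1 + q ^ 2 + 2 * q * Real.cos θ))
    + (if 1 < q then (1 - 1 / q ^ 2) * (-(q + 1 / q) / 2) ^ n else 0)

/-- Its explicit value, `∑_{i+2l=n} (-q)^i (i+1) n! / (2^n l! (i+1+l)!)`. -/
def Sq (q : ℝ) (n : ℕ) : ℝ :=
  ∑ l ∈ Finset.range (n / 2 + 1),
    (-q) ^ (n - 2 * l) * ((n - 2 * l : ℕ) + 1 : ℝ) * (n ! : ℝ)
      / (2 ^ n * (l ! : ℝ) * ((n - 2 * l + 1 + l)! : ℝ))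

/-! ### The measure `P_τ`, `0 ≤ τ < √2` -/

/-- Density in `θ ∈ (0,π)`. -/
def dens (τ θ : ℝ) : ℝ :=
  (2 - τ ^ 2) / π * Real.sin θ ^ 2 /
    ((1 + τ ^ 2 + 2 * τ * Real.cos θ) * (1 + τ ^ 2 / 4 + τ * Real.cos θ))

/-- Mass of the atom. -/
def atomMass (τ : ℝ) : ℝ := if 1 < τ then 2 - 2 / τ ^ 2 else 0

/-- Position of the atom. -/
def atomLoc (τ : ℝ) : ℝ := -(τ + 1 / τ) / 2

/-- The law of `u`. -/
def Pm (τ : ℝ) : Measure ℝ :=
  ENNReal.ofReal (atomMass τ) • Measure.dirac (atomLoc τ) +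
    ((volume.restrict (Ioo 0 π)).withDensity
      (fun θ => ENNReal.ofReal (dens τ θ))).map Real.cos

/-! ### Measures with compact support and their transforms -/

/-- A probability measure on `[-a,b]`. -/
structure Supp (μ : Measure ℝ) (a b : ℝ) : Prop where
  prob : IsProbabilityMeasure μ
  supp : ∀ᵐ w ∂μ, -a ≤ w ∧ w ≤ b

/-- The moments. -/
def mo (μ : Measure ℝ) (n : ℕ) : ℝ := ∫ w, w ^ n ∂μ

/-- `J(z) = ∫ e^{zw} dν(w)`. -/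
def JJ (ν : Measure ℝ) (z : ℂ) : ℂ := ∫ w : ℝ, Complex.exp (z * w) ∂ν

/-- `∫ e^{xw} dν(w)` for real `x`. -/
def Jr (ν : Measure ℝ) (x : ℝ) : ℝ := ∫ w, Real.exp (x * w) ∂ν

/-- `∫ w e^{xw} dν(w)` for real `x`. -/
def Jr' (ν : Measure ℝ) (x : ℝ) : ℝ := ∫ w, w * Real.exp (x * w) ∂ν

/-- Everything used about the absolutely continuous part `ν` of `μ_X` for small `X`. -/
structure NuHyp (ν : Measure ℝ) (B : ℝ) : Prop where
  prob : IsProbabilityMeasure ν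
  supp : ∀ᵐ w ∂ν, 17 / 100 ≤ w ∧ w ≤ B
  Blo : 5828 / 1000 ≤ B
  Bhi : B ≤ 58286 / 10000
  ev1 : ∀ x : ℝ, 3 ≤ x → ∫ w, (B - w) * Real.exp (x * w) ∂ν ≤ 183 / 100 / x * Jr ν x
  ev2 : ∀ x : ℝ, 3 ≤ x → ∫ w, (B - w) ^ 2 * Real.exp (x * w) ∂ν ≤ 535 / 100 / x ^ 2 * Jr ν x
  ev2' : ∀ x : ℝ, 34 / 10 ≤ x → ∫ w, (B - w) ^ 2 * Real.exp (x * w) ∂ν ≤ 5 / x ^ 2 * Jr ν x

/-- `E[S_m^n]`, `S_m` a sum of `m` independent variables with law `ν`. -/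
def Mm (ν : Measure ℝ) (m n : ℕ) : ℝ :=
  ∫ x : Fin m → ℝ, (∑ i, x i) ^ n ∂(Measure.pi fun _ => ν)

/-- Moments of `(1-X) δ_0 + X ν`. -/
def mX (ν : Measure ℝ) (X : ℝ) (n : ℕ) : ℝ := if n = 0 then 1 else X * ∫ w, w ^ n ∂ν

/-- The integrals in the variable `V = B - w`. -/
def Vint (X : ℝ) (p : ℕ) (x : ℝ) : ℝ :=
  ∫ V in (0 : ℝ)..(2 * cX X),
    √(V * (2 * cX X - V)) / ((BX X - V) * (BX X + X - V)) * V ^ p * Real.exp (-(x * V))

/-! ### Zeros -/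

/-- Number of zeros (with multiplicity) of an entire function in the closed disc. -/
def zc (f : ℂ → ℂ) (c : ℂ) (r : ℝ) : ℤ :=
  ∑ᶠ u, MeromorphicOn.divisor f (Metric.closedBall c r) u

/-- `ζ` is the unique zero of minimal modulus in the open upper half plane. -/
structure MinZero (f : ℂ → ℂ) (ζ : ℂ) : Prop where
  im_pos : 0 < ζ.im
  zero : f ζ = 0
  min : ∀ z : ℂ, f z = 0 → 0 < z.im → z ≠ ζ → ‖ζ‖ < ‖z‖

/-- Conclusions about the first zero of `1 + Y J`. -/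
structure FirstZero (ν : Measure ℝ) (B Y ρ : ℝ) (ζ : ℂ) : Prop where
  re_ge : ρ ≤ ζ.re
  im_pos : 0 < ζ.im
  im_le : ζ.im ≤ π / (B - 206 / 100 / ρ)
  im_lt : ζ.im ≤ 62 / 100
  normSq_le : ζ.re ^ 2 + ζ.im ^ 2 ≤ ρ ^ 2 + 52 / 100
  zero : 1 + Y * JJ ν ζ = 0
  simple : deriv (JJ ν) ζ ≠ 0
  all_re : ∀ z : ℂ, 1 + Y * JJ ν z = 0 → ρ ≤ z.re
  unique : ∀ z : ℂ, 1 + Y * JJ ν z = 0 → 0 ≤ z.im → z.im ≤ 1 → z = ζ

/-! ### The numerical bounds of the series regime -/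

/-- Bound for `T_{k+j}/T_k`, `j ≥ 1`. -/
def upB (n k j : ℕ) : ℝ :=
  (k : ℝ) / (k + j) * Real.exp (-((j : ℝ) - 1 / 2) * n / (k * (k + 1))
    + 5 * (k + j) / (2 * k ^ 2) + 14 * k / n)

/-- Bound for `T_{k-j}/T_k`, `1 ≤ j < k`. -/
def loB (n k j : ℕ) : ℝ :=
  (k : ℝ) / (k - j) * Real.exp (-(n : ℝ) / (k * (2 * k - 1)) - ((j : ℝ) - 1) * n / (k * (k - 1))
    + 5 * (k - j) / (2 * (k - 1) ^ 2) + 14 * k / n)

/-! ### The polynomials of the problem -/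

/-- The defining equations of the problem for `F` (with the square root `R`). -/
def IsF (R F : PowerSeries (Polynomial ℚ)) : Prop :=
  PowerSeries.constantCoeff R = 1 ∧
  R ^ 2 = 1 - 6 * (PowerSeries.X : PowerSeries (Polynomial ℚ)) + PowerSeries.X ^ 2
    + 2 * PowerSeries.C Polynomial.X * PowerSeries.X
    + 2 * PowerSeries.C Polynomial.X * PowerSeries.X ^ 2
    + PowerSeries.C Polynomial.X ^ 2 * PowerSeries.X ^ 2 ∧
  2 * (1 - PowerSeries.C Polynomial.X * PowerSeries.X) * F =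
    - PowerSeries.C Polynomial.X *
      (1 - PowerSeries.X + PowerSeries.C Polynomial.X * PowerSeries.X - R)

/-- `\widehat F = ∑ a_n z^n / n!`. -/
def hat (F : PowerSeries (Polynomial ℚ)) : PowerSeries (Polynomial ℚ) :=
  PowerSeries.mk fun n => (1 / (n ! : ℚ)) • PowerSeries.coeff n F

/-- `p_n`, from `∑ p_n z^n / n! = - log (1 + \widehat F)`. -/
def pPoly (F : PowerSeries (Polynomial ℚ)) (n : ℕ) : Polynomial ℚ :=
  (n ! : ℚ) • PowerSeries.coeff n (- PowerSeries.logOf (1 + hat F))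

/-- The sign pattern which gives real-rootedness. -/
def GoodSigns (n : ℕ) : Prop :=
  ∃ x : ℕ → ℝ, (∀ k, 1 ≤ k → 2 * k ≤ n → 0 < x k ∧ 0 < (-1 : ℝ) ^ (k + 1) * kap (mom (x k)) n) ∧
    ∀ k, 1 ≤ k → 2 * (k + 1) ≤ n → x k < x (k + 1)

end

end Pool.Agent.Lib_MP_1dbf07_co
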