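import Pool.Agent.Lib_MP_1dbf07_co.Defs

namespace Pool.Agent.Lib_MP_1dbf07_co

open MeasureTheory Set Filter Topology
open scoped Real Nat PowerSeries

noncomputable section

/-- polynomial upper bound of `(1 - v)^(-3/2)` -/
def M7.PP (v : ℝ) : ℝ := 1 + 3 / 2 * v + 272 / 100 * v ^ 2 + 250 * v ^ 8

lemma M7.poly_a {v : ℝ} (h0 : 0 ≤ v) (h1 : v ≤ 177 / 500) :
    1 ≤ M7.PP v ^ 2 * (1 - v) ^ 3 := by
  have e : M7.PP v ^ 2 * (1 - v) ^ 3 - 1 = v ^ 2 * (62500 / 164265185385250073617379574213295461297 * (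
      206298828125000000000000000000000000000000 * (v ^ 0 * (177 / 500 - v) ^ 17) +
      3208479003906250000000000000000000000000000 * (v ^ 1 * (177 / 500 - v) ^ 16) +
      23324738077929687500000000000000000000000000 * (v ^ 2 * (177 / 500 - v) ^ 15) +
      105107523226160546875000000000000000000000000 * (v ^ 3 * (177 / 500 - v) ^ 14) +
      328191763773461881250000000000000000000000000 * (v ^ 4 * (177 / 500 - v) ^ 13) +
      751604481561652915825000000000000000000000000 * (v ^ 5 * (177 / 500 - v) ^ 12) +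
      1302769290205975006306250000000000000000000000 * (v ^ 6 * (177 / 500 - v) ^ 11) +
      1737504511721031453594531250000000000000000000 * (v ^ 7 * (177 / 500 - v) ^ 10) +
      1793450077069342120274981562500000000000000000 * (v ^ 8 * (177 / 500 - v) ^ 9) +
      1427634337289153862037621236875000000000000000 * (v ^ 9 * (177 / 500 - v) ^ 8) +
      864473262768846039218097628896250000000000000 * (v ^ 10 * (177 / 500 - v) ^ 7) +
      387422604330649664991308925056930000000000000 * (v ^ 11 * (177 / 500 - v) ^ 6) +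
      122216775592345124061290733520330000000000000 * (v ^ 12 * (177 / 500 - v) ^ 5) +
      24622292785568432295364596866450000000000000 * (v ^ 13 * (177 / 500 - v) ^ 4) +
      2527116955238332700123809454164676125000000 * (v ^ 14 * (177 / 500 - v) ^ 3) +
      73971139904150405005286762426842330250000 * (v ^ 15 * (177 / 500 - v) ^ 2) +
      26680574708532690492153895816040145341500 * (v ^ 16 * (177 / 500 - v) ^ 1) +
      7638522759062727330975326179660644630203 * (v ^ 17 * (177 / 500 - v) ^ 0))) := by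
    unfold M7.PP
    ring
  have hs : 0 ≤ v := by linarith
  have hr : 0 ≤ (177 / 500 - v) := by linarith
  have h : 0 ≤ v ^ 2 * (62500 / 164265185385250073617379574213295461297 * (
      206298828125000000000000000000000000000000 * (v ^ 0 * (177 / 500 - v) ^ 17) +
      3208479003906250000000000000000000000000000 * (v ^ 1 * (177 / 500 - v) ^ 16) +
      23324738077929687500000000000000000000000000 * (v ^ 2 * (177 / 500 - v) ^ 15) +
      105107523226160546875000000000000000000000000 * (v ^ 3 * (177 / 500 - v) ^ 14) +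
      328191763773461881250000000000000000000000000 * (v ^ 4 * (177 / 500 - v) ^ 13) +
      751604481561652915825000000000000000000000000 * (v ^ 5 * (177 / 500 - v) ^ 12) +
      1302769290205975006306250000000000000000000000 * (v ^ 6 * (177 / 500 - v) ^ 11) +
      1737504511721031453594531250000000000000000000 * (v ^ 7 * (177 / 500 - v) ^ 10) +
      1793450077069342120274981562500000000000000000 * (v ^ 8 * (177 / 500 - v) ^ 9) +
      1427634337289153862037621236875000000000000000 * (v ^ 9 * (177 / 500 - v) ^ 8) +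
      864473262768846039218097628896250000000000000 * (v ^ 10 * (177 / 500 - v) ^ 7) +
      387422604330649664991308925056930000000000000 * (v ^ 11 * (177 / 500 - v) ^ 6) +
      122216775592345124061290733520330000000000000 * (v ^ 12 * (177 / 500 - v) ^ 5) +
      24622292785568432295364596866450000000000000 * (v ^ 13 * (177 / 500 - v) ^ 4) +
      2527116955238332700123809454164676125000000 * (v ^ 14 * (177 / 500 - v) ^ 3) +
      73971139904150405005286762426842330250000 * (v ^ 15 * (177 / 500 - v) ^ 2) +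
      26680574708532690492153895816040145341500 * (v ^ 16 * (177 / 500 - v) ^ 1) +
      7638522759062727330975326179660644630203 * (v ^ 17 * (177 / 500 - v) ^ 0))) := by
    positivity
  linarith

lemma M7.poly_b {v : ℝ} (h0 : 177 / 500 ≤ v) (h1 : v ≤ 4853 / 5000) :
    1 ≤ M7.PP v ^ 2 * (1 - v) ^ 3 := by
  have e : M7.PP v ^ 2 * (1 - v) ^ 3 - 1 = v ^ 2 * (62500 / 205376108421420133215852124619328732751145640979033332904523 * (
      763852275906272733097532617966064463020300000000000000000 * ((v - 177 / 500) ^ 0 * (4853 / 5000 - v) ^ 17) +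
      30956471995425298460196888381205145454719390000000000000000 * ((v - 177 / 500) ^ 1 * (4853 / 5000 - v) ^ 16) +
      599520869575344162775973074875196130216648168000000000000000 * ((v - 177 / 500) ^ 2 * (4853 / 5000 - v) ^ 15) +
      6101300177004182448181426357034448281418136676000000000000000 * ((v - 177 / 500) ^ 3 * (4853 / 5000 - v) ^ 14) +
      38214611632501581087505405115355052110512810387400000000000000 * ((v - 177 / 500) ^ 4 * (4853 / 5000 - v) ^ 13) +
      163173712472990364819502531506327255540598450179636000000000000 * ((v - 177 / 500) ^ 5 * (4853 / 5000 - v) ^ 12) +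
      506903747881806036388153410062646630062256287775080800000000000 * ((v - 177 / 500) ^ 6 * (4853 / 5000 - v) ^ 11) +
      1196895090600099198971879086168841480249603419657547760000000000 * ((v - 177 / 500) ^ 7 * (4853 / 5000 - v) ^ 10) +
      2212074751263063781150407766488908198162791483504387330000000000 * ((v - 177 / 500) ^ 8 * (4853 / 5000 - v) ^ 9) +
      3249647512185003028394628633574499456439595362167745637000000000 * ((v - 177 / 500) ^ 9 * (4853 / 5000 - v) ^ 8) +
      3785971389954228623274218166252741595712464084725204643440000000 * ((v - 177 / 500) ^ 10 * (4853 / 5000 - v) ^ 7) +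
      3412385888031896210646306074454150252541578107703410456792000000 * ((v - 177 / 500) ^ 11 * (4853 / 5000 - v) ^ 6) +
      2257152032728209765492879376350909584131984426228970311304400000 * ((v - 177 / 500) ^ 12 * (4853 / 5000 - v) ^ 5) +
      997954306909565002074837902362218779996021233370136370046600000 * ((v - 177 / 500) ^ 13 * (4853 / 5000 - v) ^ 4) +
      247050850948396214826711794662941170034946480793783148073640000 * ((v - 177 / 500) ^ 14 * (4853 / 5000 - v) ^ 3) +
      22292741767688667011846969477145249959176816556218374238519200 * ((v - 177 / 500) ^ 15 * (4853 / 5000 - v) ^ 2) +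
      719684114193357501390627625421534579534726992106520987092110 * ((v - 177 / 500) ^ 16 * (4853 / 5000 - v) ^ 1) +
      468519587110357916944253199470102972577533259122395108387 * ((v - 177 / 500) ^ 17 * (4853 / 5000 - v) ^ 0))) := by
    unfold M7.PP
    ring
  have hs : 0 ≤ (v - 177 / 500) := by linarith
  have hr : 0 ≤ (4853 / 5000 - v) := by linarith
  have h : 0 ≤ v ^ 2 * (62500 / 205376108421420133215852124619328732751145640979033332904523 * (
      763852275906272733097532617966064463020300000000000000000 * ((v - 177 / 500) ^ 0 * (4853 / 5000 - v) ^ 17) +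
      30956471995425298460196888381205145454719390000000000000000 * ((v - 177 / 500) ^ 1 * (4853 / 5000 - v) ^ 16) +
      599520869575344162775973074875196130216648168000000000000000 * ((v - 177 / 500) ^ 2 * (4853 / 5000 - v) ^ 15) +
      6101300177004182448181426357034448281418136676000000000000000 * ((v - 177 / 500) ^ 3 * (4853 / 5000 - v) ^ 14) +
      38214611632501581087505405115355052110512810387400000000000000 * ((v - 177 / 500) ^ 4 * (4853 / 5000 - v) ^ 13) +
      163173712472990364819502531506327255540598450179636000000000000 * ((v - 177 / 500) ^ 5 * (4853 / 5000 - v) ^ 12) +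
      506903747881806036388153410062646630062256287775080800000000000 * ((v - 177 / 500) ^ 6 * (4853 / 5000 - v) ^ 11) +
      1196895090600099198971879086168841480249603419657547760000000000 * ((v - 177 / 500) ^ 7 * (4853 / 5000 - v) ^ 10) +
      2212074751263063781150407766488908198162791483504387330000000000 * ((v - 177 / 500) ^ 8 * (4853 / 5000 - v) ^ 9) +
      3249647512185003028394628633574499456439595362167745637000000000 * ((v - 177 / 500) ^ 9 * (4853 / 5000 - v) ^ 8) +
      3785971389954228623274218166252741595712464084725204643440000000 * ((v - 177 / 500) ^ 10 * (4853 / 5000 - v) ^ 7) +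
      3412385888031896210646306074454150252541578107703410456792000000 * ((v - 177 / 500) ^ 11 * (4853 / 5000 - v) ^ 6) +
      2257152032728209765492879376350909584131984426228970311304400000 * ((v - 177 / 500) ^ 12 * (4853 / 5000 - v) ^ 5) +
      997954306909565002074837902362218779996021233370136370046600000 * ((v - 177 / 500) ^ 13 * (4853 / 5000 - v) ^ 4) +
      247050850948396214826711794662941170034946480793783148073640000 * ((v - 177 / 500) ^ 14 * (4853 / 5000 - v) ^ 3) +
      22292741767688667011846969477145249959176816556218374238519200 * ((v - 177 / 500) ^ 15 * (4853 / 5000 - v) ^ 2) +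
      719684114193357501390627625421534579534726992106520987092110 * ((v - 177 / 500) ^ 16 * (4853 / 5000 - v) ^ 1) +
      468519587110357916944253199470102972577533259122395108387 * ((v - 177 / 500) ^ 17 * (4853 / 5000 - v) ^ 0))) := by
    positivity
  linarith

lemma M7.poly {v : ℝ} (h0 : 0 ≤ v) (h1 : v ≤ 4853 / 5000) : 1 ≤ M7.PP v ^ 2 * (1 - v) ^ 3 := by
  rcases le_total v (177 / 500) with h | h
  · exact M7.poly_a h0 h
  · exact M7.poly_b h h1

lemma M7.PP_pos {v : ℝ} (h0 : 0 ≤ v) : 0 ≤ M7.PP v := by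
  unfold M7.PP
  positivity

lemma M7.sqrt_le {v : ℝ} (h0 : 0 ≤ v) (h1 : v ≤ 4853 / 5000) :
    √(1 - v) ≤ M7.PP v * (1 - v) ^ 2 := by
  have hv : 0 ≤ 1 - v := by linarith
  refine Real.sqrt_le_iff.mpr ⟨mul_nonneg (M7.PP_pos h0) (sq_nonneg _), ?_⟩
  have h := mul_le_mul_of_nonneg_right (M7.poly h0 h1) hv
  calc 1 - v = 1 * (1 - v) := (one_mul _).symm
    _ ≤ M7.PP v ^ 2 * (1 - v) ^ 3 * (1 - v) := h
    _ = (M7.PP v * (1 - v) ^ 2) ^ 2 := by ring

/-- bounds for `c` -/
lemma M7.cX_bounds {X : ℝ} (hX : 0 < X) (hX' : X ≤ 1 / 10 ^ 5) :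
    2828427 / 1000000 ≤ cX X ∧ cX X ≤ 2828442 / 1000000 := by
  unfold cX
  constructor
  · apply Real.le_sqrt_of_sq_le
    norm_num
    linarith
  · rw [Real.sqrt_le_iff]
    constructor
    · norm_num
    · norm_num at hX' ⊢
      linarith

section
variable {X b B : ℝ}

/-- upper bound of the kernel -/
lemma M7.kernel_le (hX : 0 < X) (hb : 0 < b) (hbB : b ≤ 4853 / 5000 * B) {V : ℝ}
    (h0 : 0 ≤ V) (h1 : V ≤ b) :
    √(V * (b - V)) / ((B - V) * (B + X - V)) ≤ √b / (B * (B + X)) * (√V * M7.PP (V / B)) := by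
  have hB : 0 < B := by nlinarith
  have hBV : 0 < B - V := by nlinarith
  have hBXV : 0 < B + X - V := by linarith
  have hv0 : 0 ≤ V / B := by positivity
  have hv1 : V / B ≤ 4853 / 5000 := by
    rw [div_le_iff₀ hB]; linarith
  have e1 : √(V * (b - V)) = √V * √(b - V) := Real.sqrt_mul h0 _
  have e2 : √(b - V) ≤ √b * √(1 - V / B) := by
    rw [← Real.sqrt_mul hb.le]
    apply Real.sqrt_le_sqrt
    have : b * (V / B) ≤ V := by
      rw [← mul_div_assoc, div_le_iff₀ hB, mul_comm]
      apply mul_le_mul_of_nonneg_left _ h0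
      linarith
    linarith
  have e3 := M7.sqrt_le hv0 hv1
  have e4 : (1 - V / B) ^ 2 / ((B - V) * (B + X - V)) ≤ 1 / (B * (B + X)) := by
    have h5 : 1 - V / B = (B - V) / B := by field_simp
    rw [h5, div_le_div_iff₀ (by positivity) (by positivity)]
    have h6 : ((B - V) / B) ^ 2 * (B * (B + X)) = (B - V) * ((B - V) * (B + X) / B) := by
      field_simp
    rw [h6, one_mul]
    apply mul_le_mul_of_nonneg_left _ hBV.le
    rw [div_le_iff₀ hB]
    nlinarith [mul_nonneg hX.le h0]
  have hP := M7.PP_pos hv0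
  calc √(V * (b - V)) / ((B - V) * (B + X - V))
      ≤ √V * (√b * (M7.PP (V / B) * (1 - V / B) ^ 2)) / ((B - V) * (B + X - V)) := by
        rw [e1]
        apply div_le_div_of_nonneg_right _ (by positivity)
        apply mul_le_mul_of_nonneg_left _ (Real.sqrt_nonneg V)
        exact e2.trans (mul_le_mul_of_nonneg_left e3 (Real.sqrt_nonneg b))
    _ = √V * √b * M7.PP (V / B) * ((1 - V / B) ^ 2 / ((B - V) * (B + X - V))) := by ring
    _ ≤ √V * √b * M7.PP (V / B) * (1 / (B * (B + X))) := by
        apply mul_le_mul_of_nonneg_left e4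
        positivity
    _ = _ := by ring

/-- lower bound of the kernel -/
lemma M7.le_kernel (hX : 0 < X) (hb : 0 < b) (hB : 0 < B) {V : ℝ}
    (h0 : 0 ≤ V) (hBV : V < B) (h2 : V * b + B ^ 2 ≤ 2 * B * b) :
    √b / (B * (B + X)) * (√V * (1 + V / (B + X))) ≤
      √(V * (b - V)) / ((B - V) * (B + X - V)) := by
  have hBV' : 0 < B - V := by linarith
  have hBXV : 0 < B + X - V := by linarith
  have e1 : √(V * (b - V)) = √V * √(b - V) := Real.sqrt_mul h0 _
  have e2 : √b * (1 - V / B) ≤ √(b - V) := by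
    have h3 : 0 ≤ 1 - V / B := by
      rw [sub_nonneg, div_le_one hB]; exact hBV.le
    apply Real.le_sqrt_of_sq_le
    rw [mul_pow, Real.sq_sqrt hb.le]
    have h5 : 1 - V / B = (B - V) / B := by field_simp
    rw [h5, div_pow, ← mul_div_assoc, div_le_iff₀ (by positivity)]
    nlinarith [mul_nonneg h0 (sub_nonneg.mpr h2)]
  have e4 : 1 / (B * (B + X)) * (1 + V / (B + X)) ≤ (1 - V / B) / ((B - V) * (B + X - V)) := by
    have h5 : (1 - V / B) / ((B - V) * (B + X - V)) = 1 / (B * (B + X - V)) := by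
      field_simp
    rw [h5]
    have h6 : 1 / (B * (B + X)) * (1 + V / (B + X)) = (B + X + V) / (B * (B + X) ^ 2) := by
      field_simp
    rw [h6, div_le_div_iff₀ (by positivity) (by positivity)]
    have : 0 ≤ B * V ^ 2 := by positivity
    nlinarith
  calc √b / (B * (B + X)) * (√V * (1 + V / (B + X)))
      = √V * √b * (1 / (B * (B + X)) * (1 + V / (B + X))) := by ring
    _ ≤ √V * √b * ((1 - V / B) / ((B - V) * (B + X - V))) := by
        apply mul_le_mul_of_nonneg_left e4
        positivity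
    _ = √V * (√b * (1 - V / B)) / ((B - V) * (B + X - V)) := by ring
    _ ≤ √V * √(b - V) / ((B - V) * (B + X - V)) := by
        apply div_le_div_of_nonneg_right _ (by positivity)
        exact mul_le_mul_of_nonneg_left e2 (Real.sqrt_nonneg V)
    _ = _ := by rw [e1]

end

/-- the basic integrals -/
def M7.J (x β : ℝ) (q : ℕ) : ℝ := ∫ V in (0 : ℝ)..β, V ^ q * √V * Real.exp (-(x * V))

lemma M7.J_cont (x : ℝ) (q : ℕ) : Continuous fun V : ℝ => V ^ q * √V * Real.exp (-(x * V)) := by
  fun_prop

lemma M7.J_nonneg {x β : ℝ} (hβ : 0 ≤ β) (q : ℕ) : 0 ≤ M7.J x β q := by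
  apply intervalIntegral.integral_nonneg hβ
  intro V hV
  have := hV.1
  positivity

lemma M7.J_rec {x β : ℝ} (hβ : 0 ≤ β) (q : ℕ) :
    x * M7.J x β (q + 1) = (q + 3 / 2) * M7.J x β q - β ^ (q + 1) * √β * Real.exp (-(x * β)) := by
  have hder : ∀ V ∈ Ioo (0 : ℝ) β, HasDerivAt (fun V : ℝ => V ^ (q + 1) * √V * Real.exp (-(x * V)))
      ((q + 3 / 2) * (V ^ q * √V * Real.exp (-(x * V))) -
        x * (V ^ (q + 1) * √V * Real.exp (-(x * V)))) V := by
    intro V hV
    have hV0 : 0 < V := hV.1
    have h1 := (hasDerivAt_pow (q + 1) V).mul (Real.hasDerivAt_sqrt hV0.ne')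
    have h2 : HasDerivAt (fun V : ℝ => Real.exp (-(x * V))) (Real.exp (-(x * V)) * -(x * 1)) V :=
      ((hasDerivAt_id V).const_mul x).neg.exp
    have hs : √V * √V = V := Real.mul_self_sqrt hV0.le
    have hs0 : √V ≠ 0 := (Real.sqrt_pos.mpr hV0).ne'
    have h4 : V ^ (q + 1) * (1 / (2 * √V)) = V ^ q * √V / 2 := by
      rw [pow_succ]
      nth_rewrite 2 [← hs]
      field_simp
    refine HasDerivAt.congr_deriv (f := fun V : ℝ => V ^ (q + 1) * √V * Real.exp (-(x * V)))
      (h1.mul h2) ?_
    rw [h4]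
    change (((q + 1 : ℕ) : ℝ) * V ^ q * √V + V ^ q * √V / 2) * Real.exp (-(x * V)) +
      V ^ (q + 1) * √V * (Real.exp (-(x * V)) * -(x * 1)) = _
    push_cast
    ring
  have hint : IntervalIntegrable (fun V : ℝ => (q + 3 / 2) * (V ^ q * √V * Real.exp (-(x * V))) -
        x * (V ^ (q + 1) * √V * Real.exp (-(x * V)))) volume 0 β := by
    apply Continuous.intervalIntegrable
    fun_prop
  have h := intervalIntegral.integral_eq_sub_of_hasDerivAt_of_le hβ
    (M7.J_cont x (q + 1)).continuousOn hder hint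
  rw [intervalIntegral.integral_sub ((M7.J_cont x q).const_mul _ |>.intervalIntegrable _ _)
    ((M7.J_cont x (q + 1)).const_mul _ |>.intervalIntegrable _ _),
    intervalIntegral.integral_const_mul, intervalIntegral.integral_const_mul] at h
  simp only [Real.sqrt_zero, mul_zero, zero_mul, sub_zero] at h
  unfold M7.J
  linarith

/-- the products `(3/2)(5/2)…` -/
def M7.rr (q : ℕ) : ℝ := ∏ i ∈ Finset.range q, ((i : ℝ) + 3 / 2)

lemma M7.rr_pos (q : ℕ) : 0 < M7.rr q := Finset.prod_pos fun i _ => by positivity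

lemma M7.J_le {x β : ℝ} (hx : 0 < x) (hβ : 0 ≤ β) (q : ℕ) :
    M7.J x β q ≤ M7.rr q / x ^ q * M7.J x β 0 := by
  induction q with
  | zero => simp [M7.rr]
  | succ q ih =>
    have h1 := M7.J_rec (x := x) hβ q
    have h2 : 0 ≤ β ^ (q + 1) * √β * Real.exp (-(x * β)) := by positivity
    have h3 : M7.J x β (q + 1) ≤ ((q : ℝ) + 3 / 2) / x * M7.J x β q := by
      rw [div_mul_eq_mul_div, le_div_iff₀ hx]
      linarith
    refine h3.trans ((mul_le_mul_of_nonneg_left ih (by positivity)).trans (le_of_eq ?_))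
    unfold M7.rr
    rw [Finset.prod_range_succ]
    field_simp
    ring

lemma M7.exp_small {x β : ℝ} (hx : 3 ≤ x) (hβ : 565 / 100 ≤ β) :
    Real.exp (-(x * β)) ≤ 5 / 10 ^ 5 * Real.exp (-(x * 2)) := by
  have h1 : Real.exp (-(x * β)) ≤ Real.exp (-10) * Real.exp (-(x * 2)) := by
    rw [← Real.exp_add]
    apply Real.exp_le_exp.mpr
    nlinarith
  have h2 : Real.exp (-10) ≤ 5 / 10 ^ 5 := by
    rw [Real.exp_neg]
    have h3 : (20000 : ℝ) ≤ Real.exp 10 := by
      have h4 : (2.7 : ℝ) ≤ Real.exp 1 := by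
        have := Real.exp_one_gt_d9
        linarith
      have h5 : Real.exp 10 = Real.exp 1 ^ 10 := by
        rw [← Real.exp_nat_mul]; norm_num
      rw [h5]
      calc (20000 : ℝ) ≤ 2.7 ^ 10 := by norm_num
        _ ≤ Real.exp 1 ^ 10 := pow_le_pow_left₀ (by norm_num) h4 10
    calc (Real.exp 10)⁻¹ ≤ (20000 : ℝ)⁻¹ := inv_anti₀ (by norm_num) h3
      _ = 5 / 10 ^ 5 := by norm_num
  exact h1.trans (mul_le_mul_of_nonneg_right h2 (Real.exp_pos _).le)

/-- the main part is not too small -/
lemma M7.J_ge {x β : ℝ} (hx : 0 < x) (hβ : 2 ≤ β) : Real.exp (-(x * 2)) ≤ M7.J x β 0 := by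
  have hc := M7.J_cont x 0
  have h1 : ∫ V in (1 : ℝ)..2, V ^ 0 * √V * Real.exp (-(x * V)) ≤ M7.J x β 0 := by
    unfold M7.J
    apply intervalIntegral.integral_mono_interval (by norm_num) (by norm_num) hβ
    · filter_upwards [ae_restrict_mem measurableSet_Ioc] with V hV
      have := hV.1
      simp only [Pi.zero_apply]
      positivity
    · exact hc.intervalIntegrable _ _
  refine le_trans ?_ h1
  have h2 : Real.exp (-(x * 2)) = ∫ V in (1 : ℝ)..2, Real.exp (-(x * 2)) := by
    rw [intervalIntegral.integral_const]; norm_num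
  rw [h2]
  apply intervalIntegral.integral_mono_on (by norm_num) (by simp) (hc.intervalIntegrable _ _)
  intro V hV
  have h3 : 1 ≤ √V := by
    rw [Real.one_le_sqrt]; exact hV.1
  have h4 : Real.exp (-(x * 2)) ≤ Real.exp (-(x * V)) := by
    apply Real.exp_le_exp.mpr
    nlinarith [hV.2]
  rw [pow_zero, one_mul]
  calc Real.exp (-(x * 2)) = 1 * Real.exp (-(x * 2)) := (one_mul _).symm
    _ ≤ √V * Real.exp (-(x * V)) := mul_le_mul h3 h4 (Real.exp_pos _).le (Real.sqrt_nonneg _)

/-- extension of the integral beyond `β` -/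
lemma M7.J_ext {x β b : ℝ} (hx : 0 < x) (hb : β ≤ b) :
    M7.J x b 0 ≤ M7.J x β 0 + (b - β) * (√b * Real.exp (-(x * β))) := by
  have hc := M7.J_cont x 0
  unfold M7.J
  rw [← intervalIntegral.integral_add_adjacent_intervals (hc.intervalIntegrable 0 β)
    (hc.intervalIntegrable β b)]
  have h2 : (b - β) * (√b * Real.exp (-(x * β))) = ∫ V in β..b, √b * Real.exp (-(x * β)) := by
    rw [intervalIntegral.integral_const, smul_eq_mul]
  rw [h2]
  gcongr
  apply intervalIntegral.integral_mono_on hb (hc.intervalIntegrable _ _) (by simp)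
  intro V hV
  rw [pow_zero, one_mul]
  apply mul_le_mul (Real.sqrt_le_sqrt hV.2) _ (Real.exp_pos _).le (Real.sqrt_nonneg _)
  apply Real.exp_le_exp.mpr
  nlinarith [hV.1]

/-- continuity of the integrand of `Vint` on the interval -/
lemma M7.integrand_cont {X : ℝ} (hX : 0 < X) (hbB : 2 * cX X < BX X) (p : ℕ)
    (x : ℝ) : ContinuousOn (fun V : ℝ => √(V * (2 * cX X - V)) / ((BX X - V) * (BX X + X - V)) *
      V ^ p * Real.exp (-(x * V))) (Icc 0 (2 * cX X)) := by
  refine ContinuousOn.mul (ContinuousOn.mul (ContinuousOn.div ?_ ?_ ?_) ?_) ?_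
  · fun_prop
  · fun_prop
  · intro V hV
    have := hV.2
    have h1 : 0 < BX X - V := by linarith
    have h2 : 0 < BX X + X - V := by linarith
    positivity
  · fun_prop
  · fun_prop

/-- the upper bound -/
lemma M7.Vint_le {X : ℝ} (hX : 0 < X) (hX' : X ≤ 1 / 10 ^ 5) {x : ℝ} (hx : 0 < x) (p : ℕ) :
    Vint X p x ≤ √(2 * cX X) / (BX X * (BX X + X)) * (M7.J x (2 * cX X) 0 / x ^ p *
      (M7.rr p + 3 / 2 * M7.rr (p + 1) / (BX X * x) + 272 / 100 * M7.rr (p + 2) / (BX X * x) ^ 2 +
        250 * M7.rr (p + 8) / (BX X * x) ^ 8)) := by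
  obtain ⟨hc1, hc2⟩ := M7.cX_bounds hX hX'
  set b := 2 * cX X with hb
  have hb0 : 0 < b := by linarith
  have hB : BX X = 3 + X + cX X := rfl
  have hbB : b ≤ 4853 / 5000 * BX X := by rw [hB]; linarith
  have hbB' : b < BX X := by rw [hB]; linarith
  have hB0 : 0 < BX X := by linarith
  have hstep : Vint X p x ≤ ∫ V in (0 : ℝ)..b, √b / (BX X * (BX X + X)) *
      (V ^ p * √V * Real.exp (-(x * V)) + 3 / 2 / BX X * (V ^ (p + 1) * √V * Real.exp (-(x * V))) +
        272 / 100 / BX X ^ 2 * (V ^ (p + 2) * √V * Real.exp (-(x * V))) +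
        250 / BX X ^ 8 * (V ^ (p + 8) * √V * Real.exp (-(x * V)))) := by
    unfold Vint
    apply intervalIntegral.integral_mono_on hb0.le
    · apply ContinuousOn.intervalIntegrable
      rw [uIcc_of_le hb0.le]
      exact M7.integrand_cont hX hbB' p x
    · apply Continuous.intervalIntegrable
      fun_prop
    · intro V hV
      have h1 := M7.kernel_le hX hb0 hbB hV.1 hV.2
      have h2 : 0 ≤ V ^ p * Real.exp (-(x * V)) := by
        have := hV.1
        positivity
      have h3 := mul_le_mul_of_nonneg_right h1 h2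
      calc √(V * (b - V)) / ((BX X - V) * (BX X + X - V)) * V ^ p * Real.exp (-(x * V))
          = √(V * (b - V)) / ((BX X - V) * (BX X + X - V)) * (V ^ p * Real.exp (-(x * V))) := by
            ring
        _ ≤ _ := h3
        _ = _ := by
            unfold M7.PP
            field_simp
            ring
  refine hstep.trans ?_
  rw [intervalIntegral.integral_const_mul]
  have hI : ∀ q, IntervalIntegrable (fun V : ℝ => V ^ q * √V * Real.exp (-(x * V))) volume 0 b :=
    fun q => (M7.J_cont x q).intervalIntegrable _ _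
  rw [intervalIntegral.integral_add (((hI p).add ((hI (p + 1)).const_mul _)).add
      ((hI (p + 2)).const_mul _)) ((hI (p + 8)).const_mul _),
    intervalIntegral.integral_add ((hI p).add ((hI (p + 1)).const_mul _))
      ((hI (p + 2)).const_mul _),
    intervalIntegral.integral_add (hI p) ((hI (p + 1)).const_mul _),
    intervalIntegral.integral_const_mul, intervalIntegral.integral_const_mul,
    intervalIntegral.integral_const_mul]
  have hJ := fun q => M7.J_le hx hb0.le q
  change _ * (M7.J x b p + 3 / 2 / BX X * M7.J x b (p + 1) + 272 / 100 / BX X ^ 2 *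
    M7.J x b (p + 2) + 250 / BX X ^ 8 * M7.J x b (p + 8)) ≤ _
  apply mul_le_mul_of_nonneg_left _ (by positivity)
  have e : M7.J x b 0 / x ^ p *
      (M7.rr p + 3 / 2 * M7.rr (p + 1) / (BX X * x) + 272 / 100 * M7.rr (p + 2) / (BX X * x) ^ 2 +
        250 * M7.rr (p + 8) / (BX X * x) ^ 8) =
      M7.rr p / x ^ p * M7.J x b 0 + 3 / 2 / BX X * (M7.rr (p + 1) / x ^ (p + 1) * M7.J x b 0) +
      272 / 100 / BX X ^ 2 * (M7.rr (p + 2) / x ^ (p + 2) * M7.J x b 0) +
      250 / BX X ^ 8 * (M7.rr (p + 8) / x ^ (p + 8) * M7.J x b 0) := by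
    field_simp
    ring
  rw [e]
  gcongr
  · exact hJ p
  · exact hJ (p + 1)
  · exact hJ (p + 2)
  · exact hJ (p + 8)

/-- the lower bound -/
lemma M7.le_Vint {X : ℝ} (hX : 0 < X) (hX' : X ≤ 1 / 10 ^ 5) (x : ℝ) :
    √(2 * cX X) / (BX X * (BX X + X)) * (M7.J x (565 / 100) 0 +
      M7.J x (565 / 100) 1 / (BX X + X)) ≤ Vint X 0 x := by
  obtain ⟨hc1, hc2⟩ := M7.cX_bounds hX hX'
  set b := 2 * cX X with hb
  have hX5 : X ≤ 1 / 100000 := by norm_num at hX' ⊢; linarith
  have hb0 : 0 < b := by linarith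
  have hB : BX X = 3 + X + cX X := rfl
  have hbB' : b < BX X := by rw [hB]; linarith
  have hB0 : 0 < BX X := by linarith
  have hcont := M7.integrand_cont hX hbB' 0 x
  have h1 : ∫ V in (0 : ℝ)..(565 / 100), √(V * (b - V)) / ((BX X - V) * (BX X + X - V)) *
      V ^ 0 * Real.exp (-(x * V)) ≤ Vint X 0 x := by
    unfold Vint
    apply intervalIntegral.integral_mono_interval le_rfl (by norm_num) (by linarith)
    · filter_upwards [ae_restrict_mem measurableSet_Ioc] with V hV
      have h0 := hV.1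
      have h3 := hV.2
      have h4 : 0 < BX X - V := by linarith
      have h5 : 0 < BX X + X - V := by linarith
      simp only [Pi.zero_apply]
      positivity
    · apply ContinuousOn.intervalIntegrable
      rw [uIcc_of_le hb0.le]
      exact hcont
  refine le_trans ?_ h1
  have h2 : √b / (BX X * (BX X + X)) * (M7.J x (565 / 100) 0 + M7.J x (565 / 100) 1 / (BX X + X)) =
      ∫ V in (0 : ℝ)..(565 / 100), √b / (BX X * (BX X + X)) * (V ^ 0 * √V * Real.exp (-(x * V)) +
        1 / (BX X + X) * (V ^ 1 * √V * Real.exp (-(x * V)))) := by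
    rw [intervalIntegral.integral_const_mul, intervalIntegral.integral_add
      ((M7.J_cont x 0).intervalIntegrable _ _)
      (((M7.J_cont x 1).intervalIntegrable _ _).const_mul _), intervalIntegral.integral_const_mul]
    unfold M7.J
    ring
  rw [h2]
  apply intervalIntegral.integral_mono_on (by norm_num)
  · apply Continuous.intervalIntegrable
    fun_prop
  · apply ContinuousOn.intervalIntegrable
    rw [uIcc_of_le (by norm_num)]
    apply hcont.mono
    apply Icc_subset_Icc_right
    linarith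
  · intro V hV
    have h3 := M7.le_kernel hX hb0 hB0 hV.1 (by rw [hB]; linarith [hV.2]) (by
      have := hV.2
      rw [hB, hb]
      nlinarith)
    have h4 := mul_le_mul_of_nonneg_right h3 (Real.exp_pos (-(x * V))).le
    calc √b / (BX X * (BX X + X)) * (V ^ 0 * √V * Real.exp (-(x * V)) +
        1 / (BX X + X) * (V ^ 1 * √V * Real.exp (-(x * V))))
        = √b / (BX X * (BX X + X)) * (√V * (1 + V / (BX X + X))) * Real.exp (-(x * V)) := by
          ring
      _ ≤ _ := h4
      _ = _ := by rw [pow_zero, mul_one]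

/-- the comparison -/
lemma M7.compare {X : ℝ} (hX : 0 < X) (hX' : X ≤ 1 / 10 ^ 5) {x : ℝ} (hx : 3 ≤ x) (p : ℕ) {K : ℝ}
    (hK : 0 ≤ K)
    (hU : (1 + 1 / 10 ^ 6) * (M7.rr p + 3 / 2 * M7.rr (p + 1) * (1 / (BX X * x)) +
      272 / 100 * M7.rr (p + 2) * (1 / (BX X * x)) ^ 2 +
        250 * M7.rr (p + 8) * (1 / (BX X * x)) ^ 8) ≤ K * (1 + 1499 / 1000 * (1 / (BX X * x)))) :
    Vint X p x ≤ K / x ^ p * Vint X 0 x := by
  obtain ⟨hc1, hc2⟩ := M7.cX_bounds hX hX'
  have hX5 : X ≤ 1 / 100000 := by norm_num at hX' ⊢; linarith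
  have hx0 : 0 < x := by linarith
  have hB : BX X = 3 + X + cX X := rfl
  have hB1 : 58284 / 10000 ≤ BX X := by rw [hB]; linarith
  have hB0 : 0 < BX X := by linarith
  have hup := M7.Vint_le hX hX' hx0 p
  have hlo := M7.le_Vint hX hX' x
  set b := 2 * cX X with hb
  have hb1 : b ≤ 565689 / 100000 := by linarith
  have hb2 : 565685 / 100000 ≤ b := by linarith
  have hb0 : 0 < b := by linarith
  set m := M7.J x (565 / 100) 0 with hm
  have hm1 : Real.exp (-(x * 2)) ≤ m := M7.J_ge hx0 (by norm_num)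
  have hm0 : 0 < m := lt_of_lt_of_le (Real.exp_pos _) hm1
  have hE : Real.exp (-(x * (565 / 100))) ≤ 5 / 10 ^ 5 * m :=
    (M7.exp_small hx le_rfl).trans (mul_le_mul_of_nonneg_left hm1 (by norm_num))
  have hE0 := Real.exp_pos (-(x * (565 / 100)))
  have hsb : √b ≤ 24 / 10 := by
    rw [Real.sqrt_le_iff]
    constructor
    · norm_num
    · norm_num; linarith
  have hs5 : √(565 / 100 : ℝ) ≤ 24 / 10 := by
    rw [Real.sqrt_le_iff]
    constructor
    · norm_num
    · norm_num
  -- the upper bound for the full integral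
  have hM : M7.J x b 0 ≤ (1 + 1 / 10 ^ 6) * m := by
    have h1 := M7.J_ext hx0 (β := 565 / 100) (b := b) (by linarith)
    have h2 : (b - 565 / 100) * (√b * Real.exp (-(x * (565 / 100)))) ≤
        (689 / 100000) * (24 / 10 * (5 / 10 ^ 5 * m)) := by
      apply mul_le_mul (by linarith) _ (by positivity) (by norm_num)
      exact mul_le_mul hsb hE hE0.le (by norm_num)
    calc M7.J x b 0 ≤ m + (b - 565 / 100) * (√b * Real.exp (-(x * (565 / 100)))) := h1
      _ ≤ m + (689 / 100000) * (24 / 10 * (5 / 10 ^ 5 * m)) := by linarith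
      _ ≤ (1 + 1 / 10 ^ 6) * m := by nlinarith
  -- the lower bound for the second integral
  have hJ1 : 1499 / 1000 * m / x ≤ M7.J x (565 / 100) 1 * (BX X / (BX X + X)) := by
    have h1 := M7.J_rec (x := x) (β := 565 / 100) (by norm_num) 0
    have h2 : (565 / 100 : ℝ) ^ (0 + 1) * √(565 / 100) * Real.exp (-(x * (565 / 100))) ≤
        565 / 100 * (24 / 10) * (5 / 10 ^ 5 * m) := by
      rw [zero_add, pow_one]
      apply mul_le_mul _ hE hE0.le (by norm_num)
      exact mul_le_mul_of_nonneg_left hs5 (by norm_num)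
    have h3 : (14993 / 10000) * m ≤ x * M7.J x (565 / 100) 1 := by
      push_cast at h1
      rw [zero_add] at h1
      rw [h1, ← hm]
      linarith
    have h4 : 1 - 2 / 10 ^ 6 ≤ BX X / (BX X + X) := by
      rw [le_div_iff₀ (by positivity)]
      nlinarith
    rw [div_le_iff₀ hx0]
    calc 1499 / 1000 * m ≤ (14993 / 10000) * m * (1 - 2 / 10 ^ 6) := by nlinarith
      _ ≤ (x * M7.J x (565 / 100) 1) * (BX X / (BX X + X)) := by
          apply mul_le_mul h3 h4 (by norm_num)
          exact mul_nonneg hx0.le (M7.J_nonneg (by norm_num) _)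
      _ = _ := by ring
  set t := 1 / (BX X * x) with ht
  have ht0 : 0 < t := by positivity
  set C0 := √b / (BX X * (BX X + X)) with hC0
  have hC : 0 < C0 := by
    have := Real.sqrt_pos.mpr hb0
    positivity
  have hlo' : C0 * (m * (1 + 1499 / 1000 * t)) ≤ Vint X 0 x := by
    refine le_trans ?_ hlo
    apply mul_le_mul_of_nonneg_left _ hC.le
    have h5 : 1499 / 1000 * m / x / BX X ≤ M7.J x (565 / 100) 1 / (BX X + X) := by
      have h6 := div_le_div_of_nonneg_right hJ1 hB0.le
      refine h6.trans (le_of_eq ?_)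
      field_simp
    calc m * (1 + 1499 / 1000 * t) = m + 1499 / 1000 * m / x / BX X := by
          rw [ht]; field_simp
      _ ≤ _ := by linarith
  have hrr : ∀ q, 0 < M7.rr q := M7.rr_pos
  have hUpos : 0 ≤ M7.rr p + 3 / 2 * M7.rr (p + 1) * t + 272 / 100 * M7.rr (p + 2) * t ^ 2 +
        250 * M7.rr (p + 8) * t ^ 8 := by
    have h1 := hrr p
    have h2 := hrr (p + 1)
    have h3 := hrr (p + 2)
    have h4 := hrr (p + 8)
    positivity
  have hup' : Vint X p x ≤ C0 * ((1 + 1 / 10 ^ 6) * m / x ^ p * (M7.rr p +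
      3 / 2 * M7.rr (p + 1) * t + 272 / 100 * M7.rr (p + 2) * t ^ 2 +
        250 * M7.rr (p + 8) * t ^ 8)) := by
    refine hup.trans ?_
    apply mul_le_mul_of_nonneg_left _ hC.le
    have e : M7.rr p + 3 / 2 * M7.rr (p + 1) / (BX X * x) +
        272 / 100 * M7.rr (p + 2) / (BX X * x) ^ 2 + 250 * M7.rr (p + 8) / (BX X * x) ^ 8 =
        M7.rr p + 3 / 2 * M7.rr (p + 1) * t + 272 / 100 * M7.rr (p + 2) * t ^ 2 +
        250 * M7.rr (p + 8) * t ^ 8 := by
      rw [ht, one_div_pow, one_div_pow]
      ring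
    rw [e]
    apply mul_le_mul_of_nonneg_right _ hUpos
    exact div_le_div_of_nonneg_right hM (by positivity)
  refine hup'.trans ?_
  calc C0 * ((1 + 1 / 10 ^ 6) * m / x ^ p * (M7.rr p +
      3 / 2 * M7.rr (p + 1) * t + 272 / 100 * M7.rr (p + 2) * t ^ 2 +
        250 * M7.rr (p + 8) * t ^ 8))
      = C0 * m / x ^ p * ((1 + 1 / 10 ^ 6) * (M7.rr p +
      3 / 2 * M7.rr (p + 1) * t + 272 / 100 * M7.rr (p + 2) * t ^ 2 +
        250 * M7.rr (p + 8) * t ^ 8)) := by ring
    _ ≤ C0 * m / x ^ p * (K * (1 + 1499 / 1000 * t)) :=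
        mul_le_mul_of_nonneg_left hU (by positivity)
    _ = K / x ^ p * (C0 * (m * (1 + 1499 / 1000 * t))) := by ring
    _ ≤ K / x ^ p * Vint X 0 x := mul_le_mul_of_nonneg_left hlo' (by positivity)

lemma M7.t_le {X : ℝ} (hX : 0 < X) (hX' : X ≤ 1 / 10 ^ 5) {x x0 T : ℝ} (hx0 : 0 < x0)
    (hx : x0 ≤ x) (hT : 1 ≤ T * (58284 / 10000 * x0)) : 1 / (BX X * x) ≤ T := by
  obtain ⟨hc1, hc2⟩ := M7.cX_bounds hX hX'
  have hB : BX X = 3 + X + cX X := rfl
  have hB1 : 58284 / 10000 ≤ BX X := by rw [hB]; linarith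
  have h1 : 58284 / 10000 * x0 ≤ BX X * x := mul_le_mul hB1 hx hx0.le (by linarith)
  have hT0 : 0 < T := by
    by_contra h
    push Not at h
    nlinarith
  rw [div_le_iff₀ (by nlinarith)]
  exact hT.trans (mul_le_mul_of_nonneg_left h1 hT0.le)

/-- The bounds of the tilted moments of `V = B - w`. -/
theorem Vint_bounds {X : ℝ} (hX : 0 < X) (hX' : X ≤ 1 / 10 ^ 5) :
    (∀ x : ℝ, 3 ≤ x → Vint X 1 x ≤ 183 / 100 / x * Vint X 0 x) ∧
    (∀ x : ℝ, 3 ≤ x → Vint X 2 x ≤ 535 / 100 / x ^ 2 * Vint X 0 x) ∧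
    (∀ x : ℝ, 34 / 10 ≤ x → Vint X 2 x ≤ 5 / x ^ 2 * Vint X 0 x) := by
  have r1 : M7.rr 1 = 3 / 2 := by norm_num [M7.rr, Finset.prod_range_succ]
  have r2 : M7.rr 2 = 15 / 4 := by norm_num [M7.rr, Finset.prod_range_succ]
  have r3 : M7.rr 3 = 105 / 8 := by norm_num [M7.rr, Finset.prod_range_succ]
  have r4 : M7.rr 4 = 945 / 16 := by norm_num [M7.rr, Finset.prod_range_succ]
  have r9 : M7.rr 9 = 654729075 / 512 := by norm_num [M7.rr, Finset.prod_range_succ]
  have r10 : M7.rr 10 = 13749310575 / 1024 := by norm_num [M7.rr, Finset.prod_range_succ]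
  have hpos : ∀ x : ℝ, 3 ≤ x → 0 < 1 / (BX X * x) := by
    intro x hx
    obtain ⟨hc1, hc2⟩ := M7.cX_bounds hX hX'
    have hB : BX X = 3 + X + cX X := rfl
    have hB0 : 0 < BX X := by rw [hB]; linarith
    positivity
  have hpow : ∀ t T : ℝ, 0 < t → t ≤ T → t ^ 2 ≤ T * t ∧ t ^ 8 ≤ T ^ 7 * t := by
    intro t T h0 h1
    constructor
    · nlinarith
    · have := pow_le_pow_left₀ h0.le h1 7
      calc t ^ 8 = t ^ 7 * t := by ring
        _ ≤ T ^ 7 * t := mul_le_mul_of_nonneg_right this h0.le
  refine ⟨fun x hx => ?_, fun x hx => ?_, fun x hx => ?_⟩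
  · have h := M7.compare hX hX' hx 1 (K := 183 / 100) (by norm_num) (by
      have h1 := M7.t_le hX hX' (x0 := 3) (T := 572 / 10000) (by norm_num) hx (by norm_num)
      obtain ⟨h2, h3⟩ := hpow _ _ (hpos x hx) h1
      have h0 := hpos x hx
      set t := 1 / (BX X * x)
      change (1 + 1 / 10 ^ 6) * (M7.rr 1 + 3 / 2 * M7.rr 2 * t + 272 / 100 * M7.rr 3 * t ^ 2 +
        250 * M7.rr 9 * t ^ 8) ≤ 183 / 100 * (1 + 1499 / 1000 * t)
      rw [r1, r2, r3, r9]
      norm_num at h1 h2 h3 ⊢
      linarith)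
    rwa [pow_one] at h
  · exact M7.compare hX hX' hx 2 (K := 535 / 100) (by norm_num) (by
      have h1 := M7.t_le hX hX' (x0 := 3) (T := 572 / 10000) (by norm_num) hx (by norm_num)
      obtain ⟨h2, h3⟩ := hpow _ _ (hpos x hx) h1
      have h0 := hpos x hx
      set t := 1 / (BX X * x)
      change (1 + 1 / 10 ^ 6) * (M7.rr 2 + 3 / 2 * M7.rr 3 * t + 272 / 100 * M7.rr 4 * t ^ 2 +
        250 * M7.rr 10 * t ^ 8) ≤ 535 / 100 * (1 + 1499 / 1000 * t)
      rw [r2, r3, r4, r10]
      norm_num at h1 h2 h3 ⊢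
      linarith)
  · have hx3 : 3 ≤ x := by linarith
    exact M7.compare hX hX' hx3 2 (K := 5) (by norm_num) (by
      have h1 := M7.t_le hX hX' (x0 := 34 / 10) (T := 5047 / 100000) (by norm_num) hx
        (by norm_num)
      obtain ⟨h2, h3⟩ := hpow _ _ (hpos x hx3) h1
      have h0 := hpos x hx3
      set t := 1 / (BX X * x)
      change (1 + 1 / 10 ^ 6) * (M7.rr 2 + 3 / 2 * M7.rr 3 * t + 272 / 100 * M7.rr 4 * t ^ 2 +
        250 * M7.rr 10 * t ^ 8) ≤ 5 * (1 + 1499 / 1000 * t)
      rw [r2, r3, r4, r10]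
      norm_num at h1 h2 h3 ⊢
      linarith)

end

end Pool.Agent.Lib_MP_1dbf07_co
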