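import Pool.Agent.Lib_MP_1dbf07_co.M6
import Pool.Agent.Lib_MP_1dbf07_co.M7

namespace Pool.Agent.Lib_MP_1dbf07_co

open MeasureTheory Set Filter Topology
open scoped Real Nat PowerSeries

noncomputable section

namespace M8

/-- The law of `w`, continuous part, normalised. -/
def nu (X : ℝ) : Measure ℝ :=
  ENNReal.ofReal (1 / X) • ((volume.restrict (Ioo 0 π)).withDensity
      (fun θ => ENNReal.ofReal (dens (tauX X) θ))).map (fun θ => 3 + X + cX X * Real.cos θ)

theorem tauX_sq {X : ℝ} (hX : 0 < X) : tauX X ^ 2 = 2 / (1 + X) := by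
  rw [tauX, Real.sq_sqrt (by positivity)]

theorem tauX_pos {X : ℝ} (hX : 0 < X) : 0 < tauX X := by
  rw [tauX]
  positivity

theorem one_lt_tauX {X : ℝ} (hX : 0 < X) (hX' : X ≤ 1 / 10 ^ 5) : 1 < tauX X := by
  rw [tauX, Real.lt_sqrt (by norm_num), lt_div_iff₀ (by positivity)]
  norm_num at hX'
  linarith

theorem cX_sq {X : ℝ} (hX : 0 < X) : cX X ^ 2 = 8 * (1 + X) := by
  rw [cX, Real.sq_sqrt (by positivity)]

theorem cX_pos {X : ℝ} (hX : 0 < X) : 0 < cX X := by
  rw [cX]
  positivity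

theorem cX_mul {X : ℝ} (hX : 0 < X) : cX X * tauX X = 4 := by
  have h1 : (cX X * tauX X) ^ 2 = 4 ^ 2 := by
    rw [mul_pow, cX_sq hX, tauX_sq hX]
    field_simp
    norm_num
  have h2 : 0 < cX X * tauX X := mul_pos (cX_pos hX) (tauX_pos hX)
  nlinarith

theorem cX_lo {X : ℝ} (hX : 0 < X) : 2828 / 1000 ≤ cX X := by
  rw [cX]
  apply Real.le_sqrt_of_sq_le
  nlinarith

theorem cX_hi {X : ℝ} (hX : 0 < X) (hX' : X ≤ 1 / 10 ^ 5) : cX X ≤ 28285 / 10000 := by
  rw [cX, Real.sqrt_le_left (by norm_num)]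
  norm_num at hX' ⊢
  linarith

theorem w_ge {X : ℝ} (hX : 0 < X) (hX' : X ≤ 1 / 10 ^ 5) (θ : ℝ) :
    17 / 100 ≤ 3 + X + cX X * Real.cos θ := by
  have h1 := cX_hi hX hX'
  have h2 := cX_pos hX
  have h3 := Real.neg_one_le_cos θ
  nlinarith

theorem w_le {X : ℝ} (hX : 0 < X) (θ : ℝ) :
    3 + X + cX X * Real.cos θ ≤ BX X := by
  have h2 := cX_pos hX
  have h3 := Real.cos_le_one θ
  rw [BX]
  nlinarith

theorem meas_dens (τ : ℝ) : Measurable (fun θ => ENNReal.ofReal (dens τ θ)) := by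
  unfold dens
  fun_prop

theorem meas_w (X : ℝ) : Measurable (fun θ => 3 + X + cX X * Real.cos θ) := by
  fun_prop

theorem nu_integral {X : ℝ} (hX : 0 < X) (g : ℝ → ℝ) (hg : Continuous g) :
    ∫ w, g w ∂(nu X) = 1 / X * ∫ θ in Ioo 0 π, dens (tauX X) θ * g (3 + X + cX X * Real.cos θ) := by
  rw [nu, integral_smul_measure, ENNReal.toReal_ofReal (by positivity), smul_eq_mul,
    integral_map (meas_w X).aemeasurable hg.aestronglyMeasurable,
    integral_withDensity_eq_integral_toReal_smul (meas_dens _)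
      (Eventually.of_forall fun _ => ENNReal.ofReal_lt_top)]
  congr 1
  refine setIntegral_congr_fun measurableSet_Ioo fun θ hθ => ?_
  rw [ENNReal.toReal_ofReal (dens_nonneg (tauX_nonneg X) (tauX_lt hX) hθ), smul_eq_mul]

theorem atomMass_tauX {X : ℝ} (hX : 0 < X) (hX' : X ≤ 1 / 10 ^ 5) :
    atomMass (tauX X) = 1 - X := by
  rw [atomMass, if_pos (one_lt_tauX hX hX'), tauX_sq hX]
  field_simp
  ring

theorem atomLoc_tauX {X : ℝ} (hX : 0 < X) :
    3 + X + cX X * atomLoc (tauX X) = 0 := by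
  have h1 := tauX_pos hX
  have h2 := cX_mul hX
  have h3 : cX X = 4 / tauX X := by
    field_simp
    linarith
  rw [atomLoc, h3]
  have h4 := tauX_sq hX
  have h5 : 1 + X = 2 / tauX X ^ 2 := by
    rw [h4]
    field_simp
  have h6 : X = 2 / tauX X ^ 2 - 1 := by linarith
  have h7 : 4 / tauX X * (-(tauX X + 1 / tauX X) / 2) = -2 - 2 / tauX X ^ 2 := by
    field_simp
    ring
  rw [h7]
  linarith

theorem dens_mass {X : ℝ} (hX : 0 < X) (hX' : X ≤ 1 / 10 ^ 5) :
    ∫ θ in Ioo 0 π, dens (tauX X) θ = X := by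
  have h1 := (Pm_integral (tauX_nonneg X) (tauX_lt hX) (g := fun _ => 1) continuous_const).2
  have h2 := Pm_prob (tauX_nonneg X) (tauX_lt hX)
  simp only [integral_const, mul_one, smul_eq_mul, probReal_univ] at h1
  rw [atomMass_tauX hX hX'] at h1
  linarith

theorem nu_prob {X : ℝ} (hX : 0 < X) (hX' : X ≤ 1 / 10 ^ 5) : IsProbabilityMeasure (nu X) := by
  constructor
  have h0 := tauX_nonneg X
  have h1 := tauX_lt hX
  rw [nu, Measure.smul_apply, Measure.map_apply (meas_w X) MeasurableSet.univ, preimage_univ,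
    withDensity_apply _ MeasurableSet.univ, Measure.restrict_univ,
    ← ofReal_integral_eq_lintegral_ofReal (dens_integrable h0 h1), dens_mass hX hX', smul_eq_mul,
    ← ENNReal.ofReal_mul (by positivity)]
  · rw [one_div, inv_mul_cancel₀ hX.ne', ENNReal.ofReal_one]
  · rw [EventuallyLE, ae_restrict_iff' measurableSet_Ioo]
    exact Eventually.of_forall fun θ hθ => dens_nonneg h0 h1 hθ

theorem nu_supp {X : ℝ} (hX : 0 < X) (hX' : X ≤ 1 / 10 ^ 5) :
    ∀ᵐ w ∂(nu X), 17 / 100 ≤ w ∧ w ≤ BX X := by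
  rw [nu]
  refine Measure.ae_smul_measure ?_ _
  rw [ae_map_iff (meas_w X).aemeasurable (measurableSet_Icc : MeasurableSet (Icc (17 / 100) (BX X)))]
  exact Eventually.of_forall fun θ => ⟨w_ge hX hX' θ, w_le hX θ⟩

theorem nu_mX {X : ℝ} (hX : 0 < X) (_hX' : X ≤ 1 / 10 ^ 5) : mX (nu X) X = mom X := by
  ext n
  rw [mX]
  split_ifs with hn
  · rw [hn, mom, if_pos rfl]
  · have h1 := (Pm_integral (tauX_nonneg X) (tauX_lt hX) (g := fun u => (3 + X + cX X * u) ^ n)
      (by fun_prop)).2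
    rw [Pm_mom hX, atomLoc_tauX hX, zero_pow hn, mul_zero, zero_add] at h1
    rw [nu_integral hX _ (by fun_prop), h1]
    field_simp

/-- The constant. -/
def KK (X : ℝ) : ℝ := 1 / X * ((2 - tauX X ^ 2) / π * (8 / tauX X ^ 4) / cX X ^ 2)

theorem KK_nonneg {X : ℝ} (hX : 0 < X) : 0 ≤ KK X := by
  have h1 : 0 ≤ 2 - tauX X ^ 2 := by
    rw [tauX_sq hX]
    have : 2 / (1 + X) ≤ 2 := by
      rw [div_le_iff₀ (by positivity)]
      linarith
    linarith
  have h2 := tauX_pos hX
  have h3 := cX_pos hX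
  rw [KK]
  positivity

theorem nu_tilt {X : ℝ} (hX : 0 < X) (hX' : X ≤ 1 / 10 ^ 5) (p : ℕ) (x : ℝ) :
    ∫ w, (BX X - w) ^ p * Real.exp (x * w) ∂(nu X) =
      KK X * Real.exp (x * BX X) * Vint X p x := by
  rw [nu_integral hX _ (by fun_prop)]
  have hc := cX_pos hX
  have ht := tauX_pos hX
  have hct := cX_mul hX
  have htt := tauX_sq hX
  have hwX := w_ge hX hX'
  have hden : ∀ V ∈ Icc (0 : ℝ) (2 * cX X), 0 < BX X - V ∧ 0 < BX X + X - V := by
    intro V hV
    have h1 := cX_hi hX hX'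
    rw [BX]
    constructor <;> linarith [hV.1, hV.2]
  set g : ℝ → ℝ := fun V => √(V * (2 * cX X - V)) / ((BX X - V) * (BX X + X - V)) * V ^ p *
    Real.exp (-(x * V)) with hg
  have hcont : ContinuousOn g (Icc (0 : ℝ) (2 * cX X)) := by
    rw [hg]
    refine ContinuousOn.mul (ContinuousOn.mul (ContinuousOn.div ?_ ?_ ?_) ?_) ?_
    · fun_prop
    · fun_prop
    · intro V hV
      have := hden V hV
      exact (mul_pos this.1 this.2).ne'
    · fun_prop
    · fun_prop
  have himg : (fun θ => cX X * (1 - Real.cos θ)) '' uIcc 0 π ⊆ Icc (0 : ℝ) (2 * cX X) := by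
    rintro _ ⟨θ, -, rfl⟩
    have h3 := Real.neg_one_le_cos θ
    have h4 := Real.cos_le_one θ
    constructor
    · dsimp only
      nlinarith
    · dsimp only
      nlinarith
  have hsub := intervalIntegral.integral_comp_mul_deriv' (a := 0) (b := π)
    (f := fun θ => cX X * (1 - Real.cos θ)) (f' := fun θ => cX X * Real.sin θ) (g := g)
    (fun θ _ => by
      have := ((Real.hasDerivAt_cos θ).const_sub 1).const_mul (cX X)
      simpa using this) (by fun_prop) (hcont.mono himg)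
  simp only [Real.cos_zero, sub_self, mul_zero, Real.cos_pi, sub_neg_eq_add] at hsub
  rw [show cX X * (1 + 1) = 2 * cX X by ring] at hsub
  rw [Vint, ← hsub, intervalIntegral.integral_of_le Real.pi_pos.le, integral_Ioc_eq_integral_Ioo,
    ← integral_const_mul, ← integral_const_mul]
  refine setIntegral_congr_fun measurableSet_Ioo fun θ hθ => ?_
  dsimp only [Function.comp]
  have hsin : 0 ≤ Real.sin θ := Real.sin_nonneg_of_mem_Icc ⟨hθ.1.le, hθ.2.le⟩
  set C := Real.cos θ with hC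
  set S := Real.sin θ with hS
  have hSC : S ^ 2 = (1 - C) * (1 + C) := by
    have := Real.sin_sq_add_cos_sq θ
    linear_combination this
  have hsqrt : √(cX X * (1 - C) * (2 * cX X - cX X * (1 - C))) = cX X * S := by
    have e : cX X * (1 - C) * (2 * cX X - cX X * (1 - C)) = (cX X * S) ^ 2 := by
      rw [mul_pow, hSC]
      ring
    rw [e, Real.sqrt_sq (mul_nonneg hc.le hsin)]
  have hw : 0 < 3 + X + cX X * C := by
    have := hwX θ
    linarith
  set w := 3 + X + cX X * C with hwdef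
  have e1 : BX X - w = cX X * (1 - C) := by
    rw [hwdef, BX]
    ring
  have e2 : BX X - cX X * (1 - C) = w := by
    rw [hwdef, BX]
    ring
  have e3 : BX X + X - cX X * (1 - C) = w + X := by
    rw [hwdef, BX]
    ring
  have htt' : tauX X ^ 2 * (1 + X) = 2 := by
    rw [htt]
    field_simp
  have d1 : 1 + tauX X ^ 2 + 2 * tauX X * C = tauX X ^ 2 / 2 * w := by
    rw [hwdef]
    linear_combination (-1 / 2) * htt' - (tauX X / 2) * C * hct
  have d2 : 1 + tauX X ^ 2 / 4 + tauX X * C = tauX X ^ 2 / 4 * (w + X) := by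
    rw [hwdef]
    linear_combination (-1 / 2) * htt' - (tauX X / 4) * C * hct
  have e4 : Real.exp (x * w) = Real.exp (x * BX X) * Real.exp (-(x * (cX X * (1 - C)))) := by
    rw [← Real.exp_add, ← e2]
    congr 1
    rw [e2, ← e1]
    ring
  rw [dens, ← hC, ← hS, d1, d2, e1, hg]
  dsimp only
  rw [e2, e3, hsqrt, e4, KK]
  have hwX2 : 0 < w + X := by linarith
  field_simp
  try ring

end M8

open M8

/-- The absolutely continuous part for small `X`. -/
theorem exists_nu {X : ℝ} (hX : 0 < X) (hX' : X ≤ 1 / 10 ^ 5) :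
    ∃ ν : Measure ℝ, NuHyp ν (BX X) ∧ mX ν X = mom X := by
  obtain ⟨v1, v2, v3⟩ := Vint_bounds hX hX'
  have hc := cX_pos hX
  have hclo := cX_lo hX
  have hchi := cX_hi hX hX'
  have hK : ∀ x, 0 ≤ KK X * Real.exp (x * BX X) := fun x =>
    mul_nonneg (KK_nonneg hX) (Real.exp_pos _).le
  have hJ : ∀ x, Jr (nu X) x = KK X * Real.exp (x * BX X) * Vint X 0 x := by
    intro x
    have := nu_tilt hX hX' 0 x
    simpa [Jr] using this
  refine ⟨nu X, ⟨nu_prob hX hX', nu_supp hX hX', ?_, ?_, ?_, ?_, ?_⟩, nu_mX hX hX'⟩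
  · rw [BX]
    linarith
  · rw [BX]
    norm_num at hX'
    linarith
  · intro x hx
    have h1 := nu_tilt hX hX' 1 x
    simp only [pow_one] at h1
    rw [h1, hJ]
    calc _ ≤ KK X * Real.exp (x * BX X) * (183 / 100 / x * Vint X 0 x) :=
          mul_le_mul_of_nonneg_left (v1 x hx) (hK x)
      _ = _ := by ring
  · intro x hx
    rw [nu_tilt hX hX' 2 x, hJ]
    calc _ ≤ KK X * Real.exp (x * BX X) * (535 / 100 / x ^ 2 * Vint X 0 x) :=
          mul_le_mul_of_nonneg_left (v2 x hx) (hK x)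
      _ = _ := by ring
  · intro x hx
    rw [nu_tilt hX hX' 2 x, hJ]
    calc _ ≤ KK X * Real.exp (x * BX X) * (5 / x ^ 2 * Vint X 0 x) :=
          mul_le_mul_of_nonneg_left (v3 x hx) (hK x)
      _ = _ := by ring

end

end Pool.Agent.Lib_MP_1dbf07_co
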