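import Pool.Agent.Lib_MP_1dbf07_co.R1

namespace Pool.Agent.Lib_MP_1dbf07_co

open MeasureTheory Set Filter Topology
open scoped Real Nat PowerSeries

noncomputable section

namespace R2aux

open R1aux

theorem fs_continuous (n : ℕ) : Continuous fun X => fs X n := by
  induction n using Nat.strong_induction_on with
  | _ n ih =>
    match n, ih with
    | 0, _ => simp only [fs]; exact continuous_const
    | 1, _ => simp only [fs]; exact continuous_const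
    | (n + 2), ih =>
      simp only [fs]
      have h1 : ∀ k, k < n + 2 → Continuous fun X => fs X k := ih
      refine ((((continuous_const.add continuous_id).mul (h1 (n + 1) (by omega))).add
        (continuous_finsetSum _ fun i _ => ?_)).add
        (continuous_id.mul (continuous_finsetSum _ fun i _ => ?_)))
      · exact (h1 _ (by omega)).mul (h1 _ (by omega))
      · exact (h1 _ (by omega)).mul (h1 _ (by omega))

theorem mom_continuous (n : ℕ) : Continuous fun X => mom X n := by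
  unfold mom
  split_ifs
  · exact continuous_const
  · exact continuous_id.mul (fs_continuous n)

theorem summable_aux (R : ℝ) : Summable fun n : ℕ => 8 * ((8 * R) ^ n / (n ! : ℝ)) :=
  (Real.summable_pow_div_factorial _).mul_left 8

theorem egfR'_mom_continuousOn :
    ContinuousOn (fun p : ℝ × ℝ => egfR' (mom p.1) p.2) (Icc (0 : ℝ) 1 ×ˢ univ) := by
  refine continuousOn_of_locally_continuousOn (fun p _ => ?_)
  refine ⟨univ ×ˢ Ioo (-(|p.2| + 1)) (|p.2| + 1), isOpen_univ.prod isOpen_Ioo, ?_, ?_⟩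
  · refine ⟨mem_univ _, ?_, ?_⟩
    · linarith [neg_abs_le p.2]
    · linarith [le_abs_self p.2]
  · unfold egfR'
    refine continuousOn_tsum (u := fun n : ℕ => 8 * ((8 * (|p.2| + 1)) ^ n / (n ! : ℝ)))
      (fun n => ?_) (summable_aux _) (fun n q hq => ?_)
    · have h1 : Continuous fun q : ℝ × ℝ => mom q.1 (n + 1) :=
        (mom_continuous (n + 1)).comp continuous_fst
      exact ((h1.div_const _).mul (continuous_snd.pow n)).continuousOn
    · have hq1 : q.1 ∈ Icc (0 : ℝ) 1 := hq.1.1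
      have hq2 : |q.2| ≤ |p.2| + 1 := by
        rw [abs_le]
        exact ⟨hq.2.2.1.le, hq.2.2.2.le⟩
      rw [Real.norm_eq_abs, abs_mul, abs_div, abs_of_nonneg (mom_nonneg hq1.1 _), abs_pow,
        Nat.abs_cast]
      calc mom q.1 (n + 1) / (n ! : ℝ) * |q.2| ^ n
          ≤ 8 ^ (n + 1) / (n ! : ℝ) * (|p.2| + 1) ^ n := by
            have := mom_le hq1.1 hq1.2 (n + 1)
            gcongr
        _ = 8 * ((8 * (|p.2| + 1)) ^ n / (n ! : ℝ)) := by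
            rw [mul_pow]
            ring

theorem nu_Supp {ν : Measure ℝ} {B : ℝ} (h : NuHyp ν B) : Supp ν 0 B :=
  ⟨h.prob, by
    filter_upwards [h.supp] with w hw
    exact ⟨by linarith [hw.1], hw.2⟩⟩

theorem egfR'_mX (ν : Measure ℝ) {B : ℝ} (h : NuHyp ν B) (X x : ℝ) :
    egfR' (mX ν X) x = X * Jr' ν x := by
  rw [Jr'_eq_egfR' (nu_Supp h)]
  unfold egfR' mX mo
  rw [← tsum_mul_left]
  refine tsum_congr (fun n => ?_)
  rw [if_neg (by omega)]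
  ring

theorem egfR_mX (ν : Measure ℝ) {B : ℝ} (h : NuHyp ν B) {X : ℝ} (hX : 0 < X) (x : ℝ)
    (hs : Summable fun n : ℕ => mX ν X n / (n ! : ℝ) * x ^ n) :
    egfR (mX ν X) x = 1 - X + X * Jr ν x := by
  rw [Jr_eq_egfR (nu_Supp h)]
  have hprob := h.prob
  have hs1 : Summable fun n : ℕ => mX ν X (n + 1) / ((n + 1)! : ℝ) * x ^ (n + 1) :=
    (summable_nat_add_iff 1).2 hs
  have hs2 : Summable fun n : ℕ => mo ν (n + 1) / ((n + 1)! : ℝ) * x ^ (n + 1) := by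
    refine (hs1.mul_left (1 / X)).congr (fun n => ?_)
    unfold mX mo
    rw [if_neg (by omega)]
    field_simp
  have hs3 : Summable fun n : ℕ => mo ν n / (n ! : ℝ) * x ^ n := (summable_nat_add_iff 1).1 hs2
  unfold egfR
  rw [hs.tsum_eq_zero_add, hs3.tsum_eq_zero_add]
  have e0 : mo ν 0 = 1 := by simp [mo]
  have e1 : mX ν X 0 = 1 := by simp [mX]
  rw [e0, e1]
  have e2 : ∑' n : ℕ, mX ν X (n + 1) / ((n + 1)! : ℝ) * x ^ (n + 1) =
      X * ∑' n : ℕ, mo ν (n + 1) / ((n + 1)! : ℝ) * x ^ (n + 1) := by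
    rw [← tsum_mul_left]
    refine tsum_congr (fun n => ?_)
    unfold mX mo
    rw [if_neg (by omega)]
    ring
  rw [e2]
  simp
  ring

theorem int_BV (ν : Measure ℝ) {B : ℝ} (h : NuHyp ν B) (x : ℝ) :
    ∫ w, (B - w) * Real.exp (x * w) ∂ν = B * Jr ν x - Jr' ν x := by
  have hS := nu_Supp h
  have i1 : Integrable (fun w : ℝ => B * Real.exp (x * w)) ν := hS.integrable_cont (by fun_prop)
  have i2 : Integrable (fun w : ℝ => w * Real.exp (x * w)) ν := hS.integrable_cont (by fun_prop)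
  have e : ∀ w : ℝ, (B - w) * Real.exp (x * w) = B * Real.exp (x * w) - w * Real.exp (x * w) := by
    intro w
    ring
  simp_rw [e]
  rw [integral_sub i1 i2, integral_const_mul]
  rfl

/-- Bounds of `g(X) = ρ J'/J`. -/
theorem g_bounds {X x : ℝ} (hX : X ∈ Ioc (0 : ℝ) (1 / 10 ^ 5)) (hx : 302 / 100 ≤ x)
    (he : egfR (mom X) x = 2 * (1 - X)) :
    5 * x - 2 ≤ x * egfR' (mom X) x / (1 - X) ∧
      x * egfR' (mom X) x / (1 - X) ≤ 58286 / 10000 * x := by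
  obtain ⟨ν, hν, hm⟩ := exists_nu hX.1 hX.2
  have hX0 : 0 < X := hX.1
  have hX1 : X < 1 := lt_of_le_of_lt hX.2 (by norm_num)
  have hS := nu_Supp hν
  have hJ := Jr_pos hS x
  have hs : Summable fun n : ℕ => mX ν X n / (n ! : ℝ) * x ^ n := by
    rw [hm]
    exact summable_mom hX0.le hX1.le x
  have h1 := egfR_mX ν hν hX0 x hs
  have h2 := egfR'_mX ν hν X x
  rw [hm] at h1 h2
  have h3 : X * Jr ν x = 1 - X := by linarith
  have h4 : x * egfR' (mom X) x / (1 - X) = x * (Jr' ν x / Jr ν x) := by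
    rw [h2, ← h3]
    field_simp
  have h5 := int_BV ν hν x
  have h6 := hν.ev1 x (by linarith)
  have h7 : 0 ≤ ∫ w, (BX X - w) * Real.exp (x * w) ∂ν := by
    refine integral_nonneg_of_ae ?_
    filter_upwards [hν.supp] with w hw
    exact mul_nonneg (by linarith [hw.2]) (Real.exp_pos _).le
  have hxpos : 0 < x := by linarith
  rw [h5] at h6 h7
  have h8 : Jr' ν x / Jr ν x ≤ BX X := by
    rw [div_le_iff₀ hJ]
    linarith
  have h9 : BX X - 183 / 100 / x ≤ Jr' ν x / Jr ν x := by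
    rw [le_div_iff₀ hJ]
    linarith
  rw [h4]
  have hB1 := hν.Blo
  have hB2 := hν.Bhi
  constructor
  · have e1 : x * (BX X - 183 / 100 / x) = x * BX X - 183 / 100 := by
      field_simp
    have h10 := mul_le_mul_of_nonneg_left h9 hxpos.le
    rw [e1] at h10
    nlinarith
  · have h10 := mul_le_mul_of_nonneg_left h8 hxpos.le
    nlinarith

/-- The largest point of a superlevel set. -/
theorem level_exists {a : ℝ} {g : ℝ → ℝ} (ha : 0 < a) (hg : ContinuousOn g (Ioc 0 a))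
    (ht : Tendsto g (𝓝[>] 0) atTop) {c : ℝ} (hc : g a < c) :
    ∃ x ∈ Ioc 0 a, g x = c ∧ ∀ y ∈ Ioc 0 a, c ≤ g y → y ≤ x := by
  obtain ⟨y0, hy0, hy0'⟩ : ∃ y ∈ Ioc (0 : ℝ) a, c ≤ g y := by
    have h1 : ∀ᶠ y in 𝓝[>] (0 : ℝ), c ≤ g y := ht.eventually_ge_atTop c
    have h2 : ∀ᶠ y in 𝓝[>] (0 : ℝ), y ∈ Ioc (0 : ℝ) a := Ioc_mem_nhdsGT ha
    obtain ⟨y, hy1, hy2⟩ := (h2.and h1).exists
    exact ⟨y, hy1, hy2⟩
  have hsub : Icc y0 a ⊆ Ioc 0 a := fun y hy => ⟨lt_of_lt_of_le hy0.1 hy.1, hy.2⟩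
  have hcl : IsClosed (Icc y0 a ∩ g ⁻¹' Ici c) :=
    (hg.mono hsub).preimage_isClosed_of_isClosed isClosed_Icc isClosed_Ici
  have hcomp : IsCompact (Icc y0 a ∩ g ⁻¹' Ici c) :=
    isCompact_Icc.of_isClosed_subset hcl inter_subset_left
  obtain ⟨x, hx, hmax⟩ := hcomp.exists_isGreatest ⟨y0, ⟨le_rfl, hy0.2⟩, hy0'⟩
  have hxI : x ∈ Ioc 0 a := hsub hx.1
  have hmax' : ∀ y ∈ Ioc 0 a, c ≤ g y → y ≤ x := by
    intro y hy hcy
    rcases le_total y y0 with h | h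
    · exact h.trans hx.1.1
    · exact hmax ⟨⟨h, hy.2⟩, hcy⟩
  refine ⟨x, hxI, ?_, hmax'⟩
  have hxc : c ≤ g x := hx.2
  by_contra hne
  have hgt : c < g x := lt_of_le_of_ne hxc (Ne.symm hne)
  have hxa : x ≤ a := hxI.2
  have hsub2 : Icc x a ⊆ Ioc 0 a := fun y hy => ⟨lt_of_lt_of_le hxI.1 hy.1, hy.2⟩
  obtain ⟨z, hz, hz'⟩ := intermediate_value_Icc' hxa (hg.mono hsub2) ⟨hc.le, hgt.le⟩
  have h1 : z ≤ x := hmax' z (hsub2 hz) (le_of_eq hz'.symm)
  have h2 : z = x := le_antisymm h1 hz.1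
  rw [h2] at hz'
  linarith

end R2aux

open R1aux R2aux in
/-- The saddles. -/
theorem exists_saddles {ρ : ℝ → ℝ} (hc : ContinuousOn ρ (Ioc 0 (1 / 10 ^ 5)))
    (ha : AntitoneOn ρ (Ioc 0 (1 / 10 ^ 5)))
    (hρ : ∀ X ∈ Ioc (0 : ℝ) (1 / 10 ^ 5), 302 / 100 ≤ ρ X ∧ egfR (mom X) (ρ X) = 2 * (1 - X))
    (ht : Tendsto ρ (𝓝[>] 0) atTop) (h5 : ρ (1 / 10 ^ 5) ≤ 304 / 100)
    {n : ℕ} (hn : 120 ≤ n) :
    ∃ x : ℕ → ℝ, (∀ k, 1 ≤ k → 5 * k ^ 2 ≤ n → x k ∈ Ioc (0 : ℝ) (1 / 10 ^ 5) ∧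
        (k : ℝ) * ρ (x k) * egfR' (mom (x k)) (ρ (x k)) = n * (1 - x k)) ∧
      ∀ k, 1 ≤ k → 5 * (k + 1) ^ 2 ≤ n → x k < x (k + 1) := by
  classical
  obtain ⟨g, hgdef⟩ : ∃ g : ℝ → ℝ, g = fun X => ρ X * egfR' (mom X) (ρ X) / (1 - X) := ⟨_, rfl⟩
  have hgX : ∀ X, g X = ρ X * egfR' (mom X) (ρ X) / (1 - X) := fun X => by rw [hgdef]
  have hI' : Ioc (0 : ℝ) (1 / 10 ^ 5) ⊆ Icc 0 1 :=
    fun X h => ⟨h.1.le, h.2.trans (by norm_num)⟩
  have hI1 : ∀ X ∈ Ioc (0 : ℝ) (1 / 10 ^ 5), 0 < 1 - X := by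
    intro X hX
    have : X < 1 := lt_of_le_of_lt hX.2 (by norm_num)
    linarith
  have hgcont : ContinuousOn g (Ioc 0 (1 / 10 ^ 5)) := by
    rw [hgdef]
    have h1 : ContinuousOn (fun X : ℝ => ((X, ρ X) : ℝ × ℝ)) (Ioc 0 (1 / 10 ^ 5)) :=
      continuousOn_id.prodMk hc
    have h2 : ContinuousOn (fun X : ℝ => egfR' (mom X) (ρ X)) (Ioc 0 (1 / 10 ^ 5)) :=
      ContinuousOn.comp (g := fun p : ℝ × ℝ => egfR' (mom p.1) p.2)
        (f := fun X : ℝ => ((X, ρ X) : ℝ × ℝ)) egfR'_mom_continuousOn h1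
        (fun X hX => ⟨hI' hX, mem_univ _⟩)
    exact (hc.mul h2).div (by fun_prop) (fun X hX => (hI1 X hX).ne')
  have hglim : Tendsto g (𝓝[>] 0) atTop := by
    have h1 : Tendsto (fun X => 5 * ρ X - 2) (𝓝[>] 0) atTop :=
      tendsto_atTop_add_const_right _ _ (ht.const_mul_atTop (by norm_num : (0 : ℝ) < 5))
    refine tendsto_atTop_mono' _ ?_ h1
    have h2 : ∀ᶠ y in 𝓝[>] (0 : ℝ), y ∈ Ioc (0 : ℝ) (1 / 10 ^ 5) := Ioc_mem_nhdsGT (by norm_num)
    filter_upwards [h2] with X hX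
    rw [hgX]
    exact (g_bounds hX (hρ X hX).1 (hρ X hX).2).1
  have hend : (1 / 10 ^ 5 : ℝ) ∈ Ioc (0 : ℝ) (1 / 10 ^ 5) := ⟨by norm_num, le_rfl⟩
  have hga : g (1 / 10 ^ 5) < 24 := by
    rw [hgX]
    have h1 := (g_bounds hend (hρ _ hend).1 (hρ _ hend).2).2
    nlinarith
  have hnk : ∀ k : ℕ, 1 ≤ k → 5 * k ^ 2 ≤ n → g (1 / 10 ^ 5) < (n : ℝ) / k := by
    intro k hk1 hk
    refine hga.trans_le ?_
    have hk0 : (0 : ℝ) < k := by exact_mod_cast hk1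
    rw [le_div_iff₀ hk0]
    have h1 : (5 : ℝ) * (k : ℝ) ^ 2 ≤ n := by exact_mod_cast hk
    have h2 : (120 : ℝ) ≤ n := by exact_mod_cast hn
    -- (24 k)^2 = 576 k^2 ≤ 600 k^2 ≤ 120 n ≤ n^2
    by_contra hcon
    push Not at hcon
    nlinarith
  have hex : ∀ k : ℕ, ∃ x : ℝ, 1 ≤ k → 5 * k ^ 2 ≤ n →
      x ∈ Ioc (0 : ℝ) (1 / 10 ^ 5) ∧ g x = (n : ℝ) / k ∧
        ∀ y ∈ Ioc (0 : ℝ) (1 / 10 ^ 5), (n : ℝ) / k ≤ g y → y ≤ x := by
    intro k
    by_cases h1 : 1 ≤ k ∧ 5 * k ^ 2 ≤ n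
    · obtain ⟨x, hx⟩ := level_exists (by norm_num) hgcont hglim (hnk k h1.1 h1.2)
      exact ⟨x, fun _ _ => hx⟩
    · exact ⟨0, fun h2 h3 => absurd ⟨h2, h3⟩ h1⟩
  choose x hx using hex
  refine ⟨x, fun k hk1 hk => ?_, fun k hk1 hk => ?_⟩
  · obtain ⟨h1, h2, -⟩ := hx k hk1 hk
    refine ⟨h1, ?_⟩
    have hk0 : (k : ℝ) ≠ 0 := by
      have : (0 : ℝ) < k := by exact_mod_cast hk1
      exact this.ne'
    have h3 := (hI1 _ h1).ne'
    rw [hgX, div_eq_div_iff h3 hk0] at h2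
    linarith
  · have hk' : 5 * k ^ 2 ≤ n := by
      refine le_trans ?_ hk
      gcongr
      omega
    obtain ⟨h1, h2, -⟩ := hx k hk1 hk'
    obtain ⟨h3, h4, h6⟩ := hx (k + 1) (by omega) hk
    have hk0 : (0 : ℝ) < k := by exact_mod_cast hk1
    have hn0 : (0 : ℝ) < n := by
      have : 0 < n := by omega
      exact_mod_cast this
    have hlt : (n : ℝ) / ((k + 1 : ℕ) : ℝ) < (n : ℝ) / k := by
      push_cast
      exact div_lt_div_of_pos_left hn0 hk0 (by linarith)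
    refine lt_of_le_of_ne (h6 _ h1 (by rw [h2]; exact hlt.le)) (fun h => ?_)
    rw [← h, h2] at h4
    linarith

end

end Pool.Agent.Lib_MP_1dbf07_co
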