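import Pool.Agent.Lib_MP_1dbf07_co.B0

namespace Pool.Agent.Lib_MP_1dbf07_co

open MeasureTheory Set Filter Topology
open scoped Real Nat PowerSeries

noncomputable section

namespace S2Aux

/-- The pointwise estimate `s^n ≤ (n/(e z))^n e^{z s}`. -/
lemma pow_le_exp {s z : ℝ} (hs : 0 ≤ s) (hz : 0 < z) {n : ℕ} (hn : 1 ≤ n) :
    s ^ n ≤ (n / (Real.exp 1 * z)) ^ n * Real.exp (z * s) := by
  have hn0 : (0 : ℝ) < n := by exact_mod_cast hn
  have h1 : z * s / n ≤ Real.exp (z * s / n - 1) := by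
    have := Real.add_one_le_exp (z * s / n - 1)
    linarith
  have h2 : s ≤ (n / z) * Real.exp (z * s / n - 1) := by
    have h3 : s = (n / z) * (z * s / n) := by field_simp
    calc s = (n / z) * (z * s / n) := h3
      _ ≤ (n / z) * Real.exp (z * s / n - 1) :=
        mul_le_mul_of_nonneg_left h1 (by positivity)
  have h4 : s ^ n ≤ ((n / z) * Real.exp (z * s / n - 1)) ^ n := pow_le_pow_left₀ hs h2 n
  refine h4.trans (le_of_eq ?_)
  have h5 : Real.exp (z * s / n - 1) ^ n = Real.exp (z * s) / Real.exp 1 ^ n := by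
    rw [← Real.exp_nat_mul, ← Real.exp_nat_mul, ← Real.exp_sub]
    congr 1
    field_simp
  rw [mul_pow, h5, div_pow, div_pow, mul_pow]
  have h6 : Real.exp 1 ≠ 0 := Real.exp_ne_zero 1
  field_simp

variable {ν : Measure ℝ} {b : ℝ}

lemma ae_pi_nonneg (h : Supp ν 0 b) (m : ℕ) :
    ∀ᵐ x : Fin m → ℝ ∂(Measure.pi fun _ => ν), ∀ i, 0 ≤ x i ∧ x i ≤ b := by
  have := h.prob
  rw [ae_all_iff]
  intro i
  have h2 : Tendsto (fun x : Fin m → ℝ => x i) (ae (Measure.pi fun _ => ν)) (ae ν) :=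
    Measure.tendsto_eval_ae_ae
  have h3 := h2.eventually h.supp
  simpa using h3

lemma integrable_pow_sum (h : Supp ν 0 b) (m n : ℕ) :
    Integrable (fun x : Fin m → ℝ => (∑ i, x i) ^ n) (Measure.pi fun _ => ν) := by
  have := h.prob
  refine Integrable.of_bound (by fun_prop) ((m * b) ^ n) ?_
  filter_upwards [ae_pi_nonneg h m] with x hx
  have h0 : 0 ≤ ∑ i, x i := Finset.sum_nonneg fun i _ => (hx i).1
  rw [norm_pow, Real.norm_eq_abs, abs_of_nonneg h0]
  refine pow_le_pow_left₀ h0 ?_ n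
  calc ∑ i, x i ≤ ∑ i : Fin m, b := Finset.sum_le_sum fun i _ => (hx i).2
    _ = m * b := by simp

lemma Mm_nonneg (h : Supp ν 0 b) (m n : ℕ) : 0 ≤ Mm ν m n := by
  unfold Mm
  apply integral_nonneg_of_ae
  filter_upwards [ae_pi_nonneg h m] with x hx
  exact pow_nonneg (Finset.sum_nonneg fun i _ => (hx i).1) n

end S2Aux

/-- Upper bound for the moments of the sum (`s^n ≤ (n/(e z))^n e^{z s}`). -/
theorem Mm_le {ν : Measure ℝ} {b : ℝ} (h : Supp ν 0 b) {z : ℝ} (hz : 0 < z) (m : ℕ) {n : ℕ}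
    (hn : 1 ≤ n) : Mm ν m n ≤ Jr ν z ^ m * (n / (Real.exp 1 * z)) ^ n := by
  have hprob := h.prob
  have h1 : ∫ x : Fin m → ℝ, ∏ i, Real.exp (z * x i) ∂(Measure.pi fun _ => ν) =
      Jr ν z ^ m := by
    have h2 := integral_fintype_prod_eq_pow (ι := Fin m) (𝕜 := ℝ) (μ := ν)
      (fun w : ℝ => Real.exp (z * w))
    rw [Fintype.card_fin] at h2
    exact h2
  have h3 : Integrable (fun x : Fin m → ℝ => ∏ i, Real.exp (z * x i))
      (Measure.pi fun _ => ν) :=
    Integrable.fintype_prod (f := fun _ : Fin m => fun w : ℝ => Real.exp (z * w))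
      (fun _ => B0.integrable_contE h (by fun_prop))
  unfold Mm
  calc ∫ x : Fin m → ℝ, (∑ i, x i) ^ n ∂(Measure.pi fun _ => ν)
      ≤ ∫ x : Fin m → ℝ, (n / (Real.exp 1 * z)) ^ n * ∏ i, Real.exp (z * x i)
        ∂(Measure.pi fun _ => ν) := by
        apply integral_mono_ae (S2Aux.integrable_pow_sum h m n) (h3.const_mul _)
        filter_upwards [S2Aux.ae_pi_nonneg h m] with x hx
        have h0 : 0 ≤ ∑ i, x i := Finset.sum_nonneg fun i _ => (hx i).1
        have h4 := S2Aux.pow_le_exp h0 hz hn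
        rw [Finset.mul_sum, Real.exp_sum] at h4
        exact h4
    _ = (n / (Real.exp 1 * z)) ^ n * Jr ν z ^ m := by rw [integral_const_mul, h1]
    _ = _ := by ring

end

end Pool.Agent.Lib_MP_1dbf07_co
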