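import Pool.Agent.Lib_MP_1dbf07_co.B0

namespace Pool.Agent.Lib_MP_1dbf07_co

open MeasureTheory Set Filter Topology
open scoped Real Nat PowerSeries

noncomputable section

private lemma s3_log_right {t : ℝ} (ht : 1 / 2 ≤ t) :
    0 ≤ Real.log t + (1 - t) + 273 / 100 * (1 - t) ^ 2 := by
  have h0 : 0 < t := by linarith
  have h1 := Real.one_sub_inv_le_log_of_pos h0
  have h2 : 1 - t⁻¹ + (1 - t) + 273 / 100 * (1 - t) ^ 2 = (1 - t) ^ 2 * (273 / 100 - t⁻¹) := by
    field_simp
    ring
  have h3 : t⁻¹ ≤ 2 := by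
    rw [inv_le_comm₀ h0 (by norm_num)]
    linarith
  have h4 : 0 ≤ (1 - t) ^ 2 * (273 / 100 - t⁻¹) := by
    apply mul_nonneg (sq_nonneg _)
    linarith
  linarith

private lemma s3_log_left : 0 ≤ Real.log (2916 / 100000) + (1 - 2916 / 100000)
    + 273 / 100 * (1 - 2916 / 100000 : ℝ) ^ 2 := by
  have h1 : Real.log (2916 / 100000) = -(5 * Real.log 2 + Real.log (100000 / (2916 * 32))) := by
    rw [← Real.log_rpow (by norm_num), ← Real.log_mul (by positivity) (by norm_num),
      ← Real.log_inv]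
    congr 1
    norm_num
  have h2 : Real.log (100000 / (2916 * 32)) ≤ 100000 / (2916 * 32) - 1 :=
    Real.log_le_sub_one_of_pos (by norm_num)
  have h3 := Real.log_two_lt_d9
  rw [h1]
  norm_num at h2 ⊢
  linarith

private lemma s3_log {t : ℝ} (ht : 2916 / 100000 ≤ t) :
    0 ≤ Real.log t + (1 - t) + 273 / 100 * (1 - t) ^ 2 := by
  rcases le_or_gt (1 / 2) t with h | h
  · exact s3_log_right h
  set g : ℝ → ℝ := fun t => Real.log t + (1 - t) + 273 / 100 * (1 - t) ^ 2 with hg
  have hder : ∀ x : ℝ, 0 < x → HasDerivAt g ((1 - x) * (x⁻¹ - 546 / 100)) x := by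
    intro x hx
    have h1 : HasDerivAt g (x⁻¹ + (0 - 1) + 273 / 100 * ((2 : ℕ) * (1 - x) ^ (2 - 1) * (0 - 1))) x :=
      ((Real.hasDerivAt_log hx.ne').add ((hasDerivAt_const x 1).sub (hasDerivAt_id x))).add
        ((((hasDerivAt_const x 1).sub (hasDerivAt_id x)).pow 2).const_mul _)
    convert h1 using 1
    field_simp
    ring
  rcases le_or_gt t (100 / 546) with h2 | h2
  · have hmono : MonotoneOn g (Icc (2916 / 100000) (100 / 546)) := by
      apply monotoneOn_of_deriv_nonneg (convex_Icc _ _)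
      · intro x hx
        exact (hder x (by linarith [hx.1])).continuousAt.continuousWithinAt
      · intro x hx
        rw [interior_Icc] at hx
        exact (hder x (by linarith [hx.1])).differentiableAt.differentiableWithinAt
      · intro x hx
        rw [interior_Icc] at hx
        have hx0 : 0 < x := by linarith [hx.1]
        rw [(hder x hx0).deriv]
        apply mul_nonneg (by linarith [hx.2])
        rw [sub_nonneg, le_inv_comm₀ (by norm_num) hx0]
        have := hx.2.le
        norm_num at this ⊢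
        exact this
    have := hmono (left_mem_Icc.2 (by norm_num)) ⟨ht, h2⟩ ht
    exact s3_log_left.trans this
  · have hanti : AntitoneOn g (Icc (100 / 546) (1 / 2)) := by
      apply antitoneOn_of_deriv_nonpos (convex_Icc _ _)
      · intro x hx
        exact (hder x (by linarith [hx.1])).continuousAt.continuousWithinAt
      · intro x hx
        rw [interior_Icc] at hx
        exact (hder x (by linarith [hx.1])).differentiableAt.differentiableWithinAt
      · intro x hx
        rw [interior_Icc] at hx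
        have hx0 : 0 < x := by linarith [hx.1]
        rw [(hder x hx0).deriv]
        apply mul_nonpos_of_nonneg_of_nonpos (by linarith [hx.2])
        rw [sub_nonpos, inv_le_comm₀ hx0 (by norm_num)]
        have := hx.1.le
        norm_num at this ⊢
        exact this
    have := hanti ⟨h2.le, h.le⟩ (right_mem_Icc.2 (by norm_num)) h.le
    exact (s3_log_right le_rfl).trans this

private lemma s3_ae {ν : Measure ℝ} {B : ℝ} (h : NuHyp ν B) (k : ℕ) :
    ∀ᵐ x ∂(Measure.pi fun _ : Fin k => ν), ∀ i, 17 / 100 ≤ x i ∧ x i ≤ B := by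
  have := h.prob
  exact eventually_all.2 fun i =>
    (Measure.tendsto_eval_ae_ae (μ := fun _ : Fin k => ν) (i := i)).eventually h.supp

private lemma s3_int {ν : Measure ℝ} {B : ℝ} (h : NuHyp ν B) {k : ℕ} {G : (Fin k → ℝ) → ℝ}
    (hG : Continuous G) : Integrable G (Measure.pi fun _ => ν) := by
  have := h.prob
  have hc : IsCompact (Set.pi univ (fun _ : Fin k => Icc (17 / 100 : ℝ) B)) :=
    isCompact_univ_pi fun _ => isCompact_Icc
  obtain ⟨C, hC⟩ := hc.exists_bound_of_continuousOn hG.continuousOn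
  apply Integrable.of_bound hG.aestronglyMeasurable C
  filter_upwards [s3_ae h k] with x hx
  exact hC x fun i _ => hx i

private lemma s3_int1 {ν : Measure ℝ} {B : ℝ} (h : NuHyp ν B) {g : ℝ → ℝ}
    (hG : Continuous g) : Integrable g ν := by
  have := h.prob
  obtain ⟨C, hC⟩ := (isCompact_Icc (a := (17 / 100 : ℝ)) (b := B)).exists_bound_of_continuousOn
    hG.continuousOn
  apply Integrable.of_bound hG.aestronglyMeasurable C
  filter_upwards [h.supp] with x hx
  exact hC x hx

private lemma s3_exp {ν : Measure ℝ} {B : ℝ} (h : NuHyp ν B) (ρ : ℝ) (k : ℕ) :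
    ∫ x : Fin k → ℝ, Real.exp (ρ * ∑ i, x i) ∂(Measure.pi fun _ => ν) = Jr ν ρ ^ k := by
  have := h.prob
  have h1 := integral_fintype_prod_eq_pow (ι := Fin k) (𝕜 := ℝ) (fun y : ℝ => Real.exp (ρ * y))
    (μ := ν)
  rw [Fintype.card_fin] at h1
  unfold Jr
  rw [← h1]
  congr 1
  funext x
  rw [Finset.mul_sum, Real.exp_sum]

private lemma s3_var {ν : Measure ℝ} {B : ℝ} (h : NuHyp ν B) {ρ : ℝ} (hJ : 0 < Jr ν ρ) (k : ℕ)
    {m : ℝ} (hm : Jr' ν ρ = m * Jr ν ρ) :
    ∫ x : Fin k → ℝ, Real.exp (ρ * ∑ i, x i) * (∑ i, (x i - m)) ^ 2 ∂(Measure.pi fun _ => ν)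
      = k * (Jr ν ρ ^ k * ((∫ w, (w - m) ^ 2 * Real.exp (ρ * w) ∂ν) / Jr ν ρ)) := by
  classical
  have := h.prob
  set V := ∫ w, (w - m) ^ 2 * Real.exp (ρ * w) ∂ν with hV
  set g : Fin k → Fin k → Fin k → ℝ → ℝ := fun i j l y =>
    Real.exp (ρ * y) * (if l = i then (y - m) else 1) * (if l = j then (y - m) else 1) with hg
  have hz : ∫ w, Real.exp (ρ * w) * (w - m) ∂ν = 0 := by
    have e : (fun w => Real.exp (ρ * w) * (w - m))
        = fun w => w * Real.exp (ρ * w) - m * Real.exp (ρ * w) := by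
      funext w; ring
    rw [e, integral_sub (s3_int1 h (by fun_prop)) (s3_int1 h (by fun_prop)), integral_const_mul]
    unfold Jr' Jr at hm
    rw [hm]
    ring
  have hexp : ∀ x : Fin k → ℝ, Real.exp (ρ * ∑ i, x i) * (∑ i, (x i - m)) ^ 2
      = ∑ i, ∑ j, ∏ l, g i j l (x l) := by
    intro x
    rw [sq, Finset.sum_mul_sum, Finset.mul_sum]
    apply Finset.sum_congr rfl
    intro i _
    rw [Finset.mul_sum]
    apply Finset.sum_congr rfl
    intro j _
    simp only [hg]
    rw [Finset.prod_mul_distrib, Finset.prod_mul_distrib, Finset.prod_ite_eq',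
      Finset.prod_ite_eq', Finset.mul_sum, Real.exp_sum]
    simp only [Finset.mem_univ, if_true]
    ring
  have hcont : ∀ i j : Fin k, Continuous (fun x : Fin k → ℝ => ∏ l, g i j l (x l)) := by
    intro i j
    apply continuous_finsetProd
    intro l _
    simp only [hg]
    split_ifs <;> fun_prop
  have hone : ∀ i j : Fin k, ∫ x : Fin k → ℝ, ∏ l, g i j l (x l) ∂(Measure.pi fun _ => ν)
      = if j = i then Jr ν ρ ^ k * (V / Jr ν ρ) else 0 := by
    intro i j
    rw [integral_fintype_prod_eq_prod (𝕜 := ℝ) (fun l => g i j l) (μ := fun _ : Fin k => ν)]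
    by_cases hij : j = i
    · rw [if_pos hij]
      have h1 : ∀ l : Fin k, ∫ y, g i j l y ∂ν
          = Jr ν ρ * (if l = i then V / Jr ν ρ else 1) := by
        intro l
        simp only [hg, hij]
        by_cases hl : l = i
        · simp only [hl, if_true]
          rw [mul_div_cancel₀ _ hJ.ne', hV]
          congr 1
          funext y
          ring
        · simp only [hl, if_false, mul_one]
          rfl
      rw [Finset.prod_congr rfl (fun l _ => h1 l), Finset.prod_mul_distrib,
        Finset.prod_ite_eq']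
      simp
    · rw [if_neg hij]
      apply Finset.prod_eq_zero (Finset.mem_univ i)
      simp only [hg, if_true]
      have : ¬ i = j := fun h => hij h.symm
      simp only [this, if_false, mul_one]
      exact hz
  have e1 : ∫ x : Fin k → ℝ, Real.exp (ρ * ∑ i, x i) * (∑ i, (x i - m)) ^ 2
        ∂(Measure.pi fun _ => ν)
      = ∑ i : Fin k, ∑ j : Fin k, ∫ x : Fin k → ℝ, ∏ l, g i j l (x l) ∂(Measure.pi fun _ => ν) := by
    simp only [hexp]
    rw [integral_finsetSum _ (fun i _ => integrable_finsetSum _ (fun j _ =>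
      s3_int h (hcont i j)))]
    apply Finset.sum_congr rfl
    intro i _
    rw [integral_finsetSum _ (fun j _ => s3_int h (hcont i j))]
  rw [e1]
  simp only [hone]
  simp only [Finset.sum_ite_eq', Finset.mem_univ, if_true, Finset.sum_const, Finset.card_univ,
    Fintype.card_fin, nsmul_eq_mul]

/-- Lower bound for the moments of the sum at the saddle. -/
theorem le_Mm {ν : Measure ℝ} {B : ℝ} (h : NuHyp ν B) {ρ : ℝ} (hρ : 34 / 10 ≤ ρ) {k n : ℕ}
    (hk : 1 ≤ k) (hn : 1 ≤ n) (hs : (k : ℝ) * ρ * Jr' ν ρ = n * Jr ν ρ) :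
    Jr ν ρ ^ k * (n / (Real.exp 1 * ρ)) ^ n * Real.exp (-(14 * k / n)) ≤ Mm ν k n := by
  have := h.prob
  have hρ0 : 0 < ρ := by linarith
  have hk0 : (0 : ℝ) < k := by exact_mod_cast hk
  have hn0 : (0 : ℝ) < n := by exact_mod_cast hn
  have hJ : 0 < Jr ν ρ := by
    unfold Jr
    exact integral_exp_pos (s3_int1 h (by fun_prop))
  -- the tilted mean
  obtain ⟨m, hm⟩ : ∃ m, Jr' ν ρ = m * Jr ν ρ := ⟨Jr' ν ρ / Jr ν ρ, by field_simp⟩
  have hkm : (k : ℝ) * m = n / ρ := by
    rw [hm] at hs
    have : (k : ℝ) * ρ * m = n := by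
      apply mul_right_cancel₀ hJ.ne'
      linarith
    rw [eq_div_iff hρ0.ne']
    linarith
  have hmpos : 0 < m := by
    have : 0 < (k : ℝ) * m := by rw [hkm]; positivity
    exact pos_of_mul_pos_right (by linarith) hk0.le
  have hmB : m ≤ B := by
    have h1 : Jr' ν ρ ≤ B * Jr ν ρ := by
      unfold Jr' Jr
      rw [← integral_const_mul]
      apply integral_mono_ae (s3_int1 h (by fun_prop)) (s3_int1 h (by fun_prop))
      filter_upwards [h.supp] with w hw
      exact mul_le_mul_of_nonneg_right hw.2 (Real.exp_pos _).le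
    rw [hm] at h1
    exact le_of_mul_le_mul_right h1 hJ
  -- the variance
  set V := ∫ w, (w - m) ^ 2 * Real.exp (ρ * w) ∂ν with hV
  have hVle : V / Jr ν ρ ≤ 5 / ρ ^ 2 := by
    have h1 : V = (∫ w, (B - w) ^ 2 * Real.exp (ρ * w) ∂ν) - (B - m) ^ 2 * Jr ν ρ := by
      have e : (fun w => (B - w) ^ 2 * Real.exp (ρ * w))
          = fun w => (w - m) ^ 2 * Real.exp (ρ * w)
            + ((-(2 * (B - m))) * (w * Real.exp (ρ * w))
              + (B ^ 2 - m ^ 2) * Real.exp (ρ * w)) := by
        funext w; ring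
      rw [e, integral_add (s3_int1 h (by fun_prop)) (s3_int1 h (by fun_prop)),
        integral_add (s3_int1 h (by fun_prop)) (s3_int1 h (by fun_prop)),
        integral_const_mul, integral_const_mul, ← hV]
      have h2 : ∫ w, w * Real.exp (ρ * w) ∂ν = m * Jr ν ρ := hm
      have h3 : ∫ w, Real.exp (ρ * w) ∂ν = Jr ν ρ := rfl
      rw [h2, h3]
      ring
    have h2 := h.ev2' ρ hρ
    rw [div_le_iff₀ hJ, h1]
    have h3 : 0 ≤ (B - m) ^ 2 * Jr ν ρ := by positivity
    linarith
  -- xi
  have hxi : ∀ x : Fin k → ℝ, 1 - ρ * (∑ i, x i) / n = -(ρ / n) * ∑ i, (x i - m) := by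
    intro x
    rw [Finset.sum_sub_distrib, Finset.sum_const, Finset.card_univ, Fintype.card_fin,
      nsmul_eq_mul, hkm]
    field_simp
    ring
  set E : (Fin k → ℝ) → ℝ := fun x => Real.exp (ρ * ∑ i, x i) with hE
  have hquad : ∫ x : Fin k → ℝ, E x * (1 - ρ * (∑ i, x i) / n) ^ 2 ∂(Measure.pi fun _ => ν)
      ≤ 5 * k / n ^ 2 * Jr ν ρ ^ k := by
    have e : (fun x : Fin k → ℝ => E x * (1 - ρ * (∑ i, x i) / n) ^ 2)
        = fun x => (ρ / n) ^ 2 * (Real.exp (ρ * ∑ i, x i) * (∑ i, (x i - m)) ^ 2) := by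
      funext x
      rw [hxi x]
      simp only [hE]
      ring
    rw [e, integral_const_mul, s3_var h hJ k hm, ← hV]
    have h1 : (ρ / n) ^ 2 * (k * (Jr ν ρ ^ k * (V / Jr ν ρ)))
        ≤ (ρ / n) ^ 2 * (k * (Jr ν ρ ^ k * (5 / ρ ^ 2))) := by gcongr
    apply h1.trans
    apply le_of_eq
    field_simp
  set c : ℝ := 14 * k / n with hc
  set A : ℝ := (n / (Real.exp 1 * ρ)) ^ n * Real.exp (-c) with hA
  have hApos : 0 < A := by positivity
  -- the pointwise inequality
  have hpt : ∀ᵐ x ∂(Measure.pi fun _ : Fin k => ν),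
      A * ((1 + c) * E x - 273 / 100 * n * (E x * (1 - ρ * (∑ i, x i) / n) ^ 2))
        ≤ (∑ i, x i) ^ n := by
    filter_upwards [s3_ae h k] with x hx
    set S := ∑ i, x i with hS
    have hSk : 17 / 100 * (k : ℝ) ≤ S := by
      rw [hS]
      calc 17 / 100 * (k : ℝ) = ∑ i : Fin k, (17 / 100 : ℝ) := by
            rw [Finset.sum_const, Finset.card_univ, Fintype.card_fin, nsmul_eq_mul]
            ring
        _ ≤ _ := Finset.sum_le_sum fun i _ => (hx i).1
    have hSpos : 0 < S := lt_of_lt_of_le (by positivity) hSk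
    set t := ρ * S / n with ht
    have htlow : 2916 / 100000 ≤ t := by
      have h1 : ρ * (17 / 100 * k) / n ≤ t := by rw [ht]; gcongr
      have h2 : ρ * (17 / 100 * (k : ℝ)) / n = 17 / 100 / m := by
        have : (n : ℝ) = k * m * ρ := by rw [hkm]; field_simp
        rw [this]
        field_simp
      have h3 : (17 / 100 : ℝ) / (58286 / 10000) ≤ 17 / 100 / m := by
        have : m ≤ 58286 / 10000 := hmB.trans h.Bhi
        gcongr
      have h4 : (2916 / 100000 : ℝ) ≤ (17 / 100 : ℝ) / (58286 / 10000) := by norm_num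
      linarith
    have htpos : 0 < t := by linarith
    have hlog := s3_log htlow
    have hSt : S = n / ρ * t := by rw [ht]; field_simp
    -- S ^ n = exp (n log S)
    have h1 : S ^ n = Real.exp (n * Real.log S) := by
      rw [← Real.log_pow, Real.exp_log (by positivity)]
    have h2 : Real.log S = Real.log (n / ρ) + Real.log t := by
      rw [hSt, Real.log_mul (by positivity) htpos.ne']
    have h3 : (n / (Real.exp 1 * ρ)) ^ n = Real.exp (n * (Real.log (n / ρ) - 1)) := by
      have : Real.log (n / ρ) - 1 = Real.log (n / (Real.exp 1 * ρ)) := by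
        have e : (n : ℝ) / (Real.exp 1 * ρ) = n / ρ / Real.exp 1 := by field_simp
        rw [e, Real.log_div (by positivity) (Real.exp_pos 1).ne', Real.log_exp]
      rw [this, ← Real.log_pow, Real.exp_log (by positivity)]
    have h4 : (n / (Real.exp 1 * ρ)) ^ n * E x
        * Real.exp (-(273 / 100 * n * (1 - t) ^ 2)) ≤ S ^ n := by
      rw [h1, h3, hE, ← Real.exp_add, ← Real.exp_add]
      apply Real.exp_le_exp.2
      have h5 : ρ * S = n * t := by rw [ht]; field_simp
      change n * (Real.log (n / ρ) - 1) + ρ * S + -(273 / 100 * n * (1 - t) ^ 2) ≤ _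
      rw [h5, h2]
      nlinarith [hlog, mul_nonneg hn0.le hlog]
    have h5 : Real.exp (-c) * ((1 + c) - 273 / 100 * n * (1 - t) ^ 2)
        ≤ Real.exp (-(273 / 100 * n * (1 - t) ^ 2)) := by
      have h6 := Real.add_one_le_exp (c - 273 / 100 * n * (1 - t) ^ 2)
      have h7 : Real.exp (-(273 / 100 * n * (1 - t) ^ 2))
          = Real.exp (-c) * Real.exp (c - 273 / 100 * n * (1 - t) ^ 2) := by
        rw [← Real.exp_add]
        congr 1
        ring
      rw [h7]
      apply mul_le_mul_of_nonneg_left _ (Real.exp_pos _).le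
      linarith
    calc A * ((1 + c) * E x - 273 / 100 * n * (E x * (1 - t) ^ 2))
        = (n / (Real.exp 1 * ρ)) ^ n * E x
          * (Real.exp (-c) * ((1 + c) - 273 / 100 * n * (1 - t) ^ 2)) := by
          rw [hA]; ring
      _ ≤ (n / (Real.exp 1 * ρ)) ^ n * E x
          * Real.exp (-(273 / 100 * n * (1 - t) ^ 2)) := by
          apply mul_le_mul_of_nonneg_left h5
          simp only [hE]
          positivity
      _ ≤ S ^ n := h4
  -- integrate
  have hEc : Continuous E := by
    simp only [hE]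
    fun_prop
  have hmono := integral_mono_ae (μ := Measure.pi fun _ : Fin k => ν)
    (s3_int h (k := k) (G := fun x => A * ((1 + c) * E x
      - 273 / 100 * n * (E x * (1 - ρ * (∑ i, x i) / n) ^ 2))) (by fun_prop))
    (s3_int h (k := k) (G := fun x => (∑ i, x i) ^ n) (by fun_prop)) hpt
  rw [integral_const_mul, integral_sub (s3_int h (by fun_prop)) (s3_int h (by fun_prop)),
    integral_const_mul, integral_const_mul, show ∫ x : Fin k → ℝ, E x ∂(Measure.pi fun _ => ν)
      = Jr ν ρ ^ k from s3_exp h ρ k] at hmono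
  have hfin : Jr ν ρ ^ k ≤ (1 + c) * Jr ν ρ ^ k - 273 / 100 * n
      * ∫ x : Fin k → ℝ, E x * (1 - ρ * (∑ i, x i) / n) ^ 2 ∂(Measure.pi fun _ => ν) := by
    have h1 : 273 / 100 * (n : ℝ)
        * (∫ x : Fin k → ℝ, E x * (1 - ρ * (∑ i, x i) / n) ^ 2 ∂(Measure.pi fun _ => ν))
        ≤ 273 / 100 * n * (5 * k / n ^ 2 * Jr ν ρ ^ k) := by gcongr
    have h2 : 273 / 100 * (n : ℝ) * (5 * k / n ^ 2 * Jr ν ρ ^ k)
        = (1365 / 100 * k / n) * Jr ν ρ ^ k := by
      field_simp
      ring
    have h3 : (1365 / 100 * (k : ℝ) / n) * Jr ν ρ ^ k ≤ c * Jr ν ρ ^ k := by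
      rw [hc]
      gcongr
      norm_num
    linarith
  calc Jr ν ρ ^ k * (n / (Real.exp 1 * ρ)) ^ n * Real.exp (-(14 * k / n))
      = A * Jr ν ρ ^ k := by rw [hA, hc]; ring
    _ ≤ A * ((1 + c) * Jr ν ρ ^ k - 273 / 100 * n
      * ∫ x : Fin k → ℝ, E x * (1 - ρ * (∑ i, x i) / n) ^ 2 ∂(Measure.pi fun _ => ν)) :=
        mul_le_mul_of_nonneg_left hfin hApos.le
    _ ≤ _ := hmono

end

end Pool.Agent.Lib_MP_1dbf07_co
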