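import Pool.Agent.Lib_MP_1dbf07_co.B0

namespace Pool.Agent.Lib_MP_1dbf07_co

open MeasureTheory Set Filter Topology
open scoped Real Nat PowerSeries

noncomputable section

namespace S4Aux

variable {ν : Measure ℝ} {B : ℝ}

lemma supp_of (h : NuHyp ν B) : Supp ν 0 B := by
  refine ⟨h.prob, ?_⟩
  filter_upwards [h.supp] with w hw
  exact ⟨by linarith [hw.1], hw.2⟩

/-- The second moment integral. -/
def Jr2 (ν : Measure ℝ) (x : ℝ) : ℝ := ∫ w, w ^ 2 * Real.exp (x * w) ∂ν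

lemma hasDeriv2 (h : NuHyp ν B) (x : ℝ) : HasDerivAt (Jr' ν) (Jr2 ν x) x := by
  have h1 := ProbabilityTheory.hasDerivAt_integral_pow_mul_exp_real (X := (id : ℝ → ℝ)) (μ := ν)
    (t := x) (by rw [B0.expSet (supp_of h)]; simp) 1
  have h2 : (fun t => ∫ (x : ℝ), (fun ω => (id ω : ℝ) ^ 1 * Real.exp (t * id ω)) x ∂ν) = Jr' ν := by
    funext t
    simp only [pow_one, id]
    rfl
  rw [h2] at h1
  exact h1

lemma var_le (h : NuHyp ν B) {x : ℝ} (hx : 34 / 10 ≤ x) :
    Jr2 ν x * Jr ν x - Jr' ν x ^ 2 ≤ 5 / x ^ 2 * Jr ν x ^ 2 := by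
  have hS := supp_of h
  have hJ := Jr_pos hS x
  have h1 := h.ev2' x hx
  have h2 : ∫ w, (B - w) ^ 2 * Real.exp (x * w) ∂ν =
      B ^ 2 * Jr ν x - 2 * B * Jr' ν x + Jr2 ν x := by
    have e1 : ∀ w : ℝ, (B - w) ^ 2 * Real.exp (x * w) =
        (B ^ 2 * Real.exp (x * w) - 2 * B * (w * Real.exp (x * w))) +
          w ^ 2 * Real.exp (x * w) := by
      intro w
      ring
    simp_rw [e1]
    have i0 : Integrable (fun w : ℝ => Real.exp (x * w)) ν :=
      B0.integrable_contE hS (by fun_prop)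
    have i1 : Integrable (fun w : ℝ => w * Real.exp (x * w)) ν :=
      B0.integrable_contE hS (by fun_prop)
    have i2 : Integrable (fun w : ℝ => w ^ 2 * Real.exp (x * w)) ν :=
      B0.integrable_contE hS (by fun_prop)
    have i01 : Integrable (fun w : ℝ => B ^ 2 * Real.exp (x * w) -
        2 * B * (w * Real.exp (x * w))) ν := (i0.const_mul _).sub (i1.const_mul _)
    rw [integral_add i01 i2, integral_sub (i0.const_mul _) (i1.const_mul _),
      integral_const_mul, integral_const_mul]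
    rfl
  rw [h2] at h1
  have h3 : Jr ν x * (B ^ 2 * Jr ν x - 2 * B * Jr' ν x + Jr2 ν x) ≤
      Jr ν x * (5 / x ^ 2 * Jr ν x) := mul_le_mul_of_nonneg_left h1 hJ.le
  nlinarith [sq_nonneg (B * Jr ν x - Jr' ν x)]

/-- The derivative of the logarithm. -/
lemma hasDeriv_log (h : NuHyp ν B) (x : ℝ) :
    HasDerivAt (fun y => Real.log (Jr ν y)) (Jr' ν x / Jr ν x) x :=
  (Jr_hasDerivAt (supp_of h) x).log (Jr_pos (supp_of h) x).ne'

lemma hasDeriv_quot (h : NuHyp ν B) (x : ℝ) :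
    HasDerivAt (fun y => Jr' ν y / Jr ν y)
      ((Jr2 ν x * Jr ν x - Jr' ν x * Jr' ν x) / Jr ν x ^ 2) x :=
  (hasDeriv2 h x).div (Jr_hasDerivAt (supp_of h) x) (Jr_pos (supp_of h) x).ne'

lemma antitone_aux (h : NuHyp ν B) {s : ℝ} (hs : 34 / 10 ≤ s) :
    AntitoneOn (fun x => Jr' ν x / Jr ν x - 5 / s ^ 2 * x) (Ici s) := by
  have hd : ∀ x, HasDerivAt (fun x => Jr' ν x / Jr ν x - 5 / s ^ 2 * x)
      ((Jr2 ν x * Jr ν x - Jr' ν x * Jr' ν x) / Jr ν x ^ 2 - 5 / s ^ 2 * 1) x :=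
    fun x => (hasDeriv_quot h x).sub ((hasDerivAt_id x).const_mul _)
  apply antitoneOn_of_deriv_nonpos (convex_Ici s)
  · exact fun x _ => (hd x).continuousAt.continuousWithinAt
  · exact fun x _ => (hd x).differentiableAt.differentiableWithinAt
  · intro x hx
    rw [interior_Ici] at hx
    rw [(hd x).deriv]
    have hsx : s < x := hx
    have hs0 : 0 < s := by linarith
    have hJ := Jr_pos (supp_of h) x
    have h1 := var_le h (x := x) (by linarith)
    have h2 : (Jr2 ν x * Jr ν x - Jr' ν x * Jr' ν x) / Jr ν x ^ 2 ≤ 5 / x ^ 2 := by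
      rw [div_le_iff₀ (by positivity)]
      linarith [sq (Jr' ν x)]
    have h3 : 5 / x ^ 2 ≤ 5 / s ^ 2 := by
      apply div_le_div_of_nonneg_left (by norm_num) (by positivity)
      exact pow_le_pow_left₀ hs0.le hsx.le 2
    linarith

end S4Aux

open S4Aux

/-- Second order bound of `log J`. -/
theorem log_Jr_le {ν : Measure ℝ} {B : ℝ} (h : NuHyp ν B) {s ρ z : ℝ} (hs : 34 / 10 ≤ s)
    (hρ : s ≤ ρ) (hz : s ≤ z) :
    Real.log (Jr ν z) ≤ Real.log (Jr ν ρ) + (z - ρ) * (Jr' ν ρ / Jr ν ρ)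
      + 5 / (2 * s ^ 2) * (z - ρ) ^ 2 := by
  have hs0 : 0 < s := by linarith
  have hanti := antitone_aux h hs
  set g : ℝ → ℝ := fun x => Real.log (Jr ν x) - (x - ρ) * (Jr' ν ρ / Jr ν ρ)
    - 5 / (2 * s ^ 2) * (x - ρ) ^ 2 with hg
  have hd : ∀ x, HasDerivAt g (Jr' ν x / Jr ν x - 1 * (Jr' ν ρ / Jr ν ρ)
      - 5 / (2 * s ^ 2) * (2 * (x - ρ) ^ 1 * 1)) x := by
    intro x
    have h1 : HasDerivAt (fun x : ℝ => x - ρ) 1 x := (hasDerivAt_id x).sub_const ρ
    have h2 := ((hasDeriv_log h x).sub (h1.mul_const (Jr' ν ρ / Jr ν ρ))).sub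
      ((h1.pow 2).const_mul (5 / (2 * s ^ 2)))
    exact h2
  have hval : ∀ x, Jr' ν x / Jr ν x - 1 * (Jr' ν ρ / Jr ν ρ)
      - 5 / (2 * s ^ 2) * (2 * (x - ρ) ^ 1 * 1) =
      (Jr' ν x / Jr ν x - 5 / s ^ 2 * x) - (Jr' ν ρ / Jr ν ρ - 5 / s ^ 2 * ρ) := by
    intro x
    have : (5 : ℝ) / (2 * s ^ 2) = 5 / s ^ 2 / 2 := by
      field_simp
    rw [this]
    ring
  have hgρ : g ρ = Real.log (Jr ν ρ) := by
    simp [hg]
  have hfin : g z ≤ g ρ := by
    rcases le_total ρ z with hzz | hzz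
    · have h1 : AntitoneOn g (Ici ρ) := by
        apply antitoneOn_of_deriv_nonpos (convex_Ici ρ)
        · exact fun x _ => (hd x).continuousAt.continuousWithinAt
        · exact fun x _ => (hd x).differentiableAt.differentiableWithinAt
        · intro x hx
          rw [interior_Ici] at hx
          have hx' : ρ < x := hx
          rw [(hd x).deriv, hval x]
          have := hanti (mem_Ici.mpr hρ) (mem_Ici.mpr (hρ.trans hx'.le)) hx'.le
          simp only at this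
          linarith
      exact h1 (mem_Ici.mpr le_rfl) (mem_Ici.mpr hzz) hzz
    · have h1 : MonotoneOn g (Icc s ρ) := by
        apply monotoneOn_of_deriv_nonneg (convex_Icc s ρ)
        · exact fun x _ => (hd x).continuousAt.continuousWithinAt
        · exact fun x _ => (hd x).differentiableAt.differentiableWithinAt
        · intro x hx
          rw [interior_Icc] at hx
          rw [(hd x).deriv, hval x]
          have := hanti (mem_Ici.mpr hx.1.le) (mem_Ici.mpr hρ) hx.2.le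
          simp only at this
          linarith
      exact h1 ⟨hz, hzz⟩ ⟨hρ, le_rfl⟩ hzz
  rw [hgρ] at hfin
  have h2 : g z = Real.log (Jr ν z) - (z - ρ) * (Jr' ν ρ / Jr ν ρ)
    - 5 / (2 * s ^ 2) * (z - ρ) ^ 2 := rfl
  rw [h2] at hfin
  linarith

end

end Pool.Agent.Lib_MP_1dbf07_co
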