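import Pool.Agent.Lib_MP_1dbf07_co.Defs

namespace Pool.Agent.Lib_MP_1dbf07_co

open MeasureTheory Set Filter Topology
open scoped Real Nat PowerSeries

noncomputable section

namespace S5

theorem exp_neg_le {x : ℝ} (hx : 0 ≤ x) : Real.exp (-x) ≤ 1 / (1 + x + x ^ 2 / 2) := by
  rw [Real.exp_neg, ← one_div]
  exact one_div_le_one_div_of_le (by positivity) (Real.quadratic_le_exp_of_nonneg hx)

theorem exp_four : Real.exp (-4) ≤ 0.02 := by
  have h1 := Real.exp_one_gt_d9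
  have h2 : Real.exp 4 = Real.exp 1 ^ 4 := by
    rw [← Real.exp_nat_mul]; norm_num
  have h3 : (50 : ℝ) ≤ Real.exp 4 := by
    rw [h2]
    calc (50 : ℝ) ≤ 2.7182818283 ^ 4 := by norm_num
      _ ≤ _ := pow_le_pow_left₀ (by norm_num) h1.le 4
  rw [Real.exp_neg, inv_eq_one_div]
  calc 1 / Real.exp 4 ≤ 1 / 50 := one_div_le_one_div_of_le (by norm_num) h3
    _ = 0.02 := by norm_num

theorem exp_five : Real.exp (-5) ≤ 0.01 := by
  have h1 := Real.exp_one_gt_d9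
  have h2 : Real.exp 5 = Real.exp 1 ^ 5 := by
    rw [← Real.exp_nat_mul]; norm_num
  have h3 : (100 : ℝ) ≤ Real.exp 5 := by
    rw [h2]
    calc (100 : ℝ) ≤ 2.7182818283 ^ 5 := by norm_num
      _ ≤ _ := pow_le_pow_left₀ (by norm_num) h1.le 5
  rw [Real.exp_neg, inv_eq_one_div]
  calc 1 / Real.exp 5 ≤ 1 / 100 := one_div_le_one_div_of_le (by norm_num) h3
    _ = 0.01 := by norm_num

/-- basic facts on the parameters -/
theorem params {n k : ℕ} (hn : 120 ≤ n) (hk : 1 ≤ k) (h5 : 5 * k ^ 2 ≤ n) :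
    (k ≤ 4 ∧ (120 : ℝ) ≤ n) ∨ ((5 : ℝ) ≤ k ∧ 5 * (k : ℝ) ^ 2 ≤ n) := by
  rcases Nat.lt_or_ge k 5 with h | h
  · exact Or.inl ⟨by omega, by exact_mod_cast hn⟩
  · exact Or.inr ⟨by exact_mod_cast h, by exact_mod_cast h5⟩

theorem E1 {n k : ℕ} (hn : 120 ≤ n) (hk : 1 ≤ k) (h5 : 5 * k ^ 2 ≤ n) :
    -(1 / 2) * ((n : ℝ) / (k * (k + 1))) + 5 * ((k : ℝ) + 1) / (2 * k ^ 2) + 14 * k / n ≤
      -0.92 := by
  rcases params hn hk h5 with ⟨h, hN⟩ | ⟨hK, hN⟩
  · have h14 : (14 : ℝ) / n ≤ 14 / 120 := div_le_div_of_nonneg_left (by norm_num) (by norm_num) hN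
    interval_cases k
    · norm_num at h14 ⊢; linarith
    · have e : (14 : ℝ) * (2 : ℕ) / n = 2 * (14 / n) := by push_cast; ring
      rw [e]; norm_num at h14 ⊢; linarith
    · have e : (14 : ℝ) * (3 : ℕ) / n = 3 * (14 / n) := by push_cast; ring
      rw [e]; norm_num at h14 ⊢; linarith
    · have e : (14 : ℝ) * (4 : ℕ) / n = 4 * (14 / n) := by push_cast; ring
      rw [e]; norm_num at h14 ⊢; linarith
  · set K : ℝ := (k : ℝ)
    set N : ℝ := (n : ℝ)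
    have hK0 : 0 < K := by linarith
    have h1 : 25 / 6 ≤ N / (K * (K + 1)) := by
      rw [div_le_div_iff₀ (by norm_num) (by positivity)]
      nlinarith
    have h2 : 5 * (K + 1) / (2 * K ^ 2) ≤ 0.6 := by
      rw [div_le_iff₀ (by positivity)]
      nlinarith
    have h3 : 14 * K / N ≤ 0.56 := by
      rw [div_le_iff₀ (by nlinarith)]
      nlinarith
    linarith

theorem Q {n k : ℕ} (hn : 120 ≤ n) (hk : 1 ≤ k) (h5 : 5 * k ^ 2 ≤ n) :
    -((n : ℝ) / (k * (k + 1))) + 5 / (2 * (k : ℝ) ^ 2) ≤ -4 := by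
  rcases params hn hk h5 with ⟨h, hN⟩ | ⟨hK, hN⟩
  · interval_cases k
    · norm_num; linarith
    · norm_num; linarith
    · norm_num; linarith
    · norm_num; linarith
  · set K : ℝ := (k : ℝ)
    set N : ℝ := (n : ℝ)
    have hK0 : 0 < K := by linarith
    have h1 : 25 / 6 ≤ N / (K * (K + 1)) := by
      rw [div_le_div_iff₀ (by norm_num) (by positivity)]
      nlinarith
    have h2 : 5 / (2 * K ^ 2) ≤ 0.1 := by
      rw [div_le_iff₀ (by positivity)]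
      nlinarith
    linarith

theorem up_le {n k : ℕ} (hn : 120 ≤ n) (hk : 1 ≤ k) (h5 : 5 * k ^ 2 ≤ n) (j : ℕ) :
    upB n k (j + 1) ≤ 0.53 * 0.02 ^ j := by
  have hK : (0 : ℝ) < k := by exact_mod_cast hk
  have hN : (0 : ℝ) < n := by
    have : (120 : ℝ) ≤ n := by exact_mod_cast hn
    linarith
  unfold upB
  have h1 : (k : ℝ) / (k + ((j + 1 : ℕ) : ℝ)) ≤ 1 := by
    rw [div_le_one (by positivity)]
    have : (0 : ℝ) ≤ ((j + 1 : ℕ) : ℝ) := by positivity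
    linarith
  have h2 : -((((j + 1 : ℕ) : ℝ)) - 1 / 2) * n / (k * (k + 1))
      + 5 * (k + ((j + 1 : ℕ) : ℝ)) / (2 * k ^ 2) + 14 * k / n ≤ -0.92 + (j : ℝ) * (-4) := by
    have e : -((((j + 1 : ℕ) : ℝ)) - 1 / 2) * n / (k * (k + 1))
      + 5 * (k + ((j + 1 : ℕ) : ℝ)) / (2 * k ^ 2) + 14 * k / n =
      (-(1 / 2) * ((n : ℝ) / (k * (k + 1))) + 5 * ((k : ℝ) + 1) / (2 * k ^ 2) + 14 * k / n) +
      (j : ℝ) * (-((n : ℝ) / (k * (k + 1))) + 5 / (2 * (k : ℝ) ^ 2)) := by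
      push_cast
      field_simp
      ring
    rw [e]
    have := mul_le_mul_of_nonneg_left (Q hn hk h5) (Nat.cast_nonneg j : (0 : ℝ) ≤ j)
    linarith [E1 hn hk h5]
  have h3 : Real.exp (-0.92 + (j : ℝ) * (-4)) ≤ 0.53 * 0.02 ^ j := by
    rw [Real.exp_add, Real.exp_nat_mul]
    have h4 : Real.exp (-0.92) ≤ 0.53 := by
      refine (exp_neg_le (by norm_num)).trans ?_
      norm_num
    exact mul_le_mul h4 (pow_le_pow_left₀ (Real.exp_pos _).le exp_four j) (by positivity)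
      (by norm_num)
  calc (k : ℝ) / (k + ((j + 1 : ℕ) : ℝ)) * Real.exp _ ≤ 1 * Real.exp _ :=
        mul_le_mul h1 (Real.exp_le_exp.2 h2) (Real.exp_pos _).le (by norm_num)
    _ ≤ 0.53 * 0.02 ^ j := by rw [one_mul]; exact h3

theorem up_nonneg (n k j : ℕ) : 0 ≤ upB n k j := by
  unfold upB
  positivity

theorem F1 {n k : ℕ} (hn : 120 ≤ n) (hk : 2 ≤ k) (h5 : 5 * k ^ 2 ≤ n) :
    (k : ℝ) / (k - 1) * Real.exp (-((n : ℝ) / (k * (2 * k - 1))) + 5 / (2 * ((k : ℝ) - 1)) +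
      14 * k / n) ≤ 0.4 := by
  rcases params hn (by omega) h5 with ⟨h, hN⟩ | ⟨hK, hN⟩
  · have h14 : (14 : ℝ) / n ≤ 14 / 120 := div_le_div_of_nonneg_left (by norm_num) (by norm_num) hN
    have h1 : (k : ℝ) / (k - 1) ≤ 2 := by
      have : (2 : ℝ) ≤ k := by exact_mod_cast hk
      rw [div_le_iff₀ (by linarith)]
      linarith
    have h2 : -((n : ℝ) / (k * (2 * k - 1))) + 5 / (2 * ((k : ℝ) - 1)) + 14 * k / n ≤ -2.9 := by
      interval_cases k
      · have e : (14 : ℝ) * (2 : ℕ) / n = 2 * (14 / n) := by push_cast; ring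
        rw [e]; norm_num at h14 ⊢; linarith
      · have e : (14 : ℝ) * (3 : ℕ) / n = 3 * (14 / n) := by push_cast; ring
        rw [e]; norm_num at h14 ⊢; linarith
      · have e : (14 : ℝ) * (4 : ℕ) / n = 4 * (14 / n) := by push_cast; ring
        rw [e]; norm_num at h14 ⊢; linarith
    have h3 : Real.exp (-2.9) ≤ 0.2 := by
      refine (exp_neg_le (by norm_num)).trans ?_
      norm_num
    calc _ ≤ 2 * Real.exp (-2.9) :=
          mul_le_mul h1 (Real.exp_le_exp.2 h2) (Real.exp_pos _).le (by norm_num)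
      _ ≤ 0.4 := by linarith
  · set K : ℝ := (k : ℝ)
    set N : ℝ := (n : ℝ)
    have hK0 : 0 < K := by linarith
    have h1 : K / (K - 1) ≤ 1.25 := by
      rw [div_le_iff₀ (by linarith)]
      linarith
    have h2 : 2.5 ≤ N / (K * (2 * K - 1)) := by
      rw [le_div_iff₀ (mul_pos hK0 (by linarith))]
      nlinarith
    have h3 : 5 / (2 * (K - 1)) ≤ 0.625 := by
      rw [div_le_iff₀ (by linarith)]
      linarith
    have h4 : 14 * K / N ≤ 0.56 := by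
      rw [div_le_iff₀ (by nlinarith)]
      nlinarith
    have h5 : Real.exp (-1.315) ≤ 0.32 := by
      refine (exp_neg_le (by norm_num)).trans ?_
      norm_num
    calc _ ≤ 1.25 * Real.exp (-1.315) :=
          mul_le_mul h1 (Real.exp_le_exp.2 (by linarith)) (Real.exp_pos _).le (by norm_num)
      _ ≤ 0.4 := by linarith

theorem lo_le {n k : ℕ} (hn : 120 ≤ n) (hk : 2 ≤ k) (h5 : 5 * k ^ 2 ≤ n) (i : ℕ)
    (hi : i + 1 < k) : loB n k (i + 1) ≤ 0.4 * 0.02 ^ i := by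
  have hK : (2 : ℝ) ≤ k := by exact_mod_cast hk
  have hN : (0 : ℝ) < n := by
    have : (120 : ℝ) ≤ n := by exact_mod_cast hn
    linarith
  have hik : (i : ℝ) + 2 ≤ k := by exact_mod_cast hi
  have hi0 : (0 : ℝ) ≤ i := Nat.cast_nonneg i
  have h5r : 5 * (k : ℝ) ^ 2 ≤ n := by exact_mod_cast h5
  unfold loB
  have e1 : (((i + 1 : ℕ) : ℝ)) - 1 = i := by push_cast; ring
  rw [e1]
  have h1 : (k : ℝ) / (k - ((i + 1 : ℕ) : ℝ)) ≤ k / (k - 1) * 2 ^ i := by
    have h2 : (i : ℝ) + 1 ≤ 2 ^ i := by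
      have := Nat.lt_two_pow_self (n := i)
      exact_mod_cast this
    push_cast
    rw [div_mul_eq_mul_div, div_le_div_iff₀ (by linarith) (by linarith)]
    have h3 : (k : ℝ) - 1 ≤ 2 ^ i * (k - (i + 1)) := by
      have h4 : ((i : ℝ) + 1) * (k - (i + 1)) ≤ 2 ^ i * (k - (i + 1)) :=
        mul_le_mul_of_nonneg_right h2 (by linarith)
      nlinarith
    calc (k : ℝ) * (k - 1) ≤ k * (2 ^ i * (k - (i + 1))) :=
          mul_le_mul_of_nonneg_left h3 (by linarith)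
      _ = k * 2 ^ i * (k - (i + 1)) := by ring
  have h2 : -(n : ℝ) / (k * (2 * k - 1)) - (i : ℝ) * n / (k * (k - 1))
      + 5 * (k - ((i + 1 : ℕ) : ℝ)) / (2 * (k - 1) ^ 2) + 14 * k / n ≤
      (-((n : ℝ) / (k * (2 * k - 1))) + 5 / (2 * ((k : ℝ) - 1)) + 14 * k / n) +
        (i : ℝ) * (-5) := by
    have h3 : (5 : ℝ) ≤ n / (k * (k - 1)) := by
      rw [le_div_iff₀ (mul_pos (by linarith) (by linarith))]
      nlinarith
    have h4 : (i : ℝ) * 5 ≤ (i : ℝ) * n / (k * (k - 1)) := by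
      rw [mul_div_assoc]
      exact mul_le_mul_of_nonneg_left h3 hi0
    have h6 : 5 * ((k : ℝ) - ((i + 1 : ℕ) : ℝ)) / (2 * (k - 1) ^ 2) ≤ 5 / (2 * ((k : ℝ) - 1)) := by
      push_cast
      rw [div_le_div_iff₀ (by nlinarith) (by linarith)]
      nlinarith
    have h7 : -(n : ℝ) / (k * (2 * k - 1)) = -((n : ℝ) / (k * (2 * k - 1))) := by ring
    rw [h7]
    linarith
  have h3 : Real.exp (-(n : ℝ) / (k * (2 * k - 1)) - (i : ℝ) * n / (k * (k - 1))
      + 5 * (k - ((i + 1 : ℕ) : ℝ)) / (2 * (k - 1) ^ 2) + 14 * k / n) ≤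
      Real.exp (-((n : ℝ) / (k * (2 * k - 1))) + 5 / (2 * ((k : ℝ) - 1)) + 14 * k / n) *
        0.01 ^ i := by
    refine (Real.exp_le_exp.2 h2).trans ?_
    rw [Real.exp_add, Real.exp_nat_mul]
    exact mul_le_mul_of_nonneg_left (pow_le_pow_left₀ (Real.exp_pos _).le exp_five i)
      (Real.exp_pos _).le
  have hk1 : (0 : ℝ) ≤ (k : ℝ) / (k - 1) := div_nonneg (by linarith) (by linarith)
  calc (k : ℝ) / (k - ((i + 1 : ℕ) : ℝ)) * Real.exp _
      ≤ (k / (k - 1) * 2 ^ i) * (Real.exp (-((n : ℝ) / (k * (2 * k - 1))) +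
        5 / (2 * ((k : ℝ) - 1)) + 14 * k / n) * 0.01 ^ i) :=
        mul_le_mul h1 h3 (Real.exp_pos _).le (by positivity)
    _ = (k / (k - 1) * Real.exp (-((n : ℝ) / (k * (2 * k - 1))) +
        5 / (2 * ((k : ℝ) - 1)) + 14 * k / n)) * 0.02 ^ i := by
        have : (0.02 : ℝ) ^ i = 2 ^ i * 0.01 ^ i := by rw [← mul_pow]; norm_num
        rw [this]
        ring
    _ ≤ 0.4 * 0.02 ^ i := mul_le_mul_of_nonneg_right (F1 hn hk h5) (by positivity)

end S5

/-- The numerical bounds of the series regime. -/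
theorem sum_bounds_lt_one {n k : ℕ} (hn : 120 ≤ n) (hk : 1 ≤ k) (h5 : 5 * k ^ 2 ≤ n) :
    Summable (fun j : ℕ => upB n k (j + 1)) ∧
      ∑' j : ℕ, upB n k (j + 1) + ∑ j ∈ Finset.Ico 1 k, loB n k j < 1 := by
  have hg : HasSum (fun j : ℕ => (0.53 : ℝ) * 0.02 ^ j) (0.53 * (1 - 0.02)⁻¹) :=
    (hasSum_geometric_of_lt_one (by norm_num) (by norm_num)).mul_left _
  have hs : Summable (fun j : ℕ => upB n k (j + 1)) :=
    Summable.of_nonneg_of_le (fun j => S5.up_nonneg n k (j + 1)) (S5.up_le hn hk h5) hg.summable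
  refine ⟨hs, ?_⟩
  have h1 : ∑' j : ℕ, upB n k (j + 1) ≤ 0.53 * (1 - 0.02)⁻¹ := by
    rw [← hg.tsum_eq]
    exact hs.tsum_le_tsum (S5.up_le hn hk h5) hg.summable
  have h2 : ∑ j ∈ Finset.Ico 1 k, loB n k j ≤ 0.4 * (1 - 0.02)⁻¹ := by
    rw [Finset.sum_Ico_eq_sum_range]
    have hg2 : HasSum (fun j : ℕ => (0.4 : ℝ) * 0.02 ^ j) (0.4 * (1 - 0.02)⁻¹) :=
      (hasSum_geometric_of_lt_one (by norm_num) (by norm_num)).mul_left _
    calc ∑ i ∈ Finset.range (k - 1), loB n k (1 + i)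
        ≤ ∑ i ∈ Finset.range (k - 1), (0.4 : ℝ) * 0.02 ^ i := by
          apply Finset.sum_le_sum
          intro i hi
          have hi' := Finset.mem_range.1 hi
          rw [add_comm 1 i]
          exact S5.lo_le hn (by omega) h5 i (by omega)
      _ ≤ 0.4 * (1 - 0.02)⁻¹ := by
          rw [← hg2.tsum_eq]
          exact hg2.summable.sum_le_tsum _ fun i _ => by positivity
  have h3 : (0.53 : ℝ) * (1 - 0.02)⁻¹ + 0.4 * (1 - 0.02)⁻¹ < 1 := by norm_num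
  linarith

end

end Pool.Agent.Lib_MP_1dbf07_co
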