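import Pool.Agent.Lib_MP_1dbf07_co.S1
import Pool.Agent.Lib_MP_1dbf07_co.S2
import Pool.Agent.Lib_MP_1dbf07_co.S3
import Pool.Agent.Lib_MP_1dbf07_co.S4
import Pool.Agent.Lib_MP_1dbf07_co.S5

namespace Pool.Agent.Lib_MP_1dbf07_co

open MeasureTheory Set Filter Topology
open scoped Real Nat PowerSeries

noncomputable section

namespace S6Aux

/-- `T_m = Y^m / m * E[S_m^n]`. -/
def TT (ν : Measure ℝ) (Y : ℝ) (n m : ℕ) : ℝ := Y ^ m / m * Mm ν m n

lemma Jr'_le {ν : Measure ℝ} {B : ℝ} (h : NuHyp ν B) (x : ℝ) : Jr' ν x ≤ B * Jr ν x := by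
  have hS := S4Aux.supp_of h
  rw [Jr', Jr, ← integral_const_mul]
  refine integral_mono_ae (B0.integrable_contE hS (by fun_prop))
    (B0.integrable_contE hS (by fun_prop)) ?_
  filter_upwards [hS.supp] with w hw
  exact mul_le_mul_of_nonneg_right hw.2 (Real.exp_pos _).le

/-- The general comparison of two terms. -/
lemma TT_le {ν : Measure ℝ} {B : ℝ} (h : NuHyp ν B) {Y ρ : ℝ} (hY : 0 < Y)
    (hρ : 34 / 10 ≤ ρ) (h1 : Y * Jr ν ρ = 1) {n k : ℕ} (hn : 1 ≤ n) (hk : 1 ≤ k)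
    (hs : (k : ℝ) * ρ * Jr' ν ρ = n * Jr ν ρ) {m : ℕ} (hm : 1 ≤ m) {z E F : ℝ} (hz : 0 < z)
    (hE : Real.log (Jr ν z) ≤ Real.log (Jr ν ρ) + E) (hF : n * Real.log (ρ / z) ≤ F) :
    TT ν Y n m ≤ TT ν Y n k * ((k : ℝ) / m * Real.exp (m * E + F + 14 * k / n)) := by
  have hS := S4Aux.supp_of h
  have hρ0 : 0 < ρ := by linarith
  have hJρ := Jr_pos hS ρ
  have hJz := Jr_pos hS z
  have hk0 : (0 : ℝ) < k := by exact_mod_cast hk
  have hm0 : (0 : ℝ) < m := by exact_mod_cast hm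
  have hn0 : (0 : ℝ) < n := by exact_mod_cast hn
  set D : ℝ := (n / (Real.exp 1 * ρ)) ^ n with hD
  have hD0 : 0 < D := by positivity
  -- the lower bound for `T_k`
  have hlow : D * Real.exp (-(14 * k / n)) / k ≤ TT ν Y n k := by
    have h2 := le_Mm h hρ hk hn hs
    have h3 : Y ^ k / k * (Jr ν ρ ^ k * (n / (Real.exp 1 * ρ)) ^ n *
        Real.exp (-(14 * k / n))) ≤ Y ^ k / k * Mm ν k n :=
      mul_le_mul_of_nonneg_left h2 (by positivity)
    refine le_trans (le_of_eq ?_) h3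
    have h4 : Y ^ k * Jr ν ρ ^ k = 1 := by rw [← mul_pow, h1, one_pow]
    calc D * Real.exp (-(14 * k / n)) / k
        = (Y ^ k * Jr ν ρ ^ k) * (D * Real.exp (-(14 * k / n)) / k) := by rw [h4, one_mul]
      _ = _ := by rw [hD]; ring
  -- the upper bound for `T_m`
  have hup : TT ν Y n m ≤ Real.exp (m * E + F) * D / m := by
    have h2 := Mm_le hS hz m hn
    have h3 : TT ν Y n m ≤ Y ^ m / m * (Jr ν z ^ m * (n / (Real.exp 1 * z)) ^ n) :=
      mul_le_mul_of_nonneg_left h2 (by positivity)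
    refine h3.trans ?_
    have h4 : Y * Jr ν z ≤ Real.exp E := by
      have h5 : Jr ν z = Real.exp (Real.log (Jr ν z)) := (Real.exp_log hJz).symm
      have h6 : Jr ν z ≤ Jr ν ρ * Real.exp E := by
        rw [h5]
        refine (Real.exp_le_exp.mpr hE).trans (le_of_eq ?_)
        rw [Real.exp_add, Real.exp_log hJρ]
      calc Y * Jr ν z ≤ Y * (Jr ν ρ * Real.exp E) := mul_le_mul_of_nonneg_left h6 hY.le
        _ = (Y * Jr ν ρ) * Real.exp E := by ring
        _ = Real.exp E := by rw [h1, one_mul]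
    have h5 : (Y * Jr ν z) ^ m ≤ Real.exp (m * E) := by
      rw [Real.exp_nat_mul]
      exact pow_le_pow_left₀ (by positivity) h4 m
    have h6 : (n / (Real.exp 1 * z)) ^ n ≤ D * Real.exp F := by
      have h7 : (n : ℝ) / (Real.exp 1 * z) = n / (Real.exp 1 * ρ) * (ρ / z) := by
        have h8 : Real.exp 1 ≠ 0 := Real.exp_ne_zero 1
        field_simp
      rw [h7, mul_pow, ← hD]
      have h8 : (ρ / z) ^ n ≤ Real.exp F := by
        have h9 : (ρ / z) ^ n = Real.exp (n * Real.log (ρ / z)) := by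
          rw [Real.exp_nat_mul, Real.exp_log (by positivity)]
        rw [h9]
        exact Real.exp_le_exp.mpr hF
      exact mul_le_mul_of_nonneg_left h8 hD0.le
    calc Y ^ m / m * (Jr ν z ^ m * (n / (Real.exp 1 * z)) ^ n)
        = (Y * Jr ν z) ^ m * (n / (Real.exp 1 * z)) ^ n / m := by rw [mul_pow]; ring
      _ ≤ Real.exp (m * E) * (D * Real.exp F) / m := by
          apply div_le_div_of_nonneg_right _ hm0.le
          exact mul_le_mul h5 h6 (by positivity) (Real.exp_pos _).le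
      _ = Real.exp (m * E + F) * D / m := by rw [Real.exp_add]; ring
  have hD' : D ≤ k * TT ν Y n k * Real.exp (14 * k / n) := by
    have h2 : Real.exp (-(14 * k / n)) * Real.exp (14 * k / n) = 1 := by
      rw [← Real.exp_add, neg_add_cancel, Real.exp_zero]
    have h3 : D * Real.exp (-(14 * k / n)) ≤ k * TT ν Y n k := by
      rw [div_le_iff₀ hk0] at hlow
      linarith
    calc D = D * Real.exp (-(14 * k / n)) * Real.exp (14 * k / n) := by
          rw [mul_assoc, h2, mul_one]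
      _ ≤ k * TT ν Y n k * Real.exp (14 * k / n) :=
        mul_le_mul_of_nonneg_right h3 (Real.exp_pos _).le
  calc TT ν Y n m ≤ Real.exp (m * E + F) * D / m := hup
    _ ≤ Real.exp (m * E + F) * (k * TT ν Y n k * Real.exp (14 * k / n)) / m := by
        apply div_le_div_of_nonneg_right _ hm0.le
        exact mul_le_mul_of_nonneg_left hD' (Real.exp_pos _).le
    _ = TT ν Y n k * ((k : ℝ) / m * Real.exp (m * E + F + 14 * k / n)) := by
        rw [Real.exp_add (m * E + F)]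
        ring

lemma log_up {u : ℝ} (hu : 1 ≤ u) : Real.log u ≤ (u - u⁻¹) / 2 := by
  rw [← Real.sinh_log (by linarith)]
  exact Real.self_le_sinh_iff.mpr (Real.log_nonneg hu)

/-- The terms above the main one. -/
lemma TT_up {ν : Measure ℝ} {B : ℝ} (h : NuHyp ν B) {Y ρ : ℝ} (hY : 0 < Y)
    (h1 : Y * Jr ν ρ = 1) {n k : ℕ} (hn : 1 ≤ n) (hk : 1 ≤ k)
    (hρ : 34 / 10 * (k + 1) ≤ ρ * k)
    (hs : (k : ℝ) * ρ * Jr' ν ρ = n * Jr ν ρ) (j : ℕ) :
    TT ν Y n (k + j) ≤ TT ν Y n k * upB n k j := by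
  have hS := S4Aux.supp_of h
  have hk0 : (0 : ℝ) < k := by exact_mod_cast hk
  have hn0 : (0 : ℝ) < n := by exact_mod_cast hn
  set z : ℝ := ρ * k / (k + 1) with hz
  have hz34 : 34 / 10 ≤ z := by
    rw [hz, le_div_iff₀ (by positivity)]
    exact hρ
  have hρ0 : 0 < ρ := by
    by_contra hcon
    push Not at hcon
    have : ρ * k ≤ 0 := mul_nonpos_of_nonpos_of_nonneg hcon hk0.le
    nlinarith
  have hz0 : 0 < z := by linarith
  have hzρ : z ≤ ρ := by
    rw [hz, div_le_iff₀ (by positivity)]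
    nlinarith
  have hJρ := Jr_pos hS ρ
  have hq : Jr' ν ρ / Jr ν ρ = n / (k * ρ) := by
    rw [div_eq_div_iff hJρ.ne' (by positivity)]
    linarith
  have hlog := log_Jr_le h hz34 hzρ le_rfl
  rw [hq] at hlog
  have hdz : z - ρ = -ρ / (k + 1) := by
    rw [hz]
    field_simp
    ring
  have hE : Real.log (Jr ν z) ≤ Real.log (Jr ν ρ) + (-(n : ℝ) / (k * (k + 1)) + 5 / (2 * k ^ 2)) := by
    refine hlog.trans (le_of_eq ?_)
    rw [add_assoc]
    congr 2
    · rw [hdz]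
      field_simp
    · rw [hdz, hz]
      field_simp
  have hF : n * Real.log (ρ / z) ≤ n * ((2 * k + 1) / (2 * k * (k + 1))) := by
    apply mul_le_mul_of_nonneg_left _ hn0.le
    have h2 : ρ / z = ((k : ℝ) + 1) / k := by
      rw [hz]
      field_simp
    have h3 : 1 ≤ ((k : ℝ) + 1) / k := by
      rw [le_div_iff₀ hk0]
      linarith
    rw [h2]
    refine (log_up h3).trans (le_of_eq ?_)
    field_simp
    ring
  have hkj : 1 ≤ k + j := by omega
  have h2 := TT_le h hY (hz34.trans hzρ) h1 hn hk hs hkj hz0 hE hF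
  refine h2.trans (le_of_eq ?_)
  unfold upB
  push_cast
  congr 3
  field_simp
  ring

/-- The terms below the main one. -/
lemma TT_lo {ν : Measure ℝ} {B : ℝ} (h : NuHyp ν B) {Y ρ : ℝ} (hY : 0 < Y)
    (h1 : Y * Jr ν ρ = 1) {n k : ℕ} (hn : 1 ≤ n)
    (hρ : 34 / 10 ≤ ρ)
    (hs : (k : ℝ) * ρ * Jr' ν ρ = n * Jr ν ρ) {j : ℕ} (hj : 1 ≤ j) (hjk : j < k) :
    TT ν Y n (k - j) ≤ TT ν Y n k * loB n k j := by
  have hS := S4Aux.supp_of h
  have hk2 : 2 ≤ k := by omega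
  have hk0 : (0 : ℝ) < k := by exact_mod_cast (by omega : 0 < k)
  have hk1 : (0 : ℝ) < (k : ℝ) - 1 := by
    have : (2 : ℝ) ≤ k := by exact_mod_cast hk2
    linarith
  have hkj0 : (0 : ℝ) < (k : ℝ) - j := by
    have : (j : ℝ) < k := by exact_mod_cast hjk
    linarith
  have hn0 : (0 : ℝ) < n := by exact_mod_cast hn
  have hρ0 : 0 < ρ := by linarith
  set z : ℝ := ρ * k / (k - 1) with hz
  have hzρ : ρ ≤ z := by
    rw [hz, le_div_iff₀ hk1]
    nlinarith
  have hz0 : 0 < z := by linarith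
  have hJρ := Jr_pos hS ρ
  have hq : Jr' ν ρ / Jr ν ρ = n / (k * ρ) := by
    rw [div_eq_div_iff hJρ.ne' (by positivity)]
    linarith
  have hlog := log_Jr_le h hρ le_rfl hzρ
  rw [hq] at hlog
  have hk1' : (k : ℝ) - 1 ≠ 0 := hk1.ne'
  have hdz : z - ρ = ρ / (k - 1) := by
    rw [hz]
    field_simp
    ring
  have hE : Real.log (Jr ν z) ≤ Real.log (Jr ν ρ) +
      ((n : ℝ) / (k * (k - 1)) + 5 / (2 * (k - 1) ^ 2)) := by
    refine hlog.trans (le_of_eq ?_)
    rw [add_assoc]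
    congr 2
    · rw [hdz]
      field_simp
    · rw [hdz]
      field_simp
  have hk21 : (0 : ℝ) < 2 * k - 1 := by linarith
  have hF : n * Real.log (ρ / z) ≤ n * (-(2 / (2 * k - 1))) := by
    apply mul_le_mul_of_nonneg_left _ hn0.le
    have h2 : ρ / z = (1 + 1 / ((k : ℝ) - 1))⁻¹ := by
      rw [hz]
      field_simp
      ring
    rw [h2, Real.log_inv, neg_le_neg_iff]
    have h3 := Real.le_log_one_add_of_nonneg (x := 1 / ((k : ℝ) - 1)) (by positivity)
    refine le_trans (le_of_eq ?_) h3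
    field_simp
    ring
  have hkj : 1 ≤ k - j := by omega
  have h2 := TT_le h hY hρ h1 hn (by omega : 1 ≤ k) hs hkj hz0 hE hF
  refine h2.trans (le_of_eq ?_)
  unfold loB
  rw [Nat.cast_sub hjk.le]
  obtain ⟨w, hw⟩ : ∃ w : ℝ, w = 2 * k - 1 := ⟨_, rfl⟩
  have hw0 : w ≠ 0 := by rw [hw]; exact hk21.ne'
  rw [← hw]
  congr 3
  field_simp
  rw [hw]
  ring

end S6Aux

open S6Aux

/-- Sign of the cumulant at the saddle. -/
theorem series_sign {ν : Measure ℝ} {B : ℝ} (h : NuHyp ν B) {X ρ : ℝ} (hX : 0 < X)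
    (hX' : X ≤ 1 / 10 ^ 5) {n k : ℕ} (hn : 120 ≤ n) (hk : 1 ≤ k) (h5 : 5 * k ^ 2 ≤ n)
    (hρ : 0 < ρ) (h1 : X / (1 - X) * Jr ν ρ = 1)
    (hs : (k : ℝ) * ρ * Jr' ν ρ = n * Jr ν ρ) :
    0 < (-1 : ℝ) ^ (k + 1) * kap (mX ν X) n := by
  have hS := S4Aux.supp_of h
  have hB0 : 0 ≤ B := by linarith [h.Blo]
  have h1X : (0 : ℝ) < 1 - X := by
    have : (1 : ℝ) / 10 ^ 5 < 1 := by norm_num
    linarith
  set Y : ℝ := X / (1 - X) with hYdef
  have hY : 0 < Y := by positivity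
  have hk0 : (0 : ℝ) < k := by exact_mod_cast hk
  have hn1 : 1 ≤ n := by omega
  have hJρ := Jr_pos hS ρ
  -- the size of `ρ`
  have hρk : 34 / 10 * ((k : ℝ) + 1) ≤ ρ * k := by
    have h2 : (n : ℝ) * Jr ν ρ ≤ k * ρ * (B * Jr ν ρ) := by
      rw [← hs]
      exact mul_le_mul_of_nonneg_left (Jr'_le h ρ) (by positivity)
    have h3 : (n : ℝ) ≤ k * ρ * B := by
      have h4 : (n : ℝ) * Jr ν ρ ≤ (k * ρ * B) * Jr ν ρ := by linarith
      exact le_of_mul_le_mul_right h4 hJρ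
    have h4 : (n : ℝ) ≤ k * ρ * (58286 / 10000) :=
      h3.trans (mul_le_mul_of_nonneg_left h.Bhi (by positivity))
    have h6 : (19818 / 1000 : ℝ) * (k + 1) ≤ n := by
      rcases Nat.lt_or_ge k 6 with h7 | h7
      · have h8 : (k : ℝ) ≤ 5 := by exact_mod_cast (by omega : k ≤ 5)
        have h9 : (120 : ℝ) ≤ n := by exact_mod_cast hn
        linarith
      · have h8 : (6 : ℝ) ≤ k := by exact_mod_cast h7
        have h9 : (5 * k ^ 2 : ℝ) ≤ n := by exact_mod_cast h5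
        nlinarith
    nlinarith
  have hρ34 : 34 / 10 ≤ ρ := by
    by_contra hcon
    push Not at hcon
    nlinarith
  have hM := S2Aux.Mm_nonneg hS
  have hT0 : ∀ m, 0 ≤ TT ν Y n m := fun m => mul_nonneg (by positivity) (hM m n)
  have hTk : 0 < TT ν Y n k := by
    have h2 := le_Mm h hρ34 hk hn1 hs
    have hn0 : (0 : ℝ) < n := by exact_mod_cast hn1
    have h3 : 0 < Mm ν k n := lt_of_lt_of_le (by positivity) h2
    exact mul_pos (by positivity) h3
  obtain ⟨hsum, hlt⟩ := sum_bounds_lt_one hn hk h5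
  -- the alternating series
  have hser := kap_series hS hB0 hX (by
    have : (1 : ℝ) / 10 ^ 5 < 1 / 2 := by norm_num
    linarith) hn1
  have hser2 : HasSum (fun j : ℕ => (-1 : ℝ) ^ (k + 1) * ((-1) ^ j * TT ν Y n (j + 1)))
      ((-1 : ℝ) ^ (k + 1) * kap (mX ν X) n) := by
    have h2 := hser.mul_left ((-1 : ℝ) ^ (k + 1))
    refine h2.congr_fun ?_
    intro j
    unfold TT
    push_cast
    ring
  have htail := (hasSum_nat_add_iff' k).mpr hser2
  have htail2 : HasSum (fun j : ℕ => TT ν Y n k * upB n k (j + 1))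
      (TT ν Y n k * ∑' j : ℕ, upB n k (j + 1)) := hsum.hasSum.mul_left _
  have htail3 : -(TT ν Y n k * ∑' j : ℕ, upB n k (j + 1)) ≤
      (-1 : ℝ) ^ (k + 1) * kap (mX ν X) n - ∑ i ∈ Finset.range k,
        (-1 : ℝ) ^ (k + 1) * ((-1) ^ i * TT ν Y n (i + 1)) := by
    refine hasSum_le (fun j => ?_) htail2.neg htail
    have h2 := TT_up h hY h1 hn1 hk hρk hs (j + 1)
    have h3 : |(-1 : ℝ) ^ (k + 1) * ((-1) ^ (j + k) * TT ν Y n (j + k + 1))| =
        TT ν Y n (k + (j + 1)) := by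
      rw [abs_mul, abs_mul, abs_pow, abs_pow, abs_neg, abs_one, one_pow, one_pow, one_mul,
        one_mul, abs_of_nonneg (hT0 _)]
      congr 1
      omega
    have h4 := neg_abs_le ((-1 : ℝ) ^ (k + 1) * ((-1) ^ (j + k) * TT ν Y n (j + k + 1)))
    rw [h3] at h4
    linarith
  obtain ⟨l, rfl⟩ : ∃ l, k = l + 1 := ⟨k - 1, by omega⟩
  have hmain : (-1 : ℝ) ^ (l + 1 + 1) * ((-1) ^ l * TT ν Y n (l + 1)) = TT ν Y n (l + 1) := by
    rw [← mul_assoc, ← pow_add]
    have : Even (l + 1 + 1 + l) := ⟨l + 1, by ring⟩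
    rw [this.neg_one_pow, one_mul]
  have hlow : -(TT ν Y n (l + 1) * ∑ j ∈ Finset.Ico 1 (l + 1), loB n (l + 1) j) ≤
      ∑ i ∈ Finset.range l, (-1 : ℝ) ^ (l + 1 + 1) * ((-1) ^ i * TT ν Y n (i + 1)) := by
    have h2 : ∑ i ∈ Finset.range l, TT ν Y n (i + 1) =
        ∑ j ∈ Finset.Ico 1 (l + 1), TT ν Y n (l + 1 - j) := by
      rw [Finset.sum_Ico_reflect (fun m => TT ν Y n m) 1 (by omega : l + 1 ≤ l + 1 + 1)]
      rw [show l + 1 + 1 - (l + 1) = 1 by omega, show l + 1 + 1 - 1 = l + 1 by omega,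
        Finset.sum_Ico_eq_sum_range, Nat.add_sub_cancel]
      exact Finset.sum_congr rfl fun i _ => by rw [add_comm]
    have h3 : ∑ j ∈ Finset.Ico 1 (l + 1), TT ν Y n (l + 1 - j) ≤
        TT ν Y n (l + 1) * ∑ j ∈ Finset.Ico 1 (l + 1), loB n (l + 1) j := by
      rw [Finset.mul_sum]
      refine Finset.sum_le_sum fun j hj => ?_
      rw [Finset.mem_Ico] at hj
      exact TT_lo h hY h1 hn1 hρ34 hs hj.1 hj.2
    have h4 : -(∑ i ∈ Finset.range l, TT ν Y n (i + 1)) ≤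
        ∑ i ∈ Finset.range l, (-1 : ℝ) ^ (l + 1 + 1) * ((-1) ^ i * TT ν Y n (i + 1)) := by
      rw [← Finset.sum_neg_distrib]
      refine Finset.sum_le_sum fun i _ => ?_
      have h5 := neg_abs_le ((-1 : ℝ) ^ (l + 1 + 1) * ((-1) ^ i * TT ν Y n (i + 1)))
      rw [abs_mul, abs_mul, abs_pow, abs_pow, abs_neg, abs_one, one_pow, one_pow, one_mul,
        one_mul, abs_of_nonneg (hT0 _)] at h5
      exact h5
    linarith
  rw [Finset.sum_range_succ, hmain] at htail3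
  have hfin : 0 < TT ν Y n (l + 1) * (1 - (∑' j : ℕ, upB n (l + 1) (j + 1) +
      ∑ j ∈ Finset.Ico 1 (l + 1), loB n (l + 1) j)) := mul_pos hTk (by linarith)
  nlinarith

end

end Pool.Agent.Lib_MP_1dbf07_co
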