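import Pool.Agent.Lib_MP_1dbf07_co.D1
import Pool.Agent.Lib_MP_1dbf07_co.M8
import Pool.Agent.Lib_MP_1dbf07_co.S6
import Pool.Agent.Lib_MP_1dbf07_co.R2

/-!
# Assembly, part 0: small `X`
-/

namespace Pool.Agent.Lib_MP_1dbf07_co

open MeasureTheory Set Filter Topology
open scoped Real Nat PowerSeries

noncomputable section

/-- The mixture `(1-X) δ_0 + X ν`. -/
def mixM (ν : Measure ℝ) (X : ℝ) : Measure ℝ :=
  ENNReal.ofReal (1 - X) • Measure.dirac 0 + ENNReal.ofReal X • ν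

theorem mixM_supp {ν : Measure ℝ} {b X : ℝ} (h : Supp ν 0 b) (hb : 0 ≤ b) (hX : 0 ≤ X)
    (hX' : X ≤ 1) : Supp (mixM ν X) 0 b := by
  have := h.prob
  refine ⟨⟨?_⟩, ?_⟩
  · simp only [mixM, Measure.add_apply, Measure.smul_apply, measure_univ, smul_eq_mul, mul_one]
    rw [← ENNReal.ofReal_add (by linarith) hX]
    norm_num
  · rw [mixM, ae_add_measure_iff]
    constructor
    · refine Measure.ae_smul_measure ?_ _
      rw [ae_dirac_iff]
      · constructor <;> simp [hb]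
      · exact measurableSet_Icc
    · exact Measure.ae_smul_measure h.supp _

theorem mixM_integral {ν : Measure ℝ} {b X : ℝ} (h : Supp ν 0 b) (hX : 0 ≤ X)
    (hX' : X ≤ 1) {E : Type*} [NormedAddCommGroup E] [NormedSpace ℝ E] [CompleteSpace E]
    {g : ℝ → E} (hg : Integrable g ν) :
    ∫ w, g w ∂(mixM ν X) = (1 - X) • g 0 + X • ∫ w, g w ∂ν := by
  have := h.prob
  rw [mixM, integral_add_measure, integral_smul_measure, integral_smul_measure,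
    integral_dirac]
  · rw [ENNReal.toReal_ofReal (by linarith), ENNReal.toReal_ofReal hX]
  · refine Integrable.smul_measure ?_ (by simp)
    refine integrable_dirac (by simp)
  · exact hg.smul_measure (by simp)

theorem mX_eq_mo {ν : Measure ℝ} {b X : ℝ} (h : Supp ν 0 b) (hX : 0 ≤ X)
    (hX' : X ≤ 1) : mX ν X = mo (mixM ν X) := by
  have := h.prob
  funext n
  rw [mo, mixM_integral h hX hX' (h.integrable_cont (by fun_prop))]
  by_cases hn : n = 0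
  · subst hn
    simp [mX]
  · simp [mX, hn]

theorem egf_mX {ν : Measure ℝ} {b X : ℝ} (h : Supp ν 0 b) (hb : 0 ≤ b) (hX : 0 ≤ X)
    (hX' : X ≤ 1) (z : ℂ) : egf (mX ν X) z = (1 - X) + X * JJ ν z := by
  rw [mX_eq_mo h hX hX', ← JJ_eq_egf (mixM_supp h hb hX hX'), JJ,
    mixM_integral h hX hX' (h.integrable_exp z)]
  simp [JJ]

theorem egfR_mX {ν : Measure ℝ} {b X : ℝ} (h : Supp ν 0 b) (hb : 0 ≤ b) (hX : 0 ≤ X)
    (hX' : X ≤ 1) (x : ℝ) : egfR (mX ν X) x = (1 - X) + X * Jr ν x := by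
  rw [mX_eq_mo h hX hX', ← Jr_eq_egfR (mixM_supp h hb hX hX'), Jr,
    mixM_integral h hX hX' (h.integrable_cont (by fun_prop))]
  simp [Jr]

theorem egfR'_mX {ν : Measure ℝ} {b X : ℝ} (h : Supp ν 0 b) (hb : 0 ≤ b) (hX : 0 ≤ X)
    (hX' : X ≤ 1) (x : ℝ) : egfR' (mX ν X) x = X * Jr' ν x := by
  rw [mX_eq_mo h hX hX', ← Jr'_eq_egfR' (mixM_supp h hb hX hX'), Jr',
    mixM_integral h hX hX' (h.integrable_cont (by fun_prop))]
  simp [Jr']

theorem NuHyp.toSupp {ν : Measure ℝ} {B : ℝ} (h : NuHyp ν B) : Supp ν 0 B :=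
  ⟨h.prob, h.supp.mono fun w hw => ⟨by linarith [hw.1], hw.2⟩⟩

theorem NuHyp.B_nonneg {ν : Measure ℝ} {B : ℝ} (h : NuHyp ν B) : 0 ≤ B := by
  linarith [h.Blo]

/-- The first zero of `W_X` for small `X`. -/
structure SmallZero (X ρ : ℝ) (ζ : ℂ) : Prop where
  re_ge : ρ ≤ ζ.re
  im_pos : 0 < ζ.im
  im_le : ζ.im ≤ π / (BX X - 206 / 100 / ρ)
  im_lt : ζ.im ≤ 62 / 100
  normSq_le : ζ.re ^ 2 + ζ.im ^ 2 ≤ ρ ^ 2 + 52 / 100
  zero : egf (mom X) ζ = 0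
  simple : deriv (egf (mom X)) ζ ≠ 0
  all_re : ∀ z : ℂ, egf (mom X) z = 0 → ρ ≤ z.re
  unique : ∀ z : ℂ, egf (mom X) z = 0 → 0 ≤ z.im → z.im ≤ 1 → z = ζ

theorem small_zero {X ρ : ℝ} (hX : 0 < X) (hX' : X ≤ 1 / 10 ^ 5) (hρ : 302 / 100 ≤ ρ)
    (h : egfR (mom X) ρ = 2 * (1 - X)) : ∃ ζ : ℂ, SmallZero X ρ ζ := by
  obtain ⟨ν, hν, hm⟩ := exists_nu hX hX'
  have hX1 : X ≤ 1 := by linarith [show (1 : ℝ) / 10 ^ 5 ≤ 1 by norm_num]
  have hX2 : 0 < 1 - X := by linarith [show (1 : ℝ) / 10 ^ 5 < 1 by norm_num]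
  have hS := hν.toSupp
  have hb := hν.B_nonneg
  have e1 : ∀ z : ℂ, egf (mom X) z = (1 - X) + X * JJ ν z := by
    intro z; rw [← hm]; exact egf_mX hS hb hX.le hX1 z
  have e2 : egfR (mom X) ρ = (1 - X) + X * Jr ν ρ := by
    rw [← hm]; exact egfR_mX hS hb hX.le hX1 ρ
  have hY : 0 < X / (1 - X) := by positivity
  have hYρ : X / (1 - X) * Jr ν ρ = 1 := by
    rw [div_mul_eq_mul_div, div_eq_one_iff_eq hX2.ne']
    linarith
  have hne : ((1 : ℂ) - X) ≠ 0 := by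
    exact_mod_cast hX2.ne'
  have key : ∀ z : ℂ, egf (mom X) z = 0 ↔ 1 + ((X / (1 - X) : ℝ) : ℂ) * JJ ν z = 0 := by
    intro z
    rw [e1 z]
    push_cast
    constructor
    · intro h
      field_simp
      rw [mul_zero]
      exact h
    · intro h
      field_simp at h
      rw [mul_zero] at h
      exact h
  obtain ⟨ζ, hζ⟩ := exists_firstZero hν hY hρ hYρ
  refine ⟨ζ, hζ.re_ge, hζ.im_pos, hζ.im_le, hζ.im_lt, hζ.normSq_le, (key ζ).2 hζ.zero, ?_,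
    fun z hz => hζ.all_re z ((key z).1 hz), fun z hz h1 h2 => hζ.unique z ((key z).1 hz) h1 h2⟩
  have e3 : egf (mom X) = fun z : ℂ => ((1 : ℂ) - X) + X * JJ ν z := funext e1
  rw [e3, deriv_const_add, deriv_const_mul _ ((JJ_differentiable hS) ζ)]
  exact mul_ne_zero (by exact_mod_cast hX.ne') hζ.simple

/-- The sign at the saddles. -/
theorem sign_saddle {X ρ : ℝ} (hX : 0 < X) (hX' : X ≤ 1 / 10 ^ 5) {n k : ℕ} (hn : 120 ≤ n)
    (hk : 1 ≤ k) (h5 : 5 * k ^ 2 ≤ n) (hρ : 0 < ρ) (h : egfR (mom X) ρ = 2 * (1 - X))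
    (hs : (k : ℝ) * ρ * egfR' (mom X) ρ = n * (1 - X)) :
    0 < (-1 : ℝ) ^ (k + 1) * kap (mom X) n := by
  obtain ⟨ν, hν, hm⟩ := exists_nu hX hX'
  have hX1 : X ≤ 1 := by linarith [show (1 : ℝ) / 10 ^ 5 ≤ 1 by norm_num]
  have hX2 : 0 < 1 - X := by linarith [show (1 : ℝ) / 10 ^ 5 < 1 by norm_num]
  have hS := hν.toSupp
  have hb := hν.B_nonneg
  have e2 : egfR (mom X) ρ = (1 - X) + X * Jr ν ρ := by
    rw [← hm]; exact egfR_mX hS hb hX.le hX1 ρ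
  have e3 : egfR' (mom X) ρ = X * Jr' ν ρ := by
    rw [← hm]; exact egfR'_mX hS hb hX.le hX1 ρ
  have hYρ : X / (1 - X) * Jr ν ρ = 1 := by
    rw [div_mul_eq_mul_div, div_eq_one_iff_eq hX2.ne']
    linarith
  have hXJ : X * Jr ν ρ = 1 - X := by linarith
  have hs' : (k : ℝ) * ρ * Jr' ν ρ = n * Jr ν ρ := by
    rw [e3, ← hXJ] at hs
    have : X * ((k : ℝ) * ρ * Jr' ν ρ) = X * (n * Jr ν ρ) := by linarith
    exact mul_left_cancel₀ hX.ne' this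
  have := series_sign hν hX hX' hn hk h5 hρ hYρ hs'
  rwa [hm] at this

/-- At the saddle `B ρ - 1.83 ≤ n/k ≤ B ρ`. -/
theorem saddle_bounds {X ρ : ℝ} (hX : 0 < X) (hX' : X ≤ 1 / 10 ^ 5) {n k : ℕ}
    (hk : 1 ≤ k) (hρ : 302 / 100 ≤ ρ) (h : egfR (mom X) ρ = 2 * (1 - X))
    (hs : (k : ℝ) * ρ * egfR' (mom X) ρ = n * (1 - X)) :
    BX X * ρ - 183 / 100 ≤ n / k ∧ (n : ℝ) / k ≤ BX X * ρ := by
  obtain ⟨ν, hν, hm⟩ := exists_nu hX hX'
  have hX1 : X ≤ 1 := by linarith [show (1 : ℝ) / 10 ^ 5 ≤ 1 by norm_num]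
  have hX2 : 0 < 1 - X := by linarith [show (1 : ℝ) / 10 ^ 5 < 1 by norm_num]
  have hS := hν.toSupp
  have hb := hν.B_nonneg
  have e2 : egfR (mom X) ρ = (1 - X) + X * Jr ν ρ := by
    rw [← hm]; exact egfR_mX hS hb hX.le hX1 ρ
  have e3 : egfR' (mom X) ρ = X * Jr' ν ρ := by
    rw [← hm]; exact egfR'_mX hS hb hX.le hX1 ρ
  have hXJ : X * Jr ν ρ = 1 - X := by linarith
  have hJ := Jr_pos hS ρ
  have hρ0 : 0 < ρ := by linarith
  have hs' : (k : ℝ) * ρ * Jr' ν ρ = n * Jr ν ρ := by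
    rw [e3, ← hXJ] at hs
    have : X * ((k : ℝ) * ρ * Jr' ν ρ) = X * (n * Jr ν ρ) := by linarith
    exact mul_left_cancel₀ hX.ne' this
  have hk0 : (0 : ℝ) < k := by exact_mod_cast hk
  have e4 : (n : ℝ) / k * Jr ν ρ = ρ * Jr' ν ρ := by
    field_simp
    linarith
  have i1 : Integrable (fun w : ℝ => Real.exp (ρ * w)) ν := hS.integrable_cont (by fun_prop)
  have i2 : Integrable (fun w : ℝ => w * Real.exp (ρ * w)) ν := hS.integrable_cont (by fun_prop)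
  have e5 : ∫ w, (BX X - w) * Real.exp (ρ * w) ∂ν = BX X * Jr ν ρ - Jr' ν ρ := by
    rw [Jr, Jr', ← integral_const_mul, ← integral_sub (i1.const_mul _) i2]
    congr 1
    funext w
    ring
  have e6 : 0 ≤ ∫ w, (BX X - w) * Real.exp (ρ * w) ∂ν := by
    refine integral_nonneg_of_ae ?_
    filter_upwards [hν.supp] with w hw
    exact mul_nonneg (by linarith [hw.2]) (Real.exp_pos _).le
  have e7 := hν.ev1 ρ (by linarith)
  constructor
  · refine le_of_mul_le_mul_right ?_ hJ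
    rw [e4]
    rw [e5] at e7
    have : ρ * (BX X * Jr ν ρ - Jr' ν ρ) ≤ ρ * (183 / 100 / ρ * Jr ν ρ) :=
      mul_le_mul_of_nonneg_left e7 hρ0.le
    have e8 : ρ * (183 / 100 / ρ * Jr ν ρ) = 183 / 100 * Jr ν ρ := by field_simp
    rw [e8] at this
    linarith
  · refine le_of_mul_le_mul_right ?_ hJ
    rw [e4]
    rw [e5] at e6
    nlinarith [mul_nonneg hρ0.le e6]

end

end Pool.Agent.Lib_MP_1dbf07_co
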