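import Pool.Agent.Lib_MP_1dbf07_co.H1

namespace Pool.Agent.Lib_MP_1dbf07_co

open MeasureTheory Set Filter Topology
open scoped Real Nat PowerSeries

noncomputable section

namespace H2

open Metric

/-! ### Taylor series at `0` -/

/-- Taylor series at `0`. -/
def T (f : ℂ → ℂ) : PowerSeries ℂ := PowerSeries.mk fun n => iteratedDeriv n f 0 / (n ! : ℂ)

theorem T_mul {f g : ℂ → ℂ} (hf : AnalyticAt ℂ f 0) (hg : AnalyticAt ℂ g 0) :
    T (f * g) = T f * T g := by
  ext n
  rw [PowerSeries.coeff_mul]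
  simp only [T, PowerSeries.coeff_mk]
  rw [iteratedDeriv_mul hf.contDiffAt hg.contDiffAt, Finset.sum_div,
    Finset.Nat.sum_antidiagonal_eq_sum_range_succ
      (fun i j => iteratedDeriv i f 0 / (i ! : ℂ) * (iteratedDeriv j g 0 / (j ! : ℂ)))]
  refine Finset.sum_congr rfl fun i hi => ?_
  have hi' : i ≤ n := Nat.lt_succ_iff.1 (Finset.mem_range.1 hi)
  have h1 : ((n.choose i : ℕ) : ℂ) * ((i ! : ℕ) : ℂ) * (((n - i)! : ℕ) : ℂ) = ((n ! : ℕ) : ℂ) := by
    rw [← Nat.choose_mul_factorial_mul_factorial hi']; push_cast; ring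
  have h2 : ((i ! : ℕ) : ℂ) ≠ 0 := Nat.cast_ne_zero.2 (Nat.factorial_ne_zero _)
  have h3 : (((n - i)! : ℕ) : ℂ) ≠ 0 := Nat.cast_ne_zero.2 (Nat.factorial_ne_zero _)
  have h4 : ((n ! : ℕ) : ℂ) ≠ 0 := Nat.cast_ne_zero.2 (Nat.factorial_ne_zero _)
  rw [div_mul_div_comm, div_eq_div_iff h4 (mul_ne_zero h2 h3), ← h1]
  ring

theorem T_congr {f g : ℂ → ℂ} (h : f =ᶠ[𝓝 0] g) : T f = T g := by
  ext n
  simp only [T, PowerSeries.coeff_mk]
  rw [h.iteratedDeriv_eq]

theorem T_deriv (f : ℂ → ℂ) : T (deriv f) = PowerSeries.derivative ℂ (T f) := by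
  ext n
  simp only [T, PowerSeries.coeff_mk, PowerSeries.coeff_derivative]
  rw [iteratedDeriv_succ', Nat.factorial_succ]
  have h4 : ((n ! : ℕ) : ℂ) ≠ 0 := Nat.cast_ne_zero.2 (Nat.factorial_ne_zero _)
  have h5 : ((n : ℂ) + 1) ≠ 0 := by exact_mod_cast Nat.succ_ne_zero n
  push_cast
  field_simp

theorem T_add {f g : ℂ → ℂ} (hf : AnalyticAt ℂ f 0) (hg : AnalyticAt ℂ g 0) :
    T (f + g) = T f + T g := by
  ext n
  simp only [T, PowerSeries.coeff_mk, map_add]
  rw [iteratedDeriv_add hf.contDiffAt hg.contDiffAt, add_div]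

theorem T_sub_const (u : ℂ) : T (fun z => z - u) = PowerSeries.X - PowerSeries.C u := by
  ext n
  simp only [T, PowerSeries.coeff_mk, map_sub, PowerSeries.coeff_X, PowerSeries.coeff_C]
  have h1 : (fun z : ℂ => z - u) = (fun z : ℂ => z) + fun _ => -u := by
    ext z; simp [sub_eq_add_neg]
  rw [h1, iteratedDeriv_add (by fun_prop) (by fun_prop)]
  rw [iteratedDeriv_fun_id, iteratedDeriv_const]
  rcases n with _ | _ | n
  · simp
  · simp
  · simp

theorem T_one : T (fun _ => (1 : ℂ)) = 1 := by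
  ext n
  simp only [T, PowerSeries.coeff_mk]
  rw [iteratedDeriv_const, PowerSeries.coeff_one]
  split_ifs with h
  · subst h; simp
  · simp

/-- Taylor coefficients of `1/(z-u)`. -/
theorem T_inv {u : ℂ} (hu : u ≠ 0) (k : ℕ) :
    PowerSeries.coeff k (T (fun z => (z - u)⁻¹)) = -(u ^ (k + 1))⁻¹ := by
  have h1 : T (fun z => (z - u)⁻¹) * (PowerSeries.X - PowerSeries.C u) = 1 := by
    rw [← T_sub_const, ← T_mul, ← T_one]
    · refine T_congr ?_
      have h0 : ∀ᶠ z : ℂ in 𝓝 0, z ≠ u := isOpen_ne.mem_nhds (Ne.symm hu)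
      filter_upwards [h0] with z hz
      simp only [Pi.mul_apply]
      exact inv_mul_cancel₀ (sub_ne_zero.2 hz)
    · refine AnalyticAt.inv (by fun_prop) ?_
      simpa using hu
    · fun_prop
  have h2 : (PowerSeries.mk fun k : ℕ => -(u ^ (k + 1))⁻¹) *
      (PowerSeries.X - PowerSeries.C u) = 1 := by
    ext n
    rcases n with _ | n
    · rw [PowerSeries.coeff_zero_eq_constantCoeff_apply, map_mul]
      simp [hu]
    · rw [mul_sub, map_sub, PowerSeries.coeff_succ_mul_X, PowerSeries.coeff_mul_C,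
        PowerSeries.coeff_mk, PowerSeries.coeff_mk, PowerSeries.coeff_one]
      rw [if_neg (Nat.succ_ne_zero n), pow_succ u (n + 1)]
      have : u ^ (n + 1) ≠ 0 := pow_ne_zero _ hu
      field_simp
      ring
  have h3 : T (fun z => (z - u)⁻¹) = PowerSeries.mk fun k : ℕ => -(u ^ (k + 1))⁻¹ := by
    have h4 : (PowerSeries.X - PowerSeries.C u : PowerSeries ℂ) ≠ 0 := by
      intro h; rw [h, mul_zero] at h1; exact zero_ne_one h1
    exact mul_right_cancel₀ h4 (h1.trans h2.symm)
  rw [h3, PowerSeries.coeff_mk]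

/-! ### Factorisation -/

theorem order_factor {f : ℂ → ℂ} (hf : Differentiable ℂ f) (u : ℂ)
    (htop : analyticOrderAt f u ≠ ⊤) :
    ∃ g : ℂ → ℂ, Differentiable ℂ g ∧ g u ≠ 0 ∧
      ∀ z, f z = (z - u) ^ (analyticOrderNatAt f u) * g z := by
  have hfa : AnalyticAt ℂ f u := hf.analyticAt u
  obtain ⟨k, hk1, hk2, hk3⟩ := (hfa.analyticOrderAt_eq_natCast (n := analyticOrderNatAt f u)).1
    (by rw [Nat.cast_analyticOrderNatAt htop])
  classical
  refine ⟨fun z => if z = u then k u else f z / (z - u) ^ (analyticOrderNatAt f u), ?_, ?_, ?_⟩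
  · intro z
    by_cases hz : z = u
    · subst hz
      have h1 : (fun w => if w = z then k z else f w / (w - z) ^ (analyticOrderNatAt f z))
          =ᶠ[𝓝 z] k := by
        filter_upwards [hk3] with w hw
        by_cases hwz : w = z
        · rw [if_pos hwz, hwz]
        · rw [if_neg hwz, hw, smul_eq_mul]
          have : (w - z) ^ (analyticOrderNatAt f z) ≠ 0 := pow_ne_zero _ (sub_ne_zero.2 hwz)
          field_simp
      exact (h1.differentiableAt_iff).2 hk1.differentiableAt
    · have h1 : (fun w => if w = u then k u else f w / (w - u) ^ (analyticOrderNatAt f u))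
          =ᶠ[𝓝 z] fun w => f w / (w - u) ^ (analyticOrderNatAt f u) := by
        filter_upwards [isOpen_ne.mem_nhds hz] with w hw
        rw [if_neg hw]
      refine (h1.differentiableAt_iff).2 ?_
      refine DifferentiableAt.div (hf z) (by fun_prop) (pow_ne_zero _ (sub_ne_zero.2 hz))
  · simp [hk2]
  · intro z
    by_cases hz : z = u
    · subst hz
      simp only [if_true]
      have := hk3.self_of_nhds
      simpa [smul_eq_mul] using this
    · simp only [if_neg hz]
      have : (z - u) ^ (analyticOrderNatAt f u) ≠ 0 := pow_ne_zero _ (sub_ne_zero.2 hz)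
      field_simp

theorem order_ne_top {f : ℂ → ℂ} (hf : Differentiable ℂ f) (h0 : f 0 ≠ 0) (u : ℂ) :
    analyticOrderAt f u ≠ ⊤ := by
  intro h
  rw [analyticOrderAt_eq_top] at h
  have h1 : f = fun _ => 0 := by
    have hA : AnalyticOnNhd ℂ f univ := fun z _ => hf.analyticAt z
    have hB : AnalyticOnNhd ℂ (fun _ : ℂ => (0 : ℂ)) univ := fun z _ => analyticAt_const
    exact hA.eq_of_eventuallyEq hB h
  exact h0 (by rw [h1])

theorem multi_factor {f : ℂ → ℂ} (hf : Differentiable ℂ f) (h0 : f 0 ≠ 0) (S : Finset ℂ)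
    (hS : (0 : ℂ) ∉ S) :
    ∃ g : ℂ → ℂ, Differentiable ℂ g ∧ (∀ u ∈ S, g u ≠ 0) ∧
      ∀ z, f z = (∏ u ∈ S, (1 - z / u) ^ (analyticOrderNatAt f u)) * g z := by
  classical
  induction S using Finset.induction_on with
  | empty => exact ⟨f, hf, by simp, by simp⟩
  | insert a S ha ih =>
    obtain ⟨g, hg, hgS, hfg⟩ := ih (fun h => hS (Finset.mem_insert_of_mem h))
    have ha0 : a ≠ 0 := fun h => hS (by rw [← h]; exact Finset.mem_insert_self _ _)
    have hg0 : g 0 ≠ 0 := by
      intro h; apply h0; rw [hfg, h, mul_zero]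
    have hgt := order_ne_top hg hg0 a
    obtain ⟨k, hk, hka, hgk⟩ := order_factor hg a hgt
    have hord : analyticOrderNatAt g a = analyticOrderNatAt f a := by
      have h1 : f = (fun z => ∏ u ∈ S, (1 - z / u) ^ (analyticOrderNatAt f u)) * g := by
        ext z; rw [Pi.mul_apply]; exact hfg z
      have h2 : AnalyticAt ℂ (fun z => ∏ u ∈ S, (1 - z / u) ^ (analyticOrderNatAt f u)) a := by
        refine Differentiable.analyticAt ?_ a
        refine Differentiable.fun_finsetProd ?_
        intro u hu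
        fun_prop
      have h3 : analyticOrderAt (fun z => ∏ u ∈ S, (1 - z / u) ^ (analyticOrderNatAt f u)) a = 0 := by
        rw [h2.analyticOrderAt_eq_zero, Finset.prod_ne_zero_iff]
        intro u hu
        apply pow_ne_zero
        intro h
        have hu0 : u ≠ 0 := fun h' => hS (by rw [← h']; exact Finset.mem_insert_of_mem hu)
        have : a = u := by
          have h' : a / u = 1 := by linear_combination -h
          rwa [div_eq_one_iff_eq hu0] at h'
        exact ha (this ▸ hu)
      have h4 : analyticOrderAt f a = analyticOrderAt g a := by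
        conv_lhs => rw [h1]
        rw [analyticOrderAt_mul h2 (hg.analyticAt a), h3, zero_add]
      rw [analyticOrderNatAt, analyticOrderNatAt, h4]
    refine ⟨fun z => (-a) ^ (analyticOrderNatAt f a) * k z, by fun_prop, ?_, ?_⟩
    · intro u hu
      refine mul_ne_zero (pow_ne_zero _ (neg_ne_zero.2 ha0)) ?_
      rcases Finset.mem_insert.1 hu with rfl | hu
      · exact hka
      · intro h
        apply hgS u hu
        rw [hgk, h, mul_zero]
    · intro z
      rw [Finset.prod_insert ha, hfg z, hgk z, hord]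
      have : (z - a) ^ (analyticOrderNatAt f a) =
          (1 - z / a) ^ (analyticOrderNatAt f a) * (-a) ^ (analyticOrderNatAt f a) := by
        rw [← mul_pow]
        congr 1
        field_simp
        ring
      rw [this]
      ring

/-! ### The bound -/

theorem logDeriv_bound {g : ℂ → ℂ} (hg : Differentiable ℂ g) {R M : ℝ} (hR : 0 < R) (hM : 0 < M)
    (hg0 : g 0 = 1) (hne : ∀ z ∈ ball (0 : ℂ) R, g z ≠ 0)
    (hb : ∀ z ∈ ball (0 : ℂ) R, ‖g z‖ ≤ Real.exp M) (n : ℕ) (hn : 1 ≤ n) :
    ‖PowerSeries.coeff (n - 1) (T (logDeriv g))‖ ≤ n * (2 * M) / (R / 2) ^ n := by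
  have hd : DifferentiableOn ℂ (logDeriv g) (ball 0 R) := by
    intro z hz
    refine DifferentiableAt.differentiableWithinAt ?_
    have h1 : DifferentiableAt ℂ (deriv g) z := (hg.analyticAt z).deriv.differentiableAt
    exact h1.div (hg z) (hne z hz)
  obtain ⟨h, hh0, hh⟩ := (hd.isExactOn_ball).with_val_at (0 : ℂ) 0
  -- exp h = g
  have hexp : ∀ z ∈ ball (0 : ℂ) R, Complex.exp (h z) = g z := by
    have hconst : ∀ z ∈ ball (0 : ℂ) R, g z * Complex.exp (-h z) = 1 := by
      intro z hz
      have hder : ∀ w ∈ ball (0 : ℂ) R,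
          HasDerivAt (fun w => g w * Complex.exp (-h w)) 0 w := by
        intro w hw
        have h1 : HasDerivAt (fun w => g w * Complex.exp (-h w))
            (deriv g w * Complex.exp (-h w) + g w * (Complex.exp (-h w) * -logDeriv g w)) w :=
          (hg w).hasDerivAt.mul ((hh w hw).neg.cexp)
        have h2 : deriv g w * Complex.exp (-h w) +
            g w * (Complex.exp (-h w) * -logDeriv g w) = 0 := by
          rw [logDeriv_apply]
          have := hne w hw
          field_simp
          ring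
        rwa [h2] at h1
      have h2 := (convex_ball (0 : ℂ) R).is_const_of_fderivWithin_eq_zero (𝕜 := ℂ)
        (f := fun w => g w * Complex.exp (-h w))
        (fun w hw => (hder w hw).differentiableAt.differentiableWithinAt)
        (fun w hw => by
          rw [fderivWithin_of_isOpen isOpen_ball hw]
          have := (hder w hw).hasFDerivAt.fderiv
          rw [this]
          ext; simp)
        hz (mem_ball_self hR)
      rw [h2, hg0, hh0]; simp
    intro z hz
    have h1 := hconst z hz
    rw [Complex.exp_neg, ← div_eq_mul_inv, div_eq_one_iff_eq (Complex.exp_ne_zero _)] at h1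
    exact h1.symm
  have hdh : DifferentiableOn ℂ h (ball 0 R) :=
    fun z hz => (hh z hz).differentiableAt.differentiableWithinAt
  have hre : Set.MapsTo h (ball 0 R) {z | z.re ≤ M} := by
    intro z hz
    have h1 := hb z hz
    rw [← hexp z hz, Complex.norm_exp] at h1
    exact Real.exp_le_exp.1 h1
  have hhb : ∀ z ∈ sphere (0 : ℂ) (R / 2), ‖h z‖ ≤ 2 * M := by
    intro z hz
    have hz' : ‖z‖ = R / 2 := by simpa using hz
    have h1 := Complex.borelCaratheodory_zero hM hdh hre hR
      (z := z) (by rw [mem_ball_zero_iff, hz']; linarith) hh0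
    rw [hz'] at h1
    have h2 : 2 * M * (R / 2) / (R - R / 2) = 2 * M := by
      have : R ≠ 0 := hR.ne'
      field_simp
      ring
    rwa [h2] at h1
  have hc := Complex.norm_iteratedDeriv_le_of_forall_mem_sphere_norm_le (c := (0 : ℂ))
    (f := h) n (half_pos hR) (DifferentiableOn.diffContOnCl (by
      refine hdh.mono ?_
      rw [closure_ball _ (half_pos hR).ne']
      exact closedBall_subset_ball (by linarith))) hhb
  obtain ⟨k, rfl⟩ : ∃ k, n = k + 1 := ⟨n - 1, by omega⟩
  have hev : deriv h =ᶠ[𝓝 0] logDeriv g := by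
    filter_upwards [isOpen_ball.mem_nhds (mem_ball_self hR)] with z hz
    exact (hh z hz).deriv
  rw [iteratedDeriv_succ', hev.iteratedDeriv_eq] at hc
  simp only [T, PowerSeries.coeff_mk, Nat.add_sub_cancel, norm_div, Complex.norm_natCast]
  have hk : (0 : ℝ) < ((k ! : ℕ) : ℝ) := by exact_mod_cast Nat.factorial_pos k
  rw [div_le_iff₀ hk]
  refine hc.trans (le_of_eq ?_)
  rw [Nat.factorial_succ]
  push_cast
  ring

/-! ### The function `JJ μ` -/

theorem T_JJ {μ : Measure ℝ} {a b : ℝ} (h : Supp μ a b) :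
    T (JJ μ) = PowerSeries.map (algebraMap ℝ ℂ) (eps (mo μ)) := by
  ext n
  simp only [T, PowerSeries.coeff_mk, PowerSeries.coeff_map, eps]
  have h1 : JJ μ = ProbabilityTheory.complexMGF id μ := rfl
  have h2 : ProbabilityTheory.integrableExpSet id μ = univ := by
    ext t
    simp only [ProbabilityTheory.integrableExpSet, Set.mem_ofPred_eq, mem_univ, iff_true, id]
    exact h.integrable_cont (by fun_prop)
  rw [h1, ProbabilityTheory.iteratedDeriv_complexMGF (by rw [h2]; simp)]
  simp only [id, zero_mul, Complex.exp_zero, mul_one, mo]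
  have h3 : (∫ w : ℝ, (w : ℂ) ^ n ∂μ) = ((∫ w : ℝ, w ^ n ∂μ : ℝ) : ℂ) := by
    rw [← integral_complex_ofReal]
    congr 1
    ext w
    push_cast
    rfl
  rw [h3]
  simp

end H2

open Metric H2 in
/-- The power sums of the reciprocals of the zeros are the cumulants. -/
theorem kap_tendsto {μ : Measure ℝ} {a b : ℝ} (h : Supp μ a b) (ha : 0 ≤ a) (hb : 0 ≤ b)
    {n : ℕ} (hn : 2 ≤ n) :
    Tendsto (fun R : ℝ => ∑ᶠ u : ℂ,
        (MeromorphicOn.divisor (JJ μ) (Metric.closedBall 0 R) u : ℂ) * (u ^ n)⁻¹) atTop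
      (𝓝 (((- kap (mo μ) n / ((n - 1)! : ℝ) : ℝ) : ℂ))) := by
  classical
  set U : ℝ := max a b with hU
  have hU0 : 0 ≤ U := ha.trans (le_max_left _ _)
  have hf : Differentiable ℂ (JJ μ) := JJ_differentiable h
  have hf0 : JJ μ 0 = 1 := JJ_zero h
  have hf0' : JJ μ 0 ≠ 0 := by rw [hf0]; exact one_ne_zero
  have hgrow : ∀ z : ℂ, ‖JJ μ z‖ ≤ Real.exp (U * ‖z‖) := by
    intro z
    have hJ0 : Jr μ 0 = 1 := by
      have h1 : ((Jr μ 0 : ℝ) : ℂ) = 1 := by
        rw [← JJ_ofReal]; simpa using hf0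
      exact_mod_cast h1
    refine (norm_JJ_le h z).trans ?_
    have hz : |z.re| ≤ ‖z‖ := Complex.abs_re_le_norm z
    rcases le_total 0 z.re with h1 | h1
    · have h2 := Jr_le_right h (x := 0) h1
      rw [zero_add, hJ0, mul_one] at h2
      refine h2.trans (Real.exp_le_exp.2 ?_)
      rw [abs_of_nonneg h1] at hz
      exact mul_le_mul (le_max_right _ _) hz h1 hU0
    · have h2 := Jr_le_left h (x := 0) (t := -z.re) (by linarith)
      rw [zero_sub, neg_neg, hJ0, mul_one] at h2
      refine h2.trans (Real.exp_le_exp.2 ?_)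
      rw [abs_of_nonpos h1] at hz
      exact mul_le_mul (le_max_left _ _) hz (by linarith) hU0
  -- the coefficient of the logarithmic derivative
  have hcoef : PowerSeries.coeff (n - 1) (T (logDeriv (JJ μ))) =
      ((kap (mo μ) n / ((n - 1)! : ℝ) : ℝ) : ℂ) := by
    set A : PowerSeries ℝ := eps (mo μ) with hA
    have hA0 : PowerSeries.constantCoeff A = 1 := by
      have : IsProbabilityMeasure μ := h.prob
      rw [hA, eps, ← PowerSeries.coeff_zero_eq_constantCoeff_apply, PowerSeries.coeff_mk]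
      simp [mo]
    have hA1 : A * A⁻¹ = 1 := PowerSeries.mul_inv_cancel A (by rw [hA0]; exact one_ne_zero)
    have h1 : T (logDeriv (JJ μ)) * T (JJ μ) = T (deriv (JJ μ)) := by
      rw [← T_mul]
      · refine T_congr ?_
        have h2 : ∀ᶠ z in 𝓝 (0 : ℂ), JJ μ z ≠ 0 :=
          (hf.continuous.continuousAt).eventually_ne hf0'
        filter_upwards [h2] with z hz
        rw [Pi.mul_apply, logDeriv_apply, div_mul_cancel₀ _ hz]
      · exact (hf.analyticAt 0).deriv.div (hf.analyticAt 0) hf0'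
      · exact hf.analyticAt 0
    have h2 : PowerSeries.derivative ℂ (PowerSeries.map (algebraMap ℝ ℂ) A) =
        PowerSeries.map (algebraMap ℝ ℂ) (PowerSeries.derivative ℝ A) := by
      ext k
      simp [PowerSeries.coeff_derivative]
    rw [T_deriv, T_JJ h, ← hA, h2] at h1
    have h3 : T (logDeriv (JJ μ)) =
        PowerSeries.map (algebraMap ℝ ℂ) (PowerSeries.derivative ℝ A * A⁻¹) := by
      have h4 : PowerSeries.map (algebraMap ℝ ℂ) A * PowerSeries.map (algebraMap ℝ ℂ) A⁻¹ = 1 := by
        rw [← map_mul, hA1, map_one]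
      calc T (logDeriv (JJ μ)) = T (logDeriv (JJ μ)) * (PowerSeries.map (algebraMap ℝ ℂ) A *
            PowerSeries.map (algebraMap ℝ ℂ) A⁻¹) := by rw [h4, mul_one]
        _ = _ := by rw [← mul_assoc, h1, map_mul]
    rw [h3, PowerSeries.coeff_map, kap, ← hA]
    have h5 : (((n - 1)! : ℕ) : ℝ) ≠ 0 := Nat.cast_ne_zero.2 (Nat.factorial_ne_zero _)
    rw [mul_div_cancel_left₀ _ h5]
    rfl
  -- the identity and the bound for each `R`
  have hkey : ∀ R : ℝ, 0 < R → ‖(∑ᶠ u : ℂ,
        (MeromorphicOn.divisor (JJ μ) (Metric.closedBall 0 R) u : ℂ) * (u ^ n)⁻¹) -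
      ((- kap (mo μ) n / ((n - 1)! : ℝ) : ℝ) : ℂ)‖ ≤
        n * (2 * (3 * U * R + 1)) / (R / 2) ^ n := by
    intro R hR
    have han : AnalyticOnNhd ℂ (JJ μ) (closedBall 0 R) := fun z _ => hf.analyticAt z
    have hord : ∀ u, analyticOrderAt (JJ μ) u ≠ ⊤ := order_ne_top hf hf0'
    have hdiv : ∀ u ∈ closedBall (0 : ℂ) R,
        MeromorphicOn.divisor (JJ μ) (closedBall 0 R) u = (analyticOrderNatAt (JJ μ) u : ℤ) := by
      intro u hu
      rw [MeromorphicOn.AnalyticOnNhd.divisor_apply han hu, ← Nat.cast_analyticOrderNatAt (hord u)]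
      rfl
    have hfin : (Function.support fun u => MeromorphicOn.divisor (JJ μ) (closedBall 0 R) u).Finite :=
      (MeromorphicOn.divisor (JJ μ) (closedBall 0 R)).finiteSupport (isCompact_closedBall 0 R)
    set S : Finset ℂ := hfin.toFinset with hSdef
    have hSmem : ∀ u, u ∈ S ↔ u ∈ closedBall (0 : ℂ) R ∧ JJ μ u = 0 := by
      intro u
      rw [hSdef, Set.Finite.mem_toFinset, Function.mem_support]
      constructor
      · intro h1
        have hu : u ∈ closedBall (0 : ℂ) R := by
          by_contra hu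
          exact h1 (Function.locallyFinsuppWithin.apply_eq_zero_of_notMem _ hu)
        refine ⟨hu, ?_⟩
        rw [hdiv u hu] at h1
        by_contra h2
        have h3 := ((hf.analyticAt u).analyticOrderAt_eq_zero).2 h2
        apply h1
        rw [analyticOrderNatAt, h3]; rfl
      · rintro ⟨hu, h2⟩ h1
        rw [hdiv u hu] at h1
        have h3 : analyticOrderNatAt (JJ μ) u = 0 := by exact_mod_cast h1
        have h4 : analyticOrderAt (JJ μ) u = 0 := by
          rw [← Nat.cast_analyticOrderNatAt (hord u), h3]; rfl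
        exact ((hf.analyticAt u).analyticOrderAt_eq_zero).1 h4 h2
    have hS0 : (0 : ℂ) ∉ S := fun h1 => hf0' ((hSmem 0).1 h1).2
    have hSne : ∀ u ∈ S, u ≠ 0 := fun u hu h1 => hS0 (h1 ▸ hu)
    have hSle : ∀ u ∈ S, ‖u‖ ≤ R := fun u hu => by simpa using ((hSmem u).1 hu).1
    obtain ⟨g, hg, hgS, hfg⟩ := multi_factor hf hf0' S hS0
    have hg0 : g 0 = 1 := by
      have := hfg 0
      rw [hf0] at this
      simpa using this.symm
    have hgne : ∀ z ∈ closedBall (0 : ℂ) R, g z ≠ 0 := by
      intro z hz h1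
      by_cases hzS : z ∈ S
      · exact hgS z hzS h1
      · apply hzS
        rw [hSmem]
        exact ⟨hz, by rw [hfg, h1, mul_zero]⟩
    have hgb : ∀ z ∈ closedBall (0 : ℂ) (3 * R), ‖g z‖ ≤ Real.exp (3 * U * R + 1) := by
      intro z hz
      have hR3 : (3 * R) ≠ 0 := by positivity
      refine Complex.norm_le_of_forall_mem_frontier_norm_le (U := ball (0 : ℂ) (3 * R))
        isBounded_ball hg.diffContOnCl ?_ (by rwa [closure_ball _ hR3])
      intro w hw
      rw [frontier_ball _ hR3, mem_sphere_zero_iff_norm] at hw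
      have h1 : 1 ≤ ‖∏ u ∈ S, (1 - w / u) ^ (analyticOrderNatAt (JJ μ) u)‖ := by
        rw [norm_prod]
        refine Finset.prod_induction _ (fun x : ℝ => 1 ≤ x)
          (fun a b ha hb => one_le_mul_of_one_le_of_one_le ha hb) le_rfl fun u hu => ?_
        rw [norm_pow]
        refine one_le_pow₀ ?_
        have hu0 : 0 < ‖u‖ := norm_pos_iff.2 (hSne u hu)
        have h2 : 3 ≤ ‖w / u‖ := by
          rw [norm_div, hw, le_div_iff₀ hu0]
          have := hSle u hu
          linarith
        have h3 : ‖w / u‖ - ‖(1 : ℂ)‖ ≤ ‖1 - w / u‖ := by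
          rw [norm_sub_rev]; exact norm_sub_norm_le _ _
        rw [norm_one] at h3
        linarith
      have h2 : ‖JJ μ w‖ ≤ Real.exp (3 * U * R) := by
        refine (hgrow w).trans (le_of_eq ?_)
        rw [hw]; ring_nf
      rw [hfg w, norm_mul] at h2
      have h3 : ‖g w‖ ≤ ‖∏ u ∈ S, (1 - w / u) ^ (analyticOrderNatAt (JJ μ) u)‖ * ‖g w‖ := by
        nlinarith [norm_nonneg (g w)]
      refine (h3.trans h2).trans (Real.exp_le_exp.2 (by linarith))
    have hbd := logDeriv_bound hg hR (M := 3 * U * R + 1) (by positivity) hg0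
      (fun z hz => hgne z (ball_subset_closedBall hz))
      (fun z hz => hgb z (by
        rw [mem_ball_zero_iff] at hz
        rw [mem_closedBall_zero_iff]
        linarith)) n (by omega)
    -- the logarithmic derivative
    have hlog : logDeriv (JJ μ) =ᶠ[𝓝 0]
        (∑ u ∈ S, (fun z : ℂ => (analyticOrderNatAt (JJ μ) u : ℂ) * (z - u)⁻¹)) + logDeriv g := by
      have h1 : ∀ᶠ z : ℂ in 𝓝 0, ∀ u ∈ S, z ≠ u := by
        rw [Filter.eventually_all_finset]
        intro u hu
        exact isOpen_ne.mem_nhds (Ne.symm (hSne u hu))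
      filter_upwards [h1, isOpen_ball.mem_nhds (mem_ball_self hR)] with z hz hzR
      have h2 : JJ μ = fun z => (∏ u ∈ S, (1 - z / u) ^ (analyticOrderNatAt (JJ μ) u)) * g z := by
        ext z; exact hfg z
      have hne1 : ∀ u ∈ S, (1 - z / u) ^ (analyticOrderNatAt (JJ μ) u) ≠ 0 := by
        intro u hu
        apply pow_ne_zero
        intro h3
        apply hz u hu
        have h4 : z / u = 1 := by linear_combination -h3
        rwa [div_eq_one_iff_eq (hSne u hu)] at h4
      have hdp : ∀ u ∈ S, DifferentiableAt ℂ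
          (fun z => (1 - z / u) ^ (analyticOrderNatAt (JJ μ) u)) z := fun u hu => by fun_prop
      conv_lhs => rw [h2]
      rw [logDeriv_mul z (Finset.prod_ne_zero_iff.2 hne1) (hgne z (ball_subset_closedBall hzR))
        (DifferentiableAt.fun_finsetProd hdp) (hg z)]
      rw [Pi.add_apply, Finset.sum_apply]
      congr 1
      rw [logDeriv_prod hne1 hdp]
      refine Finset.sum_congr rfl fun u hu => ?_
      rw [logDeriv_fun_pow (by fun_prop), logDeriv_apply]
      congr 1
      have h5 : deriv (fun z => 1 - z / u) z = - (1 / u) := by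
        rw [deriv_const_sub, deriv_div_const, deriv_id'']
      rw [h5]
      have h6 := hSne u hu
      have h7 : z - u ≠ 0 := sub_ne_zero.2 (hz u hu)
      have h8 : (1 - z / u) ≠ 0 := by
        intro h3
        apply hz u hu
        have h4 : z / u = 1 := by linear_combination -h3
        rwa [div_eq_one_iff_eq h6] at h4
      rw [inv_eq_one_div, div_eq_div_iff h8 h7]
      field_simp
      ring
    have hinvA : ∀ u ∈ S, AnalyticAt ℂ
        (fun z : ℂ => (analyticOrderNatAt (JJ μ) u : ℂ) * (z - u)⁻¹) 0 := by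
      intro u hu
      refine analyticAt_const.mul (AnalyticAt.inv (by fun_prop) ?_)
      simpa using hSne u hu
    have hgA : AnalyticAt ℂ (logDeriv g) 0 :=
      (hg.analyticAt 0).deriv.div (hg.analyticAt 0) (by rw [hg0]; exact one_ne_zero)
    have hTsum : ∀ S' : Finset ℂ, S' ⊆ S →
        AnalyticAt ℂ (∑ u ∈ S', (fun z : ℂ => (analyticOrderNatAt (JJ μ) u : ℂ) * (z - u)⁻¹)) 0 ∧
        PowerSeries.coeff (n - 1)
          (T (∑ u ∈ S', (fun z : ℂ => (analyticOrderNatAt (JJ μ) u : ℂ) * (z - u)⁻¹))) =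
          - ∑ u ∈ S', (analyticOrderNatAt (JJ μ) u : ℂ) * (u ^ n)⁻¹ := by
      intro S'
      induction S' using Finset.induction_on with
      | empty =>
        intro _
        refine ⟨?_, ?_⟩
        · rw [Finset.sum_empty]; exact analyticAt_const
        · rw [Finset.sum_empty, Finset.sum_empty]
          simp only [T, PowerSeries.coeff_mk]
          have : (0 : ℂ → ℂ) = fun _ => 0 := rfl
          rw [this, iteratedDeriv_const]
          simp
      | insert u S' hu ih =>
        intro hsub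
        have huS : u ∈ S := hsub (Finset.mem_insert_self _ _)
        obtain ⟨ih1, ih2⟩ := ih (fun x hx => hsub (Finset.mem_insert_of_mem hx))
        refine ⟨?_, ?_⟩
        · rw [Finset.sum_insert hu]
          exact (hinvA u huS).add ih1
        · rw [Finset.sum_insert hu, Finset.sum_insert hu, T_add (hinvA u huS) ih1, map_add, ih2]
          have h9 : T (fun z : ℂ => (analyticOrderNatAt (JJ μ) u : ℂ) * (z - u)⁻¹) =
              PowerSeries.C (analyticOrderNatAt (JJ μ) u : ℂ) * T (fun z => (z - u)⁻¹) := by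
            ext k
            rw [PowerSeries.coeff_C_mul]
            simp only [T, PowerSeries.coeff_mk]
            rw [iteratedDeriv_const_mul_field]
            ring
          rw [h9, PowerSeries.coeff_C_mul, T_inv (hSne u huS)]
          have : n - 1 + 1 = n := by omega
          rw [this]
          ring
    obtain ⟨hsA, hsC⟩ := hTsum S (Finset.Subset.refl _)
    have hfinal : ((kap (mo μ) n / ((n - 1)! : ℝ) : ℝ) : ℂ) =
        - (∑ u ∈ S, (analyticOrderNatAt (JJ μ) u : ℂ) * (u ^ n)⁻¹) +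
          PowerSeries.coeff (n - 1) (T (logDeriv g)) := by
      rw [← hcoef, T_congr hlog, T_add hsA hgA, map_add, hsC]
    have hsumeq : (∑ᶠ u : ℂ,
        (MeromorphicOn.divisor (JJ μ) (Metric.closedBall 0 R) u : ℂ) * (u ^ n)⁻¹) =
        ∑ u ∈ S, (analyticOrderNatAt (JJ μ) u : ℂ) * (u ^ n)⁻¹ := by
      rw [finsum_eq_sum_of_support_subset (s := S)]
      · refine Finset.sum_congr rfl fun u hu => ?_
        rw [hdiv u ((hSmem u).1 hu).1]
        simp
      · intro u hu
        rw [Function.mem_support] at hu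
        rw [Finset.mem_coe, hSdef, Set.Finite.mem_toFinset, Function.mem_support]
        intro h1
        apply hu
        rw [h1]; simp
    rw [hsumeq]
    have h10 : (∑ u ∈ S, (analyticOrderNatAt (JJ μ) u : ℂ) * (u ^ n)⁻¹) -
        ((- kap (mo μ) n / ((n - 1)! : ℝ) : ℝ) : ℂ) =
        PowerSeries.coeff (n - 1) (T (logDeriv g)) := by
      rw [neg_div, Complex.ofReal_neg, hfinal]
      ring
    rw [h10]
    exact hbd
  -- the limit
  rw [tendsto_iff_norm_sub_tendsto_zero]
  have hlim : Tendsto (fun R : ℝ => (n : ℝ) * (2 * (3 * U * R + 1)) / (R / 2) ^ n) atTop (𝓝 0) := by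
    have h1 : ∀ᶠ R : ℝ in atTop, (n : ℝ) * (2 * (3 * U * R + 1)) / (R / 2) ^ n ≤
        (n : ℝ) * 2 * (3 * U + 1) * 2 ^ n * R⁻¹ := by
      filter_upwards [eventually_ge_atTop (1 : ℝ)] with R hR
      have hR0 : 0 < R := by linarith
      have h2 : (R / 2) ^ n = R ^ n / 2 ^ n := div_pow _ _ _
      rw [h2, div_div_eq_mul_div, div_le_iff₀ (by positivity)]
      have h3 : R ^ 2 ≤ R ^ n := pow_le_pow_right₀ hR hn
      have h4 : R ≤ R⁻¹ * R ^ n := by
        calc R = R⁻¹ * R ^ 2 := by field_simp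
          _ ≤ R⁻¹ * R ^ n := by gcongr
      calc (n : ℝ) * (2 * (3 * U * R + 1)) * 2 ^ n
          ≤ (n : ℝ) * (2 * (3 * U * R + R)) * 2 ^ n := by gcongr
        _ = (n : ℝ) * 2 * (3 * U + 1) * 2 ^ n * R := by ring
        _ ≤ (n : ℝ) * 2 * (3 * U + 1) * 2 ^ n * (R⁻¹ * R ^ n) := by
          apply mul_le_mul_of_nonneg_left h4; positivity
        _ = _ := by ring
    have h0 : ∀ᶠ R : ℝ in atTop, 0 ≤ (n : ℝ) * (2 * (3 * U * R + 1)) / (R / 2) ^ n := by
      filter_upwards [eventually_ge_atTop (1 : ℝ)] with R hR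
      have hR0 : 0 < R := by linarith
      positivity
    refine squeeze_zero' h0 h1 ?_
    have := tendsto_inv_atTop_zero (𝕜 := ℝ)
    simpa using this.const_mul ((n : ℝ) * 2 * (3 * U + 1) * 2 ^ n)
  refine squeeze_zero' (Eventually.of_forall fun R => norm_nonneg _) ?_ hlim
  filter_upwards [eventually_gt_atTop (0 : ℝ)] with R hR
  exact hkey R hR

end

end Pool.Agent.Lib_MP_1dbf07_co
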