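import Pool.Agent.Lib_MP_1dbf07_co.Defs

namespace Pool.Agent.Lib_MP_1dbf07_co

open MeasureTheory Set Filter Topology
open scoped Real Nat PowerSeries

noncomputable section

namespace H3

/-- convexity of `x ^ (-m)` -/
theorem conv {a b : ℝ} (ha : 0 < a) (hab : a ≤ b) (m : ℕ) :
    (m : ℝ) * (b - a) * (b ^ (m + 1))⁻¹ ≤ (a ^ m)⁻¹ - (b ^ m)⁻¹ := by
  have hb : 0 < b := lt_of_lt_of_le ha hab
  have h1 : 1 + (m : ℝ) * (b / a - 1) ≤ (b / a) ^ m := by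
    have := one_add_mul_le_pow (a := b / a - 1) (by
      have : 0 < b / a := by positivity
      linarith) m
    simpa using this
  have h2 : (b - a) / b ≤ b / a - 1 := by
    have : b / a - 1 = (b - a) / a := by field_simp
    rw [this]
    exact div_le_div_of_nonneg_left (by linarith) ha hab
  have h3 : (m : ℝ) * ((b - a) / b) ≤ (b / a) ^ m - 1 := by
    have := mul_le_mul_of_nonneg_left h2 (Nat.cast_nonneg m : (0 : ℝ) ≤ m)
    linarith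
  have h4 := mul_le_mul_of_nonneg_right h3 (by positivity : (0 : ℝ) ≤ (b ^ m)⁻¹)
  have e1 : (m : ℝ) * ((b - a) / b) * (b ^ m)⁻¹ = (m : ℝ) * (b - a) * (b ^ (m + 1))⁻¹ := by
    rw [pow_succ]
    field_simp
  have e2 : ((b / a) ^ m - 1) * (b ^ m)⁻¹ = (a ^ m)⁻¹ - (b ^ m)⁻¹ := by
    rw [div_pow]
    field_simp
  rw [e1, e2] at h4
  exact h4

/-- the decreasing function -/
def g (ρ : ℝ) (n : ℕ) (t : ℝ) : ℝ := (√(ρ ^ 2 + t ^ 2) ^ n)⁻¹

/-- the majorant of its tail integral -/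
def H (ρ r₀ : ℝ) (n : ℕ) (t : ℝ) : ℝ := g ρ n t * ((ρ ^ 2 + t ^ 2) / ((n - 2) * r₀))

theorem g_nonneg (ρ : ℝ) (n : ℕ) (t : ℝ) : 0 ≤ g ρ n t := by
  unfold g
  positivity

theorem sqrt_pos' {ρ t : ℝ} (ht : 0 < t) : 0 < √(ρ ^ 2 + t ^ 2) := by
  apply Real.sqrt_pos.2
  positivity

theorem g_anti {ρ : ℝ} {n : ℕ} {r t : ℝ} (hr : 0 < r) (hrt : r ≤ t) : g ρ n t ≤ g ρ n r := by
  unfold g
  apply inv_anti₀ (pow_pos (sqrt_pos' hr) n)
  apply pow_le_pow_left₀ (Real.sqrt_nonneg _)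
  apply Real.sqrt_le_sqrt
  nlinarith

theorem H_step {ρ r₀ : ℝ} {n : ℕ} (hn : 3 ≤ n) (hr0 : 0 < r₀) {r t : ℝ} (hr : r₀ ≤ r)
    (hrt : r ≤ t) : (t - r) * g ρ n t ≤ H ρ r₀ n r - H ρ r₀ n t := by
  obtain ⟨m, rfl⟩ : ∃ m, n = m + 2 := ⟨n - 2, by omega⟩
  have hm : 1 ≤ m := by omega
  have hmr : (0 : ℝ) < m := by exact_mod_cast hm
  have hr' : 0 < r := lt_of_lt_of_le hr0 hr
  have ht' : 0 < t := lt_of_lt_of_le hr' hrt
  set a := √(ρ ^ 2 + r ^ 2) with ha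
  set b := √(ρ ^ 2 + t ^ 2) with hb
  have ha0 : 0 < a := sqrt_pos' hr'
  have hb0 : 0 < b := sqrt_pos' ht'
  have ha2 : a ^ 2 = ρ ^ 2 + r ^ 2 := Real.sq_sqrt (by positivity)
  have hb2 : b ^ 2 = ρ ^ 2 + t ^ 2 := Real.sq_sqrt (by positivity)
  have hab : a ≤ b := by
    apply Real.sqrt_le_sqrt
    nlinarith
  have hc := conv ha0 hab m
  have eH : ∀ x : ℝ, ∀ c : ℝ, 0 < c → c ^ 2 = ρ ^ 2 + x ^ 2 → c = √(ρ ^ 2 + x ^ 2) →
      H ρ r₀ (m + 2) x = (c ^ m)⁻¹ / (m * r₀) := by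
    intro x c hc0 hc2 hcs
    unfold H g
    rw [← hcs, ← hc2]
    have e0 : (((m + 2 : ℕ) : ℝ) - 2) = m := by push_cast; ring
    rw [e0, pow_add]
    field_simp
  rw [eH r a ha0 ha2 ha, eH t b hb0 hb2 hb]
  have h1 : r₀ * (t - r) ≤ (b - a) * b := by
    have h2 : (b - a) * (a + b) = (t - r) * (t + r) := by nlinarith
    have h3 : (b - a) * (a + b) ≤ 2 * ((b - a) * b) := by nlinarith
    have h4 : 2 * r₀ * (t - r) ≤ (t - r) * (t + r) := by nlinarith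
    linarith
  have h5 : (t - r) * g ρ (m + 2) t = (r₀ * (t - r)) * ((b ^ (m + 2))⁻¹ / r₀) := by
    unfold g
    rw [← hb]
    field_simp
  have h6 : (r₀ * (t - r)) * ((b ^ (m + 2))⁻¹ / r₀) ≤ ((b - a) * b) * ((b ^ (m + 2))⁻¹ / r₀) :=
    mul_le_mul_of_nonneg_right h1 (by positivity)
  have h7 : ((b - a) * b) * ((b ^ (m + 2))⁻¹ / r₀) =
      ((m : ℝ) * (b - a) * (b ^ (m + 1))⁻¹) / (m * r₀) := by
    rw [pow_succ b (m + 1)]
    field_simp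
  rw [h5]
  refine h6.trans ?_
  rw [h7, ← sub_div]
  exact div_le_div_of_nonneg_right hc (by positivity)

theorem H_nonneg {ρ r₀ : ℝ} {n : ℕ} (hn : 3 ≤ n) (hr0 : 0 < r₀) (t : ℝ) : 0 ≤ H ρ r₀ n t := by
  unfold H
  have h1 : (0 : ℝ) < (n : ℝ) - 2 := by
    have : (3 : ℝ) ≤ n := by exact_mod_cast hn
    linarith
  have := g_nonneg ρ n t
  positivity

theorem main {ι : Type*} (s : Finset ι) (w t : ι → ℝ) {ρ r₀ C : ℝ} {n : ℕ}
    (hn : 3 ≤ n) (hr : 0 < r₀) (hC : 0 ≤ C) (hC2 : 2 ≤ C * r₀) :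
    (∀ i ∈ s, 0 ≤ w i) → (∀ i ∈ s, r₀ ≤ t i) →
    (∀ T : ℝ, r₀ ≤ T → ∑ i ∈ s with t i ≤ T, w i ≤ C * T - 2) →
    ∀ T : ℝ, r₀ ≤ T → (∀ i ∈ s, t i ≤ T) →
      ∑ i ∈ s, w i * g ρ n (t i) + (C * T - 2 - ∑ i ∈ s, w i) * g ρ n T + C * H ρ r₀ n T ≤
        (C * r₀ - 2) * g ρ n r₀ + C * H ρ r₀ n r₀ := by
  classical
  induction s using Finset.induction_on_max_value t with
  | empty =>
    intro _ _ _ T hT _
    simp only [Finset.sum_empty, sub_zero, zero_add]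
    have h1 := mul_le_mul_of_nonneg_left (H_step (ρ := ρ) hn hr le_rfl hT) hC
    have h2 := mul_le_mul_of_nonneg_left (g_anti (ρ := ρ) (n := n) hr hT)
      (by linarith : (0 : ℝ) ≤ C * r₀ - 2)
    nlinarith
  | insert a s ha hmax ih =>
    intro hw ht hcount T hT hTs
    have hta : r₀ ≤ t a := ht a (Finset.mem_insert_self a s)
    have hwa : 0 ≤ w a := hw a (Finset.mem_insert_self a s)
    have hsub : ∀ T : ℝ, r₀ ≤ T → ∑ i ∈ s with t i ≤ T, w i ≤ C * T - 2 := by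
      intro T' hT'
      refine le_trans ?_ (hcount T' hT')
      apply Finset.sum_le_sum_of_subset_of_nonneg
      · intro i hi
        rw [Finset.mem_filter] at hi ⊢
        exact ⟨Finset.mem_insert_of_mem hi.1, hi.2⟩
      · intro i hi _
        exact hw i (Finset.mem_filter.1 hi).1
    have h1 := ih (fun i hi => hw i (Finset.mem_insert_of_mem hi))
      (fun i hi => ht i (Finset.mem_insert_of_mem hi)) hsub (t a) hta hmax
    have h2 := hcount (t a) hta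
    have h3 : (insert a s).filter (fun i => t i ≤ t a) = insert a s := by
      apply Finset.filter_true_of_mem
      intro i hi
      rcases Finset.mem_insert.1 hi with rfl | hi
      · exact le_rfl
      · exact hmax i hi
    rw [h3, Finset.sum_insert ha] at h2
    rw [Finset.sum_insert ha, Finset.sum_insert ha]
    have hTa : t a ≤ T := hTs a (Finset.mem_insert_self a s)
    have h4 := mul_le_mul_of_nonneg_left (H_step (ρ := ρ) hn hr hta hTa) hC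
    have h5 := mul_le_mul_of_nonneg_left
      (g_anti (ρ := ρ) (n := n) (lt_of_lt_of_le hr hta) hTa)
      (by linarith : (0 : ℝ) ≤ C * t a - 2 - (w a + ∑ i ∈ s, w i))
    nlinarith

end H3

/-- Abel summation of a counting bound. -/
theorem sum_le_of_count {ι : Type*} (s : Finset ι) (w t : ι → ℝ) {ρ r₀ C : ℝ} {n : ℕ}
    (hn : 3 ≤ n) (hr : 0 < r₀) (hC : 0 ≤ C) (hw : ∀ i ∈ s, 0 ≤ w i) (ht : ∀ i ∈ s, r₀ ≤ t i)
    (hcount : ∀ T : ℝ, r₀ ≤ T → ∑ i ∈ s with t i ≤ T, w i ≤ C * T - 2) :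
    ∑ i ∈ s, w i * (√(ρ ^ 2 + t i ^ 2) ^ n)⁻¹
      ≤ (√(ρ ^ 2 + r₀ ^ 2) ^ n)⁻¹ * (C * r₀ + C * (ρ ^ 2 + r₀ ^ 2) / ((n - 2) * r₀) - 2) := by
  have hC2 : 2 ≤ C * r₀ := by
    have h1 := hcount r₀ le_rfl
    have h2 : 0 ≤ ∑ i ∈ s with t i ≤ r₀, w i :=
      Finset.sum_nonneg fun i hi => hw i (Finset.mem_filter.1 hi).1
    linarith
  obtain ⟨T, hT0, hT⟩ : ∃ T : ℝ, r₀ ≤ T ∧ ∀ i ∈ s, t i ≤ T := by
    refine ⟨r₀ + ∑ i ∈ s, |t i|, ?_, ?_⟩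
    · have : 0 ≤ ∑ i ∈ s, |t i| := Finset.sum_nonneg fun i _ => abs_nonneg _
      linarith
    · intro i hi
      have h1 : |t i| ≤ ∑ i ∈ s, |t i| :=
        Finset.single_le_sum (f := fun i => |t i|) (fun j _ => abs_nonneg _) hi
      have h2 := le_abs_self (t i)
      linarith
  have h := H3.main (ρ := ρ) s w t hn hr hC hC2 hw ht hcount T hT0 hT
  have h1 := hcount T hT0
  rw [Finset.filter_true_of_mem hT] at h1
  have h2 : 0 ≤ (C * T - 2 - ∑ i ∈ s, w i) * H3.g ρ n T :=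
    mul_nonneg (by linarith) (H3.g_nonneg _ _ _)
  have h3 : 0 ≤ C * H3.H ρ r₀ n T := mul_nonneg hC (H3.H_nonneg hn hr T)
  have h4 : ∑ i ∈ s, w i * (√(ρ ^ 2 + t i ^ 2) ^ n)⁻¹ = ∑ i ∈ s, w i * H3.g ρ n (t i) := rfl
  rw [h4]
  have h5 : (√(ρ ^ 2 + r₀ ^ 2) ^ n)⁻¹ *
      (C * r₀ + C * (ρ ^ 2 + r₀ ^ 2) / ((n - 2) * r₀) - 2) =
      (C * r₀ - 2) * H3.g ρ n r₀ + C * H3.H ρ r₀ n r₀ := by
    unfold H3.H H3.g
    ring
  rw [h5]
  linarith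

end

end Pool.Agent.Lib_MP_1dbf07_co
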