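import Pool.Agent.Lib_MP_1dbf07_co.H1
import Pool.Agent.Lib_MP_1dbf07_co.H2
import Pool.Agent.Lib_MP_1dbf07_co.H3

namespace Pool.Agent.Lib_MP_1dbf07_co

open MeasureTheory Set Filter Topology
open scoped Real Nat PowerSeries

noncomputable section

namespace H4

open Metric

/-- The zeros in a closed disc. -/
theorem zeros {f : ℂ → ℂ} (hf : Differentiable ℂ f) (h0 : f 0 ≠ 0) (c : ℂ) (r : ℝ) :
    ∃ S : Finset ℂ, (∀ u, u ∈ S ↔ u ∈ closedBall c r ∧ f u = 0) ∧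
      (∀ g : ℂ → ℂ, (∑ᶠ u : ℂ, (MeromorphicOn.divisor f (closedBall c r) u : ℂ) * g u) =
        ∑ u ∈ S, (analyticOrderNatAt f u : ℂ) * g u) ∧
      ((zc f c r : ℤ) : ℝ) = ∑ u ∈ S, (analyticOrderNatAt f u : ℝ) := by
  have han : AnalyticOnNhd ℂ f (closedBall c r) := fun z _ => hf.analyticAt z
  have hord : ∀ u, analyticOrderAt f u ≠ ⊤ := H2.order_ne_top hf h0
  have hdiv : ∀ u ∈ closedBall c r,
      MeromorphicOn.divisor f (closedBall c r) u = (analyticOrderNatAt f u : ℤ) := by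
    intro u hu
    rw [MeromorphicOn.AnalyticOnNhd.divisor_apply han hu, ← Nat.cast_analyticOrderNatAt (hord u)]
    rfl
  have hfin : (Function.support fun u => MeromorphicOn.divisor f (closedBall c r) u).Finite :=
    (MeromorphicOn.divisor f (closedBall c r)).finiteSupport (isCompact_closedBall c r)
  have hSmem : ∀ u, u ∈ hfin.toFinset ↔ u ∈ closedBall c r ∧ f u = 0 := by
    intro u
    rw [Set.Finite.mem_toFinset, Function.mem_support]
    constructor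
    · intro h1
      have hu : u ∈ closedBall c r := by
        by_contra hu
        exact h1 (Function.locallyFinsuppWithin.apply_eq_zero_of_notMem _ hu)
      refine ⟨hu, ?_⟩
      rw [hdiv u hu] at h1
      by_contra h2
      have h3 := ((hf.analyticAt u).analyticOrderAt_eq_zero).2 h2
      apply h1
      rw [analyticOrderNatAt, h3]; rfl
    · rintro ⟨hu, h2⟩ h1
      rw [hdiv u hu] at h1
      have h3 : analyticOrderNatAt f u = 0 := by exact_mod_cast h1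
      have h4 : analyticOrderAt f u = 0 := by
        rw [← Nat.cast_analyticOrderNatAt (hord u), h3]; rfl
      exact ((hf.analyticAt u).analyticOrderAt_eq_zero).1 h4 h2
  refine ⟨hfin.toFinset, hSmem, ?_, ?_⟩
  · intro g
    rw [finsum_eq_sum_of_support_subset (s := hfin.toFinset)]
    · refine Finset.sum_congr rfl fun u hu => ?_
      rw [hdiv u ((hSmem u).1 hu).1]
      simp
    · intro u hu
      rw [Function.mem_support] at hu
      rw [Finset.mem_coe, Set.Finite.mem_toFinset, Function.mem_support]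
      intro h1
      apply hu
      rw [h1]; simp
  · have : zc f c r = ∑ u ∈ hfin.toFinset, (analyticOrderNatAt f u : ℤ) := by
      unfold zc
      rw [finsum_eq_sum_of_support_subset (s := hfin.toFinset)]
      · exact Finset.sum_congr rfl fun u hu => hdiv u ((hSmem u).1 hu).1
      · intro u hu
        rw [Finset.mem_coe, Set.Finite.mem_toFinset]
        exact hu
    rw [this]
    push_cast
    rfl

theorem order_one {f : ℂ → ℂ} (hf : Differentiable ℂ f) {ζ : ℂ} (h1 : f ζ = 0)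
    (h2 : deriv f ζ ≠ 0) : analyticOrderNatAt f ζ = 1 := by
  have h := (hf.analyticAt ζ).analyticOrderAt_eq_one_of_zero_deriv_ne_zero h1 h2
  rw [analyticOrderNatAt, h]
  rfl

end H4

open Metric H4 in
/-- Dominance of one pair of zeros. -/
theorem dominance {μ : Measure ℝ} {a b : ℝ} (h : Supp μ a b) (ha : 0 ≤ a) (hb : 0 ≤ b)
    {n : ℕ} (hn : 3 ≤ n) {ρ r₀ : ℝ} (hr : 0 < r₀) {ζ : ℂ}
    (h1 : JJ μ ζ = 0) (h2 : 0 < ζ.im) (h3 : ‖ζ - ρ‖ < r₀) (h4 : deriv (JJ μ) ζ ≠ 0)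
    (far : ∀ z : ℂ, JJ μ z = 0 → z ≠ ζ → z ≠ starRingEnd ℂ ζ →
      r₀ ≤ ‖z - ρ‖ ∧ ρ ^ 2 + ‖z - ρ‖ ^ 2 ≤ ‖z‖ ^ 2) :
    |kap (mo μ) n / ((n - 1)! : ℝ) + 2 * ((ζ ^ n)⁻¹).re|
      ≤ (√(ρ ^ 2 + r₀ ^ 2) ^ n)⁻¹ *
        (Real.exp 1 * (a + b) / π * r₀
          + Real.exp 1 * (a + b) / π * (ρ ^ 2 + r₀ ^ 2) / ((n - 2) * r₀) - 2) := by
  classical
  set C : ℝ := Real.exp 1 * (a + b) / π with hC
  have hC0 : 0 ≤ C := by positivity
  have hf : Differentiable ℂ (JJ μ) := JJ_differentiable h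
  have hf0 : JJ μ 0 ≠ 0 := by rw [JJ_zero h]; exact one_ne_zero
  set ζ' : ℂ := starRingEnd ℂ ζ with hζ'
  have hne : ζ ≠ ζ' := by
    intro he
    have : ζ.im = -ζ.im := by
      conv_lhs => rw [he]
      rw [hζ', Complex.conj_im]
    linarith
  have h1' : JJ μ ζ' = 0 := by rw [hζ', JJ_conj, h1, map_zero]
  have hcc : (starRingEnd ℂ ∘ JJ μ ∘ starRingEnd ℂ) = JJ μ := by
    ext z
    simp only [Function.comp_apply]
    rw [JJ_conj, Complex.conj_conj]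
  have h4' : deriv (JJ μ) ζ' ≠ 0 := by
    have h5 : deriv (starRingEnd ℂ ∘ JJ μ ∘ starRingEnd ℂ) =
        starRingEnd ℂ ∘ deriv (JJ μ) ∘ starRingEnd ℂ := deriv_conj_conj
    rw [hcc] at h5
    rw [h5]
    simp only [Function.comp_apply]
    rw [hζ', Complex.conj_conj]
    intro h6
    exact h4 (by simpa using h6)
  have ho : analyticOrderNatAt (JJ μ) ζ = 1 := order_one hf h1 h4
  have ho' : analyticOrderNatAt (JJ μ) ζ' = 1 := order_one hf h1' h4'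
  have h3' : ‖ζ' - ρ‖ < r₀ := by
    have : ζ' - (ρ : ℂ) = starRingEnd ℂ (ζ - ρ) := by
      rw [map_sub, Complex.conj_ofReal]
    rw [this, Complex.norm_conj]
    exact h3
  have hlim := kap_tendsto h ha hb (by omega : 2 ≤ n)
  set L : ℂ := (((- kap (mo μ) n / ((n - 1)! : ℝ) : ℝ) : ℂ)) with hL
  set Bd : ℝ := (√(ρ ^ 2 + r₀ ^ 2) ^ n)⁻¹ *
        (C * r₀ + C * (ρ ^ 2 + r₀ ^ 2) / ((n - 2) * r₀) - 2) with hBd
  have hev : ∀ᶠ R : ℝ in atTop, ‖(∑ᶠ u : ℂ,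
        (MeromorphicOn.divisor (JJ μ) (closedBall 0 R) u : ℂ) * (u ^ n)⁻¹) -
        ((ζ ^ n)⁻¹ + (ζ' ^ n)⁻¹)‖ ≤ Bd := by
    filter_upwards [eventually_ge_atTop ‖ζ‖] with R hR
    obtain ⟨S, hS1, hS2, -⟩ := zeros hf hf0 0 R
    rw [hS2 fun u => (u ^ n)⁻¹]
    have hζS : ζ ∈ S := (hS1 ζ).2 ⟨by simpa using hR, h1⟩
    have hζS' : ζ' ∈ S := (hS1 ζ').2 ⟨by
      rw [mem_closedBall, dist_zero_right, hζ', Complex.norm_conj]
      exact hR, h1'⟩
    set S' : Finset ℂ := (S.erase ζ).erase ζ' with hS'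
    have hζ2 : ζ' ∈ S.erase ζ := Finset.mem_erase.2 ⟨Ne.symm hne, hζS'⟩
    have hsum : ∑ u ∈ S, (analyticOrderNatAt (JJ μ) u : ℂ) * (u ^ n)⁻¹ =
        (ζ ^ n)⁻¹ + ((ζ' ^ n)⁻¹ +
          ∑ u ∈ S', (analyticOrderNatAt (JJ μ) u : ℂ) * (u ^ n)⁻¹) := by
      rw [← Finset.add_sum_erase S _ hζS, ← Finset.add_sum_erase (S.erase ζ) _ hζ2, ho, ho']
      simp
      rfl
    rw [hsum]
    have e : (ζ ^ n)⁻¹ + ((ζ' ^ n)⁻¹ +
          ∑ u ∈ S', (analyticOrderNatAt (JJ μ) u : ℂ) * (u ^ n)⁻¹) -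
        ((ζ ^ n)⁻¹ + (ζ' ^ n)⁻¹) =
        ∑ u ∈ S', (analyticOrderNatAt (JJ μ) u : ℂ) * (u ^ n)⁻¹ := by ring
    rw [e]
    have hmem : ∀ u ∈ S', u ≠ ζ ∧ u ≠ ζ' ∧ JJ μ u = 0 := by
      intro u hu
      rw [hS', Finset.mem_erase, Finset.mem_erase] at hu
      exact ⟨hu.2.1, hu.1, ((hS1 u).1 hu.2.2).2⟩
    have hfar : ∀ u ∈ S', r₀ ≤ ‖u - ρ‖ ∧ ρ ^ 2 + ‖u - ρ‖ ^ 2 ≤ ‖u‖ ^ 2 := by
      intro u hu
      obtain ⟨a1, a2, a3⟩ := hmem u hu
      exact far u a3 a1 a2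
    have hcount : ∀ T : ℝ, r₀ ≤ T →
        ∑ u ∈ S'.filter (fun u => ‖u - (ρ : ℂ)‖ ≤ T), (analyticOrderNatAt (JJ μ) u : ℝ) ≤ C * T - 2 := by
      intro T hT
      obtain ⟨Z, hZ1, -, hZ3⟩ := zeros hf hf0 (ρ : ℂ) T
      have hz := zc_le h ha hb ρ (lt_of_lt_of_le hr hT)
      rw [hZ3, ← hC] at hz
      set F := S'.filter fun u => ‖u - (ρ : ℂ)‖ ≤ T with hF
      have hζF : ζ ∉ insert ζ' F := by
        rw [Finset.mem_insert]
        rintro (h5 | h5)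
        · exact hne h5
        · exact (hmem ζ (Finset.mem_filter.1 h5).1).1 rfl
      have hζF' : ζ' ∉ F := fun h5 => (hmem ζ' (Finset.mem_filter.1 h5).1).2.1 rfl
      have hsub : insert ζ (insert ζ' F) ⊆ Z := by
        intro u hu
        rw [Finset.mem_insert, Finset.mem_insert] at hu
        rw [hZ1, mem_closedBall, dist_eq_norm]
        rcases hu with rfl | rfl | hu
        · exact ⟨(h3.le.trans hT), h1⟩
        · exact ⟨(h3'.le.trans hT), h1'⟩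
        · have h5 := Finset.mem_filter.1 hu
          exact ⟨h5.2, (hmem u h5.1).2.2⟩
      have h5 : ∑ u ∈ insert ζ (insert ζ' F), (analyticOrderNatAt (JJ μ) u : ℝ) ≤
          ∑ u ∈ Z, (analyticOrderNatAt (JJ μ) u : ℝ) :=
        Finset.sum_le_sum_of_subset_of_nonneg hsub fun _ _ _ => Nat.cast_nonneg _
      rw [Finset.sum_insert hζF, Finset.sum_insert hζF', ho, ho'] at h5
      push_cast at h5
      linarith
    have hmain := sum_le_of_count S' (fun u => (analyticOrderNatAt (JJ μ) u : ℝ))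
      (fun u => ‖u - (ρ : ℂ)‖) (ρ := ρ) hn hr hC0 (fun u _ => Nat.cast_nonneg _)
      (fun u hu => (hfar u hu).1) hcount
    refine le_trans (norm_sum_le _ _) (le_trans (Finset.sum_le_sum fun u hu => ?_) hmain)
    rw [norm_mul, norm_inv, norm_pow, Complex.norm_natCast]
    apply mul_le_mul_of_nonneg_left _ (Nat.cast_nonneg _)
    have h6 : 0 < √(ρ ^ 2 + ‖u - (ρ : ℂ)‖ ^ 2) := by
      apply Real.sqrt_pos.2
      have : 0 < ‖u - (ρ : ℂ)‖ := lt_of_lt_of_le hr (hfar u hu).1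
      positivity
    apply inv_anti₀ (pow_pos h6 n)
    apply pow_le_pow_left₀ h6.le
    rw [Real.sqrt_le_left (norm_nonneg _)]
    exact (hfar u hu).2
  have h5 : ‖L - ((ζ ^ n)⁻¹ + (ζ' ^ n)⁻¹)‖ ≤ Bd := by
    refine le_of_tendsto ?_ hev
    exact (hlim.sub_const _).norm
  have h6 : (ζ ^ n)⁻¹ + (ζ' ^ n)⁻¹ = ((2 * ((ζ ^ n)⁻¹).re : ℝ) : ℂ) := by
    have h7 : (ζ' ^ n)⁻¹ = starRingEnd ℂ ((ζ ^ n)⁻¹) := by
      rw [map_inv₀, map_pow]
    rw [h7, Complex.add_conj]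
  rw [h6, hL, ← Complex.ofReal_sub, Complex.norm_real, Real.norm_eq_abs, ← abs_neg] at h5
  have h8 : -(-kap (mo μ) n / ((n - 1)! : ℝ) - 2 * ((ζ ^ n)⁻¹).re) =
      kap (mo μ) n / ((n - 1)! : ℝ) + 2 * ((ζ ^ n)⁻¹).re := by ring
  rw [h8] at h5
  exact h5

end

end Pool.Agent.Lib_MP_1dbf07_co
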