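import Pool.Agent.Lib_MP_1dbf07_co.E0
import Pool.Agent.Lib_MP_1dbf07_co.A5
import Pool.Agent.Lib_MP_1dbf07_co.H4

/-!
# Assembly, part 1: signs from dominance
-/

namespace Pool.Agent.Lib_MP_1dbf07_co

open MeasureTheory Set Filter Topology
open scoped Real Nat PowerSeries

noncomputable section

theorem sign_of_dom {κ D q : ℝ} {ζ : ℂ} {n k : ℕ} (hζ : ζ ≠ 0) (hq : 0 < q)
    (h : |κ / ((n - 1)! : ℝ) + 2 * ((ζ ^ n)⁻¹).re| ≤ (q ^ n)⁻¹ * D)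
    (hD : D * (‖ζ‖ / q) ^ n < 2) (harg : (n : ℝ) * ζ.arg = k * π) :
    0 < (-1 : ℝ) ^ (k + 1) * κ := by
  have hN : 0 < ‖ζ‖ := norm_pos_iff.2 hζ
  have e1 : ζ ^ n = (((‖ζ‖ ^ n * (-1) ^ k : ℝ)) : ℂ) := by
    conv_lhs => rw [← Complex.norm_mul_exp_arg_mul_I ζ]
    rw [mul_pow, ← Complex.exp_nat_mul]
    have : (n : ℂ) * ((ζ.arg : ℂ) * Complex.I) = (k : ℂ) * (π * Complex.I) := by
      have h1 : ((n : ℂ) * (ζ.arg : ℂ)) = (k : ℂ) * π := by exact_mod_cast harg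
      rw [← mul_assoc, h1, mul_assoc]
    rw [this, Complex.exp_nat_mul, Complex.exp_pi_mul_I]
    push_cast
    rfl
  have hs : ((-1 : ℝ) ^ k) * (-1) ^ k = 1 := by
    rw [← mul_pow]; norm_num
  have e2 : ((ζ ^ n)⁻¹).re = (‖ζ‖ ^ n)⁻¹ * (-1) ^ k := by
    rw [e1, ← Complex.ofReal_inv, Complex.ofReal_re, mul_inv]
    congr 1
    exact inv_eq_of_mul_eq_one_left hs
  rw [e2] at h
  have hNn : 0 < ‖ζ‖ ^ n := pow_pos hN n
  have hqn : 0 < q ^ n := pow_pos hq n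
  have h3 : (q ^ n)⁻¹ * D < 2 * (‖ζ‖ ^ n)⁻¹ := by
    rw [div_pow] at hD
    have : D * (‖ζ‖ ^ n / q ^ n) * (‖ζ‖ ^ n)⁻¹ < 2 * (‖ζ‖ ^ n)⁻¹ :=
      mul_lt_mul_of_pos_right hD (inv_pos.2 hNn)
    have e3 : D * (‖ζ‖ ^ n / q ^ n) * (‖ζ‖ ^ n)⁻¹ = (q ^ n)⁻¹ * D := by
      field_simp
    linarith
  have h4 := abs_le.1 h
  have hf : (0 : ℝ) < ((n - 1)! : ℝ) := by exact_mod_cast Nat.factorial_pos _
  have hN' : 0 < (‖ζ‖ ^ n)⁻¹ := inv_pos.2 hNn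
  rcases neg_one_pow_eq_or ℝ k with hk | hk
  · rw [pow_succ, hk]
    rw [hk] at h4
    have : κ / ((n - 1)! : ℝ) < 0 := by linarith [h4.2]
    have : κ < 0 := by
      by_contra hc
      have := div_nonneg (not_lt.1 hc) hf.le
      linarith
    linarith
  · rw [pow_succ, hk]
    rw [hk] at h4
    have : 0 < κ / ((n - 1)! : ℝ) := by linarith [h4.1]
    have : 0 < κ := (div_pos_iff_of_pos_right hf).1 this
    linarith

/-- The conclusion for one `τ` (and one `n`). -/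
def Good (n : ℕ) (τ : ℝ) (ζ : ℂ) : Prop :=
  MinZero (egf (hF τ)) ζ ∧
    ∀ k : ℕ, (n : ℝ) * ζ.arg = k * π → 0 < (-1 : ℝ) ^ (k + 1) * kap (hF τ) n

theorem MinZero.unique {f : ℂ → ℂ} {ζ ζ' : ℂ} (h : MinZero f ζ) (h' : MinZero f ζ') :
    ζ = ζ' := by
  by_contra hne
  have h1 := h.min ζ' h'.zero h'.im_pos (Ne.symm hne)
  have h2 := h'.min ζ h.zero h.im_pos hne
  linarith

theorem cX_pos {X : ℝ} (hX : 0 < X) : 0 < cX X := Real.sqrt_pos.2 (by linarith)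

theorem egf_mom_zero_iff {X : ℝ} (hX : 0 < X) (z : ℂ) :
    egf (mom X) z = 0 ↔ egf (hF (tauX X)) ((cX X : ℝ) * z) = 0 := by
  rw [egf_mom hX]
  simp [Complex.exp_ne_zero]

theorem minZero_scale {X : ℝ} (hX : 0 < X) {ζ : ℂ} (h : MinZero (egf (mom X)) ζ) :
    MinZero (egf (hF (tauX X))) ((cX X : ℝ) * ζ) := by
  have hc := cX_pos hX
  refine ⟨?_, (egf_mom_zero_iff hX ζ).1 h.zero, ?_⟩
  · simpa using mul_pos hc h.im_pos
  · intro z hz hi hne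
    have e : ((cX X : ℝ) : ℂ) * (((cX X)⁻¹ : ℝ) * z) = z := by
      rw [← mul_assoc, ← Complex.ofReal_mul, mul_inv_cancel₀ hc.ne']
      simp
    have h1 := h.min (((cX X)⁻¹ : ℝ) * z) ((egf_mom_zero_iff hX _).2 (by rw [e]; exact hz))
      (by simpa using mul_pos (inv_pos.2 hc) hi) (by
        intro h2
        apply hne
        rw [← h2, e])
    rw [← e, norm_mul, norm_mul]
    exact mul_lt_mul_of_pos_left h1 (by simpa using hc.ne')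

end

end Pool.Agent.Lib_MP_1dbf07_co
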