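import Pool.Agent.Lib_MP_1dbf07_co.E1

/-!
# Assembly, part 2: small `X`, signs and start angle
-/

namespace Pool.Agent.Lib_MP_1dbf07_co

open MeasureTheory Set Filter Topology
open scoped Real Nat PowerSeries

noncomputable section

theorem BX_bounds {X : ℝ} (hX : 0 < X) (hX' : X ≤ 1 / 10 ^ 5) :
    5828 / 1000 ≤ BX X ∧ BX X ≤ 58286 / 10000 := by
  obtain ⟨ν, hν, -⟩ := exists_nu hX hX'
  exact ⟨hν.Blo, hν.Bhi⟩

theorem exp_div_pi_le {s : ℝ} (hs : 0 ≤ s) : Real.exp 1 * s / π ≤ 86526 / 100000 * s := by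
  rw [div_le_iff₀ Real.pi_pos]
  have h1 := Real.exp_one_lt_d9
  have h2 := Real.pi_gt_d6
  nlinarith [mul_nonneg hs (sub_nonneg.2 h1.le), mul_nonneg hs (sub_nonneg.2 h2.le)]

theorem numD {n : ℕ} {ρ B N : ℝ} (hn : 120 ≤ n) (h : 378 / 100 * (ρ ^ 2 + 1) ≤ n)
    (hB0 : 0 ≤ B) (hB : B ≤ 58286 / 10000) (hN : 0 ≤ N) (hN2 : N ^ 2 ≤ ρ ^ 2 + 52 / 100) :
    (Real.exp 1 * (0 + B) / π * 1
        + Real.exp 1 * (0 + B) / π * (ρ ^ 2 + 1 ^ 2) / ((n - 2) * 1) - 2)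
      * (N / √(ρ ^ 2 + 1 ^ 2)) ^ n < 2 := by
  have hn' : (120 : ℝ) ≤ n := by exact_mod_cast hn
  have hρ2 : 0 < ρ ^ 2 + 1 := by positivity
  set C := Real.exp 1 * (0 + B) / π with hC
  have hC0 : 0 ≤ C := by positivity
  have hC1 : C ≤ 50433 / 10000 := by
    have := exp_div_pi_le (s := 0 + B) (by linarith)
    linarith
  have hn2 : (0 : ℝ) < n - 2 := by linarith
  have hD : C * 1 + C * (ρ ^ 2 + 1 ^ 2) / ((n - 2) * 1) - 2 ≤ 4401 / 1000 := by
    have h1 : (ρ ^ 2 + 1 ^ 2) / ((n - 2) * 1) ≤ 26905 / 100000 := by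
      rw [mul_one, one_pow, div_le_iff₀ hn2]
      linarith
    have h2 : C * (ρ ^ 2 + 1 ^ 2) / ((n - 2) * 1) ≤ C * (26905 / 100000) := by
      rw [mul_div_assoc]
      exact mul_le_mul_of_nonneg_left h1 hC0
    linarith
  have hp : (N / √(ρ ^ 2 + 1 ^ 2)) ^ n ≤ 442 / 1000 := by
    have e1 : N / √(ρ ^ 2 + 1 ^ 2) ≤ Real.exp (-(24 / 100) / (ρ ^ 2 + 1)) := by
      refine abs_le_of_sq_le_sq' ?_ (Real.exp_pos _).le |>.2
      rw [one_pow, div_pow, Real.sq_sqrt hρ2.le, ← Real.exp_nat_mul]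
      have : ((2 : ℕ) : ℝ) * (-(24 / 100) / (ρ ^ 2 + 1)) = -(48 / 100) / (ρ ^ 2 + 1) := by
        push_cast; ring
      rw [this]
      refine le_trans ?_ (Real.add_one_le_exp _)
      rw [div_le_iff₀ hρ2, add_mul, div_mul_cancel₀ _ hρ2.ne']
      linarith
    have e2 : (N / √(ρ ^ 2 + 1 ^ 2)) ^ n ≤ Real.exp (-(24 / 100) / (ρ ^ 2 + 1)) ^ n :=
      pow_le_pow_left₀ (by positivity) e1 n
    have e3 : Real.exp (-(24 / 100) / (ρ ^ 2 + 1)) ^ n ≤ Real.exp (-(9072 / 10000)) := by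
      rw [← Real.exp_nat_mul, Real.exp_le_exp]
      rw [mul_div_assoc', div_le_iff₀ hρ2]
      linarith
    have e4 : Real.exp (-(9072 / 10000)) ≤ 442 / 1000 := by
      rw [Real.exp_neg]
      have h1 : Real.exp (9072 / 10000) = Real.exp (2268 / 10000) ^ 4 := by
        rw [← Real.exp_nat_mul]; norm_num
      have h2 : (2268 : ℝ) / 10000 + 1 ≤ Real.exp (2268 / 10000) := Real.add_one_le_exp _
      have h3 : ((2268 : ℝ) / 10000 + 1) ^ 4 ≤ Real.exp (9072 / 10000) := by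
        rw [h1]; exact pow_le_pow_left₀ (by norm_num) h2 4
      rw [inv_le_comm₀ (Real.exp_pos _) (by norm_num)]
      refine le_trans ?_ h3
      norm_num
    linarith
  have hp0 : 0 ≤ (N / √(ρ ^ 2 + 1 ^ 2)) ^ n := by positivity
  calc _ ≤ 4401 / 1000 * (N / √(ρ ^ 2 + 1 ^ 2)) ^ n := mul_le_mul_of_nonneg_right hD hp0
    _ ≤ 4401 / 1000 * (442 / 1000) := by gcongr
    _ < 2 := by norm_num

theorem SmallZero.minZero {X ρ : ℝ} {ζ : ℂ} (h : SmallZero X ρ ζ) (hρ : 0 ≤ ρ) :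
    MinZero (egf (mom X)) ζ := by
  refine ⟨h.im_pos, h.zero, fun z hz hi hne => ?_⟩
  have h1 : 1 < z.im := by
    by_contra hc
    exact hne (h.unique z hz hi.le (not_lt.1 hc))
  have h2 := h.all_re z hz
  have h3 := h.normSq_le
  have e1 : ‖ζ‖ ^ 2 = ζ.re ^ 2 + ζ.im ^ 2 := by
    rw [Complex.sq_norm, Complex.normSq_apply]; ring
  have e2 : ‖z‖ ^ 2 = z.re ^ 2 + z.im ^ 2 := by
    rw [Complex.sq_norm, Complex.normSq_apply]; ring
  refine lt_of_pow_lt_pow_left₀ 2 (norm_nonneg _) ?_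
  rw [e1, e2]
  nlinarith

theorem kap_sign_scale {X : ℝ} (hX : 0 < X) {n k : ℕ} (hn : 2 ≤ n)
    (h : 0 < (-1 : ℝ) ^ (k + 1) * kap (mom X) n) :
    0 < (-1 : ℝ) ^ (k + 1) * kap (hF (tauX X)) n := by
  rw [kap_mom hX hn] at h
  have hc : 0 < cX X ^ n := pow_pos (cX_pos hX) n
  have : (-1 : ℝ) ^ (k + 1) * (cX X ^ n * kap (hF (tauX X)) n)
      = cX X ^ n * ((-1 : ℝ) ^ (k + 1) * kap (hF (tauX X)) n) := by ring
  rw [this] at h
  exact (pos_iff_pos_of_mul_pos h).1 hc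

theorem conj_egf_mom {X : ℝ} (hX : 0 < X) (z : ℂ) :
    egf (mom X) (starRingEnd ℂ z) = starRingEnd ℂ (egf (mom X) z) := by
  obtain ⟨μ, hμ, hm, -⟩ := exists_muX hX
  rw [← hm, ← JJ_eq_egf hμ, JJ_conj]

theorem small_good {n : ℕ} {X ρ : ℝ} (hn : 120 ≤ n) (hX : 0 < X) (hX' : X ≤ 1 / 10 ^ 5)
    (hρ : 302 / 100 ≤ ρ) (h : egfR (mom X) ρ = 2 * (1 - X))
    (hnρ : 378 / 100 * (ρ ^ 2 + 1) ≤ n) :
    ∃ ζ : ℂ, SmallZero X ρ ζ ∧ Good n (tauX X) ((cX X : ℝ) * ζ) := by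
  obtain ⟨ζ, hζ⟩ := small_zero hX hX' hρ h
  refine ⟨ζ, hζ, minZero_scale hX (hζ.minZero (by linarith)), fun k hk => ?_⟩
  obtain ⟨μ, hμ, hm, -⟩ := exists_muX hX
  have hJ : JJ μ = egf (mom X) := by rw [JJ_eq_egf hμ, hm]
  have hB := BX_bounds hX hX'
  have hB0 : 0 ≤ BX X := by linarith [hB.1]
  have e1 : ‖ζ‖ ^ 2 = ζ.re ^ 2 + ζ.im ^ 2 := by
    rw [Complex.sq_norm, Complex.normSq_apply]; ring
  have hsub : ∀ z : ℂ, ‖z - ρ‖ ^ 2 = (z.re - ρ) ^ 2 + z.im ^ 2 := by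
    intro z
    rw [Complex.sq_norm, Complex.normSq_apply]
    simp
    ring
  refine kap_sign_scale hX (by omega) ?_
  have hne : ζ ≠ 0 := by
    intro h0
    have := hζ.im_pos
    rw [h0] at this
    simp at this
  rw [Complex.arg_real_mul _ (cX_pos hX)] at hk
  have hd := dominance hμ le_rfl hB0 (n := n) (by omega) (ρ := ρ) (r₀ := 1) one_pos (ζ := ζ)
    (by rw [hJ]; exact hζ.zero) hζ.im_pos (by
      refine lt_of_pow_lt_pow_left₀ 2 zero_le_one ?_
      rw [hsub]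
      nlinarith [hζ.re_ge, hζ.normSq_le, hζ.im_lt, hζ.im_pos])
    (by rw [hJ]; exact hζ.simple) (by
      rw [hJ]
      intro z hz h1 h2
      have hre := hζ.all_re z hz
      have hre' : 0 ≤ ρ * (z.re - ρ) := mul_nonneg (by linarith) (by linarith)
      have him : 1 ≤ z.im ^ 2 := by
        rcases le_or_gt 0 z.im with hi | hi
        · have : 1 < z.im := by
            by_contra hc
            exact h1 (hζ.unique z hz hi (not_lt.1 hc))
          nlinarith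
        · have : 1 < -z.im := by
            by_contra hc
            apply h2
            have := hζ.unique (starRingEnd ℂ z) (by rw [conj_egf_mom hX, hz, map_zero])
              (by simp; linarith) (by simp; linarith)
            rw [← this, Complex.conj_conj]
          nlinarith
      constructor
      · refine le_of_sq_le_sq ?_ (norm_nonneg _)
        rw [hsub]
        nlinarith [sq_nonneg (z.re - ρ)]
      · rw [hsub, Complex.sq_norm, Complex.normSq_apply]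
        nlinarith)
  rw [hm] at hd
  exact sign_of_dom hne (Real.sqrt_pos.2 (by positivity)) hd
    (numD hn hnρ hB0 hB.2 (norm_nonneg _) (by rw [e1]; exact hζ.normSq_le)) hk

/-- The angle at the last saddle. -/
theorem SmallZero.angle {X ρ : ℝ} {ζ : ℂ} (h : SmallZero X ρ ζ) (hX : 0 < X)
    (hX' : X ≤ 1 / 10 ^ 5) (hρ : 302 / 100 ≤ ρ) {n k : ℕ} (hk : 1 ≤ k)
    (h1 : (n : ℝ) / k ≤ BX X * ρ) (h2 : 5 * k ^ 2 ≤ n) :
    (n : ℝ) * ζ.arg < (k + 1) * π := by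
  have hB := BX_bounds hX hX'
  have hρ0 : 0 < ρ := by linarith
  have hk0 : (1 : ℝ) ≤ k := by exact_mod_cast hk
  have h2' : 5 * (k : ℝ) ^ 2 ≤ n := by exact_mod_cast h2
  have hn0 : (0 : ℝ) < n := by nlinarith
  have hre : 0 < ζ.re := by linarith [h.re_ge]
  have hi := h.im_pos
  have ha1 : 0 < ζ.arg := by
    rcases lt_or_eq_of_le (Complex.arg_nonneg_iff.2 hi.le) with h3 | h3
    · exact h3
    · have := (Complex.arg_eq_zero_iff.1 h3.symm).2
      linarith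
  have ha2 : ζ.arg < π / 2 := by
    have := (Complex.abs_arg_lt_pi_div_two_iff.2 (Or.inl hre))
    exact (abs_lt.1 this).2
  have ht : ζ.arg < ζ.im / ζ.re := by
    rw [← Complex.tan_arg]
    exact Real.lt_tan ha1 ha2
  have hBρ : 206 / 100 < BX X * ρ := by nlinarith [hB.1]
  have hb : 0 < BX X - 206 / 100 / ρ := by
    rw [sub_pos, div_lt_iff₀ hρ0]
    linarith
  have h3 : ζ.im / ζ.re ≤ π / (BX X * ρ - 206 / 100) := by
    have e : π / (BX X * ρ - 206 / 100) = π / (BX X - 206 / 100 / ρ) / ρ := by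
      rw [div_div]
      congr 1
      field_simp
    rw [e]
    exact div_le_div₀ (by positivity) h.im_le hρ0 h.re_ge
  have h4 : (n : ℝ) * ζ.arg < n * (π / (BX X * ρ - 206 / 100)) :=
    mul_lt_mul_of_pos_left (lt_of_lt_of_le ht h3) hn0
  refine lt_of_lt_of_le h4 ?_
  rw [← mul_div_assoc, div_le_iff₀ (by linarith)]
  have h5 : (n : ℝ) ≤ (k + 1) * (BX X * ρ - 206 / 100) := by
    rw [div_le_iff₀ (by linarith)] at h1
    have h6 : (n : ℝ) ≤ k * (BX X * ρ) := by linarith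
    have h7 : (n : ℝ) / k * k = n := by field_simp
    have h8 : 206 / 100 * ((k : ℝ) + 1) ≤ BX X * ρ := by
      have : 5 * (k : ℝ) ≤ BX X * ρ := by
        by_contra hc
        rw [not_le] at hc
        nlinarith
      nlinarith
    linarith
  nlinarith [Real.pi_pos]

end

end Pool.Agent.Lib_MP_1dbf07_co
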