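import Pool.Agent.Lib_MP_1dbf07_co.Defs

namespace Pool.Agent.Lib_MP_1dbf07_co

open MeasureTheory Set Filter Topology
open scoped Real Nat PowerSeries

noncomputable section

/-- Zeros persist: near a zero of `f t0` there is a zero of `f t` for `t` close to `t0`. -/
private lemma h5_zero_near {f : ℝ → ℂ → ℂ} {S : Set ℝ} {t0 : ℝ} (ht0 : t0 ∈ S)
    (hd : ∀ t ∈ S, Differentiable ℂ (f t))
    (hc : ContinuousOn (fun p : ℝ × ℂ => f p.1 p.2) (S ×ˢ univ)) {z0 : ℂ} (hz0 : f t0 z0 = 0)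
    (hne : ∃ x : ℂ, f t0 x ≠ 0) {ε : ℝ} (hε : 0 < ε) :
    ∀ᶠ t in 𝓝[S] t0, ∃ z : ℂ, ‖z - z0‖ ≤ ε ∧ f t z = 0 := by
  -- a circle without zeros
  have hiso : ∀ᶠ z in 𝓝[≠] z0, f t0 z ≠ 0 := by
    rcases (hd t0 ht0).analyticAt z0 |>.eventually_eq_zero_or_eventually_ne_zero with h | h
    · exfalso
      obtain ⟨x, hx⟩ := hne
      have hA : AnalyticOnNhd ℂ (f t0) univ := fun z _ => (hd t0 ht0).analyticAt z
      have := hA.eqOn_zero_of_preconnected_of_eventuallyEq_zero isPreconnected_univ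
        (mem_univ z0) h
      exact hx (this (mem_univ x))
    · exact h
  rw [eventually_nhdsWithin_iff, Metric.eventually_nhds_iff] at hiso
  obtain ⟨ρ0, hρ0, hρ⟩ := hiso
  set ρ := min (ρ0 / 2) ε with hρdef
  have hρpos : 0 < ρ := lt_min (by linarith) hε
  have hρlt : ρ < ρ0 := lt_of_le_of_lt (min_le_left _ _) (by linarith)
  have hsph : ∀ z ∈ Metric.sphere z0 ρ, f t0 z ≠ 0 := by
    intro z hz
    rw [Metric.mem_sphere] at hz
    apply hρ (by rw [hz]; exact hρlt)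
    intro h
    rw [Set.mem_singleton_iff.1 h, dist_self] at hz
    exact hρpos.ne hz
  have hsne : (Metric.sphere z0 ρ).Nonempty := by
    rw [NormedSpace.sphere_nonempty]
    exact hρpos.le
  obtain ⟨w, hw, hwmin⟩ := (isCompact_sphere z0 ρ).exists_isMinOn hsne
    (f := fun z => ‖f t0 z‖) (hd t0 ht0).continuous.norm.continuousOn
  set m := ‖f t0 w‖ with hm
  have hmpos : 0 < m := norm_pos_iff.2 (hsph w hw)
  have hclose : ∀ᶠ t in 𝓝 t0, ∀ z ∈ Metric.closedBall z0 ρ,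
      (t ∈ S → ‖f t z - f t0 z‖ < m / 8) := by
    apply (isCompact_closedBall z0 ρ).eventually_forall_of_forall_eventually
    intro z _
    have h1 : ContinuousWithinAt (fun p : ℝ × ℂ => f p.1 p.2) (S ×ˢ univ) (t0, z) :=
      hc (t0, z) ⟨ht0, mem_univ _⟩
    have h2 : ∀ᶠ p : ℝ × ℂ in 𝓝[S ×ˢ univ] (t0, z), ‖f p.1 p.2 - f t0 z‖ < m / 16 := by
      have := Metric.tendsto_nhds.1 h1 (m / 16) (by linarith)
      simpa [dist_eq_norm] using this
    rw [eventually_nhdsWithin_iff] at h2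
    have h3 : ∀ᶠ p : ℝ × ℂ in 𝓝 (t0, z), ‖f t0 p.2 - f t0 z‖ < m / 16 := by
      have h4 : Continuous (fun p : ℝ × ℂ => f t0 p.2) :=
        (hd t0 ht0).continuous.comp continuous_snd
      have := Metric.tendsto_nhds.1 (h4.tendsto (t0, z)) (m / 16) (by linarith)
      simpa [dist_eq_norm] using this
    filter_upwards [h2, h3] with p hp1 hp2 hpS
    have h5 := hp1 ⟨hpS, mem_univ _⟩
    have h6 : f p.1 p.2 - f t0 p.2 = (f p.1 p.2 - f t0 z) - (f t0 p.2 - f t0 z) := by ring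
    rw [h6]
    calc ‖(f p.1 p.2 - f t0 z) - (f t0 p.2 - f t0 z)‖
        ≤ ‖f p.1 p.2 - f t0 z‖ + ‖f t0 p.2 - f t0 z‖ := norm_sub_le _ _
      _ < m / 8 := by linarith
  rw [eventually_nhdsWithin_iff]
  filter_upwards [hclose] with t ht htS
  have hct : ‖f t z0‖ < m / 8 := by
    have := ht z0 (Metric.mem_closedBall_self hρpos.le) htS
    rwa [hz0, sub_zero] at this
  have hdt := hd t htS
  have hsp : ∀ z ∈ Metric.sphere z0 ρ, m / 2 ≤ ‖f t z - f t z0‖ := by
    intro z hz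
    have h1 := ht z (Metric.sphere_subset_closedBall hz) htS
    have h2 : m ≤ ‖f t0 z‖ := hwmin hz
    have h3 : ‖f t0 z‖ ≤ ‖f t z - f t z0‖ + ‖f t z0‖ + ‖f t z - f t0 z‖ := by
      have : f t0 z = (f t z - f t z0) + f t z0 - (f t z - f t0 z) := by ring
      calc ‖f t0 z‖ = ‖(f t z - f t z0) + f t z0 - (f t z - f t0 z)‖ := by rw [← this]
        _ ≤ ‖(f t z - f t z0) + f t z0‖ + ‖f t z - f t0 z‖ := norm_sub_le _ _
        _ ≤ _ := by gcongr; exact norm_add_le _ _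
    linarith
  have hfreq : ∃ᶠ z in 𝓝 z0, f t z ≠ f t z0 := by
    intro hcon
    simp only [not_not] at hcon
    -- f t constant, contradiction on the sphere
    have hA : AnalyticOnNhd ℂ (f t) univ := fun z _ => hdt.analyticAt z
    have hB : AnalyticOnNhd ℂ (fun _ : ℂ => f t z0) univ := fun z _ => analyticAt_const
    have := hA.eqOn_of_preconnected_of_eventuallyEq hB isPreconnected_univ (mem_univ z0) hcon
    have h1 := hsp w hw
    rw [this (mem_univ w)] at h1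
    simp only [sub_self, norm_zero] at h1
    linarith
  have hball := (hdt.diffContOnCl (s := Metric.ball z0 ρ)).ball_subset_image_closedBall hρpos hsp
    hfreq
  have h0 : (0 : ℂ) ∈ Metric.ball (f t z0) (m / 2 / 2) := by
    rw [Metric.mem_ball, dist_eq_norm, zero_sub, norm_neg]
    linarith
  obtain ⟨z, hz, hfz⟩ := hball h0
  refine ⟨z, ?_, hfz⟩
  rw [Metric.mem_closedBall, dist_eq_norm] at hz
  exact hz.trans (min_le_right _ _)

/-- Continuity of the first zero. -/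
theorem minZero_continuousOn {f : ℝ → ℂ → ℂ} {ζ : ℝ → ℂ} {S : Set ℝ}
    (hd : ∀ t ∈ S, Differentiable ℂ (f t))
    (hc : ContinuousOn (fun p : ℝ × ℂ => f p.1 p.2) (S ×ˢ univ))
    (hreal : ∀ t ∈ S, ∀ x : ℝ, f t x ≠ 0)
    (hmin : ∀ t ∈ S, MinZero (f t) (ζ t)) : ContinuousOn ζ S := by
  intro t0 ht0
  have h0 := hmin t0 ht0
  -- upper bound for the modulus
  have hup : ∀ δ : ℝ, 0 < δ → ∀ᶠ t in 𝓝[S] t0, ‖ζ t‖ ≤ ‖ζ t0‖ + δ := by
    intro δ hδ
    have hε : 0 < min δ ((ζ t0).im / 2) := lt_min hδ (by linarith [h0.im_pos])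
    filter_upwards [h5_zero_near ht0 hd hc h0.zero ⟨((0 : ℝ) : ℂ), hreal t0 ht0 0⟩ hε,
      self_mem_nhdsWithin] with t ht htS
    obtain ⟨z, hz, hfz⟩ := ht
    have him : 0 < z.im := by
      have h1 : |(z - ζ t0).im| ≤ ‖z - ζ t0‖ := Complex.abs_im_le_norm _
      have h2 : ‖z - ζ t0‖ ≤ (ζ t0).im / 2 := hz.trans (min_le_right _ _)
      rw [Complex.sub_im] at h1
      have h3 := (abs_le.1 (h1.trans h2)).1
      linarith [h0.im_pos]
    have hle : ‖ζ t‖ ≤ ‖z‖ := by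
      by_cases h : z = ζ t
      · rw [h]
      · exact ((hmin t htS).min z hfz him h).le
    have h4 : ‖z‖ ≤ ‖ζ t0‖ + ‖z - ζ t0‖ := by
      calc ‖z‖ = ‖ζ t0 + (z - ζ t0)‖ := by ring_nf
        _ ≤ _ := norm_add_le _ _
    have h5 := hz.trans (min_le_left δ ((ζ t0).im / 2))
    linarith
  rw [ContinuousWithinAt, tendsto_iff_ultrafilter]
  intro U hU
  have hU' : (U : Filter ℝ) ≤ 𝓝[S] t0 := hU
  have hUt : Tendsto (fun t : ℝ => t) U (𝓝 t0) := hU'.trans nhdsWithin_le_nhds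
  have hUS : ∀ᶠ t in (U : Filter ℝ), t ∈ S := hU' self_mem_nhdsWithin
  have hbd : ∀ᶠ t in (U : Filter ℝ), ζ t ∈ Metric.closedBall (0 : ℂ) (‖ζ t0‖ + 1) := by
    filter_upwards [hU' (hup 1 one_pos)] with t ht
    simpa [Metric.mem_closedBall, dist_eq_norm] using ht
  have hcomp := (isCompact_closedBall (0 : ℂ) (‖ζ t0‖ + 1)).ultrafilter_le_nhds (U.map ζ)
    (le_principal_iff.2 hbd)
  obtain ⟨zs, _, hzs⟩ := hcomp
  have hT : Tendsto ζ U (𝓝 zs) := hzs
  have hlim : f t0 zs = 0 := by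
    have h1 : Tendsto (fun t => (t, ζ t)) (U : Filter ℝ) (𝓝[S ×ˢ univ] (t0, zs)) := by
      rw [tendsto_nhdsWithin_iff]
      refine ⟨hUt.prodMk_nhds hT, ?_⟩
      filter_upwards [hUS] with t ht
      exact ⟨ht, mem_univ _⟩
    have h2 : Tendsto (fun t => f t (ζ t)) (U : Filter ℝ) (𝓝 (f t0 zs)) :=
      (hc (t0, zs) ⟨ht0, mem_univ _⟩).tendsto.comp h1
    have h3 : Tendsto (fun t => f t (ζ t)) (U : Filter ℝ) (𝓝 0) := by
      apply tendsto_const_nhds.congr'
      filter_upwards [hUS] with t ht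
      exact ((hmin t ht).zero).symm
    exact tendsto_nhds_unique h2 h3
  have him : 0 ≤ zs.im := by
    apply ge_of_tendsto ((Complex.continuous_im.tendsto zs).comp hT)
    filter_upwards [hUS] with t ht
    exact ((hmin t ht).im_pos).le
  have hnorm : ‖zs‖ ≤ ‖ζ t0‖ := by
    apply le_of_forall_pos_le_add
    intro δ hδ
    apply le_of_tendsto ((continuous_norm.tendsto zs).comp hT)
    exact hU' (hup δ hδ)
  have him' : 0 < zs.im := by
    rcases him.lt_or_eq with h | h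
    · exact h
    · exfalso
      apply hreal t0 ht0 zs.re
      have : ((zs.re : ℝ) : ℂ) = zs := by
        apply Complex.ext
        · simp
        · simp [← h]
      rw [this]
      exact hlim
  have hzeq : zs = ζ t0 := by
    by_contra h
    exact absurd (h0.min zs hlim him' h) (not_lt.2 hnorm)
  rw [hzeq] at hT
  exact hT

end

end Pool.Agent.Lib_MP_1dbf07_co
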