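import Pool.Agent.Lib_MP_1dbf07_co.Defs

namespace Pool.Agent.Lib_MP_1dbf07_co

open MeasureTheory Set Filter Topology
open scoped Real Nat PowerSeries

noncomputable section

namespace H6aAux

/-- The order of vanishing as an integer. -/
def od (f : ℂ → ℂ) (z : ℂ) : ℤ := ((analyticOrderAt f z).toNat : ℤ)

theorem od_nonneg (f : ℂ → ℂ) (z : ℂ) : 0 ≤ od f z := Int.natCast_nonneg _

open scoped Classical in
theorem divisor_eq {f : ℂ → ℂ} (hf : Differentiable ℂ f) (c : ℂ) (r : ℝ) (u : ℂ) :
    MeromorphicOn.divisor f (Metric.closedBall c r) u =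
      if u ∈ Metric.closedBall c r then od f u else 0 := by
  have ha : AnalyticOnNhd ℂ f (Metric.closedBall c r) := fun z _ => hf.analyticAt z
  split_ifs with h
  · rw [MeromorphicOn.AnalyticOnNhd.divisor_apply ha h]
    unfold od
    cases hh : analyticOrderAt f u with
    | top => rfl
    | coe n => rfl
  · exact Function.locallyFinsuppWithin.apply_eq_zero_of_notMem _ h

open scoped Classical in
theorem zc_eq {f : ℂ → ℂ} (hf : Differentiable ℂ f) (c : ℂ) (r : ℝ) :
    zc f c r = ∑ᶠ u, if u ∈ Metric.closedBall c r then od f u else 0 := by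
  unfold zc
  exact finsum_congr fun u => divisor_eq hf c r u

theorem od_zero {f : ℂ → ℂ} {z : ℂ} (h : f z ≠ 0) : od f z = 0 := by
  unfold od
  rw [analyticOrderAt_eq_zero.2 (Or.inr h)]
  rfl

theorem od_pos {f : ℂ → ℂ} (hf : Differentiable ℂ f) {w : ℂ} (hw : f w ≠ 0) {z : ℂ}
    (h : f z = 0) : 1 ≤ od f z := by
  have ha : ∀ z, AnalyticAt ℂ f z := fun z => hf.analyticAt z
  have h1 : analyticOrderAt f z ≠ ⊤ := by
    intro h1
    rw [AnalyticOnNhd.analyticOrderAt_eq_top_iff_eq_zero z ha] at h1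
    exact hw (by rw [h1]; rfl)
  have h2 : analyticOrderAt f z ≠ 0 := analyticOrderAt_ne_zero.2 ⟨ha z, h⟩
  unfold od
  cases hh : analyticOrderAt f z with
  | top => exact absurd hh h1
  | coe n =>
    rw [hh] at h2
    have h3 : n ≠ 0 := by
      rintro rfl
      exact h2 rfl
    show (1 : ℤ) ≤ (n : ℤ)
    exact_mod_cast Nat.one_le_iff_ne_zero.2 h3

theorem support_finite {f : ℂ → ℂ} (hf : Differentiable ℂ f) (c : ℂ) (r : ℝ) :
    (Function.support (MeromorphicOn.divisor f (Metric.closedBall c r))).Finite :=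
  (MeromorphicOn.divisor f (Metric.closedBall c r)).finiteSupport
    (isCompact_closedBall c r)

end H6aAux

open H6aAux

/-- The count does not change across an annulus without zeros. -/
theorem zc_congr {f : ℂ → ℂ} (hf : Differentiable ℂ f) {c : ℂ} {r R : ℝ} (hr : 0 < r)
    (hR : r ≤ R) (hz : ∀ z : ℂ, r ≤ ‖z - c‖ → ‖z - c‖ ≤ R → f z ≠ 0) :
    zc f c r = zc f c R := by
  classical
  rw [zc_eq hf, zc_eq hf]
  refine finsum_congr fun u => ?_
  by_cases h1 : u ∈ Metric.closedBall c r
  · rw [if_pos h1, if_pos (Metric.closedBall_subset_closedBall hR h1)]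
  · rw [if_neg h1]
    split_ifs with h2
    · rw [Metric.mem_closedBall, dist_eq_norm] at h1 h2
      exact (od_zero (hz u (not_le.1 h1).le h2)).symm
    · rfl

/-- Scaling and a factor without zeros. -/
theorem zc_scale {g : ℂ → ℂ} (hg : Differentiable ℂ g) (β : ℂ) {α r : ℝ} (hα : 0 < α)
    (hr : 0 < r) (h0 : g 0 ≠ 0) :
    zc (fun z => Complex.exp (β * z) * g (α * z)) 0 r = zc g 0 (α * r) := by
  classical
  have hα' : (α : ℂ) ≠ 0 := by exact_mod_cast hα.ne'
  have hdiff : Differentiable ℂ (fun z : ℂ => Complex.exp (β * z) * g (α * z)) := by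
    have h1 : Differentiable ℂ (fun z : ℂ => g (α * z)) :=
      hg.comp (differentiable_id.const_mul (α : ℂ))
    exact ((differentiable_id.const_mul β).cexp).mul h1
  rw [zc_eq hdiff, zc_eq hg]
  refine finsum_eq_of_bijective (fun z => (α : ℂ) * z) (mulLeft_bijective₀ _ hα') fun u => ?_
  have h1 : (u ∈ Metric.closedBall (0 : ℂ) r) ↔ ((α : ℂ) * u ∈ Metric.closedBall (0 : ℂ) (α * r)) := by
    rw [mem_closedBall_zero_iff, mem_closedBall_zero_iff, norm_mul, Complex.norm_real,
      Real.norm_of_nonneg hα.le]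
    exact (mul_le_mul_iff_right₀ hα).symm
  have h2 : od (fun z => Complex.exp (β * z) * g (α * z)) u = od g ((α : ℂ) * u) := by
    unfold od
    have e1 : AnalyticAt ℂ (fun z : ℂ => Complex.exp (β * z)) u :=
      ((differentiable_id.const_mul β).cexp).analyticAt u
    have e2 : AnalyticAt ℂ (fun z : ℂ => g (α * z)) u :=
      (hg.comp (differentiable_id.const_mul (α : ℂ))).analyticAt u
    have e3 : analyticOrderAt (fun z => Complex.exp (β * z) * g (α * z)) u =
        analyticOrderAt (fun z : ℂ => Complex.exp (β * z)) u +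
        analyticOrderAt (fun z : ℂ => g (α * z)) u := analyticOrderAt_mul e1 e2
    have e4 : analyticOrderAt (fun z : ℂ => Complex.exp (β * z)) u = 0 :=
      analyticOrderAt_eq_zero.2 (Or.inr (Complex.exp_ne_zero _))
    have e5 : analyticOrderAt (fun z : ℂ => g (α * z)) u = analyticOrderAt g ((α : ℂ) * u) := by
      have hd : HasDerivAt (fun z : ℂ => (α : ℂ) * z) (α : ℂ) u := by
        simpa using (hasDerivAt_id u).const_mul (α : ℂ)
      exact analyticOrderAt_comp_of_deriv_ne_zero (f := g) (g := fun z : ℂ => (α : ℂ) * z)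
        (z₀ := u) ((differentiable_id.const_mul (α : ℂ)).analyticAt u) (by rw [hd.deriv]; exact hα')
    rw [e3, e4, e5, zero_add]
  simp only [h1, h2]

end

end Pool.Agent.Lib_MP_1dbf07_co
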