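import Pool.Agent.Lib_MP_1dbf07_co.Defs

namespace Pool.Agent.Lib_MP_1dbf07_co

open MeasureTheory Set Filter Topology
open scoped Real Nat PowerSeries

noncomputable section

/-- The divisors over concentric discs with no zeros in between agree. -/
private lemma h6b_divisor_eq {f : ℂ → ℂ} (hf : Differentiable ℂ f) {c : ℂ} {r R : ℝ}
    (hR : r ≤ R) (hz : ∀ z : ℂ, r < ‖z - c‖ → ‖z - c‖ ≤ R → f z ≠ 0) (u : ℂ) :
    MeromorphicOn.divisor f (Metric.closedBall c R) u
      = MeromorphicOn.divisor f (Metric.closedBall c r) u := by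
  have hm : ∀ U : Set ℂ, MeromorphicOn f U := fun U z _ => (hf.analyticAt z).meromorphicAt
  by_cases h1 : u ∈ Metric.closedBall c r
  · rw [MeromorphicOn.divisor_apply (hm _) h1,
      MeromorphicOn.divisor_apply (hm _) (Metric.closedBall_subset_closedBall hR h1)]
  · rw [Function.locallyFinsuppWithin.apply_eq_zero_of_notMem _ h1]
    by_cases h2 : u ∈ Metric.closedBall c R
    · have h1' : r < ‖u - c‖ := by
        simpa [Metric.mem_closedBall, dist_eq_norm] using h1
      have h2' : ‖u - c‖ ≤ R := by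
        simpa [Metric.mem_closedBall, dist_eq_norm] using h2
      have h3 : f u ≠ 0 := hz u h1' h2'
      rw [MeromorphicOn.divisor_apply (hm _) h2, (hf.analyticAt u).meromorphicOrderAt_eq,
        (hf.analyticAt u).analyticOrderAt_eq_zero.2 h3]
      rfl
    · exact Function.locallyFinsuppWithin.apply_eq_zero_of_notMem _ h2

/-- The difference of two circle averages counts the zeros (Jensen). -/
private lemma h6b_jensen_diff {f : ℂ → ℂ} (hf : Differentiable ℂ f) {c : ℂ} {r R : ℝ}
    (hr : 0 < r) (hR : r < R) (hz : ∀ z : ℂ, r < ‖z - c‖ → ‖z - c‖ ≤ R → f z ≠ 0) :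
    Real.circleAverage (fun z => Real.log ‖f z‖) c R
      - Real.circleAverage (fun z => Real.log ‖f z‖) c r
      = (zc f c r : ℝ) * (Real.log R - Real.log r) := by
  classical
  have hm : ∀ U : Set ℂ, MeromorphicOn f U := fun U z _ => (hf.analyticAt z).meromorphicAt
  have hR0 : 0 < R := hr.trans hR
  have e1 := MeromorphicOn.circleAverage_log_norm (c := c) (R := R) (f := f) hR0.ne' (hm _)
  have e2 := MeromorphicOn.circleAverage_log_norm (c := c) (R := r) (f := f) hr.ne' (hm _)
  rw [abs_of_pos hR0] at e1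
  rw [abs_of_pos hr] at e2
  have hD := h6b_divisor_eq hf hR.le hz
  simp only [hD] at e1
  set D : ℂ → ℤ := fun u => MeromorphicOn.divisor f (Metric.closedBall c r) u with hDdef
  have hfin : (Function.support D).Finite :=
    (MeromorphicOn.divisor f (Metric.closedBall c r)).finiteSupport (isCompact_closedBall c r)
  set S := hfin.toFinset with hS
  have hsum : ∀ g : ℂ → ℝ, (∑ᶠ u, (D u : ℝ) * g u) = ∑ u ∈ S, (D u : ℝ) * g u := by
    intro g
    apply finsum_eq_sum_of_support_subset
    intro u hu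
    rw [Function.mem_support] at hu
    have : D u ≠ 0 := by
      intro h0
      apply hu
      rw [h0]
      simp
    simpa [hS] using this
  have hzc : (zc f c r : ℝ) = ∑ u ∈ S, (D u : ℝ) := by
    have : zc f c r = ∑ u ∈ S, D u := by
      unfold zc
      apply finsum_eq_sum_of_support_subset
      intro u hu
      simpa [hS] using hu
    rw [this]
    push_cast
    rfl
  have e1' : Real.circleAverage (fun z => Real.log ‖f z‖) c R
      = (∑ u ∈ S, (D u : ℝ) * Real.log (R * ‖c - u‖⁻¹)) + (D c : ℝ) * Real.log R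
        + Real.log ‖meromorphicTrailingCoeffAt f c‖ := by
    rw [← hsum]; exact e1
  have e2' : Real.circleAverage (fun z => Real.log ‖f z‖) c r
      = (∑ u ∈ S, (D u : ℝ) * Real.log (r * ‖c - u‖⁻¹)) + (D c : ℝ) * Real.log r
        + Real.log ‖meromorphicTrailingCoeffAt f c‖ := by
    rw [← hsum]; exact e2
  rw [e1', e2', hzc]
  have key : (∑ u ∈ S, (D u : ℝ) * Real.log (R * ‖c - u‖⁻¹))
      - (∑ u ∈ S, (D u : ℝ) * Real.log (r * ‖c - u‖⁻¹))
      = ∑ u ∈ S, ((D u : ℝ) * (Real.log R - Real.log r)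
          - if u = c then (D c : ℝ) * (Real.log R - Real.log r) else 0) := by
    rw [← Finset.sum_sub_distrib]
    apply Finset.sum_congr rfl
    intro u _
    by_cases hu : u = c
    · subst hu
      simp
    · have h0 : ‖c - u‖⁻¹ ≠ 0 := by
        apply inv_ne_zero
        rw [norm_ne_zero_iff, sub_ne_zero]
        exact fun h => hu h.symm
      rw [if_neg hu, Real.log_mul hR0.ne' h0, Real.log_mul hr.ne' h0]
      ring
  have key2 : (∑ u ∈ S, if u = c then (D c : ℝ) * (Real.log R - Real.log r) else 0)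
      = (D c : ℝ) * (Real.log R - Real.log r) := by
    rw [Finset.sum_ite_eq' S c]
    by_cases hc : c ∈ S
    · rw [if_pos hc]
    · rw [if_neg hc]
      have : D c = 0 := by
        by_contra h
        apply hc
        simpa [hS] using h
      rw [this]
      simp
  rw [Finset.sum_sub_distrib, key2, ← Finset.sum_mul] at key
  linarith

/-- A uniform radius gap without zeros. -/
private lemma h6b_gap {f : ℝ → ℂ → ℂ} {a b : ℝ}
    (hc : ContinuousOn (fun p : ℝ × ℂ => f p.1 p.2) (Icc a b ×ˢ univ)) {c : ℂ} {r : ℝ}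
    (hz : ∀ t ∈ Icc a b, ∀ z ∈ Metric.sphere c r, f t z ≠ 0) :
    ∃ δ : ℝ, 0 < δ ∧ ∀ t ∈ Icc a b, ∀ z : ℂ, r ≤ ‖z - c‖ → ‖z - c‖ ≤ r + δ → f t z ≠ 0 := by
  set K : Set (ℝ × ℂ) := Icc a b ×ˢ Metric.closedBall c (r + 1) with hK
  have hKc : IsCompact K := isCompact_Icc.prod (isCompact_closedBall c (r + 1))
  have hcK : ContinuousOn (fun p : ℝ × ℂ => f p.1 p.2) K :=
    hc.mono (prod_mono Subset.rfl (subset_univ _))
  set Z : Set (ℝ × ℂ) := (K ∩ (fun p : ℝ × ℂ => f p.1 p.2) ⁻¹' {0}) ∩ {p | r ≤ ‖p.2 - c‖} with hZ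
  have hZc : IsCompact Z := by
    apply IsCompact.inter_right
    · exact hKc.of_isClosed_subset
        (hcK.preimage_isClosed_of_isClosed hKc.isClosed isClosed_singleton) inter_subset_left
    · exact isClosed_le continuous_const (by fun_prop)
  rcases Z.eq_empty_or_nonempty with hemp | hne
  · refine ⟨1, one_pos, ?_⟩
    intro t ht z h1 h2 h0
    have : (t, z) ∈ Z := by
      refine ⟨⟨⟨ht, ?_⟩, h0⟩, h1⟩
      simpa [Metric.mem_closedBall, dist_eq_norm] using h2
    rw [hemp] at this
    exact this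
  · obtain ⟨p, hp, hmin⟩ := hZc.exists_isMinOn hne
      (f := fun p : ℝ × ℂ => ‖p.2 - c‖ - r) (by fun_prop)
    have hpos : 0 < ‖p.2 - c‖ - r := by
      have h1 : r ≤ ‖p.2 - c‖ := hp.2
      rcases h1.lt_or_eq with h | h
      · linarith
      · exfalso
        apply hz p.1 hp.1.1.1 p.2 _ hp.1.2
        rw [Metric.mem_sphere, dist_eq_norm]
        exact h.symm
    refine ⟨min 1 ((‖p.2 - c‖ - r) / 2), lt_min one_pos (by linarith), ?_⟩
    intro t ht z h1 h2 h0
    have hmem : (t, z) ∈ Z := by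
      refine ⟨⟨⟨ht, ?_⟩, h0⟩, h1⟩
      have := min_le_left 1 ((‖p.2 - c‖ - r) / 2)
      have : ‖z - c‖ ≤ r + 1 := by linarith
      simpa [Metric.mem_closedBall, dist_eq_norm] using this
    have h3 : ‖p.2 - c‖ - r ≤ ‖z - c‖ - r := hmin hmem
    have h4 := min_le_right 1 ((‖p.2 - c‖ - r) / 2)
    linarith

/-- Continuity of the circle averages in the parameter. -/
private lemma h6b_cont {f : ℝ → ℂ → ℂ} {a b : ℝ}
    (hc : ContinuousOn (fun p : ℝ × ℂ => f p.1 p.2) (Icc a b ×ˢ univ)) {c : ℂ} {R : ℝ}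
    (hR : 0 < R) (hz : ∀ t ∈ Icc a b, ∀ z : ℂ, ‖z - c‖ = R → f t z ≠ 0) :
    Continuous (fun t : Icc a b => Real.circleAverage (fun z => Real.log ‖f t z‖) c R) := by
  suffices h0 : Continuous (Function.uncurry
      (fun (t : Icc a b) (θ : ℝ) => Real.log ‖f t (circleMap c R θ)‖)) by
    have h3 := intervalIntegral.continuous_parametric_intervalIntegral_of_continuous'
      (μ := volume) h0 0 (2 * π)
    exact h3.const_smul ((2 * π)⁻¹)
  have h1 : Continuous (fun p : Icc a b × ℝ => f p.1 (circleMap c R p.2)) := by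
    have : Continuous (fun p : Icc a b × ℝ => ((p.1 : ℝ), circleMap c R p.2)) := by
      fun_prop
    exact hc.comp_continuous this (fun p => ⟨p.1.2, mem_univ _⟩)
  refine Continuous.log h1.norm ?_
  intro p
  rw [norm_ne_zero_iff]
  apply hz p.1 p.1.2
  simp [circleMap, abs_of_pos hR]

/-- Homotopy invariance of the count. -/
theorem zc_homotopy {f : ℝ → ℂ → ℂ} {a b : ℝ} (hab : a ≤ b)
    (hd : ∀ t ∈ Icc a b, Differentiable ℂ (f t))
    (hc : ContinuousOn (fun p : ℝ × ℂ => f p.1 p.2) (Icc a b ×ˢ univ)) {c : ℂ} {r : ℝ}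
    (hr : 0 < r) (hz : ∀ t ∈ Icc a b, ∀ z ∈ Metric.sphere c r, f t z ≠ 0) :
    zc (f a) c r = zc (f b) c r := by
  obtain ⟨δ, hδ, hgap⟩ := h6b_gap hc hz
  have hlog : 0 < Real.log (r + δ) - Real.log r := by
    rw [sub_pos]
    exact Real.log_lt_log hr (by linarith)
  have hval : ∀ t : Icc a b, (zc (f t) c r : ℝ)
      = (Real.circleAverage (fun z => Real.log ‖f t z‖) c (r + δ)
        - Real.circleAverage (fun z => Real.log ‖f t z‖) c r)
          / (Real.log (r + δ) - Real.log r) := by
    intro t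
    rw [h6b_jensen_diff (hd t t.2) hr (by linarith : r < r + δ)
      (fun z h1 h2 => hgap t t.2 z h1.le h2)]
    field_simp
  have hcont : Continuous (fun t : Icc a b => (zc (f t) c r : ℝ)) := by
    have h1 := h6b_cont hc (c := c) (R := r + δ) (by linarith)
      (fun t ht z h => hgap t ht z (by linarith) h.le)
    have h2 := h6b_cont hc (c := c) (R := r) hr (fun t ht z h => hgap t ht z h.ge (by linarith))
    have h3 : (fun t : Icc a b => (zc (f t) c r : ℝ)) = fun t : Icc a b =>
      (Real.circleAverage (fun z => Real.log ‖f t z‖) c (r + δ)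
        - Real.circleAverage (fun z => Real.log ‖f t z‖) c r)
          / (Real.log (r + δ) - Real.log r) := funext hval
    rw [h3]
    exact (h1.sub h2).div_const _
  have hcont' : Continuous (fun t : Icc a b => zc (f t) c r) :=
    Int.isClosedEmbedding_coe_real.isEmbedding.continuous_iff.2 hcont
  have : PreconnectedSpace (Icc a b) := Subtype.preconnectedSpace isPreconnected_Icc
  exact PreconnectedSpace.constant (inferInstance) hcont'
    (x := ⟨a, left_mem_Icc.2 hab⟩) (y := ⟨b, right_mem_Icc.2 hab⟩)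

end

end Pool.Agent.Lib_MP_1dbf07_co
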