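import Pool.Agent.Lib_MP_1dbf07_co.Defs
import Pool.Agent.Lib_MP_1dbf07_co.H6a

namespace Pool.Agent.Lib_MP_1dbf07_co

open MeasureTheory Set Filter Topology
open scoped Real Nat PowerSeries

noncomputable section

open H6aAux

namespace H8Aux

theorem conj_ne {ζ : ℂ} (h : 0 < ζ.im) : ζ ≠ starRingEnd ℂ ζ := by
  intro h1
  have h2 := congrArg Complex.im h1
  rw [Complex.conj_im] at h2
  linarith

open scoped Classical in
/-- Two zeros force the count. -/
theorem le_zc {f : ℂ → ℂ} (hf : Differentiable ℂ f) {r : ℝ} (s : Finset ℂ)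
    (hs : ∀ z ∈ s, ‖z‖ ≤ r) : ∑ z ∈ s, od f z ≤ zc f 0 r := by
  rw [zc_eq hf]
  have hfin := support_finite hf 0 r
  have hsub : Function.support (fun u : ℂ => if u ∈ Metric.closedBall (0 : ℂ) r then od f u else 0) ⊆
      ((hfin.toFinset ∪ s : Finset ℂ) : Set ℂ) := by
    intro u hu
    rw [Finset.coe_union]
    left
    rw [Finite.coe_toFinset, Function.mem_support, divisor_eq hf]
    exact hu
  rw [finsum_eq_sum_of_support_subset _ hsub]
  have h1 : ∑ z ∈ s, od f z = ∑ z ∈ s, if z ∈ Metric.closedBall (0 : ℂ) r then od f z else 0 := by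
    refine Finset.sum_congr rfl fun z hz => ?_
    rw [if_pos (mem_closedBall_zero_iff.2 (hs z hz))]
  rw [h1]
  refine Finset.sum_le_sum_of_subset_of_nonneg Finset.subset_union_right fun z _ _ => ?_
  split_ifs
  · exact od_nonneg f z
  · exact le_rfl

theorem od_one_of_deriv {f : ℂ → ℂ} (hf : Differentiable ℂ f) {z : ℂ} (h : f z = 0)
    (hd : deriv f z ≠ 0) : od f z = 1 := by
  unfold od
  rw [(hf.analyticAt z).analyticOrderAt_eq_one_of_zero_deriv_ne_zero h hd]
  rfl

theorem deriv_of_od_one {f : ℂ → ℂ} (hf : Differentiable ℂ f) {z : ℂ} (h : f z = 0)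
    (hd : od f z = 1) : deriv f z ≠ 0 := by
  have h1 := (hf.analyticAt z).analyticOrderAt_deriv_add_one
  have h2 : (f · - f z) = f := by
    funext w
    rw [h, sub_zero]
  rw [h2] at h1
  have h3 : analyticOrderAt f z = 1 := by
    unfold od at hd
    cases hh : analyticOrderAt f z with
    | top =>
      rw [hh] at hd
      simp at hd
    | coe n =>
      rw [hh] at hd
      have h4 : ((n : ℕ) : ℤ) = 1 := hd
      have h5 : n = 1 := by exact_mod_cast h4
      rw [h5]
      rfl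
  rw [h3] at h1
  have h4 : analyticOrderAt (deriv f) z = 0 := by
    have h5 : analyticOrderAt (deriv f) z + 1 = 0 + 1 := by rw [h1, zero_add]
    exact WithTop.add_right_cancel (by decide) h5
  rcases analyticOrderAt_eq_zero.1 h4 with h5 | h5
  · exact absurd ((hf.analyticAt z).deriv) h5
  · exact h5

end H8Aux

open H8Aux

/-- Two zeros, symmetric and not real. -/
theorem pair_of_zc {f : ℂ → ℂ} (hf : Differentiable ℂ f)
    (hconj : ∀ z, f (starRingEnd ℂ z) = starRingEnd ℂ (f z)) (hreal : ∀ x : ℝ, f x ≠ 0)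
    {r : ℝ} (hr : 0 < r) (hz : zc f 0 r = 2) :
    ∃ ζ : ℂ, 0 < ζ.im ∧ ‖ζ‖ ≤ r ∧ f ζ = 0 ∧ deriv f ζ ≠ 0 ∧
      ∀ z : ℂ, f z = 0 → ‖z‖ ≤ r → z = ζ ∨ z = starRingEnd ℂ ζ := by
  classical
  have hw : f 0 ≠ 0 := by
    have := hreal 0
    simpa using this
  have h1 : ∃ u : ℂ, ‖u‖ ≤ r ∧ f u = 0 := by
    by_contra hcon
    push Not at hcon
    have h2 : zc f 0 r = 0 := by
      rw [zc_eq hf]
      have h3 : ∀ u : ℂ, (if u ∈ Metric.closedBall (0 : ℂ) r then od f u else 0) = 0 := by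
        intro u
        split_ifs with h3
        · exact od_zero (hcon u (mem_closedBall_zero_iff.1 h3))
        · rfl
      rw [finsum_congr h3, finsum_zero]
    rw [h2] at hz
    exact absurd hz (by norm_num)
  obtain ⟨u, hu, hfu⟩ := h1
  have hne : u.im ≠ 0 := by
    intro h2
    apply hreal u.re
    have h3 : ((u.re : ℝ) : ℂ) = u := by
      apply Complex.ext
      · simp
      · simp [h2]
    rw [h3]
    exact hfu
  have h2 : ∃ ζ : ℂ, 0 < ζ.im ∧ ‖ζ‖ ≤ r ∧ f ζ = 0 := by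
    rcases lt_or_gt_of_ne hne with h3 | h3
    · refine ⟨starRingEnd ℂ u, ?_, ?_, ?_⟩
      · rw [Complex.conj_im]
        linarith
      · rw [Complex.norm_conj]
        exact hu
      · rw [hconj, hfu, map_zero]
    · exact ⟨u, h3, hu, hfu⟩
  obtain ⟨ζ, h3, h4, h5⟩ := h2
  have h6 : f (starRingEnd ℂ ζ) = 0 := by rw [hconj, h5, map_zero]
  have h7 : ‖starRingEnd ℂ ζ‖ ≤ r := by rw [Complex.norm_conj]; exact h4
  have h8 := od_pos hf hw h5
  have h9 := od_pos hf hw h6
  have hnc := conj_ne h3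
  have h10 := le_zc hf (r := r) {ζ, starRingEnd ℂ ζ} (by
    intro z hz
    rcases Finset.mem_insert.1 hz with rfl | hz
    · exact h4
    · rw [Finset.mem_singleton.1 hz]
      exact h7)
  rw [Finset.sum_pair hnc, hz] at h10
  refine ⟨ζ, h3, h4, h5, deriv_of_od_one hf h5 (by omega), ?_⟩
  intro z hz1 hz2
  by_contra hcon
  rw [not_or] at hcon
  have h11 := le_zc hf (r := r) {z, ζ, starRingEnd ℂ ζ} (by
    intro w hw
    rcases Finset.mem_insert.1 hw with rfl | hw
    · exact hz2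
    rcases Finset.mem_insert.1 hw with rfl | hw
    · exact h4
    · rw [Finset.mem_singleton.1 hw]
      exact h7)
  have h12 : z ∉ ({ζ, starRingEnd ℂ ζ} : Finset ℂ) := by
    rw [Finset.mem_insert, Finset.mem_singleton]
    rintro (h13 | h13)
    · exact hcon.1 h13
    · exact hcon.2 h13
  rw [Finset.sum_insert h12, Finset.sum_pair hnc, hz] at h11
  have h13 := od_pos hf hw hz1
  omega

theorem zc_of_pair {f : ℂ → ℂ} (hf : Differentiable ℂ f)
    (hconj : ∀ z, f (starRingEnd ℂ z) = starRingEnd ℂ (f z)) (h0 : f 0 ≠ 0)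
    {r : ℝ} {ζ : ℂ} (h1 : 0 < ζ.im) (h2 : ‖ζ‖ ≤ r) (h3 : f ζ = 0) (h4 : deriv f ζ ≠ 0)
    (h5 : ∀ z : ℂ, f z = 0 → ‖z‖ ≤ r → z = ζ ∨ z = starRingEnd ℂ ζ) :
    zc f 0 r = 2 := by
  classical
  have h6 : f (starRingEnd ℂ ζ) = 0 := by rw [hconj, h3, map_zero]
  have h7 : ‖starRingEnd ℂ ζ‖ ≤ r := by rw [Complex.norm_conj]; exact h2
  have hff : (starRingEnd ℂ) ∘ f ∘ (starRingEnd ℂ) = f := by
    funext z
    show starRingEnd ℂ (f (starRingEnd ℂ z)) = f z
    rw [hconj, Complex.conj_conj]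
  have h8 : deriv f (starRingEnd ℂ ζ) = starRingEnd ℂ (deriv f ζ) := by
    have h9 : deriv ((starRingEnd ℂ) ∘ f ∘ (starRingEnd ℂ)) = (starRingEnd ℂ) ∘ deriv f ∘
      (starRingEnd ℂ) := deriv_conj_conj
    rw [hff] at h9
    have h10 := congrFun h9 (starRingEnd ℂ ζ)
    rw [h10]
    show starRingEnd ℂ (deriv f (starRingEnd ℂ (starRingEnd ℂ ζ))) = _
    rw [Complex.conj_conj]
  have h9 : deriv f (starRingEnd ℂ ζ) ≠ 0 := by
    rw [h8]
    intro h10
    exact h4 ((map_eq_zero _).1 h10)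
  have hnc := conj_ne h1
  rw [zc_eq hf]
  have hsub : Function.support (fun u : ℂ => if u ∈ Metric.closedBall (0 : ℂ) r then od f u else 0) ⊆
      (({ζ, starRingEnd ℂ ζ} : Finset ℂ) : Set ℂ) := by
    intro u hu
    rw [Function.mem_support] at hu
    by_cases h10 : u ∈ Metric.closedBall (0 : ℂ) r
    · rw [if_pos h10] at hu
      have h11 : f u = 0 := by
        by_contra h12
        exact hu (od_zero h12)
      rw [Finset.mem_coe, Finset.mem_insert, Finset.mem_singleton]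
      exact h5 u h11 (mem_closedBall_zero_iff.1 h10)
    · rw [if_neg h10] at hu
      exact absurd rfl hu
  rw [finsum_eq_sum_of_support_subset _ hsub, Finset.sum_pair hnc,
    if_pos (mem_closedBall_zero_iff.2 h2), if_pos (mem_closedBall_zero_iff.2 h7),
    od_one_of_deriv hf h3 h4, od_one_of_deriv hf h6 h9]
  norm_num

end

end Pool.Agent.Lib_MP_1dbf07_co
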