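import Pool.Agent.Lib_MP_1dbf07_co.E2
import Pool.Agent.Lib_MP_1dbf07_co.H5
import Pool.Agent.Lib_MP_1dbf07_co.H6a
import Pool.Agent.Lib_MP_1dbf07_co.H6b
import Pool.Agent.Lib_MP_1dbf07_co.H8
import Pool.Agent.Lib_MP_1dbf07_co.C1
import Pool.Agent.Lib_MP_1dbf07_co.C2

/-!
# Assembly, part 3: counting zeros along the path
-/

namespace Pool.Agent.Lib_MP_1dbf07_co

open MeasureTheory Set Filter Topology
open scoped Real Nat PowerSeries

noncomputable section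

theorem zc_eq_of_annulus {f : ℂ → ℂ} (hf : Differentiable ℂ f) {a b r₁ r₂ : ℝ} (ha : 0 < a)
    (hz : ∀ z : ℂ, a ≤ ‖z‖ → ‖z‖ ≤ b → f z ≠ 0) (h1 : a ≤ r₁) (h1' : r₁ ≤ b)
    (h2 : a ≤ r₂) (h2' : r₂ ≤ b) : zc f 0 r₁ = zc f 0 r₂ := by
  rcases le_total r₁ r₂ with h | h
  · exact zc_congr hf (by linarith) h fun z h3 h4 => hz z (by simp at h3; linarith)
      (by simp at h4; linarith)
  · exact (zc_congr hf (by linarith) h fun z h3 h4 => hz z (by simp at h3; linarith)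
      (by simp at h4; linarith)).symm

/-- One pair of zeros in a disc surrounded by an annulus without zeros. -/
theorem pair_good {μ : Measure ℝ} {a b : ℝ} (h : Supp μ a b) (ha : 0 ≤ a) (hb : 0 ≤ b)
    {q₁ r₀ : ℝ} (hq : 0 < q₁) (hqr : q₁ ≤ r₀)
    (hz : ∀ z : ℂ, q₁ ≤ ‖z‖ → ‖z‖ ≤ r₀ → JJ μ z ≠ 0) (hc : zc (JJ μ) 0 r₀ = 2) :
    ∃ ζ : ℂ, MinZero (JJ μ) ζ ∧ ∀ n k : ℕ, 3 ≤ n →
      (Real.exp 1 * (a + b) / π * r₀
          + Real.exp 1 * (a + b) / π * (0 ^ 2 + r₀ ^ 2) / ((n - 2) * r₀) - 2)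
        * (q₁ / r₀) ^ n < 2 → (n : ℝ) * ζ.arg = k * π →
      0 < (-1 : ℝ) ^ (k + 1) * kap (mo μ) n := by
  have hr : 0 < r₀ := by linarith
  obtain ⟨ζ, h1, h2, h3, h4, h5⟩ := pair_of_zc (JJ_differentiable h) JJ_conj
    (fun x => by rw [JJ_ofReal]; exact_mod_cast (Jr_pos h x).ne') hr hc
  have h6 : ‖ζ‖ < q₁ := by
    by_contra hcon
    exact hz ζ (not_lt.1 hcon) h2 h3
  have hne : ζ ≠ 0 := by
    intro h0; rw [h0] at h1; simp at h1
  have hfar : ∀ z : ℂ, JJ μ z = 0 → z ≠ ζ → z ≠ starRingEnd ℂ ζ → r₀ < ‖z‖ := by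
    intro z hz0 hz1 hz2
    by_contra hcon
    rcases h5 z hz0 (not_lt.1 hcon) with h7 | h7
    · exact hz1 h7
    · exact hz2 h7
  refine ⟨ζ, ⟨h1, h3, fun z hz0 hzi hzne => ?_⟩, fun n k hn hD hk => ?_⟩
  · have := hfar z hz0 hzne (by
      intro h7
      rw [h7] at hzi
      simp at hzi
      linarith)
    linarith
  · have hd := dominance h ha hb hn (ρ := 0) (r₀ := r₀) hr h3 h1 (by simpa using by linarith)
      h4 (fun z hz0 hz1 hz2 => ⟨by simpa using (hfar z hz0 hz1 hz2).le, by simp⟩)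
    have hs : √((0 : ℝ) ^ 2 + r₀ ^ 2) = r₀ := by
      rw [zero_pow two_ne_zero, zero_add, Real.sqrt_sq hr.le]
    refine sign_of_dom hne (by rw [hs]; exact hr) hd ?_ hk
    rw [hs]
    set D := (Real.exp 1 * (a + b) / π * r₀
          + Real.exp 1 * (a + b) / π * (0 ^ 2 + r₀ ^ 2) / ((n - 2) * r₀) - 2) with hDdef
    rcases le_or_gt 0 D with hD0 | hD0
    · refine lt_of_le_of_lt ?_ hD
      refine mul_le_mul_of_nonneg_left ?_ hD0
      exact pow_le_pow_left₀ (by positivity) (by gcongr) n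
    · have : 0 ≤ (‖ζ‖ / r₀) ^ n := by positivity
      nlinarith

theorem egf_mom_diff {X : ℝ} (hX : 0 < X) : Differentiable ℂ (egf (mom X)) := by
  obtain ⟨μ, hμ, hm, -⟩ := exists_muX hX
  rw [← hm, ← JJ_eq_egf hμ]
  exact JJ_differentiable hμ

theorem Pm_mo {τ : ℝ} (h0 : 0 ≤ τ) (h1 : τ < √2) : mo (Pm τ) = hF τ :=
  funext fun n => Pm_moment h0 h1 n

theorem Pm_JJ {τ : ℝ} (h0 : 0 ≤ τ) (h1 : τ < √2) : JJ (Pm τ) = egf (hF τ) := by
  rw [JJ_eq_egf (Pm_Supp' h0 h1), Pm_mo h0 h1]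

theorem egf_hF_diff {τ : ℝ} (h0 : 0 ≤ τ) (h1 : τ < √2) : Differentiable ℂ (egf (hF τ)) := by
  rw [← Pm_JJ h0 h1]
  exact JJ_differentiable (Pm_Supp' h0 h1)

theorem sqrt_two_gt : (27 : ℝ) / 20 < √2 := by
  rw [Real.lt_sqrt (by norm_num)]; norm_num

/-- The count at `X = 10⁻⁵`. -/
theorem count_start {r : ℝ} (h1 : 313 / 100 ≤ r) (h2 : r ≤ 318 / 100) :
    zc (egf (mom (1 / 10 ^ 5))) 0 r = 2 := by
  obtain ⟨ρ, -, -, hρ, -, hρ'⟩ := rho_exists
  have hX : (0 : ℝ) < 1 / 10 ^ 5 := by norm_num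
  obtain ⟨h3, h4⟩ := hρ (1 / 10 ^ 5) ⟨hX, le_rfl⟩
  obtain ⟨ζ, hζ⟩ := small_zero hX le_rfl h3 h4
  set p := ρ (1 / 10 ^ 5) with hp
  have e1 : ‖ζ‖ ^ 2 = ζ.re ^ 2 + ζ.im ^ 2 := by
    rw [Complex.sq_norm, Complex.normSq_apply]; ring
  refine zc_of_pair (egf_mom_diff hX) (conj_egf_mom hX) ?_ hζ.im_pos ?_ hζ.zero hζ.simple ?_
  · intro h0
    have := hζ.all_re 0 h0
    simp at this
    linarith
  · refine le_of_sq_le_sq ?_ (by linarith)
    rw [e1]
    have := hζ.normSq_le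
    nlinarith
  · intro z hz hzr
    have e2 : ‖z‖ ^ 2 = z.re ^ 2 + z.im ^ 2 := by
      rw [Complex.sq_norm, Complex.normSq_apply]; ring
    have h5 : ‖z‖ ^ 2 ≤ (318 / 100) ^ 2 := by
      have := norm_nonneg z
      nlinarith
    have h6 := hζ.all_re z hz
    have h7 : z.im ^ 2 ≤ 1 := by nlinarith
    have h8 : -1 ≤ z.im ∧ z.im ≤ 1 :=
      abs_le_of_sq_le_sq' (by rw [one_pow]; exact h7) zero_le_one
    rcases le_or_gt 0 z.im with hi | hi
    · exact Or.inl (hζ.unique z hz hi h8.2)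
    · right
      have := hζ.unique (starRingEnd ℂ z) (by rw [conj_egf_mom hX, hz, map_zero])
        (by simp; linarith) (by simp; linarith [h8.1])
      rw [← this, Complex.conj_conj]

/-- The count along the chain. -/
theorem chain_count : ∃ (N : ℕ) (x R : ℕ → ℝ), 1 ≤ N ∧ x 0 = 1 / 10 ^ 5 ∧ x N = 1 / 10 ∧
    (∀ i < N, x i ≤ x (i + 1)) ∧ (∀ i < N, 1 ≤ R i ∧ R i ≤ 33 / 10) ∧
    (∀ i < N, ∀ Y ∈ Icc (x i) (x (i + 1)),
      (∀ z : ℂ, 99 / 100 * R i ≤ ‖z‖ → ‖z‖ ≤ 101 / 100 * R i → egf (mom Y) z ≠ 0) ∧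
      zc (egf (mom Y)) 0 (101 / 100 * R i) = 2) ∧
    99 / 100 * R (N - 1) * cX (1 / 10) ≤ 5252 / 1000 ∧
    5148 / 1000 ≤ 101 / 100 * R (N - 1) * cX (1 / 10) := by
  obtain ⟨N, x, R, hN, hx0, hxN, hmono, hR, hz, hadj, hs1, hs2, he1, he2⟩ := c2_chain
  refine ⟨N, x, R, hN, hx0, hxN, hmono, hR, ?_, he1, he2⟩
  have hx : ∀ i ≤ N, 1 / 10 ^ 5 ≤ x i := by
    intro i
    induction i with
    | zero => intro _; rw [hx0]
    | succ i ih => intro hi; exact le_trans (ih (by omega)) (hmono i (by omega))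
  have hx' : ∀ j ≤ N, x (N - j) ≤ 1 / 10 := by
    intro j
    induction j with
    | zero => intro _; rw [Nat.sub_zero, hxN]
    | succ j ih =>
      intro hj
      have := hmono (N - (j + 1)) (by omega)
      rw [show N - (j + 1) + 1 = N - j by omega] at this
      exact le_trans this (ih (by omega))
  have hx'' : ∀ i ≤ N, x i ≤ 1 / 10 := by
    intro i hi
    have := hx' (N - i) (by omega)
    rwa [show N - (N - i) = i by omega] at this
  have hpos : ∀ i < N, ∀ Y ∈ Icc (x i) (x (i + 1)), 0 < Y ∧ Y ≤ 1 / 10 := by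
    intro i hi Y hY
    have := hx i hi.le
    have h2 := hx'' (i + 1) hi
    constructor
    · linarith [hY.1, show (0 : ℝ) < 1 / 10 ^ 5 by norm_num]
    · linarith [hY.2]
  -- homotopy inside one cell
  have hcell : ∀ i < N, zc (egf (mom (x i))) 0 (101 / 100 * R i) = 2 →
      ∀ Y ∈ Icc (x i) (x (i + 1)), zc (egf (mom Y)) 0 (101 / 100 * R i) = 2 := by
    intro i hi h2 Y hY
    rw [← h2]
    symm
    have hRi := hR i hi
    refine zc_homotopy (f := fun t => egf (mom t)) hY.1 (fun t ht => ?_) ?_ (by linarith [hRi.1])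
      ?_
    · exact egf_mom_diff (hpos i hi t ⟨ht.1, ht.2.trans hY.2⟩).1
    · refine egf_mom_continuousOn.mono ?_
      rintro ⟨t, z⟩ ⟨ht, -⟩
      have := hpos i hi t ⟨ht.1, ht.2.trans hY.2⟩
      exact ⟨⟨this.1.le, by linarith [this.2]⟩, mem_univ _⟩
    · intro t ht z hzs
      rw [mem_sphere_zero_iff_norm] at hzs
      exact hz i hi t ⟨ht.1, ht.2.trans hY.2⟩ z (by rw [hzs]; linarith [hRi.1]) hzs.le
  have hind : ∀ i < N, zc (egf (mom (x i))) 0 (101 / 100 * R i) = 2 := by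
    intro i
    induction i with
    | zero =>
      intro hi
      have hRi := hR 0 hi
      have hmem : x 0 ∈ Icc (x 0) (x (0 + 1)) := ⟨le_rfl, hmono 0 hi⟩
      have h3 := zc_eq_of_annulus (egf_mom_diff (hpos 0 hi _ hmem).1)
        (a := 99 / 100 * R 0) (b := 101 / 100 * R 0)
        (r₁ := 101 / 100 * R 0) (r₂ := max (99 / 100 * R 0) (313 / 100)) (by linarith [hRi.1])
        (fun z hz1 hz2 => hz 0 hi _ hmem z hz1 hz2) (by linarith [hRi.1]) le_rfl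
        (le_max_left _ _) (max_le (by linarith [hRi.1]) hs2)
      rw [h3, hx0]
      exact count_start (le_max_right _ _) (max_le hs1 (by norm_num))
    | succ i ih =>
      intro hi
      have hRi := hR i (by omega)
      have hRi' := hR (i + 1) hi
      have h2 := hcell i (by omega) (ih (by omega)) (x (i + 1)) ⟨hmono i (by omega), le_rfl⟩
      have hmem : x (i + 1) ∈ Icc (x i) (x (i + 1)) := ⟨hmono i (by omega), le_rfl⟩
      have hmem' : x (i + 1) ∈ Icc (x (i + 1)) (x (i + 1 + 1)) := ⟨le_rfl, hmono (i + 1) hi⟩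
      have hd := egf_mom_diff (hpos _ (by omega) _ hmem).1
      have hm1 := hadj i hi
      set r := max (99 / 100 * R i) (99 / 100 * R (i + 1)) with hr
      have h3 := zc_eq_of_annulus hd
        (a := 99 / 100 * R i) (b := 101 / 100 * R i) (r₁ := 101 / 100 * R i) (r₂ := r)
        (by linarith [hRi.1])
        (fun z hz1 hz2 => hz i (by omega) _ hmem z hz1 hz2) (by linarith [hRi.1]) le_rfl
        (le_max_left _ _) (max_le (by linarith [hRi.1]) hm1.2)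
      have h4 := zc_eq_of_annulus hd
        (a := 99 / 100 * R (i + 1)) (b := 101 / 100 * R (i + 1)) (r₁ := 101 / 100 * R (i + 1))
        (r₂ := r) (by linarith [hRi'.1])
        (fun z hz1 hz2 => hz (i + 1) hi _ hmem' z hz1 hz2) (by linarith [hRi'.1]) le_rfl
        (le_max_right _ _) (max_le hm1.1 (by linarith [hRi'.1]))
      rw [h4, ← h3, h2]
  intro i hi Y hY
  exact ⟨fun z hz1 hz2 => hz i hi Y hY z hz1 hz2, hcell i hi (hind i hi) Y hY⟩

end

end Pool.Agent.Lib_MP_1dbf07_co
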