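import Pool.Agent.Lib_MP_1dbf07_co.E3

/-!
# Assembly, part 4: the middle regimes
-/

namespace Pool.Agent.Lib_MP_1dbf07_co

open MeasureTheory Set Filter Topology
open scoped Real Nat PowerSeries

noncomputable section

/-- The numerical inequality of the annular regimes. -/
theorem numC {n : ℕ} (hn : 120 ≤ n) {s r₀ q₁ : ℝ} (hs : 0 ≤ s) (hr : 0 < r₀) (hq : 0 ≤ q₁)
    (h1 : s * r₀ ≤ 20222 / 1000) (h2 : q₁ ≤ 99 / 101 * r₀) :
    (Real.exp 1 * s / π * r₀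
      + Real.exp 1 * s / π * (0 ^ 2 + r₀ ^ 2) / ((n - 2) * r₀) - 2) * (q₁ / r₀) ^ n < 2 := by
  have hn' : (120 : ℝ) ≤ n := by exact_mod_cast hn
  have hC := exp_div_pi_le hs
  set C := Real.exp 1 * s / π with hCd
  have hC0 : 0 ≤ C := by positivity
  have h3 : C * r₀ ≤ 17498 / 1000 := by
    have : C * r₀ ≤ 86526 / 100000 * s * r₀ := mul_le_mul_of_nonneg_right hC hr.le
    linarith
  have hn2 : (118 : ℝ) ≤ n - 2 := by linarith
  have h4 : C * (0 ^ 2 + r₀ ^ 2) / ((n - 2) * r₀) ≤ C * r₀ / 118 := by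
    have e : C * (0 ^ 2 + r₀ ^ 2) / ((n - 2) * r₀) = C * r₀ / (n - 2) := by
      field_simp
      ring
    rw [e]
    exact div_le_div_of_nonneg_left (by positivity) (by norm_num) hn2
  have h5 : C * r₀ + C * (0 ^ 2 + r₀ ^ 2) / ((n - 2) * r₀) - 2 ≤ 156 / 10 + 5 / 100 := by
    linarith
  have h6 : q₁ / r₀ ≤ 99 / 101 := by
    rw [div_le_iff₀ hr]; exact h2
  have h7 : (q₁ / r₀) ^ n ≤ (99 / 101) ^ 120 := by
    calc (q₁ / r₀) ^ n ≤ (99 / 101 : ℝ) ^ n := pow_le_pow_left₀ (by positivity) h6 n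
      _ ≤ (99 / 101) ^ 120 := pow_le_pow_of_le_one (by norm_num) (by norm_num) hn
  have h8 : ((99 : ℝ) / 101) ^ 120 ≤ 1 / 10 := by norm_num
  have h9 : 0 ≤ (q₁ / r₀) ^ n := by positivity
  nlinarith

/-- Middle regime `10⁻⁵ ≤ X ≤ 1/10`. -/
theorem mid_good {n : ℕ} (hn : 120 ≤ n) {X : ℝ} (h1 : 1 / 10 ^ 5 ≤ X) (h2 : X ≤ 1 / 10) :
    ∃ ζ : ℂ, Good n (tauX X) ζ := by
  obtain ⟨N, x, R, hN, hx0, hxN, hmono, hR, hz, -, -⟩ := chain_count
  have hX : 0 < X := by linarith [show (0 : ℝ) < 1 / 10 ^ 5 by norm_num]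
  -- find the cell
  have hcell : ∃ i < N, X ∈ Icc (x i) (x (i + 1)) := by
    by_contra hcon
    push Not at hcon
    have : ∀ i ≤ N, x i ≤ X := by
      intro i
      induction i with
      | zero => intro _; rw [hx0]; exact h1
      | succ i ih =>
        intro hi
        by_contra hc
        exact hcon i (by omega) ⟨ih (by omega), (not_le.1 hc).le⟩
    have h3 := this (N - 1) (by omega)
    exact hcon (N - 1) (by omega) ⟨h3, by rw [show N - 1 + 1 = N by omega, hxN]; exact h2⟩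
  obtain ⟨i, hi, hXi⟩ := hcell
  obtain ⟨hz1, hz2⟩ := hz i hi X hXi
  have hRi := hR i hi
  obtain ⟨μ, hμ, hm, -⟩ := exists_muX hX
  have hJ : JJ μ = egf (mom X) := by rw [JJ_eq_egf hμ, hm]
  have hc0 := cX_pos hX
  have hc1 : cX X ≤ 2967 / 1000 := by
    rw [cX, Real.sqrt_le_left (by norm_num)]
    norm_num
    linarith
  have hB0 : 0 ≤ BX X := by rw [BX]; linarith
  have hB1 : BX X ≤ 6067 / 1000 := by rw [BX]; linarith
  obtain ⟨ζ, h3, h4⟩ := pair_good hμ le_rfl hB0 (q₁ := 99 / 100 * R i) (r₀ := 101 / 100 * R i)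
    (by linarith [hRi.1]) (by linarith [hRi.1]) (by rw [hJ]; exact hz1) (by rw [hJ]; exact hz2)
  rw [hJ] at h3
  rw [hm] at h4
  refine ⟨_, minZero_scale hX h3, fun k hk => ?_⟩
  rw [Complex.arg_real_mul _ hc0] at hk
  refine kap_sign_scale hX (by omega) (h4 n k (by omega) ?_ hk)
  refine numC hn (by linarith) (by linarith [hRi.1]) (by linarith [hRi.1]) ?_ ?_
  · have h5 : (0 + BX X) * (101 / 100 * R i) ≤ 6067 / 1000 * (101 / 100 * (33 / 10)) := by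
      have := hRi.2
      have := hRi.1
      gcongr
      linarith
    linarith [show (6067 : ℝ) / 1000 * (101 / 100 * (33 / 10)) ≤ 20222 / 1000 by norm_num]
  · linarith [hRi.1]

theorem tauX_inv {τ : ℝ} (h0 : 0 < τ) : tauX (2 / τ ^ 2 - 1) = τ := by
  rw [tauX]
  have : 2 / (1 + (2 / τ ^ 2 - 1)) = τ ^ 2 := by
    field_simp
    ring
  rw [this, Real.sqrt_sq h0.le]

/-- The count for `τ ≤ 27/20`. -/
theorem c1_count {τ : ℝ} (h0 : 0 ≤ τ) (h1 : τ ≤ 27 / 20) :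
    zc (egf (hF τ)) 0 (5252 / 1000) = 2 := by
  obtain ⟨N, x, R, hN, hx0, hxN, hmono, hR, hz, he1, he2⟩ := chain_count
  have hX : (0 : ℝ) < 1 / 10 := by norm_num
  have hi : N - 1 < N := by omega
  have hmem : (1 / 10 : ℝ) ∈ Icc (x (N - 1)) (x (N - 1 + 1)) := by
    rw [show N - 1 + 1 = N by omega, hxN]
    refine ⟨?_, le_rfl⟩
    have := hmono (N - 1) hi
    rwa [show N - 1 + 1 = N by omega, hxN] at this
  obtain ⟨hz1, hz2⟩ := hz (N - 1) hi (1 / 10) hmem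
  have hRi := hR (N - 1) hi
  set c := cX (1 / 10) with hc
  have hc0 : 0 < c := cX_pos hX
  set τ₁ := tauX (1 / 10) with hτ₁
  have hτ0 : 0 ≤ τ₁ := tauX_nonneg _
  have hτ1 : τ₁ ≤ 27 / 20 := by
    rw [hτ₁, tauX, Real.sqrt_le_left (by norm_num)]
    norm_num
  have hτ2 : τ₁ < √2 := lt_of_le_of_lt hτ1 sqrt_two_gt
  have hd : ∀ t : ℝ, 0 ≤ t → t ≤ 27 / 20 → Differentiable ℂ (egf (hF t)) := fun t ht ht' =>
    egf_hF_diff ht (lt_of_le_of_lt ht' sqrt_two_gt)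
  have hzero : egf (hF τ₁) 0 ≠ 0 := by
    rw [← Pm_JJ hτ0 hτ2, JJ_zero (Pm_Supp' hτ0 hτ2)]
    exact one_ne_zero
  have e1 : zc (egf (hF τ₁)) 0 (c * (101 / 100 * R (N - 1))) = 2 := by
    rw [← zc_scale (hd _ hτ0 hτ1) ((3 + 1 / 10 : ℝ) : ℂ) hc0 (by linarith [hRi.1]) hzero, ← hz2]
    congr 1
    funext z
    rw [egf_mom hX]
  have hann : ∀ z : ℂ, c * (99 / 100 * R (N - 1)) ≤ ‖z‖ → ‖z‖ ≤ c * (101 / 100 * R (N - 1)) →
      egf (hF τ₁) z ≠ 0 := by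
    intro z h3 h4 h5
    have e : ((c : ℝ) : ℂ) * ((c⁻¹ : ℝ) * z) = z := by
      rw [← mul_assoc, ← Complex.ofReal_mul, mul_inv_cancel₀ hc0.ne']
      simp
    have hn : ‖((c⁻¹ : ℝ) : ℂ) * z‖ = c⁻¹ * ‖z‖ := by
      rw [norm_mul]
      simp [abs_of_pos hc0]
    refine hz1 (((c⁻¹ : ℝ) : ℂ) * z) ?_ ?_ ((egf_mom_zero_iff hX _).2 (by rw [e]; exact h5))
    · rw [hn, inv_mul_eq_div, le_div_iff₀ hc0]; linarith
    · rw [hn, inv_mul_eq_div, div_le_iff₀ hc0]; linarith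
  have hann2 := c1_annulus τ₁ ⟨hτ0, hτ1⟩
  set r := max (c * (99 / 100 * R (N - 1))) (5148 / 1000) with hr
  have e2 := zc_eq_of_annulus (hd _ hτ0 hτ1) (a := c * (99 / 100 * R (N - 1)))
    (b := c * (101 / 100 * R (N - 1))) (r₁ := c * (101 / 100 * R (N - 1))) (r₂ := r)
    (mul_pos hc0 (by linarith [hRi.1])) hann
    (mul_le_mul_of_nonneg_left (by linarith [hRi.1]) hc0.le) le_rfl (le_max_left _ _)
    (max_le (mul_le_mul_of_nonneg_left (by linarith [hRi.1]) hc0.le) (by linarith))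
  have e3 := zc_eq_of_annulus (hd _ hτ0 hτ1) (a := 5148 / 1000)
    (b := 5252 / 1000) (r₁ := 5252 / 1000) (r₂ := r) (by norm_num) hann2 (by norm_num) le_rfl
    (le_max_right _ _) (max_le (by linarith) (by norm_num))
  have e4 : zc (egf (hF τ₁)) 0 (5252 / 1000) = 2 := by rw [e3, ← e2, e1]
  -- homotopy
  have hom : ∀ u v : ℝ, 0 ≤ u → u ≤ v → v ≤ 27 / 20 →
      zc (egf (hF u)) 0 (5252 / 1000) = zc (egf (hF v)) 0 (5252 / 1000) := by
    intro u v hu huv hv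
    refine zc_homotopy (f := fun t => egf (hF t)) huv (fun t ht => ?_) ?_ (by norm_num) ?_
    · exact hd t (hu.trans ht.1) (ht.2.trans hv)
    · refine egf_hF_continuousOn.mono ?_
      rintro ⟨t, z⟩ ⟨ht, -⟩
      exact ⟨⟨hu.trans ht.1, lt_of_le_of_lt (ht.2.trans hv) sqrt_two_gt⟩, mem_univ _⟩
    · intro t ht z hzs
      rw [mem_sphere_zero_iff_norm] at hzs
      exact c1_annulus t ⟨hu.trans ht.1, ht.2.trans hv⟩ z (by rw [hzs]; norm_num) hzs.le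
  rcases le_total τ τ₁ with h | h
  · rw [hom τ τ₁ h0 h hτ1, e4]
  · rw [← hom τ₁ τ hτ0 h h1, e4]

/-- The regime `τ ≤ 27/20`. -/
theorem c1_good {n : ℕ} (hn : 120 ≤ n) {τ : ℝ} (h0 : 0 ≤ τ) (h1 : τ ≤ 27 / 20) :
    ∃ ζ : ℂ, Good n τ ζ := by
  have h2 : τ < √2 := lt_of_le_of_lt h1 sqrt_two_gt
  have hS := Pm_Supp h0 h1
  have hJ := Pm_JJ h0 h2
  obtain ⟨ζ, h3, h4⟩ := pair_good hS (by norm_num) zero_le_one (q₁ := 5148 / 1000)
    (r₀ := 5252 / 1000) (by norm_num) (by norm_num) (by rw [hJ]; exact c1_annulus τ ⟨h0, h1⟩)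
    (by rw [hJ]; exact c1_count h0 h1)
  rw [hJ] at h3
  rw [Pm_mo h0 h2] at h4
  refine ⟨ζ, h3, fun k hk => h4 n k (by omega) ?_ hk⟩
  exact numC hn (by norm_num) (by norm_num) (by norm_num) (by norm_num) (by norm_num)

end

end Pool.Agent.Lib_MP_1dbf07_co
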