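import Pool.Agent.Lib_MP_1dbf07_co.E4

/-!
# Assembly, part 5: the path of the first zero and the sign pattern for `n ≥ 120`
-/

namespace Pool.Agent.Lib_MP_1dbf07_co

open MeasureTheory Set Filter Topology
open scoped Real Nat PowerSeries

noncomputable section

/-- Selection of the points along the path. -/
theorem select {θ : ℝ → ℝ} {T : ℝ} (hT : 0 < T) (hc : ContinuousOn θ (Icc 0 T))
    {S : ℕ → Set ℝ} (hS : ∀ k, IsOpen (S k)) {n k₀ : ℕ} (hn : 0 < n) (h0 : θ 0 = π / 2)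
    (hθT : (n : ℝ) * θ T < (k₀ + 1) * π)
    (hsign : ∀ k : ℕ, ∀ τ ∈ Icc 0 T, (n : ℝ) * θ τ = k * π → τ ∈ S k) :
    ∃ t : ℕ → ℝ, (∀ k, k₀ < k → 2 * k ≤ n → 0 < t k ∧ t k < T ∧ t k ∈ S k) ∧
      ∀ k, k₀ < k → 2 * (k + 1) ≤ n → t (k + 1) < t k := by
  have hpi := Real.pi_pos
  have hn0 : (0 : ℝ) < n := by exact_mod_cast hn
  -- the last time the angle is at least `k π / n`
  have hu : ∀ k : ℕ, ∃ u : ℝ, k₀ < k → 2 * k ≤ n →
      u ∈ Icc 0 T ∧ (n : ℝ) * θ u = k * π ∧ u < T ∧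
        ∀ v ∈ Icc 0 T, (k : ℝ) * π ≤ n * θ v → v ≤ u := by
    intro k
    by_cases hk : k₀ < k ∧ 2 * k ≤ n
    swap
    · exact ⟨0, fun h1 h2 => absurd ⟨h1, h2⟩ hk⟩
    obtain ⟨hk1, hk2⟩ := hk
    set A := {v ∈ Icc 0 T | (k : ℝ) * π ≤ n * θ v} with hA
    have hcl : IsClosed A := by
      have : A = Icc 0 T ∩ (fun v => (n : ℝ) * θ v) ⁻¹' (Ici ((k : ℝ) * π)) := rfl
      rw [this]
      exact (continuousOn_const.mul hc).preimage_isClosed_of_isClosed isClosed_Icc isClosed_Ici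
    have hcomp : IsCompact A := isCompact_Icc.of_isClosed_subset hcl fun v hv => hv.1
    have hk2' : 2 * (k : ℝ) ≤ n := by exact_mod_cast hk2
    have hne : A.Nonempty := by
      refine ⟨0, ⟨le_rfl, hT.le⟩, ?_⟩
      rw [h0]
      nlinarith
    obtain ⟨u, huA, hmax⟩ := hcomp.exists_isGreatest hne
    have hkk : ((k₀ : ℝ) + 1) ≤ k := by exact_mod_cast hk1
    have hθT' : (n : ℝ) * θ T < k * π := lt_of_lt_of_le hθT (by nlinarith)
    have huT : u < T := by
      rcases lt_or_eq_of_le huA.1.2 with h | h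
      · exact h
      · exfalso
        have := huA.2
        rw [h] at this
        linarith
    refine ⟨u, fun _ _ => ⟨huA.1, ?_, huT, fun v hv hv2 => hmax ⟨hv, hv2⟩⟩⟩
    by_contra hne2
    have hgt : (k : ℝ) * π < n * θ u := lt_of_le_of_ne huA.2 (Ne.symm hne2)
    have hivt := intermediate_value_Icc' (f := fun v => (n : ℝ) * θ v) huT.le
      ((continuousOn_const.mul hc).mono (Icc_subset_Icc_left huA.1.1))
    obtain ⟨v, hv, hv2⟩ := hivt ⟨hθT'.le, hgt.le⟩
    have hvA : v ∈ A := ⟨⟨huA.1.1.trans hv.1, hv.2⟩, hv2.ge⟩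
    have : v = u := le_antisymm (hmax hvA) hv.1
    rw [this] at hv2
    exact hne2 hv2
  choose u hu using hu
  have hlt : ∀ k, k₀ < k → 2 * (k + 1) ≤ n → u (k + 1) < u k := by
    intro k h1 h2
    obtain ⟨a1, a2, a3, a4⟩ := hu k h1 (by omega)
    obtain ⟨b1, b2, b3, b4⟩ := hu (k + 1) (by omega) h2
    refine lt_of_le_of_ne (a4 _ b1 ?_) ?_
    · rw [b2]; push_cast; nlinarith
    · intro h
      rw [h, a2] at b2
      push_cast at b2
      nlinarith
  -- the last index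
  set K := n / 2 with hK
  by_cases hK0 : k₀ < K
  swap
  · exact ⟨u, fun k h1 h2 => absurd h1 (by omega), fun k h1 h2 => absurd h1 (by omega)⟩
  obtain ⟨c1, c2, c3, c4⟩ := hu K hK0 (by omega)
  set M := if k₀ < K - 1 then u (K - 1) else T with hM
  have hMlt : u K < M := by
    rw [hM]
    split_ifs with h
    · have := hlt (K - 1) h (by omega)
      rwa [show K - 1 + 1 = K by omega] at this
    · exact c3
  have hMT : M ≤ T := by
    rw [hM]
    split_ifs with h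
    · exact (hu (K - 1) h (by omega)).1.2
    · exact le_rfl
  have hev : ∀ᶠ v in 𝓝[>] (u K), v ∈ S K ∧ v < M := by
    refine Filter.Eventually.and ?_ ?_
    · exact (mem_nhdsWithin_of_mem_nhds ((hS K).mem_nhds (hsign K _ c1 c2)))
    · exact mem_nhdsWithin_of_mem_nhds (Iio_mem_nhds hMlt)
  obtain ⟨v, ⟨hv1, hv2⟩, hv3⟩ := (hev.and self_mem_nhdsWithin).exists
  have hpos : ∀ j : ℕ, ∀ k, k₀ < k → k + j + 1 = K → 0 < u k := by
    intro j
    induction j with
    | zero =>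
      intro k h1 h2
      have := hlt k h1 (by omega)
      rw [show k + 1 = K by omega] at this
      exact lt_of_le_of_lt c1.1 this
    | succ j ih =>
      intro k h1 h2
      have := hlt k h1 (by omega)
      exact lt_trans (ih (k + 1) (by omega) (by omega)) this
  refine ⟨fun k => if k = K then v else u k, fun k h1 h2 => ?_, fun k h1 h2 => ?_⟩
  · by_cases hk : k = K
    · subst hk
      simp only [if_true]
      exact ⟨lt_of_le_of_lt c1.1 hv3, lt_of_lt_of_le hv2 hMT, hv1⟩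
    · simp only [if_neg hk]
      obtain ⟨a1, a2, a3, a4⟩ := hu k h1 h2
      exact ⟨hpos (K - 1 - k) k h1 (by omega), a3, hsign k _ a1 a2⟩
  · have hk : k ≠ K := by omega
    simp only [if_neg hk]
    by_cases hk' : k + 1 = K
    · simp only [if_pos hk']
      have : M = u k := by
        rw [hM, if_pos (by omega), show K - 1 = k by omega]
      rw [← this]
      exact hv2
    · simp only [if_neg hk']
      exact hlt k h1 h2

theorem tauX_anti {X Y : ℝ} (hX : 0 < X) (h : X ≤ Y) : tauX Y ≤ tauX X := by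
  rw [tauX, tauX]
  apply Real.sqrt_le_sqrt
  gcongr

theorem tauX_pos {X : ℝ} (hX : 0 < X) : 0 < tauX X := by
  rw [tauX]; exact Real.sqrt_pos.2 (by positivity)

theorem tauX_sq {X : ℝ} (hX : 0 < X) : tauX X ^ 2 = 2 / (1 + X) := by
  rw [tauX, Real.sq_sqrt (by positivity)]

/-- `F_0` is even. -/
theorem egf_hF_zero_neg (z : ℂ) : egf (hF 0) (-z) = egf (hF 0) z := by
  unfold egf
  congr 1
  funext n
  rcases Nat.even_or_odd n with h | h
  · rw [h.neg_pow]
  · have : hF 0 n = 0 := by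
      unfold hF
      refine Finset.sum_eq_zero fun l hl => ?_
      have hl' := Finset.mem_range.1 hl
      obtain ⟨m, hm⟩ := h
      have : n - 2 * l ≠ 0 := by omega
      rw [neg_zero, zero_pow this]
      simp
    rw [this]
    simp

theorem arg_zero {ζ : ℂ} (h : MinZero (egf (hF 0)) ζ) : ζ.arg = π / 2 := by
  have h2 : (0 : ℝ) < √2 := Real.sqrt_pos.2 (by norm_num)
  have hconj : ∀ z : ℂ, egf (hF 0) (starRingEnd ℂ z) = starRingEnd ℂ (egf (hF 0) z) := by
    intro z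
    rw [← Pm_JJ le_rfl h2, JJ_conj]
  have hz : egf (hF 0) (-starRingEnd ℂ ζ) = 0 := by
    rw [egf_hF_zero_neg, hconj, h.zero, map_zero]
  have he : -starRingEnd ℂ ζ = ζ := by
    by_contra hne
    have := h.min _ hz (by simpa using h.im_pos) hne
    simp at this
  have hre : ζ.re = 0 := by
    have := congrArg Complex.re he
    simp at this
    linarith
  rw [Complex.arg_eq_pi_div_two_iff]
  exact ⟨hre, h.im_pos⟩

/-- The sign pattern for `n ≥ 120`. -/
theorem goodSigns_large {n : ℕ} (hn : 120 ≤ n) : GoodSigns n := by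
  obtain ⟨ρ, hρc, hρa, hρ, hρt, hρ5⟩ := rho_exists
  obtain ⟨x, hx1, hx2⟩ := exists_saddles hρc hρa hρ hρt hρ5 hn
  -- the last saddle
  obtain ⟨k₀, hk4, hk5, hk6⟩ : ∃ k₀ : ℕ, 4 ≤ k₀ ∧ 5 * k₀ ^ 2 ≤ n ∧ n < 5 * (k₀ + 1) ^ 2 := by
    refine ⟨Nat.sqrt (n / 5), ?_, ?_, ?_⟩
    · rw [Nat.le_sqrt]; omega
    · have := Nat.sqrt_le' (n / 5)
      omega
    · have := Nat.lt_succ_sqrt' (n / 5)
      simp only [Nat.succ_eq_add_one] at this
      omega
  set X₀ := x k₀ with hX₀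
  obtain ⟨hXmem, hsad⟩ := hx1 k₀ (by omega) hk5
  have hX0 : 0 < X₀ := hXmem.1
  have hX0' : X₀ ≤ 1 / 10 ^ 5 := hXmem.2
  obtain ⟨hρ1, hρ2⟩ := hρ X₀ hXmem
  obtain ⟨hs1, hs2⟩ := saddle_bounds hX0 hX0' (by omega) hρ1 hρ2 hsad
  -- the bound 3.78 (ρ² + 1) ≤ n
  have hnρ : 378 / 100 * (ρ X₀ ^ 2 + 1) ≤ n := by
    have hB := BX_bounds hX0 hX0'
    have hk0 : (4 : ℝ) ≤ k₀ := by exact_mod_cast hk4
    have h5 : 5 * (k₀ : ℝ) ^ 2 ≤ n := by exact_mod_cast hk5
    have h6 : (n : ℝ) + 1 ≤ 5 * ((k₀ : ℝ) + 1) ^ 2 := by exact_mod_cast hk6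
    have hn' : (120 : ℝ) ≤ n := by exact_mod_cast hn
    have h7 : 5828 / 1000 * ρ X₀ ≤ n / k₀ + 183 / 100 := by nlinarith
    have h8 : 5828 / 1000 * ρ X₀ * k₀ ≤ n + 183 / 100 * k₀ := by
      have e : ((n : ℝ) / k₀ + 183 / 100) * k₀ = n + 183 / 100 * k₀ := by field_simp
      rw [← e]
      exact mul_le_mul_of_nonneg_right h7 (by linarith)
    have h9 : (5828 / 1000 * ρ X₀ * k₀) ^ 2 ≤ (n + 183 / 100 * k₀) ^ 2 :=
      pow_le_pow_left₀ (by positivity) h8 2
    have h10 : (n : ℝ) * n ≤ n * (5 * ((k₀ : ℝ) + 1) ^ 2 - 1) :=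
      mul_le_mul_of_nonneg_left (by linarith) (by linarith)
    -- 3.78 ((n + 1.83 k)^2 + 33.965584 k^2) ≤ 33.965584 n k^2
    have h11 : 378 / 100 * ((n + 183 / 100 * k₀) ^ 2 + (5828 / 1000) ^ 2 * (k₀ : ℝ) ^ 2)
        ≤ (5828 / 1000) ^ 2 * n * (k₀ : ℝ) ^ 2 := by
      have h12 : 0 ≤ (n : ℝ) * (1506 / 100 * (k₀ : ℝ) ^ 2 - 51635 / 1000 * k₀ - 1512 / 100)
          - 14106 / 100 * (k₀ : ℝ) ^ 2 := by
        rcases Nat.lt_or_ge k₀ 5 with h | h
        · have hk : k₀ = 4 := by omega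
          have hk' : (k₀ : ℝ) = 4 := by exact_mod_cast hk
          rw [hk']
          nlinarith
        · have hk' : (5 : ℝ) ≤ k₀ := by exact_mod_cast h
          have h13 : 10 * (1506 / 100) ≤ 1506 / 100 * (k₀ : ℝ) ^ 2 - 51635 / 1000 * k₀ - 1512 / 100
              ∨ 10 ≤ 1506 / 100 * (k₀ : ℝ) ^ 2 - 51635 / 1000 * k₀ - 1512 / 100 := by
            right; nlinarith
          have h14 : 29 ≤ 1506 / 100 * (k₀ : ℝ) ^ 2 - 51635 / 1000 * k₀ - 1512 / 100 := by
            nlinarith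
          nlinarith [mul_le_mul_of_nonneg_right h5 (by linarith : (0 : ℝ) ≤ 29)]
      nlinarith
    have hk2 : 0 < (k₀ : ℝ) ^ 2 := by positivity
    have h15 : 378 / 100 * (ρ X₀ ^ 2 + 1) * ((5828 / 1000) ^ 2 * (k₀ : ℝ) ^ 2)
        ≤ n * ((5828 / 1000) ^ 2 * (k₀ : ℝ) ^ 2) := by
      nlinarith
    exact le_of_mul_le_mul_right h15 (by positivity)
  -- the path
  set T := tauX X₀ with hT
  have hT0 : 0 < T := tauX_pos hX0
  have hT2 : T < √2 := tauX_lt hX0
  have hgood : ∀ τ ∈ Icc 0 T, ∃ ζ : ℂ, Good n τ ζ := by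
    intro τ hτ
    rcases le_or_gt τ (27 / 20) with h | h
    · exact c1_good hn hτ.1 h
    · have hτ0 : 0 < τ := by linarith
      set X := 2 / τ ^ 2 - 1 with hX
      have hτX : tauX X = τ := tauX_inv hτ0
      have hsq : τ ^ 2 ≤ 2 / (1 + X₀) := by
        rw [← tauX_sq hX0]
        exact pow_le_pow_left₀ hτ0.le hτ.2 2
      have hXX : X₀ ≤ X := by
        rw [hX, le_sub_iff_add_le, le_div_iff₀ (by positivity)]
        rw [le_div_iff₀ (by positivity)] at hsq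
        linarith
      have hX1 : X ≤ 1 / 10 := by
        rw [hX, sub_le_iff_le_add, div_le_iff₀ (by positivity)]
        nlinarith
      rw [← hτX]
      rcases le_or_gt (1 / 10 ^ 5) X with h1 | h1
      · exact mid_good hn h1 hX1
      · have hXm : X ∈ Ioc (0 : ℝ) (1 / 10 ^ 5) := ⟨lt_of_lt_of_le hX0 hXX, h1.le⟩
        obtain ⟨h2, h3⟩ := hρ X hXm
        have h4 : ρ X ≤ ρ X₀ := hρa hXmem hXm hXX
        obtain ⟨ζ, -, hζ⟩ := small_good hn hXm.1 hXm.2 h2 h3 (by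
          refine le_trans ?_ hnρ
          have : ρ X ^ 2 ≤ ρ X₀ ^ 2 := pow_le_pow_left₀ (by linarith) h4 2
          linarith)
        exact ⟨_, hζ⟩
  choose! Z hZ using hgood
  have hZc : ContinuousOn Z (Icc 0 T) := by
    refine minZero_continuousOn (f := fun t => egf (hF t)) (fun t ht => ?_) ?_ ?_
      fun t ht => (hZ t ht).1
    · exact egf_hF_diff ht.1 (lt_of_le_of_lt ht.2 hT2)
    · refine egf_hF_continuousOn.mono ?_
      rintro ⟨t, z⟩ ⟨ht, -⟩
      exact ⟨⟨ht.1, lt_of_le_of_lt ht.2 hT2⟩, mem_univ _⟩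
    · intro t ht y
      have ht2 := lt_of_le_of_lt ht.2 hT2
      show egf (hF t) y ≠ 0
      rw [← Pm_JJ ht.1 ht2, JJ_ofReal]
      exact_mod_cast (Jr_pos (Pm_Supp' ht.1 ht2) y).ne'
  have hθc : ContinuousOn (fun τ => (Z τ).arg) (Icc 0 T) := by
    intro τ hτ
    have h1 : (Z τ) ∈ Complex.slitPlane := Or.inr (hZ τ hτ).1.im_pos.ne'
    exact (Complex.continuousAt_arg h1).comp_continuousWithinAt (hZc τ hτ)
  have hθ0 : (Z 0).arg = π / 2 := arg_zero (hZ 0 ⟨le_rfl, hT0.le⟩).1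
  have hθT : (n : ℝ) * (Z T).arg < (k₀ + 1) * π := by
    obtain ⟨ζ, hζ, hG⟩ := small_good hn hX0 hX0' hρ1 hρ2 hnρ
    have he : Z T = (cX X₀ : ℝ) * ζ := (hZ T ⟨hT0.le, le_rfl⟩).1.unique hG.1
    rw [he, Complex.arg_real_mul _ (cX_pos hX0)]
    exact hζ.angle hX0 hX0' hρ1 (by omega) hs2 hk5
  obtain ⟨t, ht1, ht2⟩ := select hT0 hθc
    (S := fun k => {τ | 0 < (-1 : ℝ) ^ (k + 1) * kap (hF τ) n})
    (fun k => isOpen_lt continuous_const (continuous_const.mul (kap_hF_continuous n)))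
    (k₀ := k₀) (n := n) (by omega) hθ0 hθT (fun k τ hτ hk => (hZ τ hτ).2 k hk)
  -- the points
  refine ⟨fun k => if k ≤ k₀ then x k else 2 / t k ^ 2 - 1, fun k h1 h2 => ?_, fun k h1 h2 => ?_⟩
  · by_cases hk : k ≤ k₀
    · simp only [if_pos hk]
      have h5 : 5 * k ^ 2 ≤ n := le_trans (by gcongr) hk5
      obtain ⟨a1, a2⟩ := hx1 k h1 h5
      obtain ⟨b1, b2⟩ := hρ (x k) a1
      exact ⟨a1.1, sign_saddle a1.1 a1.2 hn h1 h5 (by linarith) b2 a2⟩
    · simp only [if_neg hk]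
      obtain ⟨a1, a2, a3⟩ := ht1 k (by omega) h2
      have hsq : t k ^ 2 < 2 := by
        have : t k < √2 := a2.trans hT2
        calc t k ^ 2 < √2 ^ 2 := by gcongr
          _ = 2 := Real.sq_sqrt (by norm_num)
      have hXp : 0 < 2 / t k ^ 2 - 1 := by
        rw [sub_pos, one_lt_div (by positivity)]
        exact hsq
      refine ⟨hXp, ?_⟩
      rw [kap_mom hXp (by omega), tauX_inv a1]
      have hc : 0 < cX (2 / t k ^ 2 - 1) ^ n := pow_pos (cX_pos hXp) n
      have e : (-1 : ℝ) ^ (k + 1) * (cX (2 / t k ^ 2 - 1) ^ n * kap (hF (t k)) n)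
        = cX (2 / t k ^ 2 - 1) ^ n * ((-1 : ℝ) ^ (k + 1) * kap (hF (t k)) n) := by ring
      rw [e]
      exact mul_pos hc a3
  · by_cases hk : k + 1 ≤ k₀
    · have hk' : k ≤ k₀ := by omega
      simp only [if_pos hk, if_pos hk']
      exact hx2 k h1 (le_trans (by gcongr) hk5)
    · by_cases hk' : k ≤ k₀
      · have hkk : k = k₀ := by omega
        subst hkk
        simp only [if_neg hk, if_pos hk']
        obtain ⟨a1, a2, a3⟩ := ht1 (k + 1) (by omega) h2
        have hsq : t (k + 1) ^ 2 < 2 / (1 + X₀) := by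
          rw [← tauX_sq hX0]
          exact pow_lt_pow_left₀ a2 a1.le two_ne_zero
        rw [lt_sub_iff_add_lt, lt_div_iff₀ (by positivity)]
        rw [lt_div_iff₀ (by positivity)] at hsq
        linarith
      · simp only [if_neg hk, if_neg hk']
        obtain ⟨a1, a2, a3⟩ := ht1 k (by omega) (by omega)
        obtain ⟨b1, b2, b3⟩ := ht1 (k + 1) (by omega) h2
        have h3 := ht2 k (by omega) h2
        have : t (k + 1) ^ 2 < t k ^ 2 := pow_lt_pow_left₀ h3 b1.le two_ne_zero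
        have : 2 / t k ^ 2 < 2 / t (k + 1) ^ 2 := by
          apply div_lt_div_of_pos_left (by norm_num) (by positivity) this
        linarith

end

end Pool.Agent.Lib_MP_1dbf07_co
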