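import Pool.Agent.Lib_MP_1dbf07_co.F1b

/-! # Kernel checks, part 1 -/

namespace Pool.Agent.Lib_MP_1dbf07_co.F1

theorem pt0 : ptOK 59 187
    147237255398198694131941458395243209652290324739634913176800516774384981 = true := by
  decide +kernel

theorem pt1 : ptOK 3 85
    147237255398198694131941458395243209652290324739634913177175816743332522 = true := by
  decide +kernel

theorem pt2 : ptOK 5 55
    147237255398198694131941458395243209659213387217681350014841178457199957 = true := by
  decide +kernel

theorem pt3 : ptOK 19 42
    147237255398198694131941458424977536583664488927946228933793455724145322 = true := by
  decide +kernel

theorem pt4 : ptOK 1 29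
    147237255398198694131949253070642307799456645439231124527702351173822805 = true := by
  decide +kernel

theorem pt5 : ptOK 1 23
    147237255398198694163868448829941968177594909435299188224030770661250474 = true := by
  decide +kernel

theorem pt6 : ptOK 33 24
    147237255398198726825179663415268213573261012810860089510712422498478757 = true := by
  decide +kernel

theorem pt7 : ptOK 33 21
    147237255398200786499186100121618824708580860742100535235686564558624086 = true := by
  decide +kernel

/-- points of part 1 -/
def D1 : List (ℕ × ℕ × ℕ) := [
  (59, 187, 147237255398198694131941458395243209652290324739634913176800516774384981),
  (3, 85, 147237255398198694131941458395243209652290324739634913177175816743332522),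
  (5, 55, 147237255398198694131941458395243209659213387217681350014841178457199957),
  (19, 42, 147237255398198694131941458424977536583664488927946228933793455724145322),
  (1, 29, 147237255398198694131949253070642307799456645439231124527702351173822805),
  (1, 23, 147237255398198694163868448829941968177594909435299188224030770661250474),
  (33, 24, 147237255398198726825179663415268213573261012810860089510712422498478757),
  (33, 21, 147237255398200786499186100121618824708580860742100535235686564558624086)]

theorem D1_ok : ∀ p ∈ D1, ptOK p.1 p.2.1 p.2.2 = true := by
  simp only [D1, List.forall_mem_cons, List.not_mem_nil, false_imp_iff, implies_true, and_true]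
  exact ⟨pt0, pt1, pt2, pt3, pt4, pt5, pt6, pt7⟩

end Pool.Agent.Lib_MP_1dbf07_co.F1
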