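import Pool.Agent.Lib_MP_1dbf07_co.F1b

/-! # Kernel checks, part 2 -/

namespace Pool.Agent.Lib_MP_1dbf07_co.F1

theorem pt8 : ptOK 41 19
    147237255398332605635130848361187820390193053343149895895955190256937641 = true := by
  decide +kernel

theorem pt9 : ptOK 9 15
    147237255400341278159026455470342343771402784635431333834002095729366357 = true := by
  decide +kernel

theorem pt10 : ptOK 25 15
    147237255406769028324662140502055936487169481376261458167950475287767722 = true := by
  decide +kernel

theorem pt11 : ptOK 59 15
    147237255535324041215501602130024481172625379164549276796727630013748565 = true := by
  decide +kernel

theorem pt12 : ptOK 59 14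
    147237255946699690149194291889343301531030004504998813225819273308777130 = true := by
  decide +kernel

theorem pt13 : ptOK 27 12
    147237257592196401123162534337551176069421254966261707562346224672216405 = true := by
  decide +kernel

theorem pt14 : ptOK 23 11
    147237264174089088852176153008414747649491149501502828408182442271533738 = true := by
  decide +kernel

theorem pt15 : ptOK 9 9
    147237290501760279142768865990728012325397680108305598490736429227484501 = true := by
  decide +kernel

/-- points of part 2 -/
def D2 : List (ℕ × ℕ × ℕ) := [
  (41, 19, 147237255398332605635130848361187820390193053343149895895955190256937641),
  (9, 15, 147237255400341278159026455470342343771402784635431333834002095729366357),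
  (25, 15, 147237255406769028324662140502055936487169481376261458167950475287767722),
  (59, 15, 147237255535324041215501602130024481172625379164549276796727630013748565),
  (59, 14, 147237255946699690149194291889343301531030004504998813225819273308777130),
  (27, 12, 147237257592196401123162534337551176069421254966261707562346224672216405),
  (23, 11, 147237264174089088852176153008414747649491149501502828408182442271533738),
  (9, 9, 147237290501760279142768865990728012325397680108305598490736429227484501)]

theorem D2_ok : ∀ p ∈ D2, ptOK p.1 p.2.1 p.2.2 = true := by
  simp only [D2, List.forall_mem_cons, List.not_mem_nil, false_imp_iff, implies_true, and_true]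
  exact ⟨pt8, pt9, pt10, pt11, pt12, pt13, pt14, pt15⟩

end Pool.Agent.Lib_MP_1dbf07_co.F1
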