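import Pool.Agent.Lib_MP_1dbf07_co.F1b

/-! # Kernel checks, part 3 -/

namespace Pool.Agent.Lib_MP_1dbf07_co.F1

theorem pt16 : ptOK 27 10
    147237290500153463696282542771912917810204092761853825809600645768238762 = true := by
  decide +kernel

theorem pt17 : ptOK 39 10
    147237395806017772365362014488333684212873224772367537944207604451027285 = true := by
  decide +kernel

theorem pt18 : ptOK 53 10
    147237817029475006682523174441527259073840380988152323115759335308088746 = true := by
  decide +kernel

theorem pt19 : ptOK 9 7
    147237816926662355826596755718170420236499980429284130242082201017166421 = true := by
  decide +kernel

theorem pt20 : ptOK 47 9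
    147239501512053316396618843394303425102767080449983028183408656884782442 = true := by
  decide +kernel

theorem pt21 : ptOK 15 7
    147239501512454952851908379500278813219895363134731470455053501435587221 = true := by
  decide +kernel

theorem pt22 : ptOK 19 7
    147239499866950003690631926219333748987354871971613633009047094539474266 = true := by
  decide +kernel

theorem pt23 : ptOK 47 8
    147246239855222161650030920278391353663270815452083631098258292689169061 = true := by
  decide +kernel

/-- points of part 3 -/
def D3 : List (ℕ × ℕ × ℕ) := [
  (27, 10, 147237290500153463696282542771912917810204092761853825809600645768238762),
  (39, 10, 147237395806017772365362014488333684212873224772367537944207604451027285),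
  (53, 10, 147237817029475006682523174441527259073840380988152323115759335308088746),
  (9, 7, 147237816926662355826596755718170420236499980429284130242082201017166421),
  (47, 9, 147239501512053316396618843394303425102767080449983028183408656884782442),
  (15, 7, 147239501512454952851908379500278813219895363134731470455053501435587221),
  (19, 7, 147239499866950003690631926219333748987354871971613633009047094539474266),
  (47, 8, 147246239855222161650030920278391353663270815452083631098258292689169061)]

theorem D3_ok : ∀ p ∈ D3, ptOK p.1 p.2.1 p.2.2 = true := by
  simp only [D3, List.forall_mem_cons, List.not_mem_nil, false_imp_iff, implies_true, and_true]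
  exact ⟨pt16, pt17, pt18, pt19, pt20, pt21, pt22, pt23⟩

end Pool.Agent.Lib_MP_1dbf07_co.F1
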