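import Pool.Agent.Lib_MP_1dbf07_co.F1b

/-! # Kernel checks, part 4 -/

namespace Pool.Agent.Lib_MP_1dbf07_co.F1

theorem pt24 : ptOK 57 8
    147246233279625413564510479215877065945561805856997086037360077781505370 = true := by
  decide +kernel

theorem pt25 : ptOK 35 7
    147246233305311338361719457887462156426989269313427044862392615226927781 = true := by
  decide +kernel

theorem pt26 : ptOK 41 7
    147273166923805236218852223147197697218830594996888963908491924232381782 = true := by
  decide +kernel

theorem pt27 : ptOK 49 7
    147273167026649662988657300538638698229028764377599302351956706467337897 = true := by
  decide +kernel

theorem pt28 : ptOK 29 6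
    147273061713957827669301264254681603894718546405066274707176312733608278 = true := by
  decide +kernel

theorem pt29 : ptOK 17 5
    147273062123733299950949169392921103985701726312606730634967722857420458 = true := by
  decide +kernel

theorem pt30 : ptOK 5 3
    147273062123733275526428798244074737670201873943122178476697598612121941 = true := by
  decide +kernel

theorem pt31 : ptOK 23 5
    147380482300337019709890817789180948482004653965005875184247255866168746 = true := by
  decide +kernel

/-- points of part 4 -/
def D4 : List (ℕ × ℕ × ℕ) := [
  (57, 8, 147246233279625413564510479215877065945561805856997086037360077781505370),
  (35, 7, 147246233305311338361719457887462156426989269313427044862392615226927781),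
  (41, 7, 147273166923805236218852223147197697218830594996888963908491924232381782),
  (49, 7, 147273167026649662988657300538638698229028764377599302351956706467337897),
  (29, 6, 147273061713957827669301264254681603894718546405066274707176312733608278),
  (17, 5, 147273062123733299950949169392921103985701726312606730634967722857420458),
  (5, 3, 147273062123733275526428798244074737670201873943122178476697598612121941),
  (23, 5, 147380482300337019709890817789180948482004653965005875184247255866168746)]

theorem D4_ok : ∀ p ∈ D4, ptOK p.1 p.2.1 p.2.2 = true := by
  simp only [D4, List.forall_mem_cons, List.not_mem_nil, false_imp_iff, implies_true, and_true]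
  exact ⟨pt24, pt25, pt26, pt27, pt28, pt29, pt30, pt31⟩

end Pool.Agent.Lib_MP_1dbf07_co.F1
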