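import Pool.Agent.Lib_MP_1dbf07_co.F1b

/-! # Kernel checks, part 5 -/

namespace Pool.Agent.Lib_MP_1dbf07_co.F1

theorem pt32 : ptOK 53 6
    147380482300437062545330702258677814159629363909660179940128133861435989 = true := by
  decide +kernel

theorem pt33 : ptOK 31 5
    147380488856742719953080325057447580079143632611863167729489591535310250 = true := by
  decide +kernel

theorem pt34 : ptOK 9 3
    147378803860477781974796342638589171725628020957634485336376907545274965 = true := by
  decide +kernel

theorem pt35 : ptOK 41 5
    147378803757627469657338764400274741601895191669240239171904168049415530 = true := by
  decide +kernel

theorem pt36 : ptOK 47 5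
    147378830087282312987066187466490988831234424244412716313243224916712085 = true := by
  decide +kernel

theorem pt37 : ptOK 27 4
    147810188822580970105932569300456740800907071341085714175766783491220842 = true := by
  decide +kernel

theorem pt38 : ptOK 31 4
    147810188828908288749510031225615111095395230080196821931963797398444709 = true := by
  decide +kernel

theorem pt39 : ptOK 9 2
    147803554154534714779484006066345173713111042980340379127570264455816538 = true := by
  decide +kernel

/-- points of part 5 -/
def D5 : List (ℕ × ℕ × ℕ) := [
  (53, 6, 147380482300437062545330702258677814159629363909660179940128133861435989),
  (31, 5, 147380488856742719953080325057447580079143632611863167729489591535310250),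
  (9, 3, 147378803860477781974796342638589171725628020957634485336376907545274965),
  (41, 5, 147378803757627469657338764400274741601895191669240239171904168049415530),
  (47, 5, 147378830087282312987066187466490988831234424244412716313243224916712085),
  (27, 4, 147810188822580970105932569300456740800907071341085714175766783491220842),
  (31, 4, 147810188828908288749510031225615111095395230080196821931963797398444709),
  (9, 2, 147803554154534714779484006066345173713111042980340379127570264455816538)]

theorem D5_ok : ∀ p ∈ D5, ptOK p.1 p.2.1 p.2.2 = true := by
  simp only [D5, List.forall_mem_cons, List.not_mem_nil, false_imp_iff, implies_true, and_true]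
  exact ⟨pt32, pt33, pt34, pt35, pt36, pt37, pt38, pt39⟩

end Pool.Agent.Lib_MP_1dbf07_co.F1
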