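import Pool.Agent.Lib_MP_1dbf07_co.F1b

/-! # Kernel checks, part 6 -/

namespace Pool.Agent.Lib_MP_1dbf07_co.F1

theorem pt40 : ptOK 41 4
    147803552534345612209871933863930896741081395637099803845511211815425701 = true := by
  decide +kernel

theorem pt41 : ptOK 47 4
    147803552534345612186295079389071068150952979834805954009320743826205018 = true := by
  decide +kernel

theorem pt42 : ptOK 27 3
    147803552532763396265793919733238600649257568284386857617211999047554473 = true := by
  decide +kernel

theorem pt43 : ptOK 63 4
    147803967302755875665062248800357492660308127095475169751025170814167638 = true := by
  decide +kernel

theorem pt44 : ptOK 9 1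
    147777007356187613897160187444479965520771611065020747518078489762108841 = true := by
  decide +kernel

theorem pt45 : ptOK 43 3
    147777007761136097620116500589916742191383229790016875128772437111040598 = true := by
  decide +kernel

theorem pt46 : ptOK 25 2
    149502418020156272802898779838504328808368902030611566078375338951746985 = true := by
  decide +kernel

theorem pt47 : ptOK 59 3
    149502417994445656790745211323552705383558689862255415020272329438091862 = true := by
  decide +kernel

/-- points of part 6 -/
def D6 : List (ℕ × ℕ × ℕ) := [
  (41, 4, 147803552534345612209871933863930896741081395637099803845511211815425701),
  (47, 4, 147803552534345612186295079389071068150952979834805954009320743826205018),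
  (27, 3, 147803552532763396265793919733238600649257568284386857617211999047554473),
  (63, 4, 147803967302755875665062248800357492660308127095475169751025170814167638),
  (9, 1, 147777007356187613897160187444479965520771611065020747518078489762108841),
  (43, 3, 147777007761136097620116500589916742191383229790016875128772437111040598),
  (25, 2, 149502418020156272802898779838504328808368902030611566078375338951746985),
  (59, 3, 149502417994445656790745211323552705383558689862255415020272329438091862)]

theorem D6_ok : ∀ p ∈ D6, ptOK p.1 p.2.1 p.2.2 = true := by
  simp only [D6, List.forall_mem_cons, List.not_mem_nil, false_imp_iff, implies_true, and_true]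
  exact ⟨pt40, pt41, pt42, pt43, pt44, pt45, pt46, pt47⟩

end Pool.Agent.Lib_MP_1dbf07_co.F1
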