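import Pool.Agent.Lib_MP_1dbf07_co.F1b

/-! # Kernel checks, part 7 -/

namespace Pool.Agent.Lib_MP_1dbf07_co.F1

theorem pt48 : ptOK 35 2
    149504102991087220755291444754835259629197653855647349940127400423957865 = true := by
  decide +kernel

theorem pt49 : ptOK 21 1
    149504104638200286930160498443850326516438489563338969757968266666072726 = true := by
  decide +kernel

theorem pt50 : ptOK 51 2
    149504104535255720294229725372578109155352403050042788443015930085484905 = true := by
  decide +kernel

theorem pt51 : ptOK 31 1
    149503999222970334974378224182522183092609608710809109441046965420447381 = true := by
  decide +kernel

theorem pt52 : ptOK 39 1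
    149396166024747321199044525718195630800797449201956326543197315038275946 = true := by
  decide +kernel

theorem pt53 : ptOK 49 1
    149396166024345609674009935284638029656916815901251017133111961705682597 = true := by
  decide +kernel

theorem pt54 : ptOK 32 0
    149402905599659797224953971854887031335278956155831140468005879197296986 = true := by
  decide +kernel

theorem pt55 : ptOK 43 0
    149402905623763959838922016836307027759462502989655139994739707724862885 = true := by
  decide +kernel

/-- points of part 7 -/
def D7 : List (ℕ × ℕ × ℕ) := [
  (35, 2, 149504102991087220755291444754835259629197653855647349940127400423957865),
  (21, 1, 149504104638200286930160498443850326516438489563338969757968266666072726),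
  (51, 2, 149504104535255720294229725372578109155352403050042788443015930085484905),
  (31, 1, 149503999222970334974378224182522183092609608710809109441046965420447381),
  (39, 1, 149396166024747321199044525718195630800797449201956326543197315038275946),
  (49, 1, 149396166024345609674009935284638029656916815901251017133111961705682597),
  (32, 0, 149402905599659797224953971854887031335278956155831140468005879197296986),
  (43, 0, 149402905623763959838922016836307027759462502989655139994739707724862885)]

theorem D7_ok : ∀ p ∈ D7, ptOK p.1 p.2.1 p.2.2 = true := by
  simp only [D7, List.forall_mem_cons, List.not_mem_nil, false_imp_iff, implies_true, and_true]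
  exact ⟨pt48, pt49, pt50, pt51, pt52, pt53, pt54, pt55⟩

end Pool.Agent.Lib_MP_1dbf07_co.F1
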