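import Pool.Agent.Lib_MP_1dbf07_co.F1b

/-! # Kernel checks, part 8 -/

namespace Pool.Agent.Lib_MP_1dbf07_co.F1

theorem pt56 : ptOK 61 0
    149402484374697719597121429962071450172546026712178301807813172732189274 = true := by
  decide +kernel

theorem pt57 : ptOK 91 0
    149402510702764727435021047798106810378968737161375414250308514809750949 = true := by
  decide +kernel

theorem pt58 : ptOK 151 0
    149402509160104206388717140619614850070194009252393289262213077214583386 = true := by
  decide +kernel

theorem pt59 : ptOK 294 0
    149402509154054649591260235527402092955931368278042937120583510487573925 = true := by
  decide +kernel

theorem pt60 : ptOK 793 0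
    149402509154054557280940618981962041131043391334041265032408776421562970 = true := by
  decide +kernel

theorem pt61 : ptOK 6132 0
    149402509154054557280940597489290903911882829515217779547047583197522281 = true := by
  decide +kernel

theorem pt62 : ptOK 39810 0
    149402509154054557280940597489290903911882829515217779547047583197537701 = true := by
  decide +kernel

/-- points of part 8 -/
def D8 : List (ℕ × ℕ × ℕ) := [
  (61, 0, 149402484374697719597121429962071450172546026712178301807813172732189274),
  (91, 0, 149402510702764727435021047798106810378968737161375414250308514809750949),
  (151, 0, 149402509160104206388717140619614850070194009252393289262213077214583386),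
  (294, 0, 149402509154054649591260235527402092955931368278042937120583510487573925),
  (793, 0, 149402509154054557280940618981962041131043391334041265032408776421562970),
  (6132, 0, 149402509154054557280940597489290903911882829515217779547047583197522281),
  (39810, 0, 149402509154054557280940597489290903911882829515217779547047583197537701)]

theorem D8_ok : ∀ p ∈ D8, ptOK p.1 p.2.1 p.2.2 = true := by
  simp only [D8, List.forall_mem_cons, List.not_mem_nil, false_imp_iff, implies_true, and_true]
  exact ⟨pt56, pt57, pt58, pt59, pt60, pt61, pt62⟩

end Pool.Agent.Lib_MP_1dbf07_co.F1
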