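import Pool.Agent.Lib_MP_1dbf07_co.F1c
import Pool.Agent.Lib_MP_1dbf07_co.F1d1
import Pool.Agent.Lib_MP_1dbf07_co.F1d2
import Pool.Agent.Lib_MP_1dbf07_co.F1d3
import Pool.Agent.Lib_MP_1dbf07_co.F1d4
import Pool.Agent.Lib_MP_1dbf07_co.F1d5
import Pool.Agent.Lib_MP_1dbf07_co.F1d6
import Pool.Agent.Lib_MP_1dbf07_co.F1d7
import Pool.Agent.Lib_MP_1dbf07_co.F1d8

namespace Pool.Agent.Lib_MP_1dbf07_co

open MeasureTheory Set Filter Topology
open scoped Real Nat PowerSeries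

noncomputable section

namespace F1

/-- all points -/
def Dall : List (ℕ × ℕ × ℕ) := D1 ++ D2 ++ D3 ++ D4 ++ D5 ++ D6 ++ D7 ++ D8

theorem Dall_ok : ∀ p ∈ Dall, ptOK p.1 p.2.1 p.2.2 = true := by
  intro p hp
  simp only [Dall, List.mem_append] at hp
  rcases hp with ((((((h | h) | h) | h) | h) | h) | h) | h
  · exact D1_ok p h
  · exact D2_ok p h
  · exact D3_ok p h
  · exact D4_ok p h
  · exact D5_ok p h
  · exact D6_ok p h
  · exact D7_ok p h
  · exact D8_ok p h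

theorem Dall_pos : ∀ p ∈ Dall, 0 < p.1 := by decide +kernel

theorem Dall_pw : Dall.Pairwise ltP := by decide +kernel

theorem Dall_len : ∀ n < 120, n / 2 ≤ (pick (119 - n) true Dall).length := by decide +kernel

end F1

/-- Numerical: the sign patterns for `2 ≤ n < 120`. -/
theorem goodSigns_small : ∀ n : ℕ, 2 ≤ n → n < 120 → GoodSigns n :=
  fun n h1 h2 => F1.goodSigns_of F1.Dall_ok F1.Dall_pos F1.Dall_pw h1 h2 (F1.Dall_len n h2)

end

end Pool.Agent.Lib_MP_1dbf07_co
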