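import Pool.Agent.Lib_MP_1dbf07_co.E5
import Pool.Agent.Lib_MP_1dbf07_co.A4
import Pool.Agent.Lib_MP_1dbf07_co.A6
import Pool.Agent.Lib_MP_1dbf07_co.A7
import Pool.Agent.Lib_MP_1dbf07_co.F1

/-!
# Assembly, part 6: the theorem
-/

namespace Pool.Agent.Lib_MP_1dbf07_co

open MeasureTheory Set Filter Topology
open scoped Real Nat PowerSeries

noncomputable section

theorem goodSigns {n : ℕ} (hn : 2 ≤ n) : GoodSigns n := by
  rcases lt_or_ge n 120 with h | h
  · exact goodSigns_small n hn h
  · exact goodSigns_large h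

theorem kap_mom_zero (n : ℕ) (hn : 1 ≤ n) : kap (mom 0) n = 0 := by
  have hm : ∀ k : ℕ, 1 ≤ k → mom 0 k = 0 := by
    intro k hk
    rw [mom, if_neg (by omega), zero_mul]
  rw [kap_rec (mom 0) (by simp [mom]) n hn, hm n hn, zero_sub, neg_eq_zero]
  refine Finset.sum_eq_zero fun j hj => ?_
  rw [Finset.mem_Ico] at hj
  rw [hm (n - j) (by omega), mul_zero]

theorem real_rooted {R F : PowerSeries (Polynomial ℚ)} (h : IsF R F) {n : ℕ} (hn : 1 ≤ n)
    (z : ℂ) (hz : Polynomial.aeval z (pPoly F n) = 0) : z.im = 0 := by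
  set P : Polynomial ℝ := (pPoly F n).map (algebraMap ℚ ℝ) with hP
  have heval : ∀ X : ℝ, P.eval (-X) = - kap (mom X) n := by
    intro X
    rw [← pPoly_eval h X n hn, hP, Polynomial.eval_map_algebraMap]
  have hz' : Polynomial.aeval z P = 0 := by
    rw [hP, Polynomial.aeval_map_algebraMap]
    exact hz
  rcases Nat.lt_or_ge n 2 with h1 | h1
  · have hn1 : n = 1 := by omega
    subst hn1
    have hPX : P = Polynomial.X := by
      refine Polynomial.funext fun y => ?_
      have := heval (-y)
      rw [neg_neg] at this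
      rw [this, kap_rec _ (by simp [mom]) 1 le_rfl]
      simp [mom, fs]
    rw [hPX, Polynomial.aeval_X] at hz'
    rw [hz']
    simp
  · obtain ⟨x, hx1, hx2⟩ := goodSigns h1
    refine real_roots_of_signs (d := n / 2) (by omega)
      (natDegree_le_half h1 fun X _ => heval X) ?_ x (fun k h2 h3 => (hx1 k h2 (by omega)).1)
      (fun k h2 h3 => hx2 k h2 (by omega)) (fun k h2 h3 => ?_) z hz'
    · have := heval 0
      rw [neg_zero, kap_mom_zero n hn, neg_zero] at this
      exact this
    · rw [heval, mul_neg, ← neg_mul, ← mul_neg_one, ← pow_succ]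
      exact (hx1 k h2 (by omega)).2

end

end Pool.Agent.Lib_MP_1dbf07_co
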