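import Pool.Agent.Lib_MP_1dbf07_co.A1

/-!
# Exact evaluation of cumulants at rational points in the kernel
-/

namespace Pool.Agent.Lib_MP_1dbf07_co

open scoped Real Nat

noncomputable section

namespace F1

/-! ### Kernel functions -/

/-- force a natural number -/
def forceN {α : Type} (n : Nat) (f : Nat → α) : α :=
  Nat.rec (motive := fun _ => α) (f 0) (fun k _ => f (Nat.succ k)) n

/-- force an integer -/
def forceZ {α : Type} (n : Int) (f : Int → α) : α :=
  Int.rec (motive := fun _ => α) (fun n => forceN n fun m => f (Int.ofNat m))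
    (fun n => forceN n fun m => f (Int.negSucc m)) n

/-- force a list of integers -/
def forceL {α : Type} (l : List Int) : (List Int → α) → α :=
  List.rec (motive := fun _ => (List Int → α) → α) (fun k => k [])
    (fun x _ ih k => forceZ x fun x' => ih fun l' => k (x' :: l')) l

theorem forceN_eq {α : Type} (n : Nat) (f : Nat → α) : forceN n f = f n := by
  cases n <;> rfl

theorem forceZ_eq {α : Type} (n : Int) (f : Int → α) : forceZ n f = f n := by
  cases n with
  | ofNat n => exact forceN_eq n fun m => f (Int.ofNat m)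
  | negSucc n => exact forceN_eq n fun m => f (Int.negSucc m)

theorem forceL_eq {α : Type} (l : List Int) : ∀ (f : List Int → α), forceL l f = f l := by
  induction l with
  | nil => intro f; rfl
  | cons x l ih =>
    intro f
    show forceZ x (fun x' => forceL l fun l' => f (x' :: l')) = _
    rw [forceZ_eq, ih]

/-- triple dot product -/
def dot3 (l : List Int) : List Int → List Int → Int → Int :=
  List.rec (motive := fun _ => List Int → List Int → Int → Int) (fun _ _ acc => acc)
    (fun x _ ih m c acc => List.rec (motive := fun _ => Int) acc (fun y ys _ =>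
      List.rec (motive := fun _ => Int) acc (fun z zs _ =>
        ih ys zs (Int.add acc (Int.mul x (Int.mul z y)))) c) m) l

theorem dot3_nil (m c : List Int) (acc : Int) : dot3 [] m c acc = acc := rfl

theorem dot3_cons (x y z : Int) (l m c : List Int) (acc : Int) :
    dot3 (x :: l) (y :: m) (z :: c) acc = dot3 l m c (acc + x * (z * y)) := rfl

/-- Pascal row step -/
def pasc (l : List Int) : Int → List Int :=
  List.rec (motive := fun _ => Int → List Int) (fun p => [p])
    (fun x _ ih p => (Int.add p x) :: ih x) l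

theorem pasc_nil (p : Int) : pasc [] p = [p] := rfl

theorem pasc_cons (x : Int) (l : List Int) (p : Int) : pasc (x :: l) p = (p + x) :: pasc l x := rfl

/-- the loop for the cumulants -/
def loopK (Mall : List Int) (rest : List Int) : List Int → List Int → List Int :=
  List.rec (motive := fun _ => List Int → List Int → List Int) (fun lk _ => lk)
    (fun M _ ih lk c =>
        forceZ (Int.sub M (dot3 lk Mall c 0)) fun v => forceL (pasc c 1) fun c' => ih (v :: lk) c')
      rest

theorem loopK_nil (Mall lk c : List Int) : loopK Mall [] lk c = lk := rfl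

theorem loopK_cons (Mall : List Int) (M : Int) (rest lk c : List Int) :
    loopK Mall (M :: rest) lk c
      = loopK Mall rest ((M - dot3 lk Mall c 0) :: lk) (pasc c 1) := by
  show forceZ (Int.sub M (dot3 lk Mall c 0))
    (fun v => forceL (pasc c 1) fun c' => loopK Mall rest (v :: lk) c') = _
  rw [forceZ_eq, forceL_eq]
  rfl

/-- generation of the list `M_{n+2}, M_{n+3}, …` from `M_{n+1} = B`, `S_n = S`, `S_{n-1} = S'`;
`p = 3b+a`, `d = (b-a)²`. -/
def genM (a p d : Nat) (k : Nat) : Nat → Nat → Nat → Nat → List Int :=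
  Nat.rec (motive := fun _ => Nat → Nat → Nat → Nat → List Int) (fun _ _ _ _ => [])
    (fun _ ih n B S S' =>
      forceN (Nat.div (Nat.sub (Nat.mul (Nat.mul p (Nat.add (Nat.mul 2 n) 1)) S)
        (Nat.mul (Nat.mul d (Nat.sub n 1)) S')) (Nat.add n 2)) fun T =>
      forceN (Nat.sub T (Nat.mul a B)) fun C =>
      Int.ofNat C :: ih (Nat.succ n) C T S) k

/-- check of the recurrence along the list: `B = M_{n+1}`, `S = S_n`, `S' = S_{n-1}`. -/
def chk (a p d : Int) (l : List Int) : Nat → Int → Int → Int → Bool :=
  List.rec (motive := fun _ => Nat → Int → Int → Int → Bool) (fun _ _ _ _ => true)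
    (fun C _ ih n B S S' =>
      forceZ (Int.add C (Int.mul a B)) fun T =>
        if Int.add (Int.mul (Int.ofNat (Nat.add n 2)) T)
            (Int.mul (Int.mul d (Int.ofNat (Nat.sub n 1))) S')
          = Int.mul (Int.mul p (Int.ofNat (Nat.add (Nat.mul 2 n) 1))) S
        then ih (Nat.succ n) C T S else false) l

theorem chk_cons {a p d C B S S' : Int} {l : List Int} {n : Nat}
    (h : chk a p d (C :: l) n B S S' = true) :
    ((n : Int) + 2) * (C + a * B) + d * (n - 1 : ℕ) * S' = p * (2 * n + 1) * S ∧
      chk a p d l (n + 1) C (C + a * B) S = true := by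
  have h1 : forceZ (Int.add C (Int.mul a B)) (fun T =>
        if Int.add (Int.mul (Int.ofNat (Nat.add n 2)) T)
            (Int.mul (Int.mul d (Int.ofNat (Nat.sub n 1))) S')
          = Int.mul (Int.mul p (Int.ofNat (Nat.add (Nat.mul 2 n) 1))) S
        then chk a p d l (Nat.succ n) C T S else false) = true := h
  rw [forceZ_eq] at h1
  split_ifs at h1 with h2
  refine ⟨?_, h1⟩
  have h3 : (((n + 2 : ℕ) : Int)) * (C + a * B) + d * ((n - 1 : ℕ) : Int) * S'
      = p * ((2 * n + 1 : ℕ) : Int) * S := h2
  push_cast at h3 ⊢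
  exact h3

/-- sign code: 0, 1 (positive), 2 (negative) -/
def sg (x : Int) : Nat :=
  Int.rec (motive := fun _ => Nat) (fun n => Nat.rec (motive := fun _ => Nat) 0 (fun _ _ => 1) n)
    (fun _ => 2) x

theorem sg_pos {x : Int} (h : sg x = 1) : 0 < x := by
  cases x with
  | ofNat n =>
    cases n with
    | zero => exact absurd h (by decide)
    | succ n => exact Int.natCast_pos.2 (Nat.succ_pos n)
  | negSucc n => exact absurd (show (2 : ℕ) = 1 from h) (by decide)

theorem sg_neg {x : Int} (h : sg x = 2) : x < 0 := by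
  cases x with
  | ofNat n =>
    cases n with
    | zero => exact absurd h (by decide)
    | succ n => exact absurd (show (1 : ℕ) = 2 from h) (by decide)
  | negSucc n => exact Int.negSucc_lt_zero n

theorem sg_lt (x : Int) : sg x < 4 := by
  cases x with
  | ofNat n =>
    cases n with
    | zero => decide
    | succ n => show 1 < 4; decide
  | negSucc n => show 2 < 4; decide

/-- sign code of a list -/
def code (l : List Int) : Nat :=
  List.rec (motive := fun _ => Nat) 0 (fun x _ ih => Nat.add (sg x) (Nat.mul 4 ih)) l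

theorem code_cons (x : Int) (l : List Int) : code (x :: l) = sg x + 4 * code l := rfl

/-- tables -/
def tab (n : ℕ) (f : ℕ → ℤ) : List ℤ := (List.range n).map f

theorem tab_zero (f : ℕ → ℤ) : tab 0 f = [] := rfl

theorem tab_succ (n : ℕ) (f : ℕ → ℤ) : tab (n + 1) f = f 0 :: tab n (fun i => f (i + 1)) := by
  rw [tab, List.range_succ_eq_map, List.map_cons, List.map_map]
  rfl

theorem tab_congr {n : ℕ} {f g : ℕ → ℤ} (h : ∀ i < n, f i = g i) : tab n f = tab n g := by
  refine List.map_congr_left fun i hi => h i (List.mem_range.1 hi)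

theorem code_tab (n : ℕ) : ∀ (f : ℕ → ℤ) (i : ℕ), i < n → code (tab n f) / 4 ^ i % 4 = sg (f i) := by
  induction n with
  | zero => intro f i hi; omega
  | succ n ih =>
    intro f i hi
    rw [tab_succ, code_cons]
    rcases i with _ | i
    · rw [pow_zero, Nat.div_one, Nat.add_mul_mod_self_left, Nat.mod_eq_of_lt (sg_lt _)]
    · rw [pow_succ', ← Nat.div_div_eq_div_mul, Nat.add_mul_div_left _ _ (by norm_num),
        Nat.div_eq_of_lt (sg_lt _), zero_add, ih _ i (by omega)]

theorem dot3_tab (n : ℕ) : ∀ (f g h : ℕ → ℤ) (N : ℕ) (acc : ℤ), n ≤ N →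
    dot3 (tab n f) (tab N g) (tab n h) acc
      = acc + ∑ i ∈ Finset.range n, f i * (h i * g i) := by
  induction n with
  | zero => intro f g h N acc _; simp [tab_zero, dot3_nil]
  | succ n ih =>
    intro f g h N acc hN
    obtain ⟨N, rfl⟩ : ∃ k, N = k + 1 := ⟨N - 1, by omega⟩
    rw [tab_succ, tab_succ, tab_succ, dot3_cons, ih _ _ _ _ _ (by omega),
      Finset.sum_range_succ']
    ring

theorem pasc_tab (N : ℕ) : ∀ n j : ℕ, n + j = N →
    pasc (tab n fun i => (N.choose (i + 1 + j) : ℤ)) (N.choose j : ℤ)
      = tab (n + 1) fun i => ((N + 1).choose (i + 1 + j) : ℤ) := by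
  intro n
  induction n with
  | zero =>
    intro j hj
    rw [tab_zero, pasc_nil, tab_succ, tab_zero]
    have : j = N := by omega
    subst this
    simp [show 0 + 1 + j = j + 1 by omega]
  | succ n ih =>
    intro j hj
    rw [tab_succ, pasc_cons, tab_succ (n + 1)]
    congr 1
    · rw [show 0 + 1 + j = j + 1 by omega, Nat.choose_succ_succ]
      push_cast
      ring
    · have h := ih (j + 1) (by omega)
      have e1 : (fun i => ((N.choose (i + 1 + 1 + j) : ℕ) : ℤ))
          = fun i => ((N.choose (i + 1 + (j + 1)) : ℕ) : ℤ) := by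
        funext i; rw [show i + 1 + 1 + j = i + 1 + (j + 1) by omega]
      have e2 : (fun i => (((N + 1).choose (i + 1 + 1 + j) : ℕ) : ℤ))
          = fun i => (((N + 1).choose (i + 1 + (j + 1)) : ℕ) : ℤ) := by
        funext i; rw [show i + 1 + 1 + j = i + 1 + (j + 1) by omega]
      rw [show 0 + 1 + j = j + 1 by omega, e1, e2]
      exact h

/-- Soundness of the cumulant loop. -/
theorem loopK_sound {m : ℕ → ℝ} (h0 : m 0 = 1) {b : ℝ} (M K : ℕ → ℤ) (N : ℕ)
    (h2 : ∀ j, 1 ≤ j → j ≤ N → (M j : ℝ) = b ^ j * m j)
    (h3 : ∀ j, (∃ v : ℤ, (v : ℝ) = b ^ j * kap m j) → (K j : ℝ) = b ^ j * kap m j) :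
    ∀ (r n : ℕ), n + r = N → (∀ j, 1 ≤ j → j ≤ n → (K j : ℝ) = b ^ j * kap m j) →
      loopK (tab N fun i => M (i + 1)) (tab r fun i => M (n + 1 + i)) (tab n fun i => K (n - i))
        (tab n fun i => (n.choose (i + 1) : ℤ))
        = tab N (fun i => K (N - i)) ∧
      ∀ j, 1 ≤ j → j ≤ N → (K j : ℝ) = b ^ j * kap m j := by
  intro r
  induction r with
  | zero =>
    intro n hn h1
    have : n = N := by omega
    subst this
    exact ⟨rfl, h1⟩
  | succ r ih =>
    intro n hn h1
    rw [tab_succ]
    -- the new cumulant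
    have hnew : (((M (n + 1) - dot3 (tab n fun i => K (n - i)) (tab N fun i => M (i + 1))
        (tab n fun i => (n.choose (i + 1) : ℤ)) 0 : ℤ)) : ℝ) = b ^ (n + 1) * kap m (n + 1) := by
      rw [dot3_tab _ _ _ _ _ _ (by omega), zero_add, kap_rec m h0 (n + 1) (by omega)]
      push_cast
      rw [h2 (n + 1) (by omega) (by omega), mul_sub, Finset.mul_sum]
      congr 1
      rw [Finset.sum_Ico_eq_sum_range, Nat.add_sub_cancel]
      rw [← Finset.sum_range_reflect]
      refine Finset.sum_congr rfl fun i hi => ?_
      rw [Finset.mem_range] at hi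
      have e1 : n - (n - 1 - i) = i + 1 := by omega
      have e2 : n - 1 - i + 1 = n - i := by omega
      have e3 : 1 + i - 1 = i := by omega
      have e4 : n + 1 - (1 + i) = n - i := by omega
      rw [e1, e2, e3, e4, h1 (i + 1) (by omega) (by omega), h2 (n - i) (by omega) (by omega),
        Nat.choose_symm (by omega : i ≤ n), add_comm 1 i]
      have e5 : b ^ (n + 1) = b ^ (i + 1) * b ^ (n - i) := by
        rw [← pow_add]; congr 1; omega
      rw [e5]
      ring
    have hK : (K (n + 1) : ℝ) = b ^ (n + 1) * kap m (n + 1) := h3 _ ⟨_, hnew⟩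
    have hv2 : M (n + 1) - dot3 (tab n fun i => K (n - i)) (tab N fun i => M (i + 1))
        (tab n fun i => (n.choose (i + 1) : ℤ)) 0 = K (n + 1) := by
      have : ((_ : ℤ) : ℝ) = ((_ : ℤ) : ℝ) := hnew.trans hK.symm
      exact_mod_cast this
    rw [loopK_cons, add_zero, hv2]
    have e6 : (K (n + 1) :: tab n fun i => K (n - i)) = tab (n + 1) fun i => K (n + 1 - i) := by
      rw [tab_succ]
      congr 1
      refine tab_congr fun i _ => ?_
      congr 1; omega
    have e8 : pasc (tab n fun i => (n.choose (i + 1) : ℤ)) 1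
        = tab (n + 1) fun i => ((n + 1).choose (i + 1) : ℤ) := by
      have := pasc_tab n n 0 (by omega)
      simpa using this
    have e9 : (tab r fun i => M (n + 1 + (i + 1))) = tab r fun i => M (n + 1 + 1 + i) := by
      refine tab_congr fun i _ => ?_
      congr 1; omega
    rw [e6, e8, e9]
    exact ih (n + 1) (by omega) (fun j hj1 hj2 => by
        rcases Nat.lt_or_ge n j with h | h
        · have : j = n + 1 := by omega
          rw [this]; exact hK
        · exact h1 j hj1 h)

end F1

end

end Pool.Agent.Lib_MP_1dbf07_co
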