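import Pool.Agent.Lib_MP_1dbf07_co.F1b

/-!
# Greedy choice of points
-/

namespace Pool.Agent.Lib_MP_1dbf07_co

open scoped Real Nat

noncomputable section

namespace F1

/-- value of a point -/
def val (p : ℕ × ℕ × ℕ) : ℝ := (p.1 : ℝ) / 2 ^ p.2.1

/-- greedy choice of points with alternating signs for the index `119 - m` -/
def pick (m : ℕ) : Bool → List (ℕ × ℕ × ℕ) → List (ℕ × ℕ × ℕ)
  | _, [] => []
  | w, p :: l =>
    if p.2.2 / 4 ^ m % 4 = (if w then 1 else 2) then p :: pick m (!w) l else pick m w l

theorem pick_sublist (m : ℕ) (l : List (ℕ × ℕ × ℕ)) : ∀ w, (pick m w l).Sublist l := by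
  induction l with
  | nil => intro w; exact List.Sublist.slnil
  | cons p l ih =>
    intro w
    rw [pick]
    by_cases hc : p.2.2 / 4 ^ m % 4 = (if w then 1 else 2)
    · rw [if_pos hc]; exact (ih _).cons_cons p
    · rw [if_neg hc]; exact (ih _).cons p

theorem pick_sign (m : ℕ) (l : List (ℕ × ℕ × ℕ)) : ∀ (w : Bool) (i : ℕ) (hi : i < (pick m w l).length),
    ((pick m w l)[i]).2.2 / 4 ^ m % 4 = (if (w = (i % 2 = 0 : Bool)) then 1 else 2) := by
  induction l with
  | nil => intro w i hi; exact absurd hi (by simp [pick])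
  | cons p l ih =>
    intro w i hi
    have hun : pick m w (p :: l) = if p.2.2 / 4 ^ m % 4 = (if w then 1 else 2) then
      p :: pick m (!w) l else pick m w l := by rw [pick]
    by_cases hc : p.2.2 / 4 ^ m % 4 = (if w then 1 else 2)
    · rw [if_pos hc] at hun
      rcases i with _ | i
      · have : (pick m w (p :: l))[0] = p := by simp [hun]
        rw [this, hc]
        simp
      · have hi' : i < (pick m (!w) l).length := by
          rw [hun, List.length_cons] at hi; omega
        have : (pick m w (p :: l))[i + 1] = (pick m (!w) l)[i] := by simp [hun]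
        rw [this, ih]
        rcases Nat.mod_two_eq_zero_or_one i with h | h
        · have h' : (i + 1) % 2 = 1 := by omega
          cases w <;> simp [h, h']
        · have h' : (i + 1) % 2 = 0 := by omega
          cases w <;> simp [h, h']
    · rw [if_neg hc] at hun
      have hi' : i < (pick m w l).length := by
        rw [hun] at hi; exact hi
      have : (pick m w (p :: l))[i] = (pick m w l)[i] := by simp [hun]
      rw [this, ih]

/-- comparison of points -/
def ltP (p p' : ℕ × ℕ × ℕ) : Prop := p.1 * 2 ^ p'.2.1 < p'.1 * 2 ^ p.2.1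

instance : DecidableRel ltP := fun _ _ => Nat.decLt _ _

theorem ltP_val {p p' : ℕ × ℕ × ℕ} (h : ltP p p') : val p < val p' := by
  rw [val, val, div_lt_div_iff₀ (by positivity) (by positivity)]
  unfold ltP at h
  exact_mod_cast h

theorem goodSigns_of {D : List (ℕ × ℕ × ℕ)} (h1 : ∀ p ∈ D, ptOK p.1 p.2.1 p.2.2 = true)
    (h0 : ∀ p ∈ D, 0 < p.1)
    (h2 : D.Pairwise ltP) {n : ℕ} (hn : 2 ≤ n) (hn2 : n < 120)
    (hlen : n / 2 ≤ (pick (119 - n) true D).length) : GoodSigns n := by
  set L := pick (119 - n) true D with hL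
  have hsub := pick_sublist (119 - n) D true
  have hpw : L.Pairwise ltP := h2.sublist hsub
  refine ⟨fun k => if h : k - 1 < L.length then val L[k - 1] else 0, fun k hk1 hk2 => ?_,
    fun k hk1 hk2 => ?_⟩
  · have hlt : k - 1 < L.length := by omega
    simp only [dif_pos hlt]
    have hmem : L[k - 1] ∈ D := hsub.subset (List.getElem_mem hlt)
    have hp := pt_sound (h1 _ hmem) n (by omega) (by omega)
    have hs := pick_sign (119 - n) D true (k - 1) hlt
    have hpos : 0 < val L[k - 1] := by
      have := h0 _ hmem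
      rw [val]
      have h' : (0 : ℝ) < L[k - 1].1 := by exact_mod_cast this
      positivity
    refine ⟨hpos, ?_⟩
    rcases Nat.mod_two_eq_zero_or_one (k - 1) with h | h
    · have e : (-1 : ℝ) ^ (k + 1) = 1 := Even.neg_one_pow (by rw [Nat.even_iff]; omega)
      rw [e, one_mul]
      refine hp.1 ?_
      rw [hL] at *
      rw [hs]; simp [h]
    · have e : (-1 : ℝ) ^ (k + 1) = -1 := Odd.neg_one_pow (by rw [Nat.odd_iff]; omega)
      rw [e, neg_one_mul, neg_pos]
      refine hp.2 ?_
      rw [hL] at *
      rw [hs]; simp [h]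
  · have hlt : k - 1 < L.length := by omega
    have hlt' : k + 1 - 1 < L.length := by omega
    simp only [dif_pos hlt, dif_pos hlt']
    exact ltP_val (List.pairwise_iff_getElem.1 hpw _ _ hlt hlt' (by omega))

end F1

end

end Pool.Agent.Lib_MP_1dbf07_co
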