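import Pool.Agent.Lib_MP_1dbf07_co.B0

namespace Pool.Agent.Lib_MP_1dbf07_co

open MeasureTheory Set Filter Topology
open scoped Real Nat PowerSeries

noncomputable section

/-- A nonzero constant factor does not change the divisor. -/
theorem divisor_const_mul_H1 {f : ℂ → ℂ} (hf : Differentiable ℂ f) {k : ℂ} (hk : k ≠ 0) (U : Set ℂ) :
    MeromorphicOn.divisor (fun z => k * f z) U = MeromorphicOn.divisor f U := by
  have h1 : AnalyticOnNhd ℂ f U := fun z _ => hf.analyticAt z
  have h2 : AnalyticOnNhd ℂ (fun z => k * f z) U :=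
    fun z _ => (hf.const_mul k).analyticAt z
  ext z
  by_cases hz : z ∈ U
  · rw [MeromorphicOn.AnalyticOnNhd.divisor_apply h1 hz,
      MeromorphicOn.AnalyticOnNhd.divisor_apply h2 hz]
    congr 2
    have h3 : analyticOrderAt ((fun _ : ℂ => k) * f) z =
        analyticOrderAt (fun _ : ℂ => k) z + analyticOrderAt f z :=
      analyticOrderAt_mul analyticAt_const (hf.analyticAt z)
    have h4 : analyticOrderAt (fun _ : ℂ => k) z = 0 :=
      (analyticAt_const (v := k) (x := z)).analyticOrderAt_eq_zero.mpr hk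
    rw [h4, zero_add] at h3
    exact h3
  · simp [hz]

theorem zc_const_mul_H1 {f : ℂ → ℂ} (hf : Differentiable ℂ f) {k : ℂ} (hk : k ≠ 0) (c : ℂ) (r : ℝ) :
    zc (fun z => k * f z) c r = zc f c r := by
  unfold zc
  rw [divisor_const_mul_H1 hf hk]

/-- Jensen: the number of zeros in the disc of radius `r` is at most the mean of `log ‖f‖` on the
circle of radius `e r`, if `f c = 1`. -/
theorem zc_le_circleAverage_H1 {f : ℂ → ℂ} (hf : Differentiable ℂ f) {c : ℂ} (hfc : f c = 1) {r : ℝ}
    (hr : 0 < r) :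
    (zc f c r : ℝ) ≤ Real.circleAverage (fun z => Real.log ‖f z‖) c (Real.exp 1 * r) := by
  set R : ℝ := Real.exp 1 * r with hR
  have hR0 : 0 < R := mul_pos (Real.exp_pos 1) hr
  have hrR : r < R := by
    have : (1 : ℝ) < Real.exp 1 := Real.one_lt_exp_iff.mpr one_pos
    nlinarith
  have habsR : |R| = R := abs_of_pos hR0
  have h₁f : AnalyticOnNhd ℂ f (Metric.closedBall c |R|) := fun z _ => hf.analyticAt z
  have h₂f : AnalyticOnNhd ℂ f (Metric.closedBall c r) := fun z _ => hf.analyticAt z
  have hne : f c ≠ 0 := by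
    rw [hfc]
    exact one_ne_zero
  have jensen := h₁f.circleAverage_log_norm hR0.ne' hne
  rw [hfc, norm_one, Real.log_one, add_zero] at jensen
  rw [jensen]
  unfold zc
  have hcast : ((∑ᶠ u, MeromorphicOn.divisor f (Metric.closedBall c r) u : ℤ) : ℝ) =
      ∑ᶠ u, (MeromorphicOn.divisor f (Metric.closedBall c r) u : ℝ) :=
    map_finsum (Int.castRingHom ℝ)
      ((MeromorphicOn.divisor f (Metric.closedBall c r)).finiteSupport
        (isCompact_closedBall c r))
  rw [hcast]
  refine finsum_le_finsum' ?_ ?_ fun u ↦ ?_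
  · exact (MeromorphicOn.divisor f (Metric.closedBall c r)).finiteSupport
      (isCompact_closedBall ..) |>.subset fun _ _ ↦ (by simp_all)
  · exact (MeromorphicOn.divisor f (Metric.closedBall c |R|)).finiteSupport
      (isCompact_closedBall ..) |>.subset fun _ _ ↦ (by simp_all)
  · by_cases h1 : u ∈ Metric.closedBall c |R|
    · by_cases h2 : u ∈ Metric.closedBall c r
      · rw [MeromorphicOn.AnalyticOnNhd.divisor_apply h₁f h1,
          MeromorphicOn.AnalyticOnNhd.divisor_apply h₂f h2]
        by_cases h3 : u = c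
        · rw [h3, (hf.analyticAt c).analyticOrderAt_eq_zero.mpr hne]
          simp
        · have hpos : 0 < ‖c - u‖ := norm_pos_iff.mpr (sub_ne_zero.mpr (Ne.symm h3))
          have hle : ‖c - u‖ ≤ r := by
            rw [← dist_eq_norm, dist_comm]
            exact h2
          have hlog : 1 ≤ Real.log (R * ‖c - u‖⁻¹) := by
            rw [Real.le_log_iff_exp_le (by positivity), hR, ← div_eq_mul_inv, le_div_iff₀ hpos]
            exact mul_le_mul_of_nonneg_left hle (Real.exp_pos 1).le
          have h0' : (0 : ℤ) ≤ MeromorphicOn.divisor f (Metric.closedBall c |R|) u :=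
            MeromorphicOn.AnalyticOnNhd.divisor_nonneg h₁f u
          rw [MeromorphicOn.AnalyticOnNhd.divisor_apply h₁f h1] at h0'
          have h0 := Int.cast_nonneg (R := ℝ) h0'
          have := mul_le_mul_of_nonneg_left hlog h0
          rw [mul_one] at this
          exact this
      · rw [Function.locallyFinsuppWithin.apply_eq_zero_of_notMem _ h2]
        rw [Int.cast_zero]
        have h0' : (0 : ℤ) ≤ MeromorphicOn.divisor f (Metric.closedBall c |R|) u :=
          MeromorphicOn.AnalyticOnNhd.divisor_nonneg h₁f u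
        refine mul_nonneg (Int.cast_nonneg (R := ℝ) h0') ?_
        rw [Metric.mem_closedBall, dist_comm, dist_eq_norm] at h1 h2
        push Not at h2
        have hpos : 0 < ‖c - u‖ := hr.trans h2
        apply Real.log_nonneg
        rw [← div_eq_mul_inv, one_le_div hpos, ← habsR]
        exact h1
    · have h2 : u ∉ Metric.closedBall c r := by
        intro h
        apply h1
        rw [habsR]
        exact Metric.closedBall_subset_closedBall hrR.le h
      simp [h1, h2]

theorem integral_abs_cos_H1 : ∫ θ in (0 : ℝ)..2 * π, |Real.cos θ| = 4 := by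
  have hc : Continuous fun θ : ℝ => |Real.cos θ| := Real.continuous_cos.abs
  have hpi := Real.pi_pos
  have h1 : ∫ θ in (0 : ℝ)..(π / 2), |Real.cos θ| = 1 := by
    rw [intervalIntegral.integral_congr (g := Real.cos)]
    · rw [integral_cos]
      simp
    · intro θ hθ
      rw [uIcc_of_le (by linarith)] at hθ
      exact abs_of_nonneg (Real.cos_nonneg_of_neg_pi_div_two_le_of_le (by linarith [hθ.1]) hθ.2)
  have h2 : ∫ θ in (π / 2)..(3 * π / 2), |Real.cos θ| = 2 := by
    rw [intervalIntegral.integral_congr (g := fun θ => -Real.cos θ)]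
    · rw [intervalIntegral.integral_neg, integral_cos]
      have e : Real.sin (3 * π / 2) = -1 := by
        rw [show 3 * π / 2 = π / 2 + π by ring, Real.sin_add_pi, Real.sin_pi_div_two]
      rw [e, Real.sin_pi_div_two]
      norm_num
    · intro θ hθ
      rw [uIcc_of_le (by linarith)] at hθ
      exact abs_of_nonpos (Real.cos_nonpos_of_pi_div_two_le_of_le hθ.1 (by linarith [hθ.2]))
  have h3 : ∫ θ in (3 * π / 2)..(2 * π), |Real.cos θ| = 1 := by
    rw [intervalIntegral.integral_congr (g := Real.cos)]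
    · rw [integral_cos]
      have e : Real.sin (3 * π / 2) = -1 := by
        rw [show 3 * π / 2 = π / 2 + π by ring, Real.sin_add_pi, Real.sin_pi_div_two]
      rw [e, Real.sin_two_pi]
      norm_num
    · intro θ hθ
      rw [uIcc_of_le (by linarith)] at hθ
      have : Real.cos θ = Real.cos (θ - 2 * π) := (Real.cos_sub_two_pi θ).symm
      show |Real.cos θ| = Real.cos θ
      rw [this]
      exact abs_of_nonneg (Real.cos_nonneg_of_neg_pi_div_two_le_of_le (by linarith [hθ.1])
        (by linarith [hθ.2]))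
  rw [← intervalIntegral.integral_add_adjacent_intervals (hc.intervalIntegrable 0 (3 * π / 2))
    (hc.intervalIntegrable _ _), ← intervalIntegral.integral_add_adjacent_intervals
    (hc.intervalIntegrable 0 (π / 2)) (hc.intervalIntegrable _ _), h1, h2, h3]
  norm_num

theorem integral_bound_H1 (a b C : ℝ) :
    ∫ θ in (0 : ℝ)..2 * π, C * ((b - a) / 2 * Real.cos θ + (a + b) / 2 * |Real.cos θ|) =
      C * (2 * (a + b)) := by
  rw [intervalIntegral.integral_const_mul, intervalIntegral.integral_add,
    intervalIntegral.integral_const_mul, intervalIntegral.integral_const_mul, integral_abs_cos_H1,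
    integral_cos]
  · rw [Real.sin_two_pi, Real.sin_zero]
    ring
  · exact (Real.continuous_cos.const_mul _).intervalIntegrable _ _
  · exact (Real.continuous_cos.abs.const_mul _).intervalIntegrable _ _

/-- Jensen's bound for the number of zeros in a disc with real centre. -/
theorem zc_le {μ : Measure ℝ} {a b : ℝ} (h : Supp μ a b) (ha : 0 ≤ a) (hb : 0 ≤ b) (ρ : ℝ)
    {r : ℝ} (hr : 0 < r) :
    (zc (JJ μ) (ρ : ℂ) r : ℝ) ≤ Real.exp 1 * (a + b) / π * r := by
  have hJ : 0 < Jr μ ρ := Jr_pos h ρ
  have hk : ((Jr μ ρ : ℝ) : ℂ)⁻¹ ≠ 0 := inv_ne_zero (by exact_mod_cast hJ.ne')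
  have hd := JJ_differentiable h
  rw [← zc_const_mul_H1 hd hk]
  set f : ℂ → ℂ := fun z => ((Jr μ ρ : ℝ) : ℂ)⁻¹ * JJ μ z with hf
  have hfd : Differentiable ℂ f := hd.const_mul _
  have hfc : f ρ = 1 := by
    rw [hf]
    show ((Jr μ ρ : ℝ) : ℂ)⁻¹ * JJ μ ρ = 1
    rw [JJ_ofReal]
    exact inv_mul_cancel₀ (by exact_mod_cast hJ.ne')
  refine (zc_le_circleAverage_H1 hfd hfc hr).trans ?_
  set R : ℝ := Real.exp 1 * r with hR
  have hR0 : 0 < R := mul_pos (Real.exp_pos 1) hr
  -- the pointwise bound
  have hpt : ∀ θ : ℝ, Real.log ‖f (circleMap ρ R θ)‖ ≤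
      R * ((b - a) / 2 * Real.cos θ + (a + b) / 2 * |Real.cos θ|) := by
    intro θ
    have hre : (circleMap (ρ : ℂ) R θ).re = ρ + R * Real.cos θ := by
      simp [circleMap, Complex.exp_re]
    have hnorm : ‖f (circleMap ρ R θ)‖ ≤ Jr μ (ρ + R * Real.cos θ) / Jr μ ρ := by
      rw [hf]
      show ‖((Jr μ ρ : ℝ) : ℂ)⁻¹ * JJ μ (circleMap ρ R θ)‖ ≤ _
      rw [norm_mul, norm_inv, Complex.norm_real, Real.norm_of_nonneg hJ.le, ← hre,
        div_eq_inv_mul]
      exact mul_le_mul_of_nonneg_left (norm_JJ_le h _) (inv_nonneg.mpr hJ.le)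
    have hE : ‖f (circleMap ρ R θ)‖ ≤
        Real.exp (R * ((b - a) / 2 * Real.cos θ + (a + b) / 2 * |Real.cos θ|)) := by
      refine hnorm.trans ?_
      rw [div_le_iff₀ hJ]
      rcases le_total 0 (Real.cos θ) with hc | hc
      · have := Jr_le_right h (x := ρ) (t := R * Real.cos θ) (mul_nonneg hR0.le hc)
        rw [abs_of_nonneg hc]
        refine this.trans (le_of_eq ?_)
        congr 2
        ring
      · have := Jr_le_left h (x := ρ) (t := -(R * Real.cos θ)) (by nlinarith)
        rw [abs_of_nonpos hc]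
        rw [sub_neg_eq_add] at this
        refine this.trans (le_of_eq ?_)
        congr 2
        ring
    have hnn : 0 ≤ R * ((b - a) / 2 * Real.cos θ + (a + b) / 2 * |Real.cos θ|) := by
      apply mul_nonneg hR0.le
      rcases le_total 0 (Real.cos θ) with hc | hc
      · rw [abs_of_nonneg hc]
        nlinarith
      · rw [abs_of_nonpos hc]
        nlinarith
    rcases eq_or_lt_of_le (norm_nonneg (f (circleMap ρ R θ))) with h0 | h0
    · rw [← h0, Real.log_zero]
      exact hnn
    · rw [Real.log_le_iff_le_exp h0]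
      exact hE
  -- integrate
  have hint : CircleIntegrable (fun z => Real.log ‖f z‖) ρ R := by
    have h₁f : AnalyticOnNhd ℂ f (Metric.sphere (ρ : ℂ) |R|) := fun z _ => hfd.analyticAt z
    exact h₁f.meromorphicOn.circleIntegrable_log_norm
  unfold Real.circleAverage
  have hcont : Continuous fun θ : ℝ =>
      R * ((b - a) / 2 * Real.cos θ + (a + b) / 2 * |Real.cos θ|) := by
    fun_prop
  have hmono : ∫ θ in (0 : ℝ)..2 * π, Real.log ‖f (circleMap ρ R θ)‖ ≤
      ∫ θ in (0 : ℝ)..2 * π, R * ((b - a) / 2 * Real.cos θ + (a + b) / 2 * |Real.cos θ|) :=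
    intervalIntegral.integral_mono_on Real.two_pi_pos.le hint (hcont.intervalIntegrable _ _)
      (fun θ _ => hpt θ)
  rw [integral_bound_H1] at hmono
  rw [smul_eq_mul]
  have hpi := Real.pi_pos
  calc (2 * π)⁻¹ * ∫ θ in (0 : ℝ)..2 * π, Real.log ‖f (circleMap ρ R θ)‖
      ≤ (2 * π)⁻¹ * (R * (2 * (a + b))) :=
        mul_le_mul_of_nonneg_left hmono (by positivity)
    _ = Real.exp 1 * (a + b) / π * r := by
        rw [hR]
        field_simp

end

end Pool.Agent.Lib_MP_1dbf07_co
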