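import Pool.Agent.Lib_MP_1dbf07_co.Defs

namespace Pool.Agent.Lib_MP_1dbf07_co

open MeasureTheory Set Filter Topology
open scoped Real Nat PowerSeries

noncomputable section

namespace M1

theorem D_pos {q : ℝ} (hq : 0 ≤ q) (hq1 : q < 1) (θ : ℝ) :
    0 < 1 + q ^ 2 + 2 * q * Real.cos θ := by
  nlinarith [Real.neg_one_le_cos θ, Real.cos_le_one θ, mul_nonneg hq
    (by linarith [Real.neg_one_le_cos θ] : (0 : ℝ) ≤ 1 + Real.cos θ), sq_pos_of_pos
    (by linarith : (0 : ℝ) < 1 - q)]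

theorem E_pos {q : ℝ} (hq : 0 ≤ q) (hq1 : q < 1) (θ : ℝ) : 0 < 1 + q * Real.cos θ := by
  nlinarith [Real.neg_one_le_cos θ]

theorem deriv_F {q : ℝ} (hq : 0 < q) (hq1 : q < 1) (θ : ℝ) :
    HasDerivAt (fun θ => (2 * q ^ 2 * θ - 2 * q * Real.sin θ
        + 2 * (1 - q ^ 2) * Real.arctan (q * Real.sin θ / (1 + q * Real.cos θ))) / (4 * q ^ 2))
      (Real.sin θ ^ 2 / (1 + q ^ 2 + 2 * q * Real.cos θ)) θ := by
  have hD := D_pos hq.le hq1 θ
  have hE := E_pos hq.le hq1 θ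
  have h1 : HasDerivAt (fun θ => q * Real.sin θ / (1 + q * Real.cos θ))
      ((q * Real.cos θ * (1 + q * Real.cos θ) - q * Real.sin θ * (q * -Real.sin θ))
        / (1 + q * Real.cos θ) ^ 2) θ := by
    apply HasDerivAt.div
    · exact (Real.hasDerivAt_sin θ).const_mul q
    · exact ((Real.hasDerivAt_cos θ).const_mul q).const_add 1
    · exact hE.ne'
  have h2 := h1.arctan
  have h3 := (((hasDerivAt_id θ).const_mul (2 * q ^ 2)).sub
    ((Real.hasDerivAt_sin θ).const_mul (2 * q))).add (h2.const_mul (2 * (1 - q ^ 2)))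
  have h4 := h3.div_const (4 * q ^ 2)
  refine h4.congr_deriv ?_
  have hs : Real.sin θ ^ 2 = 1 - Real.cos θ ^ 2 := by
    have := Real.sin_sq_add_cos_sq θ
    linarith
  have h5 : 1 + (q * Real.sin θ / (1 + q * Real.cos θ)) ^ 2
      = (1 + q ^ 2 + 2 * q * Real.cos θ) / (1 + q * Real.cos θ) ^ 2 := by
    field_simp
    rw [hs]
    ring
  have h6 : (q * Real.cos θ * (1 + q * Real.cos θ) - q * Real.sin θ * (q * -Real.sin θ))
      = q * Real.cos θ + q ^ 2 := by
    have : q * Real.sin θ * (q * -Real.sin θ) = - (q ^ 2 * Real.sin θ ^ 2) := by ring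
    rw [this, hs]
    ring
  rw [h5, h6, hs]
  field_simp
  ring

theorem int_lt {q : ℝ} (hq : 0 < q) (hq1 : q < 1) :
    ∫ θ in (0 : ℝ)..π, Real.sin θ ^ 2 / (1 + q ^ 2 + 2 * q * Real.cos θ) = π / 2 := by
  have hcont : Continuous (fun θ => Real.sin θ ^ 2 / (1 + q ^ 2 + 2 * q * Real.cos θ)) := by
    apply Continuous.div
    · fun_prop
    · fun_prop
    · exact fun θ => (D_pos hq.le hq1 θ).ne'
  rw [intervalIntegral.integral_eq_sub_of_hasDerivAt (fun θ _ => deriv_F hq hq1 θ)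
    (hcont.intervalIntegrable _ _)]
  rw [Real.sin_pi, Real.sin_zero]
  simp only [mul_zero, zero_div, Real.arctan_zero, sub_zero, add_zero]
  field_simp
  ring

theorem int_zero : ∫ θ in (0 : ℝ)..π, Real.sin θ ^ 2 = π / 2 := by
  rw [integral_sin_sq]
  simp

theorem int_one :
    ∫ θ in (0 : ℝ)..π, Real.sin θ ^ 2 / (1 + 1 ^ 2 + 2 * 1 * Real.cos θ) = π / 2 := by
  have h1 : ∫ θ in (0 : ℝ)..π, Real.sin θ ^ 2 / (1 + 1 ^ 2 + 2 * 1 * Real.cos θ)
      = ∫ θ in (0 : ℝ)..π, (1 - Real.cos θ) / 2 := by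
    rw [intervalIntegral.integral_of_le Real.pi_pos.le, intervalIntegral.integral_of_le
      Real.pi_pos.le, integral_Ioc_eq_integral_Ioo, integral_Ioc_eq_integral_Ioo]
    refine setIntegral_congr_fun measurableSet_Ioo (fun θ hθ => ?_)
    have hc : 0 < 1 + Real.cos θ := by
      have h := Real.cos_lt_cos_of_nonneg_of_le_pi hθ.1.le le_rfl hθ.2
      rw [Real.cos_pi] at h
      linarith
    have hs : Real.sin θ ^ 2 = 1 - Real.cos θ ^ 2 := by
      have := Real.sin_sq_add_cos_sq θ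
      linarith
    show Real.sin θ ^ 2 / (1 + 1 ^ 2 + 2 * 1 * Real.cos θ) = (1 - Real.cos θ) / 2
    rw [hs]
    have : (1 + 1 ^ 2 + 2 * 1 * Real.cos θ) = 2 * (1 + Real.cos θ) := by ring
    rw [this]
    field_simp
    ring
  rw [h1]
  rw [intervalIntegral.integral_div, intervalIntegral.integral_sub]
  · simp
  · exact (continuous_const).intervalIntegrable _ _
  · exact Real.continuous_cos.intervalIntegrable _ _

end M1

/-- The basic integral. -/
theorem base_int {q : ℝ} (hq : 0 ≤ q) :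
    ∫ θ in (0 : ℝ)..π, Real.sin θ ^ 2 / (1 + q ^ 2 + 2 * q * Real.cos θ)
      = π / (2 * max 1 (q ^ 2)) := by
  rcases hq.eq_or_lt with rfl | hq0
  · have : ∀ θ : ℝ, Real.sin θ ^ 2 / (1 + (0 : ℝ) ^ 2 + 2 * 0 * Real.cos θ) = Real.sin θ ^ 2 := by
      intro θ
      norm_num
    simp only [this]
    rw [M1.int_zero]
    norm_num
  rcases lt_trichotomy q 1 with h | rfl | h
  · rw [M1.int_lt hq0 h, max_eq_left (by nlinarith)]
    norm_num
  · rw [M1.int_one]
    norm_num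
  · have hp0 : 0 < 1 / q := by positivity
    have hp1 : 1 / q < 1 := by rw [div_lt_one hq0]; exact h
    have h1 := M1.int_lt hp0 hp1
    have h2 : ∀ θ : ℝ, Real.sin θ ^ 2 / (1 + q ^ 2 + 2 * q * Real.cos θ)
        = (1 / q ^ 2) * (Real.sin θ ^ 2 / (1 + (1 / q) ^ 2 + 2 * (1 / q) * Real.cos θ)) := by
      intro θ
      have hD := M1.D_pos hp0.le hp1 θ
      have h3 : (1 + q ^ 2 + 2 * q * Real.cos θ)
          = q ^ 2 * (1 + (1 / q) ^ 2 + 2 * (1 / q) * Real.cos θ) := by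
        field_simp
        ring
      rw [h3, div_mul_div_comm, one_mul]
    simp only [h2]
    rw [intervalIntegral.integral_const_mul, h1, max_eq_right (by nlinarith)]
    field_simp

end

end Pool.Agent.Lib_MP_1dbf07_co
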