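import Pool.Agent.Lib_MP_1dbf07_co.M1

namespace Pool.Agent.Lib_MP_1dbf07_co

open MeasureTheory Set Filter Topology
open scoped Real Nat PowerSeries

noncomputable section

namespace M2

/-- The terms of the sum `Sq`. -/
def ta (q : ℝ) (j l : ℕ) : ℝ :=
  (-q) ^ j * ((j : ℕ) + 1 : ℝ) * ((j + 2 * l)! : ℝ) / (2 ^ (j + 2 * l) * (l ! : ℝ) * ((j + 1 + l)! : ℝ))

theorem Sq_eq (q : ℝ) (n : ℕ) : Sq q n = ∑ l ∈ Finset.range (n / 2 + 1), ta q (n - 2 * l) l := by
  unfold Sq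
  refine Finset.sum_congr rfl (fun l hl => ?_)
  rw [Finset.mem_range] at hl
  unfold ta
  have h : n - 2 * l + 2 * l = n := by omega
  rw [h]

theorem ta_zero (q : ℝ) (j : ℕ) : 2 * q * ta q (j + 1) 0 + q ^ 2 * ta q j 0 = 0 := by
  unfold ta
  simp only [mul_zero, add_zero, Nat.factorial_zero]
  rw [Nat.factorial_succ (j + 1), Nat.factorial_succ j]
  have h1 : ((j ! : ℕ) : ℝ) ≠ 0 := by exact_mod_cast (Nat.factorial_pos j).ne'
  push_cast
  field_simp
  ring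

theorem ta_step (q : ℝ) (j l : ℕ) :
    2 * q * ta q (j + 1) (l + 1) + q ^ 2 * ta q j (l + 1) + ta q (j + 2) l = 0 := by
  unfold ta
  have e1 : j + 1 + 2 * (l + 1) = (j + 2 * l + 2) + 1 := by ring
  have e2 : j + 2 * (l + 1) = j + 2 * l + 2 := by ring
  have e3 : j + 2 + 2 * l = j + 2 * l + 2 := by ring
  have e4 : j + 1 + 1 + (l + 1) = (j + l + 2) + 1 := by ring
  have e5 : j + 1 + (l + 1) = j + l + 2 := by ring
  have e6 : j + 2 + 1 + l = (j + l + 2) + 1 := by ring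
  rw [e1, e2, e3, e4, e5, e6, Nat.factorial_succ (j + 2 * l + 2), Nat.factorial_succ (j + l + 2),
    Nat.factorial_succ l]
  have h1 : (((j + 2 * l + 2)! : ℕ) : ℝ) ≠ 0 := by exact_mod_cast (Nat.factorial_pos _).ne'
  have h2 : (((j + l + 2)! : ℕ) : ℝ) ≠ 0 := by exact_mod_cast (Nat.factorial_pos _).ne'
  have h3 : ((l ! : ℕ) : ℝ) ≠ 0 := by exact_mod_cast (Nat.factorial_pos _).ne'
  push_cast
  field_simp
  ring

theorem ta_last (q : ℝ) (m : ℕ) : 2 * q * ta q 0 (m + 1) + ta q 1 m = 0 := by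
  unfold ta
  have e1 : 0 + 2 * (m + 1) = (2 * m + 1) + 1 := by ring
  have e2 : 1 + 2 * m = 2 * m + 1 := by ring
  have e3 : 0 + 1 + (m + 1) = m + 2 := by ring
  have e4 : 1 + 1 + m = m + 2 := by ring
  rw [e1, e2, e3, e4, Nat.factorial_succ (2 * m + 1), Nat.factorial_succ m]
  have h1 : (((2 * m + 1)! : ℕ) : ℝ) ≠ 0 := by exact_mod_cast (Nat.factorial_pos _).ne'
  have h2 : (((m + 2)! : ℕ) : ℝ) ≠ 0 := by exact_mod_cast (Nat.factorial_pos _).ne'
  have h3 : ((m ! : ℕ) : ℝ) ≠ 0 := by exact_mod_cast (Nat.factorial_pos _).ne'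
  push_cast
  field_simp
  ring

theorem rec_even (q : ℝ) (m : ℕ) :
    (1 + q ^ 2) * Sq q (2 * m) + 2 * q * Sq q (2 * m + 1) = ta 0 0 m := by
  have e1 : 2 * m / 2 + 1 = m + 1 := by omega
  have e2 : (2 * m + 1) / 2 + 1 = m + 1 := by omega
  have hA : Sq q (2 * m) = ∑ l ∈ Finset.range m, ta q (2 * m - 2 * (l + 1)) (l + 1)
      + ta q (2 * m) 0 := by
    rw [Sq_eq, e1, Finset.sum_range_succ']
    simp
  have hB : Sq q (2 * m) = ∑ l ∈ Finset.range m, ta q (2 * m - 2 * l) l + ta q 0 m := by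
    rw [Sq_eq, e1, Finset.sum_range_succ]
    simp
  have hC : Sq q (2 * m + 1) = ∑ l ∈ Finset.range m, ta q (2 * m + 1 - 2 * (l + 1)) (l + 1)
      + ta q (2 * m + 1) 0 := by
    rw [Sq_eq, e2, Finset.sum_range_succ']
    simp
  have h0 : ta q 0 m = ta 0 0 m := by
    unfold ta
    simp
  have hsum : ∑ l ∈ Finset.range m, (2 * q * ta q (2 * m + 1 - 2 * (l + 1)) (l + 1)
      + q ^ 2 * ta q (2 * m - 2 * (l + 1)) (l + 1) + ta q (2 * m - 2 * l) l) = 0 := by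
    refine Finset.sum_eq_zero (fun l hl => ?_)
    rw [Finset.mem_range] at hl
    have f1 : 2 * m + 1 - 2 * (l + 1) = (2 * m - 2 * (l + 1)) + 1 := by omega
    have f2 : 2 * m - 2 * l = (2 * m - 2 * (l + 1)) + 2 := by omega
    rw [f1, f2]
    exact ta_step q _ l
  rw [Finset.sum_add_distrib, Finset.sum_add_distrib, ← Finset.mul_sum, ← Finset.mul_sum] at hsum
  have hz := ta_zero q (2 * m)
  have : (1 + q ^ 2) * Sq q (2 * m) = q ^ 2 * Sq q (2 * m) + Sq q (2 * m) := by ring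
  rw [this]
  nth_rewrite 1 [hA]
  rw [hB, hC, h0]
  linear_combination hsum + hz

theorem rec_odd (q : ℝ) (m : ℕ) :
    (1 + q ^ 2) * Sq q (2 * m + 1) + 2 * q * Sq q (2 * m + 1 + 1) = 0 := by
  have e1 : (2 * m + 1) / 2 + 1 = m + 1 := by omega
  have e2 : (2 * m + 1 + 1) / 2 + 1 = (m + 1) + 1 := by omega
  have hA : Sq q (2 * m + 1) = ∑ l ∈ Finset.range m, ta q (2 * m + 1 - 2 * (l + 1)) (l + 1)
      + ta q (2 * m + 1) 0 := by
    rw [Sq_eq, e1, Finset.sum_range_succ']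
    simp
  have hB : Sq q (2 * m + 1) = ∑ l ∈ Finset.range m, ta q (2 * m + 1 - 2 * l) l + ta q 1 m := by
    rw [Sq_eq, e1, Finset.sum_range_succ]
    congr 2
    omega
  have hC : Sq q (2 * m + 1 + 1) = ∑ l ∈ Finset.range m, ta q (2 * m + 2 - 2 * (l + 1)) (l + 1)
      + ta q 0 (m + 1) + ta q (2 * m + 2) 0 := by
    rw [Sq_eq, e2, Finset.sum_range_succ', Finset.sum_range_succ]
    congr 3
    omega
  have hsum : ∑ l ∈ Finset.range m, (2 * q * ta q (2 * m + 2 - 2 * (l + 1)) (l + 1)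
      + q ^ 2 * ta q (2 * m + 1 - 2 * (l + 1)) (l + 1) + ta q (2 * m + 1 - 2 * l) l) = 0 := by
    refine Finset.sum_eq_zero (fun l hl => ?_)
    rw [Finset.mem_range] at hl
    have f1 : 2 * m + 2 - 2 * (l + 1) = (2 * m + 1 - 2 * (l + 1)) + 1 := by omega
    have f2 : 2 * m + 1 - 2 * l = (2 * m + 1 - 2 * (l + 1)) + 2 := by omega
    rw [f1, f2]
    exact ta_step q _ l
  rw [Finset.sum_add_distrib, Finset.sum_add_distrib, ← Finset.mul_sum, ← Finset.mul_sum] at hsum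
  have hz := ta_zero q (2 * m + 1)
  have hl := ta_last q m
  have : (1 + q ^ 2) * Sq q (2 * m + 1) = q ^ 2 * Sq q (2 * m + 1) + Sq q (2 * m + 1) := by ring
  rw [this]
  nth_rewrite 1 [hA]
  rw [hB, hC]
  linear_combination hsum + hz + hl

/-- The integral of `sin² cosⁿ`. -/
def TT (n : ℕ) : ℝ := 2 / π * ∫ θ in (0 : ℝ)..π, Real.sin θ ^ 2 * Real.cos θ ^ n

theorem cos_pow_int (n : ℕ) : IntervalIntegrable (fun θ => Real.cos θ ^ n) volume 0 π :=
  (Real.continuous_cos.pow n).intervalIntegrable _ _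

theorem TT_eq (n : ℕ) : TT n = 2 / π * ((∫ θ in (0 : ℝ)..π, Real.cos θ ^ n)
    - ∫ θ in (0 : ℝ)..π, Real.cos θ ^ (n + 2)) := by
  unfold TT
  rw [← intervalIntegral.integral_sub (cos_pow_int n) (cos_pow_int (n + 2))]
  congr 1
  refine intervalIntegral.integral_congr (fun θ _ => ?_)
  show Real.sin θ ^ 2 * Real.cos θ ^ n = Real.cos θ ^ n - Real.cos θ ^ (n + 2)
  have := Real.sin_sq_add_cos_sq θ
  have hs : Real.sin θ ^ 2 = 1 - Real.cos θ ^ 2 := by linarith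
  rw [hs]
  ring

theorem W_rec (n : ℕ) : ∫ θ in (0 : ℝ)..π, Real.cos θ ^ (n + 2)
    = ((n : ℝ) + 1) / (n + 2) * ∫ θ in (0 : ℝ)..π, Real.cos θ ^ n := by
  rw [integral_cos_pow, Real.sin_pi, Real.sin_zero]
  ring

theorem W_even (m : ℕ) : ∫ θ in (0 : ℝ)..π, Real.cos θ ^ (2 * m)
    = π / 2 * (2 * m + 2) * ta 0 0 m := by
  induction m with
  | zero =>
    unfold ta
    simp
  | succ m ih =>
    have e : 2 * (m + 1) = 2 * m + 2 := by ring
    rw [e, W_rec, ih]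
    unfold ta
    have e1 : 0 + 2 * (m + 1) = (2 * m + 1) + 1 := by ring
    have e2 : 0 + 2 * m = 2 * m := by ring
    have e3 : 0 + 1 + (m + 1) = (m + 1) + 1 := by ring
    have e4 : 0 + 1 + m = m + 1 := by ring
    rw [e1, e2, e3, e4, Nat.factorial_succ (2 * m + 1), Nat.factorial_succ (2 * m),
      Nat.factorial_succ (m + 1), Nat.factorial_succ m]
    have h1 : (((2 * m)! : ℕ) : ℝ) ≠ 0 := by exact_mod_cast (Nat.factorial_pos _).ne'
    have h3 : ((m ! : ℕ) : ℝ) ≠ 0 := by exact_mod_cast (Nat.factorial_pos _).ne'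
    push_cast
    field_simp
    ring

theorem W_odd (m : ℕ) : ∫ θ in (0 : ℝ)..π, Real.cos θ ^ (2 * m + 1) = 0 := by
  induction m with
  | zero => simp
  | succ m ih =>
    have e : 2 * (m + 1) + 1 = (2 * m + 1) + 2 := by ring
    rw [e, W_rec, ih, mul_zero]

theorem TT_even (m : ℕ) : TT (2 * m) = ta 0 0 m := by
  rw [TT_eq, W_rec, W_even]
  have hpi := Real.pi_pos
  push_cast
  field_simp
  ring

theorem TT_odd (m : ℕ) : TT (2 * m + 1) = 0 := by
  rw [TT_eq, W_rec, W_odd]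
  simp

theorem Sq_rec (q : ℝ) (n : ℕ) : (1 + q ^ 2) * Sq q n + 2 * q * Sq q (n + 1) = TT n := by
  rcases Nat.even_or_odd' n with ⟨m, rfl | rfl⟩
  · rw [rec_even, TT_even]
  · rw [rec_odd, TT_odd]

theorem D_nonneg {q : ℝ} (hq : 0 ≤ q) (θ : ℝ) : 0 ≤ 1 + q ^ 2 + 2 * q * Real.cos θ := by
  nlinarith [Real.neg_one_le_cos θ, mul_nonneg hq
    (by linarith [Real.neg_one_le_cos θ] : (0 : ℝ) ≤ 1 + Real.cos θ), sq_nonneg (1 - q)]

theorem ratio_nonneg {q : ℝ} (hq : 0 ≤ q) (θ : ℝ) :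
    0 ≤ Real.sin θ ^ 2 / (1 + q ^ 2 + 2 * q * Real.cos θ) :=
  div_nonneg (sq_nonneg _) (D_nonneg hq θ)

theorem ratio_le {q : ℝ} (hq : 0 ≤ q) (θ : ℝ) :
    Real.sin θ ^ 2 / (1 + q ^ 2 + 2 * q * Real.cos θ) ≤ 1 := by
  apply div_le_one_of_le₀ _ (D_nonneg hq θ)
  have := Real.sin_sq_add_cos_sq θ
  nlinarith [sq_nonneg (q + Real.cos θ)]

theorem ratio_int {q : ℝ} (hq : 0 ≤ q) (n : ℕ) : IntervalIntegrable
    (fun θ => Real.sin θ ^ 2 * Real.cos θ ^ n / (1 + q ^ 2 + 2 * q * Real.cos θ)) volume 0 π := by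
  rw [intervalIntegrable_iff]
  apply Measure.integrableOn_of_bounded (M := 1)
  · simp
  · exact Measurable.aestronglyMeasurable (by fun_prop)
  · refine Filter.Eventually.of_forall (fun θ => ?_)
    have e : Real.sin θ ^ 2 * Real.cos θ ^ n / (1 + q ^ 2 + 2 * q * Real.cos θ)
        = Real.sin θ ^ 2 / (1 + q ^ 2 + 2 * q * Real.cos θ) * Real.cos θ ^ n := by ring
    rw [e, norm_mul, Real.norm_eq_abs, abs_of_nonneg (ratio_nonneg hq θ), norm_pow]
    refine mul_le_one₀ (ratio_le hq θ) (by positivity) ?_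
    exact pow_le_one₀ (norm_nonneg _) (Real.abs_cos_le_one θ)

theorem Iq_rec {q : ℝ} (hq : 0 < q) (n : ℕ) :
    (1 + q ^ 2) * Iq q n + 2 * q * Iq q (n + 1) = TT n := by
  unfold Iq TT
  have h1 : (1 + q ^ 2) * (∫ θ in (0 : ℝ)..π,
        Real.sin θ ^ 2 * Real.cos θ ^ n / (1 + q ^ 2 + 2 * q * Real.cos θ))
      + 2 * q * (∫ θ in (0 : ℝ)..π,
        Real.sin θ ^ 2 * Real.cos θ ^ (n + 1) / (1 + q ^ 2 + 2 * q * Real.cos θ))
      = ∫ θ in (0 : ℝ)..π, Real.sin θ ^ 2 * Real.cos θ ^ n := by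
    rw [← intervalIntegral.integral_const_mul, ← intervalIntegral.integral_const_mul,
      ← intervalIntegral.integral_add ((ratio_int hq.le n).const_mul _)
        ((ratio_int hq.le (n + 1)).const_mul _)]
    rw [intervalIntegral.integral_of_le Real.pi_pos.le, intervalIntegral.integral_of_le
      Real.pi_pos.le, integral_Ioc_eq_integral_Ioo, integral_Ioc_eq_integral_Ioo]
    refine setIntegral_congr_fun measurableSet_Ioo (fun θ hθ => ?_)
    have hc : 0 < 1 + Real.cos θ := by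
      have h := Real.cos_lt_cos_of_nonneg_of_le_pi hθ.1.le le_rfl hθ.2
      rw [Real.cos_pi] at h
      linarith
    have hD : 1 + q ^ 2 + 2 * q * Real.cos θ ≠ 0 := by
      have : 0 < 1 + q ^ 2 + 2 * q * Real.cos θ := by
        nlinarith [mul_pos hq hc, sq_nonneg (1 - q)]
      exact this.ne'
    show (1 + q ^ 2) * (Real.sin θ ^ 2 * Real.cos θ ^ n / (1 + q ^ 2 + 2 * q * Real.cos θ))
      + 2 * q * (Real.sin θ ^ 2 * Real.cos θ ^ (n + 1) / (1 + q ^ 2 + 2 * q * Real.cos θ))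
      = Real.sin θ ^ 2 * Real.cos θ ^ n
    have e : (1 + q ^ 2) * (Real.sin θ ^ 2 * Real.cos θ ^ n / (1 + q ^ 2 + 2 * q * Real.cos θ))
      + 2 * q * (Real.sin θ ^ 2 * Real.cos θ ^ (n + 1) / (1 + q ^ 2 + 2 * q * Real.cos θ))
      = (1 + q ^ 2 + 2 * q * Real.cos θ) / (1 + q ^ 2 + 2 * q * Real.cos θ)
        * (Real.sin θ ^ 2 * Real.cos θ ^ n) := by ring
    rw [e, div_self hD, one_mul]
  have h2 : (1 + q ^ 2) * (if 1 < q then (1 - 1 / q ^ 2) * (-(q + 1 / q) / 2) ^ n else 0)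
      + 2 * q * (if 1 < q then (1 - 1 / q ^ 2) * (-(q + 1 / q) / 2) ^ (n + 1) else 0) = 0 := by
    split_ifs
    · have e : (1 + q ^ 2) * ((1 - 1 / q ^ 2) * (-(q + 1 / q) / 2) ^ n)
          + 2 * q * ((1 - 1 / q ^ 2) * (-(q + 1 / q) / 2) ^ (n + 1))
          = (1 - 1 / q ^ 2) * (-(q + 1 / q) / 2) ^ n * (1 + q ^ 2 + 2 * q * (-(q + 1 / q) / 2)) := by
        ring
      have e2 : 1 + q ^ 2 + 2 * q * (-(q + 1 / q) / 2) = 0 := by
        field_simp
        ring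
      rw [e, e2, mul_zero]
    · simp
  rw [← h1]
  linear_combination h2

theorem Iq_zero {q : ℝ} (hq : 0 ≤ q) : Iq q 0 = 1 := by
  unfold Iq
  simp only [pow_zero, mul_one]
  rw [base_int hq]
  have hpi := Real.pi_pos
  split_ifs with h
  · rw [max_eq_right (by nlinarith)]
    field_simp
    ring
  · rw [max_eq_left (by nlinarith)]
    field_simp
    norm_num

theorem Sq_zero (q : ℝ) : Sq q 0 = 1 := by
  unfold Sq
  simp

end M2

/-- The functional `I_q` on powers. -/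
theorem Iq_eq_Sq {q : ℝ} (hq : 0 ≤ q) (n : ℕ) : Iq q n = Sq q n := by
  rcases hq.eq_or_lt with rfl | hq0
  · have h1 := M2.Sq_rec 0 n
    have h2 : Iq 0 n = M2.TT n := by
      unfold Iq M2.TT
      simp
    rw [h2, ← h1]
    ring
  · induction n with
    | zero => rw [M2.Iq_zero hq, M2.Sq_zero]
    | succ n ih =>
      have h1 := M2.Sq_rec q n
      have h2 := M2.Iq_rec hq0 n
      rw [ih] at h2
      have h3 : 2 * q * (Iq q (n + 1) - Sq q (n + 1)) = 0 := by linear_combination h2 - h1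
      have h4 := (mul_eq_zero.1 h3).resolve_left (by positivity)
      linarith

end

end Pool.Agent.Lib_MP_1dbf07_co
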