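import Pool.Agent.Lib_MP_1dbf07_co.M2

namespace Pool.Agent.Lib_MP_1dbf07_co

open MeasureTheory Set Filter Topology
open scoped Real Nat PowerSeries

noncomputable section

namespace M3

theorem tau_sq {τ : ℝ} (h0 : 0 ≤ τ) (h1 : τ < √2) : τ ^ 2 < 2 := by
  have h2 : (√2) ^ 2 = 2 := Real.sq_sqrt (by norm_num)
  nlinarith [Real.sqrt_nonneg 2]

theorem tau_lt {τ : ℝ} (h0 : 0 ≤ τ) (h1 : τ < √2) : τ < 3 / 2 := by
  nlinarith [tau_sq h0 h1]

theorem E_ge {τ : ℝ} (h0 : 0 ≤ τ) (θ : ℝ) :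
    (1 - τ / 2) ^ 2 ≤ 1 + τ ^ 2 / 4 + τ * Real.cos θ := by
  nlinarith [mul_nonneg h0 (by linarith [Real.neg_one_le_cos θ] : (0 : ℝ) ≤ 1 + Real.cos θ)]

theorem E_pos {τ : ℝ} (h0 : 0 ≤ τ) (h1 : τ < √2) (θ : ℝ) :
    0 < 1 + τ ^ 2 / 4 + τ * Real.cos θ := by
  have := E_ge h0 θ
  have h2 := tau_lt h0 h1
  nlinarith

theorem dens_eq (τ θ : ℝ) : dens τ θ = (2 - τ ^ 2) / π *
    (Real.sin θ ^ 2 / (1 + τ ^ 2 + 2 * τ * Real.cos θ)) / (1 + τ ^ 2 / 4 + τ * Real.cos θ) := by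
  unfold dens
  rw [← div_div, mul_div_assoc]

theorem dens_nn {τ : ℝ} (h0 : 0 ≤ τ) (h1 : τ < √2) (θ : ℝ) : 0 ≤ dens τ θ := by
  rw [dens_eq]
  apply div_nonneg _ (E_pos h0 h1 θ).le
  apply mul_nonneg _ (M2.ratio_nonneg h0 θ)
  exact div_nonneg (by linarith [tau_sq h0 h1]) Real.pi_pos.le

theorem dens_le {τ : ℝ} (h0 : 0 ≤ τ) (h1 : τ < √2) (θ : ℝ) :
    dens τ θ ≤ (2 - τ ^ 2) / π / (1 - τ / 2) ^ 2 := by
  have h2 : 0 ≤ (2 - τ ^ 2) / π := div_nonneg (by linarith [tau_sq h0 h1]) Real.pi_pos.le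
  rw [dens_eq]
  have h3 := tau_lt h0 h1
  have h4 : 0 < (1 - τ / 2) ^ 2 := by
    apply pow_pos
    linarith
  apply div_le_div₀ h2 _ h4 (E_ge h0 θ)
  calc (2 - τ ^ 2) / π * (Real.sin θ ^ 2 / (1 + τ ^ 2 + 2 * τ * Real.cos θ))
      ≤ (2 - τ ^ 2) / π * 1 := mul_le_mul_of_nonneg_left (M2.ratio_le h0 θ) h2
    _ = (2 - τ ^ 2) / π := mul_one _

theorem dens_meas (τ : ℝ) : Measurable (dens τ) := by
  unfold dens
  fun_prop

theorem dens_io {τ : ℝ} (h0 : 0 ≤ τ) (h1 : τ < √2) :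
    IntegrableOn (dens τ) (Ioo 0 π) := by
  refine Measure.integrableOn_of_bounded (M := (2 - τ ^ 2) / π / (1 - τ / 2) ^ 2) (by simp)
    (dens_meas τ).aestronglyMeasurable ?_
  refine Filter.Eventually.of_forall (fun θ => ?_)
  rw [Real.norm_eq_abs, abs_of_nonneg (dens_nn h0 h1 θ)]
  exact dens_le h0 h1 θ

theorem atom_le {τ : ℝ} (h1 : 1 < τ) : atomLoc τ ≤ -1 := by
  unfold atomLoc
  have h2 : 0 < τ := by linarith
  have h3 : 2 ≤ τ + 1 / τ := by
    have : τ + 1 / τ - 2 = (τ - 1) ^ 2 / τ := by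
      field_simp
      ring
    have h4 : 0 ≤ (τ - 1) ^ 2 / τ := by positivity
    linarith
  linarith

theorem atomMass_nonneg (τ : ℝ) : 0 ≤ atomMass τ := by
  unfold atomMass
  split_ifs with h
  · have h2 : 1 ≤ τ ^ 2 := by nlinarith
    have h3 : 2 / τ ^ 2 ≤ 2 := by
      rw [div_le_iff₀ (by linarith)]
      nlinarith
    linarith
  · exact le_refl _

end M3

theorem dens_nonneg {τ : ℝ} (h0 : 0 ≤ τ) (h1 : τ < √2) {θ : ℝ} (hθ : θ ∈ Ioo 0 π) :
    0 ≤ dens τ θ := M3.dens_nn h0 h1 θ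

theorem dens_integrable {τ : ℝ} (h0 : 0 ≤ τ) (h1 : τ < √2) :
    IntegrableOn (dens τ) (Ioo 0 π) := M3.dens_io h0 h1

/-- Integration against `P_τ`. -/
theorem Pm_integral {τ : ℝ} (h0 : 0 ≤ τ) (h1 : τ < √2) {g : ℝ → ℝ} (hg : Continuous g) :
    Integrable g (Pm τ) ∧
      ∫ u, g u ∂(Pm τ) = atomMass τ * g (atomLoc τ)
        + ∫ θ in Ioo 0 π, dens τ θ * g (Real.cos θ) := by
  have hI1 : Integrable g (ENNReal.ofReal (atomMass τ) • Measure.dirac (atomLoc τ)) := by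
    apply Integrable.smul_measure _ ENNReal.ofReal_ne_top
    exact integrable_dirac (by finiteness)
  have hgc : Continuous (fun θ => g (Real.cos θ)) := hg.comp Real.continuous_cos
  have hbd : ∃ C : ℝ, ∀ θ : ℝ, ‖g (Real.cos θ)‖ ≤ C := by
    obtain ⟨C, hC⟩ := (isCompact_Icc (a := (-1 : ℝ)) (b := 1)).exists_bound_of_continuousOn
      hg.continuousOn
    exact ⟨C, fun θ => hC _ ⟨Real.neg_one_le_cos θ, Real.cos_le_one θ⟩⟩
  obtain ⟨C, hC⟩ := hbd
  have hprod : IntegrableOn (fun θ => dens τ θ * g (Real.cos θ)) (Ioo 0 π) := by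
    refine Integrable.mul_bdd (c := C) (M3.dens_io h0 h1) hgc.aestronglyMeasurable ?_
    exact Filter.Eventually.of_forall hC
  have hmeas : Measurable (fun θ => ENNReal.ofReal (dens τ θ)) :=
    (M3.dens_meas τ).ennreal_ofReal
  have htR : ∀ θ, (ENNReal.ofReal (dens τ θ)).toReal = dens τ θ := fun θ =>
    ENNReal.toReal_ofReal (M3.dens_nn h0 h1 θ)
  have hI2' : Integrable (fun θ => g (Real.cos θ)) ((volume.restrict (Ioo 0 π)).withDensity
      (fun θ => ENNReal.ofReal (dens τ θ))) := by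
    rw [integrable_withDensity_iff hmeas (Filter.Eventually.of_forall (fun θ =>
      ENNReal.ofReal_lt_top))]
    refine hprod.congr (Filter.Eventually.of_forall (fun θ => ?_))
    show dens τ θ * g (Real.cos θ) = g (Real.cos θ) * (ENNReal.ofReal (dens τ θ)).toReal
    rw [htR, mul_comm]
  have hI2 : Integrable g (((volume.restrict (Ioo 0 π)).withDensity
      (fun θ => ENNReal.ofReal (dens τ θ))).map Real.cos) := by
    rw [integrable_map_measure hg.aestronglyMeasurable Real.measurable_cos.aemeasurable]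
    exact hI2'
  refine ⟨hI1.add_measure hI2, ?_⟩
  unfold Pm
  rw [integral_add_measure hI1 hI2]
  congr 1
  · rw [integral_smul_measure, integral_dirac, ENNReal.toReal_ofReal (M3.atomMass_nonneg τ),
      smul_eq_mul]
  · rw [integral_map Real.measurable_cos.aemeasurable hg.aestronglyMeasurable]
    rw [integral_withDensity_eq_integral_toReal_smul hmeas (Filter.Eventually.of_forall (fun θ =>
      ENNReal.ofReal_lt_top))]
    refine integral_congr_ae (Filter.Eventually.of_forall (fun θ => ?_))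
    show (ENNReal.ofReal (dens τ θ)).toReal • g (Real.cos θ) = dens τ θ * g (Real.cos θ)
    rw [htR, smul_eq_mul]

/-- The support of `P_τ`. -/
theorem Pm_supp {τ : ℝ} (h0 : 0 ≤ τ) (h1 : τ < √2) :
    ∀ᵐ u ∂(Pm τ), (if 1 < τ then atomLoc τ else -1) ≤ u ∧ u ≤ 1 := by
  have hlow : (if 1 < τ then atomLoc τ else -1) ≤ -1 := by
    split_ifs with h
    · exact M3.atom_le h
    · exact le_refl _
  have hms : MeasurableSet {u : ℝ | (if 1 < τ then atomLoc τ else -1) ≤ u ∧ u ≤ 1} :=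
    measurableSet_Icc
  unfold Pm
  rw [ae_add_measure_iff]
  constructor
  · by_cases h : 1 < τ
    · apply Measure.ae_smul_measure
      rw [ae_dirac_iff hms]
      rw [if_pos h]
      exact ⟨le_refl _, by linarith [M3.atom_le h]⟩
    · have : atomMass τ = 0 := by
        unfold atomMass
        rw [if_neg h]
      rw [this, ENNReal.ofReal_zero, zero_smul]
      simp
  · rw [ae_map_iff Real.measurable_cos.aemeasurable hms]
    refine Filter.Eventually.of_forall (fun θ => ⟨?_, Real.cos_le_one θ⟩)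
    exact hlow.trans (Real.neg_one_le_cos θ)

end

end Pool.Agent.Lib_MP_1dbf07_co
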