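import Pool.Agent.Lib_MP_1dbf07_co.A2
import Pool.Agent.Lib_MP_1dbf07_co.M2
import Pool.Agent.Lib_MP_1dbf07_co.M3

namespace Pool.Agent.Lib_MP_1dbf07_co

open MeasureTheory Set Filter Topology
open scoped Real Nat PowerSeries

noncomputable section

namespace M4Aux

/-- The denominators are positive. -/
lemma den_pos {q : ℝ} {θ : ℝ} (hθ : θ ∈ Ioo 0 π) :
    Real.sin θ ^ 2 ≤ 1 + q ^ 2 + 2 * q * Real.cos θ ∧
      0 < 1 + q ^ 2 + 2 * q * Real.cos θ := by
  have h1 : Real.sin θ ^ 2 + Real.cos θ ^ 2 = 1 := Real.sin_sq_add_cos_sq θ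
  have h2 : 0 < Real.sin θ := Real.sin_pos_of_mem_Ioo hθ
  have h3 : Real.sin θ ^ 2 ≤ 1 + q ^ 2 + 2 * q * Real.cos θ := by
    nlinarith [sq_nonneg (q + Real.cos θ)]
  exact ⟨h3, lt_of_lt_of_le (by positivity) h3⟩

lemma integrable_q (q : ℝ) (n : ℕ) :
    IntegrableOn (fun θ => Real.sin θ ^ 2 * Real.cos θ ^ n / (1 + q ^ 2 + 2 * q * Real.cos θ))
      (Ioo 0 π) := by
  have hm : Measurable (fun θ => Real.sin θ ^ 2 * Real.cos θ ^ n /
      (1 + q ^ 2 + 2 * q * Real.cos θ)) := by fun_prop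
  refine Integrable.of_bound hm.aestronglyMeasurable 1 ?_
  rw [ae_restrict_iff' measurableSet_Ioo]
  refine Eventually.of_forall fun θ hθ => ?_
  obtain ⟨h1, h2⟩ := den_pos (q := q) hθ
  rw [norm_div, norm_mul, Real.norm_of_nonneg h2.le, norm_pow, norm_pow, Real.norm_eq_abs,
    Real.norm_eq_abs, sq_abs, div_le_one h2]
  have h3 : |Real.cos θ| ^ n ≤ 1 := pow_le_one₀ (abs_nonneg _) (Real.abs_cos_le_one θ)
  calc Real.sin θ ^ 2 * |Real.cos θ| ^ n ≤ Real.sin θ ^ 2 * 1 :=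
        mul_le_mul_of_nonneg_left h3 (sq_nonneg _)
    _ ≤ _ := by rw [mul_one]; exact h1

/-- The partial fraction decomposition of the density. -/
lemma dens_eq {τ θ : ℝ} (hθ : θ ∈ Ioo 0 π) (n : ℕ) :
    dens τ θ * Real.cos θ ^ n =
      (4 / π) * (Real.sin θ ^ 2 * Real.cos θ ^ n / (1 + τ ^ 2 + 2 * τ * Real.cos θ)) -
      (2 / π) * (Real.sin θ ^ 2 * Real.cos θ ^ n /
        (1 + (τ / 2) ^ 2 + 2 * (τ / 2) * Real.cos θ)) := by
  obtain ⟨-, h1⟩ := den_pos (q := τ) hθ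
  obtain ⟨-, h2⟩ := den_pos (q := τ / 2) hθ
  have h3 : 1 + τ ^ 2 / 4 + τ * Real.cos θ = 1 + (τ / 2) ^ 2 + 2 * (τ / 2) * Real.cos θ := by
    ring
  unfold dens
  rw [h3]
  have hπ := Real.pi_pos
  have h4 : 2 - τ ^ 2 = 4 * (1 + (τ / 2) ^ 2 + 2 * (τ / 2) * Real.cos θ) -
    2 * (1 + τ ^ 2 + 2 * τ * Real.cos θ) := by ring
  rw [h4]
  generalize 1 + (τ / 2) ^ 2 + 2 * (τ / 2) * Real.cos θ = D2 at *
  generalize 1 + τ ^ 2 + 2 * τ * Real.cos θ = D1 at *
  field_simp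

lemma intv (f : ℝ → ℝ) : ∫ θ in (0 : ℝ)..π, f θ = ∫ θ in Ioo 0 π, f θ := by
  rw [intervalIntegral.integral_of_le Real.pi_pos.le, integral_Ioc_eq_integral_Ioo]

lemma tau_lt_two {τ : ℝ} (h1 : τ < √2) : τ < 2 := by
  have : √2 < 2 := by
    rw [show (2 : ℝ) = √(2 ^ 2) by rw [Real.sqrt_sq (by norm_num)]]
    apply Real.sqrt_lt_sqrt <;> norm_num
  linarith

end M4Aux

/-- The moments of `P_τ`. -/
theorem Pm_moment {τ : ℝ} (h0 : 0 ≤ τ) (h1 : τ < √2) (n : ℕ) :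
    ∫ u, u ^ n ∂(Pm τ) = hF τ n := by
  rw [(Pm_integral h0 h1 (g := fun u => u ^ n) (by fun_prop)).2]
  have h2 : ∫ θ in Ioo 0 π, dens τ θ * Real.cos θ ^ n =
      (4 / π) * (∫ θ in Ioo 0 π,
        Real.sin θ ^ 2 * Real.cos θ ^ n / (1 + τ ^ 2 + 2 * τ * Real.cos θ)) -
      (2 / π) * (∫ θ in Ioo 0 π, Real.sin θ ^ 2 * Real.cos θ ^ n /
        (1 + (τ / 2) ^ 2 + 2 * (τ / 2) * Real.cos θ)) := by
    rw [← integral_const_mul, ← integral_const_mul, ← integral_sub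
      ((M4Aux.integrable_q τ n).const_mul _) ((M4Aux.integrable_q (τ / 2) n).const_mul _)]
    exact setIntegral_congr_fun measurableSet_Ioo fun θ hθ => M4Aux.dens_eq hθ n
  rw [h2]
  have h3 : 2 * Iq τ n - Iq (τ / 2) n = hF τ n := by
    rw [Iq_eq_Sq h0, Iq_eq_Sq (by positivity)]
    unfold Sq hF
    rw [Finset.mul_sum, ← Finset.sum_sub_distrib]
    refine Finset.sum_congr rfl fun l _ => ?_
    have : (-(τ / 2)) ^ (n - 2 * l) = (-τ) ^ (n - 2 * l) * (1 / 2) ^ (n - 2 * l) := by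
      rw [← mul_pow]; congr 1; ring
    rw [this]
    ring
  rw [← h3]
  unfold Iq
  rw [M4Aux.intv, M4Aux.intv, if_neg (by linarith [M4Aux.tau_lt_two h1] : ¬ 1 < τ / 2)]
  unfold atomMass atomLoc
  split_ifs
  · ring
  · ring

theorem Pm_prob {τ : ℝ} (h0 : 0 ≤ τ) (h1 : τ < √2) : IsProbabilityMeasure (Pm τ) := by
  have h2 := Pm_moment h0 h1 0
  have h3 := (Pm_integral h0 h1 (g := fun _ => 1) (by fun_prop)).1
  have h4 : hF τ 0 = 1 := by simp [hF]; norm_num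
  rw [h4] at h2
  simp only [pow_zero, integral_const, smul_eq_mul, mul_one] at h2
  refine ⟨?_⟩
  rw [Measure.real, ENNReal.toReal_eq_one_iff] at h2
  exact h2

theorem tauX_nonneg (X : ℝ) : 0 ≤ tauX X := Real.sqrt_nonneg _

theorem tauX_lt {X : ℝ} (hX : 0 < X) : tauX X < √2 := by
  unfold tauX
  apply Real.sqrt_lt_sqrt (by positivity)
  rw [div_lt_iff₀ (by positivity)]
  linarith

namespace M4Aux

lemma tau_sq {X : ℝ} (hX : 0 < X) : tauX X ^ 2 = 2 / (1 + X) := by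
  unfold tauX
  rw [Real.sq_sqrt (by positivity)]

lemma c_tau {X : ℝ} (hX : 0 < X) : cX X * tauX X = 4 := by
  unfold cX tauX
  rw [← Real.sqrt_mul (by positivity)]
  rw [show 8 * (1 + X) * (2 / (1 + X)) = 4 ^ 2 by field_simp; norm_num]
  exact Real.sqrt_sq (by norm_num)

lemma tau_pos {X : ℝ} (hX : 0 < X) : 0 < tauX X := by
  unfold tauX
  exact Real.sqrt_pos.mpr (by positivity)

/-- The atom sits at `w = 0`. -/
lemma atom_zero {X : ℝ} (hX : 0 < X) : 3 + X + cX X * atomLoc (tauX X) = 0 := by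
  have h1 := tau_sq hX
  have h2 := c_tau hX
  have h3 := tau_pos hX
  unfold atomLoc
  have h4 : cX X = 4 / tauX X := by rw [eq_div_iff h3.ne', h2]
  rw [h4]
  have h5 : tauX X ^ 2 * (1 + X) = 2 := by rw [h1]; field_simp
  field_simp
  nlinarith

lemma dens_w {X θ : ℝ} (hX : 0 < X) (hθ : θ ∈ Ioo 0 π) (n : ℕ) :
    dens (tauX X) θ * ((3 + X + cX X * Real.cos θ) ^ (n + 2) +
      X * (3 + X + cX X * Real.cos θ) ^ (n + 1)) =
      2 * X * (1 + X) * (2 / π) * (Real.sin θ ^ 2 * (3 + X + cX X * Real.cos θ) ^ n) := by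
  have h1 := tau_sq hX
  have h2 := c_tau hX
  have h3 := tau_pos hX
  set τ := tauX X
  set C := Real.cos θ with hC
  have h5 : τ ^ 2 * (1 + X) = 2 := by rw [h1]; field_simp
  obtain ⟨-, d1⟩ := den_pos (q := τ) hθ
  obtain ⟨-, d2⟩ := den_pos (q := τ / 2) hθ
  have h6 : cX X = 2 * (1 + X) * τ := by
    have : cX X * τ = 2 * (1 + X) * τ * τ := by rw [h2]; nlinarith
    exact mul_right_cancel₀ h3.ne' this
  have hw : 3 + X + cX X * C = (1 + X) * (1 + τ ^ 2 + 2 * τ * C) := by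
    rw [h6]; nlinarith
  have hw2 : 3 + X + cX X * C + X = 2 * (1 + X) * (1 + τ ^ 2 / 4 + τ * C) := by
    rw [h6]; nlinarith
  have h7 : (3 + X + cX X * C) ^ (n + 2) + X * (3 + X + cX X * C) ^ (n + 1) =
      (3 + X + cX X * C) ^ n * ((3 + X + cX X * C) * (3 + X + cX X * C + X)) := by ring
  rw [h7]
  have h8 : (3 + X + cX X * C) * (3 + X + cX X * C + X) =
      ((1 + X) * (1 + τ ^ 2 + 2 * τ * C)) * (2 * (1 + X) * (1 + τ ^ 2 / 4 + τ * C)) := by
    rw [← hw, ← hw2]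
  rw [h8]
  have d2' : 0 < 1 + τ ^ 2 / 4 + τ * C := by
    have : 1 + τ ^ 2 / 4 + τ * C = 1 + (τ / 2) ^ 2 + 2 * (τ / 2) * C := by ring
    rw [this]; exact d2
  unfold dens
  rw [← hC]
  have hπ := Real.pi_pos
  have h9 : 2 - τ ^ 2 = 2 * X / (1 + X) := by rw [h1]; field_simp; ring
  rw [h9]
  generalize 1 + τ ^ 2 / 4 + τ * C = D2 at *
  generalize 1 + τ ^ 2 + 2 * τ * C = D1 at *
  field_simp

end M4Aux

/-- The moments of the problem are the moments of `w = 3 + X + c u` under `P_τ`. -/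
theorem Pm_mom {X : ℝ} (hX : 0 < X) (n : ℕ) :
    ∫ u, (3 + X + cX X * u) ^ n ∂(Pm (tauX X)) = mom X n := by
  have h0 := tauX_nonneg X
  have h1 := tauX_lt hX
  have hprob := Pm_prob h0 h1
  have hI : ∀ k : ℕ, Integrable (fun u : ℝ => (3 + X + cX X * u) ^ k) (Pm (tauX X)) := fun k =>
    (Pm_integral h0 h1 (by fun_prop)).1
  have hrec : ∀ k : ℕ, (∫ u, (3 + X + cX X * u) ^ (k + 2) ∂(Pm (tauX X))) +
      X * (∫ u, (3 + X + cX X * u) ^ (k + 1) ∂(Pm (tauX X))) =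
      mom X (k + 2) + X * mom X (k + 1) := by
    intro k
    rw [mom_semi hX, ← integral_const_mul, ← integral_add (hI _) ((hI _).const_mul _)]
    rw [(Pm_integral h0 h1 (g := fun u => (3 + X + cX X * u) ^ (k + 2) +
      X * (3 + X + cX X * u) ^ (k + 1)) (by fun_prop)).2]
    rw [M4Aux.atom_zero hX]
    simp only [ne_eq, Nat.add_eq_zero_iff, OfNat.ofNat_ne_zero, and_false, not_false_eq_true,
      zero_pow, one_ne_zero, mul_zero, add_zero, zero_add]
    rw [setIntegral_congr_fun measurableSet_Ioo fun θ hθ => M4Aux.dens_w hX hθ k,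
      integral_const_mul, Csc, M4Aux.intv]
    ring
  have he1 : ∫ u, (3 + X + cX X * u) ^ 1 ∂(Pm (tauX X)) = X := by
    simp only [pow_one]
    have hu : ∫ u, u ∂(Pm (tauX X)) = hF (tauX X) 1 := by
      have := Pm_moment h0 h1 1
      simpa using this
    have hui : Integrable (fun u : ℝ => u) (Pm (tauX X)) :=
      (Pm_integral h0 h1 (g := fun u => u) (by fun_prop)).1
    rw [integral_add (integrable_const _) (hui.const_mul _), integral_const_mul, hu]
    have h2 : hF (tauX X) 1 = -(3 / 4) * tauX X := by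
      simp [hF, Nat.factorial]
      ring
    rw [h2]
    have h3 := M4Aux.c_tau hX
    simp only [integral_const, probReal_univ, smul_eq_mul, one_mul]
    linear_combination (-(3 / 4) : ℝ) * h3
  have hmom1 : mom X 1 = X := by simp [mom, fs]
  induction n using Nat.strong_induction_on with
  | _ n ih =>
    match n, ih with
    | 0, _ => simp [mom]
    | 1, _ => rw [he1, hmom1]
    | (k + 2), ih =>
      have h2 := hrec k
      rw [ih (k + 1) (by omega)] at h2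
      linarith

theorem mom_binom {X : ℝ} (hX : 0 < X) (n : ℕ) :
    mom X n = ∑ k ∈ Finset.range (n + 1),
      (n.choose k : ℝ) * (3 + X) ^ (n - k) * cX X ^ k * hF (tauX X) k := by
  have h0 := tauX_nonneg X
  have h1 := tauX_lt hX
  rw [← Pm_mom hX]
  have h2 : ∀ u : ℝ, (3 + X + cX X * u) ^ n = ∑ k ∈ Finset.range (n + 1),
      ((n.choose k : ℝ) * (3 + X) ^ (n - k) * cX X ^ k) * u ^ k := by
    intro u
    rw [add_comm (3 + X), add_pow]
    refine Finset.sum_congr rfl fun k _ => ?_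
    rw [mul_pow]; ring
  simp_rw [h2]
  rw [integral_finsetSum]
  · refine Finset.sum_congr rfl fun k _ => ?_
    rw [integral_const_mul, Pm_moment h0 h1]
  · intro k _
    exact ((Pm_integral h0 h1 (g := fun u => u ^ k) (by fun_prop)).1).const_mul _

end

end Pool.Agent.Lib_MP_1dbf07_co
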