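import Pool.Agent.Lib_MP_1dbf07_co.M4
import Pool.Agent.Lib_MP_1dbf07_co.B0

namespace Pool.Agent.Lib_MP_1dbf07_co

open MeasureTheory Set Filter Topology
open scoped Real Nat PowerSeries

noncomputable section

namespace M6

theorem tauX_sq {X : ℝ} (hX : 0 < X) : tauX X ^ 2 = 2 / (1 + X) := by
  rw [tauX, Real.sq_sqrt (by positivity)]

theorem tauX_pos {X : ℝ} (hX : 0 < X) : 0 < tauX X := by
  rw [tauX]
  positivity

theorem cX_sq {X : ℝ} (hX : 0 < X) : cX X ^ 2 = 8 * (1 + X) := by
  rw [cX, Real.sq_sqrt (by positivity)]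

theorem cX_pos {X : ℝ} (hX : 0 < X) : 0 < cX X := by
  rw [cX]
  positivity

theorem cX_mul {X : ℝ} (hX : 0 < X) : cX X * tauX X = 4 := by
  have h1 : (cX X * tauX X) ^ 2 = 4 ^ 2 := by
    rw [mul_pow, cX_sq hX, tauX_sq hX]
    field_simp
    norm_num
  have h2 : 0 < cX X * tauX X := mul_pos (cX_pos hX) (tauX_pos hX)
  nlinarith

theorem atomLoc_tauX {X : ℝ} (hX : 0 < X) :
    3 + X + cX X * atomLoc (tauX X) = 0 := by
  have h1 := tauX_pos hX
  have h2 := cX_mul hX
  have h3 : cX X = 4 / tauX X := by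
    field_simp
    linarith
  rw [atomLoc, h3]
  have h4 := tauX_sq hX
  have h5 : 1 + X = 2 / tauX X ^ 2 := by
    rw [h4]
    field_simp
  have h6 : X = 2 / tauX X ^ 2 - 1 := by linarith
  have h7 : 4 / tauX X * (-(tauX X + 1 / tauX X) / 2) = -2 - 2 / tauX X ^ 2 := by
    field_simp
    ring
  rw [h7]
  linarith

theorem lt_sqrt_two : (27 / 20 : ℝ) < √2 := by
  rw [Real.lt_sqrt (by norm_num)]
  norm_num

theorem atomLoc_ge {τ b : ℝ} (h1 : 1 < τ) (h : τ ^ 2 + 1 ≤ 2 * b * τ) :
    -b ≤ atomLoc τ := by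
  have h0 : 0 < τ := by linarith
  have : τ + 1 / τ ≤ 2 * b := by
    have e : τ + 1 / τ = (τ ^ 2 + 1) / τ := by
      field_simp
    rw [e, div_le_iff₀ h0]
    exact h
  rw [atomLoc]
  linarith

end M6

open M6

theorem Pm_Supp {τ : ℝ} (h0 : 0 ≤ τ) (h1 : τ ≤ 27 / 20) : Supp (Pm τ) (523 / 500) 1 := by
  have hτ : τ < √2 := h1.trans_lt lt_sqrt_two
  refine ⟨Pm_prob h0 hτ, ?_⟩
  filter_upwards [Pm_supp h0 hτ] with u hu
  refine ⟨le_trans ?_ hu.1, hu.2⟩
  split_ifs with h
  · exact atomLoc_ge h (by nlinarith)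
  · norm_num

/-- For all `τ < √2` the support is inside `[-107/100, 1]`. -/
theorem Pm_Supp' {τ : ℝ} (h0 : 0 ≤ τ) (h1 : τ < √2) : Supp (Pm τ) (107 / 100) 1 := by
  refine ⟨Pm_prob h0 h1, ?_⟩
  filter_upwards [Pm_supp h0 h1] with u hu
  refine ⟨le_trans ?_ hu.1, hu.2⟩
  split_ifs with h
  · have h2 : √2 ≤ 141422 / 100000 := by
      rw [Real.sqrt_le_left (by norm_num)]
      norm_num
    exact atomLoc_ge h (by nlinarith)
  · norm_num

/-- The measure `μ_X` on `[0, B]` with the moments of the problem; it has an atom at `0`. -/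
theorem exists_muX {X : ℝ} (hX : 0 < X) :
    ∃ μ : Measure ℝ, Supp μ 0 (BX X) ∧ mo μ = mom X ∧
      (X ≤ 1 → ENNReal.ofReal (1 - X) ≤ μ {0}) := by
  have h0 := tauX_nonneg X
  have h1 := tauX_lt hX
  have hc := cX_pos hX
  have hcc := cX_sq hX
  have hm : Measurable (fun u : ℝ => 3 + X + cX X * u) := by fun_prop
  have hp := Pm_prob h0 h1
  refine ⟨(Pm (tauX X)).map (fun u => 3 + X + cX X * u), ⟨?_, ?_⟩, ?_, ?_⟩
  · exact Measure.isProbabilityMeasure_map hm.aemeasurable
  · rw [ae_map_iff hm.aemeasurable (measurableSet_Icc : MeasurableSet (Icc (-0) (BX X)))]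
    filter_upwards [Pm_supp h0 h1] with u hu
    rw [neg_zero, BX]
    refine ⟨?_, ?_⟩
    · by_cases h : 1 < tauX X
      · rw [if_pos h] at hu
        have := mul_le_mul_of_nonneg_left hu.1 hc.le
        have h2 := atomLoc_tauX hX
        linarith
      · rw [if_neg h] at hu
        have h2 := mul_le_mul_of_nonneg_left hu.1 hc.le
        have h3 : cX X ≤ 3 + X := by
          apply le_of_sq_le_sq _ (by positivity)
          nlinarith [sq_nonneg (1 - X)]
        linarith
    · have := mul_le_mul_of_nonneg_left hu.2 hc.le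
      linarith
  · ext n
    rw [mo, integral_map hm.aemeasurable (by fun_prop), Pm_mom hX]
  · intro hX1
    rcases hX1.lt_or_eq with hlt | rfl
    · have ht : 1 < tauX X := by
        rw [tauX, Real.lt_sqrt (by norm_num), lt_div_iff₀ (by positivity)]
        linarith
      have hmass : atomMass (tauX X) = 1 - X := by
        rw [atomMass, if_pos ht, tauX_sq hX]
        field_simp
        ring
      rw [Measure.map_apply hm (measurableSet_singleton 0), Pm, Measure.add_apply,
        Measure.smul_apply, hmass, Measure.dirac_apply' _ (hm (measurableSet_singleton 0)),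
        indicator_of_mem]
      · simp
      · simp only [mem_preimage, mem_singleton_iff]
        exact atomLoc_tauX hX
    · simp

end

end Pool.Agent.Lib_MP_1dbf07_co
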