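import Pool.Agent.Lib_MP_1dbf07_co.M6

namespace Pool.Agent.Lib_MP_1dbf07_co

open MeasureTheory Set Filter Topology
open scoped Real Nat PowerSeries

noncomputable section

namespace R0Aux

theorem fs_succ (X : ℝ) (n : ℕ) : fs X (n + 2) = (1 + X) * fs X (n + 1)
      + ∑ i : Fin (n + 1), fs X (i.1 + 1) * fs X (n + 1 - i.1)
      + X * ∑ i : Fin n, fs X (i.1 + 1) * fs X (n - i.1) := by
  rw [fs]

theorem fs_zero (X : ℝ) : fs X 0 = 0 := by rw [fs]

theorem fs_one (X : ℝ) : fs X 1 = 1 := by rw [fs]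

theorem fs_nonneg' {X : ℝ} (hX : 0 ≤ X) (n : ℕ) : 0 ≤ fs X n := by
  induction n using Nat.strong_induction_on with
  | _ n ih =>
    match n, ih with
    | 0, _ => rw [fs_zero]
    | 1, _ => rw [fs_one]; norm_num
    | n + 2, ih =>
      rw [fs_succ]
      have h1 := ih (n + 1) (by omega)
      have h2 : 0 ≤ ∑ i : Fin (n + 1), fs X (i.1 + 1) * fs X (n + 1 - i.1) :=
        Finset.sum_nonneg fun i _ => mul_nonneg (ih _ (by omega)) (ih _ (by omega))
      have h3 : 0 ≤ ∑ i : Fin n, fs X (i.1 + 1) * fs X (n - i.1) :=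
        Finset.sum_nonneg fun i _ => mul_nonneg (ih _ (by omega)) (ih _ (by omega))
      have h4 : 0 ≤ (1 + X) * fs X (n + 1) := mul_nonneg (by linarith) h1
      have h5 := mul_nonneg hX h3
      linarith

theorem fs_cont (n : ℕ) : Continuous fun X : ℝ => fs X n := by
  induction n using Nat.strong_induction_on with
  | _ n ih =>
    match n, ih with
    | 0, _ => simp only [fs_zero]; exact continuous_const
    | 1, _ => simp only [fs_one]; exact continuous_const
    | n + 2, ih =>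
      simp only [fs_succ]
      have h1 := ih (n + 1) (by omega)
      refine Continuous.add (Continuous.add ((continuous_const.add continuous_id).mul h1) ?_) ?_
      · exact continuous_finset_sum _ fun i _ => (ih _ (by omega)).mul (ih _ (by omega))
      · exact continuous_id.mul
          (continuous_finset_sum _ fun i _ => (ih _ (by omega)).mul (ih _ (by omega)))

end R0Aux

open R0Aux

theorem fs_nonneg {X : ℝ} (hX : 0 ≤ X) (n : ℕ) : 0 ≤ fs X n := fs_nonneg' hX n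

theorem fs_mono {X Y : ℝ} (hX : 0 ≤ X) (hXY : X ≤ Y) (n : ℕ) : fs X n ≤ fs Y n := by
  have hY : 0 ≤ Y := hX.trans hXY
  induction n using Nat.strong_induction_on with
  | _ n ih =>
    match n, ih with
    | 0, _ => rw [fs_zero, fs_zero]
    | 1, _ => rw [fs_one, fs_one]
    | n + 2, ih =>
      rw [fs_succ, fs_succ]
      have h1 : (1 + X) * fs X (n + 1) ≤ (1 + Y) * fs Y (n + 1) :=
        mul_le_mul (by linarith) (ih _ (by omega)) (fs_nonneg hX _) (by linarith)
      have h2 : ∑ i : Fin (n + 1), fs X (i.1 + 1) * fs X (n + 1 - i.1) ≤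
          ∑ i : Fin (n + 1), fs Y (i.1 + 1) * fs Y (n + 1 - i.1) :=
        Finset.sum_le_sum fun i _ => mul_le_mul (ih _ (by omega)) (ih _ (by omega))
          (fs_nonneg hX _) (fs_nonneg hY _)
      have h3 : ∑ i : Fin n, fs X (i.1 + 1) * fs X (n - i.1) ≤
          ∑ i : Fin n, fs Y (i.1 + 1) * fs Y (n - i.1) :=
        Finset.sum_le_sum fun i _ => mul_le_mul (ih _ (by omega)) (ih _ (by omega))
          (fs_nonneg hX _) (fs_nonneg hY _)
      have h4 : 0 ≤ ∑ i : Fin n, fs X (i.1 + 1) * fs X (n - i.1) :=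
        Finset.sum_nonneg fun i _ => mul_nonneg (fs_nonneg hX _) (fs_nonneg hX _)
      have h5 : X * ∑ i : Fin n, fs X (i.1 + 1) * fs X (n - i.1) ≤
          Y * ∑ i : Fin n, fs Y (i.1 + 1) * fs Y (n - i.1) :=
        mul_le_mul hXY h3 h4 hY
      linarith

theorem fs_le {X : ℝ} (hX : 0 ≤ X) (hX' : X ≤ 1) (n : ℕ) : fs X n ≤ 8 ^ n := by
  refine (fs_mono hX hX' n).trans ?_
  by_cases hn : n = 0
  · subst hn
    rw [fs_zero]
    norm_num
  obtain ⟨μ, hμ, hm, -⟩ := exists_muX (X := 1) one_pos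
  have hB : BX 1 = 8 := by
    unfold BX cX
    have : √(8 * (1 + 1) : ℝ) = 4 := by
      rw [show (8 * (1 + 1) : ℝ) = 4 ^ 2 by norm_num]
      exact Real.sqrt_sq (by norm_num)
    rw [this]
    norm_num
  have h1 : fs 1 n = ∫ w, w ^ n ∂μ := by
    have h2 := congrFun hm n
    unfold mo mom at h2
    rw [if_neg hn, one_mul] at h2
    exact h2.symm
  rw [h1]
  have := hμ.prob
  have h3 : ∫ w, w ^ n ∂μ ≤ ∫ _w, (8 : ℝ) ^ n ∂μ := by
    refine integral_mono_ae (hμ.integrable_cont (continuous_pow n)) (integrable_const _) ?_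
    filter_upwards [hμ.supp] with w hw
    rw [hB] at hw
    exact pow_le_pow_left₀ (by linarith [hw.1]) hw.2 n
  refine h3.trans ?_
  rw [integral_const, probReal_univ, one_smul]

namespace R0Aux

theorem mom_abs_le {X : ℝ} (hX : X ∈ Icc (0 : ℝ) 1) (n : ℕ) : |mom X n| ≤ 8 ^ n := by
  unfold mom
  split_ifs with h
  · subst h
    simp
  · rw [abs_of_nonneg (mul_nonneg hX.1 (fs_nonneg hX.1 n))]
    have h1 := fs_le hX.1 hX.2 n
    have h2 := fs_nonneg hX.1 n
    nlinarith [hX.1, hX.2]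

theorem mom_cont (n : ℕ) : Continuous fun X : ℝ => mom X n := by
  unfold mom
  by_cases h : n = 0
  · simp only [h, if_true]
    exact continuous_const
  · simp only [h, if_false]
    exact continuous_id.mul (fs_cont n)

theorem hF_cont (n : ℕ) : Continuous fun τ : ℝ => hF τ n := by
  unfold hF
  fun_prop

theorem hF_abs_le {τ : ℝ} (h : τ ∈ Ico (0 : ℝ) (√2)) (n : ℕ) : |hF τ n| ≤ (107 / 100) ^ n := by
  rw [← Pm_moment h.1 h.2 n]
  have hS := Pm_Supp' h.1 h.2
  have := hS.prob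
  have h3 : |∫ u, u ^ n ∂(Pm τ)| ≤ ∫ u, |u ^ n| ∂(Pm τ) := abs_integral_le_integral_abs
  refine h3.trans ?_
  have h4 : ∫ u, |u ^ n| ∂(Pm τ) ≤ ∫ _u, (107 / 100 : ℝ) ^ n ∂(Pm τ) := by
    refine integral_mono_ae (hS.integrable_cont (continuous_pow n).abs) (integrable_const _) ?_
    filter_upwards [hS.supp] with w hw
    show |w ^ n| ≤ _
    rw [abs_pow]
    refine pow_le_pow_left₀ (abs_nonneg _) ?_ n
    rw [abs_le]
    constructor <;> linarith [hw.1, hw.2]
  refine h4.trans ?_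
  rw [integral_const, probReal_univ, one_smul]

/-- Joint continuity from a bound. -/
theorem egf_cont {S : Set ℝ} {M : ℝ} (hM : 0 ≤ M) (m : ℝ → ℕ → ℝ)
    (hc : ∀ n, Continuous fun X : ℝ => m X n) (hb : ∀ X ∈ S, ∀ n, |m X n| ≤ M ^ n) :
    ContinuousOn (fun p : ℝ × ℂ => egf (m p.1) p.2) (S ×ˢ univ) := by
  rintro ⟨X₀, z₀⟩ hp
  have hX₀ : X₀ ∈ S := hp.1
  have h1 : ContinuousOn (fun p : ℝ × ℂ => egf (m p.1) p.2)
      (S ×ˢ Metric.ball (0 : ℂ) (‖z₀‖ + 1)) := by
    unfold egf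
    have hR : 0 ≤ ‖z₀‖ + 1 := by positivity
    refine continuousOn_tsum (u := fun n => (M * (‖z₀‖ + 1)) ^ n / (n ! : ℝ)) ?_
      (Real.summable_pow_div_factorial _) ?_
    · intro n
      apply Continuous.continuousOn
      have h2 : Continuous fun p : ℝ × ℂ => ((m p.1 n / (n ! : ℝ) : ℝ) : ℂ) :=
        Complex.continuous_ofReal.comp (((hc n).comp continuous_fst).div_const _)
      exact h2.mul (continuous_snd.pow n)
    · rintro n ⟨X, z⟩ ⟨hX, hz⟩
      rw [mem_ball_zero_iff] at hz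
      dsimp only at hX hz ⊢
      rw [norm_mul, Complex.norm_real, norm_pow, Real.norm_eq_abs, abs_div,
        abs_of_nonneg (Nat.cast_nonneg (α := ℝ) n !), mul_pow, div_mul_eq_mul_div]
      refine div_le_div_of_nonneg_right ?_ (Nat.cast_nonneg _)
      exact mul_le_mul (hb X hX n) (pow_le_pow_left₀ (norm_nonneg _) hz.le n) (by positivity)
        (by positivity)
  have h2 : S ×ˢ Metric.ball (0 : ℂ) (‖z₀‖ + 1) ∈ 𝓝[S ×ˢ univ] (X₀, z₀) := by
    have h3 : (univ : Set ℝ) ×ˢ Metric.ball (0 : ℂ) (‖z₀‖ + 1) ∈ 𝓝 (X₀, z₀) := by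
      refine prod_mem_nhds univ_mem (Metric.isOpen_ball.mem_nhds ?_)
      rw [mem_ball_zero_iff]
      linarith
    have h4 := inter_mem_nhdsWithin (S ×ˢ (univ : Set ℂ)) h3
    refine Filter.mem_of_superset h4 ?_
    rintro ⟨x, y⟩ ⟨⟨hx, _⟩, ⟨_, hy⟩⟩
    exact ⟨hx, hy⟩
  have h5 : ContinuousWithinAt (fun p : ℝ × ℂ => egf (m p.1) p.2)
      (S ×ˢ Metric.ball (0 : ℂ) (‖z₀‖ + 1)) (X₀, z₀) :=
    h1 _ ⟨hX₀, by
      show z₀ ∈ Metric.ball (0 : ℂ) (‖z₀‖ + 1)
      rw [mem_ball_zero_iff]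
      linarith⟩
  exact h5.mono_of_mem_nhdsWithin h2

end R0Aux

theorem egf_mom_continuousOn :
    ContinuousOn (fun p : ℝ × ℂ => egf (mom p.1) p.2) (Icc (0 : ℝ) 1 ×ˢ univ) :=
  egf_cont (M := 8) (by norm_num) mom mom_cont fun _ hX n => mom_abs_le hX n

theorem egf_hF_continuousOn :
    ContinuousOn (fun p : ℝ × ℂ => egf (hF p.1) p.2) (Ico (0 : ℝ) (√2) ×ˢ univ) :=
  egf_cont (M := 107 / 100) (by norm_num) hF hF_cont fun _ h n => hF_abs_le h n

end

end Pool.Agent.Lib_MP_1dbf07_co
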