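import Pool.Agent.Lib_MP_1dbf07_co.R0
import Pool.Agent.Lib_MP_1dbf07_co.M8
import Pool.Agent.Lib_MP_1dbf07_co.C3

namespace Pool.Agent.Lib_MP_1dbf07_co

open MeasureTheory Set Filter Topology
open scoped Real Nat PowerSeries

noncomputable section

namespace R1aux

theorem mom_zero' (X : ℝ) : mom X 0 = 1 := by simp [mom]

theorem fs_one (X : ℝ) : fs X 1 = 1 := by simp [fs]

theorem mom_one (X : ℝ) : mom X 1 = X := by simp [mom, fs_one]

theorem mom_nonneg {X : ℝ} (hX : 0 ≤ X) (n : ℕ) : 0 ≤ mom X n := by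
  unfold mom
  split_ifs
  · exact zero_le_one
  · exact mul_nonneg hX (fs_nonneg hX n)

theorem mom_mono {X Y : ℝ} (hX : 0 ≤ X) (hXY : X ≤ Y) (n : ℕ) : mom X n ≤ mom Y n := by
  unfold mom
  split_ifs
  · exact le_rfl
  · exact mul_le_mul hXY (fs_mono hX hXY n) (fs_nonneg hX n) (hX.trans hXY)

theorem mom_le {X : ℝ} (hX : 0 ≤ X) (hX' : X ≤ 1) (n : ℕ) : mom X n ≤ 8 ^ n := by
  unfold mom
  split_ifs with h
  · rw [h, pow_zero]
  · calc X * fs X n ≤ 1 * 8 ^ n :=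
        mul_le_mul hX' (fs_le hX hX' n) (fs_nonneg hX n) zero_le_one
      _ = 8 ^ n := one_mul _

theorem summable_mom {X : ℝ} (hX : 0 ≤ X) (hX' : X ≤ 1) (x : ℝ) :
    Summable fun n : ℕ => mom X n / (n ! : ℝ) * x ^ n := by
  refine Summable.of_norm_bounded (g := fun n : ℕ => (8 * |x|) ^ n / (n ! : ℝ))
    (Real.summable_pow_div_factorial _) (fun n => ?_)
  rw [Real.norm_eq_abs, abs_mul, abs_div, abs_of_nonneg (mom_nonneg hX n), abs_pow, Nat.abs_cast,
    mul_pow, div_mul_eq_mul_div]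
  gcongr
  exact mom_le hX hX' n

/-- Real and complex series. -/
theorem egf_ofReal (m : ℕ → ℝ) (x : ℝ) : egf m (x : ℂ) = ((egfR m x : ℝ) : ℂ) := by
  unfold egf egfR
  rw [Complex.ofReal_tsum]
  refine tsum_congr (fun n => ?_)
  push_cast
  ring

theorem egfR_mom_continuousOn :
    ContinuousOn (fun p : ℝ × ℝ => egfR (mom p.1) p.2) (Icc (0 : ℝ) 1 ×ˢ univ) := by
  have h1 : ContinuousOn (fun p : ℝ × ℝ => egf (mom p.1) (p.2 : ℂ)) (Icc (0 : ℝ) 1 ×ˢ univ) := by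
    have h2 : Continuous fun p : ℝ × ℝ => ((p.1, (p.2 : ℂ)) : ℝ × ℂ) := by fun_prop
    exact ContinuousOn.comp (g := fun p : ℝ × ℂ => egf (mom p.1) p.2)
      (f := fun p : ℝ × ℝ => ((p.1, (p.2 : ℂ)) : ℝ × ℂ)) egf_mom_continuousOn h2.continuousOn
      (fun p hp => ⟨hp.1, mem_univ _⟩)
  have h3 : ContinuousOn (fun p : ℝ × ℝ => (egf (mom p.1) (p.2 : ℂ)).re)
      (Icc (0 : ℝ) 1 ×ˢ univ) := Complex.continuous_re.comp_continuousOn h1
  refine h3.congr (fun p _ => ?_)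
  simp only [egf_ofReal, Complex.ofReal_re]

theorem egfR_mom_strictMono {X : ℝ} (hX : 0 < X) (hX' : X ≤ 1) {x y : ℝ} (hx : 0 ≤ x)
    (hxy : x < y) : egfR (mom X) x < egfR (mom X) y := by
  unfold egfR
  refine Summable.tsum_lt_tsum (i := 1) (fun n => ?_) ?_ (summable_mom hX.le hX' x)
    (summable_mom hX.le hX' y)
  · have h1 : 0 ≤ mom X n / (n ! : ℝ) := div_nonneg (mom_nonneg hX.le n) (by positivity)
    exact mul_le_mul_of_nonneg_left (pow_le_pow_left₀ hx hxy.le n) h1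
  · simp only [mom_one, Nat.factorial_one, Nat.cast_one, div_one, pow_one]
    exact mul_lt_mul_of_pos_left hxy hX

theorem egfR_mom_mono {X Y : ℝ} (hX : 0 ≤ X) (hXY : X ≤ Y) (hY : Y ≤ 1) {x : ℝ} (hx : 0 ≤ x) :
    egfR (mom X) x ≤ egfR (mom Y) x := by
  unfold egfR
  refine Summable.tsum_le_tsum (fun n => ?_) (summable_mom hX (hXY.trans hY) x)
    (summable_mom (hX.trans hXY) hY x)
  have h1 := mom_mono hX hXY n
  gcongr

theorem egfR_mom_ge {X : ℝ} (hX : 0 ≤ X) (hX' : X ≤ 1) {x : ℝ} (hx : 0 ≤ x) :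
    1 + X * x ≤ egfR (mom X) x := by
  unfold egfR
  have h := (summable_mom hX hX' x).sum_le_tsum (Finset.range 2) (fun n _ => by
    have := mom_nonneg hX n
    positivity)
  simpa [Finset.sum_range_succ, mom_zero', mom_one] using h

theorem egfR_mom_zero (x : ℝ) : egfR (mom 0) x = 1 := by
  unfold egfR
  rw [tsum_eq_single 0]
  · simp [mom_zero']
  · intro n hn
    simp [mom, hn]

/-- The function whose zero is `ρ(X)`. -/
def phi (X x : ℝ) : ℝ := egfR (mom X) x - 2 * (1 - X)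

theorem phi_strictMono_right {X : ℝ} (hX : 0 < X) (hX' : X ≤ 1) {x y : ℝ} (hx : 0 ≤ x)
    (hxy : x < y) : phi X x < phi X y := by
  have := egfR_mom_strictMono hX hX' hx hxy
  unfold phi
  linarith

theorem phi_mono_left {X Y : ℝ} (hX : 0 ≤ X) (hXY : X ≤ Y) (hY : Y ≤ 1) {x : ℝ} (hx : 0 ≤ x) :
    phi X x ≤ phi Y x := by
  have := egfR_mom_mono hX hXY hY hx
  unfold phi
  linarith

theorem phi_cont_left (x : ℝ) : ContinuousOn (fun X => phi X x) (Icc 0 1) := by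
  have h1 : Continuous fun X : ℝ => ((X, x) : ℝ × ℝ) := by fun_prop
  have h2 : ContinuousOn (fun X => egfR (mom X) x) (Icc (0 : ℝ) 1) :=
    ContinuousOn.comp (g := fun p : ℝ × ℝ => egfR (mom p.1) p.2) (f := fun X : ℝ => (X, x))
      egfR_mom_continuousOn h1.continuousOn (fun X hX => ⟨hX, mem_univ _⟩)
  unfold phi
  exact h2.sub (by fun_prop)

theorem phi_cont_right {X : ℝ} (hX : X ∈ Icc (0 : ℝ) 1) : Continuous (fun x => phi X x) := by
  have h1 : Continuous fun x : ℝ => ((X, x) : ℝ × ℝ) := by fun_prop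
  have h2 : Continuous (fun x => egfR (mom X) x) := by
    rw [← continuousOn_univ]
    exact ContinuousOn.comp (g := fun p : ℝ × ℝ => egfR (mom p.1) p.2) (f := fun x : ℝ => (X, x))
      egfR_mom_continuousOn h1.continuousOn (fun x _ => ⟨hX, mem_univ _⟩)
  unfold phi
  fun_prop

theorem phi_302 {X : ℝ} (hX : X ∈ Ioc (0 : ℝ) (1 / 10 ^ 5)) : phi X (302 / 100) < 0 := by
  have h1 := phi_mono_left hX.1.le hX.2 (by norm_num) (x := 302 / 100) (by norm_num)
  have h2 := rho_bounds.1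
  unfold phi at h1 ⊢
  linarith

theorem exists_rho {X : ℝ} (hX : X ∈ Ioc (0 : ℝ) (1 / 10 ^ 5)) :
    ∃ x : ℝ, 302 / 100 ≤ x ∧ phi X x = 0 := by
  have hX1 : X ≤ 1 := hX.2.trans (by norm_num)
  have hX3 : X ≤ 1 / 10 ^ 5 := hX.2
  have hXpos : 0 < X := hX.1
  have h0 := phi_302 hX
  have h2 : 0 < phi X (2 / X) := by
    have := egfR_mom_ge hX.1.le hX1 (x := 2 / X) (by positivity)
    have e : X * (2 / X) = 2 := by field_simp
    unfold phi
    linarith
  have h3 : (302 / 100 : ℝ) ≤ 2 / X := by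
    rw [le_div_iff₀ hXpos]
    have : (302 / 100 : ℝ) * X ≤ 302 / 100 * (1 / 10 ^ 5) :=
      mul_le_mul_of_nonneg_left hX3 (by norm_num)
    linarith [show (302 / 100 : ℝ) * (1 / 10 ^ 5) ≤ 2 by norm_num]
  obtain ⟨x, hx, hx'⟩ := intermediate_value_Icc h3
    (phi_cont_right (X := X) ⟨hXpos.le, hX1⟩).continuousOn ⟨h0.le, h2.le⟩
  exact ⟨x, hx.1, hx'⟩

end R1aux

open R1aux in
/-- The abscissa `ρ(X)`: `1 - X + X J_X(ρ) = 2 (1 - X)`. -/
theorem rho_exists : ∃ ρ : ℝ → ℝ, ContinuousOn ρ (Ioc 0 (1 / 10 ^ 5)) ∧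
    AntitoneOn ρ (Ioc 0 (1 / 10 ^ 5)) ∧
    (∀ X ∈ Ioc (0 : ℝ) (1 / 10 ^ 5), 302 / 100 ≤ ρ X ∧
      egfR (mom X) (ρ X) = 2 * (1 - X)) ∧
    Tendsto ρ (𝓝[>] 0) atTop ∧ ρ (1 / 10 ^ 5) ≤ 304 / 100 := by
  classical
  have hex : ∀ X : ℝ, ∃ x : ℝ, X ∈ Ioc (0 : ℝ) (1 / 10 ^ 5) → 302 / 100 ≤ x ∧ phi X x = 0 := by
    intro X
    by_cases hX : X ∈ Ioc (0 : ℝ) (1 / 10 ^ 5)
    · obtain ⟨x, hx⟩ := exists_rho hX
      exact ⟨x, fun _ => hx⟩
    · exact ⟨0, fun h => absurd h hX⟩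
  choose ρ hρ using hex
  have hI : ∀ {X : ℝ}, X ∈ Ioc (0 : ℝ) (1 / 10 ^ 5) → X ≤ 1 := fun h => h.2.trans (by norm_num)
  have hI' : Ioc (0 : ℝ) (1 / 10 ^ 5) ⊆ Icc 0 1 := fun X h => ⟨h.1.le, hI h⟩
  -- comparison with `ρ X` by signs
  have hlt : ∀ {X x : ℝ}, X ∈ Ioc (0 : ℝ) (1 / 10 ^ 5) → phi X x < 0 → x < ρ X := by
    intro X x hX h
    by_contra hc
    push Not at hc
    have h0 : 0 ≤ ρ X := by linarith [(hρ X hX).1]
    rcases hc.eq_or_lt with h1 | h1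
    · rw [← h1, (hρ X hX).2] at h
      exact lt_irrefl _ h
    · have := phi_strictMono_right hX.1 (hI hX) h0 h1
      rw [(hρ X hX).2] at this
      linarith
  have hgt : ∀ {X x : ℝ}, X ∈ Ioc (0 : ℝ) (1 / 10 ^ 5) → 0 ≤ x → 0 < phi X x → ρ X < x := by
    intro X x hX hx h
    by_contra hc
    push Not at hc
    rcases hc.eq_or_lt with h1 | h1
    · rw [h1, (hρ X hX).2] at h
      exact lt_irrefl _ h
    · have := phi_strictMono_right hX.1 (hI hX) hx h1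
      rw [(hρ X hX).2] at this
      linarith
  refine ⟨ρ, ?_, ?_, ?_, ?_, ?_⟩
  · -- continuity
    intro X hX
    have h0 : 302 / 100 ≤ ρ X := (hρ X hX).1
    refine tendsto_order.2 ⟨fun a ha => ?_, fun b hb => ?_⟩
    · rcases lt_or_ge a 0 with ha0 | ha0
      · filter_upwards [self_mem_nhdsWithin] with Y hY
        linarith [(hρ Y hY).1]
      · have h1 : phi X a < 0 := by
          have := phi_strictMono_right hX.1 (hI hX) ha0 ha
          rwa [(hρ X hX).2] at this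
        have h2 := ((phi_cont_left a).mono hI') X hX
        filter_upwards [h2.eventually_lt_const h1, self_mem_nhdsWithin] with Y hY1 hY2
        exact hlt hY2 hY1
    · have hb0 : 0 ≤ b := by linarith
      have h1 : 0 < phi X b := by
        have := phi_strictMono_right hX.1 (hI hX) (by linarith) hb
        rwa [(hρ X hX).2] at this
      have h2 := ((phi_cont_left b).mono hI') X hX
      filter_upwards [h2.eventually_const_lt h1, self_mem_nhdsWithin] with Y hY1 hY2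
      exact hgt hY2 hb0 hY1
  · -- antitone
    intro X hX Y hY hXY
    by_contra hc
    push Not at hc
    have h0 : 0 ≤ ρ X := by linarith [(hρ X hX).1]
    have h1 := phi_strictMono_right hX.1 (hI hX) h0 hc
    have h2 := phi_mono_left hX.1.le hXY (hI hY) (x := ρ Y) (by linarith)
    rw [(hρ X hX).2] at h1
    rw [(hρ Y hY).2] at h2
    linarith
  · intro X hX
    refine ⟨(hρ X hX).1, ?_⟩
    have := (hρ X hX).2
    unfold phi at this
    linarith
  · -- tends to infinity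
    rw [tendsto_atTop]
    intro M
    have h1 : phi 0 M < 0 := by
      unfold phi
      rw [egfR_mom_zero]
      norm_num
    have h2 := (phi_cont_left M) 0 ⟨le_rfl, zero_le_one⟩
    have h3 : ∀ᶠ Y in 𝓝[Icc (0 : ℝ) 1] 0, phi Y M < 0 := h2.eventually_lt_const h1
    have h4 : ∀ᶠ Y in 𝓝[Ioc (0 : ℝ) (1 / 10 ^ 5)] 0, phi Y M < 0 :=
      h3.filter_mono (nhdsWithin_mono _ hI')
    have h5 : 𝓝[>] (0 : ℝ) = 𝓝[Ioc (0 : ℝ) (1 / 10 ^ 5)] 0 :=
      (nhdsWithin_Ioc_eq_nhdsGT (by norm_num)).symm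
    rw [h5]
    filter_upwards [h4, self_mem_nhdsWithin] with Y hY1 hY2
    exact (hlt hY2 hY1).le
  · have h1 : (1 / 10 ^ 5 : ℝ) ∈ Ioc (0 : ℝ) (1 / 10 ^ 5) := ⟨by norm_num, le_rfl⟩
    refine (hgt h1 (by norm_num) ?_).le
    have := rho_bounds.2
    unfold phi
    linarith

end

end Pool.Agent.Lib_MP_1dbf07_co
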