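import Pool.Agent.Lib_MP_1dbf07_co.B0
import Pool.Agent.Lib_MP_1dbf07_co.A0

namespace Pool.Agent.Lib_MP_1dbf07_co

open MeasureTheory Set Filter Topology
open scoped Real Nat PowerSeries

noncomputable section

namespace S1Aux

variable {ν : Measure ℝ} {b : ℝ}

lemma mo_zero (h : Supp ν 0 b) : mo ν 0 = 1 := by
  have := h.prob
  simp [mo]

lemma mo_bound (h : Supp ν 0 b) (n : ℕ) : |mo ν n| ≤ b ^ n := by
  have := h.prob
  unfold mo
  have h1 : ‖∫ w, w ^ n ∂ν‖ ≤ b ^ n * ν.real univ := by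
    apply norm_integral_le_of_norm_le_const
    filter_upwards [h.supp] with w hw
    rw [norm_pow, Real.norm_eq_abs, abs_of_nonneg (by linarith [hw.1])]
    exact pow_le_pow_left₀ (by linarith [hw.1]) hw.2 n
  simpa using h1

lemma ae_pi (h : Supp ν 0 b) (m : ℕ) :
    ∀ᵐ x : Fin m → ℝ ∂(Measure.pi fun _ => ν), ∀ i, 0 ≤ x i ∧ x i ≤ b := by
  have := h.prob
  rw [ae_all_iff]
  intro i
  have h2 : Tendsto (fun x : Fin m → ℝ => x i) (ae (Measure.pi fun _ => ν)) (ae ν) :=
    Measure.tendsto_eval_ae_ae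
  have h3 := h2.eventually h.supp
  simpa using h3

lemma integrable_pi (h : Supp ν 0 b) (m n : ℕ) :
    Integrable (fun x : Fin m → ℝ => (∑ i, x i) ^ n) (Measure.pi fun _ => ν) := by
  have := h.prob
  refine Integrable.of_bound (by fun_prop) ((m * b) ^ n) ?_
  filter_upwards [ae_pi h m] with x hx
  have h0 : 0 ≤ ∑ i, x i := Finset.sum_nonneg fun i _ => (hx i).1
  rw [norm_pow, Real.norm_eq_abs, abs_of_nonneg h0]
  refine pow_le_pow_left₀ h0 ?_ n
  calc ∑ i, x i ≤ ∑ i : Fin m, b := Finset.sum_le_sum fun i _ => (hx i).2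
    _ = m * b := by simp

lemma integrable_pow (h : Supp ν 0 b) (n : ℕ) : Integrable (fun w : ℝ => w ^ n) ν := by
  have := h.prob
  refine Integrable.of_bound (by fun_prop) (b ^ n) ?_
  filter_upwards [h.supp] with w hw
  rw [norm_pow, Real.norm_eq_abs, abs_of_nonneg (by linarith [hw.1])]
  exact pow_le_pow_left₀ (by linarith [hw.1]) hw.2 n

lemma Mm_zero (h : Supp ν 0 b) (n : ℕ) : Mm ν 0 n = 0 ^ n := by
  have := h.prob
  simp [Mm]

lemma Mm_succ (h : Supp ν 0 b) (m n : ℕ) :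
    Mm ν (m + 1) n = ∑ k ∈ Finset.range (n + 1), (n.choose k : ℝ) * mo ν k * Mm ν m (n - k) := by
  have := h.prob
  have hmp := measurePreserving_piFinSuccAbove (fun _ : Fin (m + 1) => ν) 0
  have h1 : Mm ν (m + 1) n =
      ∫ y : ℝ × (Fin m → ℝ), (y.1 + ∑ i, y.2 i) ^ n ∂(ν.prod (Measure.pi fun _ => ν)) := by
    unfold Mm
    rw [← hmp.integral_comp' (g := fun y : ℝ × (Fin m → ℝ) => (y.1 + ∑ i, y.2 i) ^ n)]
    refine integral_congr_ae (Eventually.of_forall fun x => ?_)
    simp only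
    rw [Fin.sum_univ_succ]
    rfl
  rw [h1]
  have h2 : ∀ y : ℝ × (Fin m → ℝ), (y.1 + ∑ i, y.2 i) ^ n =
      ∑ k ∈ Finset.range (n + 1), (y.1 ^ k * ((∑ i, y.2 i) ^ (n - k) * (n.choose k : ℝ))) := by
    intro y
    rw [add_pow]
    exact Finset.sum_congr rfl fun k _ => by ring
  simp_rw [h2]
  rw [integral_finsetSum]
  · refine Finset.sum_congr rfl fun k _ => ?_
    rw [integral_prod_mul (μ := ν) (ν := Measure.pi fun _ => ν) (fun x : ℝ => x ^ k)
      (fun x : Fin m → ℝ => (∑ i, x i) ^ (n - k) * (n.choose k : ℝ)), integral_mul_const]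
    unfold mo Mm
    ring
  · intro k _
    exact (integrable_pow h k).mul_prod ((integrable_pi h m (n - k)).mul_const _)

/-- The formal power series of `J^m`. -/
lemma pow_eps (h : Supp ν 0 b) (m : ℕ) : eps (mo ν) ^ m = eps (Mm ν m) := by
  induction m with
  | zero =>
    ext n
    rw [pow_zero, PowerSeries.coeff_one, eps, PowerSeries.coeff_mk, Mm_zero h]
    by_cases hn : n = 0 <;> simp [hn]
  | succ m ih =>
    rw [pow_succ', ih]
    ext n
    rw [PowerSeries.coeff_mul, eps, eps, eps, PowerSeries.coeff_mk, Mm_succ h,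
      Finset.Nat.sum_antidiagonal_eq_sum_range_succ_mk, Finset.sum_div]
    refine Finset.sum_congr rfl fun k hk => ?_
    rw [Finset.mem_range] at hk
    simp only [PowerSeries.coeff_mk]
    rw [Nat.cast_choose ℝ (by omega : k ≤ n)]
    have h1 : (n ! : ℝ) ≠ 0 := by positivity
    have h2 : (k ! : ℝ) ≠ 0 := by positivity
    have h3 : ((n - k)! : ℝ) ≠ 0 := by positivity
    field_simp

lemma coeff_bound (h : Supp ν 0 b) (m n : ℕ) :
    |PowerSeries.coeff n (eps (mo ν) ^ m)| ≤ (m * b) ^ n := by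
  have hp : IsProbabilityMeasure ν := h.prob
  have hM : |Mm ν m n| ≤ (m * b) ^ n := by
    unfold Mm
    have h1 : ‖∫ x : Fin m → ℝ, (∑ i, x i) ^ n ∂(Measure.pi fun _ => ν)‖ ≤
        (m * b) ^ n * (Measure.pi fun _ : Fin m => ν).real univ := by
      apply norm_integral_le_of_norm_le_const
      filter_upwards [ae_pi h m] with x hx
      have h0 : 0 ≤ ∑ i, x i := Finset.sum_nonneg fun i _ => (hx i).1
      rw [norm_pow, Real.norm_eq_abs, abs_of_nonneg h0]
      refine pow_le_pow_left₀ h0 ?_ n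
      calc ∑ i, x i ≤ ∑ i : Fin m, b := Finset.sum_le_sum fun i _ => (hx i).2
        _ = m * b := by simp
    simpa using h1
  rw [pow_eps h, eps, PowerSeries.coeff_mk, abs_div, abs_of_pos (by positivity : (0 : ℝ) < n !)]
  refine (div_le_self (abs_nonneg _) ?_).trans hM
  exact_mod_cast Nat.one_le_iff_ne_zero.mpr (Nat.factorial_ne_zero n)

lemma summable_coeff (h : Supp ν 0 b) (hb : 0 ≤ b) {Y : ℝ} (hY0 : 0 ≤ Y) (hY : Y < 1) (n : ℕ) :
    Summable fun j : ℕ => (-Y) ^ j * PowerSeries.coeff n (eps (mo ν) ^ j) := by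
  have h1 : Summable fun j : ℕ => ‖((j : ℝ) ^ n * Y ^ j : ℝ)‖ :=
    summable_norm_pow_mul_geometric_of_norm_lt_one n (by rw [Real.norm_eq_abs, abs_of_nonneg hY0]; exact hY)
  refine Summable.of_norm_bounded (g := fun j : ℕ => b ^ n * ‖((j : ℝ) ^ n * Y ^ j : ℝ)‖) (h1.mul_left _) ?_
  intro j
  rw [norm_mul, norm_pow, norm_neg, norm_mul, norm_pow, norm_pow]
  simp only [Real.norm_eq_abs]
  rw [abs_of_nonneg hY0, abs_of_nonneg (Nat.cast_nonneg (α := ℝ) j)]
  have h2 := coeff_bound h j n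
  rw [mul_pow] at h2
  calc Y ^ j * |PowerSeries.coeff n (eps (mo ν) ^ j)| ≤ Y ^ j * ((j : ℝ) ^ n * b ^ n) :=
        mul_le_mul_of_nonneg_left h2 (by positivity)
    _ = b ^ n * ((j : ℝ) ^ n * Y ^ j) := by ring

/-- The formal power series `1/(1+YJ)`. -/
def invS (ν : Measure ℝ) (Y : ℝ) : PowerSeries ℝ :=
  PowerSeries.mk fun n => ∑' j : ℕ, (-Y) ^ j * PowerSeries.coeff n (eps (mo ν) ^ j)

/-- Multiplication by a power series commutes with the sum. -/
lemma hasSum_mul (h : Supp ν 0 b) (hb : 0 ≤ b) {Y : ℝ} (hY0 : 0 ≤ Y) (hY : Y < 1)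
    (G : PowerSeries ℝ) (n : ℕ) :
    HasSum (fun j : ℕ => (-Y) ^ j * PowerSeries.coeff n (G * eps (mo ν) ^ j))
      (PowerSeries.coeff n (G * invS ν Y)) := by
  have h1 : ∀ j : ℕ, (-Y) ^ j * PowerSeries.coeff n (G * eps (mo ν) ^ j) =
      ∑ p ∈ Finset.HasAntidiagonal.antidiagonal n, PowerSeries.coeff p.1 G *
        ((-Y) ^ j * PowerSeries.coeff p.2 (eps (mo ν) ^ j)) := by
    intro j
    rw [PowerSeries.coeff_mul, Finset.mul_sum]
    exact Finset.sum_congr rfl fun p _ => by ring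
  simp_rw [h1]
  rw [PowerSeries.coeff_mul]
  refine hasSum_sum fun p _ => ?_
  refine HasSum.mul_left _ ?_
  rw [invS, PowerSeries.coeff_mk]
  exact (summable_coeff h hb hY0 hY p.2).hasSum

lemma mul_invS (h : Supp ν 0 b) (hb : 0 ≤ b) {Y : ℝ} (hY0 : 0 ≤ Y) (hY : Y < 1) :
    (1 + PowerSeries.C Y * eps (mo ν)) * invS ν Y = 1 := by
  ext n
  have h1 := hasSum_mul h hb hY0 hY (1 + PowerSeries.C Y * eps (mo ν)) n
  have h2 : ∀ j : ℕ, (-Y) ^ j * PowerSeries.coeff n ((1 + PowerSeries.C Y * eps (mo ν)) *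
      eps (mo ν) ^ j) = (-Y) ^ j * PowerSeries.coeff n (eps (mo ν) ^ j) -
        (-Y) ^ (j + 1) * PowerSeries.coeff n (eps (mo ν) ^ (j + 1)) := by
    intro j
    rw [add_mul, one_mul, mul_assoc, ← pow_succ', map_add, PowerSeries.coeff_C_mul]
    ring
  simp_rw [h2] at h1
  have h3 : HasSum (fun j : ℕ => (-Y) ^ j * PowerSeries.coeff n (eps (mo ν) ^ j) -
        (-Y) ^ (j + 1) * PowerSeries.coeff n (eps (mo ν) ^ (j + 1)))
      ((-Y) ^ 0 * PowerSeries.coeff n (eps (mo ν) ^ 0)) := by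
    have hs := summable_coeff h hb hY0 hY n
    have hs' := (summable_nat_add_iff 1).mpr hs
    have := hs.hasSum.sub hs'.hasSum
    rw [hs.tsum_eq_zero_add] at this
    simpa using this
  rw [h1.unique h3]
  simp

end S1Aux

/-- The cumulants of `(1-X) δ_0 + X ν` as an alternating series. -/
theorem kap_series {ν : Measure ℝ} {b : ℝ} (h : Supp ν 0 b) (hb : 0 ≤ b) {X : ℝ} (hX : 0 < X)
    (hX' : X < 1 / 2) {n : ℕ} (hn : 1 ≤ n) :
    HasSum (fun j : ℕ => (-1 : ℝ) ^ j * (X / (1 - X)) ^ (j + 1) / (j + 1) * Mm ν (j + 1) n)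
      (kap (mX ν X) n) := by
  have h1X : (0 : ℝ) < 1 - X := by linarith
  set Y : ℝ := X / (1 - X) with hYdef
  have hY0 : 0 ≤ Y := by positivity
  have hY : Y < 1 := by rw [hYdef, div_lt_one h1X]; linarith
  set J := eps (mo ν) with hJ
  have hM : eps (mX ν X) = PowerSeries.C (1 - X) * (1 + PowerSeries.C Y * J) := by
    ext k
    rw [PowerSeries.coeff_C_mul, map_add, PowerSeries.coeff_C_mul, hJ, eps, eps,
      PowerSeries.coeff_mk, PowerSeries.coeff_mk, PowerSeries.coeff_one]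
    by_cases hk : k = 0
    · subst hk
      simp only [mX, if_true, S1Aux.mo_zero h, hYdef]
      field_simp
      simp
    · simp only [mX, if_neg hk, mo, hYdef]
      field_simp
      ring
  have hinv : (eps (mX ν X))⁻¹ = PowerSeries.C (1 - X)⁻¹ * S1Aux.invS ν Y := by
    rw [PowerSeries.inv_eq_iff_mul_eq_one]
    · rw [hM]
      calc PowerSeries.C (1 - X)⁻¹ * S1Aux.invS ν Y * (PowerSeries.C (1 - X) *
          (1 + PowerSeries.C Y * J))
          = (PowerSeries.C (1 - X)⁻¹ * PowerSeries.C (1 - X)) *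
            ((1 + PowerSeries.C Y * J) * S1Aux.invS ν Y) := by ring
        _ = 1 := by
            rw [S1Aux.mul_invS h hb hY0 hY, ← map_mul, inv_mul_cancel₀ h1X.ne']
            simp
    · rw [← PowerSeries.coeff_zero_eq_constantCoeff_apply, eps, PowerSeries.coeff_mk]
      simp [mX]
  have hder : PowerSeries.derivative ℝ (eps (mX ν X)) = PowerSeries.C X *
      PowerSeries.derivative ℝ J := by
    rw [hM]
    ext k
    rw [PowerSeries.coeff_derivative, PowerSeries.coeff_C_mul, map_add, PowerSeries.coeff_C_mul,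
      PowerSeries.coeff_one, PowerSeries.coeff_C_mul, PowerSeries.coeff_derivative, hYdef]
    simp only [Nat.add_eq_zero_iff, one_ne_zero, and_false, if_false, zero_add]
    field_simp
  have hkey := S1Aux.hasSum_mul h hb hY0 hY (PowerSeries.derivative ℝ J) (n - 1)
  have hkap : kap (mX ν X) n = ((n - 1)! : ℝ) * Y *
      PowerSeries.coeff (n - 1) (PowerSeries.derivative ℝ J * S1Aux.invS ν Y) := by
    unfold kap
    rw [hinv, hder]
    have : PowerSeries.C X * PowerSeries.derivative ℝ J * (PowerSeries.C (1 - X)⁻¹ *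
        S1Aux.invS ν Y) = PowerSeries.C (X * (1 - X)⁻¹) * (PowerSeries.derivative ℝ J *
        S1Aux.invS ν Y) := by
      rw [map_mul]; ring
    rw [this, PowerSeries.coeff_C_mul, hYdef, div_eq_mul_inv]
    ring
  rw [hkap]
  have hfin := hkey.mul_left (((n - 1)! : ℝ) * Y)
  obtain ⟨n, rfl⟩ : ∃ n', n = n' + 1 := ⟨n - 1, by omega⟩
  simp only [Nat.add_sub_cancel] at hfin ⊢
  have hfun : (fun j : ℕ => (-1 : ℝ) ^ j * Y ^ (j + 1) / (j + 1) * Mm ν (j + 1) (n + 1)) =
      fun j : ℕ => (n ! : ℝ) * Y * ((-Y) ^ j *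
        PowerSeries.coeff n (PowerSeries.derivative ℝ J * J ^ j)) := by
    funext j
    have hd : PowerSeries.coeff n (PowerSeries.derivative ℝ (J ^ (j + 1))) =
        (j + 1 : ℝ) * PowerSeries.coeff n (PowerSeries.derivative ℝ J * J ^ j) := by
      rw [Derivation.leibniz_pow, Nat.add_sub_cancel]
      have : (j + 1) • J ^ j • PowerSeries.derivative ℝ J =
          PowerSeries.C (j + 1 : ℝ) * (PowerSeries.derivative ℝ J * J ^ j) := by
        rw [smul_eq_mul, nsmul_eq_mul]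
        push_cast
        simp only [map_add, map_natCast, map_one]
        ring
      rw [this, PowerSeries.coeff_C_mul]
    rw [PowerSeries.coeff_derivative, S1Aux.pow_eps h, eps, PowerSeries.coeff_mk,
      Nat.factorial_succ] at hd
    push_cast at hd
    have hj : (j + 1 : ℝ) ≠ 0 := by positivity
    have hnf : (n ! : ℝ) ≠ 0 := by positivity
    have hn1 : (n + 1 : ℝ) ≠ 0 := by positivity
    have hd' : PowerSeries.coeff n (PowerSeries.derivative ℝ J * J ^ j) =
        Mm ν (j + 1) (n + 1) / ((n ! : ℝ) * (j + 1)) := by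
      rw [eq_div_iff (by positivity)]
      field_simp at hd
      linarith
    rw [hd', neg_pow Y j]
    field_simp
    try ring
  rw [hfun]
  exact hfin

end

end Pool.Agent.Lib_MP_1dbf07_co
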